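import Mathlib
import Pool.Agent.BrunHooley.Mertens

set_option autoImplicit false

/-! Mertens' second theorem with the error `O(1/log x)`: the proof of `Ah/AhMert.lean` over
`Pp/PpMert.lean` and `Mo/PrimeSq.lean`, here with few imports. -/

open Filter Topology Set MeasureTheory Complex
open scoped Real ArithmeticFunction ContDiff

namespace Pool.Agent.MP_67227b_nt.Gk

private lemma exists_nonprime : ∃ C : ℝ, 0 ≤ C ∧ ∀ n : ℕ,
    ∑ d ∈ Finset.Ioc 0 n, (if d.Prime then 0 else Λ d) / d ≤ C := by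
  have h := ArithmeticFunction.vonMangoldt.summable_residueClass_non_primes_div (q := 1) 0
  have e : (fun n : ℕ ↦ (if n.Prime then 0 else ArithmeticFunction.vonMangoldt.residueClass (q := 1) 0 n) / (n : ℝ))
      = fun n : ℕ => (if n.Prime then 0 else Λ n) / (n : ℝ) := by
    funext n
    have : ArithmeticFunction.vonMangoldt.residueClass (q := 1) 0 n = Λ n := by
      rw [ArithmeticFunction.vonMangoldt.residueClass, Set.indicator_of_mem]
      simp only [Set.mem_ofPred_eq]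
      exact Subsingleton.elim _ _
    rw [this]
  rw [e] at h
  have hn : ∀ n : ℕ, 0 ≤ (if n.Prime then 0 else Λ n) / (n : ℝ) := by
    intro n
    split_ifs
    · simp
    · positivity
  exact ⟨_, tsum_nonneg hn, fun n => h.sum_le_tsum _ fun i _ => hn i⟩

private lemma N1_abs_M {x : ℝ} (hx : 1 ≤ x) :
    |Pool.Agent.BrunHooley.MertensAux.M ⌊x⌋₊ - Real.log x| ≤ 6 := by
  have hn : ⌊x⌋₊ ≠ 0 := by
    have := (Nat.one_le_floor_iff x).mpr hx
    omega
  have hn1 : (1 : ℝ) ≤ (⌊x⌋₊ : ℝ) := by exact_mod_cast Nat.one_le_iff_ne_zero.mpr hn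
  have h1 := Pool.Agent.BrunHooley.MertensAux.M_ge _ hn
  have h2 := Pool.Agent.BrunHooley.MertensAux.M_le _ hn
  have hle : (⌊x⌋₊ : ℝ) ≤ x := Nat.floor_le (by linarith)
  have hlt : x < (⌊x⌋₊ : ℝ) + 1 := Nat.lt_floor_add_one x
  have h3 : Real.log (⌊x⌋₊ : ℝ) ≤ Real.log x := Real.log_le_log (by linarith) hle
  have h4 : Real.log x ≤ Real.log 2 + Real.log (⌊x⌋₊ : ℝ) := by
    rw [← Real.log_mul (by norm_num) (by linarith)]
    exact Real.log_le_log (by linarith) (by linarith)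
  have hlog2 := Real.log_two_lt_d9
  have hlog4 : Real.log 4 = 2 * Real.log 2 := by
    rw [show (4 : ℝ) = 2 ^ 2 by norm_num, Real.log_pow]; norm_num
  rw [abs_le]
  constructor <;> linarith

private lemma N1_split {a b : ℕ} (hab : a ≤ b) :
    ∑ n ∈ Finset.Ioc a b, Λ n / n =
      Pool.Agent.BrunHooley.MertensAux.M b - Pool.Agent.BrunHooley.MertensAux.M a := by
  have h1 : Pool.Agent.BrunHooley.MertensAux.M b =
      Pool.Agent.BrunHooley.MertensAux.M a + ∑ d ∈ Finset.Ioc a b, Λ d / d := by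
    rw [Pool.Agent.BrunHooley.MertensAux.M, Pool.Agent.BrunHooley.MertensAux.M,
      ← Finset.sum_union]
    · congr 1
      ext z; simp only [Finset.mem_Ioc, Finset.mem_union]; omega
    · rw [Finset.disjoint_left]; intro z; simp only [Finset.mem_Ioc]; omega
  rw [h1]; ring

private theorem sum_vonMangoldt_div : ∃ C : ℝ, 0 < C ∧ ∀ x y : ℝ, 1 ≤ x → x ≤ y →
    |(∑ n ∈ Finset.Ioc ⌊x⌋₊ ⌊y⌋₊, Λ n / n) - (Real.log y - Real.log x)| ≤ C := by
  refine ⟨12, by norm_num, fun x y hx hxy => ?_⟩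
  rw [N1_split (Nat.floor_mono hxy)]
  have h1 := N1_abs_M hx
  have h2 := N1_abs_M (hx.trans hxy)
  rw [abs_le] at h1 h2 ⊢
  constructor <;> linarith [h1.1, h1.2, h2.1, h2.2]

private theorem sum_prime_div : ∃ C : ℝ, 0 < C ∧ ∀ x y : ℝ, 1 ≤ x → x ≤ y →
    |(∑ p ∈ (Finset.Ioc ⌊x⌋₊ ⌊y⌋₊).filter Nat.Prime, Real.log p / p) -
      (Real.log y - Real.log x)| ≤ C := by
  obtain ⟨C, hC, h⟩ := sum_vonMangoldt_div
  obtain ⟨D, hD, hd⟩ := exists_nonprime
  refine ⟨C + D, by linarith, fun x y hx hxy => ?_⟩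
  have h1 := h x y hx hxy
  have h2 : ∑ n ∈ Finset.Ioc ⌊x⌋₊ ⌊y⌋₊, Λ n / n =
      (∑ p ∈ (Finset.Ioc ⌊x⌋₊ ⌊y⌋₊).filter Nat.Prime, Real.log p / p) +
        ∑ d ∈ Finset.Ioc ⌊x⌋₊ ⌊y⌋₊, (if d.Prime then 0 else Λ d) / (d : ℝ) := by
    rw [Finset.sum_filter, ← Finset.sum_add_distrib]
    refine Finset.sum_congr rfl fun d _ => ?_
    split_ifs with hp
    · rw [ArithmeticFunction.vonMangoldt_apply_prime hp]; ring
    · ring
  have hnn : ∀ d : ℕ, 0 ≤ (if d.Prime then 0 else Λ d) / (d : ℝ) := by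
    intro d
    split_ifs
    · simp
    · positivity
  have h3 : 0 ≤ ∑ d ∈ Finset.Ioc ⌊x⌋₊ ⌊y⌋₊, (if d.Prime then 0 else Λ d) / (d : ℝ) :=
    Finset.sum_nonneg fun d _ => hnn d
  have h4 : ∑ d ∈ Finset.Ioc ⌊x⌋₊ ⌊y⌋₊, (if d.Prime then 0 else Λ d) / (d : ℝ) ≤ D := by
    refine le_trans (Finset.sum_le_sum_of_subset_of_nonneg
      (Finset.Ioc_subset_Ioc_left (Nat.zero_le _)) fun d _ _ => hnn d) (hd _)
  rw [abs_le] at h1 ⊢
  constructor <;> linarith [h1.1, h1.2]

/-- coefficients -/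
private noncomputable def cc (k : ℕ) : ℝ := if k.Prime then Real.log k / k else 0

private theorem hd {t : ℝ} (ht : 1 < t) : HasDerivAt (fun t : ℝ => (Real.log t)⁻¹)
    (-(t⁻¹ / Real.log t ^ 2)) t := by
  have h0 : (0 : ℝ) < t := by linarith
  have h1 : 0 < Real.log t := Real.log_pos ht
  have := (Real.hasDerivAt_log h0.ne').fun_inv h1.ne'
  rw [neg_div] at this
  exact this

private theorem hd2 {t : ℝ} (ht : 1 < t) : HasDerivAt (fun t : ℝ => Real.log (Real.log t))
    (t⁻¹ / Real.log t) t := by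
  have h0 : (0 : ℝ) < t := by linarith
  have h1 : 0 < Real.log t := Real.log_pos ht
  exact (Real.hasDerivAt_log h0.ne').log h1.ne'

private theorem cc_sum : ∃ C : ℝ, 0 < C ∧ ∀ t : ℝ, 1 ≤ t →
    |(∑ k ∈ Finset.Icc 0 ⌊t⌋₊, cc k) - Real.log t| ≤ C := by
  obtain ⟨C, hC, h⟩ := sum_prime_div
  refine ⟨C, hC, fun t ht => ?_⟩
  have h1 := h 1 t le_rfl ht
  rw [Real.log_one, sub_zero, Nat.floor_one] at h1
  have h2 : ∑ k ∈ Finset.Icc 0 ⌊t⌋₊, cc k =
      ∑ p ∈ (Finset.Ioc 1 ⌊t⌋₊).filter Nat.Prime, Real.log p / p := by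
    rw [Finset.sum_filter]
    symm
    apply Finset.sum_subset
    · intro k hk
      rw [Finset.mem_Ioc] at hk
      rw [Finset.mem_Icc]
      exact ⟨Nat.zero_le _, hk.2⟩
    · intro k hk hk2
      rw [Finset.mem_Icc] at hk
      rw [Finset.mem_Ioc] at hk2
      rw [if_neg]
      intro hp
      exact hk2 ⟨hp.one_lt, hk.2⟩
  rw [h2]
  exact h1

/-- Mertens: `∑_{x < p ≤ y} 1/p = log (log y/log x) + O(1/log x)`. -/
theorem mert : ∃ C : ℝ, 0 < C ∧ ∀ x y : ℝ, 2 ≤ x → x ≤ y →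
    |(∑ p ∈ (Finset.Ioc ⌊x⌋₊ ⌊y⌋₊).filter Nat.Prime, (1 : ℝ) / p) -
      (Real.log (Real.log y) - Real.log (Real.log x))| ≤ C / Real.log x := by
  obtain ⟨C, hC, hS⟩ := cc_sum
  refine ⟨2 * C, by positivity, fun x y hx hxy => ?_⟩
  have hx1 : 1 < x := by linarith
  have hlx : 0 < Real.log x := Real.log_pos hx1
  have hly : 0 < Real.log y := Real.log_pos (by linarith)
  have hgt : ∀ t ∈ Icc x y, 1 < t := fun t ht => lt_of_lt_of_le hx1 ht.1
  have hdf : ∀ t ∈ Icc x y, deriv (fun t : ℝ => (Real.log t)⁻¹) t = -(t⁻¹ / Real.log t ^ 2) :=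
    fun t ht => (hd (hgt t ht)).deriv
  have hcont1 : ContinuousOn (fun t : ℝ => -(t⁻¹ / Real.log t ^ 2)) (Icc x y) := by
    have h1 : ContinuousOn (fun t : ℝ => t⁻¹) (Icc x y) :=
      continuousOn_id.inv₀ fun t ht => by
        have := hgt t ht
        show t ≠ 0
        linarith
    have h2 : ContinuousOn Real.log (Icc x y) :=
      Real.continuousOn_log.mono fun t ht => by
        have := hgt t ht
        show t ≠ 0
        linarith
    exact (h1.div (h2.pow 2) fun t ht => (pow_pos (Real.log_pos (hgt t ht)) 2).ne').neg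
  have hint1 : IntegrableOn (fun t : ℝ => -(t⁻¹ / Real.log t ^ 2)) (Icc x y) :=
    hcont1.integrableOn_Icc
  have hint : IntegrableOn (deriv fun t : ℝ => (Real.log t)⁻¹) (Icc x y) :=
    hint1.congr_fun (fun t ht => (hdf t ht).symm) measurableSet_Icc
  have habel := sum_mul_eq_sub_sub_integral_mul cc (f := fun t : ℝ => (Real.log t)⁻¹)
    (by linarith : (0 : ℝ) ≤ x) hxy (fun t ht => (hd (hgt t ht)).differentiableAt) hint
  have hsum : ∑ k ∈ Finset.Ioc ⌊x⌋₊ ⌊y⌋₊, (Real.log (k : ℝ))⁻¹ * cc k =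
      ∑ p ∈ (Finset.Ioc ⌊x⌋₊ ⌊y⌋₊).filter Nat.Prime, (1 : ℝ) / p := by
    rw [Finset.sum_filter]
    apply Finset.sum_congr rfl
    intro k hk
    unfold cc
    split_ifs with hp
    · have h1 : 0 < Real.log (k : ℝ) := Real.log_pos (by exact_mod_cast hp.one_lt)
      have h2 : (k : ℝ) ≠ 0 := by exact_mod_cast hp.ne_zero
      field_simp
    · rw [mul_zero]
  rw [hsum] at habel
  rw [habel]
  -- integral of `f' * S`
  have hI : IntegrableOn (fun t => deriv (fun t : ℝ => (Real.log t)⁻¹) t *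
      ∑ k ∈ Finset.Icc 0 ⌊t⌋₊, cc k) (Icc x y) :=
    integrableOn_mul_sum_Icc cc (by linarith) hint
  have hI' : IntervalIntegrable (fun t => deriv (fun t : ℝ => (Real.log t)⁻¹) t *
      ∑ k ∈ Finset.Icc 0 ⌊t⌋₊, cc k) volume x y := by
    rw [intervalIntegrable_iff_integrableOn_Ioc_of_le hxy]
    exact hI.mono_set Ioc_subset_Icc_self
  rw [← intervalIntegral.integral_of_le hxy]
  have key : ∀ c : ℝ, (∫ t in x..y, -(t⁻¹ / Real.log t ^ 2) * (Real.log t + c)) =
      c * ((Real.log y)⁻¹ - (Real.log x)⁻¹) -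
        (Real.log (Real.log y) - Real.log (Real.log x)) := by
    intro c
    have hder : ∀ t ∈ uIcc x y, HasDerivAt
        (fun t : ℝ => c * (Real.log t)⁻¹ - Real.log (Real.log t))
        (-(t⁻¹ / Real.log t ^ 2) * (Real.log t + c)) t := by
      intro t ht
      rw [uIcc_of_le hxy] at ht
      have h1 := (hd (hgt t ht)).const_mul c
      have h2 := h1.fun_sub (hd2 (hgt t ht))
      have hl : Real.log t ≠ 0 := (Real.log_pos (hgt t ht)).ne'
      have e : -(t⁻¹ / Real.log t ^ 2) * (Real.log t + c) =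
          c * -(t⁻¹ / Real.log t ^ 2) - t⁻¹ / Real.log t := by
        have e1 : t⁻¹ / Real.log t = t⁻¹ / Real.log t ^ 2 * Real.log t := by
          rw [pow_two, ← div_div, div_mul_cancel₀ _ hl]
        rw [e1]
        ring
      rw [e]
      exact h2
    rw [intervalIntegral.integral_eq_sub_of_hasDerivAt hder]
    · ring
    · apply ContinuousOn.intervalIntegrable
      rw [uIcc_of_le hxy]
      apply hcont1.mul
      apply ContinuousOn.add _ continuousOn_const
      exact Real.continuousOn_log.mono fun t ht => by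
        have := hgt t ht
        show t ≠ 0
        linarith
  have hci : ∀ c : ℝ, IntervalIntegrable (fun t : ℝ => -(t⁻¹ / Real.log t ^ 2) * (Real.log t + c))
      volume x y := by
    intro c
    apply ContinuousOn.intervalIntegrable
    rw [uIcc_of_le hxy]
    apply hcont1.mul
    apply ContinuousOn.add _ continuousOn_const
    exact Real.continuousOn_log.mono fun t ht => by
      have := hgt t ht
      show t ≠ 0
      linarith
  have hneg : ∀ t ∈ Icc x y, 0 ≤ t⁻¹ / Real.log t ^ 2 := fun t ht => by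
    have h1 := hgt t ht
    have h2 : 0 < t := by linarith
    positivity
  have hlow : (∫ t in x..y, -(t⁻¹ / Real.log t ^ 2) * (Real.log t + C)) ≤
      ∫ t in x..y, deriv (fun t : ℝ => (Real.log t)⁻¹) t * ∑ k ∈ Finset.Icc 0 ⌊t⌋₊, cc k := by
    apply intervalIntegral.integral_mono_on hxy (hci C) hI'
    intro t ht
    rw [hdf t ht]
    have h1 := (abs_le.1 (hS t (hgt t ht).le)).2
    have h2 := mul_le_mul_of_nonneg_left h1 (hneg t ht)
    nlinarith [hneg t ht]
  have hupp : (∫ t in x..y, deriv (fun t : ℝ => (Real.log t)⁻¹) t *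
      ∑ k ∈ Finset.Icc 0 ⌊t⌋₊, cc k) ≤
      ∫ t in x..y, -(t⁻¹ / Real.log t ^ 2) * (Real.log t + -C) := by
    apply intervalIntegral.integral_mono_on hxy hI' (hci (-C))
    intro t ht
    rw [hdf t ht]
    have h1 := (abs_le.1 (hS t (hgt t ht).le)).1
    have h2 := mul_le_mul_of_nonneg_left h1 (hneg t ht)
    nlinarith [hneg t ht]
  rw [key] at hlow hupp
  have hSx := abs_le.1 (hS x (by linarith))
  have hSy := abs_le.1 (hS y (by linarith))
  have ex : (Real.log x)⁻¹ * Real.log x = 1 := inv_mul_cancel₀ hlx.ne'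
  have ey : (Real.log y)⁻¹ * Real.log y = 1 := inv_mul_cancel₀ hly.ne'
  have ix : 0 < (Real.log x)⁻¹ := inv_pos.2 hlx
  have iy : 0 < (Real.log y)⁻¹ := inv_pos.2 hly
  have a1 := mul_le_mul_of_nonneg_left hSx.1 ix.le
  have a2 := mul_le_mul_of_nonneg_left hSx.2 ix.le
  have a3 := mul_le_mul_of_nonneg_left hSy.1 iy.le
  have a4 := mul_le_mul_of_nonneg_left hSy.2 iy.le
  rw [mul_sub, ex] at a1 a2
  rw [mul_sub, ey] at a3 a4
  rw [abs_le, div_eq_mul_inv]
  constructor <;> nlinarith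

end Pool.Agent.MP_67227b_nt.Gk
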