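import Mathlib
import Pool.Agent.MP_67227b_nt.Gg.GgDefs

set_option autoImplicit false

/-!
Project GK (MP_67227b_nt): the lower bound for the form factor with a Dirichlet polynomial as weight.
`L = log T`; `P(t) = ∑ a_m m^{-1/2-it}` over `m ≤ T^{A₀}`; the test function is
`W(t) = ∑ b_m m^{-1/2-it} V_m(t)`, `V_m(t) = ∫ u^{-1/2-it} η(log u - αL) E_m(u) du`.
-/

open Filter Topology Set MeasureTheory Complex
open scoped Real ContDiff ArithmeticFunction ArithmeticFunction.Moebius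

namespace Pool.Agent.MP_67227b_nt.Gk

open Pool.Agent.MP_67227b_nt.Gg (Eta Rho wt ex PP)

/-- The frequencies `m ≤ T^{A₀}` of the weight `P`. -/
noncomputable def Mk (A₀ T : ℝ) : Finset ℕ := Finset.Icc 1 ⌊T ^ A₀⌋₊

/-- The denominators `A`, `T^{α-1+c} < A ≤ T^{1/2-A₀-c}`. -/
noncomputable def Ak (A₀ c α T : ℝ) : Finset ℕ :=
  Finset.Ioc ⌊T ^ (α - 1 + c)⌋₊ ⌊T ^ (1 / 2 - A₀ - c)⌋₊

/-- The numerators `B ≤ T` coprime to `mA`. -/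
noncomputable def Bk (T : ℝ) (m A : ℕ) : Finset ℕ :=
  (Finset.Icc 1 ⌊T⌋₊).filter fun B => B.Coprime (m * A)

/-- The model of the primes for the frequency `m`:
`E_m(u) = ∑_A ∑_{(B, mA) = 1} (μ(A)/φ(A)) ρ(2πuB/(AT)) e(uB/A)`. -/
noncomputable def Ek (ρ : ℝ → ℝ) (A₀ c α T : ℝ) (m : ℕ) (u : ℝ) : ℂ :=
  ∑ A ∈ Ak A₀ c α T, ∑ B ∈ Bk T m A,
    (((μ A : ℝ) / (Nat.totient A : ℝ) * wt ρ T A B u : ℝ) : ℂ) * ex (u * B / A)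

/-- The weight `P(t) = ∑ a_m m^{-1/2-it}`. -/
noncomputable def Pw (A₀ T : ℝ) (a : ℕ → ℂ) (t : ℝ) : ℂ :=
  ∑ m ∈ Mk A₀ T, a m * (m : ℂ) ^ (-(1 / 2 + (t : ℂ) * I))

/-- `w = e^v`: the function `e^{v/2} ∑_m (b_m/m) η(v - log m - αL) E_m(e^v/m)`, whose Fourier
transform is the test function. -/
noncomputable def fW (η ρ : ℝ → ℝ) (A₀ c α T : ℝ) (b : ℕ → ℂ) (v : ℝ) : ℂ :=
  (Real.exp (v / 2) : ℂ) * ∑ m ∈ Mk A₀ T, b m *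
    ((1 / (m : ℝ) * η (v - Real.log m - α * Real.log T) : ℝ) : ℂ) *
      Ek ρ A₀ c α T m (Real.exp v / m)

/-- The test function `W(t) = ∫ f_W(v) e^{-itv} dv = ∑_m b_m m^{-1/2-it} V_m(t)`. -/
noncomputable def Wk (η ρ : ℝ → ℝ) (A₀ c α T : ℝ) (b : ℕ → ℂ) (t : ℝ) : ℂ :=
  ∫ v : ℝ, fW η ρ A₀ c α T b v * Complex.exp (-(I * t * v))

/-- The weight `η(log n - αL) η(log(nm/m') - αL) ρ(2π(nm/m')B/(AT))`. -/
noncomputable def wk (η ρ : ℝ → ℝ) (α T : ℝ) (n m m' A B : ℕ) : ℝ :=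
  η (Real.log n - α * Real.log T) * η (Real.log (n * m / m') - α * Real.log T) *
    wt ρ T A B (n * m / m')

/-- The correlation `∑_{m'} ∑_m a_m conj(b_{m'}) (1/m') ∑_n Λ(n) η η conj E_{m'}(nm/m')`, written
out. -/
noncomputable def XK (η ρ : ℝ → ℝ) (A₀ c α T : ℝ) (a b : ℕ → ℂ) : ℂ :=
  ∑ m' ∈ Mk A₀ T, ∑ m ∈ Mk A₀ T, a m * (starRingEnd ℂ) (b m') * ((1 / (m' : ℝ) : ℝ) : ℂ) *
    ∑ A ∈ Ak A₀ c α T, (((μ A : ℝ) / (Nat.totient A : ℝ) : ℝ) : ℂ) *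
      ∑ B ∈ Bk T m' A, ∑ n ∈ Finset.Icc 1 ⌊T ^ (2 : ℝ)⌋₊,
        ((Λ n * wk η ρ α T n m m' A B : ℝ) : ℂ) * ex (-((n : ℝ) * m * B / (m' * A)))

/-- The reduced denominator of `nmB/(m'A)`, for `(n, m'A) = (B, m'A) = 1`. -/
def Qk (m m' A : ℕ) : ℕ := m' * A / Nat.gcd m (m' * A)

/-- The main term of the correlation: `e(-nmB/(m'A))` replaced by its mean value `μ(Q)/φ(Q)`. -/
noncomputable def X0K (η ρ : ℝ → ℝ) (A₀ c α T : ℝ) (a b : ℕ → ℂ) : ℂ :=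
  ∑ m' ∈ Mk A₀ T, ∑ m ∈ Mk A₀ T, a m * (starRingEnd ℂ) (b m') * ((1 / (m' : ℝ) : ℝ) : ℂ) *
    ∑ A ∈ Ak A₀ c α T, (((μ A : ℝ) / (Nat.totient A : ℝ) : ℝ) : ℂ) *
      ∑ B ∈ Bk T m' A, ∑ n ∈ Finset.Icc 1 ⌊T ^ (2 : ℝ)⌋₊,
        ((Λ n * wk η ρ α T n m m' A B : ℝ) : ℂ) *
          (((μ (Qk m m' A) : ℝ) / (Nat.totient (Qk m m' A) : ℝ) : ℝ) : ℂ)

/-- The energy `∫ |f_W|²`, reduced to the coincidences `B/(mA) = B'/(m'A')`, i.e. `B = B'` and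
`mA = m'A'`. -/
noncomputable def YK (η ρ : ℝ → ℝ) (A₀ c α T : ℝ) (b : ℕ → ℂ) : ℂ :=
  ∑ m ∈ Mk A₀ T, ∑ m' ∈ Mk A₀ T, b m * (starRingEnd ℂ) (b m') *
    ((1 / ((m : ℝ) * m') : ℝ) : ℂ) *
    ∑ A ∈ Ak A₀ c α T, ∑ A' ∈ Ak A₀ c α T with m * A = m' * A',
      (((μ A : ℝ) / (Nat.totient A : ℝ) * ((μ A' : ℝ) / (Nat.totient A' : ℝ)) : ℝ) : ℂ) *
      ∑ B ∈ Bk T m A, ((∫ v : ℝ, Real.exp v * η (v - Real.log m - α * Real.log T) *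
        η (v - Real.log m' - α * Real.log T) * wt ρ T A B (Real.exp v / m) ^ 2 : ℝ) : ℂ)

open scoped Classical in
/-- The numbers `m ≤ T^{A₀}` all of whose prime factors are larger than `T^{κ₀}`. -/
noncomputable def Sk (A₀ κ₀ T : ℝ) : Finset ℕ :=
  (Mk A₀ T).filter fun m => ∀ p : ℕ, p.Prime → p ∣ m → T ^ κ₀ < p

/-- The restriction of a sequence to the sifted numbers. -/
noncomputable def bS (A₀ κ₀ T : ℝ) (a : ℕ → ℂ) (m : ℕ) : ℂ := if m ∈ Sk A₀ κ₀ T then a m else 0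

end Pool.Agent.MP_67227b_nt.Gk
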