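import Mathlib
import Pool.Agent.MP_67227b_nt.Gg.GgErrDefs
import Pool.Agent.MP_67227b_nt.Gk.GkDefs

set_option autoImplicit false

/-!
Project GK (MP_67227b_nt), the part ERR: definitions. `Gg.D3`, `Gg.T3`, `Gg.P3`, `Gg.S3`, `Gg.tv`,
`Gg.bx`, `Gg.pw`, `Gg.YY`, `Gg.cv`, `Gg.cs`, `Gg.Jd`, `Gg.uV` and the sequences of Vaughan's
identity are those of the project GG.
-/

open Filter Topology Set MeasureTheory Complex
open scoped Real ContDiff ArithmeticFunction ArithmeticFunction.Moebius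
open scoped Classical

namespace Pool.Agent.MP_67227b_nt.Gk

open Pool.Agent.MP_67227b_nt.Gg (Eta Rho wt ex PP tv bx pw D3 T3 P3 S3 YY cv cs Jd uV a1 g1 a2 g2
  a3 g3)
open Pool.Agent.BV (tau csum)
open Pool.Agent.LS (prim)

/-- `μ(Q)/φ(Q)` -/
noncomputable def mf (Q : ℕ) : ℂ := (((μ Q : ℝ) / (Nat.totient Q : ℝ) : ℝ) : ℂ)

/-- The restriction of a sequence to the numbers coprime to `δ`. -/
noncomputable def cop (δ : ℕ) (b : ℕ → ℂ) (B : ℕ) : ℂ := if B.Coprime δ then b B else 0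

/-- The convolution of two sequences of the lengths `M` and `Y`, divided by `D`. -/
noncomputable def cb (D : ℝ) (h b : ℕ → ℂ) (M Y l : ℕ) : ℂ :=
  ((D⁻¹ : ℝ) : ℂ) * ∑ p ∈ (Finset.Icc 1 M ×ˢ Finset.Icc 1 Y) with p.1 * p.2 = l, h p.1 * b p.2

/-- The additive twist in four variables for the modulus `R`, without its mean value. -/
noncomputable def D4 (f g h b : ℕ → ℂ) (X₁ X₂ N Y R : ℕ) : ℂ :=
  ∑ m ∈ Finset.Icc 1 N, ∑ B ∈ Finset.Icc 1 Y with B.Coprime R,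
    ∑ k ∈ Finset.Icc 1 X₁, ∑ l ∈ Finset.Icc 1 X₂,
      if (k * l).Coprime (R / Nat.gcd m R) then
        f k * g l * h m * b B * (ex (-(((k * l : ℕ) : ℝ) * m * B / R)) -
          mf (R / Nat.gcd m R)) else 0

/-- The range of `m` in the box `m' ∈ [M, 2M)`. -/
noncomputable def NN (X : ℝ) (M : ℕ) : ℕ := ⌊2 * (M : ℝ) * Real.exp (2 * X)⌋₊

/-- The restriction of a sequence to `m ≤ T^{A₀}`. -/
noncomputable def aM (A₀ T : ℝ) (a : ℕ → ℂ) (m : ℕ) : ℂ := if m ∈ Mk A₀ T then a m else 0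

/-- The twisted sum with the coefficients `f`, over the `n` coprime to `Q`. -/
noncomputable def ZZk (η ρ : ℝ → ℝ) (A₀ c α T : ℝ) (a b : ℕ → ℂ) (f : ℕ → ℝ) : ℂ :=
  ∑ m' ∈ Mk A₀ T, ∑ A ∈ Ak A₀ c α T, (starRingEnd ℂ) (b m') * ((1 / (m' : ℝ) : ℝ) : ℂ) * mf A *
    ∑ m ∈ Mk A₀ T, ∑ B ∈ Bk T m' A, ∑ n ∈ Finset.Icc 1 ⌊T ^ (2 : ℝ)⌋₊,
      if n.Coprime (Qk m m' A) then
        (f n : ℂ) * a m * (wk η ρ α T n m m' A B : ℂ) *
          (ex (-((n : ℝ) * m * B / (m' * A))) - mf (Qk m m' A)) else 0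

/-- The box sum: `m'` in `[M, 2M)`, `A` in `[K, 2K)`, `k` in `[P, 2P)`, `l` in `[Q, 2Q)`. -/
noncomputable def BXk (η ρ : ℝ → ℝ) (X A₀ c α T : ℝ) (a b f g : ℕ → ℂ) (M K P Q : ℕ) : ℂ :=
  ∑ m' ∈ Mk A₀ T with (M ≤ m' ∧ m' < 2 * M), ∑ A ∈ Ak A₀ c α T with (K ≤ A ∧ A < 2 * K),
    (starRingEnd ℂ) (b m') * ((1 / (m' : ℝ) : ℝ) : ℂ) * mf A *
    ∑ m ∈ Finset.Icc 1 (NN X M), ∑ B ∈ Finset.Icc 1 (YY X α T K) with B.Coprime (m' * A),
      ∑ k ∈ Finset.Ico P (2 * P), ∑ l ∈ Finset.Ico Q (2 * Q),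
        if (k * l).Coprime (Qk m m' A) then
          f k * g l * aM A₀ T a m * (wk η ρ α T (k * l) m m' A B : ℂ) *
            (ex (-(((k * l : ℕ) : ℝ) * m * B / (m' * A))) - mf (Qk m m' A)) else 0

end Pool.Agent.MP_67227b_nt.Gk
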