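import Mathlib
import Pool.Agent.MP_67227b_nt.Gk.GkED

set_option autoImplicit false

open Filter Topology Set MeasureTheory Complex
open scoped Real ContDiff ArithmeticFunction ArithmeticFunction.Moebius
open scoped Classical

namespace Pool.Agent.MP_67227b_nt.Gk

open Pool.Agent.MP_67227b_nt.Gg (Eta Rho wt ex PP tv bx pw D3 T3 P3 S3 YY cv cs Jd uV a1 g1 a2 g2
  a3 g3)
open Pool.Agent.BV (tau csum)
open Pool.Agent.LS (prim)

private theorem GkGcd_gcd {R δ m : ℕ} (hδ : δ ∣ R) (hm : m.Coprime (R / δ)) :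
    Nat.gcd (δ * m) R = δ := by
  obtain ⟨c, rfl⟩ := hδ
  rcases Nat.eq_zero_or_pos δ with h | h
  · subst h
    simp
  · rw [Nat.mul_div_cancel_left c h] at hm
    rw [Nat.gcd_mul_left, hm, mul_one]

/-- Sorting the `m` by `δ = (m, R)`. PROOF. `m ↦ (δ, m₂) = (gcd m R, m / gcd m R)` is a bijection of
`Icc 1 N` with the pairs `δ ∣ R`, `m₂ ∈ Icc 1 (N/δ)`, `(m₂, R/δ) = 1` (inverse `δ m₂`; use
`Nat.gcd_mul_left`: `gcd (δ m₂) (δ (R/δ)) = δ gcd m₂ (R/δ)`). -/
theorem sum_gcd {R : ℕ} (hR : 1 ≤ R) (N : ℕ) (F : ℕ → ℂ) :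
    ∑ m ∈ Finset.Icc 1 N, F m = ∑ δ ∈ R.divisors,
      ∑ m ∈ Finset.Icc 1 (N / δ) with m.Coprime (R / δ), F (δ * m) := by
  have hmap : ∀ m ∈ Finset.Icc 1 N, Nat.gcd m R ∈ R.divisors := by
    intro m _
    exact Nat.mem_divisors.2 ⟨Nat.gcd_dvd_right m R, by omega⟩
  rw [← Finset.sum_fiberwise_of_maps_to hmap]
  refine Finset.sum_congr rfl fun δ hδ => ?_
  obtain ⟨hδR, hR0⟩ := Nat.mem_divisors.1 hδ
  have hδ0 : 0 < δ := Nat.pos_of_dvd_of_pos hδR hR
  refine Finset.sum_nbij' (fun m => m / δ) (fun m => δ * m) ?_ ?_ ?_ ?_ ?_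
  · intro m hm
    rw [Finset.mem_filter, Finset.mem_Icc] at hm
    obtain ⟨⟨h1, h2⟩, h3⟩ := hm
    have hdm : δ ∣ m := h3 ▸ Nat.gcd_dvd_left m R
    have hmm : δ * (m / δ) = m := Nat.mul_div_cancel' hdm
    rw [Finset.mem_filter, Finset.mem_Icc]
    refine ⟨⟨Nat.div_pos (Nat.le_of_dvd h1 hdm) hδ0, Nat.div_le_div_right h2⟩, ?_⟩
    have := Nat.coprime_div_gcd_div_gcd (m := m) (n := R) (by rw [h3]; exact hδ0)
    rwa [h3] at this
  · intro m hm
    rw [Finset.mem_filter, Finset.mem_Icc] at hm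
    obtain ⟨⟨h1, h2⟩, h3⟩ := hm
    rw [Finset.mem_filter, Finset.mem_Icc]
    refine ⟨⟨Nat.mul_pos hδ0 h1, ?_⟩, ?_⟩
    · calc δ * m ≤ δ * (N / δ) := Nat.mul_le_mul_left δ h2
        _ ≤ N := Nat.mul_div_le N δ
    · exact GkGcd_gcd hδR h3
  · intro m hm
    rw [Finset.mem_filter] at hm
    exact Nat.mul_div_cancel' (hm.2 ▸ Nat.gcd_dvd_left m R)
  · intro m _
    exact Nat.mul_div_cancel_left m hδ0
  · intro m hm
    rw [Finset.mem_filter] at hm
    show F m = F (δ * (m / δ))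
    rw [Nat.mul_div_cancel' (hm.2 ▸ Nat.gcd_dvd_left m R)]

private theorem GkGcd_conv {D : ℝ} (hD : D ≠ 0) (h b : ℕ → ℂ) (N Y : ℕ) (G : ℕ → ℂ) :
    (D : ℂ) * ∑ L ∈ Finset.Icc 1 (N * Y), cb D h b N Y L * G L =
      ∑ m ∈ Finset.Icc 1 N, ∑ B ∈ Finset.Icc 1 Y, h m * b B * G (m * B) := by
  have hDc : (D : ℂ) ≠ 0 := by exact_mod_cast hD
  have h1 : ∀ L ∈ Finset.Icc 1 (N * Y), (D : ℂ) * (cb D h b N Y L * G L) =
      ∑ p ∈ (Finset.Icc 1 N ×ˢ Finset.Icc 1 Y) with p.1 * p.2 = L,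
        h p.1 * b p.2 * G (p.1 * p.2) := by
    intro L _
    have h2 : (D : ℂ) * (cb D h b N Y L * G L) =
        (∑ p ∈ (Finset.Icc 1 N ×ˢ Finset.Icc 1 Y) with p.1 * p.2 = L, h p.1 * b p.2) * G L := by
      unfold cb
      rw [Complex.ofReal_inv, mul_assoc, mul_inv_cancel_left₀ hDc]
    rw [h2, Finset.sum_mul]
    refine Finset.sum_congr rfl fun p hp => ?_
    rw [(Finset.mem_filter.1 hp).2]
  rw [Finset.mul_sum, Finset.sum_congr rfl h1, Finset.sum_fiberwise_of_maps_to,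
    Finset.sum_product]
  rintro ⟨x, y⟩ hxy
  rw [Finset.mem_product, Finset.mem_Icc, Finset.mem_Icc] at hxy
  rw [Finset.mem_Icc]
  exact ⟨Nat.mul_pos hxy.1.1 hxy.2.1, Nat.mul_le_mul hxy.1.2 hxy.2.2⟩

private theorem GkGcd_D3 {D : ℝ} (hD : D ≠ 0) (f g h b : ℕ → ℂ) (X₁ X₂ N Y A : ℕ) :
    (D : ℂ) * D3 f g (cb D h b N Y) X₁ X₂ (N * Y) A =
      ∑ m ∈ Finset.Icc 1 N, ∑ B ∈ Finset.Icc 1 Y, ∑ k ∈ Finset.Icc 1 X₁, ∑ l ∈ Finset.Icc 1 X₂,
        h m * b B * (if (k * l * (m * B)).Coprime A then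
          f k * g l * (ex (-(((k * l : ℕ) : ℝ) * ((m * B : ℕ) : ℝ) / A)) - mf A) else 0) := by
  have h1 : ∀ k l : ℕ, (D : ℂ) * (∑ L ∈ Finset.Icc 1 (N * Y),
      if (k * l * L).Coprime A then
        f k * g l * cb D h b N Y L * (ex (-(((k * l : ℕ) : ℝ) * L / A)) -
          (((μ A : ℝ) / (Nat.totient A : ℝ) : ℝ) : ℂ)) else 0) =
      ∑ m ∈ Finset.Icc 1 N, ∑ B ∈ Finset.Icc 1 Y, h m * b B *
        (if (k * l * (m * B)).Coprime A then
          f k * g l * (ex (-(((k * l : ℕ) : ℝ) * ((m * B : ℕ) : ℝ) / A)) - mf A) else 0) := by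
    intro k l
    rw [← GkGcd_conv hD h b N Y (fun L => if (k * l * L).Coprime A then
          f k * g l * (ex (-(((k * l : ℕ) : ℝ) * (L : ℝ) / A)) - mf A) else 0)]
    congr 1
    refine Finset.sum_congr rfl fun L _ => ?_
    by_cases hc : (k * l * L).Coprime A
    · rw [if_pos hc, if_pos hc]
      unfold mf
      ring
    · rw [if_neg hc, if_neg hc, mul_zero]
  unfold Gg.D3
  rw [Finset.mul_sum]
  have h2 : ∀ k ∈ Finset.Icc 1 X₁, (D : ℂ) * (∑ l ∈ Finset.Icc 1 X₂,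
      ∑ L ∈ Finset.Icc 1 (N * Y), if (k * l * L).Coprime A then
        f k * g l * cb D h b N Y L * (ex (-(((k * l : ℕ) : ℝ) * L / A)) -
          (((μ A : ℝ) / (Nat.totient A : ℝ) : ℝ) : ℂ)) else 0) =
      ∑ m ∈ Finset.Icc 1 N, ∑ B ∈ Finset.Icc 1 Y, ∑ l ∈ Finset.Icc 1 X₂, h m * b B *
        (if (k * l * (m * B)).Coprime A then
          f k * g l * (ex (-(((k * l : ℕ) : ℝ) * ((m * B : ℕ) : ℝ) / A)) - mf A) else 0) := by
    intro k _
    rw [Finset.mul_sum, Finset.sum_congr rfl fun l _ => h1 k l, Finset.sum_comm]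
    refine Finset.sum_congr rfl fun m _ => ?_
    rw [Finset.sum_comm]
  rw [Finset.sum_congr rfl h2, Finset.sum_comm]
  refine Finset.sum_congr rfl fun m _ => ?_
  rw [Finset.sum_comm]

/-- The twist in four variables is a sum over the divisors `δ = (m, R)` of the modulus of twists in
three variables for the modulus `R/δ`. PROOF. `sum_gcd` for the sum over `m`; in the term `(δ, m₂)`
one has `gcd (δ m₂) R = δ`. `(B, R) = 1` iff `(B, R/δ) = 1` and `(B, δ) = 1`. In the other direction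
insert the definition of `cb` in `D3` (`D * D⁻¹ = 1`) and put `l = m₂ B`
(`Finset.sum_fiberwise_of_maps_to`, all `l = m₂B` lie in `Icc 1 (N/δ * Y)`; see `Gg.ls2_conv` in
`GgLs2.lean`): the condition `(k l₀ l, R/δ) = 1` splits, `k l₀ δ m₂ B/R = k l₀ (m₂B)/(R/δ)` since
`R = δ (R/δ)`. -/
theorem D4_eq {D : ℝ} (hD : D ≠ 0) (f g h b : ℕ → ℂ) (X₁ X₂ N Y : ℕ) {R : ℕ} (hR : 1 ≤ R) :
    D4 f g h b X₁ X₂ N Y R = ∑ δ ∈ R.divisors, (D : ℂ) *
      D3 f g (cb D (fun m => h (δ * m)) (cop δ b) (N / δ) Y) X₁ X₂ (N / δ * Y) (R / δ) := by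
  unfold D4
  rw [sum_gcd hR]
  refine Finset.sum_congr rfl fun δ hδ => ?_
  obtain ⟨hδR, _⟩ := Nat.mem_divisors.1 hδ
  have hδ0 : 0 < δ := Nat.pos_of_dvd_of_pos hδR hR
  have hRd : δ * (R / δ) = R := Nat.mul_div_cancel' hδR
  have hRd0 : 0 < R / δ := Nat.div_pos (Nat.le_of_dvd hR hδR) hδ0
  rw [GkGcd_D3 hD, Finset.sum_filter]
  refine Finset.sum_congr rfl fun m _ => ?_
  by_cases hm : m.Coprime (R / δ)
  · rw [if_pos hm, Finset.sum_filter]
    refine Finset.sum_congr rfl fun B _ => ?_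
    by_cases hB : B.Coprime R
    · rw [if_pos hB]
      have hB' : B.Coprime δ ∧ B.Coprime (R / δ) := by
        rw [← hRd] at hB
        exact Nat.coprime_mul_iff_right.1 hB
      refine Finset.sum_congr rfl fun k _ => Finset.sum_congr rfl fun l _ => ?_
      rw [GkGcd_gcd hδR hm]
      have hcop : cop δ b B = b B := if_pos hB'.1
      rw [hcop]
      by_cases hk : (k * l).Coprime (R / δ)
      · have hall : (k * l * (m * B)).Coprime (R / δ) :=
          Nat.Coprime.mul_left hk (Nat.Coprime.mul_left hm hB'.2)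
        rw [if_pos hk, if_pos hall]
        have harg : ((k * l : ℕ) : ℝ) * ((δ * m : ℕ) : ℝ) * B / R =
            ((k * l : ℕ) : ℝ) * ((m * B : ℕ) : ℝ) / ((R / δ : ℕ) : ℝ) := by
          have h1 : (R : ℝ) = (δ : ℝ) * ((R / δ : ℕ) : ℝ) := by exact_mod_cast hRd.symm
          have h2 : (δ : ℝ) ≠ 0 := by exact_mod_cast hδ0.ne'
          have h3 : ((R / δ : ℕ) : ℝ) ≠ 0 := by exact_mod_cast hRd0.ne'
          rw [h1]
          push_cast
          field_simp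
        rw [harg]
        ring
      · have hall : ¬ (k * l * (m * B)).Coprime (R / δ) :=
          fun h => hk (Nat.Coprime.coprime_mul_right h)
        rw [if_neg hk, if_neg hall, mul_zero]
    · rw [if_neg hB]
      symm
      refine Finset.sum_eq_zero fun k _ => Finset.sum_eq_zero fun l _ => ?_
      by_cases hBδ : B.Coprime δ
      · have hall : ¬ (k * l * (m * B)).Coprime (R / δ) := by
          intro h
          apply hB
          rw [← hRd]
          exact Nat.coprime_mul_iff_right.2 ⟨hBδ, Nat.Coprime.coprime_mul_left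
            (Nat.Coprime.coprime_mul_left h)⟩
        rw [if_neg hall, mul_zero]
      · have hcop : cop δ b B = 0 := if_neg hBδ
        rw [hcop, mul_zero, zero_mul]
  · rw [if_neg hm]
    symm
    refine Finset.sum_eq_zero fun B _ => Finset.sum_eq_zero fun k _ =>
      Finset.sum_eq_zero fun l _ => ?_
    have hall : ¬ (k * l * (m * B)).Coprime (R / δ) := fun h =>
      hm (Nat.Coprime.coprime_mul_right (Nat.Coprime.coprime_mul_left h))
    rw [if_neg hall, mul_zero]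

end Pool.Agent.MP_67227b_nt.Gk
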