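import Mathlib
import Pool.Agent.MP_67227b_nt.Gg.GgErrDefs
import Pool.Agent.MP_67227b_nt.Gg.GgGau

set_option autoImplicit false

open Filter Topology Set MeasureTheory Complex
open scoped Real ContDiff ArithmeticFunction ArithmeticFunction.Moebius
open scoped Classical

namespace Pool.Agent.MP_67227b_nt.Gk

open Pool.Agent.MP_67227b_nt.Gg (Eta Rho wt ex PP tv bx pw D3 T3 P3 S3 YY cv cs Jd uV a1 g1 a2 g2
  a3 g3)
open Pool.Agent.BV (tau csum)
open Pool.Agent.LS (prim)

/-- The Gauss sum of any character. PROOF. Verbatim the proof of `Gg.gauss_le` (`GgGau.lean`), which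
uses `Squarefree A` only for `A ≠ 0`. -/
theorem gauss_le' {A : ℕ} [NeZero A] (χ : DirichletCharacter ℂ A) :
    ‖gaussSum χ (ZMod.stdAddChar (N := A))‖ ≤ Real.sqrt (χ.conductor : ℝ) := by
  have hA0 : 0 < A := Nat.pos_of_ne_zero (NeZero.ne A)
  have hd : χ.conductor ∣ A := χ.conductor_dvd_level
  have hq0 : χ.conductor ≠ 0 := χ.conductor_ne_zero
  have : NeZero χ.conductor := ⟨hq0⟩
  obtain ⟨e, he⟩ := hd
  have he0 : 0 < e := Nat.pos_of_ne_zero (by rintro rfl; omega)
  have hval : ∀ n : ℕ, χ ((n : ℕ) : ZMod A) =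
      if n.Coprime e then χ.primitiveCharacter ((n : ℕ) : ZMod χ.conductor) else 0 := by
    intro n
    by_cases hn : n.Coprime A
    · have h1 : n.Coprime e := Nat.Coprime.coprime_dvd_right (Dvd.intro_left _ he.symm) hn
      have hc : IsCoprime (n : ℤ) (A : ℤ) := Nat.isCoprime_iff_coprime.mpr hn
      have h3 := χ.primitiveCharacter_apply_of_isCoprime hc
      rw [if_pos h1]
      simpa using h3.symm
    · have h1 : χ (n : ZMod A) = 0 :=
        χ.map_nonunit (fun h => hn ((ZMod.isUnit_iff_coprime n A).mp h))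
      rw [h1]
      by_cases hs : n.Coprime e
      · rw [if_pos hs]
        have h2 : ¬ n.Coprime χ.conductor := by
          intro h
          apply hn
          rw [he]
          exact Nat.Coprime.mul_right h hs
        exact (χ.primitiveCharacter.map_nonunit
          (fun h => h2 ((ZMod.isUnit_iff_coprime n χ.conductor).mp h))).symm
      · rw [if_neg hs]
  have h1 := Gg.ram_core (q := χ.conductor) (e := e) (Nat.pos_of_ne_zero hq0) he0
    (fun n => χ.primitiveCharacter ((n : ℕ) : ZMod χ.conductor))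
    (fun n => by push_cast; rw [ZMod.natCast_self, add_zero])
    (fun m n => by push_cast; rw [map_mul])
  have h2 : gaussSum χ (ZMod.stdAddChar (N := A)) =
      ((μ e : ℤ) : ℂ) * χ.primitiveCharacter ((e : ℕ) : ZMod χ.conductor) *
        gaussSum χ.primitiveCharacter (ZMod.stdAddChar (N := χ.conductor)) := by
    rw [Gg.ram_zmod, Gg.ram_zmod, ← h1, ← he]
    exact Finset.sum_congr rfl fun j _ => by rw [hval]
  have h3 := Pool.Agent.LS.norm_gaussSum_sq χ.primitiveCharacter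
    χ.primitiveCharacter_isPrimitive
  have h4 : ‖gaussSum χ.primitiveCharacter (ZMod.stdAddChar (N := χ.conductor))‖ =
      Real.sqrt (χ.conductor : ℝ) := by
    rw [← h3, Real.sqrt_sq (norm_nonneg _)]
  rw [h2, norm_mul, norm_mul, h4]
  have h5 : ‖(((μ e : ℤ)) : ℂ)‖ ≤ 1 := by
    rw [Complex.norm_intCast]
    exact_mod_cast ArithmeticFunction.abs_moebius_le_one
  have h6 : ‖χ.primitiveCharacter ((e : ℕ) : ZMod χ.conductor)‖ ≤ 1 :=
    DirichletCharacter.norm_le_one _ _
  have h7 : ‖(((μ e : ℤ)) : ℂ)‖ * ‖χ.primitiveCharacter ((e : ℕ) : ZMod χ.conductor)‖ ≤ 1 :=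
    mul_le_one₀ h5 (norm_nonneg _) h6
  calc _ ≤ 1 * Real.sqrt (χ.conductor : ℝ) :=
        mul_le_mul_of_nonneg_right h7 (Real.sqrt_nonneg _)
    _ = _ := one_mul _

/-- The additive character through the Gauss sums. -/
private theorem GkOrt_pt {A : ℕ} [NeZero A] {u : ZMod A} (hu : IsUnit u) :
    ZMod.stdAddChar (N := A) u = (1 / (Nat.totient A : ℂ)) *
      ∑ χ : DirichletCharacter ℂ A, gaussSum χ⁻¹ (ZMod.stdAddChar (N := A)) * χ u := by
  have hφ : (A.totient : ℂ) ≠ 0 := by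
    have : 0 < A.totient := Nat.totient_pos.2 (Nat.pos_of_ne_zero (NeZero.ne A))
    exact_mod_cast this.ne'
  have h1 : ∑ χ : DirichletCharacter ℂ A, gaussSum χ⁻¹ (ZMod.stdAddChar (N := A)) * χ u =
      ∑ χ : DirichletCharacter ℂ A, gaussSum χ (ZMod.stdAddChar (N := A)) * χ⁻¹ u := by
    refine Fintype.sum_equiv (Equiv.inv _) _ _ fun χ => ?_
    rw [Equiv.inv_apply, inv_inv]
  have h2 : ∀ χ : DirichletCharacter ℂ A, χ⁻¹ u = χ u⁻¹ := by
    intro χ
    obtain ⟨U, rfl⟩ := hu
    rw [MulChar.inv_apply, Ring.inverse_unit, ZMod.inv_coe_unit]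
  have h3 : ∑ χ : DirichletCharacter ℂ A, gaussSum χ (ZMod.stdAddChar (N := A)) * χ⁻¹ u =
      ∑ x : ZMod A, ZMod.stdAddChar (N := A) x *
        ∑ χ : DirichletCharacter ℂ A, χ u⁻¹ * χ x := by
    simp only [Finset.mul_sum]
    rw [Finset.sum_comm]
    refine Finset.sum_congr rfl fun χ _ => ?_
    rw [h2, gaussSum, Finset.sum_mul]
    refine Finset.sum_congr rfl fun x _ => ?_
    ring
  rw [h1, h3]
  have h4 : ∀ x ∈ (Finset.univ : Finset (ZMod A)), ZMod.stdAddChar (N := A) x *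
      ∑ χ : DirichletCharacter ℂ A, χ u⁻¹ * χ x =
      if x = u then ZMod.stdAddChar (N := A) u * (A.totient : ℂ) else 0 := by
    intro x _
    rw [DirichletCharacter.sum_char_inv_mul_char_eq ℂ hu x]
    by_cases h : x = u
    · subst h
      rw [if_pos rfl, if_pos rfl]
    · rw [if_neg h, if_neg (fun h' => h h'.symm), mul_zero]
  rw [Finset.sum_congr rfl h4, Finset.sum_ite_eq' Finset.univ u, if_pos (Finset.mem_univ u)]
  field_simp

private theorem GkOrt_csum {A : ℕ} (f : ℕ → ℂ) (X : ℕ) (χ : DirichletCharacter ℂ A) :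
    csum f X χ 1 = ∑ n ∈ Finset.Icc 1 X, f n * χ ((n : ℕ) : ZMod A) := by
  unfold csum
  exact Finset.sum_congr rfl fun n _ => if_pos (Nat.coprime_one_right n)

/-- PROOF. Verbatim the proof of `Gg.D3_le` (`GgOrt.lean`; copy its private lemmas), with `gauss_le'`;
it uses `Squarefree A` only for `A ≠ 0`. -/
theorem D3_le' (a g b : ℕ → ℂ) (X₁ X₂ Y : ℕ) {A : ℕ} (hA : 1 ≤ A) :
    ‖D3 a g b X₁ X₂ Y A‖ ≤ T3 a g b X₁ X₂ Y A := by
  have : NeZero A := ⟨by omega⟩
  have hφ : (0 : ℝ) < A.totient := by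
    exact_mod_cast Nat.totient_pos.2 (Nat.pos_of_ne_zero (NeZero.ne A))
  have hφ' : (A.totient : ℂ) ≠ 0 := by exact_mod_cast hφ.ne'
  set G : DirichletCharacter ℂ A → ℂ := fun χ =>
    gaussSum χ⁻¹ (ZMod.stdAddChar (N := A)) * χ (-1) with hG
  have hpt : ∀ m k B : ℕ, (if (m * k * B).Coprime A then
      a m * g k * b B * (ex (-(((m * k : ℕ) : ℝ) * B / A)) -
        (((μ A : ℝ) / (Nat.totient A : ℝ) : ℝ) : ℂ)) else 0) =
      (1 / (Nat.totient A : ℂ)) * ∑ χ : DirichletCharacter ℂ A with χ ≠ 1,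
        G χ * ((a m * χ ((m : ℕ) : ZMod A)) * (g k * χ ((k : ℕ) : ZMod A)) *
          (b B * χ ((B : ℕ) : ZMod A))) := by
    intro m k B
    by_cases hc : (m * k * B).Coprime A
    · rw [if_pos hc]
      have hu0 : IsUnit (((m * k * B : ℕ)) : ZMod A) := (ZMod.isUnit_iff_coprime _ A).2 hc
      have hu : IsUnit (-(((m * k * B : ℕ)) : ZMod A)) := hu0.neg
      have h1 : ex (-(((m * k : ℕ) : ℝ) * B / A)) =
          ZMod.stdAddChar (N := A) (-(((m * k * B : ℕ)) : ZMod A)) := by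
        have h2 : (-(((m * k * B : ℕ)) : ZMod A)) = ((-((m * k * B : ℕ) : ℤ) : ℤ) : ZMod A) := by
          push_cast
          ring
        rw [h2, ZMod.stdAddChar_coe]
        unfold ex
        congr 1
        push_cast
        ring
      have h3 : ∀ χ : DirichletCharacter ℂ A, χ (-(((m * k * B : ℕ)) : ZMod A)) =
          χ (-1) * (χ ((m : ℕ) : ZMod A) * χ ((k : ℕ) : ZMod A) * χ ((B : ℕ) : ZMod A)) := by
        intro χ
        rw [← map_mul, ← map_mul, ← map_mul]
        congr 1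
        push_cast
        ring
      rw [h1, GkOrt_pt hu]
      have h4 : ∑ χ : DirichletCharacter ℂ A, gaussSum χ⁻¹ (ZMod.stdAddChar (N := A)) *
          χ (-(((m * k * B : ℕ)) : ZMod A)) =
          ((μ A : ℤ) : ℂ) + ∑ χ : DirichletCharacter ℂ A with χ ≠ 1,
            gaussSum χ⁻¹ (ZMod.stdAddChar (N := A)) *
              χ (-(((m * k * B : ℕ)) : ZMod A)) := by
        rw [← Finset.sum_filter_add_sum_filter_not Finset.univ
          (fun χ : DirichletCharacter ℂ A => χ = 1)]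
        congr 1
        rw [Finset.sum_filter, Finset.sum_ite_eq' Finset.univ (1 : DirichletCharacter ℂ A),
          if_pos (Finset.mem_univ _), inv_one, Gg.gauss_one, MulChar.one_apply hu, mul_one]
      rw [h4]
      have h5 : (((μ A : ℝ) / (Nat.totient A : ℝ) : ℝ) : ℂ) =
          (1 / (Nat.totient A : ℂ)) * ((μ A : ℤ) : ℂ) := by
        push_cast
        ring
      rw [h5, mul_add, add_sub_cancel_left, mul_left_comm, Finset.mul_sum]
      congr 1
      refine Finset.sum_congr rfl fun χ _ => ?_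
      rw [h3, hG]
      ring
    · rw [if_neg hc]
      symm
      rw [Finset.sum_eq_zero, mul_zero]
      intro χ _
      have h1 : χ (((m * k * B : ℕ)) : ZMod A) = 0 :=
        χ.map_nonunit (fun h => hc ((ZMod.isUnit_iff_coprime _ A).1 h))
      have h2 : χ (((m * k * B : ℕ)) : ZMod A) =
          χ ((m : ℕ) : ZMod A) * χ ((k : ℕ) : ZMod A) * χ ((B : ℕ) : ZMod A) := by
        rw [← map_mul, ← map_mul]
        congr 1
        push_cast
        ring
      rw [h2] at h1
      linear_combination (G χ * a m * g k * b B) * h1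
  have hD : D3 a g b X₁ X₂ Y A = (1 / (Nat.totient A : ℂ)) *
      ∑ χ : DirichletCharacter ℂ A with χ ≠ 1,
        G χ * (csum a X₁ χ 1 * csum g X₂ χ 1 * csum b Y χ 1) := by
    have e2 : ∀ χ : DirichletCharacter ℂ A,
        G χ * (csum a X₁ χ 1 * csum g X₂ χ 1 * csum b Y χ 1) =
        ∑ m ∈ Finset.Icc 1 X₁, ∑ k ∈ Finset.Icc 1 X₂, ∑ B ∈ Finset.Icc 1 Y,
          G χ * ((a m * χ ((m : ℕ) : ZMod A)) * (g k * χ ((k : ℕ) : ZMod A)) *
            (b B * χ ((B : ℕ) : ZMod A))) := by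
      intro χ
      rw [GkOrt_csum, GkOrt_csum, GkOrt_csum, Finset.sum_mul_sum, Finset.sum_mul, Finset.mul_sum]
      refine Finset.sum_congr rfl fun m _ => ?_
      rw [Finset.sum_mul, Finset.mul_sum]
      refine Finset.sum_congr rfl fun k _ => ?_
      rw [Finset.mul_sum, Finset.mul_sum]
    have e3 : ∑ χ : DirichletCharacter ℂ A with χ ≠ 1,
        G χ * (csum a X₁ χ 1 * csum g X₂ χ 1 * csum b Y χ 1) =
        ∑ χ : DirichletCharacter ℂ A with χ ≠ 1,
        ∑ m ∈ Finset.Icc 1 X₁, ∑ k ∈ Finset.Icc 1 X₂, ∑ B ∈ Finset.Icc 1 Y,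
          G χ * ((a m * χ ((m : ℕ) : ZMod A)) * (g k * χ ((k : ℕ) : ZMod A)) *
            (b B * χ ((B : ℕ) : ZMod A))) := Finset.sum_congr rfl fun χ _ => e2 χ
    rw [e3, Finset.sum_comm.trans (Finset.sum_congr rfl fun m _ => Finset.sum_comm.trans
      (Finset.sum_congr rfl fun k _ => Finset.sum_comm)), Finset.mul_sum]
    unfold D3
    refine Finset.sum_congr rfl fun m _ => ?_
    rw [Finset.mul_sum]
    refine Finset.sum_congr rfl fun k _ => ?_
    rw [Finset.mul_sum]
    refine Finset.sum_congr rfl fun B _ => ?_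
    exact hpt m k B
  rw [hD, norm_mul]
  unfold T3
  have h6 : ‖(1 / (Nat.totient A : ℂ))‖ = 1 / (Nat.totient A : ℝ) := by
    rw [norm_div, norm_one, Complex.norm_natCast]
  rw [h6]
  refine mul_le_mul_of_nonneg_left ?_ (by positivity)
  refine (norm_sum_le _ _).trans ?_
  rw [Finset.sum_filter, Finset.sum_filter]
  refine Finset.sum_le_sum fun χ _ => ?_
  by_cases hχ : χ = 1
  · rw [if_neg (fun h => h hχ), if_neg (fun h => h hχ)]
  rw [if_pos hχ, if_pos hχ]
  rw [norm_mul, norm_mul, norm_mul, norm_mul]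
  refine mul_le_mul_of_nonneg_right ?_
    (mul_nonneg (mul_nonneg (norm_nonneg _) (norm_nonneg _)) (norm_nonneg _))
  calc ‖gaussSum χ⁻¹ (ZMod.stdAddChar (N := A))‖ * ‖χ (-1)‖
      ≤ Real.sqrt ((χ⁻¹).conductor : ℝ) * 1 :=
        mul_le_mul (gauss_le' _) (DirichletCharacter.norm_le_one _ _) (norm_nonneg _)
          (Real.sqrt_nonneg _)
    _ = Real.sqrt (χ.conductor : ℝ) := by rw [mul_one, Gg.conductor_inv]

end Pool.Agent.MP_67227b_nt.Gk
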