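import Mathlib
import Pool.Agent.MP_67227b_nt.Gk.GkED

set_option autoImplicit false

open Filter Topology Set MeasureTheory Complex
open scoped Real ContDiff ArithmeticFunction ArithmeticFunction.Moebius
open scoped Classical

namespace Pool.Agent.MP_67227b_nt.Gk

open Pool.Agent.MP_67227b_nt.Gg (Eta Rho wt ex PP tv bx pw D3 T3 P3 S3 YY cv cs Jd uV a1 g1 a2 g2
  a3 g3)
open Pool.Agent.BV (tau csum)
open Pool.Agent.LS (prim)

/-- PROOF. `φ(m'A) ≤ m' φ(A)` (`Nat.totient_gcd_mul_totient_mul`, or: `φ(ab) = φ(a)φ(b) g/φ(g)`,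
`g = (a,b)`, and `φ(a) g ≤ a φ(g)` as `g ∣ a`; or `Nat.totient_mul_le`-type lemma of your choice). -/
theorem totient_mul_le (a b : ℕ) : Nat.totient (a * b) ≤ a * Nat.totient b := by
  rcases Nat.eq_zero_or_pos b with hb | hb
  · subst hb
    simp
  have h1 : Nat.totient (a * b) = ((Finset.range (a * b)).filter (a * b).Coprime).card := rfl
  have h2 : a * Nat.totient b
      = ((Finset.range a) ×ˢ ((Finset.range b).filter b.Coprime)).card := by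
    rw [Finset.card_product, Finset.card_range]
    rfl
  rw [h1, h2]
  refine Finset.card_le_card_of_injOn (fun x => (x / b, x % b)) ?_ ?_
  · intro x hx
    have hx' := Finset.mem_filter.1 (Finset.mem_coe.1 hx)
    rw [Finset.mem_range] at hx'
    rw [Finset.mem_coe, Finset.mem_product, Finset.mem_range, Finset.mem_filter, Finset.mem_range]
    refine ⟨Nat.div_lt_of_lt_mul (by rw [mul_comm]; exact hx'.1), Nat.mod_lt _ hb, ?_⟩
    have h3 : Nat.Coprime b x := Nat.Coprime.coprime_mul_left hx'.2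
    have h4 : Nat.gcd (x % b) b = Nat.gcd x b := Nat.ModEq.gcd_eq (Nat.mod_modEq x b)
    show Nat.gcd b (x % b) = 1
    rw [Nat.gcd_comm, h4, Nat.gcd_comm]
    exact h3
  · intro x _ y _ hxy
    have h3 : x / b = y / b := congrArg Prod.fst hxy
    have h4 : x % b = y % b := congrArg Prod.snd hxy
    rw [← Nat.div_add_mod x b, ← Nat.div_add_mod y b, h3, h4]

/-- PROOF. For `δ ∣ m'A`, `Q = m'A/δ`: `1/(m' φ(A)) ≤ 1/φ(m'A) = 1/φ(δQ) ≤ 1/(φ(δ) φ(Q))`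
(`Nat.totient_super_multiplicative`), `MK ≤ m'A = δQ < 4MK`, `δ, Q ∈ Icc 1 (4MK)`. For given
`(δ, Q)` the number of the pairs `(m', A)` with `m'A = δQ` is at most `tau (δQ) ≤ D` (`A ↦ m'` is
determined by `A ∣ δQ`). So the sum is `∑_{δ,Q} #{(m',A)} ...`; all terms nonnegative. -/
theorem pair_sum {D : ℝ} {M K : ℕ} (hM : 1 ≤ M) (hK : 1 ≤ K)
    (hD : ∀ n : ℕ, 1 ≤ n → n ≤ 4 * M * K → tau n ≤ D) (F : ℕ → ℕ → ℝ) (hF : ∀ δ Q, 0 ≤ F δ Q) :
    ∑ m' ∈ Finset.Ico M (2 * M), ∑ A ∈ Finset.Ico K (2 * K),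
      (1 / ((m' : ℝ) * (Nat.totient A : ℝ))) * ∑ δ ∈ (m' * A).divisors, F δ (m' * A / δ) ≤
    D * ∑ δ ∈ Finset.Icc 1 (4 * M * K), (1 / (Nat.totient δ : ℝ)) *
      ∑ Q ∈ Finset.Icc 1 (4 * M * K) with (M * K ≤ δ * Q ∧ δ * Q < 4 * M * K),
        (1 / (Nat.totient Q : ℝ)) * F δ Q := by
  set S : Finset (Σ _ : ℕ × ℕ, ℕ) := ((Finset.Ico M (2 * M)) ×ˢ (Finset.Ico K (2 * K))).sigma
    (fun p => (p.1 * p.2).divisors) with hS
  set U : Finset (ℕ × ℕ) := ((Finset.Icc 1 (4 * M * K)) ×ˢ (Finset.Icc 1 (4 * M * K))).filter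
    (fun t => M * K ≤ t.1 * t.2 ∧ t.1 * t.2 < 4 * M * K) with hU
  have hmem : ∀ x ∈ S, 0 < x.1.1 ∧ 0 < x.1.2 ∧ M * K ≤ x.1.1 * x.1.2 ∧
      x.1.1 * x.1.2 < 4 * M * K ∧ x.2 ∣ x.1.1 * x.1.2 ∧ 0 < x.2 ∧
      x.2 * (x.1.1 * x.1.2 / x.2) = x.1.1 * x.1.2 := by
    intro x hx
    rw [hS, Finset.mem_sigma, Finset.mem_product, Finset.mem_Ico, Finset.mem_Ico,
      Nat.mem_divisors] at hx
    obtain ⟨⟨⟨h1, h2⟩, h3, h4⟩, h5, h6⟩ := hx
    have h7 : 0 < x.1.1 := by omega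
    have h8 : 0 < x.1.2 := by omega
    refine ⟨h7, h8, Nat.mul_le_mul h1 h3, ?_, h5, Nat.pos_of_dvd_of_pos h5 (Nat.mul_pos h7 h8),
      Nat.mul_div_cancel' h5⟩
    calc x.1.1 * x.1.2 < (2 * M) * (2 * K) := Nat.mul_lt_mul'' h2 h4
      _ = 4 * M * K := by ring
  have hmap : ∀ x ∈ S, (x.2, x.1.1 * x.1.2 / x.2) ∈ U := by
    intro x hx
    obtain ⟨h7, h8, h1, h2, h5, h6, h9⟩ := hmem x hx
    have h10 : 0 < x.1.1 * x.1.2 := Nat.mul_pos h7 h8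
    have h11 : x.2 ≤ x.1.1 * x.1.2 := Nat.le_of_dvd h10 h5
    have h12 : 0 < x.1.1 * x.1.2 / x.2 := Nat.div_pos h11 h6
    have h13 : x.1.1 * x.1.2 / x.2 ≤ x.1.1 * x.1.2 := Nat.div_le_self _ _
    rw [hU, Finset.mem_filter, Finset.mem_product, Finset.mem_Icc, Finset.mem_Icc]
    refine ⟨⟨⟨h6, by omega⟩, h12, ?_⟩, ?_, ?_⟩
    · show x.1.1 * x.1.2 / x.2 ≤ 4 * M * K
      omega
    · show M * K ≤ x.2 * (x.1.1 * x.1.2 / x.2)
      rw [h9]
      exact h1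
    · show x.2 * (x.1.1 * x.1.2 / x.2) < 4 * M * K
      rw [h9]
      exact h2
  have hG : ∀ δ Q : ℕ, 0 ≤ (1 / (Nat.totient δ : ℝ)) * ((1 / (Nat.totient Q : ℝ)) * F δ Q) :=
    fun δ Q => mul_nonneg (by positivity) (mul_nonneg (by positivity) (hF δ Q))
  have hL : ∑ m' ∈ Finset.Ico M (2 * M), ∑ A ∈ Finset.Ico K (2 * K),
      (1 / ((m' : ℝ) * (Nat.totient A : ℝ))) * ∑ δ ∈ (m' * A).divisors, F δ (m' * A / δ) =
      ∑ x ∈ S, (1 / ((x.1.1 : ℝ) * (Nat.totient x.1.2 : ℝ))) * F x.2 (x.1.1 * x.1.2 / x.2) := by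
    rw [hS, Finset.sum_sigma, Finset.sum_product]
    refine Finset.sum_congr rfl fun m' _ => Finset.sum_congr rfl fun A _ => ?_
    rw [Finset.mul_sum]
  have hterm : ∀ x ∈ S, (1 / ((x.1.1 : ℝ) * (Nat.totient x.1.2 : ℝ))) *
      F x.2 (x.1.1 * x.1.2 / x.2) ≤ (1 / (Nat.totient x.2 : ℝ)) *
        ((1 / (Nat.totient (x.1.1 * x.1.2 / x.2) : ℝ)) * F x.2 (x.1.1 * x.1.2 / x.2)) := by
    intro x hx
    obtain ⟨h7, h8, h1, h2, h5, h6, h9⟩ := hmem x hx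
    have h10 : 0 < x.1.1 * x.1.2 := Nat.mul_pos h7 h8
    have h12 : 0 < x.1.1 * x.1.2 / x.2 := Nat.div_pos (Nat.le_of_dvd h10 h5) h6
    rw [← mul_assoc]
    refine mul_le_mul_of_nonneg_right ?_ (hF _ _)
    have h13 : (Nat.totient x.2 : ℝ) * (Nat.totient (x.1.1 * x.1.2 / x.2) : ℝ)
        ≤ (x.1.1 : ℝ) * (Nat.totient x.1.2 : ℝ) := by
      have h14 := Nat.totient_super_multiplicative x.2 (x.1.1 * x.1.2 / x.2)
      rw [h9] at h14
      have h15 := h14.trans (totient_mul_le x.1.1 x.1.2)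
      exact_mod_cast h15
    have h16 : (0 : ℝ) < (Nat.totient x.2 : ℝ) := by exact_mod_cast Nat.totient_pos.2 h6
    have h17 : (0 : ℝ) < (Nat.totient (x.1.1 * x.1.2 / x.2) : ℝ) := by
      exact_mod_cast Nat.totient_pos.2 h12
    rw [one_div_mul_one_div]
    exact one_div_le_one_div_of_le (mul_pos h16 h17) h13
  have hR : D * ∑ δ ∈ Finset.Icc 1 (4 * M * K), (1 / (Nat.totient δ : ℝ)) *
      ∑ Q ∈ Finset.Icc 1 (4 * M * K) with (M * K ≤ δ * Q ∧ δ * Q < 4 * M * K),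
        (1 / (Nat.totient Q : ℝ)) * F δ Q =
      ∑ t ∈ U, D * ((1 / (Nat.totient t.1 : ℝ)) * ((1 / (Nat.totient t.2 : ℝ)) * F t.1 t.2)) := by
    rw [hU, Finset.sum_filter, Finset.sum_product, Finset.mul_sum]
    refine Finset.sum_congr rfl fun δ _ => ?_
    rw [Finset.sum_filter, Finset.mul_sum, Finset.mul_sum]
    refine Finset.sum_congr rfl fun Q _ => ?_
    by_cases h : M * K ≤ δ * Q ∧ δ * Q < 4 * M * K
    · rw [if_pos h, if_pos h]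
    · rw [if_neg h, if_neg h, mul_zero, mul_zero]
  rw [hL, hR]
  refine (Finset.sum_le_sum hterm).trans ?_
  rw [← Finset.sum_fiberwise_of_maps_to hmap]
  refine Finset.sum_le_sum fun t ht => ?_
  rw [hU, Finset.mem_filter, Finset.mem_product, Finset.mem_Icc, Finset.mem_Icc] at ht
  obtain ⟨⟨⟨ht1, _⟩, ht2, _⟩, ht3, ht4⟩ := ht
  have hconst : ∀ x ∈ S.filter (fun x => (x.2, x.1.1 * x.1.2 / x.2) = t),
      (1 / (Nat.totient x.2 : ℝ)) *
        ((1 / (Nat.totient (x.1.1 * x.1.2 / x.2) : ℝ)) * F x.2 (x.1.1 * x.1.2 / x.2)) =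
      (1 / (Nat.totient t.1 : ℝ)) * ((1 / (Nat.totient t.2 : ℝ)) * F t.1 t.2) := by
    intro x hx
    have hxt := (Finset.mem_filter.1 hx).2
    rw [← hxt]
  rw [Finset.sum_congr rfl hconst, Finset.sum_const, nsmul_eq_mul]
  refine mul_le_mul_of_nonneg_right ?_ (hG _ _)
  refine le_trans ?_ (hD (t.1 * t.2) (Nat.mul_pos ht1 ht2) (by omega))
  show _ ≤ (((t.1 * t.2).divisors.card : ℕ) : ℝ)
  have hcard : (S.filter (fun x => (x.2, x.1.1 * x.1.2 / x.2) = t)).card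
      ≤ (t.1 * t.2).divisors.card := by
    have hfib : ∀ x ∈ S.filter (fun x => (x.2, x.1.1 * x.1.2 / x.2) = t),
        x.2 = t.1 ∧ x.1.1 * x.1.2 = t.1 * t.2 ∧ 0 < x.1.2 := by
      intro x hx
      obtain ⟨hxS, hxt⟩ := Finset.mem_filter.1 hx
      obtain ⟨_, h8, _, _, _, _, h9⟩ := hmem x hxS
      rw [← hxt]
      exact ⟨rfl, h9.symm, h8⟩
    refine Finset.card_le_card_of_injOn (fun x => x.1.2) ?_ ?_
    · intro x hx
      obtain ⟨_, h2, _⟩ := hfib x (Finset.mem_coe.1 hx)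
      rw [Finset.mem_coe, Nat.mem_divisors]
      exact ⟨Dvd.intro_left _ h2, (Nat.mul_pos ht1 ht2).ne'⟩
    · intro x hx y hy hxy
      obtain ⟨h1, h2, h3⟩ := hfib x (Finset.mem_coe.1 hx)
      obtain ⟨h4, h5, _⟩ := hfib y (Finset.mem_coe.1 hy)
      have hxy' : x.1.2 = y.1.2 := hxy
      rcases x with ⟨⟨x1, x2⟩, x3⟩
      rcases y with ⟨⟨y1, y2⟩, y3⟩
      simp only at h1 h2 h3 h4 h5 hxy'
      subst hxy'
      have h6 : x1 = y1 := Nat.eq_of_mul_eq_mul_right h3 (h2.trans h5.symm)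
      rw [h6, h1, h4]
  exact_mod_cast hcard

/-- PROOF. `δ/φ(δ) ≤ tau δ ≤ D` (`BV.div_totient_le`) and the harmonic sum
(`harmonic_le_one_add_log`). -/
theorem sum_totient_inv {D : ℝ} {N : ℕ} (hN : 1 ≤ N) (hD : ∀ n : ℕ, 1 ≤ n → n ≤ N → tau n ≤ D) :
    ∑ δ ∈ Finset.Icc 1 N, (1 / (Nat.totient δ : ℝ)) ≤ D * (1 + Real.log N) := by
  have hD0 : 0 ≤ D := by
    refine le_trans ?_ (hD 1 le_rfl hN)
    unfold Pool.Agent.BV.tau
    positivity
  have h1 : ∀ δ ∈ Finset.Icc 1 N, (1 / (Nat.totient δ : ℝ)) ≤ D * ((δ : ℝ))⁻¹ := by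
    intro δ hδ
    rw [Finset.mem_Icc] at hδ
    have hδ0 : (0 : ℝ) < δ := by exact_mod_cast (by omega : 0 < δ)
    have h2 := (Pool.Agent.BV.div_totient_le δ (by omega)).trans (hD δ hδ.1 hδ.2)
    have h3 : (1 / (Nat.totient δ : ℝ)) = ((δ : ℝ) / (Nat.totient δ : ℝ)) * (δ : ℝ)⁻¹ := by
      field_simp
    rw [h3]
    exact mul_le_mul_of_nonneg_right h2 (by positivity)
  refine (Finset.sum_le_sum h1).trans ?_
  rw [← Finset.mul_sum]
  refine mul_le_mul_of_nonneg_left ?_ hD0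
  have h4 := harmonic_le_one_add_log N
  rw [harmonic_eq_sum_Icc] at h4
  push_cast at h4
  exact h4

end Pool.Agent.MP_67227b_nt.Gk
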