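import Mathlib
import Pool.Agent.MP_67227b_nt.Gg.GgSumA

set_option autoImplicit false

open Filter Topology Set MeasureTheory Complex
open scoped Real ContDiff ArithmeticFunction ArithmeticFunction.Moebius
open scoped Classical

namespace Pool.Agent.MP_67227b_nt.Gk

open Pool.Agent.MP_67227b_nt.Gg (Eta Rho wt ex PP tv bx pw D3 T3 P3 S3 YY cv cs Jd uV a1 g1 a2 g2
  a3 g3)
open Pool.Agent.BV (tau csum)
open Pool.Agent.LS (prim)

private theorem GkSumA_P3_nonneg (a g b : ℕ → ℂ) (X₁ X₂ Y q e : ℕ) :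
    0 ≤ P3 a g b X₁ X₂ Y q e :=
  Finset.sum_nonneg fun _ _ => by positivity

private theorem GkSumA_T3 (a g b : ℕ → ℂ) (X₁ X₂ Y A : ℕ) (hA : 1 ≤ A) :
    ∑ χ : DirichletCharacter ℂ A with χ ≠ 1,
      Real.sqrt (χ.conductor : ℝ) * (‖csum a X₁ χ 1‖ * ‖csum g X₂ χ 1‖ * ‖csum b Y χ 1‖) ≤
      ∑ f ∈ A.divisors.erase 1, Real.sqrt (f : ℝ) * P3 a g b X₁ X₂ Y f (A / f) := by
  have : NeZero A := ⟨by omega⟩
  have hP3 : ∀ f : ℕ, Real.sqrt (f : ℝ) * P3 a g b X₁ X₂ Y f (A / f) =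
      ∑ ψ ∈ prim f, Real.sqrt (f : ℝ) * (‖csum a X₁ ψ (A / f)‖ * ‖csum g X₂ ψ (A / f)‖ *
        ‖csum b Y ψ (A / f)‖) := fun f => by rw [P3, Finset.mul_sum]
  rw [Finset.sum_congr rfl fun f _ => hP3 f, Finset.sum_sigma']
  set B := (A.divisors.erase 1).sigma (fun f => prim f) with hB
  let i : DirichletCharacter ℂ A → (Σ f : ℕ, DirichletCharacter ℂ f) :=
    fun χ => ⟨χ.conductor, χ.primitiveCharacter⟩
  let h : (Σ f : ℕ, DirichletCharacter ℂ f) → DirichletCharacter ℂ A :=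
    fun x => if h : x.1 ∣ A then DirichletCharacter.changeLevel h x.2 else 1
  have hgi : ∀ χ, h (i χ) = χ := by
    intro χ
    show (if h : χ.conductor ∣ A then
      DirichletCharacter.changeLevel h χ.primitiveCharacter else 1) = χ
    rw [dif_pos χ.conductor_dvd_level]
    exact χ.changeLevel_primitiveCharacter
  have hinj : Function.Injective i := Function.LeftInverse.injective hgi
  let G : (Σ f : ℕ, DirichletCharacter ℂ f) → ℝ :=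
    fun x => Real.sqrt (x.1 : ℝ) * (‖csum a X₁ x.2 (A / x.1)‖ * ‖csum g X₂ x.2 (A / x.1)‖ *
      ‖csum b Y x.2 (A / x.1)‖)
  have hcs : ∀ (f : ℕ → ℂ) (X : ℕ) (χ : DirichletCharacter ℂ A),
      csum f X χ 1 = csum f X χ.primitiveCharacter (A / χ.conductor) := by
    intro f X χ
    rw [Pool.Agent.BV.csum_primitive f X A 1 hA χ, one_mul]
  have key : ∀ χ : DirichletCharacter ℂ A,
      Real.sqrt (χ.conductor : ℝ) * (‖csum a X₁ χ 1‖ * ‖csum g X₂ χ 1‖ * ‖csum b Y χ 1‖) =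
        G (i χ) := by
    intro χ
    show _ = Real.sqrt (χ.conductor : ℝ) *
      (‖csum a X₁ χ.primitiveCharacter (A / χ.conductor)‖ *
      ‖csum g X₂ χ.primitiveCharacter (A / χ.conductor)‖ *
      ‖csum b Y χ.primitiveCharacter (A / χ.conductor)‖)
    rw [← hcs a X₁ χ, ← hcs g X₂ χ, ← hcs b Y χ]
  have main : ∀ S : Finset (DirichletCharacter ℂ A), (∀ χ ∈ S, χ ≠ 1) →
      ∑ χ ∈ S, Real.sqrt (χ.conductor : ℝ) *
        (‖csum a X₁ χ 1‖ * ‖csum g X₂ χ 1‖ * ‖csum b Y χ 1‖) ≤ ∑ x ∈ B, G x := by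
    intro S hS
    rw [Finset.sum_congr rfl (fun χ _ => key χ),
      ← Finset.sum_image (f := G) (g := i) (fun a _ b _ h => hinj h)]
    refine Finset.sum_le_sum_of_subset_of_nonneg ?_ (fun x _ _ => by positivity)
    intro x hx
    rw [Finset.mem_image] at hx
    obtain ⟨χ, hχ, rfl⟩ := hx
    have hχ1 := hS χ hχ
    rw [hB, Finset.mem_sigma, Finset.mem_erase, Pool.Agent.LS.mem_prim]
    refine ⟨⟨?_, Nat.mem_divisors.mpr ⟨χ.conductor_dvd_level, by omega⟩⟩,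
      χ.primitiveCharacter_isPrimitive⟩
    exact fun h => hχ1 ((χ.eq_one_iff_conductor_eq_one).mpr h)
  exact main _ (fun χ hχ => by
    simp only [Finset.mem_filter, Finset.mem_univ, true_and] at hχ
    exact hχ)

/-- PROOF. As `Gg.sumA_le` (`GgSumA.lean`; copy its private lemmas) for all moduli instead of the
squarefree ones: the only change is `φ(A) ≥ φ(f) φ(A/f)` (`Nat.totient_super_multiplicative`)
instead of equality, i.e. `(1/φ(A))² ≤ 1/φ(A/f)² · 1/φ(f)²`. -/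
theorem sumA_le' (a g b : ℕ → ℂ) (X₁ X₂ Y : ℕ) {K : ℕ} (hK : 1 ≤ K) :
    ∑ A ∈ Finset.Ico K (2 * K), (1 / (Nat.totient A : ℝ)) * T3 a g b X₁ X₂ Y A ≤
      S3 (Finset.Ioc 1 (2 * K)) a g b X₁ X₂ Y K := by
  set S : Finset ℕ := Finset.Ico K (2 * K) with hS
  have h1 : ∀ A ∈ S, (1 / (Nat.totient A : ℝ)) * T3 a g b X₁ X₂ Y A ≤
      ∑ f ∈ A.divisors.erase 1, (1 / (Nat.totient A : ℝ)) ^ 2 *
        (Real.sqrt (f : ℝ) * P3 a g b X₁ X₂ Y f (A / f)) := by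
    intro A hA
    rw [hS, Finset.mem_Ico] at hA
    have hA1 : 1 ≤ A := hK.trans hA.1
    rw [T3, ← mul_assoc, ← pow_two, ← Finset.mul_sum]
    exact mul_le_mul_of_nonneg_left (GkSumA_T3 a g b X₁ X₂ Y A hA1) (by positivity)
  refine (Finset.sum_le_sum h1).trans ?_
  rw [Finset.sum_sigma']
  have hR : S3 (Finset.Ioc 1 (2 * K)) a g b X₁ X₂ Y K =
      ∑ y ∈ (Finset.Icc 1 (2 * K)).sigma
        (fun e => {q ∈ Finset.Ioc 1 (2 * K) | K ≤ q * e ∧ q * e < 2 * K}),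
        (1 / (Nat.totient y.1 : ℝ) ^ 2) * ((Real.sqrt (y.2 : ℝ) / (Nat.totient y.2 : ℝ) ^ 2) *
          P3 a g b X₁ X₂ Y y.2 y.1) := by
    rw [S3, Finset.sum_sigma]
    refine Finset.sum_congr rfl fun e _ => ?_
    rw [Finset.mul_sum]
  rw [hR]
  have hmem : ∀ x ∈ S.sigma (fun A => A.divisors.erase 1),
      K ≤ x.1 ∧ x.1 < 2 * K ∧ True ∧ x.2 ≠ 1 ∧ x.2 ∣ x.1 ∧ 0 < x.2 ∧
        x.2 * (x.1 / x.2) = x.1 ∧ 0 < x.1 := by
    intro x hx
    rw [Finset.mem_sigma, hS, Finset.mem_Ico, Finset.mem_erase,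
      Nat.mem_divisors] at hx
    obtain ⟨⟨h1, h2⟩, h4, h5, h6⟩ := hx
    have h7 : 0 < x.1 := Nat.pos_of_ne_zero h6
    exact ⟨h1, h2, trivial, h4, h5, Nat.pos_of_dvd_of_pos h5 h7, Nat.mul_div_cancel' h5, h7⟩
  have h2 : ∀ x ∈ S.sigma (fun A => A.divisors.erase 1),
      (1 / (Nat.totient x.1 : ℝ)) ^ 2 *
        (Real.sqrt (x.2 : ℝ) * P3 a g b X₁ X₂ Y x.2 (x.1 / x.2)) ≤
      (fun y : (_ : ℕ) × ℕ => (1 / (Nat.totient y.1 : ℝ) ^ 2) *
        ((Real.sqrt (y.2 : ℝ) / (Nat.totient y.2 : ℝ) ^ 2) * P3 a g b X₁ X₂ Y y.2 y.1))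
        ((fun x : (_ : ℕ) × ℕ => (⟨x.1 / x.2, x.2⟩ : (_ : ℕ) × ℕ)) x) := by
    intro x hx
    obtain ⟨-, -, -, -, h5, h6, h7, h8⟩ := hmem x hx
    have hφ : (Nat.totient x.2 : ℝ) * (Nat.totient (x.1 / x.2) : ℝ) ≤ (Nat.totient x.1 : ℝ) := by
      have h9 := Nat.totient_super_multiplicative x.2 (x.1 / x.2)
      rw [h7] at h9
      exact_mod_cast h9
    have he : 0 < x.1 / x.2 := Nat.div_pos (Nat.le_of_dvd h8 h5) h6
    have hp1 : (0 : ℝ) < (Nat.totient x.2 : ℝ) := by exact_mod_cast Nat.totient_pos.2 h6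
    have hp2 : (0 : ℝ) < (Nat.totient (x.1 / x.2) : ℝ) := by
      exact_mod_cast Nat.totient_pos.2 he
    have hP := GkSumA_P3_nonneg a g b X₁ X₂ Y x.2 (x.1 / x.2)
    show (1 / (Nat.totient x.1 : ℝ)) ^ 2 *
        (Real.sqrt (x.2 : ℝ) * P3 a g b X₁ X₂ Y x.2 (x.1 / x.2)) ≤
      (1 / (Nat.totient (x.1 / x.2) : ℝ) ^ 2) *
        ((Real.sqrt (x.2 : ℝ) / (Nat.totient x.2 : ℝ) ^ 2) * P3 a g b X₁ X₂ Y x.2 (x.1 / x.2))
    have hinv : 1 / (Nat.totient x.1 : ℝ)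
        ≤ 1 / ((Nat.totient x.2 : ℝ) * (Nat.totient (x.1 / x.2) : ℝ)) :=
      one_div_le_one_div_of_le (mul_pos hp1 hp2) hφ
    have hsq : (1 / (Nat.totient x.1 : ℝ)) ^ 2
        ≤ (1 / ((Nat.totient x.2 : ℝ) * (Nat.totient (x.1 / x.2) : ℝ))) ^ 2 :=
      pow_le_pow_left₀ (by positivity) hinv 2
    refine (mul_le_mul_of_nonneg_right hsq (mul_nonneg (Real.sqrt_nonneg _) hP)).trans
      (le_of_eq ?_)
    field_simp
  refine (Finset.sum_le_sum h2).trans ?_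
  rw [← Finset.sum_image (g := fun x : (_ : ℕ) × ℕ => (⟨x.1 / x.2, x.2⟩ : (_ : ℕ) × ℕ))
    (f := fun y : (_ : ℕ) × ℕ => (1 / (Nat.totient y.1 : ℝ) ^ 2) *
        ((Real.sqrt (y.2 : ℝ) / (Nat.totient y.2 : ℝ) ^ 2) * P3 a g b X₁ X₂ Y y.2 y.1))]
  · refine Finset.sum_le_sum_of_subset_of_nonneg ?_ ?_
    · intro y hy
      rw [Finset.mem_image] at hy
      obtain ⟨x, hx, rfl⟩ := hy
      obtain ⟨h1, h2, h3, h4, h5, h6, h7, h8⟩ := hmem x hx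
      have hle : x.2 ≤ x.1 := Nat.le_of_dvd h8 h5
      have he : 0 < x.1 / x.2 := Nat.div_pos hle h6
      have he2 : x.1 / x.2 ≤ x.1 := Nat.div_le_self _ _
      rw [Finset.mem_sigma, Finset.mem_Icc, Finset.mem_filter, Finset.mem_Ioc]
      refine ⟨⟨he, ?_⟩, ⟨?_, ?_⟩, ?_, ?_⟩
      · show x.1 / x.2 ≤ 2 * K
        omega
      · show 1 < x.2
        omega
      · show x.2 ≤ 2 * K
        omega
      · show K ≤ x.2 * (x.1 / x.2)
        rw [h7]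
        exact h1
      · show x.2 * (x.1 / x.2) < 2 * K
        rw [h7]
        exact h2
    · intro y _ _
      have := GkSumA_P3_nonneg a g b X₁ X₂ Y y.2 y.1
      positivity
  · intro x hx y hy hxy
    obtain ⟨-, -, -, -, -, -, hx6, -⟩ := hmem x hx
    obtain ⟨-, -, -, -, -, -, hy6, -⟩ := hmem y hy
    rcases x with ⟨x1, x2⟩
    rcases y with ⟨y1, y2⟩
    simp only [Sigma.mk.injEq, heq_eq_eq] at hxy
    obtain ⟨h3, h4⟩ := hxy
    simp only at hx6 hy6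
    have h5 : x1 = y1 := by rw [← hx6, ← hy6, h3, h4]
    rw [h5, h4]

/-- PROOF. Each `Q` in the sum lies in `[2^i, 2·2^i)` for `i = Nat.log 2 Q < J`; then
`MK ≤ δQ ≤ 2·2^i δ` and `2^i δ ≤ δQ < 4MK`. All terms are nonnegative; `sumA_le'` with
`K = 2^i`. -/
theorem dy_le (f g b : ℕ → ℂ) (X₁ X₂ Y : ℕ) {M K δ J : ℕ} (hM : 1 ≤ M) (hK : 1 ≤ K) (hδ : 1 ≤ δ)
    (hJ : 4 * M * K < 2 ^ J) :
    ∑ Q ∈ Finset.Icc 1 (4 * M * K) with (M * K ≤ δ * Q ∧ δ * Q < 4 * M * K),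
      (1 / (Nat.totient Q : ℝ)) * T3 f g b X₁ X₂ Y Q ≤
    ∑ i ∈ Finset.range J with (M * K ≤ 2 * 2 ^ i * δ ∧ 2 ^ i * δ < 4 * M * K),
      S3 (Finset.Ioc 1 (2 * 2 ^ i)) f g b X₁ X₂ Y (2 ^ i) := by
  have hT : ∀ Q : ℕ, 0 ≤ (1 / (Nat.totient Q : ℝ)) * T3 f g b X₁ X₂ Y Q := by
    intro Q
    have h0 : 0 ≤ T3 f g b X₁ X₂ Y Q := by
      unfold T3
      exact mul_nonneg (by positivity) (Finset.sum_nonneg fun χ _ => by positivity)
    exact mul_nonneg (by positivity) h0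
  have hmap : ∀ Q ∈ (Finset.Icc 1 (4 * M * K)).filter
      (fun Q => M * K ≤ δ * Q ∧ δ * Q < 4 * M * K), Nat.log 2 Q ∈ (Finset.range J).filter
        (fun i => M * K ≤ 2 * 2 ^ i * δ ∧ 2 ^ i * δ < 4 * M * K) := by
    intro Q hQ
    rw [Finset.mem_filter, Finset.mem_Icc] at hQ
    obtain ⟨⟨h1, h2⟩, h3, h4⟩ := hQ
    have h5 : 2 ^ Nat.log 2 Q ≤ Q := Nat.pow_log_le_self 2 (by omega)
    have h6 : Q < 2 ^ (Nat.log 2 Q + 1) := Nat.lt_pow_succ_log_self (by omega) Q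
    rw [Finset.mem_filter, Finset.mem_range]
    refine ⟨?_, ?_, ?_⟩
    · have h7 : 2 ^ Nat.log 2 Q < 2 ^ J := by omega
      exact (Nat.pow_lt_pow_iff_right (by omega)).1 h7
    · rw [pow_succ] at h6
      nlinarith
    · have h8 : 2 ^ Nat.log 2 Q * δ ≤ Q * δ := Nat.mul_le_mul_right δ h5
      rw [mul_comm δ Q] at h4
      omega
  rw [← Finset.sum_fiberwise_of_maps_to hmap]
  refine Finset.sum_le_sum fun i _ => ?_
  refine le_trans ?_ (sumA_le' f g b X₁ X₂ Y (K := 2 ^ i) Nat.one_le_two_pow)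
  refine Finset.sum_le_sum_of_subset_of_nonneg ?_ (fun Q _ _ => hT Q)
  intro Q hQ
  rw [Finset.mem_filter, Finset.mem_filter, Finset.mem_Icc] at hQ
  obtain ⟨⟨⟨h1, _⟩, _⟩, h5⟩ := hQ
  rw [Finset.mem_Ico, ← h5]
  have h6 : Q < 2 ^ (Nat.log 2 Q + 1) := Nat.lt_pow_succ_log_self (by omega) Q
  rw [pow_succ, mul_comm] at h6
  exact ⟨Nat.pow_log_le_self 2 (by omega), h6⟩

end Pool.Agent.MP_67227b_nt.Gk
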