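import Mathlib
import Pool.Agent.MP_67227b_nt.Gk.GkGcd
import Pool.Agent.MP_67227b_nt.Gk.GkOrt
import Pool.Agent.MP_67227b_nt.Gk.GkPair
import Pool.Agent.MP_67227b_nt.Gk.GkSumA

set_option autoImplicit false

open Filter Topology Set MeasureTheory Complex
open scoped Real ContDiff ArithmeticFunction ArithmeticFunction.Moebius
open scoped Classical

namespace Pool.Agent.MP_67227b_nt.Gk

open Pool.Agent.MP_67227b_nt.Gg (Eta Rho wt ex PP tv bx pw D3 T3 P3 S3 YY cv cs Jd uV a1 g1 a2 g2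
  a3 g3)
open Pool.Agent.BV (tau csum)
open Pool.Agent.LS (prim)

/-- The sum over the moduli, for fixed separated weights. PROOF. `D4_eq` and `D3_le'` (moduli
`R/δ ≥ 1`): `‖D4‖ ≤ ∑_{δ ∣ m'A} D T3(.., cb D (h(δ·)) (cop δ b) (N/δ) Y; m'A/δ)`. The sequence
depends on `δ` only, so `pair_sum` applies with `F δ Q = D T3(..; Q)`: `≤ D·D ∑_δ (1/φ(δ)) ∑_Q
(1/φ(Q)) T3`; `dy_le` and the hypothesis: the inner sum is `≤ J Mb` (each `i` at most once, `Mb ≥ 0`);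
`sum_totient_inv`. (`S₁ ⊆ Ico M (2M)`, `S₂ ⊆ Ico K (2K)`, nonnegative terms.) -/
theorem inner_le {D Mb : ℝ} {M K J : ℕ} (hD : 0 < D) (hMb : 0 ≤ Mb) (hM : 1 ≤ M) (hK : 1 ≤ K)
    (hJ : 4 * M * K < 2 ^ J) (hτ : ∀ n : ℕ, 1 ≤ n → n ≤ 4 * M * K → tau n ≤ D)
    {S₁ S₂ : Finset ℕ} (hS₁ : S₁ ⊆ Finset.Ico M (2 * M)) (hS₂ : S₂ ⊆ Finset.Ico K (2 * K))
    (f g h b : ℕ → ℂ) (X₁ X₂ N Y : ℕ) (hh : ∀ m, ‖h m‖ ≤ 1)
    (hS : ∀ (h' : ℕ → ℂ) (δ i : ℕ), (∀ m, ‖h' m‖ ≤ 1) → 1 ≤ δ → δ ≤ 4 * M * K →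
      M * K ≤ 2 * 2 ^ i * δ → 2 ^ i * δ < 4 * M * K →
      S3 (Finset.Ioc 1 (2 * 2 ^ i)) f g (cb D h' (cop δ b) (N / δ) Y) X₁ X₂ (N / δ * Y) (2 ^ i) ≤
        Mb) :
    ∑ m' ∈ S₁, ∑ A ∈ S₂, (1 / ((m' : ℝ) * (Nat.totient A : ℝ))) *
      ‖D4 f g h b X₁ X₂ N Y (m' * A)‖ ≤
      D ^ 3 * J * (1 + Real.log (4 * M * K)) * Mb := by
  classical
  set F : ℕ → ℕ → ℝ := fun δ Q => D * T3 f g (cb D (fun m => h (δ * m)) (cop δ b) (N / δ) Y)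
    X₁ X₂ (N / δ * Y) Q with hF
  have hT3 : ∀ (f g b : ℕ → ℂ) (X₁ X₂ Y Q : ℕ), 0 ≤ T3 f g b X₁ X₂ Y Q := by
    intro f g b X₁ X₂ Y Q
    unfold Gg.T3
    refine mul_nonneg (by positivity) (Finset.sum_nonneg fun χ _ => ?_)
    positivity
  have hF0 : ∀ δ Q, 0 ≤ F δ Q := fun δ Q => mul_nonneg hD.le (hT3 _ _ _ _ _ _ _)
  -- the twist in four variables
  have h1 : ∀ m' ∈ Finset.Ico M (2 * M), ∀ A ∈ Finset.Ico K (2 * K),
      ‖D4 f g h b X₁ X₂ N Y (m' * A)‖ ≤ ∑ δ ∈ (m' * A).divisors, F δ (m' * A / δ) := by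
    intro m' hm' A hA
    rw [Finset.mem_Ico] at hm' hA
    have hR : 1 ≤ m' * A := Nat.one_le_iff_ne_zero.2 (Nat.mul_ne_zero (by omega) (by omega))
    rw [D4_eq hD.ne' f g h b X₁ X₂ N Y hR]
    refine (norm_sum_le _ _).trans (Finset.sum_le_sum fun δ hδ => ?_)
    rw [norm_mul, Complex.norm_real, Real.norm_of_nonneg hD.le]
    refine mul_le_mul_of_nonneg_left (D3_le' _ _ _ _ _ _ ?_) hD.le
    have hδ1 := Nat.dvd_of_mem_divisors hδ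
    exact Nat.div_pos (Nat.le_of_dvd hR hδ1) (Nat.pos_of_dvd_of_pos hδ1 hR)
  have h2 : ∑ m' ∈ S₁, ∑ A ∈ S₂, (1 / ((m' : ℝ) * (Nat.totient A : ℝ))) *
      ‖D4 f g h b X₁ X₂ N Y (m' * A)‖ ≤
      ∑ m' ∈ Finset.Ico M (2 * M), ∑ A ∈ Finset.Ico K (2 * K),
        (1 / ((m' : ℝ) * (Nat.totient A : ℝ))) * ∑ δ ∈ (m' * A).divisors, F δ (m' * A / δ) := by
    have hnn : ∀ m' A : ℕ, 0 ≤ (1 / ((m' : ℝ) * (Nat.totient A : ℝ))) *
        ∑ δ ∈ (m' * A).divisors, F δ (m' * A / δ) := fun m' A =>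
      mul_nonneg (by positivity) (Finset.sum_nonneg fun δ _ => hF0 _ _)
    calc ∑ m' ∈ S₁, ∑ A ∈ S₂, (1 / ((m' : ℝ) * (Nat.totient A : ℝ))) *
        ‖D4 f g h b X₁ X₂ N Y (m' * A)‖
        ≤ ∑ m' ∈ S₁, ∑ A ∈ S₂, (1 / ((m' : ℝ) * (Nat.totient A : ℝ))) *
          ∑ δ ∈ (m' * A).divisors, F δ (m' * A / δ) := by
          refine Finset.sum_le_sum fun m' hm' => Finset.sum_le_sum fun A hA => ?_
          exact mul_le_mul_of_nonneg_left (h1 m' (hS₁ hm') A (hS₂ hA)) (by positivity)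
      _ ≤ ∑ m' ∈ S₁, ∑ A ∈ Finset.Ico K (2 * K), (1 / ((m' : ℝ) * (Nat.totient A : ℝ))) *
          ∑ δ ∈ (m' * A).divisors, F δ (m' * A / δ) := by
          refine Finset.sum_le_sum fun m' _ => ?_
          exact Finset.sum_le_sum_of_subset_of_nonneg hS₂ fun A _ _ => hnn m' A
      _ ≤ _ := Finset.sum_le_sum_of_subset_of_nonneg hS₁ fun m' _ _ =>
          Finset.sum_nonneg fun A _ => hnn m' A
  -- the sum over the moduli
  have h3 : ∀ δ ∈ Finset.Icc 1 (4 * M * K),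
      ∑ Q ∈ Finset.Icc 1 (4 * M * K) with (M * K ≤ δ * Q ∧ δ * Q < 4 * M * K),
        (1 / (Nat.totient Q : ℝ)) * F δ Q ≤ D * (J * Mb) := by
    intro δ hδ
    rw [Finset.mem_Icc] at hδ
    have e1 : ∑ Q ∈ Finset.Icc 1 (4 * M * K) with (M * K ≤ δ * Q ∧ δ * Q < 4 * M * K),
        (1 / (Nat.totient Q : ℝ)) * F δ Q =
        D * ∑ Q ∈ Finset.Icc 1 (4 * M * K) with (M * K ≤ δ * Q ∧ δ * Q < 4 * M * K),
          (1 / (Nat.totient Q : ℝ)) * T3 f g (cb D (fun m => h (δ * m)) (cop δ b) (N / δ) Y)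
            X₁ X₂ (N / δ * Y) Q := by
      rw [Finset.mul_sum]
      refine Finset.sum_congr rfl fun Q _ => ?_
      simp only [hF]
      ring
    rw [e1]
    refine mul_le_mul_of_nonneg_left ?_ hD.le
    refine (dy_le _ _ _ _ _ _ hM hK hδ.1 hJ).trans ?_
    calc ∑ i ∈ Finset.range J with (M * K ≤ 2 * 2 ^ i * δ ∧ 2 ^ i * δ < 4 * M * K),
          S3 (Finset.Ioc 1 (2 * 2 ^ i)) f g (cb D (fun m => h (δ * m)) (cop δ b) (N / δ) Y)
            X₁ X₂ (N / δ * Y) (2 ^ i)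
        ≤ ∑ i ∈ Finset.range J with (M * K ≤ 2 * 2 ^ i * δ ∧ 2 ^ i * δ < 4 * M * K), Mb := by
          refine Finset.sum_le_sum fun i hi => ?_
          rw [Finset.mem_filter] at hi
          exact hS _ δ i (fun m => hh _) hδ.1 hδ.2 hi.2.1 hi.2.2
      _ ≤ ∑ i ∈ Finset.range J, Mb :=
          Finset.sum_le_sum_of_subset_of_nonneg (Finset.filter_subset _ _) fun _ _ _ => hMb
      _ = J * Mb := by
          rw [Finset.sum_const, Finset.card_range, nsmul_eq_mul]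
  have h4 := pair_sum (D := D) hM hK hτ F hF0
  have h5 := sum_totient_inv (D := D) (N := 4 * M * K)
    (Nat.one_le_iff_ne_zero.2 (Nat.mul_ne_zero (by omega) (by omega))) hτ
  have h6 : ((4 * M * K : ℕ) : ℝ) = 4 * M * K := by push_cast; ring
  rw [h6] at h5
  refine h2.trans (h4.trans ?_)
  calc D * ∑ δ ∈ Finset.Icc 1 (4 * M * K), (1 / (Nat.totient δ : ℝ)) *
        ∑ Q ∈ Finset.Icc 1 (4 * M * K) with (M * K ≤ δ * Q ∧ δ * Q < 4 * M * K),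
          (1 / (Nat.totient Q : ℝ)) * F δ Q
      ≤ D * ∑ δ ∈ Finset.Icc 1 (4 * M * K), (1 / (Nat.totient δ : ℝ)) * (D * (J * Mb)) := by
        refine mul_le_mul_of_nonneg_left (Finset.sum_le_sum fun δ hδ => ?_) hD.le
        exact mul_le_mul_of_nonneg_left (h3 δ hδ) (by positivity)
    _ = D * ((∑ δ ∈ Finset.Icc 1 (4 * M * K), (1 / (Nat.totient δ : ℝ))) * (D * (J * Mb))) := by
        rw [Finset.sum_mul]
    _ ≤ D * ((D * (1 + Real.log (4 * M * K))) * (D * (J * Mb))) := by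
        refine mul_le_mul_of_nonneg_left (mul_le_mul_of_nonneg_right h5 ?_) hD.le
        positivity
    _ = _ := by ring

end Pool.Agent.MP_67227b_nt.Gk
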