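import Mathlib
import Pool.Agent.MP_67227b_nt.Gg.GgErrDefs
import Pool.Agent.MP_67227b_nt.Gg.GgSepF
import Pool.Agent.MP_67227b_nt.Gk.GkDefs

set_option autoImplicit false

open Filter Topology Set MeasureTheory Complex
open scoped Real ContDiff ArithmeticFunction ArithmeticFunction.Moebius
open scoped Classical

namespace Pool.Agent.MP_67227b_nt.Gk

open Pool.Agent.MP_67227b_nt.Gg (Eta Rho wt ex PP tv bx pw D3 T3 P3 S3 YY cv cs Jd uV a1 g1 a2 g2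
  a3 g3)
open Pool.Agent.BV (tau csum)
open Pool.Agent.LS (prim)

private theorem GkSep_cexp {n : ℕ} (hn : 1 ≤ n) (U : ℝ) :
    pw U n = Complex.exp (I * U * Real.log n) := by
  unfold Gg.pw
  have h0 : (n : ℂ) ≠ 0 := by exact_mod_cast (by omega : n ≠ 0)
  rw [Complex.cpow_def_of_ne_zero h0, ← Complex.natCast_log]
  congr 1
  ring

private theorem GkSep_conj {n : ℕ} (hn : 1 ≤ n) (U : ℝ) :
    (starRingEnd ℂ) (pw U n) = Complex.exp (-(I * U * Real.log n)) := by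
  rw [GkSep_cexp hn, ← Complex.exp_conj, map_mul, map_mul, Complex.conj_I, Complex.conj_ofReal,
    Complex.conj_ofReal]
  congr 1
  ring

private theorem GkSep_b {F : ℝ → ℂ} {C : ℝ} (hC : 0 ≤ C) (h : ∀ u, ‖F u‖ ≤ C / (1 + u ^ 2) ^ 2)
    (v : ℝ) : ‖F v‖ * (1 + |v|) ^ 2 ≤ 2 * C * (1 + v ^ 2)⁻¹ ∧
      ‖F v‖ * (1 + |v|) ≤ 2 * C * (1 + v ^ 2)⁻¹ := by
  have h1 : (1 + |v|) ^ 2 ≤ 2 * (1 + v ^ 2) := by
    have h2 := sq_nonneg (1 - |v|)
    have h3 := sq_abs v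
    nlinarith
  have h2 : 1 + |v| ≤ (1 + |v|) ^ 2 := by
    have h3 := abs_nonneg v
    nlinarith
  have hp : 0 < 1 + v ^ 2 := by positivity
  have h3 : ‖F v‖ * (1 + |v|) ^ 2 ≤ 2 * C * (1 + v ^ 2)⁻¹ := by
    calc ‖F v‖ * (1 + |v|) ^ 2 ≤ C / (1 + v ^ 2) ^ 2 * (2 * (1 + v ^ 2)) := by
          apply mul_le_mul (h v) h1 (by positivity)
          positivity
      _ = 2 * C * (1 + v ^ 2)⁻¹ := by
          field_simp
  refine ⟨h3, le_trans ?_ h3⟩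
  exact mul_le_mul_of_nonneg_left h2 (norm_nonneg _)

/-- Separation of the variables. With `p = log n - αL`, `q = log(nm/m') - αL`,
`s = log(nm/m') + log B - log A - log(T/2π)`: `wk = η(p) η(q) ρ(e^s)`. PROOF. As `Gg.sepW`
(`GgSepW.lean`): `Gg.sepF` for `s ↦ ρ(e^s)` (`F₁`) and for `η` (`F₂`); then
`wk = ∫∫∫ F₁(u₁) F₂(u₂) F₂(u₃) e^{iu₁s + iu₂q + iu₃p}` (a product of three integrals:
`MeasureTheory.integral_prod_mul`), and the exponential is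
`z(u) n^{i(u₁+u₂+u₃)} m^{i(u₁+u₂)} m'^{-i(u₁+u₂)} B^{iu₁} A^{-iu₁}` with
`z(u) = e^{-iu₁ log(T/2π) - i(u₂+u₃)αL}` of modulus `1`. `F(u) = F₁(u₁) F₂(u₂) F₂(u₃) z(u)`. The
integral of `‖F u‖ ((1+|u₁|)²(1+|u₂|)(1+|u₃|))` is at most the product of three integrals of
`C (1+|v|)²/(1+v²)² ≤ 2C/(1+v²)`. -/
theorem sepK {X κ : ℝ} {η ρ : ℝ → ℝ} (hκ : 0 < κ) (hη : Eta X η) (hρ : Rho κ ρ) :
    ∃ C : ℝ, 0 ≤ C ∧ ∀ α T : ℝ, 1 < T → ∃ F : ℝ × ℝ × ℝ → ℂ, Continuous F ∧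
      Integrable (fun u : ℝ × ℝ × ℝ =>
        ‖F u‖ * ((1 + |u.1|) ^ 2 * (1 + |u.2.1|) * (1 + |u.2.2|))) ∧
      ∫ u : ℝ × ℝ × ℝ, ‖F u‖ * ((1 + |u.1|) ^ 2 * (1 + |u.2.1|) * (1 + |u.2.2|)) ≤ C ∧
      ∀ n m m' A B : ℕ, 1 ≤ n → 1 ≤ m → 1 ≤ m' → 1 ≤ A → 1 ≤ B →
        (wk η ρ α T n m m' A B : ℂ) = ∫ u : ℝ × ℝ × ℝ, F u *
          (pw (u.1 + u.2.1 + u.2.2) n * pw (u.1 + u.2.1) m *
            (starRingEnd ℂ) (pw (u.1 + u.2.1) m') * pw u.1 B * (starRingEnd ℂ) (pw u.1 A)) := by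
  obtain ⟨F₁, C₁, hc1, hC1, hb1, hi1⟩ := Gg.sepF (f := fun s => ρ (Real.exp s))
    (hρ.smooth.comp Real.contDiff_exp) (R := |Real.log (2 * κ)|) (fun v hv => by
      rcases le_or_gt 0 v with h | h
      · apply hρ.right
        have h1 : 1 ≤ Real.exp v := Real.one_le_exp h
        linarith
      · apply hρ.left
        have h1 : v ≤ Real.log (2 * κ) := by
          rw [abs_of_neg h] at hv
          have h2 := neg_abs_le (Real.log (2 * κ))
          linarith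
        rw [← Real.exp_log (by positivity : 0 < 2 * κ)]
        exact Real.exp_le_exp.2 h1)
  obtain ⟨F₂, C₂, hc2, hC2, hb2, hi2⟩ := Gg.sepF (f := η) hη.smooth (R := X) hη.supp
  have hle : ∀ (C C' u : ℝ), C ≤ C' → C / (1 + u ^ 2) ^ 2 ≤ C' / (1 + u ^ 2) ^ 2 :=
    fun C C' u h => div_le_div_of_nonneg_right h (by positivity)
  obtain ⟨C, hC⟩ : ∃ C, C = max C₁ C₂ := ⟨_, rfl⟩
  have hC0 : 0 ≤ C := by
    rw [hC]
    exact hC1.trans (le_max_left _ _)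
  have hB1 : ∀ u, ‖F₁ u‖ ≤ C / (1 + u ^ 2) ^ 2 := fun u =>
    (hb1 u).trans (hle _ _ u (by rw [hC]; exact le_max_left _ _))
  have hB2 : ∀ u, ‖F₂ u‖ ≤ C / (1 + u ^ 2) ^ 2 := fun u =>
    (hb2 u).trans (hle _ _ u (by rw [hC]; exact le_max_right _ _))
  refine ⟨(2 * C * π) ^ 3, by positivity, fun α T hT => ?_⟩
  obtain ⟨z, hz⟩ : ∃ z : ℝ × ℝ × ℝ → ℂ, z = fun u => Complex.exp (-(I * ((u.1 : ℂ) *
    Real.log (T / (2 * π)) + ((u.2.1 : ℂ) + u.2.2) * (α * Real.log T)))) := ⟨_, rfl⟩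
  have hz1 : ∀ u, ‖z u‖ = 1 := by
    intro u
    rw [hz]
    have h1 : -(I * ((u.1 : ℂ) * Real.log (T / (2 * π)) +
        ((u.2.1 : ℂ) + u.2.2) * (α * Real.log T))) =
        ((-(u.1 * Real.log (T / (2 * π)) + (u.2.1 + u.2.2) * (α * Real.log T)) : ℝ) : ℂ) * I := by
      push_cast
      ring
    simp only
    rw [h1, Complex.norm_exp_ofReal_mul_I]
  have hzc : Continuous z := by
    rw [hz]
    fun_prop
  have hFc : Continuous (fun u : ℝ × ℝ × ℝ => F₁ u.1 * (F₂ u.2.1 * F₂ u.2.2) * z u) := by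
    refine (Continuous.mul ?_ (Continuous.mul ?_ ?_)).mul hzc
    · exact hc1.comp continuous_fst
    · exact hc2.comp (continuous_fst.comp continuous_snd)
    · exact hc2.comp (continuous_snd.comp continuous_snd)
  -- the majorant
  obtain ⟨k, hk⟩ : ∃ k : ℝ → ℝ, k = fun v => 2 * C * (1 + v ^ 2)⁻¹ := ⟨_, rfl⟩
  have hki : Integrable k := by
    rw [hk]
    exact integrable_inv_one_add_sq.const_mul _
  have hk0 : ∀ v, 0 ≤ k v := by
    intro v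
    rw [hk]
    positivity
  have hkint : ∫ v, k v = 2 * C * π := by
    rw [hk, integral_const_mul, integral_univ_inv_one_add_sq]
  have hGi : Integrable (fun u : ℝ × ℝ × ℝ => k u.1 * (k u.2.1 * k u.2.2)) := by
    have h1 : Integrable (fun w : ℝ × ℝ => k w.1 * k w.2) := hki.mul_prod hki
    exact hki.mul_prod h1
  have hGint : ∫ u : ℝ × ℝ × ℝ, k u.1 * (k u.2.1 * k u.2.2) = (2 * C * π) ^ 3 := by
    have h1 : ∫ w : ℝ × ℝ, k w.1 * k w.2 = (2 * C * π) * (2 * C * π) := by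
      rw [Measure.volume_eq_prod, integral_prod_mul, hkint]
    rw [Measure.volume_eq_prod, integral_prod_mul k (fun w : ℝ × ℝ => k w.1 * k w.2), hkint, h1]
    ring
  have hnorm : ∀ u : ℝ × ℝ × ℝ, ‖F₁ u.1 * (F₂ u.2.1 * F₂ u.2.2) * z u‖ *
      ((1 + |u.1|) ^ 2 * (1 + |u.2.1|) * (1 + |u.2.2|)) ≤ k u.1 * (k u.2.1 * k u.2.2) := by
    intro u
    rw [norm_mul, hz1, mul_one, norm_mul, norm_mul]
    have h1 := (GkSep_b hC0 hB1 u.1).1
    have h2 := (GkSep_b hC0 hB2 u.2.1).2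
    have h3 := (GkSep_b hC0 hB2 u.2.2).2
    have h4 : ‖F₁ u.1‖ * (‖F₂ u.2.1‖ * ‖F₂ u.2.2‖) *
        ((1 + |u.1|) ^ 2 * (1 + |u.2.1|) * (1 + |u.2.2|)) =
        (‖F₁ u.1‖ * (1 + |u.1|) ^ 2) * ((‖F₂ u.2.1‖ * (1 + |u.2.1|)) *
          (‖F₂ u.2.2‖ * (1 + |u.2.2|))) := by ring
    rw [h4, hk]
    simp only
    gcongr
  have hcw : Continuous (fun u : ℝ × ℝ × ℝ => ‖F₁ u.1 * (F₂ u.2.1 * F₂ u.2.2) * z u‖ *
      ((1 + |u.1|) ^ 2 * (1 + |u.2.1|) * (1 + |u.2.2|))) := by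
    refine hFc.norm.mul ?_
    fun_prop
  have hWi : Integrable (fun u : ℝ × ℝ × ℝ => ‖F₁ u.1 * (F₂ u.2.1 * F₂ u.2.2) * z u‖ *
      ((1 + |u.1|) ^ 2 * (1 + |u.2.1|) * (1 + |u.2.2|))) := by
    refine hGi.mono' hcw.aestronglyMeasurable (Eventually.of_forall fun u => ?_)
    rw [Real.norm_of_nonneg (by positivity)]
    exact hnorm u
  refine ⟨fun u => F₁ u.1 * (F₂ u.2.1 * F₂ u.2.2) * z u, hFc, hWi, ?_, ?_⟩
  · rw [← hGint]
    exact integral_mono hWi hGi hnorm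
  · intro n m m' A B hn hm hm' hA hB
    have hn' : (0 : ℝ) < n := by exact_mod_cast hn
    have hmp : (0 : ℝ) < m := by exact_mod_cast hm
    have hmp' : (0 : ℝ) < m' := by exact_mod_cast hm'
    have hA' : (0 : ℝ) < A := by exact_mod_cast hA
    have hB' : (0 : ℝ) < B := by exact_mod_cast hB
    have hT' : 0 < T := by linarith
    obtain ⟨p, hp⟩ : ∃ p : ℝ, p = Real.log n - α * Real.log T := ⟨_, rfl⟩
    obtain ⟨q, hq⟩ : ∃ q : ℝ, q = Real.log (n * m / m') - α * Real.log T := ⟨_, rfl⟩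
    obtain ⟨s, hs⟩ : ∃ s : ℝ, s = Real.log (n * m / m') + Real.log B - Real.log A -
      Real.log (T / (2 * π)) := ⟨_, rfl⟩
    have hlog : Real.log (n * m / m' : ℝ) = Real.log n + Real.log m - Real.log m' := by
      rw [Real.log_div (by positivity) hmp'.ne', Real.log_mul hn'.ne' hmp.ne']
    have hexp : Real.exp s = 2 * π * (n * m / m') * B / (A * T) := by
      rw [hs, Real.exp_sub, Real.exp_sub, Real.exp_add, Real.exp_log (by positivity),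
        Real.exp_log hB', Real.exp_log hA', Real.exp_log (by positivity)]
      field_simp
    have h1 : (wk η ρ α T n m m' A B : ℂ) =
        ((ρ (Real.exp s) : ℝ) : ℂ) * (((η q : ℝ) : ℂ) * ((η p : ℝ) : ℂ)) := by
      unfold wk Gg.wt
      rw [hexp, hp, hq]
      push_cast
      ring
    rw [h1, hi1 s, hi2 q, hi2 p]
    have h2 : (∫ u : ℝ, F₂ u * Complex.exp (I * u * q)) * (∫ u : ℝ, F₂ u * Complex.exp (I * u * p)) =
        ∫ w : ℝ × ℝ, (F₂ w.1 * Complex.exp (I * w.1 * q)) * (F₂ w.2 * Complex.exp (I * w.2 * p)) := by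
      rw [Measure.volume_eq_prod]
      exact (integral_prod_mul (fun u : ℝ => F₂ u * Complex.exp (I * u * q))
        (fun u : ℝ => F₂ u * Complex.exp (I * u * p))).symm
    rw [h2]
    have h3 : (∫ u : ℝ, F₁ u * Complex.exp (I * u * s)) *
        (∫ w : ℝ × ℝ, (F₂ w.1 * Complex.exp (I * w.1 * q)) * (F₂ w.2 * Complex.exp (I * w.2 * p))) =
        ∫ u : ℝ × ℝ × ℝ, (F₁ u.1 * Complex.exp (I * u.1 * s)) *
          ((F₂ u.2.1 * Complex.exp (I * u.2.1 * q)) * (F₂ u.2.2 * Complex.exp (I * u.2.2 * p))) := by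
      rw [Measure.volume_eq_prod]
      exact (integral_prod_mul (fun u : ℝ => F₁ u * Complex.exp (I * u * s))
        (fun w : ℝ × ℝ => (F₂ w.1 * Complex.exp (I * w.1 * q)) *
          (F₂ w.2 * Complex.exp (I * w.2 * p)))).symm
    rw [h3]
    refine integral_congr_ae (Eventually.of_forall fun u => ?_)
    simp only
    rw [GkSep_cexp hn, GkSep_cexp hm, GkSep_conj hm', GkSep_cexp hB, GkSep_conj hA, hz]
    simp only
    have h4 : (F₁ u.1 * Complex.exp (I * u.1 * s)) *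
          ((F₂ u.2.1 * Complex.exp (I * u.2.1 * q)) * (F₂ u.2.2 * Complex.exp (I * u.2.2 * p))) =
        F₁ u.1 * (F₂ u.2.1 * F₂ u.2.2) * (Complex.exp (I * u.1 * s) *
          (Complex.exp (I * u.2.1 * q) * Complex.exp (I * u.2.2 * p))) := by ring
    rw [h4, mul_assoc (F₁ u.1 * (F₂ u.2.1 * F₂ u.2.2))]
    congr 1
    rw [← Complex.exp_add, ← Complex.exp_add, ← Complex.exp_add, ← Complex.exp_add,
      ← Complex.exp_add, ← Complex.exp_add, ← Complex.exp_add]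
    congr 1
    rw [hp, hq, hs, hlog]
    push_cast
    ring

end Pool.Agent.MP_67227b_nt.Gk
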