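import Mathlib
import Pool.Agent.MP_67227b_nt.Gg.GgTv
import Pool.Agent.MP_67227b_nt.Gk.GkInner
import Pool.Agent.MP_67227b_nt.Gk.GkSep

set_option autoImplicit false

open Filter Topology Set MeasureTheory Complex
open scoped Real ContDiff ArithmeticFunction ArithmeticFunction.Moebius
open scoped Classical

namespace Pool.Agent.MP_67227b_nt.Gk

open Pool.Agent.MP_67227b_nt.Gg (Eta Rho wt ex PP tv bx pw D3 T3 P3 S3 YY cv cs Jd uV a1 g1 a2 g2
  a3 g3)
open Pool.Agent.BV (tau csum)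
open Pool.Agent.LS (prim)

open Pool.Agent.MP_67227b_nt.Gg (norm_pw)

/-- `f` is integrable with the integral `J`. -/
private def boxkHI (f : ℝ × ℝ × ℝ → ℂ) (J : ℂ) : Prop := Integrable f ∧ ∫ p, f p = J

private theorem boxkHI_sum {ι : Type} (s : Finset ι) {f : ι → ℝ × ℝ × ℝ → ℂ} {J : ι → ℂ}
    (h : ∀ i ∈ s, boxkHI (f i) (J i)) :
    boxkHI (fun p => ∑ i ∈ s, f i p) (∑ i ∈ s, J i) := by
  refine ⟨integrable_finsetSum _ fun i hi => (h i hi).1, ?_⟩
  rw [integral_finsetSum _ fun i hi => (h i hi).1]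
  exact Finset.sum_congr rfl fun i hi => (h i hi).2

private theorem boxkHI_cmul {f : ℝ × ℝ × ℝ → ℂ} {J : ℂ} (c : ℂ) (h : boxkHI f J) :
    boxkHI (fun p => c * f p) (c * J) := by
  refine ⟨h.1.const_mul c, ?_⟩
  rw [integral_const_mul, h.2]

private theorem boxkHI_mulc {f : ℝ × ℝ × ℝ → ℂ} {J : ℂ} (c : ℂ) (h : boxkHI f J) :
    boxkHI (fun p => f p * c) (J * c) := by
  refine ⟨h.1.mul_const c, ?_⟩
  rw [integral_mul_const, h.2]

private theorem boxkHI_ite {f : ℝ × ℝ × ℝ → ℂ} {J : ℂ} (q : Prop) [Decidable q]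
    (h : q → boxkHI f J) :
    boxkHI (fun p => if q then f p else 0) (if q then J else 0) := by
  by_cases hq : q
  · simp only [if_pos hq]
    exact h hq
  · simp only [if_neg hq]
    refine ⟨integrable_zero _ _ _, ?_⟩
    simp

private theorem boxk_pw_mul (U : ℝ) (m k : ℕ) : pw U (m * k) = pw U m * pw U k := by
  unfold pw
  rw [Nat.cast_mul, Complex.natCast_mul_natCast_cpow]

private theorem boxk_pw_cont {f : ℝ × ℝ × ℝ → ℝ} (hf : Continuous f) {n : ℕ} (hn : 1 ≤ n) :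
    Continuous fun p : ℝ × ℝ × ℝ => pw (f p) n := by
  unfold pw
  have hn0 : (n : ℂ) ≠ 0 := by
    have : n ≠ 0 := by omega
    exact_mod_cast this
  refine Continuous.const_cpow ?_ (Or.inl hn0)
  exact continuous_const.mul (Complex.continuous_ofReal.comp hf)

private theorem boxk_norm_mf (A : ℕ) : ‖mf A‖ ≤ 1 / (Nat.totient A : ℝ) := by
  unfold mf
  rw [Complex.norm_real, Real.norm_eq_abs, abs_div]
  have h2 : |(μ A : ℝ)| ≤ 1 := by
    have := ArithmeticFunction.abs_moebius_le_one (n := A)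
    exact_mod_cast this
  have h3 : |(Nat.totient A : ℝ)| = (Nat.totient A : ℝ) := abs_of_nonneg (Nat.cast_nonneg _)
  rw [h3]
  exact div_le_div_of_nonneg_right h2 (Nat.cast_nonneg _)

/-- The sum over the box in terms of `D4`. -/
private theorem boxk_D4 (X α T : ℝ) (f g a' : ℕ → ℂ) (U V W : ℝ) (M K P Q m' A : ℕ) (z : ℂ) :
    ∑ m ∈ Finset.Icc 1 (NN X M), ∑ B ∈ Finset.Icc 1 (YY X α T K) with B.Coprime (m' * A),
      ∑ k ∈ Finset.Ico P (2 * P), ∑ l ∈ Finset.Ico Q (2 * Q),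
        (if (k * l).Coprime (Qk m m' A) then
          f k * g l * a' m * (z * (pw U (k * l) * pw V m *
            (starRingEnd ℂ) (pw V m') * pw W B * (starRingEnd ℂ) (pw W A))) *
            (ex (-(((k * l : ℕ) : ℝ) * m * B / (m' * A))) - mf (Qk m m' A)) else 0) =
      z * (((starRingEnd ℂ) (pw V m') * (starRingEnd ℂ) (pw W A)) *
        D4 (bx P fun k => f k * pw U k) (bx Q fun l => g l * pw U l)
          (fun m => a' m * pw V m) (pw W) (2 * P) (2 * Q) (NN X M) (YY X α T K) (m' * A)) := by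
  unfold D4
  rw [Finset.mul_sum, Finset.mul_sum]
  refine Finset.sum_congr rfl fun m _ => ?_
  rw [Finset.mul_sum, Finset.mul_sum]
  refine Finset.sum_congr rfl fun B _ => ?_
  have hsub1 : ∀ P : ℕ, Finset.Ico P (2 * P) ⊆ Finset.Icc 1 (2 * P) := by
    intro P m hm
    rw [Finset.mem_Ico] at hm
    rw [Finset.mem_Icc]
    omega
  rw [← Finset.sum_subset (hsub1 P)]
  · rw [Finset.mul_sum, Finset.mul_sum]
    refine Finset.sum_congr rfl fun k hk => ?_
    rw [← Finset.sum_subset (hsub1 Q)]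
    · rw [Finset.mul_sum, Finset.mul_sum]
      refine Finset.sum_congr rfl fun l hl => ?_
      rw [Finset.mem_Ico] at hk hl
      have h1 : bx P (fun k => f k * pw U k) k = f k * pw U k := by
        unfold bx
        rw [if_pos hk]
      have h2 : bx Q (fun l => g l * pw U l) l = g l * pw U l := by
        unfold bx
        rw [if_pos hl]
      rw [h1, h2]
      unfold Qk
      have h3 : (-(((k * l : ℕ) : ℝ) * m * B / (m' * A))) =
          (-(((k * l : ℕ) : ℝ) * m * B / ((m' * A : ℕ) : ℝ))) := by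
        push_cast
        ring
      rw [h3]
      split_ifs
      · rw [boxk_pw_mul]
        ring
      · rw [mul_zero, mul_zero]
    · intro l _ hl
      rw [Finset.mem_Ico] at hl
      have h2 : bx Q (fun l => g l * pw U l) l = 0 := by
        unfold bx
        rw [if_neg hl]
      rw [h2]
      simp
  · intro k _ hk
    rw [Finset.mem_Ico] at hk
    refine Finset.sum_eq_zero fun l _ => ?_
    have h1 : bx P (fun k => f k * pw U k) k = 0 := by
      unfold bx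
      rw [if_neg hk]
    rw [h1]
    simp

/-- PROOF. As `Gg.box_le` (`GgBoxL.lean`). Insert `sepK` in `BXk` and exchange the finite sums with
the integral over `u ∈ ℝ × ℝ × ℝ` (`F` continuous and integrable, the `pw` are continuous and of
modulus `≤ 1`). With `U = u₁+u₂+u₃`, `V = u₁+u₂`, `W = u₁`, `pw U (k l) = pw U k * pw U l`, the inner
sum over `m, B, k, l` is
`D4 (bx P (f pw U)) (bx Q (g pw U)) (aM a · pw V) (pw W) (2P) (2Q) (NN X M) (YY X α T K) (m'A)`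
(`Qk m m' A = m'A / gcd m (m'A)`; `((m'A : ℕ) : ℝ) = m' A`); the outer coefficient
`conj(b m') (1/m') mf A conj(pw V m') conj(pw W A)` has norm `≤ 1/(m' φ(A))`. `inner_le` (with
`Mb (1+|U|)(1+|W|)`) gives, for each `u`, `≤ ‖F u‖ D³ J (1+log(4MK)) Mb (1+|U|)(1+|W|)` and
`(1+|U|)(1+|W|) ≤ (1+|u₁|)²(1+|u₂|)(1+|u₃|)`. -/
theorem box_lek {X κ : ℝ} {η ρ : ℝ → ℝ} (hκ : 0 < κ) (hη : Eta X η) (hρ : Rho κ ρ) :
    ∃ C : ℝ, 0 ≤ C ∧ ∀ (A₀ c α T D Mb : ℝ) (a b f g : ℕ → ℂ) (M K P Q J : ℕ), 1 < T → 0 < D →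
      0 ≤ Mb → 1 ≤ M → 1 ≤ K → 1 ≤ P → 1 ≤ Q → 4 * M * K < 2 ^ J → (∀ m, ‖a m‖ ≤ 1) →
      (∀ m, ‖b m‖ ≤ 1) → (∀ n : ℕ, 1 ≤ n → n ≤ 4 * M * K → tau n ≤ D) →
      (∀ (U W : ℝ) (h : ℕ → ℂ) (δ i : ℕ), (∀ m, ‖h m‖ ≤ 1) → 1 ≤ δ → δ ≤ 4 * M * K →
        M * K ≤ 2 * 2 ^ i * δ → 2 ^ i * δ < 4 * M * K →
        S3 (Finset.Ioc 1 (2 * 2 ^ i)) (bx P fun m => f m * pw U m) (bx Q fun k => g k * pw U k)
          (cb D h (cop δ (pw W)) (NN X M / δ) (YY X α T K)) (2 * P) (2 * Q)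
          (NN X M / δ * YY X α T K) (2 ^ i) ≤ Mb * ((1 + |U|) * (1 + |W|))) →
      ‖BXk η ρ X A₀ c α T a b f g M K P Q‖ ≤
        C * (D ^ 3 * J * (1 + Real.log (4 * M * K)) * Mb) := by
  obtain ⟨C, hC, hz⟩ := sepK hκ hη hρ
  refine ⟨C, hC, ?_⟩
  intro A₀ c α T D Mb a b f g M K P Q J hT hD hMb hM hK hP hQ hJ ha hb hτ hS
  obtain ⟨F, hFc, hFi, hFC, hFw⟩ := hz α T hT
  set E : ℝ := D ^ 3 * J * (1 + Real.log (4 * M * K)) * Mb with hE
  have hlog : 0 ≤ Real.log (4 * M * K) := by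
    apply Real.log_nonneg
    have h1 : 1 ≤ 4 * M * K := Nat.mul_pos (Nat.mul_pos (by norm_num) hM) hK
    exact_mod_cast h1
  have hE0 : 0 ≤ E := by
    rw [hE]
    positivity
  -- the majorant
  have hG1 : ∀ u : ℝ × ℝ × ℝ, 1 ≤ (1 + |u.1|) ^ 2 * (1 + |u.2.1|) * (1 + |u.2.2|) := by
    intro u
    have h1 : 1 ≤ 1 + |u.1| := by linarith [abs_nonneg u.1]
    have h2 : 1 ≤ 1 + |u.2.1| := by linarith [abs_nonneg u.2.1]
    have h3 : 1 ≤ 1 + |u.2.2| := by linarith [abs_nonneg u.2.2]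
    have h4 : 1 ≤ (1 + |u.1|) ^ 2 := one_le_pow₀ h1
    calc (1 : ℝ) = 1 * 1 * 1 := by norm_num
      _ ≤ _ := mul_le_mul (mul_le_mul h4 h2 zero_le_one (by positivity)) h3 zero_le_one
          (by positivity)
  -- the integrand
  have hHI : ∀ n m m' A B : ℕ, 1 ≤ n → 1 ≤ m → 1 ≤ m' → 1 ≤ A → 1 ≤ B →
      boxkHI (fun u : ℝ × ℝ × ℝ => F u *
        (pw (u.1 + u.2.1 + u.2.2) n * pw (u.1 + u.2.1) m *
            (starRingEnd ℂ) (pw (u.1 + u.2.1) m') * pw u.1 B * (starRingEnd ℂ) (pw u.1 A)))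
        (wk η ρ α T n m m' A B : ℂ) := by
    intro n m m' A B hn hm hm' hA hB
    refine ⟨?_, (hFw n m m' A B hn hm hm' hA hB).symm⟩
    have c1 : Continuous fun u : ℝ × ℝ × ℝ => u.1 := continuous_fst
    have c2 : Continuous fun u : ℝ × ℝ × ℝ => u.2.1 := continuous_fst.comp continuous_snd
    have c3 : Continuous fun u : ℝ × ℝ × ℝ => u.2.2 := continuous_snd.comp continuous_snd
    have d1 := boxk_pw_cont ((c1.add c2).add c3) hn
    have d2 := boxk_pw_cont (c1.add c2) hm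
    have d3 : Continuous fun u : ℝ × ℝ × ℝ => (starRingEnd ℂ) (pw (u.1 + u.2.1) m') :=
      Complex.continuous_conj.comp (boxk_pw_cont (c1.add c2) hm')
    have d4 := boxk_pw_cont c1 hB
    have d5 : Continuous fun u : ℝ × ℝ × ℝ => (starRingEnd ℂ) (pw u.1 A) :=
      Complex.continuous_conj.comp (boxk_pw_cont c1 hA)
    have hcont : Continuous (fun u : ℝ × ℝ × ℝ => F u *
        (pw (u.1 + u.2.1 + u.2.2) n * pw (u.1 + u.2.1) m *
            (starRingEnd ℂ) (pw (u.1 + u.2.1) m') * pw u.1 B * (starRingEnd ℂ) (pw u.1 A))) :=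
      hFc.mul ((((d1.mul d2).mul d3).mul d4).mul d5)
    refine Integrable.mono' hFi hcont.aestronglyMeasurable (Filter.Eventually.of_forall ?_)
    intro u
    rw [norm_mul]
    refine mul_le_mul_of_nonneg_left (le_trans ?_ (hG1 u)) (norm_nonneg _)
    rw [norm_mul, norm_mul, norm_mul, norm_mul, RCLike.norm_conj, RCLike.norm_conj]
    have e1 := norm_pw (u.1 + u.2.1 + u.2.2) n
    have e2 := norm_pw (u.1 + u.2.1) m
    have e3 := norm_pw (u.1 + u.2.1) m'
    have e4 := norm_pw u.1 B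
    have e5 := norm_pw u.1 A
    calc _ ≤ (1 : ℝ) * 1 * 1 * 1 * 1 := by gcongr
      _ = 1 := by norm_num
  -- the whole sum
  have hBX : boxkHI (fun u : ℝ × ℝ × ℝ =>
      ∑ m' ∈ Mk A₀ T with (M ≤ m' ∧ m' < 2 * M), ∑ A ∈ Ak A₀ c α T with (K ≤ A ∧ A < 2 * K),
      (starRingEnd ℂ) (b m') * ((1 / (m' : ℝ) : ℝ) : ℂ) * mf A *
      ∑ m ∈ Finset.Icc 1 (NN X M), ∑ B ∈ Finset.Icc 1 (YY X α T K) with B.Coprime (m' * A),
      ∑ k ∈ Finset.Ico P (2 * P), ∑ l ∈ Finset.Ico Q (2 * Q),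
        (if (k * l).Coprime (Qk m m' A) then
          f k * g l * aM A₀ T a m * (F u * (pw (u.1 + u.2.1 + u.2.2) (k * l) *
            pw (u.1 + u.2.1) m * (starRingEnd ℂ) (pw (u.1 + u.2.1) m') * pw u.1 B *
            (starRingEnd ℂ) (pw u.1 A))) *
            (ex (-(((k * l : ℕ) : ℝ) * m * B / (m' * A))) - mf (Qk m m' A)) else 0))
      (BXk η ρ X A₀ c α T a b f g M K P Q) := by
    unfold BXk
    refine boxkHI_sum _ fun m' hm' => boxkHI_sum _ fun A hA => boxkHI_cmul _ ?_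
    rw [Finset.mem_filter] at hm' hA
    refine boxkHI_sum _ fun m hm => boxkHI_sum _ fun B hB => boxkHI_sum _ fun k hk =>
      boxkHI_sum _ fun l hl => boxkHI_ite _ fun _ => boxkHI_mulc _ (boxkHI_cmul _ ?_)
    rw [Finset.mem_Icc] at hm
    rw [Finset.mem_filter, Finset.mem_Icc] at hB
    rw [Finset.mem_Ico] at hk hl
    have h1 : 1 ≤ k := by omega
    have h2 : 1 ≤ l := by omega
    exact hHI (k * l) m m' A B (Nat.mul_pos h1 h2) hm.1 (by omega) (by omega) hB.1.1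
  rw [← hBX.2]
  have hfin : ∫ u : ℝ × ℝ × ℝ,
      ‖F u‖ * ((1 + |u.1|) ^ 2 * (1 + |u.2.1|) * (1 + |u.2.2|)) * E =
      (∫ u : ℝ × ℝ × ℝ, ‖F u‖ * ((1 + |u.1|) ^ 2 * (1 + |u.2.1|) * (1 + |u.2.2|))) * E :=
    integral_mul_const _ _
  refine le_trans ?_ (mul_le_mul_of_nonneg_right hFC hE0)
  rw [← hfin]
  refine norm_integral_le_of_norm_le (hFi.mul_const E) (Filter.Eventually.of_forall ?_)
  intro u
  simp only [boxk_D4]
  set U : ℝ := u.1 + u.2.1 + u.2.2 with hU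
  set V : ℝ := u.1 + u.2.1 with hV
  set W : ℝ := u.1 with hW
  have hUW : (1 + |U|) * (1 + |W|) ≤ (1 + |u.1|) ^ 2 * (1 + |u.2.1|) * (1 + |u.2.2|) := by
    have e0 : |U| ≤ |u.1| + |u.2.1| + |u.2.2| := by
      rw [hU]
      exact (abs_add_le _ _).trans (add_le_add (abs_add_le _ _) le_rfl)
    have p1 := abs_nonneg u.1
    have p2 := abs_nonneg u.2.1
    have p3 := abs_nonneg u.2.2
    have e1 : 1 + |U| ≤ (1 + |u.1|) * (1 + |u.2.1|) * (1 + |u.2.2|) := by
      have q1 : 0 ≤ |u.1| * |u.2.1| := by positivity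
      have q2 : 0 ≤ |u.1| * |u.2.2| := by positivity
      have q3 : 0 ≤ |u.2.1| * |u.2.2| := by positivity
      have q4 : 0 ≤ |u.1| * |u.2.1| * |u.2.2| := by positivity
      nlinarith
    calc (1 + |U|) * (1 + |W|) ≤ ((1 + |u.1|) * (1 + |u.2.1|) * (1 + |u.2.2|)) * (1 + |u.1|) :=
          mul_le_mul_of_nonneg_right e1 (by linarith)
      _ = _ := by ring
  -- the norm
  have hD4 : ∀ m' A : ℕ, ‖(starRingEnd ℂ) (b m') * ((1 / (m' : ℝ) : ℝ) : ℂ) * mf A *
      (F u * (((starRingEnd ℂ) (pw V m') * (starRingEnd ℂ) (pw W A)) *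
        D4 (bx P fun k => f k * pw U k) (bx Q fun l => g l * pw U l)
          (fun m => aM A₀ T a m * pw V m) (pw W) (2 * P) (2 * Q) (NN X M) (YY X α T K)
            (m' * A)))‖ ≤
      ‖F u‖ * ((1 / ((m' : ℝ) * (Nat.totient A : ℝ))) *
        ‖D4 (bx P fun k => f k * pw U k) (bx Q fun l => g l * pw U l)
          (fun m => aM A₀ T a m * pw V m) (pw W) (2 * P) (2 * Q) (NN X M) (YY X α T K)
            (m' * A)‖) := by
    intro m' A
    set Z := D4 (bx P fun k => f k * pw U k) (bx Q fun l => g l * pw U l)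
          (fun m => aM A₀ T a m * pw V m) (pw W) (2 * P) (2 * Q) (NN X M) (YY X α T K)
            (m' * A) with hZ
    rw [norm_mul, norm_mul, norm_mul, norm_mul, norm_mul, norm_mul, RCLike.norm_conj,
      RCLike.norm_conj, RCLike.norm_conj, Complex.norm_real,
      Real.norm_of_nonneg (by positivity : (0 : ℝ) ≤ 1 / (m' : ℝ))]
    have e1 := hb m'
    have e2 := boxk_norm_mf A
    have e3 := norm_pw V m'
    have e4 := norm_pw W A
    calc ‖b m'‖ * (1 / (m' : ℝ)) * ‖mf A‖ * (‖F u‖ * (‖pw V m'‖ * ‖pw W A‖ * ‖Z‖))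
        ≤ 1 * (1 / (m' : ℝ)) * (1 / (Nat.totient A : ℝ)) * (‖F u‖ * (1 * 1 * ‖Z‖)) := by
          gcongr
      _ = ‖F u‖ * ((1 / ((m' : ℝ) * (Nat.totient A : ℝ))) * ‖Z‖) := by
          rw [one_div (((m' : ℝ) * (Nat.totient A : ℝ))), mul_inv]
          ring
  have hinner := inner_le (D := D) (Mb := Mb * ((1 + |U|) * (1 + |W|))) (M := M) (K := K)
    (J := J) hD (by positivity) hM hK hJ hτ
    (S₁ := (Mk A₀ T).filter fun m' => M ≤ m' ∧ m' < 2 * M)
    (S₂ := (Ak A₀ c α T).filter fun A => K ≤ A ∧ A < 2 * K)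
    (by
      intro x hx
      rw [Finset.mem_filter] at hx
      rw [Finset.mem_Ico]
      exact hx.2)
    (by
      intro x hx
      rw [Finset.mem_filter] at hx
      rw [Finset.mem_Ico]
      exact hx.2)
    (bx P fun k => f k * pw U k) (bx Q fun l => g l * pw U l)
    (fun m => aM A₀ T a m * pw V m) (pw W) (2 * P) (2 * Q) (NN X M) (YY X α T K)
    (by
      intro m
      rw [norm_mul]
      have h1 : ‖aM A₀ T a m‖ ≤ 1 := by
        unfold aM
        split_ifs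
        · exact ha m
        · rw [norm_zero]
          exact zero_le_one
      calc ‖aM A₀ T a m‖ * ‖pw V m‖ ≤ 1 * 1 :=
            mul_le_mul h1 (norm_pw V m) (norm_nonneg _) zero_le_one
        _ = 1 := one_mul 1)
    (fun h' δ i h1 h2 h3 h4 h5 => hS U W h' δ i h1 h2 h3 h4 h5)
  refine (norm_sum_le _ _).trans ((Finset.sum_le_sum fun m' _ => (norm_sum_le _ _).trans
    (Finset.sum_le_sum fun A _ => hD4 m' A)).trans ?_)
  simp only [← Finset.mul_sum]
  have hF0 := norm_nonneg (F u)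
  calc ‖F u‖ * _ ≤ ‖F u‖ * (D ^ 3 * J * (1 + Real.log (4 * M * K)) *
        (Mb * ((1 + |U|) * (1 + |W|)))) := mul_le_mul_of_nonneg_left hinner hF0
    _ = ‖F u‖ * ((1 + |U|) * (1 + |W|)) * E := by
        rw [hE]
        ring
    _ ≤ ‖F u‖ * ((1 + |u.1|) ^ 2 * (1 + |u.2.1|) * (1 + |u.2.2|)) * E :=
        mul_le_mul_of_nonneg_right (mul_le_mul_of_nonneg_left hUW hF0) hE0

end Pool.Agent.MP_67227b_nt.Gk
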