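import Mathlib
import Pool.Agent.MP_67227b_nt.Gg.GgPvT
import Pool.Agent.MP_67227b_nt.Gk.GkED

set_option autoImplicit false

open Filter Topology Set MeasureTheory Complex
open scoped Real ContDiff ArithmeticFunction ArithmeticFunction.Moebius
open scoped Classical

namespace Pool.Agent.MP_67227b_nt.Gk

open Pool.Agent.MP_67227b_nt.Gg (Eta Rho wt ex PP tv bx pw D3 T3 P3 S3 YY cv cs Jd uV a1 g1 a2 g2
  a3 g3)
open Pool.Agent.BV (tau csum)
open Pool.Agent.LS (prim)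

/-- PROOF. At most `tau l` pairs (see `ls2_norm` in `GgLs2.lean`); for `l = 0` and for `l > M * Y`
there is no pair at all. -/
theorem cb_norm {D : ℝ} (hD : 0 < D) {h b : ℕ → ℂ} {M Y : ℕ} (hh : ∀ m, ‖h m‖ ≤ 1)
    (hb : ∀ B, ‖b B‖ ≤ 1) (hτ : ∀ n : ℕ, 1 ≤ n → n ≤ M * Y → tau n ≤ D) (l : ℕ) :
    ‖cb D h b M Y l‖ ≤ 1 := by
  unfold cb
  set S := ((Finset.Icc 1 M ×ˢ Finset.Icc 1 Y)).filter (fun p : ℕ × ℕ => p.1 * p.2 = l) with hS
  have hn : ‖∑ p ∈ S, h p.1 * b p.2‖ ≤ D := by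
    rcases S.eq_empty_or_nonempty with hE | hE
    · rw [hE, Finset.sum_empty, norm_zero]
      exact hD.le
    · obtain ⟨p0, hp0⟩ := hE
      rw [hS, Finset.mem_filter, Finset.mem_product, Finset.mem_Icc, Finset.mem_Icc] at hp0
      obtain ⟨⟨⟨h1, h2⟩, h3, h4⟩, h5⟩ := hp0
      have hl1 : 1 ≤ l := by
        rw [← h5]
        exact Nat.mul_pos h1 h3
      have hl2 : l ≤ M * Y := by
        rw [← h5]
        exact Nat.mul_le_mul h2 h4
      refine (norm_sum_le _ _).trans ?_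
      have h6 : ∀ p ∈ S, ‖h p.1 * b p.2‖ ≤ 1 := by
        intro p _
        rw [norm_mul]
        exact mul_le_one₀ (hh _) (norm_nonneg _) (hb _)
      refine (Finset.sum_le_card_nsmul _ _ _ h6).trans ?_
      rw [nsmul_eq_mul, mul_one]
      refine le_trans ?_ (hτ l hl1 hl2)
      unfold Pool.Agent.BV.tau
      have h7 : S.card ≤ l.divisors.card := by
        refine Finset.card_le_card_of_injOn (fun p => p.1) ?_ ?_
        · intro p hp
          have hp' := (Finset.mem_filter.1 (Finset.mem_coe.1 hp)).2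
          rw [Finset.mem_coe, Nat.mem_divisors]
          exact ⟨Dvd.intro _ hp', by omega⟩
        · intro p hp p' hp' hpp
          have h8 := (Finset.mem_filter.1 (Finset.mem_coe.1 hp)).2
          have h9 := (Finset.mem_filter.1 (Finset.mem_coe.1 hp')).2
          have hpp' : p.1 = p'.1 := hpp
          have h10 : 0 < p.1 := by
            have h11 := (Finset.mem_product.1 (Finset.mem_filter.1 (Finset.mem_coe.1 hp)).1).1
            rw [Finset.mem_Icc] at h11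
            exact h11.1
          refine Prod.ext hpp' ?_
          rw [← hpp', ← h8] at h9
          exact (Nat.eq_of_mul_eq_mul_left h10 h9).symm
      exact_mod_cast h7
  rw [norm_mul, Complex.norm_real, Real.norm_of_nonneg (inv_nonneg.2 hD.le)]
  calc D⁻¹ * ‖∑ p ∈ S, h p.1 * b p.2‖ ≤ D⁻¹ * D :=
        mul_le_mul_of_nonneg_left hn (inv_nonneg.2 hD.le)
    _ = 1 := inv_mul_cancel₀ hD.ne'

theorem cop_norm {δ : ℕ} {b : ℕ → ℂ} (hb : ∀ B, ‖b B‖ ≤ 1) (B : ℕ) : ‖cop δ b B‖ ≤ 1 := by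
  unfold cop
  split_ifs
  · exact hb B
  · rw [norm_zero]
    exact zero_le_one

/-- PROOF. As `ls2_conv` in `GgLs2.lean`. -/
theorem csum_cb (D : ℝ) (h b : ℕ → ℂ) (M Y e : ℕ) {q : ℕ} (ψ : DirichletCharacter ℂ q) :
    csum (cb D h b M Y) (M * Y) ψ e = ((D⁻¹ : ℝ) : ℂ) * (csum h M ψ e * csum b Y ψ e) := by
  unfold Pool.Agent.BV.csum cb
  rw [Finset.sum_mul_sum, ← Finset.sum_product']
  have h1 : ∀ l ∈ Finset.Icc 1 (M * Y),
      (if l.Coprime e then ((D⁻¹ : ℝ) : ℂ) * (∑ p ∈ (Finset.Icc 1 M ×ˢ Finset.Icc 1 Y)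
        with p.1 * p.2 = l, h p.1 * b p.2) * ψ (l : ZMod q) else 0) =
      ((D⁻¹ : ℝ) : ℂ) * ∑ p ∈ (Finset.Icc 1 M ×ˢ Finset.Icc 1 Y) with (p.1 * p.2 = l),
        (if p.1.Coprime e then h p.1 * ψ (p.1 : ZMod q) else 0) *
          (if p.2.Coprime e then b p.2 * ψ (p.2 : ZMod q) else 0) := by
    intro l _
    by_cases hc : l.Coprime e
    · rw [if_pos hc, mul_assoc, Finset.sum_mul]
      congr 1
      refine Finset.sum_congr rfl fun p hp => ?_
      have hl := (Finset.mem_filter.1 hp).2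
      rw [← hl] at hc
      rw [if_pos (Nat.Coprime.coprime_mul_right hc), if_pos (Nat.Coprime.coprime_mul_left hc),
        ← hl, Nat.cast_mul, map_mul]
      ring
    · rw [if_neg hc]
      symm
      rw [Finset.sum_eq_zero, mul_zero]
      intro p hp
      have hl := (Finset.mem_filter.1 hp).2
      by_cases h3 : p.1.Coprime e
      · have h4 : ¬ p.2.Coprime e := fun h4 => hc (hl ▸ Nat.Coprime.mul_left h3 h4)
        rw [if_neg h4, mul_zero]
      · rw [if_neg h3, zero_mul]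
  rw [Finset.sum_congr rfl h1, ← Finset.mul_sum]
  congr 1
  rw [Finset.sum_fiberwise_of_maps_to]
  rintro ⟨x, y⟩ hxy
  rw [Finset.mem_product, Finset.mem_Icc, Finset.mem_Icc] at hxy
  rw [Finset.mem_Icc]
  exact ⟨Nat.mul_pos hxy.1.1 hxy.2.1, Nat.mul_le_mul hxy.1.2 hxy.2.2⟩

/-- PROOF. `(B, e) = 1` and `(B, δ) = 1` iff `(B, δe) = 1`. -/
theorem csum_cop (δ : ℕ) (b : ℕ → ℂ) (Y e : ℕ) {q : ℕ} (ψ : DirichletCharacter ℂ q) :
    csum (cop δ b) Y ψ e = csum b Y ψ (δ * e) := by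
  unfold Pool.Agent.BV.csum cop
  refine Finset.sum_congr rfl fun n _ => ?_
  by_cases h1 : n.Coprime δ
  · by_cases h2 : n.Coprime e
    · rw [if_pos h2, if_pos h1, if_pos (Nat.coprime_mul_iff_right.2 ⟨h1, h2⟩)]
    · rw [if_neg h2, if_neg (fun h => h2 (Nat.coprime_mul_iff_right.1 h).2)]
  · rw [if_neg h1, zero_mul, ite_self,
      if_neg (fun h => h1 (Nat.coprime_mul_iff_right.1 h).1)]

/-- Pólya-Vinogradov in the variable `B`. PROOF. `csum_cb`, `csum_cop`, `|csum h M ψ e| ≤ M`,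
`Gg.pv_tv` with `s = δ e`, `tau (δ e) ≤ tau δ * tau e ≤ D tau e`. -/
theorem cb_pv {D : ℝ} (hD : 0 < D) {h : ℕ → ℂ} (hh : ∀ m, ‖h m‖ ≤ 1) (W : ℝ) (M Y : ℕ) {δ : ℕ}
    (hδ : 1 ≤ δ) (hτ : tau δ ≤ D) {q : ℕ} (hq : 1 < q) (ψ : DirichletCharacter ℂ q)
    (hψ : ψ.IsPrimitive) {e : ℕ} (he : 1 ≤ e) :
    ‖csum (cb D h (cop δ (pw W)) M Y) (M * Y) ψ e‖ ≤
      M * tv (pw W) Y * (tau e * (Real.sqrt q * (1 + Real.log q))) := by
  have hlog : 0 ≤ Real.log q := Real.log_nonneg (by exact_mod_cast hq.le)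
  rw [csum_cb, csum_cop, norm_mul, norm_mul, Complex.norm_real,
    Real.norm_of_nonneg (inv_nonneg.2 hD.le)]
  have h1 : ‖csum h M ψ e‖ ≤ M := by
    unfold Pool.Agent.BV.csum
    refine (norm_sum_le _ _).trans ?_
    have h2 : ∀ n ∈ Finset.Icc 1 M, ‖if n.Coprime e then h n * ψ (n : ZMod q) else 0‖ ≤ 1 := by
      intro n _
      split_ifs
      · rw [norm_mul]
        exact mul_le_one₀ (hh _) (norm_nonneg _) (DirichletCharacter.norm_le_one _ _)
      · rw [norm_zero]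
        exact zero_le_one
    refine (Finset.sum_le_card_nsmul _ _ _ h2).trans (le_of_eq ?_)
    rw [nsmul_eq_mul, mul_one, Nat.card_Icc, Nat.add_sub_cancel]
  have h3 := Gg.pv_tv hq ψ hψ (δ * e) (Nat.mul_pos hδ he).ne' (pw W) Y
  have h4 : tau (δ * e) ≤ D * tau e :=
    (Pool.Agent.BV.tau_mul_le δ e (by omega) (by omega)).trans
      (mul_le_mul_of_nonneg_right hτ (by unfold Pool.Agent.BV.tau; positivity))
  have htv : 0 ≤ tv (pw W) Y := by unfold Gg.tv; positivity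
  have hC : 0 ≤ Real.sqrt q * (1 + Real.log q) := by positivity
  have h5 : ‖csum (pw W) Y ψ (δ * e)‖ ≤
      tv (pw W) Y * ((D * tau e) * (Real.sqrt q * (1 + Real.log q))) :=
    h3.trans (mul_le_mul_of_nonneg_left (mul_le_mul_of_nonneg_right h4 hC) htv)
  calc D⁻¹ * (‖csum h M ψ e‖ * ‖csum (pw W) Y ψ (δ * e)‖)
      ≤ D⁻¹ * ((M : ℝ) * (tv (pw W) Y * ((D * tau e) * (Real.sqrt q * (1 + Real.log q))))) := by
        refine mul_le_mul_of_nonneg_left ?_ (inv_nonneg.2 hD.le)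
        exact mul_le_mul h1 h5 (norm_nonneg _) (Nat.cast_nonneg _)
    _ = (D⁻¹ * D) * (M * tv (pw W) Y * (tau e * (Real.sqrt q * (1 + Real.log q)))) := by ring
    _ = M * tv (pw W) Y * (tau e * (Real.sqrt q * (1 + Real.log q))) := by
        rw [inv_mul_cancel₀ hD.ne', one_mul]

end Pool.Agent.MP_67227b_nt.Gk
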