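import Mathlib
import Pool.Agent.MP_67227b_nt.Gk.GkED
import Pool.Agent.MP_67227b_nt.Gg.GgEps

set_option autoImplicit false

open Filter Topology Set MeasureTheory Complex
open scoped Real ContDiff ArithmeticFunction ArithmeticFunction.Moebius
open scoped Classical

namespace Pool.Agent.MP_67227b_nt.Gk

open Pool.Agent.MP_67227b_nt.Gg (Eta Rho wt ex PP tv bx pw D3 T3 P3 S3 YY cv cs Jd uV a1 g1 a2 g2
  a3 g3)
open Pool.Agent.BV (tau csum)
open Pool.Agent.LS (prim)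

/-- The divisor bound in the form used here. -/
theorem eps_k {ε : ℝ} (hε : 0 < ε) : ∀ᶠ T : ℝ in atTop,
    (∀ n : ℕ, 1 ≤ n → (n : ℝ) ≤ T ^ (5 : ℝ) → tau n ≤ T ^ ε) ∧ Real.log T ^ 6 ≤ T ^ ε ∧
      2 ≤ Real.log T := by
  filter_upwards [Gg.all_eps hε, eventually_ge_atTop (Real.exp 2)] with T hT hT2
  obtain ⟨D, hD1, hD, hDT⟩ := hT
  have hT0 : 0 < T := (Real.exp_pos 2).trans_le hT2
  have hlog : 2 ≤ Real.log T := by
    rw [Real.le_log_iff_exp_le hT0]
    exact hT2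
  have h9 : 1 ≤ D ^ 9 := one_le_pow₀ hD1
  have h6 : 1 ≤ Real.log T ^ 6 := one_le_pow₀ (by linarith)
  have hDle : D ≤ T ^ ε := by
    refine le_trans ?_ hDT
    have h1 : D ≤ D ^ 9 := le_self_pow₀ hD1 (by norm_num)
    nlinarith
  have hLle : Real.log T ^ 6 ≤ T ^ ε := by
    refine le_trans ?_ hDT
    nlinarith
  exact ⟨fun n hn hn' => (hD n hn hn').trans hDle, hLle, hlog⟩

end Pool.Agent.MP_67227b_nt.Gk
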