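import Mathlib
import Pool.Agent.MP_67227b_nt.Gg.GgTyI
import Pool.Agent.MP_67227b_nt.Gk.GkEps

set_option autoImplicit false

open Filter Topology Set MeasureTheory Complex
open scoped Real ContDiff ArithmeticFunction ArithmeticFunction.Moebius
open scoped Classical

namespace Pool.Agent.MP_67227b_nt.Gk

open Pool.Agent.MP_67227b_nt.Gg (Eta Rho wt ex PP tv bx pw D3 T3 P3 S3 YY cv cs Jd uV a1 g1 a2 g2
  a3 g3)
open Pool.Agent.BV (tau csum)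
open Pool.Agent.LS (prim)

/-- PROOF. `Gg.S3_typeI` with `G₁ = 3 log T`, `X₁ = 2P`, `K = 2^i`, `D = T^{c/1000}` (`eps_k`;
`2·2^i ≤ 8MK ≤ 8 T^{1/2} ≤ T⁵`), `1 + log(2·2^i) ≤ 2 log T`: the bound is
`8 (6 L P) Y₁ V (2 L) D⁴ 2^i`, `2^i ≤ 4MK/δ ≤ 4MK`, `Y₁ ≤ 2 e^{3X} M K T^{1-α}`, so it is
`≤ 768 e^{3X} L² D⁴ V P (MK)² T^{1-α}` and `MK ≤ T^{1/2-c}`, `P ≤ T^{α-1+c}`:
`P (MK)² T^{1-α} ≤ T^{1-c}`. See `Gg.typeI_num` (`GgNum1.lean`). -/
theorem numI (X c A₀ : ℝ) (hc : 0 < c) : ∃ C : ℝ, 0 ≤ C ∧ ∀ᶠ T : ℝ in atTop,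
    ∀ α ∈ Icc (1 : ℝ) (3 / 2 - A₀ - 4 * c), ∀ M K P Q δ i Y₁ : ℕ, 1 ≤ M → 1 ≤ K → 1 ≤ P →
      1 ≤ Q → 1 ≤ δ → (M : ℝ) ≤ T ^ A₀ → (K : ℝ) ≤ T ^ (1 / 2 - A₀ - c) →
      (P : ℝ) ≤ T ^ (α - 1 + c) → 2 ^ i * δ < 4 * M * K →
      (Y₁ : ℝ) ≤ 2 * M * Real.exp (2 * X) / δ * (K * T ^ (1 - α) * Real.exp X) →
      ∀ (f g b : ℕ → ℂ) (V : ℝ), (∀ m, P ≤ m → m < 2 * P → ‖f m‖ ≤ 3 * Real.log T) →
        (∀ l, ‖b l‖ ≤ 1) → tv (bx Q g) (2 * Q) ≤ V →
        S3 (Finset.Ioc 1 (2 * 2 ^ i)) (bx P f) (bx Q g) b (2 * P) (2 * Q) Y₁ (2 ^ i) ≤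
          C * T ^ (1 - c / 2) * V := by
  refine ⟨1152 * Real.exp (3 * X), by positivity, ?_⟩
  filter_upwards [eps_k (show 0 < c / 1000 by linarith), eventually_ge_atTop (4 : ℝ)]
    with T hTD hT4
  intro α hα M K P Q δ i Y₁ hM hK hP hQ hδ hMT hKT hPT hi hY₁ f g b V hf hb hV
  obtain ⟨hD, hLD, hlog⟩ := hTD
  have hT0 : 0 < T := by linarith
  have hT1 : 1 ≤ T := by linarith
  set D : ℝ := T ^ (c / 1000) with hDdef
  have hD1 : 1 ≤ D := Real.one_le_rpow hT1 (by linarith)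
  have hD0 : 0 ≤ D := by linarith
  have hMR : (1 : ℝ) ≤ M := by exact_mod_cast hM
  have hKR : (1 : ℝ) ≤ K := by exact_mod_cast hK
  have hPR : (1 : ℝ) ≤ P := by exact_mod_cast hP
  have hδR : (1 : ℝ) ≤ δ := by exact_mod_cast hδ
  have h2i : (1 : ℝ) ≤ ((2 ^ i : ℕ) : ℝ) := by exact_mod_cast Nat.one_le_two_pow
  have hMK : (M : ℝ) * K ≤ T ^ (1 / 2 - c) := by
    calc (M : ℝ) * K ≤ T ^ A₀ * T ^ (1 / 2 - A₀ - c) :=
          mul_le_mul hMT hKT (by positivity) (by positivity)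
      _ = T ^ (1 / 2 - c) := by
          rw [← Real.rpow_add hT0]
          congr 1
          ring
  have hiR : ((2 ^ i : ℕ) : ℝ) ≤ 4 * (M * K) := by
    have h1 : 2 ^ i ≤ 4 * M * K := by
      calc 2 ^ i ≤ 2 ^ i * δ := Nat.le_mul_of_pos_right _ hδ
        _ ≤ 4 * M * K := hi.le
    have h2 : ((2 ^ i : ℕ) : ℝ) ≤ ((4 * M * K : ℕ) : ℝ) := by exact_mod_cast h1
    push_cast at h2 ⊢
    linarith
  have h2iT : 2 * ((2 ^ i : ℕ) : ℝ) ≤ T ^ 2 := by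
    have h1 : T ^ (1 / 2 - c) ≤ T ^ (1 / 2 : ℝ) :=
      Real.rpow_le_rpow_of_exponent_le hT1 (by linarith)
    have h2 : T ^ (1 / 2 : ℝ) = Real.sqrt T := (Real.sqrt_eq_rpow T).symm
    have h3 : 2 ≤ Real.sqrt T := Real.le_sqrt_of_sq_le (by linarith)
    have h4 := Real.mul_self_sqrt hT0.le
    have h5 : 8 * Real.sqrt T ≤ T ^ 2 := by
      have h6 : (8 : ℝ) ≤ Real.sqrt T * T := by nlinarith
      calc 8 * Real.sqrt T ≤ (Real.sqrt T * T) * Real.sqrt T :=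
            mul_le_mul_of_nonneg_right h6 (Real.sqrt_nonneg T)
        _ = (Real.sqrt T * Real.sqrt T) * T := by ring
        _ = T ^ 2 := by rw [h4]; ring
    linarith
  have hT25 : T ^ 2 ≤ T ^ (5 : ℝ) := by
    have h1 : T ^ (2 : ℕ) ≤ T ^ (5 : ℕ) := pow_le_pow_right₀ hT1 (by norm_num)
    have h2 : T ^ (5 : ℕ) = T ^ (5 : ℝ) := by norm_cast
    rw [← h2]
    exact h1
  have hV0 : 0 ≤ V := by
    refine le_trans ?_ hV
    unfold tv
    positivity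
  have hbx : ∀ m, ‖bx P f m‖ ≤ 3 * Real.log T := by
    intro m
    unfold bx
    split_ifs with h
    · exact hf m h.1 h.2
    · rw [norm_zero]
      linarith
  have hmain := Gg.S3_typeI (a := bx P f) (g := bx Q g) (b := b) (X₁ := 2 * P) (X₂ := 2 * Q)
    (Y := Y₁) (K := 2 ^ i) (G₁ := 3 * Real.log T) (D := D) (M := V) Nat.one_le_two_pow
    hbx hb hV (by
      intro n hn hn'
      refine hD n hn ?_
      have h1 : (n : ℝ) ≤ ((2 * 2 ^ i : ℕ) : ℝ) := by exact_mod_cast hn'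
      have h2 : ((2 * 2 ^ i : ℕ) : ℝ) = 2 * ((2 ^ i : ℕ) : ℝ) := by push_cast; ring
      linarith) hD1
  refine hmain.trans ?_
  have hY : (Y₁ : ℝ) ≤ 2 * (M * K) * T ^ (1 - α) * Real.exp (3 * X) := by
    refine hY₁.trans ?_
    have h1 : 2 * (M : ℝ) * Real.exp (2 * X) / δ ≤ 2 * (M : ℝ) * Real.exp (2 * X) :=
      div_le_self (by positivity) hδR
    calc 2 * (M : ℝ) * Real.exp (2 * X) / δ * (K * T ^ (1 - α) * Real.exp X)
        ≤ 2 * (M : ℝ) * Real.exp (2 * X) * (K * T ^ (1 - α) * Real.exp X) :=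
          mul_le_mul_of_nonneg_right h1 (by positivity)
      _ = 2 * (M * K) * T ^ (1 - α) * (Real.exp (2 * X) * Real.exp X) := by ring
      _ = 2 * (M * K) * T ^ (1 - α) * Real.exp (3 * X) := by
          rw [← Real.exp_add]
          congr 2
          ring
  have hl2 : 1 + Real.log (2 * ((2 ^ i : ℕ) : ℝ)) ≤ 3 * Real.log T := by
    have h1 : Real.log (2 * ((2 ^ i : ℕ) : ℝ)) ≤ Real.log (T ^ 2) :=
      Real.log_le_log (by linarith) h2iT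
    rw [Real.log_pow] at h1
    push_cast at h1 ⊢
    linarith
  have hl0 : 0 ≤ 1 + Real.log (2 * ((2 ^ i : ℕ) : ℝ)) := by
    have : 0 ≤ Real.log (2 * ((2 ^ i : ℕ) : ℝ)) := Real.log_nonneg (by linarith)
    linarith
  have hlogD : D ^ 4 * Real.log T ^ 2 ≤ T ^ (c / 2) := by
    have h2 : Real.log T ^ 2 ≤ Real.log T ^ 6 := pow_le_pow_right₀ (by linarith) (by norm_num)
    calc D ^ 4 * Real.log T ^ 2 ≤ D ^ 4 * D :=
          mul_le_mul_of_nonneg_left (h2.trans hLD) (by positivity)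
      _ = D ^ (5 : ℕ) := by ring
      _ = T ^ (c / 1000 * 5) := by
          rw [hDdef, ← Real.rpow_natCast, ← Real.rpow_mul hT0.le]
          norm_num
      _ ≤ T ^ (c / 2) := Real.rpow_le_rpow_of_exponent_le hT1 (by linarith)
  have hpow : (P : ℝ) * ((M * K) * (M * K)) * T ^ (1 - α) ≤ T ^ (1 - c) := by
    calc (P : ℝ) * ((M * K) * (M * K)) * T ^ (1 - α)
        ≤ T ^ (α - 1 + c) * (T ^ (1 / 2 - c) * T ^ (1 / 2 - c)) * T ^ (1 - α) := by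
          refine mul_le_mul_of_nonneg_right ?_ (by positivity)
          refine mul_le_mul hPT (mul_le_mul hMK hMK (by positivity) (by positivity))
            (by positivity) (by positivity)
      _ = T ^ (1 - c) := by
          rw [← Real.rpow_add hT0, ← Real.rpow_add hT0, ← Real.rpow_add hT0]
          congr 1
          ring
  have hlp : 0 ≤ Real.log T := by linarith
  have hZ : (Y₁ : ℝ) * ((2 ^ i : ℕ) : ℝ) ≤
      (2 * (M * K) * T ^ (1 - α) * Real.exp (3 * X)) * (4 * (M * K)) :=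
    mul_le_mul hY hiR (by positivity) (by positivity)
  calc 8 * (3 * Real.log T * ((2 * P : ℕ) : ℝ)) * Y₁ * V *
        (1 + Real.log (2 * ((2 ^ i : ℕ) : ℝ))) * D ^ 4 * ((2 ^ i : ℕ) : ℝ)
      = 48 * Real.log T * P * V * (1 + Real.log (2 * ((2 ^ i : ℕ) : ℝ))) * D ^ 4 *
        ((Y₁ : ℝ) * ((2 ^ i : ℕ) : ℝ)) := by
        push_cast
        ring
    _ ≤ 48 * Real.log T * P * V * (3 * Real.log T) * D ^ 4 *
        ((2 * (M * K) * T ^ (1 - α) * Real.exp (3 * X)) * (4 * (M * K))) := by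
        gcongr
    _ = 1152 * Real.exp (3 * X) * (D ^ 4 * Real.log T ^ 2) *
        ((P : ℝ) * ((M * K) * (M * K)) * T ^ (1 - α)) * V := by ring
    _ ≤ 1152 * Real.exp (3 * X) * T ^ (c / 2) * T ^ (1 - c) * V := by
        gcongr
    _ = 1152 * Real.exp (3 * X) * T ^ (1 - c / 2) * V := by
        rw [mul_assoc (1152 * Real.exp (3 * X)), ← Real.rpow_add hT0]
        congr 3
        ring

end Pool.Agent.MP_67227b_nt.Gk
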