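import Mathlib

set_option autoImplicit false

open Filter Topology Set MeasureTheory Complex
open scoped Real ContDiff

namespace Pool.Agent.MP_67227b_nt.Gk

theorem numII_small {E c α T L D K P Q R V M δ I lR : ℝ} (hE : 1 ≤ E) (hT : 1 < T)
    (hc : 0 < c) (hL : 1 ≤ L) (hD : 1 ≤ D) (hDT : D ^ 9 * L ^ 6 ≤ T ^ (c / 64)) (hK0 : 0 < K)
    (hK : T ^ (α - 1 + c) ≤ 2 * K) (hP : 0 ≤ P) (hQ : 0 ≤ Q) (hPQ : P * Q ≤ T ^ α * E)
    (hR0 : 0 ≤ R) (hR : R ≤ T ^ (c / 8)) (hV : 1 ≤ V) (hδ : 0 < δ) (hI : 0 < I)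
    (hM : 0 ≤ M) (hMK : M * K ≤ 2 * I * δ) (hlR : lR ≤ 2 * L) (_hlR0 : 0 ≤ lR) :
    2 * (3 * L * (2 * P)) * (3 * L * (2 * Q)) * (2 * M * E ^ 2 / δ * V) * lR * D ^ 4 *
      (R ^ 2 / I) ≤ 1152 * E ^ 3 * T ^ (1 - c / 32) * V := by
  have hT0 : 0 < T := by linarith
  have hV0 : 0 ≤ V := by linarith
  have hR2 : R ^ 2 ≤ T ^ (c / 4) := by
    calc R ^ 2 ≤ (T ^ (c / 8)) ^ 2 := pow_le_pow_left₀ hR0 hR 2
      _ = T ^ (c / 4) := by
          rw [pow_two, ← Real.rpow_add hT0]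
          congr 1
          ring
  have hKinv : 1 / K ≤ 2 * T ^ (-(α - 1 + c)) := by
    rw [Real.rpow_neg hT0.le, div_le_iff₀ hK0]
    have h1 : 0 < T ^ (α - 1 + c) := by positivity
    rw [mul_assoc, inv_mul_eq_div, ← mul_div_assoc, le_div_iff₀ h1, one_mul]
    exact hK
  have hMI : M / δ / I ≤ 2 * (1 / K) := by
    rw [div_div, div_le_iff₀ (by positivity), mul_one_div, div_mul_eq_mul_div,
      le_div_iff₀ hK0]
    calc M * K ≤ 2 * I * δ := hMK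
      _ = 2 * (δ * I) := by ring
  have hPQ0 : 0 ≤ P * Q := mul_nonneg hP hQ
  have hcore : P * Q * R ^ 2 * (M / δ / I) ≤ 4 * E * T ^ (1 - 3 * c / 4) := by
    calc P * Q * R ^ 2 * (M / δ / I) ≤ (T ^ α * E) * T ^ (c / 4) *
          (2 * (2 * T ^ (-(α - 1 + c)))) := by
          have h2 : M / δ / I ≤ 2 * (2 * T ^ (-(α - 1 + c))) := by linarith
          have h3 : 0 ≤ M / δ / I := by positivity
          gcongr
      _ = 4 * E * (T ^ α * T ^ (c / 4) * T ^ (-(α - 1 + c))) := by ring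
      _ = 4 * E * T ^ (1 - 3 * c / 4) := by
          rw [← Real.rpow_add hT0, ← Real.rpow_add hT0]
          congr 2
          ring
  have hLD : L ^ 3 * D ^ 4 ≤ T ^ (c / 64) := by
    refine le_trans ?_ hDT
    rw [mul_comm]
    exact mul_le_mul (pow_le_pow_right₀ hD (by norm_num)) (pow_le_pow_right₀ hL (by norm_num))
      (by positivity) (by positivity)
  have hexp : T ^ (c / 64) * T ^ (1 - 3 * c / 4) ≤ T ^ (1 - c / 32) := by
    rw [← Real.rpow_add hT0]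
    exact Real.rpow_le_rpow_of_exponent_le hT.le (by linarith)
  calc 2 * (3 * L * (2 * P)) * (3 * L * (2 * Q)) * (2 * M * E ^ 2 / δ * V) * lR * D ^ 4 *
        (R ^ 2 / I)
      = 144 * E ^ 2 * (L ^ 2 * D ^ 4) * lR * V * (P * Q * R ^ 2 * (M / δ / I)) := by
        field_simp
        ring
    _ ≤ 144 * E ^ 2 * (L ^ 2 * D ^ 4) * (2 * L) * V * (4 * E * T ^ (1 - 3 * c / 4)) := by
        gcongr
    _ = 1152 * E ^ 3 * ((L ^ 3 * D ^ 4) * T ^ (1 - 3 * c / 4)) * V := by ring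
    _ ≤ 1152 * E ^ 3 * (T ^ (c / 64) * T ^ (1 - 3 * c / 4)) * V := by gcongr
    _ ≤ 1152 * E ^ 3 * T ^ (1 - c / 32) * V := by gcongr

end Pool.Agent.MP_67227b_nt.Gk
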