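import Mathlib
import Pool.Agent.MP_67227b_nt.Gg.GgSml

set_option autoImplicit false

open Filter Topology Set MeasureTheory Complex
open scoped Real ContDiff ArithmeticFunction ArithmeticFunction.Moebius
open scoped Classical

namespace Pool.Agent.MP_67227b_nt.Gk

open Pool.Agent.MP_67227b_nt.Gg (Eta Rho wt ex PP tv bx pw D3 T3 P3 S3 YY cv cs Jd uV a1 g1 a2 g2
  a3 g3)
open Pool.Agent.BV (tau csum)
open Pool.Agent.LS (prim)

/-- PROOF. Verbatim the proof of `Gg.S3_small` (`GgSml.lean`), with the hypothesis `hb` in the place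
of `pv_tv` and `tv b Y ≤ M`. -/
theorem S3_small' {a g b : ℕ → ℂ} {X₁ X₂ Y K R : ℕ} {G₁ G₂ D M : ℝ} (hK : 1 ≤ K) (hR : 1 ≤ R)
    (h₁ : ∀ m, ‖a m‖ ≤ G₁) (h₂ : ∀ k, ‖g k‖ ≤ G₂) (hM : 0 ≤ M)
    (hb : ∀ (q : ℕ) (ψ : DirichletCharacter ℂ q) (e : ℕ), 1 < q → q ≤ R → ψ.IsPrimitive →
      1 ≤ e → e ≤ 2 * K → ‖csum b Y ψ e‖ ≤ M * (tau e * (Real.sqrt q * (1 + Real.log q))))
    (hD : ∀ n : ℕ, 1 ≤ n → n ≤ 2 * K → tau n ≤ D) (hD1 : 1 ≤ D) :
    S3 (Finset.Ioc 1 R) a g b X₁ X₂ Y K ≤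
      2 * (G₁ * X₁) * (G₂ * X₂) * M * (1 + Real.log R) * D ^ 4 * ((R : ℝ) ^ 2 / K) := by
  have hG1 : 0 ≤ G₁ := (norm_nonneg _).trans (h₁ 0)
  have hG2 : 0 ≤ G₂ := (norm_nonneg _).trans (h₂ 0)
  have hM0 : 0 ≤ M := hM
  have hlR : 0 ≤ Real.log R := Real.log_nonneg (by exact_mod_cast hR)
  have hK0 : (0 : ℝ) < K := by exact_mod_cast hK
  have hN : 0 ≤ (G₁ * X₁) * (G₂ * X₂) * M := by positivity
  refine (Gg.SmlAux.S3_le (Finset.Ioc 1 R) (fun q hq => (Finset.mem_Ioc.1 hq).1) hN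
    (add_nonneg zero_le_one hlR) hD hD1 ?_).trans ?_
  · intro q hq e he hqe ψ hψ
    rw [Finset.mem_Ioc] at hq
    have heK : e ≤ 2 * K := by
      have h10 : 1 * e ≤ q * e := Nat.mul_le_mul_right e (by omega)
      omega
    have h3 := hb q ψ e hq.1 hq.2 (Pool.Agent.LS.mem_prim.1 hψ) he heK
    have hlq : Real.log q ≤ Real.log R :=
      Real.log_le_log (by exact_mod_cast (by omega : 0 < q)) (by exact_mod_cast hq.2)
    have hlq0 : 0 ≤ Real.log q := Real.log_nonneg (by exact_mod_cast (by omega : 1 ≤ q))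
    have ht : 0 ≤ tau e := Nat.cast_nonneg _
    have h4 : ‖csum b Y ψ e‖ ≤ M * (tau e * (Real.sqrt q * (1 + Real.log R))) := by
      refine h3.trans (mul_le_mul le_rfl ?_ ?_ hM0)
      · apply mul_le_mul_of_nonneg_left _ ht
        apply mul_le_mul_of_nonneg_left _ (Real.sqrt_nonneg _)
        linarith
      · exact mul_nonneg ht (mul_nonneg (Real.sqrt_nonneg _) (by linarith))
    calc ‖csum a X₁ ψ e‖ * ‖csum g X₂ ψ e‖ * ‖csum b Y ψ e‖
        ≤ (G₁ * X₁) * (G₂ * X₂) * (M * (tau e * (Real.sqrt q * (1 + Real.log R)))) := by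
          apply mul_le_mul _ h4 (norm_nonneg _) (by positivity)
          exact mul_le_mul (Gg.csum_triv a X₁ ψ e h₁) (Gg.csum_triv g X₂ ψ e h₂) (norm_nonneg _)
            (by positivity)
      _ = _ := by ring
  · have h5 : ∑ e ∈ Finset.Icc 1 (2 * K), ∑ q ∈ Finset.Ioc 1 R with
        (K ≤ q * e ∧ q * e < 2 * K), (1 / (e : ℝ) ^ 2) ≤ 2 * ((R : ℝ) ^ 2 / K) := by
      have h6 : ∑ e ∈ Finset.Icc 1 (2 * K), ∑ q ∈ Finset.Ioc 1 R with
          (K ≤ q * e ∧ q * e < 2 * K), (1 / (e : ℝ) ^ 2) =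
          ∑ q ∈ Finset.Ioc 1 R, ∑ e ∈ Finset.Icc 1 (2 * K) with
            (K ≤ q * e ∧ q * e < 2 * K), (1 / (e : ℝ) ^ 2) := by
        simp only [Finset.sum_filter]
        rw [Finset.sum_comm]
      rw [h6]
      have h7 : ∀ q ∈ Finset.Ioc 1 R, ∑ e ∈ Finset.Icc 1 (2 * K) with
          (K ≤ q * e ∧ q * e < 2 * K), (1 / (e : ℝ) ^ 2) ≤ 2 * (R : ℝ) / K := by
        intro q hq
        rw [Finset.mem_Ioc] at hq
        have hq0 : (0 : ℝ) < q := by exact_mod_cast (by omega : 0 < q)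
        have hqR : (q : ℝ) ≤ R := by exact_mod_cast hq.2
        calc ∑ e ∈ Finset.Icc 1 (2 * K) with (K ≤ q * e ∧ q * e < 2 * K), (1 / (e : ℝ) ^ 2)
            ≤ ∑ e ∈ Finset.Icc 1 (2 * K) with (K ≤ q * e ∧ q * e < 2 * K),
                ((q : ℝ) / K) ^ 2 := by
              refine Finset.sum_le_sum fun e he => ?_
              rw [Finset.mem_filter, Finset.mem_Icc] at he
              have he0 : (0 : ℝ) < e := by exact_mod_cast he.1.1
              have hKe : (K : ℝ) ≤ q * e := by exact_mod_cast he.2.1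
              rw [← one_div_pow]
              apply pow_le_pow_left₀ (by positivity)
              rw [div_le_div_iff₀ he0 hK0, one_mul]
              exact hKe
          _ = (((Finset.Icc 1 (2 * K)).filter fun e => K ≤ q * e ∧ q * e < 2 * K).card : ℝ) *
                ((q : ℝ) / K) ^ 2 := by rw [Finset.sum_const, nsmul_eq_mul]
          _ ≤ (((Finset.Icc 1 (2 * K)).filter fun e => q * e < 2 * K).card : ℝ) *
                ((q : ℝ) / K) ^ 2 := by
              apply mul_le_mul_of_nonneg_right _ (by positivity)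
              have h9 : ((Finset.Icc 1 (2 * K)).filter fun e => K ≤ q * e ∧ q * e < 2 * K) ⊆
                  ((Finset.Icc 1 (2 * K)).filter fun e => q * e < 2 * K) := by
                intro e he
                rw [Finset.mem_filter] at he ⊢
                exact ⟨he.1, he.2.2⟩
              exact_mod_cast Finset.card_le_card h9
          _ ≤ (2 * K / q) * ((q : ℝ) / K) ^ 2 :=
              mul_le_mul_of_nonneg_right (Gg.SmlAux.cnt q (by omega)) (by positivity)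
          _ = 2 * q / K := by field_simp
          _ ≤ 2 * (R : ℝ) / K := by gcongr
      calc ∑ q ∈ Finset.Ioc 1 R, ∑ e ∈ Finset.Icc 1 (2 * K) with
            (K ≤ q * e ∧ q * e < 2 * K), (1 / (e : ℝ) ^ 2)
          ≤ ∑ _q ∈ Finset.Ioc 1 R, 2 * (R : ℝ) / K := Finset.sum_le_sum h7
        _ = ((R - 1 : ℕ) : ℝ) * (2 * (R : ℝ) / K) := by
            rw [Finset.sum_const, nsmul_eq_mul, Nat.card_Ioc]
        _ ≤ (R : ℝ) * (2 * (R : ℝ) / K) := by
            apply mul_le_mul_of_nonneg_right _ (by positivity)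
            exact_mod_cast Nat.sub_le R 1
        _ = 2 * ((R : ℝ) ^ 2 / K) := by ring
    have h8 : ∑ e ∈ Finset.Icc 1 (2 * K), ∑ q ∈ Finset.Ioc 1 R with
        (K ≤ q * e ∧ q * e < 2 * K), (G₁ * X₁) * (G₂ * X₂) * M * (1 + Real.log R) * D ^ 4 *
          (1 / (e : ℝ) ^ 2) = (G₁ * X₁) * (G₂ * X₂) * M * (1 + Real.log R) * D ^ 4 *
        ∑ e ∈ Finset.Icc 1 (2 * K), ∑ q ∈ Finset.Ioc 1 R with
          (K ≤ q * e ∧ q * e < 2 * K), (1 / (e : ℝ) ^ 2) := by
      simp only [Finset.mul_sum]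
    rw [h8]
    calc (G₁ * X₁) * (G₂ * X₂) * M * (1 + Real.log R) * D ^ 4 *
        ∑ e ∈ Finset.Icc 1 (2 * K), ∑ q ∈ Finset.Ioc 1 R with
          (K ≤ q * e ∧ q * e < 2 * K), (1 / (e : ℝ) ^ 2)
        ≤ (G₁ * X₁) * (G₂ * X₂) * M * (1 + Real.log R) * D ^ 4 * (2 * ((R : ℝ) ^ 2 / K)) :=
          mul_le_mul_of_nonneg_left h5 (by positivity)
      _ = _ := by ring

end Pool.Agent.MP_67227b_nt.Gk
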