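import Mathlib
import Pool.Agent.MP_67227b_nt.Gg.GgLarge
import Pool.Agent.MP_67227b_nt.Gg.GgNumB
import Pool.Agent.MP_67227b_nt.Gg.GgSs
import Pool.Agent.MP_67227b_nt.Gk.GkEps
import Pool.Agent.MP_67227b_nt.Gk.GkNumA
import Pool.Agent.MP_67227b_nt.Gk.GkSml

set_option autoImplicit false

open Filter Topology Set MeasureTheory Complex
open scoped Real ContDiff ArithmeticFunction ArithmeticFunction.Moebius
open scoped Classical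

namespace Pool.Agent.MP_67227b_nt.Gk

open Pool.Agent.MP_67227b_nt.Gg (Eta Rho wt ex PP tv bx pw D3 T3 P3 S3 YY cv cs Jd uV a1 g1 a2 g2
  a3 g3)
open Pool.Agent.BV (tau csum)
open Pool.Agent.LS (prim)

private theorem numII_half {T : ℝ} (hT : 4 ≤ T) : 2 * T ^ (1 / 2 : ℝ) ≤ T := by
  have h0 : 0 ≤ T := by linarith
  rw [← Real.sqrt_eq_rpow]
  have h2 : 2 ≤ Real.sqrt T := by
    apply Real.le_sqrt_of_sq_le
    linarith
  have h3 := Real.mul_self_sqrt h0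
  nlinarith [Real.sqrt_nonneg T]

private theorem numII_bx {P : ℕ} {a : ℕ → ℂ} {G : ℝ} (hG : 0 ≤ G)
    (ha : ∀ m, P ≤ m → m < 2 * P → ‖a m‖ ≤ G) (m : ℕ) : ‖bx P a m‖ ≤ G := by
  unfold bx
  split_ifs with h
  · exact ha m h.1 h.2
  · rw [norm_zero]
    exact hG

private theorem numII_core (X c A₀ : ℝ) (hX : 0 ≤ X) (hc : 0 < c) (hA : 0 ≤ A₀) :
    ∀ᶠ T : ℝ in atTop,
    ∀ α ∈ Icc (1 : ℝ) (3 / 2 - A₀ - 4 * c), ∀ M K P Q δ i Y₁ : ℕ, 1 ≤ M → 1 ≤ K → 1 ≤ P →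
      1 ≤ Q → 1 ≤ δ → Q ≤ P → (M : ℝ) ≤ T ^ A₀ → T ^ (α - 1 + c) ≤ 2 * K →
      (K : ℝ) ≤ T ^ (1 / 2 - A₀ - c) →
      T ^ α ≤ 4 * P * Q * Real.exp X → (P : ℝ) * Q ≤ T ^ α * Real.exp X →
      (P : ℝ) ≤ 4 * Real.exp X * T ^ (1 - c) →
      M * K ≤ 2 * 2 ^ i * δ → 2 ^ i * δ < 4 * M * K →
      (Y₁ : ℝ) ≤ 2 * M * Real.exp (2 * X) / δ * (K * T ^ (1 - α) * Real.exp X) →
      ∀ (f g b : ℕ → ℂ) (V : ℝ), 1 ≤ V →
        (∀ m, P ≤ m → m < 2 * P → ‖f m‖ ≤ 3 * Real.log T) →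
        (∀ k, Q ≤ k → k < 2 * Q → ‖g k‖ ≤ 3 * Real.log T) → (∀ l, ‖b l‖ ≤ 1) →
        (∀ (q : ℕ) (ψ : DirichletCharacter ℂ q) (e : ℕ), 1 < q → ψ.IsPrimitive → 1 ≤ e →
          ‖csum b Y₁ ψ e‖ ≤ (2 * M * Real.exp (2 * X) / δ * V) *
            (tau e * (Real.sqrt q * (1 + Real.log q)))) →
        S3 (Finset.Ioc 1 (2 * 2 ^ i)) (bx P f) (bx Q g) b (2 * P) (2 * Q) Y₁ (2 ^ i) ≤
          (1152 * Real.exp X ^ 3 + 184320 * Real.exp X ^ 9) * T ^ (1 - c / 32) * V := by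
  have h4ev : ∀ᶠ T : ℝ in atTop, 4 ≤ T ^ (c / 2) :=
    (tendsto_rpow_atTop (by linarith : 0 < c / 2)).eventually_ge_atTop 4
  filter_upwards [eps_k (show 0 < c / 1000 by linarith), eventually_ge_atTop (Real.exp 2),
    eventually_ge_atTop (32 * Real.exp X ^ 4), h4ev]
    with T hTD hT2 hTX h4
  intro α hα M K P Q δ i Y₁ hM hK hP hQ hδ hQP hMT hKT' hKT hPQ' hPQ hPT hi' hi hY₁ f g b V hV
    hf hg hb hbc
  obtain ⟨hDe, hLD6, hlog⟩ := hTD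
  set E := Real.exp X with hEdef
  have hE : 1 ≤ E := Real.one_le_exp hX
  have hEE2 : Real.exp (2 * X) = E ^ 2 := by
    rw [hEdef, ← Real.exp_nat_mul]
    norm_num
  rw [hEE2] at hY₁ hbc
  have hT4 : 4 ≤ T := by
    have h1 := Real.add_one_lt_exp (show (1 : ℝ) ≠ 0 by norm_num)
    have h2 : Real.exp 2 = Real.exp 1 * Real.exp 1 := by
      rw [← Real.exp_add]
      norm_num
    have h3 : (4 : ℝ) ≤ Real.exp 2 := by
      rw [h2]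
      have h4 : (2 : ℝ) ≤ Real.exp 1 := by linarith
      have h5 := mul_le_mul h4 h4 (by norm_num) (Real.exp_pos 1).le
      linarith
    linarith
  have hT0 : 0 < T := by linarith
  have hT1 : 1 ≤ T := by linarith
  set D : ℝ := T ^ (c / 1000) with hDdef
  have hD1 : 1 ≤ D := Real.one_le_rpow hT1 (by linarith)
  have hD0 : 0 ≤ D := by linarith
  have hDT : D ^ 9 * Real.log T ^ 6 ≤ T ^ (c / 64) := by
    calc D ^ 9 * Real.log T ^ 6 ≤ D ^ 9 * D :=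
          mul_le_mul_of_nonneg_left hLD6 (by positivity)
      _ = D ^ (10 : ℕ) := by ring
      _ = T ^ (c / 1000 * 10) := by
          rw [hDdef, ← Real.rpow_natCast, ← Real.rpow_mul hT0.le]
          norm_num
      _ ≤ T ^ (c / 64) := Real.rpow_le_rpow_of_exponent_le hT1 (by linarith)
  have hDT2 : D ^ 9 * Real.log T ^ 6 ≤ T ^ (c / 2 / 32) := by
    rw [show c / 2 / 32 = c / 64 by ring]
    exact hDT
  have hc8 : c ≤ 1 / 8 := by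
    have := hα.1.trans hα.2
    linarith
  have hMR : (1 : ℝ) ≤ M := by exact_mod_cast hM
  have hKR : (1 : ℝ) ≤ K := by exact_mod_cast hK
  have hPR : (1 : ℝ) ≤ P := by exact_mod_cast hP
  have hQR : (1 : ℝ) ≤ Q := by exact_mod_cast hQ
  have hQPR : (Q : ℝ) ≤ P := by exact_mod_cast hQP
  have hδR : (1 : ℝ) ≤ δ := by exact_mod_cast hδ
  have h2i : (1 : ℝ) ≤ ((2 ^ i : ℕ) : ℝ) := by exact_mod_cast Nat.one_le_two_pow
  have hMK : (M : ℝ) * K ≤ T ^ (1 / 2 - c) := by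
    calc (M : ℝ) * K ≤ T ^ A₀ * T ^ (1 / 2 - A₀ - c) :=
          mul_le_mul hMT hKT (by positivity) (by positivity)
      _ = T ^ (1 / 2 - c) := by
          rw [← Real.rpow_add hT0]
          congr 1
          ring
  have hiR : ((2 ^ i : ℕ) : ℝ) ≤ 4 * (M * K) := by
    have h1 : 2 ^ i ≤ 4 * M * K := by
      calc 2 ^ i ≤ 2 ^ i * δ := Nat.le_mul_of_pos_right _ hδ
        _ ≤ 4 * M * K := hi.le
    have h2 : ((2 ^ i : ℕ) : ℝ) ≤ ((4 * M * K : ℕ) : ℝ) := by exact_mod_cast h1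
    push_cast at h2 ⊢
    linarith
  have hiR' : (M : ℝ) * K ≤ 2 * ((2 ^ i : ℕ) : ℝ) * δ := by
    have h2 : ((M * K : ℕ) : ℝ) ≤ ((2 * 2 ^ i * δ : ℕ) : ℝ) := by exact_mod_cast hi'
    push_cast at h2 ⊢
    linarith
  have hKc : ((2 ^ i : ℕ) : ℝ) ≤ T ^ (1 / 2 - c / 2) := by
    calc ((2 ^ i : ℕ) : ℝ) ≤ 4 * (M * K) := hiR
      _ ≤ T ^ (c / 2) * T ^ (1 / 2 - c) :=
          mul_le_mul h4 hMK (by positivity) (by positivity)
      _ = T ^ (1 / 2 - c / 2) := by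
          rw [← Real.rpow_add hT0]
          congr 1
          ring
  have h2K : 2 * ((2 ^ i : ℕ) : ℝ) ≤ T := by
    calc 2 * ((2 ^ i : ℕ) : ℝ) ≤ 2 * T ^ (1 / 2 - c / 2) := by linarith
      _ ≤ 2 * T ^ (1 / 2 : ℝ) := by
          have := Real.rpow_le_rpow_of_exponent_le hT1 (show 1 / 2 - c / 2 ≤ 1 / 2 by linarith)
          linarith
      _ ≤ T := numII_half hT4
  have hT5 : T ≤ T ^ (5 : ℝ) := by
    have h2 : T ^ (1 : ℝ) ≤ T ^ (5 : ℝ) :=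
      Real.rpow_le_rpow_of_exponent_le hT1 (by norm_num)
    rwa [Real.rpow_one] at h2
  have hY : (Y₁ : ℝ) ≤ ((2 ^ i : ℕ) : ℝ) * T ^ (1 - α) * (4 * E ^ 3) := by
    refine hY₁.trans ?_
    have h1 : (M : ℝ) * K / δ ≤ 2 * ((2 ^ i : ℕ) : ℝ) := by
      rw [div_le_iff₀ (by linarith)]
      exact hiR'
    calc 2 * (M : ℝ) * E ^ 2 / δ * (K * T ^ (1 - α) * E)
        = 2 * ((M : ℝ) * K / δ) * (T ^ (1 - α) * E ^ 3) := by ring
      _ ≤ 2 * (2 * ((2 ^ i : ℕ) : ℝ)) * (T ^ (1 - α) * E ^ 3) := by gcongr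
      _ = ((2 ^ i : ℕ) : ℝ) * T ^ (1 - α) * (4 * E ^ 3) := by ring
  have hTα : T ^ (1 - α) ≤ 1 := by
    have h2 : T ^ (1 - α) ≤ T ^ (0 : ℝ) :=
      Real.rpow_le_rpow_of_exponent_le hT1 (by linarith [hα.1])
    rwa [Real.rpow_zero] at h2
  have hYT : (Y₁ : ℝ) ≤ T * (4 * E ^ 3) := by
    refine hY.trans ?_
    have h1 : ((2 ^ i : ℕ) : ℝ) * T ^ (1 - α) ≤ T * 1 :=
      mul_le_mul (by linarith) hTα (by positivity) (by positivity)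
    rw [mul_one] at h1
    exact mul_le_mul_of_nonneg_right h1 (by positivity)
  -- the parameter `R`
  have hTc1 : 1 ≤ T ^ (c / 8) := Real.one_le_rpow hT1 (by linarith)
  set R : ℕ := ⌊T ^ (c / 8)⌋₊ with hRdef
  have hR1 : 1 ≤ R := by
    rw [hRdef, Nat.le_floor_iff (by positivity)]
    exact_mod_cast hTc1
  have hR1R : (1 : ℝ) ≤ R := by exact_mod_cast hR1
  have hRle : (R : ℝ) ≤ T ^ (c / 8) := Nat.floor_le (by positivity)
  have hRge : T ^ (c / 2 / 4) ≤ 2 * R := by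
    have h1 := Nat.lt_floor_add_one (T ^ (c / 8))
    rw [← hRdef] at h1
    rw [show c / 2 / 4 = c / 8 by ring]
    linarith
  have hRT : (R : ℝ) ≤ T := by
    refine hRle.trans ?_
    have h2 : T ^ (c / 8) ≤ T ^ (1 : ℝ) :=
      Real.rpow_le_rpow_of_exponent_le hT1 (by linarith)
    rwa [Real.rpow_one] at h2
  have hlR : 1 + Real.log R ≤ 2 * Real.log T := by
    have : Real.log R ≤ Real.log T := Real.log_le_log (by linarith) hRT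
    linarith
  have hlR0 : 0 ≤ 1 + Real.log (R : ℝ) := by
    have : 0 ≤ Real.log (R : ℝ) := Real.log_nonneg hR1R
    linarith
  have hlK : 1 + Real.log (2 * ((2 ^ i : ℕ) : ℝ)) ≤ 2 * Real.log T := by
    have : Real.log (2 * ((2 ^ i : ℕ) : ℝ)) ≤ Real.log T := Real.log_le_log (by positivity) h2K
    linarith
  have hlK0 : 0 ≤ 1 + Real.log (2 * ((2 ^ i : ℕ) : ℝ)) := by
    have : 0 ≤ Real.log (2 * ((2 ^ i : ℕ) : ℝ)) := Real.log_nonneg (by linarith)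
    linarith
  have hY0 : (0 : ℝ) ≤ (Y₁ : ℝ) := Nat.cast_nonneg _
  have hDn : ∀ n : ℕ, 1 ≤ n → n ≤ 2 * 2 ^ i → tau n ≤ D := by
    intro n hn hn'
    refine hDe n hn ?_
    have h1 : (n : ℝ) ≤ ((2 * 2 ^ i : ℕ) : ℝ) := by exact_mod_cast hn'
    have h2 : ((2 * 2 ^ i : ℕ) : ℝ) = 2 * ((2 ^ i : ℕ) : ℝ) := by push_cast; ring
    linarith
  have hE13 : E ≤ E ^ 3 := by
    calc E = E ^ 1 := (pow_one E).symm
      _ ≤ E ^ 3 := pow_le_pow_right₀ hE (by norm_num)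
  have hDm : ∀ n : ℕ, 1 ≤ n → n ≤ max (2 * 2 ^ i) ((2 * Q) * Y₁) → tau n ≤ D := by
    intro n hn hn'
    rcases le_max_iff.1 hn' with h | h
    · exact hDn n hn h
    · refine hDe n hn ?_
      have h1 : (n : ℝ) ≤ (2 * Q) * (Y₁ : ℝ) := by exact_mod_cast h
      have hTc : T ^ (1 - c) ≤ T := by
        have h2 : T ^ (1 - c) ≤ T ^ (1 : ℝ) :=
          Real.rpow_le_rpow_of_exponent_le hT1 (by linarith)
        rwa [Real.rpow_one] at h2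
      have hQT : (Q : ℝ) ≤ 4 * E * T := by
        calc (Q : ℝ) ≤ P := hQPR
          _ ≤ 4 * E * T ^ (1 - c) := hPT
          _ ≤ 4 * E * T := by gcongr
      calc (n : ℝ) ≤ (2 * Q) * (Y₁ : ℝ) := h1
        _ ≤ (2 * (4 * E * T)) * (T * (4 * E ^ 3)) := by gcongr
        _ = (32 * E ^ 4) * T ^ 2 := by ring
        _ ≤ T * T ^ 2 := by gcongr
        _ = T ^ (3 : ℕ) := by ring
        _ ≤ T ^ (5 : ℕ) := pow_le_pow_right₀ hT1 (by norm_num)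
        _ = T ^ (5 : ℝ) := by norm_cast
  have hL0 : 0 ≤ 3 * Real.log T := by linarith
  have hV0 : 0 ≤ V := by linarith
  have hsmall := S3_small' (a := bx P f) (g := bx Q g) (b := b) (X₁ := 2 * P) (X₂ := 2 * Q)
    (Y := Y₁) (K := 2 ^ i) (R := R) (G₁ := 3 * Real.log T) (G₂ := 3 * Real.log T)
    (D := D) (M := 2 * M * E ^ 2 / δ * V) Nat.one_le_two_pow hR1
    (numII_bx hL0 hf) (numII_bx hL0 hg) (by positivity)
    (fun q ψ e hq _ hψ he _ => hbc q ψ e hq hψ he) hDn hD1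
  have hlarge := Gg.S3_large (a := bx P f) (g := bx Q g) (b := b) (X₁ := 2 * P) (X₂ := 2 * Q)
    (Y := Y₁) (K := 2 ^ i) (R := R) (G₁ := 3 * Real.log T) (G₂ := 3 * Real.log T)
    (D := D) Nat.one_le_two_pow hR1 (numII_bx hL0 hf) (numII_bx hL0 hg) hb hDm hD1
  have hs := numII_small (E := E) (c := c) (α := α) (T := T) (L := Real.log T) (D := D)
    (K := K) (P := P) (Q := Q) (R := R) (V := V) (M := M) (δ := δ) (I := ((2 ^ i : ℕ) : ℝ))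
    (lR := 1 + Real.log (R : ℝ)) hE
    (by linarith) hc (by linarith) hD1 hDT (by linarith) hKT' (by linarith) (by linarith) hPQ
    (by linarith) hRle hV (by linarith) (by linarith) (by linarith) hiR' hlR hlR0
  have hE4 : E ≤ 4 * E ^ 3 := by linarith
  have hl := Gg.num2_large (E := 4 * E ^ 3) (c := c / 2) (α := α) (T := T) (L := Real.log T)
    (D := D) (K := ((2 ^ i : ℕ) : ℝ)) (P := P) (Q := Q) (R := R) (Y := (Y₁ : ℝ))
    (lK := 1 + Real.log (2 * ((2 ^ i : ℕ) : ℝ))) (by linarith)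
    (by linarith) (by linarith) (by linarith) hD1 hDT2 h2i hKc hα.1 hPR hQR hQPR
    (hPQ'.trans (mul_le_mul_of_nonneg_left hE4 (by positivity)))
    (hPQ.trans (mul_le_mul_of_nonneg_left hE4 (by positivity)))
    (hPT.trans (by
      have h5 : T ^ (1 - c) ≤ T ^ (1 - c / 2) :=
        Real.rpow_le_rpow_of_exponent_le hT1 (by linarith)
      gcongr)) hY0 hY hR1R
    hRge hlK hlK0
  have h1 := Gg.S3_split (bx P f) (bx Q g) b (2 * P) (2 * Q) Y₁ (2 ^ i) R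
  have c1 : ((2 * P : ℕ) : ℝ) = 2 * (P : ℝ) := by push_cast; ring
  have c2 : ((2 * Q : ℕ) : ℝ) = 2 * (Q : ℝ) := by push_cast; ring
  rw [c1, c2] at hsmall hlarge
  have hTp : 0 < T ^ (1 - c / 32) := by positivity
  have hl' := hlarge.trans hl
  rw [show (1 : ℝ) - c / 2 / 16 = 1 - c / 32 by ring] at hl'
  calc S3 (Finset.Ioc 1 (2 * 2 ^ i)) (bx P f) (bx Q g) b (2 * P) (2 * Q) Y₁ (2 ^ i)
      ≤ 1152 * E ^ 3 * T ^ (1 - c / 32) * V + 2880 * (4 * E ^ 3) ^ 3 * T ^ (1 - c / 32) :=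
        h1.trans (add_le_add (hsmall.trans hs) hl')
    _ ≤ 1152 * E ^ 3 * T ^ (1 - c / 32) * V +
        2880 * (4 * E ^ 3) ^ 3 * T ^ (1 - c / 32) * V := by
        have h3 : 2880 * (4 * E ^ 3) ^ 3 * T ^ (1 - c / 32) ≤
            2880 * (4 * E ^ 3) ^ 3 * T ^ (1 - c / 32) * V :=
          le_mul_of_one_le_right (by positivity) hV
        linarith
    _ = (1152 * E ^ 3 + 184320 * E ^ 9) * T ^ (1 - c / 32) * V := by ring

/-- PROOF. As `Gg.typeII_num` (`GgNum2.lean`; copy its private lemmas), with `K` there `= 2^i`, `c`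
there `= c/2`, `D = T^{c/1000}` (`eps_k`), `R = ⌊T^{c/8}⌋`; by `Gg.S3_swap` assume `Q ≤ P`.
`Gg.S3_split`. Put `E = e^X`, `E' = 4 E³`. From `MK ≤ 2·2^i δ` and `2^i δ < 4MK`, `MK ≤ T^{1/2-c}`:
`2^i ≤ 4 T^{1/2-c} ≤ T^{1/2-c/2}` and `Y₁ ≤ 2 M E³ K T^{1-α}/δ ≤ 4 E³ 2^i T^{1-α}`.
LARGE: `Gg.S3_large` and the inequality `num2_large` with `E := E'`, `K := 2^i`, `c := c/2`
(`P ≤ 4 E T^{1-c} ≤ 4 E' T^{1-c/2}`): `≤ 2880 E'³ T^{1-c/32}` (the numbers `n ≤ (2Q) Y₁ ≤ T⁵` have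
`tau n ≤ D`; `D⁵ L³ ≤ T^{c/64}`).
SMALL: `S3_small'` with `G₁ = G₂ = 3L`, `X₁ = 2P`, `X₂ = 2Q`, `M := (2 M E²/δ) V`:
`2 (6LP)(6LQ) (2 M E² V/δ) (2L) D⁴ R²/2^i`, where `(M/δ)/2^i ≤ 2/K` and `1/K ≤ 2 T^{1-α-c}`,
`PQ ≤ T^α E`, `R² ≤ T^{c/4}`: `≤ C E³ L³ D⁴ V T^{1-c+c/4}`. -/
theorem numII (X c A₀ : ℝ) (hX : 0 ≤ X) (hc : 0 < c) (hA : 0 ≤ A₀) : ∃ C : ℝ, 0 ≤ C ∧
    ∀ᶠ T : ℝ in atTop,
    ∀ α ∈ Icc (1 : ℝ) (3 / 2 - A₀ - 4 * c), ∀ M K P Q δ i Y₁ : ℕ, 1 ≤ M → 1 ≤ K → 1 ≤ P →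
      1 ≤ Q → 1 ≤ δ → (M : ℝ) ≤ T ^ A₀ → T ^ (α - 1 + c) ≤ 2 * K →
      (K : ℝ) ≤ T ^ (1 / 2 - A₀ - c) →
      T ^ α ≤ 4 * P * Q * Real.exp X → (P : ℝ) * Q ≤ T ^ α * Real.exp X →
      (P : ℝ) ≤ 4 * Real.exp X * T ^ (1 - c) → (Q : ℝ) ≤ 4 * Real.exp X * T ^ (1 - c) →
      M * K ≤ 2 * 2 ^ i * δ → 2 ^ i * δ < 4 * M * K →
      (Y₁ : ℝ) ≤ 2 * M * Real.exp (2 * X) / δ * (K * T ^ (1 - α) * Real.exp X) →
      ∀ (f g b : ℕ → ℂ) (V : ℝ), 1 ≤ V →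
        (∀ m, P ≤ m → m < 2 * P → ‖f m‖ ≤ 3 * Real.log T) →
        (∀ k, Q ≤ k → k < 2 * Q → ‖g k‖ ≤ 3 * Real.log T) → (∀ l, ‖b l‖ ≤ 1) →
        (∀ (q : ℕ) (ψ : DirichletCharacter ℂ q) (e : ℕ), 1 < q → ψ.IsPrimitive → 1 ≤ e →
          ‖csum b Y₁ ψ e‖ ≤ (2 * M * Real.exp (2 * X) / δ * V) *
            (tau e * (Real.sqrt q * (1 + Real.log q)))) →
        S3 (Finset.Ioc 1 (2 * 2 ^ i)) (bx P f) (bx Q g) b (2 * P) (2 * Q) Y₁ (2 ^ i) ≤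
          C * T ^ (1 - c / 32) * V := by
  refine ⟨1152 * Real.exp X ^ 3 + 184320 * Real.exp X ^ 9, by positivity, ?_⟩
  filter_upwards [numII_core X c A₀ hX hc hA] with T hT
  intro α hα M K P Q δ i Y₁ hM hK hP hQ hδ hMT hKT' hKT hPQ' hPQ hPT hQT hi' hi hY₁ f g b V hV
    hf hg hb hbc
  rcases le_total Q P with h | h
  · exact hT α hα M K P Q δ i Y₁ hM hK hP hQ hδ h hMT hKT' hKT hPQ' hPQ hPT hi' hi hY₁ f g b V hV
      hf hg hb hbc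
  · rw [Gg.S3_swap]
    refine hT α hα M K Q P δ i Y₁ hM hK hQ hP hδ h hMT hKT' hKT ?_ ?_ hQT hi' hi hY₁ g f b V hV
      hg hf hb hbc
    · calc T ^ α ≤ 4 * P * Q * Real.exp X := hPQ'
        _ = 4 * Q * P * Real.exp X := by ring
    · rw [mul_comm]
      exact hPQ

end Pool.Agent.MP_67227b_nt.Gk
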