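import Mathlib
import Pool.Agent.MP_67227b_nt.Gk.GkED

set_option autoImplicit false

open Filter Topology Set MeasureTheory Complex
open scoped Real ContDiff ArithmeticFunction ArithmeticFunction.Moebius
open scoped Classical

namespace Pool.Agent.MP_67227b_nt.Gk

open Pool.Agent.MP_67227b_nt.Gg (Eta Rho wt ex PP tv bx pw D3 T3 P3 S3 YY cv cs Jd uV a1 g1 a2 g2
  a3 g3)
open Pool.Agent.BV (tau csum)
open Pool.Agent.LS (prim)

/-- If the weight is not `0` then `T^α e^{-X} ≤ n ≤ T^α e^X`, `m ≤ m' e^{2X}`,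
`T^α e^{-X} ≤ nm/m'` and `2π(nm/m')B ≤ AT`. PROOF. `Eta.supp` (twice), `Rho.right`, as
`Gg.wg_supp` in `GgNonC.lean`. -/
theorem wk_supp {X κ : ℝ} {η ρ : ℝ → ℝ} (hκ : 0 < κ) (hη : Eta X η) (hρ : Rho κ ρ) {α T : ℝ}
    (hT : 1 < T) {n m m' A B : ℕ} (hn : 1 ≤ n) (hm : 1 ≤ m) (hm' : 1 ≤ m') (hA : 1 ≤ A)
    (h : wk η ρ α T n m m' A B ≠ 0) :
    T ^ α * Real.exp (-X) ≤ n ∧ (n : ℝ) ≤ T ^ α * Real.exp X ∧ (m : ℝ) ≤ m' * Real.exp (2 * X) ∧
      T ^ α * Real.exp (-X) ≤ n * m / m' ∧ 2 * π * (n * m / m') * B ≤ A * T := by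
  have hn' : (0 : ℝ) < n := by exact_mod_cast hn
  have hm0 : (0 : ℝ) < m := by exact_mod_cast hm
  have hm1 : (0 : ℝ) < m' := by exact_mod_cast hm'
  have hA' : (0 : ℝ) < A := by exact_mod_cast hA
  have hT' : 0 < T := by linarith
  have hx : (0 : ℝ) < (n : ℝ) * m / m' := by positivity
  unfold wk at h
  obtain ⟨h1, h2⟩ := mul_ne_zero_iff.1 h
  obtain ⟨h0, h1⟩ := mul_ne_zero_iff.1 h1
  have h3 : |Real.log n - α * Real.log T| ≤ X := by
    by_contra hcon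
    exact h0 (hη.supp _ (not_le.1 hcon))
  have h3' : |Real.log ((n : ℝ) * m / m') - α * Real.log T| ≤ X := by
    by_contra hcon
    exact h1 (hη.supp _ (not_le.1 hcon))
  have h4 : 2 * π * ((n : ℝ) * m / m') * B / (A * T) < 1 - κ := by
    by_contra hcon
    exact h2 (hρ.right _ (not_lt.1 hcon))
  have hTα : T ^ α = Real.exp (α * Real.log T) := by
    rw [Real.rpow_def_of_pos hT', mul_comm]
  rw [abs_le] at h3 h3'
  refine ⟨?_, ?_, ?_, ?_, ?_⟩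
  · rw [hTα, ← Real.exp_add, ← Real.exp_log hn']
    exact Real.exp_le_exp.2 (by linarith)
  · rw [hTα, ← Real.exp_add, ← Real.exp_log hn']
    exact Real.exp_le_exp.2 (by linarith)
  · have h5 : Real.log ((n : ℝ) * m / m') = Real.log n + Real.log m - Real.log m' := by
      rw [Real.log_div (by positivity) hm1.ne', Real.log_mul hn'.ne' hm0.ne']
    rw [← Real.exp_log hm0, ← Real.exp_log hm1, ← Real.exp_add]
    refine Real.exp_le_exp.2 ?_
    linarith [h3.1, h3.2, h3'.1, h3'.2]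
  · rw [hTα, ← Real.exp_add, ← Real.exp_log hx]
    exact Real.exp_le_exp.2 (by linarith)
  · rw [div_lt_iff₀ (by positivity)] at h4
    have h5 : (1 - κ) * (A * T) ≤ 1 * (A * T) :=
      mul_le_mul_of_nonneg_right (by linarith) (by positivity)
    linarith

/-- PROOF. `|η| ≤ 1`, `0 ≤ ρ ≤ 1`. -/
theorem wk_le {X κ : ℝ} {η ρ : ℝ → ℝ} (hη : Eta X η) (hρ : Rho κ ρ) (α T : ℝ)
    (n m m' A B : ℕ) : |wk η ρ α T n m m' A B| ≤ 1 := by
  have key : ∀ v : ℝ, |η v| ≤ 1 := by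
    intro v
    have h1 := hη.sq_le v
    have h2 : Real.exp (-(2 * |v|)) ≤ 1 := by
      rw [Real.exp_le_one_iff]
      have := abs_nonneg v
      linarith
    rw [← sq_le_one_iff_abs_le_one]
    linarith
  unfold wk wt
  rw [abs_mul, abs_mul]
  have h3 := hρ.nonneg (2 * π * ((n : ℝ) * m / m') * B / (A * T))
  have h4 := hρ.le_one (2 * π * ((n : ℝ) * m / m') * B / (A * T))
  rw [abs_of_nonneg h3]
  exact mul_le_one₀ (mul_le_one₀ (key _) (abs_nonneg _) (key _)) h3 h4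

/-- A box sum vanishes unless the box meets the support of the weight. PROOF. As `Gg.BX_zero`
(`GgZb.lean`), with `wk_supp`; `M ≤ m' ≤ T^{A₀}` for `m' ∈ Mk A₀ T`. -/
theorem BXk_zero {X κ : ℝ} {η ρ : ℝ → ℝ} (hκ : 0 < κ) (hη : Eta X η) (hρ : Rho κ ρ)
    {A₀ c α T : ℝ} (hT : 1 < T) (a b f g : ℕ → ℂ) {M K P Q : ℕ} (hP : 1 ≤ P) (hQ : 1 ≤ Q)
    (h : ¬ ((M : ℝ) ≤ T ^ A₀ ∧ T ^ (α - 1 + c) ≤ 2 * K ∧ (K : ℝ) ≤ T ^ (1 / 2 - A₀ - c) ∧
      T ^ α ≤ 4 * P * Q * Real.exp X ∧ (P : ℝ) * Q ≤ T ^ α * Real.exp X)) :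
    BXk η ρ X A₀ c α T a b f g M K P Q = 0 := by
  unfold BXk
  have hT0 : 0 < T := by linarith
  refine Finset.sum_eq_zero fun m' hm' => Finset.sum_eq_zero fun A hA => ?_
  rw [Finset.mem_filter, Mk, Finset.mem_Icc] at hm'
  obtain ⟨⟨hm1, hm2⟩, hm3, hm4⟩ := hm'
  rw [Finset.mem_filter, Ak, Finset.mem_Ioc] at hA
  obtain ⟨⟨hA1, hA2⟩, hA3, hA4⟩ := hA
  have b0 : (m' : ℝ) ≤ T ^ A₀ := (Nat.le_floor_iff (by positivity)).1 hm2
  have b0' : (M : ℝ) ≤ m' := by exact_mod_cast hm3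
  have b1 : T ^ (α - 1 + c) < A := (Nat.floor_lt (by positivity)).1 hA1
  have b2 : (A : ℝ) ≤ T ^ (1 / 2 - A₀ - c) := (Nat.le_floor_iff (by positivity)).1 hA2
  have b3 : (A : ℝ) < 2 * K := by exact_mod_cast hA4
  have b4 : (K : ℝ) ≤ A := by exact_mod_cast hA3
  have hA0 : 1 ≤ A := by omega
  refine mul_eq_zero_of_right _ (Finset.sum_eq_zero fun m hm => Finset.sum_eq_zero fun B _ =>
    Finset.sum_eq_zero fun k hk => Finset.sum_eq_zero fun l hl => ?_)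
  rw [Finset.mem_Icc] at hm
  rw [Finset.mem_Ico] at hk hl
  split_ifs
  · have hw : wk η ρ α T (k * l) m m' A B = 0 := by
      by_contra hne
      have hkl : 1 ≤ k * l := Nat.one_le_iff_ne_zero.2 (Nat.mul_ne_zero (by omega) (by omega))
      obtain ⟨w1, w2, _⟩ := wk_supp hκ hη hρ hT hkl hm.1 hm1 hA0 hne
      apply h
      have c1 : ((k * l : ℕ) : ℝ) ≤ 4 * P * Q := by
        have : k * l ≤ (2 * P) * (2 * Q) := Nat.mul_le_mul hk.2.le hl.2.le
        calc ((k * l : ℕ) : ℝ) ≤ ((2 * P * (2 * Q) : ℕ) : ℝ) := by exact_mod_cast this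
          _ = 4 * P * Q := by push_cast; ring
      have c2 : (P : ℝ) * Q ≤ ((k * l : ℕ) : ℝ) := by
        have : P * Q ≤ k * l := Nat.mul_le_mul hk.1 hl.1
        exact_mod_cast this
      refine ⟨by linarith, by linarith, by linarith, ?_, by linarith⟩
      have c3 : T ^ α * Real.exp (-X) ≤ 4 * P * Q := w1.trans c1
      rw [Real.exp_neg, ← div_eq_mul_inv, div_le_iff₀ (Real.exp_pos X)] at c3
      exact c3
    rw [hw]
    simp
  · rfl

end Pool.Agent.MP_67227b_nt.Gk
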