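import Mathlib
import Pool.Agent.MP_67227b_nt.Gk.GkBox
import Pool.Agent.MP_67227b_nt.Gk.GkCb
import Pool.Agent.MP_67227b_nt.Gk.GkNumI
import Pool.Agent.MP_67227b_nt.Gk.GkNumII
import Pool.Agent.MP_67227b_nt.Gk.GkZero

set_option autoImplicit false

open Filter Topology Set MeasureTheory Complex
open scoped Real ContDiff ArithmeticFunction ArithmeticFunction.Moebius
open scoped Classical

namespace Pool.Agent.MP_67227b_nt.Gk

open Pool.Agent.MP_67227b_nt.Gg (Eta Rho wt ex PP tv bx pw D3 T3 P3 S3 YY cv cs Jd uV a1 g1 a2 g2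
  a3 g3)
open Pool.Agent.BV (tau csum)
open Pool.Agent.LS (prim)

private theorem ty_pre (X c A₀ : ℝ) (hc : 0 < c) : ∀ᶠ T : ℝ in atTop,
    1 < T ∧ 1 ≤ Real.log T ∧ 1 ≤ T ^ (c / 1000) ∧
      Real.log T ^ 3 * (T ^ (c / 1000)) ^ 3 ≤ T ^ (c / 64) ∧
      ∀ α ∈ Icc (1 : ℝ) (3 / 2 - A₀ - 4 * c), ∀ M K : ℕ, 1 ≤ M → 1 ≤ K → (M : ℝ) ≤ T ^ A₀ →
        (K : ℝ) ≤ T ^ (1 / 2 - A₀ - c) →
        4 * M * K < 2 ^ (Nat.log 2 (4 * M * K) + 1) ∧
        ((Nat.log 2 (4 * M * K) + 1 : ℕ) : ℝ) ≤ 4 * Real.log T ∧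
        0 ≤ 1 + Real.log (4 * M * K) ∧ 1 + Real.log (4 * M * K) ≤ 3 * Real.log T ∧
        (∀ n : ℕ, 1 ≤ n → n ≤ 4 * M * K → tau n ≤ T ^ (c / 1000)) ∧
        (∀ δ : ℕ, ((NN X M / δ * YY X α T K : ℕ) : ℝ) ≤
          2 * M * Real.exp (2 * X) / δ * (K * T ^ (1 - α) * Real.exp X)) ∧
        (∀ δ n : ℕ, 1 ≤ n → n ≤ NN X M / δ * YY X α T K → tau n ≤ T ^ (c / 1000)) ∧
        1 + Real.log ((YY X α T K : ℕ) + 1) ≤ 3 * Real.log T := by
  filter_upwards [eps_k (show 0 < c / 1000 by linarith), eventually_ge_atTop (4 : ℝ),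
    eventually_ge_atTop (2 * Real.exp (2 * X) * Real.exp X),
    eventually_ge_atTop (Real.exp X + 1)] with T hTD hT4 hTX hTX2
  obtain ⟨hD, hLD, hlog⟩ := hTD
  have hT0 : 0 < T := by linarith
  have hT1 : 1 ≤ T := by linarith
  set D : ℝ := T ^ (c / 1000) with hDdef
  have hD1 : 1 ≤ D := Real.one_le_rpow hT1 (by linarith)
  refine ⟨by linarith, by linarith, hD1, ?_, ?_⟩
  · have h2 : Real.log T ^ 3 ≤ Real.log T ^ 6 := pow_le_pow_right₀ (by linarith) (by norm_num)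
    calc Real.log T ^ 3 * D ^ 3 ≤ D * D ^ 3 :=
          mul_le_mul_of_nonneg_right (h2.trans hLD) (by positivity)
      _ = D ^ (4 : ℕ) := by ring
      _ = T ^ (c / 1000 * 4) := by
          rw [hDdef, ← Real.rpow_natCast, ← Real.rpow_mul hT0.le]
          norm_num
      _ ≤ T ^ (c / 64) := Real.rpow_le_rpow_of_exponent_le hT1 (by linarith)
  intro α hα M K hM hK hMT hKT
  have hMR : (1 : ℝ) ≤ M := by exact_mod_cast hM
  have hKR : (1 : ℝ) ≤ K := by exact_mod_cast hK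
  have hMK1 : (1 : ℝ) ≤ (M : ℝ) * K := by nlinarith
  have hMK : (M : ℝ) * K ≤ T ^ (1 / 2 - c) := by
    calc (M : ℝ) * K ≤ T ^ A₀ * T ^ (1 / 2 - A₀ - c) :=
          mul_le_mul hMT hKT (by positivity) (by positivity)
      _ = T ^ (1 / 2 - c) := by
          rw [← Real.rpow_add hT0]
          congr 1
          ring
  have hMKT : (M : ℝ) * K ≤ T := by
    have h1 : T ^ (1 / 2 - c) ≤ T ^ (1 : ℝ) :=
      Real.rpow_le_rpow_of_exponent_le hT1 (by linarith)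
    rw [Real.rpow_one] at h1
    linarith
  have hKT1 : (K : ℝ) ≤ T := by nlinarith
  have h4 : 4 * (M : ℝ) * K ≤ T ^ 2 := by nlinarith
  have hT25 : T ^ 2 ≤ T ^ (5 : ℝ) := by
    have h1 : T ^ (2 : ℕ) ≤ T ^ (5 : ℕ) := pow_le_pow_right₀ hT1 (by norm_num)
    have h2 : T ^ (5 : ℕ) = T ^ (5 : ℝ) := by norm_cast
    rw [← h2]
    exact h1
  have hl4 : Real.log (4 * M * K) ≤ 2 * Real.log T := by
    have h1 : Real.log (4 * (M : ℝ) * K) ≤ Real.log (T ^ 2) :=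
      Real.log_le_log (by positivity) h4
    rw [Real.log_pow] at h1
    push_cast at h1
    exact h1
  have hl0 : 0 ≤ Real.log (4 * (M : ℝ) * K) := Real.log_nonneg (by nlinarith)
  have hTα : T ^ (1 - α) ≤ 1 := by
    have h2 : T ^ (1 - α) ≤ T ^ (0 : ℝ) :=
      Real.rpow_le_rpow_of_exponent_le hT1 (by linarith [hα.1])
    rwa [Real.rpow_zero] at h2
  have hTα0 : 0 < T ^ (1 - α) := by positivity
  have hYY : ((YY X α T K : ℕ) : ℝ) ≤ K * T ^ (1 - α) * Real.exp X :=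
    Nat.floor_le (by positivity)
  have hY1 : ∀ δ : ℕ, ((NN X M / δ * YY X α T K : ℕ) : ℝ) ≤
      2 * M * Real.exp (2 * X) / δ * (K * T ^ (1 - α) * Real.exp X) := by
    intro δ
    rw [Nat.cast_mul]
    refine mul_le_mul ?_ hYY (by positivity) (by positivity)
    refine (Nat.cast_div_le).trans ?_
    refine div_le_div_of_nonneg_right ?_ (by positivity)
    exact Nat.floor_le (by positivity)
  refine ⟨Nat.lt_pow_succ_log_self (by norm_num) _, ?_, by linarith, by linarith, ?_, hY1, ?_, ?_⟩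
  · have h1 : 2 ^ Nat.log 2 (4 * M * K) ≤ 4 * M * K := by
      refine Nat.pow_log_le_self 2 ?_
      positivity
    have h2 : (2 : ℝ) ^ Nat.log 2 (4 * M * K) ≤ 4 * M * K := by exact_mod_cast h1
    have h3 : (Nat.log 2 (4 * M * K) : ℝ) * Real.log 2 ≤ 2 * Real.log T := by
      rw [← Real.log_pow]
      exact (Real.log_le_log (by positivity) h2).trans hl4
    have h5 := Real.log_two_gt_d9
    have h6 : (0 : ℝ) ≤ (Nat.log 2 (4 * M * K) : ℝ) := by positivity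
    push_cast
    nlinarith
  · intro n hn hn'
    refine hD n hn ?_
    have h1 : (n : ℝ) ≤ 4 * (M : ℝ) * K := by exact_mod_cast hn'
    linarith
  · intro δ n hn hn'
    refine hD n hn ?_
    have h1 : (n : ℝ) ≤ ((NN X M / δ * YY X α T K : ℕ) : ℝ) := by exact_mod_cast hn'
    have h2 := hY1 δ
    have h3 : 2 * (M : ℝ) * Real.exp (2 * X) / δ * (K * T ^ (1 - α) * Real.exp X) ≤
        (2 * (M : ℝ) * Real.exp (2 * X)) * (K * 1 * Real.exp X) := by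
      rcases Nat.eq_zero_or_pos δ with hδ | hδ
      · subst hδ
        rw [Nat.cast_zero, div_zero, zero_mul]
        positivity
      · have hδR : (1 : ℝ) ≤ δ := by exact_mod_cast hδ
        have h4 : 2 * (M : ℝ) * Real.exp (2 * X) / δ ≤ 2 * (M : ℝ) * Real.exp (2 * X) :=
          div_le_self (by positivity) hδR
        gcongr
    have h5 : (2 * (M : ℝ) * Real.exp (2 * X)) * (K * 1 * Real.exp X) =
        (2 * Real.exp (2 * X) * Real.exp X) * ((M : ℝ) * K) := by ring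
    have h6 : (2 * Real.exp (2 * X) * Real.exp X) * ((M : ℝ) * K) ≤ T * T :=
      mul_le_mul hTX hMKT (by positivity) hT0.le
    have h7 : T * T = T ^ 2 := by ring
    linarith
  · have h1 : ((YY X α T K : ℕ) : ℝ) + 1 ≤ T ^ 2 := by
      have h2 : (K : ℝ) * T ^ (1 - α) * Real.exp X ≤ T * 1 * Real.exp X := by
        have := Real.exp_pos X
        gcongr
      nlinarith [Real.exp_pos X]
    have h3 : Real.log ((YY X α T K : ℕ) + 1) ≤ Real.log (T ^ 2) :=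
      Real.log_le_log (by positivity) h1
    rw [Real.log_pow] at h3
    push_cast at h3
    linarith

private theorem ty_fin {C₀ C₁ L D J l T c β z : ℝ} (hC₀ : 0 ≤ C₀) (hC₁ : 0 ≤ C₁) (hT : 1 < T)
    (hL : 1 ≤ L) (hD : 1 ≤ D) (hLD : L ^ 3 * D ^ 3 ≤ T ^ (c / 64)) (_hJ0 : 0 ≤ J)
    (hJ : J ≤ 4 * L) (hl0 : 0 ≤ l) (hl : l ≤ 3 * L) (hz : 0 ≤ z) (hβ : c / 64 + β ≤ 1 - c / 64) :
    C₀ * (D ^ 3 * J * l * (C₁ * T ^ β * (z * L))) ≤ (12 * z * C₀ * C₁) * T ^ (1 - c / 64) := by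
  have hT0 : 0 < T := by linarith
  calc C₀ * (D ^ 3 * J * l * (C₁ * T ^ β * (z * L)))
      ≤ C₀ * (D ^ 3 * (4 * L) * (3 * L) * (C₁ * T ^ β * (z * L))) := by gcongr
    _ = (12 * z * C₀ * C₁) * ((L ^ 3 * D ^ 3) * T ^ β) := by ring
    _ ≤ (12 * z * C₀ * C₁) * (T ^ (c / 64) * T ^ β) := by gcongr
    _ = (12 * z * C₀ * C₁) * T ^ (c / 64 + β) := by rw [← Real.rpow_add hT0]
    _ ≤ (12 * z * C₀ * C₁) * T ^ (1 - c / 64) := by
        have := Real.rpow_le_rpow_of_exponent_le hT.le hβ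
        gcongr

/-- PROOF. If one of the conditions of `BXk_zero` fails, `BXk = 0`. Otherwise `box_lek` with
`D = T^{c/1000}` (`eps_k`), `J = ⌊4 log T⌋₊`-many (take `J = Nat.log 2 (4MK) + 1 ≤ 4 log T`), and
`numI` for `f pw U`, `g pw U` (`V := 12 log T (1+|U|)`), `b := cb D h (cop δ (pw W)) ..` (`cb_norm`:
`NN/δ * YY ≤ T⁵`), `Y₁ = NN X M/δ * YY X α T K`. `D³ J (1+log(4MK)) ≤ T^{c/100}`. -/
theorem typeI_box {X κ A₀ : ℝ} {η ρ : ℝ → ℝ} (hX : 0 ≤ X) (hκ : 0 < κ) (hη : Eta X η)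
    (hρ : Rho κ ρ) (c : ℝ) (hc : 0 < c) (hA : 0 ≤ A₀) : ∃ C : ℝ, 0 ≤ C ∧ ∀ᶠ T : ℝ in atTop,
      ∀ α ∈ Icc (1 : ℝ) (3 / 2 - A₀ - 4 * c), ∀ a b : ℕ → ℂ, (∀ m, ‖a m‖ ≤ 1) →
      (∀ m, ‖b m‖ ≤ 1) → ∀ M K P Q : ℕ, 1 ≤ M → 1 ≤ K → 1 ≤ P → 1 ≤ Q →
      (P : ℝ) ≤ T ^ (α - 1 + c) → ∀ f g : ℕ → ℂ,
      (∀ m, P ≤ m → m < 2 * P → ‖f m‖ ≤ 3 * Real.log T) →
      (∀ U : ℝ, tv (bx Q fun k => g k * pw U k) (2 * Q) ≤ 3 * Real.log T * (4 * (1 + |U|))) →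
      ‖BXk η ρ X A₀ c α T a b f g M K P Q‖ ≤ C * T ^ (1 - c / 64) := by
  obtain ⟨C₀, hC₀, hbox⟩ := box_lek hκ hη hρ
  obtain ⟨C₁, hC₁, hnum⟩ := numI X c A₀ hc
  refine ⟨12 * 12 * C₀ * C₁, by positivity, ?_⟩
  filter_upwards [ty_pre X c A₀ hc, hnum] with T hpre hnum
  obtain ⟨hT, hL, hD1, hLD, hpre⟩ := hpre
  intro α hα a b ha hb M K P Q hM hK hP hQ hPT f g hf hg
  have hT0 : 0 < T := by linarith
  by_cases hcond : ((M : ℝ) ≤ T ^ A₀ ∧ T ^ (α - 1 + c) ≤ 2 * K ∧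
      (K : ℝ) ≤ T ^ (1 / 2 - A₀ - c) ∧ T ^ α ≤ 4 * P * Q * Real.exp X ∧
      (P : ℝ) * Q ≤ T ^ α * Real.exp X)
  swap
  · rw [BXk_zero hκ hη hρ hT a b f g hP hQ hcond, norm_zero]
    positivity
  obtain ⟨hMT, -, hKT, -, -⟩ := hcond
  obtain ⟨hJ, hJL, hl0, hlL, hτ, hY₁, hτY, -⟩ := hpre α hα M K hM hK hMT hKT
  refine (hbox A₀ c α T (T ^ (c / 1000)) (C₁ * T ^ (1 - c / 2) * (12 * Real.log T)) a b f g M K P
    Q (Nat.log 2 (4 * M * K) + 1) hT (by linarith) (by positivity) hM hK hP hQ hJ ha hb hτ ?_).trans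
    (ty_fin hC₀ hC₁ hT hL hD1 hLD (by positivity) hJL hl0 hlL (by norm_num) (by linarith))
  intro U W h δ i hh hδ _ _ hi
  refine (hnum α hα M K P Q δ i (NN X M / δ * YY X α T K) hM hK hP hQ hδ hMT hKT hPT hi (hY₁ δ)
    (fun m => f m * pw U m) (fun k => g k * pw U k) (cb (T ^ (c / 1000)) h (cop δ (pw W))
      (NN X M / δ) (YY X α T K)) (3 * Real.log T * (4 * (1 + |U|))) ?_ ?_ (hg U)).trans ?_
  · intro m hm hm'
    rw [norm_mul]
    calc ‖f m‖ * ‖pw U m‖ ≤ 3 * Real.log T * 1 :=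
          mul_le_mul (hf m hm hm') (Gg.norm_pw U m) (norm_nonneg _) (by positivity)
      _ = 3 * Real.log T := mul_one _
  · exact cb_norm (by linarith) hh (cop_norm (Gg.norm_pw W)) (hτY δ)
  · have hU : 0 ≤ |U| := abs_nonneg U
    have hW : 0 ≤ |W| := abs_nonneg W
    have h1 : C₁ * T ^ (1 - c / 2) * (3 * Real.log T * (4 * (1 + |U|))) =
        C₁ * T ^ (1 - c / 2) * (12 * Real.log T) * ((1 + |U|) * 1) := by ring
    rw [h1]
    refine mul_le_mul_of_nonneg_left ?_ (by positivity)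
    exact mul_le_mul_of_nonneg_left (by linarith) (by linarith)

/-- PROOF. The same with `numII`: `V := 1 + |W|(1+log(Y+1)) ≤ 3 log T (1+|W|)` (`Gg.tv_pw`), the
bound for the `csum` is `cb_pv` with `M := NN X M/δ ≤ 2 M e^{2X}/δ`. -/
theorem typeII_box {X κ A₀ : ℝ} {η ρ : ℝ → ℝ} (hX : 0 ≤ X) (hκ : 0 < κ) (hη : Eta X η)
    (hρ : Rho κ ρ) (c : ℝ) (hc : 0 < c) (hA : 0 ≤ A₀) : ∃ C : ℝ, 0 ≤ C ∧ ∀ᶠ T : ℝ in atTop,
      ∀ α ∈ Icc (1 : ℝ) (3 / 2 - A₀ - 4 * c), ∀ a b : ℕ → ℂ, (∀ m, ‖a m‖ ≤ 1) →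
      (∀ m, ‖b m‖ ≤ 1) → ∀ M K P Q : ℕ, 1 ≤ M → 1 ≤ K → 1 ≤ P → 1 ≤ Q →
      (P : ℝ) ≤ 4 * Real.exp X * T ^ (1 - c) → (Q : ℝ) ≤ 4 * Real.exp X * T ^ (1 - c) →
      ∀ f g : ℕ → ℂ, (∀ m, P ≤ m → m < 2 * P → ‖f m‖ ≤ 3 * Real.log T) →
      (∀ k, Q ≤ k → k < 2 * Q → ‖g k‖ ≤ 3 * Real.log T) →
      ‖BXk η ρ X A₀ c α T a b f g M K P Q‖ ≤ C * T ^ (1 - c / 64) := by
  obtain ⟨C₀, hC₀, hbox⟩ := box_lek hκ hη hρ
  obtain ⟨C₁, hC₁, hnum⟩ := numII X c A₀ hX hc hA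
  refine ⟨12 * 3 * C₀ * C₁, by positivity, ?_⟩
  filter_upwards [ty_pre X c A₀ hc, hnum] with T hpre hnum
  obtain ⟨hT, hL, hD1, hLD, hpre⟩ := hpre
  intro α hα a b ha hb M K P Q hM hK hP hQ hPT hQT f g hf hg
  have hT0 : 0 < T := by linarith
  by_cases hcond : ((M : ℝ) ≤ T ^ A₀ ∧ T ^ (α - 1 + c) ≤ 2 * K ∧
      (K : ℝ) ≤ T ^ (1 / 2 - A₀ - c) ∧ T ^ α ≤ 4 * P * Q * Real.exp X ∧
      (P : ℝ) * Q ≤ T ^ α * Real.exp X)
  swap
  · rw [BXk_zero hκ hη hρ hT a b f g hP hQ hcond, norm_zero]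
    positivity
  obtain ⟨hMT, hKT', hKT, hPQ', hPQ⟩ := hcond
  obtain ⟨hJ, hJL, hl0, hlL, hτ, hY₁, hτY, hlY⟩ := hpre α hα M K hM hK hMT hKT
  refine (hbox A₀ c α T (T ^ (c / 1000)) (C₁ * T ^ (1 - c / 32) * (3 * Real.log T)) a b f g M K P
    Q (Nat.log 2 (4 * M * K) + 1) hT (by linarith) (by positivity) hM hK hP hQ hJ ha hb hτ ?_).trans
    (ty_fin hC₀ hC₁ hT hL hD1 hLD (by positivity) hJL hl0 hlL (by norm_num) (by linarith))
  intro U W h δ i hh hδ hδ' hi' hi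
  have hU : 0 ≤ |U| := abs_nonneg U
  have hW : 0 ≤ |W| := abs_nonneg W
  have hpwf : ∀ (F : ℕ → ℂ) (m : ℕ), ‖F m‖ ≤ 3 * Real.log T → ‖F m * pw U m‖ ≤ 3 * Real.log T := by
    intro F m hm
    rw [norm_mul]
    calc ‖F m‖ * ‖pw U m‖ ≤ 3 * Real.log T * 1 :=
          mul_le_mul hm (Gg.norm_pw U m) (norm_nonneg _) (by positivity)
      _ = 3 * Real.log T := mul_one _
  refine (hnum α hα M K P Q δ i (NN X M / δ * YY X α T K) hM hK hP hQ hδ hMT hKT' hKT hPQ' hPQ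
    hPT hQT hi' hi (hY₁ δ)
    (fun m => f m * pw U m) (fun k => g k * pw U k) (cb (T ^ (c / 1000)) h (cop δ (pw W))
      (NN X M / δ) (YY X α T K)) (3 * Real.log T * (1 + |W|)) ?_ ?_ ?_ ?_ ?_).trans ?_
  · nlinarith
  · intro m hm hm'
    exact hpwf f m (hf m hm hm')
  · intro m hm hm'
    exact hpwf g m (hg m hm hm')
  · exact cb_norm (by linarith) hh (cop_norm (Gg.norm_pw W)) (hτY δ)
  · intro q ψ e hq hψ he
    refine (cb_pv (by linarith) hh W (NN X M / δ) (YY X α T K) hδ (hτ δ hδ hδ') hq ψ hψ he).trans ?_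
    refine mul_le_mul_of_nonneg_right ?_ ?_
    · refine mul_le_mul ?_ ?_ ?_ (by positivity)
      · refine (Nat.cast_div_le).trans ?_
        refine div_le_div_of_nonneg_right ?_ (by positivity)
        exact Nat.floor_le (by positivity)
      · refine (Gg.tv_pw W _).trans ?_
        have h1 : |W| * (1 + Real.log ((YY X α T K : ℕ) + 1)) ≤ |W| * (3 * Real.log T) :=
          mul_le_mul_of_nonneg_left hlY hW
        nlinarith
      · unfold tv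
        positivity
    · have h1 : 0 ≤ tau e := Nat.cast_nonneg _
      have h2 : 0 ≤ Real.log (q : ℝ) := Real.log_nonneg (by exact_mod_cast hq.le)
      positivity
  · have h1 : C₁ * T ^ (1 - c / 32) * (3 * Real.log T * (1 + |W|)) =
        C₁ * T ^ (1 - c / 32) * (3 * Real.log T) * (1 * (1 + |W|)) := by ring
    rw [h1]
    refine mul_le_mul_of_nonneg_left ?_ (by positivity)
    exact mul_le_mul_of_nonneg_right (by linarith) (by linarith)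

end Pool.Agent.MP_67227b_nt.Gk
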