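import Mathlib
import Pool.Agent.MP_67227b_nt.Gk.GkTy

set_option autoImplicit false

open Filter Topology Set MeasureTheory Complex
open scoped Real ContDiff ArithmeticFunction ArithmeticFunction.Moebius
open scoped Classical

namespace Pool.Agent.MP_67227b_nt.Gk

open Pool.Agent.MP_67227b_nt.Gg (Eta Rho wt ex PP tv bx pw D3 T3 P3 S3 YY cv cs Jd uV a1 g1 a2 g2
  a3 g3)
open Pool.Agent.BV (tau csum)
open Pool.Agent.LS (prim)

/-- The box sum vanishes if the first sequence vanishes on `[P, 2P)`. -/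
private theorem kn_zero {η ρ : ℝ → ℝ} {X A₀ c α T : ℝ} {a b f g : ℕ → ℂ} {M K P Q : ℕ}
    (h : ∀ m, P ≤ m → m < 2 * P → f m = 0) : BXk η ρ X A₀ c α T a b f g M K P Q = 0 := by
  unfold BXk
  refine Finset.sum_eq_zero fun m' _ => Finset.sum_eq_zero fun A _ => ?_
  rw [Finset.sum_eq_zero, mul_zero]
  intro m _
  refine Finset.sum_eq_zero fun B _ => Finset.sum_eq_zero fun k hk =>
    Finset.sum_eq_zero fun l _ => ?_
  rw [Finset.mem_Ico] at hk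
  rw [h k hk.1 hk.2]
  simp

/-- The same for the second sequence. -/
private theorem kn_zero' {η ρ : ℝ → ℝ} {X A₀ c α T : ℝ} {a b f g : ℕ → ℂ} {M K P Q : ℕ}
    (h : ∀ k, Q ≤ k → k < 2 * Q → g k = 0) : BXk η ρ X A₀ c α T a b f g M K P Q = 0 := by
  unfold BXk
  refine Finset.sum_eq_zero fun m' _ => Finset.sum_eq_zero fun A _ => ?_
  rw [Finset.sum_eq_zero, mul_zero]
  intro m _
  refine Finset.sum_eq_zero fun B _ => Finset.sum_eq_zero fun k _ =>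
    Finset.sum_eq_zero fun l hl => ?_
  rw [Finset.mem_Ico] at hl
  rw [h l hl.1 hl.2]
  simp

/-- The logarithms. -/
private theorem kn_log (X c A₀ : ℝ) (hc : 0 < c) (hA : 0 ≤ A₀) : ∀ᶠ T : ℝ in atTop,
    ∀ α ∈ Icc (1 : ℝ) (3 / 2 - A₀ - 4 * c), ∀ x : ℝ, 1 ≤ x → x ≤ T ^ α * Real.exp X →
      1 + Real.log (2 * x) ≤ 3 * Real.log T := by
  have h1 : ∀ᶠ T : ℝ in atTop, 1 + Real.log 2 + X ≤ (3 / 2) * Real.log T := by
    have h2 : Tendsto (fun T : ℝ => (3 / 2) * Real.log T) atTop atTop :=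
      Tendsto.const_mul_atTop (by norm_num) Real.tendsto_log_atTop
    exact h2.eventually_ge_atTop _
  filter_upwards [h1, eventually_ge_atTop (1 : ℝ)] with T hT hT1 α hα x hx hxT
  have hT0 : 0 < T := by linarith
  have hlog : 0 ≤ Real.log T := Real.log_nonneg hT1
  have h2 : Real.log x ≤ α * Real.log T + X := by
    have h3 := Real.log_le_log (by linarith) hxT
    rw [Real.log_mul (Real.rpow_pos_of_pos hT0 _).ne' (Real.exp_pos X).ne', Real.log_rpow hT0,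
      Real.log_exp] at h3
    exact h3
  have h3 : α * Real.log T ≤ (3 / 2) * Real.log T :=
    mul_le_mul_of_nonneg_right (by linarith [hα.2]) hlog
  rw [Real.log_mul (by norm_num) (by linarith)]
  linarith

/-- If `2x > T^{α-1+c}` and `x y ≤ T^α e^X` then `y` is small. -/
private theorem kn_small {X c α T x y : ℝ} (hT0 : 0 < T) (hy : 0 ≤ y)
    (hx : T ^ (α - 1 + c) ≤ 2 * x) (hxy : x * y ≤ T ^ α * Real.exp X) :
    y ≤ 4 * Real.exp X * T ^ (1 - c) := by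
  have h4 : T ^ (α - 1 + c) * y ≤ 2 * (T ^ α * Real.exp X) := by
    calc T ^ (α - 1 + c) * y ≤ (2 * x) * y := mul_le_mul_of_nonneg_right hx hy
      _ = 2 * (x * y) := by ring
      _ ≤ _ := by linarith
  have h5 : T ^ α = T ^ (α - 1 + c) * T ^ (1 - c) := by
    rw [← Real.rpow_add hT0]
    congr 1
    ring
  have h6 : 2 * (T ^ α * Real.exp X) = T ^ (α - 1 + c) * (2 * (T ^ (1 - c) * Real.exp X)) := by
    rw [h5]
    ring
  rw [h6] at h4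
  have h7 := le_of_mul_le_mul_left h4 (Real.rpow_pos_of_pos hT0 _)
  have h8 : 0 < T ^ (1 - c) * Real.exp X :=
    mul_pos (Real.rpow_pos_of_pos hT0 _) (Real.exp_pos X)
  linarith

/-- PROOF. As `Gg.kind1` (`GgKa.lean`): `typeI_box` (for `P > uV` the sequence `a1` vanishes on the
box, so `BXk = 0`), `Gg.tv_bx_log`. -/
theorem kind1k {X κ A₀ : ℝ} {η ρ : ℝ → ℝ} (hX : 0 ≤ X) (hκ : 0 < κ) (hη : Eta X η)
    (hρ : Rho κ ρ) (c : ℝ) (hc : 0 < c) (hA : 0 ≤ A₀) : ∃ C : ℝ, 0 ≤ C ∧ ∀ᶠ T : ℝ in atTop,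
      ∀ α ∈ Icc (1 : ℝ) (3 / 2 - A₀ - 4 * c), ∀ a b : ℕ → ℂ, (∀ m, ‖a m‖ ≤ 1) →
      (∀ m, ‖b m‖ ≤ 1) → ∀ M K P Q : ℕ, 1 ≤ M → 1 ≤ K → 1 ≤ P → 1 ≤ Q →
      ‖BXk η ρ X A₀ c α T a b (cs (a1 (uV c α T))) (cs g1) M K P Q‖ ≤
        C * T ^ (1 - c / 64) := by
  obtain ⟨C, hC, h1⟩ := typeI_box hX hκ hη hρ c hc hA
  refine ⟨C, hC, ?_⟩
  filter_upwards [h1, kn_log X c A₀ hc hA, eventually_gt_atTop (1 : ℝ),
    Real.tendsto_log_atTop.eventually_ge_atTop 1] with T hT1 hT2 hT4 hT5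
  intro α hα a b ha hb M K P Q hM hK hP hQ
  have hT0 : 0 < T := by linarith
  have hRHS : 0 ≤ C * T ^ (1 - c / 64) := by positivity
  by_cases hcond : ((M : ℝ) ≤ T ^ A₀ ∧ T ^ (α - 1 + c) ≤ 2 * K ∧
      (K : ℝ) ≤ T ^ (1 / 2 - A₀ - c) ∧ T ^ α ≤ 4 * P * Q * Real.exp X ∧
      (P : ℝ) * Q ≤ T ^ α * Real.exp X)
  swap
  · rw [BXk_zero hκ hη hρ hT4 a b _ _ hP hQ hcond, norm_zero]
    exact hRHS
  obtain ⟨-, -, -, -, hPQ⟩ := hcond
  have hP1 : (1 : ℝ) ≤ P := by exact_mod_cast hP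
  have hQ1 : (1 : ℝ) ≤ Q := by exact_mod_cast hQ
  by_cases hPu : P ≤ uV c α T
  swap
  · rw [kn_zero, norm_zero]
    · exact hRHS
    · intro m hm _
      have h3 : a1 (uV c α T) m = 0 := by
        unfold a1
        rw [if_neg (by omega)]
      show ((a1 (uV c α T) m : ℝ) : ℂ) = 0
      rw [h3, Complex.ofReal_zero]
  have hPT : (P : ℝ) ≤ T ^ (α - 1 + c) := by
    have h3 : (P : ℝ) ≤ (uV c α T : ℝ) := by exact_mod_cast hPu
    exact h3.trans (Nat.floor_le (Real.rpow_nonneg hT0.le _))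
  have hQT : (Q : ℝ) ≤ T ^ α * Real.exp X := by
    refine le_trans ?_ hPQ
    nlinarith
  have hlQ : 1 + Real.log (2 * Q) ≤ 3 * Real.log T := hT2 α hα Q hQ1 hQT
  refine hT1 α hα a b ha hb M K P Q hM hK hP hQ hPT _ _ ?_ ?_
  · intro m _ _
    have h4 : ‖cs (a1 (uV c α T)) m‖ ≤ 1 := by
      show ‖((a1 (uV c α T) m : ℝ) : ℂ)‖ ≤ 1
      rw [Complex.norm_real, Real.norm_eq_abs]
      unfold a1
      split_ifs
      · exact Pool.Agent.BGV.abs_mu_le m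
      · rw [abs_zero]; exact zero_le_one
    linarith
  · intro U
    refine (Gg.tv_bx_log U hQ).trans ?_
    have hU := abs_nonneg U
    calc (4 + |U|) * (1 + Real.log (2 * Q)) ≤ (4 + |U|) * (3 * Real.log T) :=
          mul_le_mul_of_nonneg_left hlQ (by linarith)
      _ ≤ (4 * (1 + |U|)) * (3 * Real.log T) :=
          mul_le_mul_of_nonneg_right (by linarith) (by linarith)
      _ = 3 * Real.log T * (4 * (1 + |U|)) := by ring

/-- PROOF. As `Gg.kind2` (`GgKb.lean`): `typeI_box` for `P ≤ T^{α-1+c}`, else `typeII_box`. -/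
theorem kind2k {X κ A₀ : ℝ} {η ρ : ℝ → ℝ} (hX : 0 ≤ X) (hκ : 0 < κ) (hη : Eta X η)
    (hρ : Rho κ ρ) (c : ℝ) (hc : 0 < c) (hA : 0 ≤ A₀) : ∃ C : ℝ, 0 ≤ C ∧ ∀ᶠ T : ℝ in atTop,
      ∀ α ∈ Icc (1 : ℝ) (3 / 2 - A₀ - 4 * c), ∀ a b : ℕ → ℂ, (∀ m, ‖a m‖ ≤ 1) →
      (∀ m, ‖b m‖ ≤ 1) → ∀ M K P Q : ℕ, 1 ≤ M → 1 ≤ K → 1 ≤ P → 1 ≤ Q →
      ‖BXk η ρ X A₀ c α T a b (cs (a2 (uV c α T))) (cs g2) M K P Q‖ ≤
        C * T ^ (1 - c / 64) := by
  obtain ⟨C₁, hC₁, h1⟩ := typeI_box hX hκ hη hρ c hc hA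
  obtain ⟨C₂, hC₂, h2⟩ := typeII_box hX hκ hη hρ c hc hA
  refine ⟨C₁ + C₂, by positivity, ?_⟩
  filter_upwards [h1, h2, kn_log X c A₀ hc hA, eventually_gt_atTop (1 : ℝ),
    Real.tendsto_log_atTop.eventually_ge_atTop 1] with T hT1 hT2 hT3 hT4 hT5
  intro α hα a b ha hb M K P Q hM hK hP hQ
  have hT0 : 0 < T := by linarith
  have hTp : 0 ≤ T ^ (1 - c / 64) := by positivity
  have hRHS : 0 ≤ (C₁ + C₂) * T ^ (1 - c / 64) := by positivity
  by_cases hcond : ((M : ℝ) ≤ T ^ A₀ ∧ T ^ (α - 1 + c) ≤ 2 * K ∧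
      (K : ℝ) ≤ T ^ (1 / 2 - A₀ - c) ∧ T ^ α ≤ 4 * P * Q * Real.exp X ∧
      (P : ℝ) * Q ≤ T ^ α * Real.exp X)
  swap
  · rw [BXk_zero hκ hη hρ hT4 a b _ _ hP hQ hcond, norm_zero]
    exact hRHS
  obtain ⟨-, -, -, -, hPQ⟩ := hcond
  have hP1 : (1 : ℝ) ≤ P := by exact_mod_cast hP
  have hQ1 : (1 : ℝ) ≤ Q := by exact_mod_cast hQ
  have hPT : (P : ℝ) ≤ T ^ α * Real.exp X := by
    refine le_trans ?_ hPQ
    nlinarith
  have hlP : 1 + Real.log (2 * P) ≤ 3 * Real.log T := hT3 α hα P hP1 hPT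
  have hf : ∀ m, P ≤ m → m < 2 * P → ‖cs (a2 (uV c α T)) m‖ ≤ 3 * Real.log T := by
    intro m hm hm2
    have hm0 : (0 : ℝ) < m := by
      have : 0 < m := by omega
      exact_mod_cast this
    show ‖((a2 (uV c α T) m : ℝ) : ℂ)‖ ≤ _
    rw [Complex.norm_real, Real.norm_eq_abs]
    unfold a2
    refine (Pool.Agent.BGV.abs_al2_le _ m).trans ?_
    have h5 : Real.log m ≤ Real.log (2 * P) := by
      apply Real.log_le_log hm0
      exact_mod_cast hm2.le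
    linarith
  by_cases hPu : (P : ℝ) ≤ T ^ (α - 1 + c)
  · -- type I
    refine (hT1 α hα a b ha hb M K P Q hM hK hP hQ hPu _ _ hf ?_).trans
      (mul_le_mul_of_nonneg_right (by linarith) hTp)
    intro U
    have hg : (fun k : ℕ => cs g2 k * pw U k) = pw U := by
      funext k
      show ((g2 k : ℝ) : ℂ) * pw U k = pw U k
      unfold g2
      rw [Complex.ofReal_one, one_mul]
    rw [hg]
    refine (Gg.tv_bx_one U hQ).trans ?_
    have hU := abs_nonneg U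
    nlinarith
  · push Not at hPu
    by_cases hPu2 : P ≤ uV c α T * uV c α T
    swap
    · rw [kn_zero, norm_zero]
      · exact hRHS
      · intro m hm _
        have h4 : a2 (uV c α T) m = 0 := by
          unfold a2
          exact Pool.Agent.BGV.al2_zero _ m (by omega)
        show ((a2 (uV c α T) m : ℝ) : ℂ) = 0
        rw [h4, Complex.ofReal_zero]
    -- type II
    have hx0 : 0 < T ^ (1 - c) := Real.rpow_pos_of_pos hT0 _
    have hexp : (1 : ℝ) ≤ Real.exp X := Real.one_le_exp hX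
    have hPle : (P : ℝ) ≤ T ^ (1 - c) := by
      have h4 : (P : ℝ) ≤ (uV c α T : ℝ) * (uV c α T : ℝ) := by exact_mod_cast hPu2
      have h5 : (uV c α T : ℝ) ≤ T ^ (α - 1 + c) := Nat.floor_le (Real.rpow_nonneg hT0.le _)
      have h6 : (uV c α T : ℝ) * (uV c α T : ℝ) ≤ T ^ (α - 1 + c) * T ^ (α - 1 + c) :=
        mul_le_mul h5 h5 (Nat.cast_nonneg _) (Real.rpow_nonneg hT0.le _)
      rw [← Real.rpow_add hT0] at h6
      refine h4.trans (h6.trans (Real.rpow_le_rpow_of_exponent_le hT4.le ?_))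
      linarith [hα.2]
    have hP3 : (P : ℝ) ≤ 4 * Real.exp X * T ^ (1 - c) := by nlinarith
    have hQ3 : (Q : ℝ) ≤ 4 * Real.exp X * T ^ (1 - c) :=
      kn_small hT0 (by linarith) (by linarith : T ^ (α - 1 + c) ≤ 2 * (P : ℝ)) hPQ
    refine (hT2 α hα a b ha hb M K P Q hM hK hP hQ hP3 hQ3 _ _ hf ?_).trans
      (mul_le_mul_of_nonneg_right (by linarith) hTp)
    intro k _ _
    show ‖((g2 k : ℝ) : ℂ)‖ ≤ _
    unfold g2
    rw [Complex.ofReal_one, norm_one]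
    linarith

/-- PROOF. As `Gg.kind3` (`GgKc.lean`): `typeII_box`. -/
theorem kind3k {X κ A₀ : ℝ} {η ρ : ℝ → ℝ} (hX : 0 ≤ X) (hκ : 0 < κ) (hη : Eta X η)
    (hρ : Rho κ ρ) (c : ℝ) (hc : 0 < c) (hA : 0 ≤ A₀) : ∃ C : ℝ, 0 ≤ C ∧ ∀ᶠ T : ℝ in atTop,
      ∀ α ∈ Icc (1 : ℝ) (3 / 2 - A₀ - 4 * c), ∀ a b : ℕ → ℂ, (∀ m, ‖a m‖ ≤ 1) →
      (∀ m, ‖b m‖ ≤ 1) → ∀ M K P Q : ℕ, 1 ≤ M → 1 ≤ K → 1 ≤ P → 1 ≤ Q →
      ‖BXk η ρ X A₀ c α T a b (cs (a3 (uV c α T))) (cs (g3 (uV c α T))) M K P Q‖ ≤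
        C * T ^ (1 - c / 64) := by
  obtain ⟨C, hC, h2⟩ := typeII_box hX hκ hη hρ c hc hA
  refine ⟨C, hC, ?_⟩
  filter_upwards [h2, kn_log X c A₀ hc hA, eventually_gt_atTop (1 : ℝ),
    Real.tendsto_log_atTop.eventually_ge_atTop 1] with T hT2 hT3 hT4 hT5
  intro α hα a b ha hb M K P Q hM hK hP hQ
  have hT0 : 0 < T := by linarith
  have hRHS : 0 ≤ C * T ^ (1 - c / 64) := by positivity
  by_cases hcond : ((M : ℝ) ≤ T ^ A₀ ∧ T ^ (α - 1 + c) ≤ 2 * K ∧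
      (K : ℝ) ≤ T ^ (1 / 2 - A₀ - c) ∧ T ^ α ≤ 4 * P * Q * Real.exp X ∧
      (P : ℝ) * Q ≤ T ^ α * Real.exp X)
  swap
  · rw [BXk_zero hκ hη hρ hT4 a b _ _ hP hQ hcond, norm_zero]
    exact hRHS
  obtain ⟨-, -, -, -, hPQ⟩ := hcond
  have hP1 : (1 : ℝ) ≤ P := by exact_mod_cast hP
  have hQ1 : (1 : ℝ) ≤ Q := by exact_mod_cast hQ
  have hPT : (P : ℝ) ≤ T ^ α * Real.exp X := by
    refine le_trans ?_ hPQ
    nlinarith
  have hlP : 1 + Real.log (2 * P) ≤ 3 * Real.log T := hT3 α hα P hP1 hPT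
  by_cases hPu : 2 * P ≤ uV c α T + 1
  · rw [kn_zero, norm_zero]
    · exact hRHS
    · intro m _ hm
      have h4 : a3 (uV c α T) m = 0 := by
        unfold a3
        exact Pool.Agent.BGV.al4_zero _ m (by omega)
      show ((a3 (uV c α T) m : ℝ) : ℂ) = 0
      rw [h4, Complex.ofReal_zero]
  by_cases hQu : 2 * Q ≤ uV c α T + 1
  · rw [kn_zero', norm_zero]
    · exact hRHS
    · intro k _ hk
      have h4 : g3 (uV c α T) k = 0 := by
        unfold g3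
        rw [if_neg (by omega)]
      show ((g3 (uV c α T) k : ℝ) : ℂ) = 0
      rw [h4, Complex.ofReal_zero]
  push Not at hPu hQu
  have hfl : T ^ (α - 1 + c) < (uV c α T : ℝ) + 1 := Nat.lt_floor_add_one _
  have hP2 : T ^ (α - 1 + c) ≤ 2 * (P : ℝ) := by
    have h4 : (uV c α T : ℝ) + 1 ≤ 2 * (P : ℝ) := by exact_mod_cast hPu.le
    linarith
  have hQ2 : T ^ (α - 1 + c) ≤ 2 * (Q : ℝ) := by
    have h4 : (uV c α T : ℝ) + 1 ≤ 2 * (Q : ℝ) := by exact_mod_cast hQu.le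
    linarith
  have hQ3 : (Q : ℝ) ≤ 4 * Real.exp X * T ^ (1 - c) := kn_small hT0 (by linarith) hP2 hPQ
  have hP3 : (P : ℝ) ≤ 4 * Real.exp X * T ^ (1 - c) :=
    kn_small hT0 (by linarith) hQ2 (by rw [mul_comm]; exact hPQ)
  refine hT2 α hα a b ha hb M K P Q hM hK hP hQ hP3 hQ3 _ _ ?_ ?_
  · intro m hm hm2
    have hm0 : (0 : ℝ) < m := by
      have : 0 < m := by omega
      exact_mod_cast this
    show ‖((a3 (uV c α T) m : ℝ) : ℂ)‖ ≤ _
    rw [Complex.norm_real, Real.norm_eq_abs]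
    unfold a3
    refine (Pool.Agent.BGV.abs_al4_le _ m).trans ?_
    have h5 : Real.log m ≤ Real.log (2 * P) := by
      apply Real.log_le_log hm0
      exact_mod_cast hm2.le
    linarith
  · intro k _ _
    have h4 : ‖cs (g3 (uV c α T)) k‖ ≤ 1 := by
      show ‖((g3 (uV c α T) k : ℝ) : ℂ)‖ ≤ 1
      rw [Complex.norm_real, Real.norm_eq_abs]
      unfold g3
      split_ifs
      · exact Pool.Agent.BGV.abs_mu_le k
      · rw [abs_zero]; exact zero_le_one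
    linarith

end Pool.Agent.MP_67227b_nt.Gk
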