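import Mathlib
import Pool.Agent.MP_67227b_nt.Gg.GgNonC
import Pool.Agent.MP_67227b_nt.Gk.GkEps
import Pool.Agent.MP_67227b_nt.Gk.GkZero

set_option autoImplicit false

open Filter Topology Set MeasureTheory Complex
open scoped Real ContDiff ArithmeticFunction ArithmeticFunction.Moebius
open scoped Classical

namespace Pool.Agent.MP_67227b_nt.Gk

open Pool.Agent.MP_67227b_nt.Gg (Eta Rho wt ex PP tv bx pw D3 T3 P3 S3 YY cv cs Jd uV a1 g1 a2 g2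
  a3 g3)
open Pool.Agent.BV (tau csum)
open Pool.Agent.LS (prim)

private theorem nonCk_sumB {X κ : ℝ} {η ρ : ℝ → ℝ} (hκ : 0 < κ) (hη : Eta X η) (hρ : Rho κ ρ)
    {α T : ℝ} (hT : 1 < T) (hα : 1 ≤ α) {n m m' A : ℕ} (hn : 1 ≤ n) (hm : 1 ≤ m) (hm' : 1 ≤ m')
    (hA : 1 ≤ A) : ∑ B ∈ Bk T m' A, |wk η ρ α T n m m' A B| ≤ A * Real.exp X := by
  have hT' : 0 < T := by linarith
  have hA' : (0 : ℝ) < A := by exact_mod_cast hA
  have hx : (0 : ℝ) ≤ (n : ℝ) * m / m' := by positivity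
  have h1 : ∑ B ∈ Bk T m' A, |wk η ρ α T n m m' A B| =
      ∑ B ∈ (Bk T m' A).filter (fun B => wk η ρ α T n m m' A B ≠ 0),
        |wk η ρ α T n m m' A B| := by
    rw [Finset.sum_filter]
    refine Finset.sum_congr rfl fun B _ => ?_
    by_cases h : wk η ρ α T n m m' A B = 0
    · rw [if_neg (not_not.2 h), h, abs_zero]
    · rw [if_pos h]
  have h2 : (Bk T m' A).filter (fun B => wk η ρ α T n m m' A B ≠ 0) ⊆
      Finset.Icc 1 ⌊(A : ℝ) * Real.exp X⌋₊ := by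
    intro B hB
    rw [Finset.mem_filter, Bk, Finset.mem_filter, Finset.mem_Icc] at hB
    obtain ⟨⟨⟨hB1, -⟩, -⟩, hw⟩ := hB
    rw [Finset.mem_Icc]
    refine ⟨hB1, Nat.le_floor ?_⟩
    obtain ⟨-, -, -, h3, h4⟩ := wk_supp hκ hη hρ hT hn hm hm' hA hw
    have hTα : T ≤ T ^ α := by
      calc T = T ^ (1 : ℝ) := (Real.rpow_one T).symm
        _ ≤ T ^ α := Real.rpow_le_rpow_of_exponent_le hT.le hα
    have hB0 : (0 : ℝ) ≤ B := Nat.cast_nonneg B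
    have hpi : (1 : ℝ) ≤ 2 * π := by
      have := Real.pi_gt_three
      linarith
    have h5 : T * Real.exp (-X) * B ≤ A * T := by
      calc T * Real.exp (-X) * B ≤ T ^ α * Real.exp (-X) * B := by gcongr
        _ ≤ ((n : ℝ) * m / m') * B := mul_le_mul_of_nonneg_right h3 hB0
        _ = 1 * (((n : ℝ) * m / m') * B) := (one_mul _).symm
        _ ≤ 2 * π * (((n : ℝ) * m / m') * B) := mul_le_mul_of_nonneg_right hpi (by positivity)
        _ = 2 * π * ((n : ℝ) * m / m') * B := by ring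
        _ ≤ A * T := h4
    have h6 : Real.exp (-X) * B ≤ A := by
      have h7 : T * (Real.exp (-X) * B) ≤ T * A := by linarith
      exact le_of_mul_le_mul_left h7 hT'
    calc (B : ℝ) = Real.exp X * (Real.exp (-X) * B) := by
          rw [← mul_assoc, ← Real.exp_add, add_neg_cancel, Real.exp_zero, one_mul]
      _ ≤ Real.exp X * A := mul_le_mul_of_nonneg_left h6 (Real.exp_pos X).le
      _ = A * Real.exp X := mul_comm _ _
  rw [h1]
  calc ∑ B ∈ (Bk T m' A).filter (fun B => wk η ρ α T n m m' A B ≠ 0), |wk η ρ α T n m m' A B|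
      ≤ ∑ B ∈ (Bk T m' A).filter (fun B => wk η ρ α T n m m' A B ≠ 0), (1 : ℝ) :=
        Finset.sum_le_sum fun B _ => wk_le hη hρ α T n m m' A B
    _ = (((Bk T m' A).filter (fun B => wk η ρ α T n m m' A B ≠ 0)).card : ℝ) := by
        rw [Finset.sum_const, nsmul_eq_mul, mul_one]
    _ ≤ ((Finset.Icc 1 ⌊(A : ℝ) * Real.exp X⌋₊).card : ℝ) := by
        exact_mod_cast Finset.card_le_card h2
    _ = (⌊(A : ℝ) * Real.exp X⌋₊ : ℝ) := by
        rw [Nat.card_Icc, Nat.add_sub_cancel]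
    _ ≤ A * Real.exp X := Nat.floor_le (by positivity)

/-- the term of the sum -/
private noncomputable def nonCk_t (η ρ : ℝ → ℝ) (α T : ℝ) (a b : ℕ → ℂ) (m' A m B n : ℕ) : ℂ :=
  (starRingEnd ℂ) (b m') * ((1 / (m' : ℝ) : ℝ) : ℂ) * mf A * (((Λ n : ℝ) : ℂ) * a m *
    (wk η ρ α T n m m' A B : ℂ) * (ex (-((n : ℝ) * m * B / (m' * A))) - mf (Qk m m' A)))

private theorem nonCk_ex (x : ℝ) : ‖ex x‖ = 1 := by
  unfold Gg.ex
  have h1 : (2 * π * I * x : ℂ) = ((2 * π * x : ℝ) : ℂ) * I := by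
    push_cast
    ring
  rw [h1, Complex.norm_exp_ofReal_mul_I]

private theorem nonCk_mf (A : ℕ) : ‖mf A‖ ≤ 1 / (Nat.totient A : ℝ) := by
  unfold mf
  rw [Complex.norm_real, Real.norm_eq_abs, abs_div, Nat.abs_cast]
  have h1 : |(μ A : ℝ)| ≤ 1 := by
    have h2 := ArithmeticFunction.abs_moebius_le_one (n := A)
    have h3 : ((|μ A| : ℤ) : ℝ) ≤ ((1 : ℤ) : ℝ) := by exact_mod_cast h2
    rwa [Int.cast_abs, Int.cast_one] at h3
  exact div_le_div_of_nonneg_right h1 (Nat.cast_nonneg _)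

private theorem nonCk_mf1 (A : ℕ) : ‖mf A‖ ≤ 1 := by
  refine (nonCk_mf A).trans ?_
  rcases Nat.eq_zero_or_pos (Nat.totient A) with h | h
  · rw [h]
    simp
  · have h4 : (1 : ℝ) ≤ (Nat.totient A : ℝ) := by exact_mod_cast h
    exact (div_le_one₀ (by linarith)).2 h4

private theorem nonCk_XX (η ρ : ℝ → ℝ) (A₀ c α T : ℝ) (a b : ℕ → ℂ) :
    XK η ρ A₀ c α T a b - X0K η ρ A₀ c α T a b = ∑ m' ∈ Mk A₀ T, ∑ A ∈ Ak A₀ c α T,
      ∑ m ∈ Mk A₀ T, ∑ B ∈ Bk T m' A, ∑ n ∈ Finset.Icc 1 ⌊T ^ (2 : ℝ)⌋₊,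
        nonCk_t η ρ α T a b m' A m B n := by
  unfold XK X0K
  rw [← Finset.sum_sub_distrib]
  refine Finset.sum_congr rfl fun m' _ => ?_
  rw [← Finset.sum_sub_distrib, Finset.sum_comm]
  refine Finset.sum_congr rfl fun m _ => ?_
  rw [← mul_sub, ← Finset.sum_sub_distrib, Finset.mul_sum]
  refine Finset.sum_congr rfl fun A _ => ?_
  rw [← mul_sub, ← Finset.sum_sub_distrib, Finset.mul_sum, Finset.mul_sum]
  refine Finset.sum_congr rfl fun B _ => ?_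
  rw [← Finset.sum_sub_distrib, Finset.mul_sum, Finset.mul_sum]
  refine Finset.sum_congr rfl fun n _ => ?_
  unfold nonCk_t mf
  rw [Complex.ofReal_mul (Λ n)]
  ring

private theorem nonCk_diff (η ρ : ℝ → ℝ) (A₀ c α T : ℝ) (a b : ℕ → ℂ) :
    XK η ρ A₀ c α T a b - X0K η ρ A₀ c α T a b - ZZk η ρ A₀ c α T a b (fun n => Λ n) =
      ∑ m' ∈ Mk A₀ T, ∑ A ∈ Ak A₀ c α T, ∑ m ∈ Mk A₀ T,
        ∑ n ∈ Finset.Icc 1 ⌊T ^ (2 : ℝ)⌋₊ with ¬ n.Coprime (Qk m m' A), ∑ B ∈ Bk T m' A,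
          nonCk_t η ρ α T a b m' A m B n := by
  rw [nonCk_XX]
  unfold ZZk
  rw [← Finset.sum_sub_distrib]
  refine Finset.sum_congr rfl fun m' _ => ?_
  rw [← Finset.sum_sub_distrib]
  refine Finset.sum_congr rfl fun A _ => ?_
  rw [Finset.mul_sum, ← Finset.sum_sub_distrib]
  refine Finset.sum_congr rfl fun m _ => ?_
  rw [Finset.mul_sum, ← Finset.sum_sub_distrib, Finset.sum_comm' (t' := Bk T m' A)
    (s' := fun _ => (Finset.Icc 1 ⌊T ^ (2 : ℝ)⌋₊).filter fun n => ¬ n.Coprime (Qk m m' A))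
    (fun x y => by tauto)]
  refine Finset.sum_congr rfl fun B _ => ?_
  rw [Finset.mul_sum, ← Finset.sum_sub_distrib, Finset.sum_filter]
  refine Finset.sum_congr rfl fun n _ => ?_
  by_cases h : n.Coprime (Qk m m' A)
  · rw [if_pos h, if_neg (not_not.2 h)]
    unfold nonCk_t
    ring
  · rw [if_neg h, if_pos h, mul_zero, sub_zero]

private theorem nonCk_inner {X κ : ℝ} {η ρ : ℝ → ℝ} (hκ : 0 < κ) (hη : Eta X η) (hρ : Rho κ ρ)
    {α T : ℝ} (hT : 1 < T) (hα : 1 ≤ α) {a b : ℕ → ℂ} (ha : ∀ m, ‖a m‖ ≤ 1)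
    (hb : ∀ m, ‖b m‖ ≤ 1) {n m m' A : ℕ} (hn : 1 ≤ n) (hm : 1 ≤ m) (hm' : 1 ≤ m')
    (hA : 1 ≤ A) : ‖∑ B ∈ Bk T m' A, nonCk_t η ρ α T a b m' A m B n‖ ≤
      Λ n * (2 * Real.exp X * ((A : ℝ) / Nat.totient A)) := by
  have hΛ : 0 ≤ Λ n := ArithmeticFunction.vonMangoldt_nonneg
  have hm1 : (1 : ℝ) ≤ m' := by exact_mod_cast hm'
  have h1 : ∀ B ∈ Bk T m' A, ‖nonCk_t η ρ α T a b m' A m B n‖ ≤
      1 / (Nat.totient A : ℝ) * (Λ n * 2) * |wk η ρ α T n m m' A B| := by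
    intro B _
    unfold nonCk_t
    have e1 : ‖((Λ n : ℝ) : ℂ)‖ = Λ n := by
      rw [Complex.norm_real, Real.norm_of_nonneg hΛ]
    have e2 : ‖(wk η ρ α T n m m' A B : ℂ)‖ = |wk η ρ α T n m m' A B| := by
      rw [Complex.norm_real, Real.norm_eq_abs]
    have e3 : ‖(((1 / (m' : ℝ) : ℝ)) : ℂ)‖ ≤ 1 := by
      rw [Complex.norm_real, Real.norm_of_nonneg (by positivity)]
      exact (div_le_one₀ (by linarith)).2 hm1
    rw [norm_mul, norm_mul, norm_mul, norm_mul, norm_mul, norm_mul, e1, e2,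
      RCLike.norm_conj]
    have h2 : ‖ex (-((n : ℝ) * m * B / (m' * A))) - mf (Qk m m' A)‖ ≤ 2 := by
      refine (norm_sub_le _ _).trans ?_
      rw [nonCk_ex]
      have := nonCk_mf1 (Qk m m' A)
      linarith
    have hw := abs_nonneg (wk η ρ α T n m m' A B)
    have f1 : ‖b m'‖ * ‖(((1 / (m' : ℝ) : ℝ)) : ℂ)‖ * ‖mf A‖ ≤ 1 * 1 * (1 / (Nat.totient A : ℝ)) := by
      refine mul_le_mul (mul_le_mul (hb m') e3 (norm_nonneg _) zero_le_one) (nonCk_mf A)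
        (norm_nonneg _) (by norm_num)
    have f2 : Λ n * ‖a m‖ * |wk η ρ α T n m m' A B| *
        ‖ex (-((n : ℝ) * m * B / (m' * A))) - mf (Qk m m' A)‖ ≤
        Λ n * 1 * |wk η ρ α T n m m' A B| * 2 := by
      refine mul_le_mul (mul_le_mul_of_nonneg_right (mul_le_mul_of_nonneg_left (ha m) hΛ) hw) h2
        (norm_nonneg _) (by positivity)
    calc _ ≤ (1 * 1 * (1 / (Nat.totient A : ℝ))) * (Λ n * 1 * |wk η ρ α T n m m' A B| * 2) :=
          mul_le_mul f1 f2 (by positivity) (by positivity)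
      _ = _ := by ring
  refine (norm_sum_le _ _).trans ((Finset.sum_le_sum h1).trans ?_)
  rw [← Finset.mul_sum]
  calc 1 / (Nat.totient A : ℝ) * (Λ n * 2) * ∑ B ∈ Bk T m' A, |wk η ρ α T n m m' A B|
      ≤ 1 / (Nat.totient A : ℝ) * (Λ n * 2) * (A * Real.exp X) :=
        mul_le_mul_of_nonneg_left (nonCk_sumB hκ hη hρ hT hα hn hm hm' hA) (by positivity)
    _ = _ := by ring

/-- The `n` not coprime to `Q`. PROOF. As `Gg.nonC` (`GgNonC.lean`). The difference is the part of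
`XK - X0K` with `(n, Q) > 1`. For given `m', m, A, n` the `B` with `wk ≠ 0` satisfy
`B ≤ AT/(2π(nm/m')) ≤ A T^{1-α} e^X ≤ A e^X` (`wk_supp`), each term is at most
`(1/m')(1/φ(A)) 2 Λ(n)`, and `∑_{(n,Q)>1} Λ(n) ≤ tau Q · 2 log T ≤ 2 D L` (`Gg.lam_noncop`;
`1 ≤ Q ≤ m'A ≤ T`). Total `≤ ∑_{m'} (1/m') ∑_m ∑_A (A/φ(A)) 4 e^X D L ≤
T^{A₀} (1+L) T^{1/2-A₀-c} D · 4 e^X D L ≤ T^{1/2}`-ish `≤ T^{1-c}`, with `D = T^{c/100}`
(`A/φ(A) ≤ tau A`, `∑_{m'} 1/m' ≤ 1 + log`; `c ≤ 1/8` as `1 ≤ 3/2 - 4c`). -/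
theorem nonCk {X κ A₀ : ℝ} {η ρ : ℝ → ℝ} (hκ : 0 < κ) (hη : Eta X η) (hρ : Rho κ ρ) (c : ℝ)
    (hc : 0 < c) (hA : 0 ≤ A₀) : ∀ᶠ T : ℝ in atTop,
      ∀ α ∈ Icc (1 : ℝ) (3 / 2 - A₀ - 4 * c), ∀ a b : ℕ → ℂ, (∀ m, ‖a m‖ ≤ 1) →
      (∀ m, ‖b m‖ ≤ 1) →
      ‖XK η ρ A₀ c α T a b - X0K η ρ A₀ c α T a b - ZZk η ρ A₀ c α T a b (fun n => Λ n)‖ ≤
        T ^ (1 - c) := by
  filter_upwards [eps_k hc, eventually_gt_atTop (1 : ℝ),
    (tendsto_rpow_atTop hc).eventually_ge_atTop (4 * Real.exp X)] with T hD hT hTc α hα a b ha hb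
  obtain ⟨hDt, hL6, hL2⟩ := hD
  have hT0 : 0 < T := by linarith
  have hTc0 : 0 < T ^ c := by positivity
  have hAc : A₀ ≤ 1 / 2 - 4 * c := by linarith [hα.1.trans hα.2]
  have hL : Real.log T ≤ T ^ c := by
    refine le_trans ?_ hL6
    exact le_self_pow₀ (by linarith) (by norm_num)
  set N := ⌊T ^ (2 : ℝ)⌋₊ with hN
  have hlogN : Real.log N ≤ 2 * T ^ c := by
    rcases Nat.eq_zero_or_pos N with h | h
    · rw [h]
      simp only [CharP.cast_eq_zero, Real.log_zero]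
      positivity
    · have h1 : Real.log N ≤ 2 * Real.log T := by
        rw [← Real.log_rpow hT0]
        exact Real.log_le_log (by exact_mod_cast h) (Nat.floor_le (by positivity))
      linarith
  rw [nonCk_diff]
  have hterm : ∀ m' ∈ Mk A₀ T, ∀ A ∈ Ak A₀ c α T, ∀ m ∈ Mk A₀ T,
      ‖∑ n ∈ Finset.Icc 1 N with ¬ n.Coprime (Qk m m' A), ∑ B ∈ Bk T m' A,
        nonCk_t η ρ α T a b m' A m B n‖ ≤ 4 * Real.exp X * (T ^ c) ^ 3 := by
    intro m' hm' A hA m hm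
    rw [Mk, Finset.mem_Icc] at hm' hm
    rw [Ak, Finset.mem_Ioc] at hA
    have hA1 : 1 ≤ A := by omega
    have hA2 : (A : ℝ) ≤ T ^ (1 / 2 - A₀ - c) :=
      (Nat.le_floor_iff' (by omega)).1 hA.2
    have hm2 : (m' : ℝ) ≤ T ^ A₀ := (Nat.le_floor_iff' (by omega)).1 hm'.2
    have hA5 : (A : ℝ) ≤ T ^ (5 : ℝ) :=
      hA2.trans (Real.rpow_le_rpow_of_exponent_le hT.le (by linarith))
    have hR : 1 ≤ m' * A := Nat.one_le_iff_ne_zero.2 (Nat.mul_ne_zero (by omega) (by omega))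
    have hQ1 : 1 ≤ Qk m m' A := by
      unfold Qk
      exact Nat.div_pos (Nat.le_of_dvd hR (Nat.gcd_dvd_right _ _))
        (Nat.gcd_pos_of_pos_right _ hR)
    have hQ2 : ((Qk m m' A : ℕ) : ℝ) ≤ T ^ (5 : ℝ) := by
      have h1 : ((Qk m m' A : ℕ) : ℝ) ≤ ((m' * A : ℕ) : ℝ) := by
        exact_mod_cast Nat.div_le_self _ _
      calc ((Qk m m' A : ℕ) : ℝ) ≤ (m' : ℝ) * A := by rw [← Nat.cast_mul]; exact h1
        _ ≤ T ^ A₀ * T ^ (1 / 2 - A₀ - c) := mul_le_mul hm2 hA2 (by positivity) (by positivity)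
        _ = T ^ (A₀ + (1 / 2 - A₀ - c)) := (Real.rpow_add hT0 _ _).symm
        _ ≤ T ^ (5 : ℝ) := Real.rpow_le_rpow_of_exponent_le hT.le (by linarith)
    have htA : (A : ℝ) / Nat.totient A ≤ T ^ c :=
      (Pool.Agent.BV.div_totient_le A (by omega)).trans (hDt A hA1 hA5)
    have htQ := hDt _ hQ1 hQ2
    calc ‖∑ n ∈ Finset.Icc 1 N with ¬ n.Coprime (Qk m m' A), ∑ B ∈ Bk T m' A,
          nonCk_t η ρ α T a b m' A m B n‖
        ≤ ∑ n ∈ Finset.Icc 1 N with ¬ n.Coprime (Qk m m' A),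
            Λ n * (2 * Real.exp X * ((A : ℝ) / Nat.totient A)) := by
          refine (norm_sum_le _ _).trans (Finset.sum_le_sum fun n hn => ?_)
          have hn1 : 1 ≤ n := (Finset.mem_Icc.1 (Finset.mem_filter.1 hn).1).1
          exact nonCk_inner hκ hη hρ hT hα.1 ha hb hn1 hm.1 hm'.1 hA1
      _ = (∑ n ∈ Finset.Icc 1 N with ¬ n.Coprime (Qk m m' A), Λ n) *
            (2 * Real.exp X * ((A : ℝ) / Nat.totient A)) := by
          rw [Finset.sum_mul]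
      _ ≤ (tau (Qk m m' A) * Real.log N) * (2 * Real.exp X * ((A : ℝ) / Nat.totient A)) :=
          mul_le_mul_of_nonneg_right (Gg.lam_noncop hQ1 N) (by positivity)
      _ ≤ (T ^ c * (2 * T ^ c)) * (2 * Real.exp X * T ^ c) := by
          refine mul_le_mul ?_ ?_ (by positivity) (by positivity)
          · exact mul_le_mul htQ hlogN (Real.log_natCast_nonneg N) hTc0.le
          · exact mul_le_mul_of_nonneg_left htA (by positivity)
      _ = 4 * Real.exp X * (T ^ c) ^ 3 := by ring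
  have hZ0 : 0 ≤ 4 * Real.exp X * (T ^ c) ^ 3 := by positivity
  have hcM : ((Mk A₀ T).card : ℝ) ≤ T ^ A₀ := by
    unfold Mk
    rw [Nat.card_Icc, Nat.add_sub_cancel]
    exact Nat.floor_le (by positivity)
  have hcA : ((Ak A₀ c α T).card : ℝ) ≤ T ^ (1 / 2 - A₀ - c) := by
    unfold Ak
    rw [Nat.card_Ioc]
    calc ((⌊T ^ (1 / 2 - A₀ - c)⌋₊ - ⌊T ^ (α - 1 + c)⌋₊ : ℕ) : ℝ)
        ≤ (⌊T ^ (1 / 2 - A₀ - c)⌋₊ : ℝ) := by exact_mod_cast Nat.sub_le _ _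
      _ ≤ _ := Nat.floor_le (by positivity)
  calc ‖∑ m' ∈ Mk A₀ T, ∑ A ∈ Ak A₀ c α T, ∑ m ∈ Mk A₀ T,
        ∑ n ∈ Finset.Icc 1 N with ¬ n.Coprime (Qk m m' A), ∑ B ∈ Bk T m' A,
          nonCk_t η ρ α T a b m' A m B n‖
      ≤ ∑ m' ∈ Mk A₀ T, ∑ A ∈ Ak A₀ c α T, ∑ m ∈ Mk A₀ T, 4 * Real.exp X * (T ^ c) ^ 3 := by
        refine (norm_sum_le _ _).trans (Finset.sum_le_sum fun m' hm' => ?_)
        refine (norm_sum_le _ _).trans (Finset.sum_le_sum fun A hA => ?_)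
        refine (norm_sum_le _ _).trans (Finset.sum_le_sum fun m hm => ?_)
        exact hterm m' hm' A hA m hm
    _ = ((Mk A₀ T).card : ℝ) * (((Ak A₀ c α T).card : ℝ) * (((Mk A₀ T).card : ℝ) *
          (4 * Real.exp X * (T ^ c) ^ 3))) := by
        simp only [Finset.sum_const, nsmul_eq_mul]
    _ ≤ T ^ A₀ * (T ^ (1 / 2 - A₀ - c) * (T ^ A₀ * (T ^ c * (T ^ c) ^ 3))) := by
        have h1 : (0 : ℝ) ≤ ((Mk A₀ T).card : ℝ) := Nat.cast_nonneg _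
        have h2 : (0 : ℝ) ≤ ((Ak A₀ c α T).card : ℝ) := Nat.cast_nonneg _
        refine mul_le_mul hcM (mul_le_mul hcA (mul_le_mul hcM ?_ hZ0 (by positivity))
          (by positivity) (by positivity)) (by positivity) (by positivity)
        exact mul_le_mul_of_nonneg_right hTc (by positivity)
    _ = T ^ (A₀ + (1 / 2 - A₀ - c) + A₀ + 4 * c) := by
        have h4 : T ^ (4 * c) = (T ^ c) ^ 4 := by
          rw [← Real.rpow_natCast, ← Real.rpow_mul hT0.le]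
          congr 1
          push_cast
          ring
        rw [Real.rpow_add hT0, Real.rpow_add hT0, Real.rpow_add hT0, h4]
        ring
    _ ≤ T ^ (1 - c) := Real.rpow_le_rpow_of_exponent_le hT.le (by linarith)

end Pool.Agent.MP_67227b_nt.Gk
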