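import Mathlib
import Pool.Agent.MP_67227b_nt.Gg.GgZb
import Pool.Agent.MP_67227b_nt.Gk.GkZero

set_option autoImplicit false

open Filter Topology Set MeasureTheory Complex
open scoped Real ContDiff ArithmeticFunction ArithmeticFunction.Moebius
open scoped Classical

namespace Pool.Agent.MP_67227b_nt.Gk

open Pool.Agent.MP_67227b_nt.Gg (Eta Rho wt ex PP tv bx pw D3 T3 P3 S3 YY cv cs Jd uV a1 g1 a2 g2
  a3 g3)
open Pool.Agent.BV (tau csum)
open Pool.Agent.LS (prim)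

private theorem GkZb_swap {s t u v : Finset ℕ} (F : ℕ → ℕ → ℕ → ℕ → ℂ) :
    ∑ x ∈ s, ∑ y ∈ t, ∑ j ∈ u, ∑ l ∈ v, F x y j l =
      ∑ j ∈ u, ∑ l ∈ v, ∑ x ∈ s, ∑ y ∈ t, F x y j l := by
  have h1 : ∀ x, ∑ y ∈ t, ∑ j ∈ u, ∑ l ∈ v, F x y j l =
      ∑ j ∈ u, ∑ l ∈ v, ∑ y ∈ t, F x y j l := by
    intro x
    rw [Finset.sum_comm]
    refine Finset.sum_congr rfl fun j _ => ?_
    rw [Finset.sum_comm]
  simp only [h1]
  rw [Finset.sum_comm]
  refine Finset.sum_congr rfl fun j _ => ?_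
  rw [Finset.sum_comm]

private theorem GkZb_dy {J : ℕ} {S : Finset ℕ} (hS : ∀ x ∈ S, 1 ≤ x ∧ x < 2 ^ J) (f : ℕ → ℂ) :
    ∑ A ∈ S, f A = ∑ i ∈ Finset.range J, ∑ A ∈ S with (2 ^ i ≤ A ∧ A < 2 * 2 ^ i), f A := by
  have h1 : ∑ A ∈ S, f A = ∑ A ∈ Finset.Ico 1 (2 ^ J), if A ∈ S then f A else 0 := by
    rw [← Finset.sum_filter]
    refine Finset.sum_congr ?_ fun _ _ => rfl
    ext A
    rw [Finset.mem_filter, Finset.mem_Ico]
    constructor
    · intro hA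
      exact ⟨hS A hA, hA⟩
    · exact fun h => h.2
  rw [h1, Gg.ZbAux.dyad]
  refine Finset.sum_congr rfl fun i _ => ?_
  rw [← Finset.sum_filter]
  refine Finset.sum_congr ?_ fun _ _ => rfl
  ext A
  rw [Finset.mem_filter, Finset.mem_filter, Finset.mem_Ico]
  tauto

/-- The decomposition into boxes. PROOF. As `Gg.ZZ_box` (`GgZb.lean`; `Gg.ZbAux.dyad`,
`Gg.ZbAux.conv_sum` are public), one more dyadic decomposition for `m' ∈ Mk A₀ T`
(`m' ≤ T^{A₀} ≤ T² `, `A₀ ≤ 1/2` as `1 ≤ 3/2 - A₀ - 4c`). In the box the sum over `m ∈ Mk A₀ T` may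
be replaced by `m ∈ Icc 1 (NN X M)` with `aM A₀ T a m` (`wk_supp`: `m ≤ m' e^{2X} < 2M e^{2X}`), and
the sum over `B ∈ Bk T m' A` by `B ∈ Icc 1 (YY X α T K)` coprime to `m'A` (`wk_supp`:
`2π T^α e^{-X} B ≤ AT < 2KT`, and `YY ≤ ⌊T⌋`). -/
theorem ZZk_box {X κ A₀ : ℝ} {η ρ : ℝ → ℝ} (hX : 0 ≤ X) (hκ : 0 < κ) (hη : Eta X η)
    (hρ : Rho κ ρ) (c : ℝ) (hc : 0 < c) (hA : 0 ≤ A₀) : ∀ᶠ T : ℝ in atTop,
      ∀ α ∈ Icc (1 : ℝ) (3 / 2 - A₀ - 4 * c), ∀ (a b : ℕ → ℂ) (f g : ℕ → ℝ),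
      ZZk η ρ A₀ c α T a b (cv f g) = ∑ h ∈ Finset.range (Jd T), ∑ i ∈ Finset.range (Jd T),
        ∑ j ∈ Finset.range (Jd T), ∑ l ∈ Finset.range (Jd T),
          BXk η ρ X A₀ c α T a b (cs f) (cs g) (2 ^ h) (2 ^ i) (2 ^ j) (2 ^ l) := by
  have hev : ∀ᶠ T : ℝ in atTop, Real.exp X ≤ T ^ (1 / 2 : ℝ) :=
    (tendsto_rpow_atTop (by norm_num : (0 : ℝ) < 1 / 2)).eventually_ge_atTop _
  filter_upwards [hev, eventually_gt_atTop 1] with T hTX hT α hα a b f g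
  obtain ⟨hα1, hα2⟩ := hα
  have hT0 : 0 < T := by linarith
  set N := ⌊T ^ (2 : ℝ)⌋₊ with hN
  set J := Jd T with hJ
  have hNJ : N < 2 ^ J := by
    rw [hJ, Jd]
    exact Nat.lt_pow_succ_log_self (by norm_num) _
  have hmem : ∀ x : ℕ, (x : ℝ) ≤ T ^ (1 / 2 : ℝ) → x < 2 ^ J := by
    intro x hx
    refine lt_of_le_of_lt ?_ hNJ
    rw [hN]
    refine (Nat.le_floor_iff (by positivity)).2 ?_
    exact hx.trans (Real.rpow_le_rpow_of_exponent_le hT.le (by norm_num))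
  -- the size of the weights
  have hsup : ∀ n m m' A B : ℕ, 1 ≤ m → 1 ≤ m' → 1 ≤ A → N < n →
      wk η ρ α T n m m' A B = 0 := by
    intro n m m' A B hm hm' hA hn
    by_contra hne
    obtain ⟨_, w2, _⟩ := wk_supp hκ hη hρ hT (by omega) hm hm' hA hne
    have h1 : T ^ α * Real.exp X ≤ T ^ (2 : ℝ) := by
      calc T ^ α * Real.exp X ≤ T ^ (3 / 2 : ℝ) * T ^ (1 / 2 : ℝ) := by
            refine mul_le_mul (Real.rpow_le_rpow_of_exponent_le hT.le (by linarith)) hTX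
              (Real.exp_pos _).le (by positivity)
        _ = T ^ (2 : ℝ) := by
            rw [← Real.rpow_add hT0]
            norm_num
    have h2 : T ^ (2 : ℝ) < n := by
      rw [hN] at hn
      exact (Nat.floor_lt (by positivity)).1 hn
    linarith
  have hMs : ∀ m ∈ Mk A₀ T, 1 ≤ m ∧ m < 2 ^ J := by
    intro m hm
    rw [Mk, Finset.mem_Icc] at hm
    have b2 : (m : ℝ) ≤ T ^ A₀ := (Nat.le_floor_iff (by positivity)).1 hm.2
    exact ⟨hm.1, hmem m (b2.trans (Real.rpow_le_rpow_of_exponent_le hT.le (by linarith)))⟩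
  have hAs' : ∀ A ∈ Ak A₀ c α T, 1 ≤ A ∧ (A : ℝ) ≤ T ^ (1 / 2 : ℝ) := by
    intro A hA
    rw [Ak, Finset.mem_Ioc] at hA
    have b2 : (A : ℝ) ≤ T ^ (1 / 2 - A₀ - c) := (Nat.le_floor_iff (by positivity)).1 hA.2
    exact ⟨by omega, b2.trans (Real.rpow_le_rpow_of_exponent_le hT.le (by linarith))⟩
  have hAs : ∀ A ∈ Ak A₀ c α T, 1 ≤ A ∧ A < 2 ^ J := fun A hA =>
    ⟨(hAs' A hA).1, hmem A (hAs' A hA).2⟩
  -- the inner function
  set Φ : ℕ → ℕ → ℕ → ℕ → ℕ → ℂ := fun m' A n m B =>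
    if n.Coprime (Qk m m' A) then (wk η ρ α T n m m' A B : ℂ) *
      (ex (-((n : ℝ) * m * B / (m' * A))) - mf (Qk m m' A)) else 0 with hΦ
  set Ψ : ℕ → ℕ → ℕ → ℂ := fun m' A n => ∑ m ∈ Mk A₀ T, ∑ B ∈ Bk T m' A, a m * Φ m' A n m B
    with hΨ
  have hw0 : ∀ m' A n m B : ℕ, wk η ρ α T n m m' A B = 0 → Φ m' A n m B = 0 := by
    intro m' A n m B h
    simp only [hΦ]
    rw [h]
    simp
  have hΨ0 : ∀ m' A n : ℕ, 1 ≤ m' → 1 ≤ A → N < n → Ψ m' A n = 0 := by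
    intro m' A n hm' hA hn
    simp only [hΨ]
    refine Finset.sum_eq_zero fun m hm => Finset.sum_eq_zero fun B _ => ?_
    rw [hw0 _ _ _ _ _ (hsup n m m' A B (hMs m hm).1 hm' hA hn), mul_zero]
  -- the sums over m and B in a box
  have hB : ∀ h i m' A n : ℕ, m' ∈ Mk A₀ T → 2 ^ h ≤ m' → m' < 2 * 2 ^ h → A ∈ Ak A₀ c α T →
      2 ^ i ≤ A → A < 2 * 2 ^ i → 1 ≤ n →
      Ψ m' A n = ∑ m ∈ Finset.Icc 1 (NN X (2 ^ h)),
        ∑ B ∈ Finset.Icc 1 (YY X α T (2 ^ i)) with B.Coprime (m' * A),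
          aM A₀ T a m * Φ m' A n m B := by
    intro h i m' A n hm' hm1 hm2 hA h1 h2 hn
    have hm'1 := (hMs m' hm').1
    obtain ⟨hA1, hA2⟩ := hAs' A hA
    have hYT : YY X α T (2 ^ i) ≤ ⌊T⌋₊ := by
      unfold YY
      refine Nat.floor_le_floor ?_
      have h3 : (((2 ^ i : ℕ)) : ℝ) ≤ T ^ (1 / 2 : ℝ) :=
        le_trans (by exact_mod_cast h1) hA2
      have h4 : T ^ (1 - α) ≤ 1 := Real.rpow_le_one_of_one_le_of_nonpos hT.le (by linarith)
      calc (((2 ^ i : ℕ)) : ℝ) * T ^ (1 - α) * Real.exp X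
          ≤ T ^ (1 / 2 : ℝ) * 1 * T ^ (1 / 2 : ℝ) := by gcongr
        _ = T := by
            rw [mul_one, ← Real.rpow_add hT0]
            norm_num
    have hlarge : ∀ m B : ℕ, 1 ≤ m → YY X α T (2 ^ i) < B → wk η ρ α T n m m' A B = 0 := by
      intro m B hm hBY
      by_contra hne
      obtain ⟨_, _, _, w1, w3⟩ := wk_supp hκ hη hρ hT hn hm hm'1 hA1 hne
      have h5 : ((2 ^ i : ℕ) : ℝ) * T ^ (1 - α) * Real.exp X < B := by
        unfold YY at hBY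
        exact (Nat.floor_lt (by positivity)).1 hBY
      have h6 : (A : ℝ) ≤ 2 * ((2 ^ i : ℕ) : ℝ) := by exact_mod_cast h2.le
      have h7 : 2 * π * (T ^ α * Real.exp (-X)) * B ≤ 2 * ((2 ^ i : ℕ) : ℝ) * T := by
        calc 2 * π * (T ^ α * Real.exp (-X)) * B ≤ 2 * π * (n * m / m') * B := by gcongr
          _ ≤ A * T := w3
          _ ≤ 2 * ((2 ^ i : ℕ) : ℝ) * T := by gcongr
      have h8 : T ^ α * Real.exp (-X) * (((2 ^ i : ℕ) : ℝ) * T ^ (1 - α) * Real.exp X) =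
          ((2 ^ i : ℕ) : ℝ) * T := by
        have h9 : T ^ α * T ^ (1 - α) = T := by
          rw [← Real.rpow_add hT0]
          norm_num
        have h10 : Real.exp (-X) * Real.exp X = 1 := by
          rw [← Real.exp_add]
          simp
        calc _ = (T ^ α * T ^ (1 - α)) * (Real.exp (-X) * Real.exp X) * ((2 ^ i : ℕ) : ℝ) := by
              ring
          _ = _ := by rw [h9, h10]; ring
      have h11 : 0 < T ^ α * Real.exp (-X) := by positivity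
      have h12 : T ^ α * Real.exp (-X) * (((2 ^ i : ℕ) : ℝ) * T ^ (1 - α) * Real.exp X) <
          T ^ α * Real.exp (-X) * B := mul_lt_mul_of_pos_left h5 h11
      rw [h8] at h12
      have hpi := Real.pi_gt_three
      have h13 : 0 < ((2 ^ i : ℕ) : ℝ) * T := by positivity
      nlinarith
    have hNN : ∀ m B : ℕ, 1 ≤ m → NN X (2 ^ h) < m → wk η ρ α T n m m' A B = 0 := by
      intro m B hm hmN
      by_contra hne
      obtain ⟨_, _, w3, _, _⟩ := wk_supp hκ hη hρ hT hn hm hm'1 hA1 hne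
      have h5 : 2 * (((2 ^ h : ℕ)) : ℝ) * Real.exp (2 * X) < m := by
        unfold NN at hmN
        exact (Nat.floor_lt (by positivity)).1 hmN
      have h6 : (m' : ℝ) ≤ 2 * ((2 ^ h : ℕ) : ℝ) := by exact_mod_cast hm2.le
      have h7 : (m' : ℝ) * Real.exp (2 * X) ≤ 2 * ((2 ^ h : ℕ) : ℝ) * Real.exp (2 * X) := by
        gcongr
      linarith
    -- the sum over B
    have hBm : ∀ m : ℕ, 1 ≤ m → ∀ z : ℂ, ∑ B ∈ Bk T m' A, z * Φ m' A n m B =
        ∑ B ∈ Finset.Icc 1 (YY X α T (2 ^ i)) with B.Coprime (m' * A), z * Φ m' A n m B := by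
      intro m hm z
      rw [Bk, Finset.sum_filter, Finset.sum_filter]
      symm
      refine Finset.sum_subset (Finset.Icc_subset_Icc le_rfl hYT) fun B hB1 hB2 => ?_
      rw [Finset.mem_Icc] at hB1 hB2
      rw [hw0 _ _ _ _ _ (hlarge m B hm (by omega)), mul_zero]
      simp
    simp only [hΨ]
    -- both sums over the union
    have e1 : ∑ m ∈ Mk A₀ T, ∑ B ∈ Bk T m' A, a m * Φ m' A n m B =
        ∑ m ∈ Mk A₀ T ∪ Finset.Icc 1 (NN X (2 ^ h)),
          ∑ B ∈ Finset.Icc 1 (YY X α T (2 ^ i)) with B.Coprime (m' * A),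
            aM A₀ T a m * Φ m' A n m B := by
      rw [← Finset.sum_subset (Finset.subset_union_left (s₁ := Mk A₀ T)
        (s₂ := Finset.Icc 1 (NN X (2 ^ h))))]
      · refine Finset.sum_congr rfl fun m hm => ?_
        rw [hBm m (hMs m hm).1]
        refine Finset.sum_congr rfl fun B _ => ?_
        unfold aM
        rw [if_pos hm]
      · intro m _ hm2
        refine Finset.sum_eq_zero fun B _ => ?_
        unfold aM
        rw [if_neg hm2, zero_mul]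
    have e2 : ∑ m ∈ Finset.Icc 1 (NN X (2 ^ h)),
        ∑ B ∈ Finset.Icc 1 (YY X α T (2 ^ i)) with B.Coprime (m' * A),
          aM A₀ T a m * Φ m' A n m B =
        ∑ m ∈ Mk A₀ T ∪ Finset.Icc 1 (NN X (2 ^ h)),
          ∑ B ∈ Finset.Icc 1 (YY X α T (2 ^ i)) with B.Coprime (m' * A),
            aM A₀ T a m * Φ m' A n m B := by
      refine Finset.sum_subset Finset.subset_union_right fun m hm1 hm2 => ?_
      have hm0 : 1 ≤ m := by
        rcases Finset.mem_union.1 hm1 with h3 | h3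
        · exact (hMs m h3).1
        · exact (Finset.mem_Icc.1 h3).1
      refine Finset.sum_eq_zero fun B _ => ?_
      have h4 : NN X (2 ^ h) < m := by
        rw [Finset.mem_Icc] at hm2
        omega
      rw [hw0 _ _ _ _ _ (hNN m B hm0 h4), mul_zero]
    rw [e1, e2]
  -- ZZk in terms of Ψ
  have e1 : ZZk η ρ A₀ c α T a b (cv f g) = ∑ m' ∈ Mk A₀ T, ∑ A ∈ Ak A₀ c α T,
      (starRingEnd ℂ) (b m') * ((1 / (m' : ℝ) : ℝ) : ℂ) * mf A *
        ∑ k ∈ Finset.Ico 1 (2 ^ J), ∑ l ∈ Finset.Ico 1 (2 ^ J),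
          (f k : ℂ) * (g l : ℂ) * Ψ m' A (k * l) := by
    unfold ZZk
    refine Finset.sum_congr rfl fun m' hm' => Finset.sum_congr rfl fun A hA => ?_
    congr 1
    rw [← Gg.ZbAux.conv_sum hNJ f g (Ψ m' A) (hΨ0 m' A · (hMs m' hm').1 (hAs A hA).1)]
    have e4 : ∀ n, (cv f g n : ℂ) * Ψ m' A n = ∑ m ∈ Mk A₀ T, ∑ B ∈ Bk T m' A,
        if n.Coprime (Qk m m' A) then
        (cv f g n : ℂ) * a m * (wk η ρ α T n m m' A B : ℂ) *
          (ex (-((n : ℝ) * m * B / (m' * A))) - mf (Qk m m' A)) else 0 := by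
      intro n
      simp only [hΨ, hΦ, Finset.mul_sum]
      refine Finset.sum_congr rfl fun m _ => Finset.sum_congr rfl fun B _ => ?_
      split_ifs
      · ring
      · simp
    simp only [e4]
    symm
    rw [Finset.sum_comm]
    refine Finset.sum_congr rfl fun m _ => ?_
    rw [Finset.sum_comm]
  have e2 : ∀ m' A, ∑ k ∈ Finset.Ico 1 (2 ^ J), ∑ l ∈ Finset.Ico 1 (2 ^ J),
      (f k : ℂ) * (g l : ℂ) * Ψ m' A (k * l) = ∑ j ∈ Finset.range J, ∑ l ∈ Finset.range J,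
        ∑ p ∈ Finset.Ico (2 ^ j) (2 * 2 ^ j), ∑ q ∈ Finset.Ico (2 ^ l) (2 * 2 ^ l),
          (f p : ℂ) * (g q : ℂ) * Ψ m' A (p * q) := by
    intro m' A
    rw [Gg.ZbAux.dyad]
    refine Finset.sum_congr rfl fun j _ => ?_
    rw [Finset.sum_comm]
    rw [Gg.ZbAux.dyad]
    refine Finset.sum_congr rfl fun l _ => ?_
    rw [Finset.sum_comm]
  rw [e1, GkZb_dy hMs]
  refine Finset.sum_congr rfl fun h _ => ?_
  have e5 : ∀ m', ∑ A ∈ Ak A₀ c α T,
      (starRingEnd ℂ) (b m') * ((1 / (m' : ℝ) : ℝ) : ℂ) * mf A *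
        ∑ k ∈ Finset.Ico 1 (2 ^ J), ∑ l ∈ Finset.Ico 1 (2 ^ J),
          (f k : ℂ) * (g l : ℂ) * Ψ m' A (k * l) =
      ∑ i ∈ Finset.range J, ∑ A ∈ Ak A₀ c α T with (2 ^ i ≤ A ∧ A < 2 * 2 ^ i),
        (starRingEnd ℂ) (b m') * ((1 / (m' : ℝ) : ℝ) : ℂ) * mf A *
        ∑ k ∈ Finset.Ico 1 (2 ^ J), ∑ l ∈ Finset.Ico 1 (2 ^ J),
          (f k : ℂ) * (g l : ℂ) * Ψ m' A (k * l) := fun m' => GkZb_dy hAs _
  simp only [e5]
  rw [Finset.sum_comm]
  refine Finset.sum_congr rfl fun i _ => ?_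
  simp only [e2, Finset.mul_sum]
  rw [GkZb_swap]
  refine Finset.sum_congr rfl fun j _ => Finset.sum_congr rfl fun l _ => ?_
  unfold BXk
  refine Finset.sum_congr rfl fun m' hm' => Finset.sum_congr rfl fun A hA => ?_
  rw [Finset.mem_filter] at hm' hA
  simp only [← Finset.mul_sum]
  congr 1
  -- the inner sums
  have e6 : ∀ p ∈ Finset.Ico (2 ^ j) (2 * 2 ^ j), ∀ q ∈ Finset.Ico (2 ^ l) (2 * 2 ^ l),
      (f p : ℂ) * (g q : ℂ) * Ψ m' A (p * q) = ∑ m ∈ Finset.Icc 1 (NN X (2 ^ h)),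
        ∑ B ∈ Finset.Icc 1 (YY X α T (2 ^ i)) with B.Coprime (m' * A),
          if (p * q).Coprime (Qk m m' A) then
          cs f p * cs g q * aM A₀ T a m * (wk η ρ α T (p * q) m m' A B : ℂ) *
            (ex (-(((p * q : ℕ) : ℝ) * m * B / (m' * A))) - mf (Qk m m' A)) else 0 := by
    intro p hp q hq
    rw [Finset.mem_Ico] at hp hq
    have hp1 : 1 ≤ p := le_trans Nat.one_le_two_pow hp.1
    have hq1 : 1 ≤ q := le_trans Nat.one_le_two_pow hq.1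
    have hpq : 1 ≤ p * q := Nat.one_le_iff_ne_zero.2 (Nat.mul_ne_zero (by omega) (by omega))
    rw [hB h i m' A (p * q) hm'.1 hm'.2.1 hm'.2.2 hA.1 hA.2.1 hA.2.2 hpq, Finset.mul_sum]
    refine Finset.sum_congr rfl fun m _ => ?_
    rw [Finset.mul_sum]
    refine Finset.sum_congr rfl fun B _ => ?_
    simp only [hΦ, cs]
    split_ifs
    · ring
    · simp
  rw [Finset.sum_congr rfl fun p hp => Finset.sum_congr rfl fun q hq => e6 p hp q hq]
  exact GkZb_swap (fun p q m B => if (p * q).Coprime (Qk m m' A) then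
          cs f p * cs g q * aM A₀ T a m * (wk η ρ α T (p * q) m m' A B : ℂ) *
            (ex (-(((p * q : ℕ) : ℝ) * m * B / (m' * A))) - mf (Qk m m' A)) else 0)

end Pool.Agent.MP_67227b_nt.Gk
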