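import Mathlib
import Pool.Agent.MP_67227b_nt.Gk.GkZero

set_option autoImplicit false

open Filter Topology Set MeasureTheory Complex
open scoped Real ContDiff ArithmeticFunction ArithmeticFunction.Moebius
open scoped Classical

namespace Pool.Agent.MP_67227b_nt.Gk

open Pool.Agent.MP_67227b_nt.Gg (Eta Rho wt ex PP tv bx pw D3 T3 P3 S3 YY cv cs Jd uV a1 g1 a2 g2
  a3 g3)
open Pool.Agent.BV (tau csum)
open Pool.Agent.LS (prim)

private theorem GkZv_id {u n : ℕ} (hn : u < n) :
    Λ n = cv (a1 u) g1 n - cv (a2 u) g2 n + cv (a3 u) (g3 u) n := by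
  have h := Pool.Agent.BGV.vaughan u n hn
  unfold cv a1 g1 a2 g2 a3 g3
  simp only [mul_one]
  exact h

private theorem GkZv_T (X c : ℝ) (hc : c ≤ 1 / 8) :
    ∀ᶠ T : ℝ in atTop, 1 < T ∧ Real.exp X < T ^ (1 - c) := by
  have h1 : Tendsto (fun T : ℝ => T ^ (1 - c)) atTop atTop :=
    tendsto_rpow_atTop (by linarith)
  exact (eventually_gt_atTop 1).and (h1.eventually_gt_atTop _)

/-- Vaughan's identity. PROOF. As `Gg.ZZ_vau` (`GgZv.lean`), with `wk_supp`: if `wk ≠ 0` then
`n ≥ T^α e^{-X} > T^{α-1+c}`. -/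
theorem ZZk_vau {X κ A₀ : ℝ} {η ρ : ℝ → ℝ} (hκ : 0 < κ) (hη : Eta X η) (hρ : Rho κ ρ)
    (c : ℝ) (hc : 0 < c) (hA : 0 ≤ A₀) : ∀ᶠ T : ℝ in atTop,
      ∀ α ∈ Icc (1 : ℝ) (3 / 2 - A₀ - 4 * c), ∀ a b : ℕ → ℂ,
      ZZk η ρ A₀ c α T a b (fun n => Λ n) = ZZk η ρ A₀ c α T a b (cv (a1 (uV c α T)) g1) -
        ZZk η ρ A₀ c α T a b (cv (a2 (uV c α T)) g2) +
          ZZk η ρ A₀ c α T a b (cv (a3 (uV c α T)) (g3 (uV c α T))) := by
  by_cases hc8 : c ≤ 1 / 8
  · filter_upwards [GkZv_T X c hc8] with T hT α hα a b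
    obtain ⟨hT1, hT2⟩ := hT
    have hT0 : 0 < T := by linarith
    unfold ZZk
    rw [← Finset.sum_sub_distrib, ← Finset.sum_add_distrib]
    refine Finset.sum_congr rfl fun m' hm' => ?_
    have hm'1 : 1 ≤ m' := (Finset.mem_Icc.1 hm').1
    rw [← Finset.sum_sub_distrib, ← Finset.sum_add_distrib]
    refine Finset.sum_congr rfl fun A hA => ?_
    have hA1 : 1 ≤ A := by
      unfold Ak at hA
      have := (Finset.mem_Ioc.1 hA).1
      omega
    rw [← mul_sub, ← mul_add, ← Finset.sum_sub_distrib, ← Finset.sum_add_distrib]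
    congr 1
    refine Finset.sum_congr rfl fun m hm => ?_
    have hm1 : 1 ≤ m := (Finset.mem_Icc.1 hm).1
    rw [← Finset.sum_sub_distrib, ← Finset.sum_add_distrib]
    refine Finset.sum_congr rfl fun B _ => ?_
    rw [← Finset.sum_sub_distrib, ← Finset.sum_add_distrib]
    refine Finset.sum_congr rfl fun n hn => ?_
    rw [Finset.mem_Icc] at hn
    by_cases hcop : n.Coprime (Qk m m' A)
    · rw [if_pos hcop, if_pos hcop, if_pos hcop, if_pos hcop]
      by_cases hw : wk η ρ α T n m m' A B = 0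
      · rw [hw]
        simp
      · obtain ⟨h1, -⟩ := wk_supp hκ hη hρ hT1 hn.1 hm1 hm'1 hA1 hw
        have h2 : T ^ (α - 1 + c) < n := by
          refine lt_of_lt_of_le ?_ h1
          rw [Real.exp_neg, ← div_eq_mul_inv, lt_div_iff₀ (Real.exp_pos X)]
          calc T ^ (α - 1 + c) * Real.exp X < T ^ (α - 1 + c) * T ^ (1 - c) :=
                mul_lt_mul_of_pos_left hT2 (Real.rpow_pos_of_pos hT0 _)
            _ = T ^ α := by
                rw [← Real.rpow_add hT0]
                congr 1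
                ring
        have h3 : uV c α T < n := by
          unfold uV
          exact (Nat.floor_lt (Real.rpow_nonneg hT0.le _)).2 h2
        have h4 : (fun n => Λ n : ℕ → ℝ) n = cv (a1 (uV c α T)) g1 n - cv (a2 (uV c α T)) g2 n +
            cv (a3 (uV c α T)) (g3 (uV c α T)) n := GkZv_id h3
        rw [h4]
        push_cast
        ring
    · rw [if_neg hcop, if_neg hcop, if_neg hcop, if_neg hcop]
      ring
  · filter_upwards with T α hα
    exfalso
    have h1 := hα.1.trans hα.2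
    linarith [not_le.1 hc8]

end Pool.Agent.MP_67227b_nt.Gk
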