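import Mathlib
import Pool.Agent.MP_67227b_nt.Gg.GgErr
import Pool.Agent.MP_67227b_nt.Gk.GkKinds
import Pool.Agent.MP_67227b_nt.Gk.GkNonC
import Pool.Agent.MP_67227b_nt.Gk.GkZb
import Pool.Agent.MP_67227b_nt.Gk.GkZv

set_option autoImplicit false

open Filter Topology Set MeasureTheory Complex
open scoped Real ContDiff ArithmeticFunction ArithmeticFunction.Moebius
open scoped Classical

namespace Pool.Agent.MP_67227b_nt.Gk

open Pool.Agent.MP_67227b_nt.Gg (Eta Rho wt ex PP tv bx pw D3 T3 P3 S3 YY cv cs Jd uV a1 g1 a2 g2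
  a3 g3)
open Pool.Agent.BV (tau csum)
open Pool.Agent.LS (prim)

private theorem gkErr_quad (J : ℕ) (f : ℕ → ℕ → ℕ → ℕ → ℂ) {M : ℝ} (h : ∀ e i j l, ‖f e i j l‖ ≤ M) :
    ‖∑ e ∈ Finset.range J, ∑ i ∈ Finset.range J, ∑ j ∈ Finset.range J, ∑ l ∈ Finset.range J,
      f e i j l‖ ≤ (J : ℝ) ^ 4 * M := by
  have h1 : ∀ e, ‖∑ i ∈ Finset.range J, ∑ j ∈ Finset.range J, ∑ l ∈ Finset.range J, f e i j l‖ ≤
      (J : ℝ) ^ 3 * M := fun e => Gg.ErrAux.triple_le J (f e) (h e)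
  refine (norm_sum_le _ _).trans ((Finset.sum_le_sum fun e _ => h1 e).trans (le_of_eq ?_))
  rw [Finset.sum_const, Finset.card_range, nsmul_eq_mul]
  ring

/-- ERR. PROOF. As `Gg.err` (`GgErr.lean`): `nonCk`, `ZZk_vau`, `ZZk_box`, `kind1k`, `kind2k`,
`kind3k`; `(Jd T)⁴ ≤ (4 log T)⁴ ≤ T^{c/200}`. (`X` replaced by `max X 0`.) `δ = c/128`. -/
theorem errK (X κ c A₀ : ℝ) (hκ : 0 < κ) (hc : 0 < c) (hA : 0 ≤ A₀) {η ρ : ℝ → ℝ} (hη : Eta X η)
    (hρ : Rho κ ρ) :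
    ∃ δ : ℝ, 0 < δ ∧ ∀ᶠ T : ℝ in atTop, ∀ α ∈ Icc (1 : ℝ) (3 / 2 - A₀ - 4 * c),
      ∀ a b : ℕ → ℂ, (∀ m, ‖a m‖ ≤ 1) → (∀ m, ‖b m‖ ≤ 1) →
      ‖XK η ρ A₀ c α T a b - X0K η ρ A₀ c α T a b‖ ≤ T ^ (1 - δ) := by
  have hη' : Eta (max X 0) η :=
    ⟨hη.smooth, fun v hv => hη.supp v ((le_max_left _ _).trans_lt hv), hη.sq_le⟩
  have hX' : 0 ≤ max X 0 := le_max_right _ _
  obtain ⟨C1, hC1, h1⟩ := kind1k hX' hκ hη' hρ c hc hA
  obtain ⟨C2, hC2, h2⟩ := kind2k hX' hκ hη' hρ c hc hA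
  obtain ⟨C3, hC3, h3⟩ := kind3k hX' hκ hη' hρ c hc hA
  refine ⟨c / 128, by positivity, ?_⟩
  have hlog : ∀ᶠ T : ℝ in atTop,
      1 * T ^ (1 - c) + (C1 + C2 + C3) * ((4 * Real.log T) ^ 4 * T ^ (1 - c / 64)) ≤
        T ^ (1 - c / 128) := by
    have h := (isLittleO_log_rpow_atTop (r := c / 2048) (by positivity)).bound
      (show (0 : ℝ) < 1 / 4 by norm_num)
    have h' : ∀ᶠ T : ℝ in atTop, 1 + (C1 + C2 + C3) ≤ T ^ (c / 512) :=
      (tendsto_rpow_atTop (by positivity)).eventually_ge_atTop _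
    filter_upwards [h, h', eventually_ge_atTop (1 : ℝ)] with T hT hT' hT1
    have hT0 : 0 < T := by linarith
    rw [Real.norm_of_nonneg (Real.log_nonneg hT1), Real.norm_of_nonneg (by positivity)] at hT
    have h4 : 4 * Real.log T ≤ T ^ (c / 2048) := by linarith
    have h5 : 0 ≤ 4 * Real.log T := by
      have := Real.log_nonneg hT1
      positivity
    have h6 : (4 * Real.log T) ^ 4 ≤ T ^ (c / 512) := by
      calc (4 * Real.log T) ^ 4 ≤ (T ^ (c / 2048)) ^ 4 := pow_le_pow_left₀ h5 h4 4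
        _ = T ^ (c / 512) := by
            rw [← Real.rpow_natCast, ← Real.rpow_mul hT0.le]
            congr 1
            push_cast
            ring
    have h7 : (4 * Real.log T) ^ 4 * T ^ (1 - c / 64) ≤ T ^ (1 - c / 64 + c / 512) := by
      rw [Real.rpow_add hT0, mul_comm]
      exact mul_le_mul_of_nonneg_left h6 (by positivity)
    have h8 : T ^ (1 - c) ≤ T ^ (1 - c / 64 + c / 512) :=
      Real.rpow_le_rpow_of_exponent_le hT1 (by linarith)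
    have hC : 0 ≤ C1 + C2 + C3 := by positivity
    calc 1 * T ^ (1 - c) + (C1 + C2 + C3) * ((4 * Real.log T) ^ 4 * T ^ (1 - c / 64))
        ≤ 1 * T ^ (1 - c / 64 + c / 512) + (C1 + C2 + C3) * T ^ (1 - c / 64 + c / 512) :=
          add_le_add (mul_le_mul_of_nonneg_left h8 zero_le_one)
            (mul_le_mul_of_nonneg_left h7 hC)
      _ = (1 + (C1 + C2 + C3)) * T ^ (1 - c / 64 + c / 512) := by ring
      _ ≤ T ^ (c / 512) * T ^ (1 - c / 64 + c / 512) :=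
          mul_le_mul_of_nonneg_right hT' (by positivity)
      _ = T ^ (c / 512 + (1 - c / 64 + c / 512)) := (Real.rpow_add hT0 _ _).symm
      _ ≤ T ^ (1 - c / 128) := Real.rpow_le_rpow_of_exponent_le hT1 (by linarith)
  filter_upwards [nonCk hκ hη' hρ c hc hA, ZZk_vau hκ hη' hρ c hc hA,
    ZZk_box hX' hκ hη' hρ c hc hA, h1, h2, h3, hlog, eventually_ge_atTop (Real.exp 1)] with
    T hn hv hb k1 k2 k3 hl hTe α hα a b ha hb1
  have he : 1 < Real.exp 1 := by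
    have := Real.add_one_lt_exp (x := 1) one_ne_zero
    linarith
  have hT0 : 0 < T := by linarith
  have hJ := Gg.ErrAux.Jd_le hTe
  have hp : ∀ i : ℕ, 1 ≤ 2 ^ i := fun i => Nat.one_le_two_pow
  have hJ4 : (Jd T : ℝ) ^ 4 ≤ (4 * Real.log T) ^ 4 := pow_le_pow_left₀ (Nat.cast_nonneg _) hJ 4
  set Z : ℝ := (4 * Real.log T) ^ 4 * T ^ (1 - c / 64) with hZ
  have hbox : ∀ (f g : ℕ → ℝ) (C : ℝ), 0 ≤ C → (∀ M K P Q : ℕ, 1 ≤ M → 1 ≤ K → 1 ≤ P → 1 ≤ Q →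
      ‖BXk η ρ (max X 0) A₀ c α T a b (cs f) (cs g) M K P Q‖ ≤ C * T ^ (1 - c / 64)) →
      ‖ZZk η ρ A₀ c α T a b (cv f g)‖ ≤ C * Z := by
    intro f g C hC h
    rw [hb α hα a b f g]
    refine (gkErr_quad (Jd T) _ fun e i j l => h _ _ _ _ (hp e) (hp i) (hp j) (hp l)).trans ?_
    calc (Jd T : ℝ) ^ 4 * (C * T ^ (1 - c / 64)) = C * ((Jd T : ℝ) ^ 4 * T ^ (1 - c / 64)) := by
          ring
      _ ≤ C * Z := by
          refine mul_le_mul_of_nonneg_left ?_ hC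
          rw [hZ]
          exact mul_le_mul_of_nonneg_right hJ4 (by positivity)
  have z1 := hbox _ _ C1 hC1 (k1 α hα a b ha hb1)
  have z2 := hbox _ _ C2 hC2 (k2 α hα a b ha hb1)
  have z3 := hbox _ _ C3 hC3 (k3 α hα a b ha hb1)
  have e1 : XK η ρ A₀ c α T a b - X0K η ρ A₀ c α T a b =
      (XK η ρ A₀ c α T a b - X0K η ρ A₀ c α T a b - ZZk η ρ A₀ c α T a b (fun n => Λ n)) +
        (ZZk η ρ A₀ c α T a b (cv (a1 (uV c α T)) g1) -
          ZZk η ρ A₀ c α T a b (cv (a2 (uV c α T)) g2) +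
          ZZk η ρ A₀ c α T a b (cv (a3 (uV c α T)) (g3 (uV c α T)))) := by
    rw [← hv α hα a b]
    ring
  rw [e1]
  refine (norm_add_le _ _).trans ?_
  have h6 := hn α hα a b ha hb1
  have h7 := norm_add_le (ZZk η ρ A₀ c α T a b (cv (a1 (uV c α T)) g1) -
    ZZk η ρ A₀ c α T a b (cv (a2 (uV c α T)) g2))
    (ZZk η ρ A₀ c α T a b (cv (a3 (uV c α T)) (g3 (uV c α T))))
  have h8 := norm_sub_le (ZZk η ρ A₀ c α T a b (cv (a1 (uV c α T)) g1))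
    (ZZk η ρ A₀ c α T a b (cv (a2 (uV c α T)) g2))
  have h9 : (C1 + C2 + C3) * Z = C1 * Z + C2 * Z + C3 * Z := by ring
  linarith

end Pool.Agent.MP_67227b_nt.Gk
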