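import Mathlib
import Pool.Agent.MP_67227b_nt.Gk.GkDefs

set_option autoImplicit false

/-! Project GK, block LOW: definitions. -/

open Filter Topology Set MeasureTheory Complex
open scoped Real ContDiff ArithmeticFunction ArithmeticFunction.Moebius

namespace Pool.Agent.MP_67227b_nt.Gk

open Pool.Agent.MP_67227b_nt.Gg (Eta Rho wt ex PP)

/-- The indices `(m, (A, B))` of the fractions `B/(mA)` of the test function. -/
noncomputable def Ix (A₀ c α T : ℝ) : Finset (ℕ × ℕ × ℕ) :=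
  (Mk A₀ T ×ˢ (Ak A₀ c α T ×ˢ Finset.Icc 1 ⌊T⌋₊)).filter fun x => x.2.2.Coprime (x.1 * x.2.1)

/-- The coefficient `(1/m) μ(A)/φ(A)` of a fraction. -/
noncomputable def co (x : ℕ × ℕ × ℕ) : ℝ :=
  1 / (x.1 : ℝ) * ((μ x.2.1 : ℝ) / (Nat.totient x.2.1 : ℝ))

/-- The function of one fraction:
`e^{v/2} η(v - log m - αL) ρ(2π(e^v/m)B/(AT)) e(e^v B/(mA))`. -/
noncomputable def fr (η ρ : ℝ → ℝ) (α T : ℝ) (x : ℕ × ℕ × ℕ) (v : ℝ) : ℂ :=
  ((Real.exp (v / 2) * η (v - Real.log x.1 - α * Real.log T) *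
    wt ρ T x.2.1 x.2.2 (Real.exp v / x.1) : ℝ) : ℂ) *
      ex (Real.exp v * ((x.2.2 : ℝ) / (x.1 * x.2.1)))

/-- The transform `∫ f(v) e^{-itv} dv`. -/
noncomputable def FT (f : ℝ → ℂ) (t : ℝ) : ℂ := ∫ v : ℝ, f v * Complex.exp (-(I * t * v))

theorem Wk_eq_FT (η ρ : ℝ → ℝ) (A₀ c α T : ℝ) (b : ℕ → ℂ) :
    Wk η ρ A₀ c α T b = FT (fW η ρ A₀ c α T b) := rfl

end Pool.Agent.MP_67227b_nt.Gk
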