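import Mathlib
import Pool.Agent.MP_67227b_nt.Gk.GkLd
import Pool.Agent.MP_67227b_nt.Mo.MoDefs

set_option autoImplicit false

open Filter Topology Set MeasureTheory Complex
open scoped Real ContDiff ArithmeticFunction ArithmeticFunction.Moebius

namespace Pool.Agent.MP_67227b_nt.Gk

open Pool.Agent.MP_67227b_nt.Gg (Eta Rho wt ex PP)
open Pool.Agent.MP_67227b_nt.Mo (Bump gs)

/-- The sum over the index set, written out. -/
private theorem LA_sum {M : Type*} [AddCommMonoid M] (A₀ c α T : ℝ) (f : ℕ × ℕ × ℕ → M) :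
    ∑ x ∈ Ix A₀ c α T, f x =
      ∑ m ∈ Mk A₀ T, ∑ A ∈ Ak A₀ c α T, ∑ B ∈ Bk T m A, f (m, A, B) := by
  unfold Ix
  rw [Finset.sum_filter, Finset.sum_product]
  refine Finset.sum_congr rfl fun m _ => ?_
  rw [Finset.sum_product]
  refine Finset.sum_congr rfl fun A _ => ?_
  unfold Bk
  rw [Finset.sum_filter]

/-- Module LA1. The function `f_W` as a sum over the fractions (`Ek` written out, the sum over
`m, A, B` as one sum over `Ix`; note `(e^v/m) B/A = e^v (B/(mA))` and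
`wt ρ T A B (e^v/m)` is the same). -/
theorem fW_eq (η ρ : ℝ → ℝ) (A₀ c α T : ℝ) (b : ℕ → ℂ) (v : ℝ) :
    fW η ρ A₀ c α T b v = ∑ x ∈ Ix A₀ c α T, b x.1 * ((co x : ℝ) : ℂ) * fr η ρ α T x v := by
  rw [LA_sum]
  unfold fW
  rw [Finset.mul_sum]
  refine Finset.sum_congr rfl fun m _ => ?_
  unfold Ek
  rw [Finset.mul_sum, Finset.mul_sum]
  refine Finset.sum_congr rfl fun A _ => ?_
  rw [Finset.mul_sum, Finset.mul_sum]
  refine Finset.sum_congr rfl fun B _ => ?_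
  unfold co fr
  have h1 : ex (Real.exp v / m * B / A) = ex (Real.exp v * ((B : ℝ) / (m * A))) := by
    congr 1
    ring
  rw [h1]
  push_cast
  ring

/-- Module LA2. One fraction is smooth (in `v`) and vanishes outside
`|v| ≤ X + (A₀ + α) log T` (there `1 ≤ m ≤ T^{A₀}`). Model: `Gg.bump_fV`. -/
theorem bump_fr {X κ : ℝ} {η ρ : ℝ → ℝ} (hη : Eta X η) (hρ : Rho κ ρ) {A₀ c α T : ℝ}
    (hT : 1 ≤ T) (hα : 0 ≤ α) {x : ℕ × ℕ × ℕ} (hx : x ∈ Ix A₀ c α T) :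
    Bump (X + (A₀ + α) * Real.log T) (fr η ρ α T x) := by
  have hT0 : 0 < T := by linarith
  have hL : 0 ≤ Real.log T := Real.log_nonneg hT
  refine ⟨?_, fun v hv => ?_⟩
  · have h1 : ContDiff ℝ ∞ fun v : ℝ => Real.exp (v / 2) *
        η (v - Real.log x.1 - α * Real.log T) := by
      have : ContDiff ℝ ∞ fun v : ℝ => η (v - Real.log x.1 - α * Real.log T) :=
        hη.smooth.comp (by fun_prop)
      exact (by fun_prop : ContDiff ℝ ∞ fun v : ℝ => Real.exp (v / 2)).mul this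
    have h4 : ContDiff ℝ ∞ fun v : ℝ => wt ρ T x.2.1 x.2.2 (Real.exp v / x.1) := by
      unfold wt
      refine hρ.smooth.comp ?_
      exact ((contDiff_const.mul (Real.contDiff_exp.div_const _)).mul contDiff_const).div_const _
    have h5 : ContDiff ℝ ∞ fun v : ℝ => ((Real.exp (v / 2) *
        η (v - Real.log x.1 - α * Real.log T) *
        wt ρ T x.2.1 x.2.2 (Real.exp v / x.1) : ℝ) : ℂ) := ofRealCLM.contDiff.comp (h1.mul h4)
    have h6 : ContDiff ℝ ∞ fun v : ℝ => ex (Real.exp v * ((x.2.2 : ℝ) / (x.1 * x.2.1))) := by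
      unfold ex
      have h7 : ContDiff ℝ ∞ fun v : ℝ => ((Real.exp v * ((x.2.2 : ℝ) / (x.1 * x.2.1)) : ℝ) : ℂ) :=
        ofRealCLM.contDiff.comp (Real.contDiff_exp.mul contDiff_const)
      exact (contDiff_const.mul h7).cexp
    exact h5.mul h6
  · have hm : 1 ≤ x.1 ∧ x.1 ≤ ⌊T ^ A₀⌋₊ := by
      unfold Ix Mk at hx
      rw [Finset.mem_filter, Finset.mem_product, Finset.mem_Icc] at hx
      exact hx.1.1
    have hm1 : (1 : ℝ) ≤ x.1 := by exact_mod_cast hm.1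
    have hm2 : (x.1 : ℝ) ≤ T ^ A₀ :=
      (Nat.le_floor_iff (Real.rpow_nonneg hT0.le _)).1 hm.2
    have hl0 : 0 ≤ Real.log x.1 := Real.log_nonneg hm1
    have hl1 : Real.log x.1 ≤ A₀ * Real.log T := by
      rw [← Real.log_rpow hT0]
      exact Real.log_le_log (by linarith) hm2
    have h1 : X < |v - Real.log x.1 - α * Real.log T| := by
      have h2 : |v| - |Real.log x.1 + α * Real.log T| ≤
          |v - (Real.log x.1 + α * Real.log T)| := abs_sub_abs_le_abs_sub _ _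
      have h3 : 0 ≤ α * Real.log T := mul_nonneg hα hL
      have h4 : |Real.log x.1 + α * Real.log T| = Real.log x.1 + α * Real.log T :=
        abs_of_nonneg (by linarith)
      rw [h4] at h2
      rw [sub_sub]
      have h5 : (A₀ + α) * Real.log T = A₀ * Real.log T + α * Real.log T := add_mul _ _ _
      rw [h5] at hv
      linarith
    unfold fr
    rw [hη.supp _ h1]
    simp

/-- Module LA3. The same for `f_W` (finite sums, `fW_eq`). -/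
theorem bump_fW {X κ : ℝ} {η ρ : ℝ → ℝ} (hη : Eta X η) (hρ : Rho κ ρ) {A₀ : ℝ} (c : ℝ)
    {α T : ℝ} (hT : 1 ≤ T) (hα : 0 ≤ α) (b : ℕ → ℂ) :
    Bump (X + (A₀ + α) * Real.log T) (fW η ρ A₀ c α T b) := by
  have h0 : fW η ρ A₀ c α T b = fun v => ∑ x ∈ Ix A₀ c α T,
      b x.1 * ((co x : ℝ) : ℂ) * fr η ρ α T x v := funext fun v => fW_eq η ρ A₀ c α T b v
  rw [h0]
  refine ⟨?_, fun v hv => ?_⟩
  · exact ContDiff.sum fun x hx => contDiff_const.mul (bump_fr hη hρ hT hα hx).smooth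
  · exact Finset.sum_eq_zero fun x hx => by
      rw [(bump_fr hη hρ hT hα hx).supp v hv, mul_zero]

/-- Module LA4. The coefficients and the number of the fractions: `|co x| ≤ 1` and
`#Ix ≤ T^{A₀} T^{1/2-A₀-c} T ≤ T^{3/2}` (`0 ≤ c`, `1 ≤ T`; also `1 ≤ m`, `1 ≤ A`, `1 ≤ B`,
`mA ≤ T^{1/2-c}`, `m ≤ T^{A₀}` and `(B, mA) = 1`). -/
theorem co_le (x : ℕ × ℕ × ℕ) : |co x| ≤ 1 := by
  unfold co
  rw [abs_mul]
  have h1 : |1 / (x.1 : ℝ)| ≤ 1 := by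
    rcases Nat.eq_zero_or_pos x.1 with h | h
    · rw [h]; simp
    · have h2 : (1 : ℝ) ≤ x.1 := by exact_mod_cast h
      rw [abs_of_nonneg (by positivity), div_le_one (by linarith)]
      exact h2
  have h2 : |(μ x.2.1 : ℝ) / (Nat.totient x.2.1 : ℝ)| ≤ 1 := by
    rw [abs_div]
    have h2 : |(μ x.2.1 : ℝ)| ≤ 1 := by
      have := ArithmeticFunction.abs_moebius_le_one (n := x.2.1)
      exact_mod_cast this
    by_cases h3 : Nat.totient x.2.1 = 0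
    · rw [h3]
      simp
    · have h4 : (1 : ℝ) ≤ |(Nat.totient x.2.1 : ℝ)| := by
        rw [abs_of_nonneg (Nat.cast_nonneg _)]
        exact_mod_cast Nat.one_le_iff_ne_zero.2 h3
      rw [div_le_one (by linarith)]
      linarith
  calc |1 / (x.1 : ℝ)| * |(μ x.2.1 : ℝ) / (Nat.totient x.2.1 : ℝ)| ≤ 1 * 1 :=
        mul_le_mul h1 h2 (abs_nonneg _) zero_le_one
    _ = 1 := one_mul 1

theorem Ix_mem {A₀ c α T : ℝ} (hT : 1 ≤ T) {x : ℕ × ℕ × ℕ} (hx : x ∈ Ix A₀ c α T) :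
    0 < x.1 ∧ 0 < x.2.1 ∧ 0 < x.2.2 ∧ (x.1 : ℝ) ≤ T ^ A₀ ∧
      ((x.1 : ℝ) * x.2.1) ≤ T ^ (1 / 2 - c) ∧ x.2.2.Coprime (x.1 * x.2.1) := by
  have hT0 : 0 < T := by linarith
  unfold Ix Mk Ak at hx
  rw [Finset.mem_filter, Finset.mem_product, Finset.mem_product, Finset.mem_Icc,
    Finset.mem_Ioc, Finset.mem_Icc] at hx
  obtain ⟨⟨⟨m1, m2⟩, ⟨a1, a2⟩, b1, b2⟩, hc⟩ := hx
  have hm2 : (x.1 : ℝ) ≤ T ^ A₀ := (Nat.le_floor_iff (Real.rpow_nonneg hT0.le _)).1 m2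
  have ha2 : (x.2.1 : ℝ) ≤ T ^ (1 / 2 - A₀ - c) :=
    (Nat.le_floor_iff (Real.rpow_nonneg hT0.le _)).1 a2
  refine ⟨m1, by omega, b1, hm2, ?_, hc⟩
  calc (x.1 : ℝ) * x.2.1 ≤ T ^ A₀ * T ^ (1 / 2 - A₀ - c) :=
        mul_le_mul hm2 ha2 (Nat.cast_nonneg _) (Real.rpow_nonneg hT0.le _)
    _ = T ^ (1 / 2 - c) := by
        rw [← Real.rpow_add hT0]
        congr 1
        ring

theorem card_Ix {A₀ c α T : ℝ} (hc : 0 ≤ c) (hT : 1 ≤ T) :
    ((Ix A₀ c α T).card : ℝ) ≤ T ^ (3 / 2 : ℝ) := by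
  have hT0 : 0 < T := by linarith
  have h1 : (Ix A₀ c α T).card ≤ ⌊T ^ A₀⌋₊ * (⌊T ^ (1 / 2 - A₀ - c)⌋₊ * ⌊T⌋₊) := by
    unfold Ix Mk Ak
    refine (Finset.card_filter_le _ _).trans ?_
    rw [Finset.card_product, Finset.card_product, Nat.card_Icc, Nat.card_Icc, Nat.card_Ioc,
      Nat.add_sub_cancel, Nat.add_sub_cancel]
    exact Nat.mul_le_mul_left _ (Nat.mul_le_mul_right _ (Nat.sub_le _ _))
  have h2 : ((Ix A₀ c α T).card : ℝ) ≤
      (⌊T ^ A₀⌋₊ : ℝ) * ((⌊T ^ (1 / 2 - A₀ - c)⌋₊ : ℝ) * (⌊T⌋₊ : ℝ)) := by exact_mod_cast h1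
  refine h2.trans ?_
  have e1 : (⌊T ^ A₀⌋₊ : ℝ) ≤ T ^ A₀ := Nat.floor_le (Real.rpow_nonneg hT0.le _)
  have e2 : (⌊T ^ (1 / 2 - A₀ - c)⌋₊ : ℝ) ≤ T ^ (1 / 2 - A₀ - c) :=
    Nat.floor_le (Real.rpow_nonneg hT0.le _)
  have e3 : (⌊T⌋₊ : ℝ) ≤ T := Nat.floor_le hT0.le
  calc (⌊T ^ A₀⌋₊ : ℝ) * ((⌊T ^ (1 / 2 - A₀ - c)⌋₊ : ℝ) * (⌊T⌋₊ : ℝ))
      ≤ T ^ A₀ * (T ^ (1 / 2 - A₀ - c) * T) := by gcongr
    _ = T ^ (3 / 2 - c) := by
        nth_rewrite 3 [← Real.rpow_one T]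
        rw [← Real.rpow_add hT0, ← Real.rpow_add hT0]
        congr 1
        ring
    _ ≤ T ^ (3 / 2 : ℝ) := Real.rpow_le_rpow_of_exponent_le hT (by linarith)

/-- Module LA5. The weight `P` is continuous and at most `T ^ A₀` (trivially
`∑_{m ≤ T^{A₀}} m^{-1/2} ≤ ⌊T^{A₀}⌋₊`). -/
theorem continuous_Pw (A₀ T : ℝ) (a : ℕ → ℂ) : Continuous (Pw A₀ T a) := by
  unfold Pw
  refine continuous_finsetSum _ fun n hn => ?_
  have hn0 : (n : ℂ) ≠ 0 := by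
    unfold Mk at hn
    rw [Finset.mem_Icc] at hn
    exact_mod_cast (by omega : n ≠ 0)
  refine continuous_const.mul ?_
  exact Continuous.const_cpow (by fun_prop) (Or.inl hn0)

theorem norm_Pw_le {A₀ T : ℝ} (hT : 0 < T) {a : ℕ → ℂ} (ha : ∀ m, ‖a m‖ ≤ 1) (t : ℝ) :
    ‖Pw A₀ T a t‖ ≤ T ^ A₀ := by
  unfold Pw
  refine (norm_sum_le _ _).trans ?_
  have h1 : ∀ m ∈ Mk A₀ T, ‖a m * (m : ℂ) ^ (-(1 / 2 + (t : ℂ) * I))‖ ≤ 1 := by
    intro m hm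
    unfold Mk at hm
    rw [Finset.mem_Icc] at hm
    have hm0 : 0 < m := by omega
    have hm1 : (1 : ℝ) ≤ m := by exact_mod_cast hm.1
    rw [norm_mul, Complex.norm_natCast_cpow_of_pos hm0]
    have e1 : (-(1 / 2 + (t : ℂ) * I)).re = -(1 / 2) := by simp
    rw [e1]
    have h2 : (m : ℝ) ^ (-(1 / 2) : ℝ) ≤ 1 :=
      Real.rpow_le_one_of_one_le_of_nonpos hm1 (by norm_num)
    calc ‖a m‖ * (m : ℝ) ^ (-(1 / 2) : ℝ) ≤ 1 * 1 :=
          mul_le_mul (ha m) h2 (by positivity) zero_le_one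
      _ = 1 := one_mul 1
  refine (Finset.sum_le_sum h1).trans ?_
  rw [Finset.sum_const, nsmul_eq_mul, mul_one]
  unfold Mk
  rw [Nat.card_Icc, Nat.add_sub_cancel]
  exact Nat.floor_le (Real.rpow_nonneg hT.le _)

end Pool.Agent.MP_67227b_nt.Gk
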