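import Mathlib
import Pool.Agent.MP_67227b_nt.Gk.GkLd
import Pool.Agent.MP_67227b_nt.Mo.Four

set_option autoImplicit false

open Filter Topology Set MeasureTheory Complex
open scoped Real ContDiff ArithmeticFunction ArithmeticFunction.Moebius

namespace Pool.Agent.MP_67227b_nt.Gk

open Pool.Agent.MP_67227b_nt.Gg (Eta Rho wt ex PP)
open Pool.Agent.MP_67227b_nt.Mo (Bump gs)

/-- Module LB1. `FT` in terms of `gs` (model: `Gg.VV_eq_gs`). -/
theorem FT_eq_gs (f : ℝ → ℂ) (t : ℝ) : FT f t = gs f (((-t) / (2 * π) : ℝ) : ℂ) := by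
  unfold FT gs
  refine integral_congr_ae (Eventually.of_forall fun v => ?_)
  simp only
  congr 2
  have hpi : (π : ℂ) ≠ 0 := by exact_mod_cast Real.pi_ne_zero
  push_cast
  field_simp

private theorem LB_ne : (-(1 / (2 * π)) : ℝ) ≠ 0 := by
  have := Real.pi_pos
  have : 0 < 1 / (2 * π) := by positivity
  linarith

private theorem LB_FT (f : ℝ → ℂ) (t : ℝ) :
    FT f t = gs f (((-(1 / (2 * π)) * t : ℝ)) : ℂ) := by
  rw [FT_eq_gs]
  congr 2
  ring

/-- Continuity and integrability (models in `Gg/GgPl.lean`, where only the `Bump` property is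
used). -/
theorem continuous_FT {δ : ℝ} (hδ : 0 ≤ δ) {f : ℝ → ℂ} (hf : Bump δ f) : Continuous (FT f) := by
  have h := Mo.continuous_gs hδ hf
  have e : FT f = fun t => gs f (((-(1 / (2 * π)) * t : ℝ)) : ℂ) := funext fun t => LB_FT f t
  rw [e]
  exact h.comp (continuous_ofReal.comp (by fun_prop))

theorem integrable_FT {δ : ℝ} (hδ : 0 ≤ δ) {f : ℝ → ℂ} (hf : Bump δ f) : Integrable (FT f) := by
  have h := Mo.integrable_gs hδ hf 0
  simp only [ofReal_zero, zero_mul, add_zero] at h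
  have h2 := h.comp_mul_left' LB_ne
  refine h2.congr (Eventually.of_forall fun t => ?_)
  exact (LB_FT f t).symm

theorem integrable_FT_sq {δ : ℝ} (hδ : 0 ≤ δ) {f : ℝ → ℂ} (hf : Bump δ f) :
    Integrable fun t => ‖FT f t‖ ^ 2 := by
  obtain ⟨C, hC⟩ : ∃ C : ℝ, ∀ t, ‖FT f t‖ ≤ C := by
    obtain ⟨C, hC, h⟩ := Mo.gs_real_bound hδ hf 0
    refine ⟨C, fun t => ?_⟩
    rw [LB_FT]
    have := h (-(1 / (2 * π)) * t)
    simpa using this
  refine ((integrable_FT hδ hf).norm.const_mul C).mono' ?_ ?_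
  · exact ((continuous_FT hδ hf).norm.pow 2).aestronglyMeasurable
  · refine Eventually.of_forall fun t => ?_
    rw [Real.norm_of_nonneg (by positivity), sq]
    exact mul_le_mul_of_nonneg_right (hC t) (norm_nonneg _)

private theorem LB_conj (f : ℝ → ℂ) (x : ℝ) :
    gs (fun v => (starRingEnd ℂ) (f (-v))) (x : ℂ) = (starRingEnd ℂ) (gs f (x : ℂ)) := by
  unfold gs
  rw [← integral_conj, ← integral_neg_eq_self]
  refine integral_congr_ae (Eventually.of_forall fun v => ?_)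
  simp only [neg_neg, map_mul]
  congr 1
  rw [← Complex.exp_conj]
  congr 1
  simp only [map_mul, Complex.conj_ofReal, Complex.conj_I, map_ofNat, Complex.ofReal_neg]
  ring

/-- Module LB2. Plancherel (model: `Gg.plancherel_VV`). -/
theorem plancherel_FT {δ : ℝ} (hδ : 0 ≤ δ) {f : ℝ → ℂ} (hf : Bump δ f) :
    ∫ t : ℝ, ‖FT f t‖ ^ 2 = 2 * π * ∫ v : ℝ, ‖f v‖ ^ 2 := by
  have hb2 : Bump δ (fun v => (starRingEnd ℂ) (f (-v))) := by
    refine ⟨?_, fun v hv => ?_⟩
    · exact (Complex.conjCLE.contDiff).comp (hf.smooth.comp contDiff_neg)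
    · rw [hf.supp (-v) (by rwa [abs_neg]), map_zero]
  have h := Mo.integral_gs_mul_gs hδ hδ hf hb2 one_pos 0 0
  have e1 : ∀ t : ℝ, gs f (((0 - t) * 1 / (2 * π) : ℝ) : ℂ) *
      gs (fun v => (starRingEnd ℂ) (f (-v))) (((0 - t) * 1 / (2 * π) : ℝ) : ℂ) =
      ((‖FT f t‖ ^ 2 : ℝ) : ℂ) := by
    intro t
    rw [LB_conj, Complex.mul_conj, Complex.normSq_eq_norm_sq, FT_eq_gs]
    congr 5
    simp
  simp only [e1] at h
  rw [integral_complex_ofReal] at h
  have e2 : gs (fun ξ => f ξ * (starRingEnd ℂ) (f (- -ξ))) (((0 - 0) * 1 / (2 * π) : ℝ) : ℂ) =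
      ((∫ v : ℝ, ‖f v‖ ^ 2 : ℝ) : ℂ) := by
    rw [← integral_complex_ofReal]
    unfold gs
    refine integral_congr_ae (Eventually.of_forall fun v => ?_)
    simp only [neg_neg, sub_zero, zero_div, ofReal_zero, mul_zero, Complex.exp_zero,
      mul_one]
    rw [Complex.mul_conj, Complex.normSq_eq_norm_sq]
  rw [e2, div_one] at h
  exact_mod_cast h

/-- Module LB3. Fourier inversion at a point (model: `pl_inv` in `Gg/GgPl.lean`). -/
theorem inversion_FT {δ : ℝ} (hδ : 0 ≤ δ) {f : ℝ → ℂ} (hf : Bump δ f) (v : ℝ) :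
    ∫ t : ℝ, Complex.exp (I * t * v) * FT f t = 2 * π * f v := by
  have h := Mo.integral_gs_exp hδ hf 0 v
  simp only [ofReal_zero, zero_mul, add_zero, mul_zero, neg_zero, Real.exp_zero, ofReal_one,
    mul_one] at h
  have h2 := Measure.integral_comp_mul_left
    (fun s : ℝ => gs f (s : ℂ) * Complex.exp (-(2 * π * I * v * s)))
    (-(1 / (2 * π)))
  rw [h] at h2
  have e1 : ∀ t : ℝ, gs f ((-(1 / (2 * π)) * t : ℝ) : ℂ) *
      Complex.exp (-(2 * π * I * v * ((-(1 / (2 * π)) * t : ℝ) : ℂ))) =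
      Complex.exp (I * t * v) * FT f t := by
    intro t
    rw [LB_FT, mul_comm]
    congr 2
    have hpi : (π : ℂ) ≠ 0 := by exact_mod_cast Real.pi_ne_zero
    push_cast
    field_simp
  simp only [e1] at h2
  rw [h2]
  have hpi := Real.pi_pos
  have e2 : |(-(1 / (2 * π)))⁻¹| = 2 * π := by
    rw [abs_inv, abs_neg, abs_of_pos (by positivity)]
    field_simp
  rw [e2, Complex.real_smul]
  push_cast
  ring

end Pool.Agent.MP_67227b_nt.Gk
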