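import Mathlib
import Pool.Agent.MP_67227b_nt.Gk.GkLa
import Pool.Agent.MP_67227b_nt.Gk.GkLb

set_option autoImplicit false

open Filter Topology Set MeasureTheory Complex
open scoped Real ContDiff ArithmeticFunction ArithmeticFunction.Moebius

namespace Pool.Agent.MP_67227b_nt.Gk

open Pool.Agent.MP_67227b_nt.Gg (Eta Rho wt ex PP)
open Pool.Agent.MP_67227b_nt.Mo (Bump gs)

/-- Module LC1. The model at `w = nm`: for `n, m ≥ 1`,
`f_W(log(nm)) = (nm)^{1/2} ∑_{m'} (b_{m'}/m') η(log(nm/m') - αL) E_{m'}(nm/m')`, with `E` written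
out as in `XK`. -/
theorem fW_log (η ρ : ℝ → ℝ) (A₀ c α T : ℝ) (b : ℕ → ℂ) {n m : ℕ} (hn : 0 < n) (hm : 0 < m) :
    fW η ρ A₀ c α T b (Real.log ((n : ℝ) * m)) =
      ((((n : ℝ) * m) ^ (1 / 2 : ℝ) : ℝ) : ℂ) * ∑ m' ∈ Mk A₀ T, b m' * ((1 / (m' : ℝ) : ℝ) : ℂ) *
        ∑ A ∈ Ak A₀ c α T, (((μ A : ℝ) / (Nat.totient A : ℝ) : ℝ) : ℂ) * ∑ B ∈ Bk T m' A,
          ((η (Real.log (n * m / m') - α * Real.log T) * wt ρ T A B (n * m / m') : ℝ) : ℂ) *
            ex ((n : ℝ) * m * B / (m' * A)) := by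
  have hn0 : (0 : ℝ) < n := by exact_mod_cast hn
  have hm0 : (0 : ℝ) < m := by exact_mod_cast hm
  have hnm : (0 : ℝ) < (n : ℝ) * m := by positivity
  unfold fW
  have e1 : Real.exp (Real.log ((n : ℝ) * m) / 2) = ((n : ℝ) * m) ^ (1 / 2 : ℝ) := by
    rw [Real.rpow_def_of_pos hnm]
    congr 1
    ring
  rw [e1, Real.exp_log hnm]
  congr 1
  refine Finset.sum_congr rfl fun m' hm' => ?_
  have hm0' : (0 : ℝ) < m' := by
    unfold Mk at hm'
    rw [Finset.mem_Icc] at hm'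
    exact_mod_cast (by omega : 0 < m')
  have e2 : Real.log ((n : ℝ) * m) - Real.log m' = Real.log ((n : ℝ) * m / m') := by
    rw [Real.log_div hnm.ne' hm0'.ne']
  rw [e2]
  unfold Ek
  rw [Finset.mul_sum, Finset.mul_sum]
  refine Finset.sum_congr rfl fun A _ => ?_
  rw [Finset.mul_sum, Finset.mul_sum, Finset.mul_sum]
  refine Finset.sum_congr rfl fun B _ => ?_
  have e3 : (n : ℝ) * m / m' * B / A = (n : ℝ) * m * B / (m' * A) := by
    rw [div_mul_eq_mul_div, div_div]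
  rw [e3]
  push_cast
  ring

private theorem LC_conj_ex (x : ℝ) : (starRingEnd ℂ) (ex x) = ex (-x) := by
  unfold ex
  rw [← Complex.exp_conj]
  congr 1
  simp only [map_mul, Complex.conj_ofReal, Complex.conj_I, map_ofNat, Complex.ofReal_neg]
  ring

private theorem LC_cpow {n : ℕ} (hn : 0 < n) (t : ℝ) : (n : ℂ) ^ (-(1 / 2 + (t : ℂ) * I)) =
    ((Real.exp (-(Real.log n / 2)) : ℝ) : ℂ) *
      (starRingEnd ℂ) (Complex.exp (I * t * (Real.log n : ℝ))) := by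
  have hn0 : (n : ℂ) ≠ 0 := by exact_mod_cast hn.ne'
  rw [Complex.cpow_def_of_ne_zero hn0, ← Complex.natCast_log, ← Complex.exp_conj,
    Complex.ofReal_exp, ← Complex.exp_add]
  congr 1
  simp only [map_mul, Complex.conj_ofReal, Complex.conj_I]
  push_cast
  ring

private theorem LC_term (η : ℝ → ℝ) (α T : ℝ) (a : ℕ → ℂ) (W : ℝ → ℂ) {n m : ℕ} (hn : 0 < n)
    (hm : 0 < m) (t : ℝ) :
    a m * (m : ℂ) ^ (-(1 / 2 + (t : ℂ) * I)) *
      (((Λ n * η (Real.log n - α * Real.log T) : ℝ) : ℂ) * (n : ℂ) ^ (-(1 / 2 + (t : ℂ) * I))) *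
        (starRingEnd ℂ) (W t) =
      a m * ((Λ n * η (Real.log n - α * Real.log T) *
        Real.exp (-(Real.log ((n : ℝ) * m) / 2)) : ℝ) : ℂ) *
        (starRingEnd ℂ) (Complex.exp (I * t * (Real.log ((n : ℝ) * m) : ℝ)) * W t) := by
  have hn0 : (0 : ℝ) < n := by exact_mod_cast hn
  have hm0 : (0 : ℝ) < m := by exact_mod_cast hm
  rw [LC_cpow hn, LC_cpow hm, Real.log_mul hn0.ne' hm0.ne']
  have e1 : Real.exp (-((Real.log n + Real.log m) / 2)) =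
      Real.exp (-(Real.log n / 2)) * Real.exp (-(Real.log m / 2)) := by
    rw [← Real.exp_add]
    congr 1
    ring
  have e2 : Complex.exp (I * t * ((Real.log n + Real.log m : ℝ) : ℂ)) =
      Complex.exp (I * t * (Real.log n : ℝ)) * Complex.exp (I * t * (Real.log m : ℝ)) := by
    rw [← Complex.exp_add]
    congr 1
    push_cast
    ring
  rw [e1, e2]
  simp only [map_mul]
  push_cast
  ring

/-- Module LC2. The correlation with the test function, exactly.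

PROOF. `P(t) PP(t) = ∑_m ∑_n a_m Λ(n) η(log n - αL) (nm)^{-1/2} e^{-it log(nm)}`; for each pair
`∫ e^{-it log(nm)} conj (FT f t) dt = conj (∫ e^{it log(nm)} FT f t dt) = 2π conj f(log(nm))`
(`inversion_FT` with `f = fW ..`, `bump_fW`; `max X 0` in place of `X`), then `fW_log` and
rearranging (`conj (ex x) = ex (-x)`). Model: `Gg.inversion_VV`. -/
theorem inversion_Wk {X κ : ℝ} {η ρ : ℝ → ℝ} (hη : Eta X η) (hρ : Rho κ ρ) {A₀ : ℝ} (hA : 0 ≤ A₀)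
    (c : ℝ) {α T : ℝ} (hT : 1 ≤ T) (hα : 0 ≤ α) (a b : ℕ → ℂ) :
    ∫ t : ℝ, Pw A₀ T a t * PP η α T t * (starRingEnd ℂ) (Wk η ρ A₀ c α T b t) =
      2 * π * XK η ρ A₀ c α T a b := by
  have hη' : Eta (max X 0) η := ⟨hη.smooth, fun v hv => hη.supp v
    (lt_of_le_of_lt (le_max_left _ _) hv), hη.sq_le⟩
  have hb := bump_fW hη' hρ (A₀ := A₀) c hT hα b
  have hδ : 0 ≤ max X 0 + (A₀ + α) * Real.log T :=
    add_nonneg (le_max_right _ _) (mul_nonneg (by linarith) (Real.log_nonneg hT))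
  have hW := integrable_FT hδ hb
  have hint : ∀ v : ℝ, Integrable fun t : ℝ =>
      (starRingEnd ℂ) (Complex.exp (I * t * v) * FT (fW η ρ A₀ c α T b) t) := by
    intro v
    have h1 : Integrable fun t : ℝ => Complex.exp (I * t * v) * FT (fW η ρ A₀ c α T b) t := by
      refine hW.bdd_mul (c := 1) ?_ (Eventually.of_forall fun t => ?_)
      · exact (by fun_prop : Continuous fun t : ℝ => Complex.exp (I * t * v)).aestronglyMeasurable
      · rw [show I * (t : ℂ) * v = ((t * v : ℝ) : ℂ) * I by push_cast; ring,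
          Complex.norm_exp_ofReal_mul_I]
    exact (Complex.conjCLE.toContinuousLinearMap).integrable_comp h1
  rw [Wk_eq_FT]
  have hM : ∀ m ∈ Mk A₀ T, 0 < m := by
    intro m hm
    unfold Mk at hm
    rw [Finset.mem_Icc] at hm
    omega
  have hN : ∀ n ∈ Finset.Icc 1 ⌊T ^ (2 : ℝ)⌋₊, 0 < n := by
    intro n hn
    rw [Finset.mem_Icc] at hn
    omega
  have hii : ∀ m ∈ Mk A₀ T, ∀ n ∈ Finset.Icc 1 ⌊T ^ (2 : ℝ)⌋₊, Integrable fun t : ℝ =>
      a m * (m : ℂ) ^ (-(1 / 2 + (t : ℂ) * I)) *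
      (((Λ n * η (Real.log n - α * Real.log T) : ℝ) : ℂ) * (n : ℂ) ^ (-(1 / 2 + (t : ℂ) * I))) *
        (starRingEnd ℂ) (FT (fW η ρ A₀ c α T b) t) := by
    intro m hm n hn
    rw [integrable_congr (Eventually.of_forall
      (LC_term η α T a (FT (fW η ρ A₀ c α T b)) (hN n hn) (hM m hm)))]
    exact (hint _).const_mul _
  have e0 : ∀ t : ℝ, Pw A₀ T a t * PP η α T t * (starRingEnd ℂ) (FT (fW η ρ A₀ c α T b) t) =
      ∑ m ∈ Mk A₀ T, ∑ n ∈ Finset.Icc 1 ⌊T ^ (2 : ℝ)⌋₊,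
        a m * (m : ℂ) ^ (-(1 / 2 + (t : ℂ) * I)) *
        (((Λ n * η (Real.log n - α * Real.log T) : ℝ) : ℂ) * (n : ℂ) ^ (-(1 / 2 + (t : ℂ) * I))) *
        (starRingEnd ℂ) (FT (fW η ρ A₀ c α T b) t) := by
    intro t
    unfold Pw PP
    rw [Finset.sum_mul_sum, Finset.sum_mul]
    exact Finset.sum_congr rfl fun m _ => by rw [Finset.sum_mul]
  have e4 : ∀ m ∈ Mk A₀ T, ∀ n ∈ Finset.Icc 1 ⌊T ^ (2 : ℝ)⌋₊, (∫ t : ℝ,
      a m * (m : ℂ) ^ (-(1 / 2 + (t : ℂ) * I)) *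
      (((Λ n * η (Real.log n - α * Real.log T) : ℝ) : ℂ) * (n : ℂ) ^ (-(1 / 2 + (t : ℂ) * I))) *
        (starRingEnd ℂ) (FT (fW η ρ A₀ c α T b) t)) =
      2 * π * ∑ m' ∈ Mk A₀ T, ∑ A ∈ Ak A₀ c α T, ∑ B ∈ Bk T m' A,
        a m * (starRingEnd ℂ) (b m') * ((1 / (m' : ℝ) : ℝ) : ℂ) *
        ((((μ A : ℝ) / (Nat.totient A : ℝ) : ℝ) : ℂ) *
        (((Λ n * wk η ρ α T n m m' A B : ℝ) : ℂ) * ex (-((n : ℝ) * m * B / (m' * A))))) := by
    intro m hm n hn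
    rw [integral_congr_ae (Eventually.of_forall
      (LC_term η α T a (FT (fW η ρ A₀ c α T b)) (hN n hn) (hM m hm))), integral_const_mul,
      integral_conj, inversion_FT hδ hb, fW_log η ρ A₀ c α T b (hN n hn) (hM m hm)]
    have hnm : (0 : ℝ) < (n : ℝ) * m := by
      have h1 : (0 : ℝ) < n := by exact_mod_cast hN n hn
      have h2 : (0 : ℝ) < m := by exact_mod_cast hM m hm
      positivity
    have e3 : ((Real.exp (-(Real.log ((n : ℝ) * m) / 2)) : ℝ) : ℂ) *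
        ((((n : ℝ) * m) ^ (1 / 2 : ℝ) : ℝ) : ℂ) = 1 := by
      rw [← Complex.ofReal_mul, Real.rpow_def_of_pos hnm, ← Real.exp_add]
      have : -(Real.log ((n : ℝ) * m) / 2) + Real.log ((n : ℝ) * m) * (1 / 2) = 0 := by ring
      rw [this, Real.exp_zero, Complex.ofReal_one]
    simp only [map_mul, map_sum, Complex.conj_ofReal, map_ofNat, LC_conj_ex]
    have e5 : ∑ m' ∈ Mk A₀ T, ∑ A ∈ Ak A₀ c α T, ∑ B ∈ Bk T m' A,
        a m * (starRingEnd ℂ) (b m') * ((1 / (m' : ℝ) : ℝ) : ℂ) *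
        ((((μ A : ℝ) / (Nat.totient A : ℝ) : ℝ) : ℂ) *
        (((Λ n * wk η ρ α T n m m' A B : ℝ) : ℂ) * ex (-((n : ℝ) * m * B / (m' * A))))) =
        a m * ((Λ n * η (Real.log n - α * Real.log T) : ℝ) : ℂ) * ∑ m' ∈ Mk A₀ T,
          (starRingEnd ℂ) (b m') * ((1 / (m' : ℝ) : ℝ) : ℂ) *
        ∑ A ∈ Ak A₀ c α T, (((μ A : ℝ) / (Nat.totient A : ℝ) : ℝ) : ℂ) * ∑ B ∈ Bk T m' A,
          ((η (Real.log (n * m / m') - α * Real.log T) * wt ρ T A B (n * m / m') : ℝ) : ℂ) *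
            ex (-((n : ℝ) * m * B / (m' * A))) := by
      rw [Finset.mul_sum]
      refine Finset.sum_congr rfl fun m' _ => ?_
      rw [Finset.mul_sum, Finset.mul_sum]
      refine Finset.sum_congr rfl fun A _ => ?_
      rw [Finset.mul_sum, Finset.mul_sum, Finset.mul_sum]
      refine Finset.sum_congr rfl fun B _ => ?_
      unfold wk
      push_cast
      ring
    rw [e5]
    generalize (∑ m' ∈ Mk A₀ T,
          (starRingEnd ℂ) (b m') * ((1 / (m' : ℝ) : ℝ) : ℂ) *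
        ∑ A ∈ Ak A₀ c α T, (((μ A : ℝ) / (Nat.totient A : ℝ) : ℝ) : ℂ) * ∑ B ∈ Bk T m' A,
          ((η (Real.log (n * m / m') - α * Real.log T) * wt ρ T A B (n * m / m') : ℝ) : ℂ) *
            ex (-((n : ℝ) * m * B / (m' * A)))) = S
    push_cast at e3 ⊢
    linear_combination (2 * (π : ℂ) * (Λ n : ℂ) * (η (Real.log n - α * Real.log T) : ℂ) * a m * S) *
      e3
  rw [integral_congr_ae (Eventually.of_forall e0), integral_finsetSum _ fun m hm =>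
    integrable_finsetSum _ fun n hn => hii m hm n hn]
  have e6 : ∑ m ∈ Mk A₀ T, ∫ t : ℝ, ∑ n ∈ Finset.Icc 1 ⌊T ^ (2 : ℝ)⌋₊,
        a m * (m : ℂ) ^ (-(1 / 2 + (t : ℂ) * I)) *
        (((Λ n * η (Real.log n - α * Real.log T) : ℝ) : ℂ) * (n : ℂ) ^ (-(1 / 2 + (t : ℂ) * I))) *
        (starRingEnd ℂ) (FT (fW η ρ A₀ c α T b) t) =
      ∑ m ∈ Mk A₀ T, ∑ n ∈ Finset.Icc 1 ⌊T ^ (2 : ℝ)⌋₊,
      2 * π * ∑ m' ∈ Mk A₀ T, ∑ A ∈ Ak A₀ c α T, ∑ B ∈ Bk T m' A,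
        a m * (starRingEnd ℂ) (b m') * ((1 / (m' : ℝ) : ℝ) : ℂ) *
        ((((μ A : ℝ) / (Nat.totient A : ℝ) : ℝ) : ℂ) *
        (((Λ n * wk η ρ α T n m m' A B : ℝ) : ℂ) * ex (-((n : ℝ) * m * B / (m' * A))))) := by
    refine Finset.sum_congr rfl fun m hm => ?_
    rw [integral_finsetSum _ fun n hn => hii m hm n hn]
    exact Finset.sum_congr rfl fun n hn => e4 m hm n hn
  rw [e6]
  have e7 : XK η ρ A₀ c α T a b = ∑ m ∈ Mk A₀ T, ∑ n ∈ Finset.Icc 1 ⌊T ^ (2 : ℝ)⌋₊,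
      ∑ m' ∈ Mk A₀ T, ∑ A ∈ Ak A₀ c α T, ∑ B ∈ Bk T m' A,
        a m * (starRingEnd ℂ) (b m') * ((1 / (m' : ℝ) : ℝ) : ℂ) *
        ((((μ A : ℝ) / (Nat.totient A : ℝ) : ℝ) : ℂ) *
        (((Λ n * wk η ρ α T n m m' A B : ℝ) : ℂ) * ex (-((n : ℝ) * m * B / (m' * A))))) := by
    unfold XK
    rw [Finset.sum_comm]
    refine Finset.sum_congr rfl fun m _ => ?_
    rw [Finset.sum_comm (s := Finset.Icc 1 ⌊T ^ (2 : ℝ)⌋₊)]
    refine Finset.sum_congr rfl fun m' _ => ?_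
    rw [Finset.sum_comm (s := Finset.Icc 1 ⌊T ^ (2 : ℝ)⌋₊), Finset.mul_sum]
    refine Finset.sum_congr rfl fun A _ => ?_
    rw [Finset.sum_comm (s := Finset.Icc 1 ⌊T ^ (2 : ℝ)⌋₊), Finset.mul_sum, Finset.mul_sum]
    refine Finset.sum_congr rfl fun B _ => ?_
    rw [Finset.mul_sum, Finset.mul_sum]
  rw [e7, Finset.mul_sum]
  refine Finset.sum_congr rfl fun m _ => ?_
  rw [Finset.mul_sum]

end Pool.Agent.MP_67227b_nt.Gk
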