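import Mathlib
import Pool.Agent.MP_67227b_nt.Gk.GkLd
import Pool.Agent.MP_67227b_nt.Gg.GgOsc

set_option autoImplicit false

open Filter Topology Set MeasureTheory Complex
open scoped Real ContDiff ArithmeticFunction ArithmeticFunction.Moebius

namespace Pool.Agent.MP_67227b_nt.Gk

open Pool.Agent.MP_67227b_nt.Gg (Eta Rho wt ex PP)


/-- the amplitude -/
private noncomputable def LO_G (η ρ : ℝ → ℝ) (x : ℝ × (ℝ × (ℝ × ℝ))) : ℝ :=
  Real.exp x.1 * (η x.1 * η (x.1 + x.2.1)) *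
    (ρ (Real.exp (x.1 + x.2.2.1)) * ρ (Real.exp (x.1 + x.2.2.2)))

private theorem LO_smooth {X κ : ℝ} {η ρ : ℝ → ℝ} (hη : Eta X η) (hρ : Rho κ ρ) :
    ContDiff ℝ ∞ fun x : ℝ × (ℝ × (ℝ × ℝ)) => (LO_G η ρ x : ℂ) := by
  have h1 : ContDiff ℝ ∞ fun x : ℝ × (ℝ × (ℝ × ℝ)) => x.1 := contDiff_fst
  have h2 : ContDiff ℝ ∞ fun x : ℝ × (ℝ × (ℝ × ℝ)) => x.2.1 := contDiff_fst.comp contDiff_snd
  have h3 : ContDiff ℝ ∞ fun x : ℝ × (ℝ × (ℝ × ℝ)) => x.2.2.1 :=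
    contDiff_fst.comp (contDiff_snd.comp contDiff_snd)
  have h4 : ContDiff ℝ ∞ fun x : ℝ × (ℝ × (ℝ × ℝ)) => x.2.2.2 :=
    contDiff_snd.comp (contDiff_snd.comp contDiff_snd)
  have h5 : ContDiff ℝ ∞ (LO_G η ρ) := by
    unfold LO_G
    exact ((Real.contDiff_exp.comp h1).mul ((hη.smooth.comp h1).mul
      (hη.smooth.comp (h1.add h2)))).mul
      ((hρ.smooth.comp (Real.contDiff_exp.comp (h1.add h3))).mul
        (hρ.smooth.comp (Real.contDiff_exp.comp (h1.add h4))))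
  exact Complex.ofRealCLM.contDiff.comp h5

private theorem LO_rho {κ : ℝ} (hκ : 0 < κ) {ρ : ℝ → ℝ} (hρ : Rho κ ρ) {s : ℝ}
    (h : ρ (Real.exp s) ≠ 0) : Real.log (2 * κ) ≤ s ∧ s ≤ 0 := by
  constructor
  · by_contra hcon
    push Not at hcon
    apply h
    apply hρ.left
    have h1 := Real.exp_le_exp.2 hcon.le
    rwa [Real.exp_log (by linarith)] at h1
  · by_contra hcon
    push Not at hcon
    apply h
    apply hρ.right
    have h1 := Real.one_le_exp hcon.le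
    linarith

private theorem LO_eta {X : ℝ} {η : ℝ → ℝ} (hη : Eta X η) {s : ℝ} (h : η s ≠ 0) :
    -|X| ≤ s ∧ s ≤ |X| := by
  rw [← abs_le]
  by_contra hcon
  push Not at hcon
  exact h (hη.supp _ (lt_of_le_of_lt (le_abs_self X) hcon))

private theorem LO_supp {X κ : ℝ} (hκ : 0 < κ) {η ρ : ℝ → ℝ} (hη : Eta X η) (hρ : Rho κ ρ) :
    HasCompactSupport fun x : ℝ × (ℝ × (ℝ × ℝ)) => (LO_G η ρ x : ℂ) := by
  apply HasCompactSupport.intro (K := Icc (-|X|) |X| ×ˢ (Icc (-(2 * |X|)) (2 * |X|) ×ˢ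
    (Icc (Real.log (2 * κ) - |X|) |X| ×ˢ Icc (Real.log (2 * κ) - |X|) |X|)))
    (isCompact_Icc.prod (isCompact_Icc.prod (isCompact_Icc.prod isCompact_Icc)))
  intro x hx
  by_contra hne
  apply hx
  have h0 : LO_G η ρ x ≠ 0 := fun h => hne (by
    show ((LO_G η ρ x : ℝ) : ℂ) = 0
    rw [h, Complex.ofReal_zero])
  unfold LO_G at h0
  have h1 : η x.1 ≠ 0 := fun h => h0 (by rw [h]; ring)
  have h1' : η (x.1 + x.2.1) ≠ 0 := fun h => h0 (by rw [h]; ring)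
  have h2 : ρ (Real.exp (x.1 + x.2.2.1)) ≠ 0 := fun h => h0 (by rw [h]; ring)
  have h3 : ρ (Real.exp (x.1 + x.2.2.2)) ≠ 0 := fun h => h0 (by rw [h]; ring)
  have h4 := LO_eta hη h1
  have h4' := LO_eta hη h1'
  obtain ⟨h5, h6⟩ := LO_rho hκ hρ h2
  obtain ⟨h7, h8⟩ := LO_rho hκ hρ h3
  refine ⟨⟨h4.1, h4.2⟩, ⟨?_, ?_⟩, ⟨?_, ?_⟩, ⟨?_, ?_⟩⟩ <;>
    linarith [h4.1, h4.2, h4'.1, h4'.2]

/-- Module LD1. One off-diagonal integral. Model: `Gg.off_int` (with its three private lemmas).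

PROOF. Substitute `v = p + log m + αL`: `exp v = m T^α exp p`,
`wt ρ T A B (exp v / m) = ρ (exp (p + r))`, `r = log (2π T^α B/(AT))`,
`wt ρ T A' B' (exp v / m') = ρ (exp (p + r'))`, `r' = log (2π T^α m B'/(m' A' T))`, and
`η (v - log m' - αL) = η (p + s)`, `s = log m - log m'`. So the integral is
`m T^α ∫ F (p, (s, (r, r'))) exp (I l exp p) dp` with
`F (p, (s, (r, r'))) = exp p · η p · η (p + s) · ρ (exp (p + r)) · ρ (exp (p + r'))` and
`l = 2π ξ m T^α`. `F` is smooth with compact support (`F ≠ 0` implies `|p| ≤ |X|`, `|p + s| ≤ |X|`,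
`log (2κ) ≤ p + r ≤ 0`, `log (2κ) ≤ p + r' ≤ 0`). Apply `Gg.osc` with `ψ (p, y) = exp p`. -/
theorem off_intK {X κ : ℝ} (hκ : 0 < κ) {η ρ : ℝ → ℝ} (hη : Eta X η) (hρ : Rho κ ρ) (k : ℕ) :
    ∃ C : ℝ, 0 < C ∧ ∀ α T : ℝ, 1 < T → ∀ m A B m' A' B' : ℕ, 0 < m → 0 < A → 0 < B →
      0 < m' → 0 < A' → 0 < B' → ∀ ξ : ℝ, ξ ≠ 0 →
      ‖∫ v : ℝ, ((Real.exp v * (η (v - Real.log m - α * Real.log T) *
        η (v - Real.log m' - α * Real.log T)) * (wt ρ T A B (Real.exp v / m) *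
        wt ρ T A' B' (Real.exp v / m')) : ℝ) : ℂ) * ex (Real.exp v * ξ)‖ ≤
        C * (m * T ^ α) / (m * T ^ α * |ξ|) ^ k := by
  have hψ : ContDiff ℝ ∞ fun x : ℝ × (ℝ × (ℝ × ℝ)) => Real.exp x.1 :=
    Real.contDiff_exp.comp contDiff_fst
  have hd : ∀ x ∈ tsupport (fun x : ℝ × (ℝ × (ℝ × ℝ)) => (LO_G η ρ x : ℂ)),
      fderiv ℝ (fun x : ℝ × (ℝ × (ℝ × ℝ)) => Real.exp x.1) x (1, 0) ≠ 0 := by
    intro x _
    have h1 : HasFDerivAt (fun x : ℝ × (ℝ × (ℝ × ℝ)) => Real.exp x.1)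
        (Real.exp x.1 • ContinuousLinearMap.fst ℝ ℝ (ℝ × (ℝ × ℝ))) x := hasFDerivAt_fst.exp
    rw [h1.fderiv]
    show Real.exp x.1 * 1 ≠ 0
    rw [mul_one]
    exact (Real.exp_pos _).ne'
  obtain ⟨C, hC, hosc⟩ := Gg.osc (LO_smooth hη hρ) (LO_supp hκ hη hρ) hψ hd k
  refine ⟨C, hC, ?_⟩
  intro α T hT m A B m' A' B' hm hA hB hm' hA' hB' ξ hξ
  have hT0 : 0 < T := by linarith
  have hTα : 0 < T ^ α := Real.rpow_pos_of_pos hT0 _
  have hm0 : (0 : ℝ) < m := by exact_mod_cast hm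
  have hm0' : (0 : ℝ) < m' := by exact_mod_cast hm'
  have hA0 : (0 : ℝ) < A := by exact_mod_cast hA
  have hB0 : (0 : ℝ) < B := by exact_mod_cast hB
  have hA0' : (0 : ℝ) < A' := by exact_mod_cast hA'
  have hB0' : (0 : ℝ) < B' := by exact_mod_cast hB'
  have hexp : ∀ p : ℝ, Real.exp (p + (Real.log m + α * Real.log T)) =
      m * T ^ α * Real.exp p := by
    intro p
    rw [Real.exp_add, Real.exp_add, Real.exp_log hm0, Real.rpow_def_of_pos hT0, mul_comm α]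
    ring
  have hwt : ∀ (c a b : ℕ), (0 : ℝ) < c → (0 : ℝ) < a → (0 : ℝ) < b → ∀ p : ℝ,
      wt ρ T a b (Real.exp (p + (Real.log m + α * Real.log T)) / c) =
        ρ (Real.exp (p + Real.log (2 * π * T ^ α * m * b / (c * a * T)))) := by
    intro c a b hc ha hb p
    unfold wt
    congr 1
    rw [hexp, Real.exp_add, Real.exp_log (by positivity)]
    field_simp
  obtain ⟨r, hr⟩ : ∃ r, r = Real.log (2 * π * T ^ α * m * B / (m * A * T)) := ⟨_, rfl⟩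
  obtain ⟨r', hr'⟩ : ∃ r', r' = Real.log (2 * π * T ^ α * m * B' / (m' * A' * T)) := ⟨_, rfl⟩
  obtain ⟨s, hs⟩ : ∃ s, s = Real.log (m : ℝ) - Real.log m' := ⟨_, rfl⟩
  have hmT : 0 < (m : ℝ) * T ^ α := by positivity
  have key : ∫ v : ℝ, ((Real.exp v * (η (v - Real.log m - α * Real.log T) *
        η (v - Real.log m' - α * Real.log T)) * (wt ρ T A B (Real.exp v / m) *
        wt ρ T A' B' (Real.exp v / m')) : ℝ) : ℂ) * ex (Real.exp v * ξ) =
      ((m * T ^ α : ℝ) : ℂ) * ∫ p : ℝ, (LO_G η ρ (p, (s, (r, r'))) : ℂ) *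
        Complex.exp (I * (((2 * π * ξ * (m * T ^ α)) * Real.exp p : ℝ) : ℂ)) := by
    rw [← integral_const_mul, ← integral_add_right_eq_self _ (Real.log m + α * Real.log T)]
    refine integral_congr_ae (Filter.Eventually.of_forall fun p => ?_)
    have e1 : p + (Real.log m + α * Real.log T) - Real.log m - α * Real.log T = p := by ring
    have e2 : p + (Real.log m + α * Real.log T) - Real.log m' - α * Real.log T = p + s := by
      rw [hs]
      ring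
    simp only
    rw [hwt m A B hm0 hA0 hB0, hwt m' A' B' hm0' hA0' hB0', e1, e2, hexp, ← hr, ← hr']
    unfold ex LO_G
    rw [← mul_assoc ((m * T ^ α : ℝ) : ℂ), ← Complex.ofReal_mul]
    congr 1
    · congr 1
      ring
    · congr 1
      push_cast
      ring
  rw [key, norm_mul, Complex.norm_real, Real.norm_of_nonneg hmT.le]
  have hl : 2 * π * ξ * (m * T ^ α) ≠ 0 := by positivity
  have h1 := hosc (s, (r, r')) (2 * π * ξ * (m * T ^ α)) hl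
  have h2 : (m * T ^ α * |ξ|) ^ k ≤ |2 * π * ξ * (m * T ^ α)| ^ k := by
    apply pow_le_pow_left₀ (by positivity)
    rw [abs_mul, abs_mul, abs_of_pos hmT, abs_of_pos (by positivity : (0 : ℝ) < 2 * π)]
    have h3 : 1 ≤ 2 * π := by linarith [Real.pi_gt_three]
    have h4 : 0 ≤ |ξ| * (m * T ^ α) := by positivity
    nlinarith
  have h3 : 0 < (m * T ^ α * |ξ|) ^ k := by positivity
  calc m * T ^ α * _ ≤ m * T ^ α * (C / |2 * π * ξ * (m * T ^ α)| ^ k) :=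
        mul_le_mul_of_nonneg_left h1 hmT.le
    _ ≤ m * T ^ α * (C / (m * T ^ α * |ξ|) ^ k) :=
        mul_le_mul_of_nonneg_left (div_le_div_of_nonneg_left hC.le h3 h2) hmT.le
    _ = _ := by ring

end Pool.Agent.MP_67227b_nt.Gk
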