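import Mathlib
import Pool.Agent.MP_67227b_nt.Gg.GgEn
import Pool.Agent.MP_67227b_nt.Gk.GkLa
import Pool.Agent.MP_67227b_nt.Gk.GkLo

set_option autoImplicit false

open Filter Topology Set MeasureTheory Complex
open scoped Real ContDiff ArithmeticFunction ArithmeticFunction.Moebius

namespace Pool.Agent.MP_67227b_nt.Gk

open Pool.Agent.MP_67227b_nt.Gg (Eta Rho wt ex PP)
open Pool.Agent.MP_67227b_nt.Mo (Bump gs)

/-- The integral of the pair of fractions `x, y`. -/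
noncomputable def Jx (η ρ : ℝ → ℝ) (α T : ℝ) (x y : ℕ × ℕ × ℕ) : ℂ :=
  ∫ v : ℝ, ((Real.exp v * (η (v - Real.log x.1 - α * Real.log T) *
    η (v - Real.log y.1 - α * Real.log T)) * (wt ρ T x.2.1 x.2.2 (Real.exp v / x.1) *
    wt ρ T y.2.1 y.2.2 (Real.exp v / y.1)) : ℝ) : ℂ) *
      ex (Real.exp v * ((x.2.2 : ℝ) / (x.1 * x.2.1) - (y.2.2 : ℝ) / (y.1 * y.2.1)))

/-- The integrand of `Jx`. -/
private noncomputable def LE1_F (η ρ : ℝ → ℝ) (α T : ℝ) (x y : ℕ × ℕ × ℕ) (v : ℝ) : ℂ :=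
  ((Real.exp v * (η (v - Real.log x.1 - α * Real.log T) *
    η (v - Real.log y.1 - α * Real.log T)) * (wt ρ T x.2.1 x.2.2 (Real.exp v / x.1) *
    wt ρ T y.2.1 y.2.2 (Real.exp v / y.1)) : ℝ) : ℂ) *
      ex (Real.exp v * ((x.2.2 : ℝ) / (x.1 * x.2.1) - (y.2.2 : ℝ) / (y.1 * y.2.1)))

private theorem LE1_ex_conj (x y : ℝ) : ex x * (starRingEnd ℂ) (ex y) = ex (x - y) := by
  unfold ex
  rw [← Complex.exp_conj, ← Complex.exp_add]
  congr 1
  simp only [map_mul, Complex.conj_ofReal, Complex.conj_I, map_ofNat]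
  push_cast
  ring

private theorem LE1_fr_mul (η ρ : ℝ → ℝ) (α T : ℝ) (x y : ℕ × ℕ × ℕ) (v : ℝ) :
    fr η ρ α T x v * (starRingEnd ℂ) (fr η ρ α T y v) = LE1_F η ρ α T x y v := by
  unfold fr LE1_F
  rw [map_mul, Complex.conj_ofReal, mul_mul_mul_comm, LE1_ex_conj, ← Complex.ofReal_mul,
    ← mul_sub]
  have hexp : Real.exp v = Real.exp (v / 2) * Real.exp (v / 2) := by
    rw [← Real.exp_add]
    congr 1
    ring
  have h4 : ∀ e s p q w z : ℝ, e = s * s → s * p * w * (s * q * z) = e * (p * q) * (w * z) := by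
    intro e s p q w z h
    rw [h]
    ring
  rw [h4 _ _ _ _ _ _ hexp]

private theorem LE1_int {X κ : ℝ} {η ρ : ℝ → ℝ} (hη : Eta X η) (hρ : Rho κ ρ) (α T : ℝ)
    (x y : ℕ × ℕ × ℕ) : Integrable (LE1_F η ρ α T x y) := by
  have hηc := hη.smooth.continuous
  have hρc := hρ.smooth.continuous
  apply Continuous.integrable_of_hasCompactSupport
  · unfold LE1_F wt ex
    fun_prop
  · apply HasCompactSupport.intro (K := Icc (-(|X|) + Real.log x.1 + α * Real.log T)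
      (|X| + Real.log x.1 + α * Real.log T)) isCompact_Icc
    intro v hv
    have h1 : η (v - Real.log x.1 - α * Real.log T) = 0 := by
      apply hη.supp
      by_contra hcon
      push Not at hcon
      apply hv
      have h2 := hcon.trans (le_abs_self X)
      rw [abs_le] at h2
      exact ⟨by linarith [h2.1], by linarith [h2.2]⟩
    unfold LE1_F
    rw [h1]
    simp

/-- The sum over the index set, written out. -/
private theorem LE1_sum {M : Type*} [AddCommMonoid M] (A₀ c α T : ℝ) (f : ℕ × ℕ × ℕ → M) :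
    ∑ x ∈ Ix A₀ c α T, f x =
      ∑ m ∈ Mk A₀ T, ∑ A ∈ Ak A₀ c α T, ∑ B ∈ Bk T m A, f (m, A, B) := by
  unfold Ix
  rw [Finset.sum_filter, Finset.sum_product]
  refine Finset.sum_congr rfl fun m _ => ?_
  rw [Finset.sum_product]
  refine Finset.sum_congr rfl fun A _ => ?_
  unfold Bk
  rw [Finset.sum_filter]

private theorem LE1_J (η ρ : ℝ → ℝ) (α T : ℝ) {m A m' A' : ℕ} (B : ℕ) (h : m * A = m' * A') :
    Jx η ρ α T (m, A, B) (m', A', B) =
      ((∫ v : ℝ, Real.exp v * η (v - Real.log m - α * Real.log T) *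
        η (v - Real.log m' - α * Real.log T) * wt ρ T A B (Real.exp v / m) ^ 2 : ℝ) : ℂ) := by
  have h0 : ((m : ℝ) * A) = m' * A' := by exact_mod_cast h
  rw [← integral_complex_ofReal]
  unfold Jx
  refine integral_congr_ae (Filter.Eventually.of_forall fun v => ?_)
  show ((Real.exp v * (η (v - Real.log m - α * Real.log T) *
    η (v - Real.log m' - α * Real.log T)) * (wt ρ T A B (Real.exp v / m) *
    wt ρ T A' B (Real.exp v / m')) : ℝ) : ℂ) *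
      ex (Real.exp v * ((B : ℝ) / (m * A) - (B : ℝ) / (m' * A'))) =
    ((Real.exp v * η (v - Real.log m - α * Real.log T) *
        η (v - Real.log m' - α * Real.log T) * wt ρ T A B (Real.exp v / m) ^ 2 : ℝ) : ℂ)
  have h1 : wt ρ T A' B (Real.exp v / m') = wt ρ T A B (Real.exp v / m) := by
    unfold wt
    have e1 : 2 * π * (Real.exp v / m') * B / (A' * T) =
        2 * π * Real.exp v * B / ((m' : ℝ) * A') / T := by ring
    have e2 : 2 * π * (Real.exp v / m) * B / (A * T) =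
        2 * π * Real.exp v * B / ((m : ℝ) * A) / T := by ring
    rw [e1, e2, h0]
  have h4 : ex 0 = 1 := by
    unfold ex
    simp
  rw [h1, h0, sub_self, mul_zero, h4, mul_one]
  push_cast
  ring

/-- Module LE1. The energy as a double sum over the fractions: `fW_eq`,
`‖f‖² = f conj f`, `ex x conj (ex y) = ex (x - y)`; every term is continuous with compact support,
so integrable. Models: `Gg.norm_fV_sq`, `en_int` and the first part of `Gg.energy_fV`. -/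
theorem energy_eq {X κ : ℝ} {η ρ : ℝ → ℝ} (hη : Eta X η) (hρ : Rho κ ρ) (A₀ c α T : ℝ)
    (b : ℕ → ℂ) :
    ((∫ v : ℝ, ‖fW η ρ A₀ c α T b v‖ ^ 2 : ℝ) : ℂ) =
      ∑ x ∈ Ix A₀ c α T, ∑ y ∈ Ix A₀ c α T,
        b x.1 * (starRingEnd ℂ) (b y.1) * ((co x * co y : ℝ) : ℂ) * Jx η ρ α T x y := by
  rw [← integral_complex_ofReal]
  have h2 : (fun v : ℝ => ((‖fW η ρ A₀ c α T b v‖ ^ 2 : ℝ) : ℂ)) =
      fun v => ∑ x ∈ Ix A₀ c α T, ∑ y ∈ Ix A₀ c α T,
        b x.1 * (starRingEnd ℂ) (b y.1) * ((co x * co y : ℝ) : ℂ) * LE1_F η ρ α T x y v := by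
    funext v
    have h1 : ((‖fW η ρ A₀ c α T b v‖ ^ 2 : ℝ) : ℂ) =
        fW η ρ A₀ c α T b v * (starRingEnd ℂ) (fW η ρ A₀ c α T b v) := by
      rw [Complex.mul_conj, Complex.normSq_eq_norm_sq]
    rw [h1, fW_eq, map_sum, Finset.sum_mul_sum]
    refine Finset.sum_congr rfl fun x _ => Finset.sum_congr rfl fun y _ => ?_
    rw [← LE1_fr_mul, map_mul, map_mul, Complex.conj_ofReal, Complex.ofReal_mul]
    ring
  rw [h2, integral_finsetSum]
  · refine Finset.sum_congr rfl fun x _ => ?_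
    rw [integral_finsetSum]
    · refine Finset.sum_congr rfl fun y _ => ?_
      rw [integral_const_mul]
      rfl
    · intro y _
      exact (LE1_int hη hρ α T x y).const_mul _
  · intro x _
    refine integrable_finsetSum _ fun y _ => ?_
    exact (LE1_int hη hρ α T x y).const_mul _

/-- Module LE2. The coincidences `B = B'`, `mA = m'A'` give exactly `YK`
(`wt ρ T A' B (e^v/m') = ρ(2πe^v B/(m'A'T)) = wt ρ T A B (e^v/m)`, as `m, m' ≥ 1`). -/
theorem diag_eq (η ρ : ℝ → ℝ) (A₀ c α T : ℝ) (b : ℕ → ℂ) :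
    ∑ x ∈ Ix A₀ c α T, ∑ y ∈ (Ix A₀ c α T).filter
      (fun y => x.1 * x.2.1 = y.1 * y.2.1 ∧ x.2.2 = y.2.2),
        b x.1 * (starRingEnd ℂ) (b y.1) * ((co x * co y : ℝ) : ℂ) * Jx η ρ α T x y =
      YK η ρ A₀ c α T b := by
  rw [LE1_sum]
  unfold YK
  refine Finset.sum_congr rfl fun m _ => ?_
  have h1 : ∀ A ∈ Ak A₀ c α T, ∀ B ∈ Bk T m A,
      ∑ y ∈ (Ix A₀ c α T).filter (fun y => m * A = y.1 * y.2.1 ∧ B = y.2.2),
        b m * (starRingEnd ℂ) (b y.1) * ((co (m, A, B) * co y : ℝ) : ℂ) *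
          Jx η ρ α T (m, A, B) y =
      ∑ m' ∈ Mk A₀ T, ∑ A' ∈ Ak A₀ c α T, if m * A = m' * A' then
        b m * (starRingEnd ℂ) (b m') * ((co (m, A, B) * co (m', A', B) : ℝ) : ℂ) *
          Jx η ρ α T (m, A, B) (m', A', B) else 0 := by
    intro A _ B hB
    rw [Finset.sum_filter, LE1_sum]
    refine Finset.sum_congr rfl fun m' _ => Finset.sum_congr rfl fun A' _ => ?_
    by_cases h : m * A = m' * A'
    · have hB' : B ∈ Bk T m' A' := by
        unfold Bk at hB ⊢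
        rw [← h]
        exact hB
      rw [if_pos h]
      rw [Finset.sum_eq_single_of_mem B hB']
      · rw [if_pos ⟨h, rfl⟩]
      · intro B' _ hne
        rw [if_neg]
        rintro ⟨_, h2⟩
        exact hne h2.symm
    · rw [if_neg h]
      refine Finset.sum_eq_zero fun B' _ => ?_
      rw [if_neg]
      rintro ⟨h2, _⟩
      exact h h2
  rw [Finset.sum_congr rfl fun A hA => (Finset.sum_congr rfl fun B hB => h1 A hA B hB)]
  rw [Finset.sum_congr rfl fun A (_ : A ∈ Ak A₀ c α T) => Finset.sum_comm, Finset.sum_comm]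
  refine Finset.sum_congr rfl fun m' _ => ?_
  rw [Finset.mul_sum]
  refine Finset.sum_congr rfl fun A _ => ?_
  rw [Finset.sum_comm, Finset.sum_filter, Finset.mul_sum]
  refine Finset.sum_congr rfl fun A' _ => ?_
  by_cases h : m * A = m' * A'
  · simp only [if_pos h]
    rw [Finset.mul_sum, Finset.mul_sum]
    refine Finset.sum_congr rfl fun B _ => ?_
    rw [LE1_J η ρ α T B h]
    unfold co
    push_cast
    ring
  · simp only [if_neg h]
    rw [Finset.sum_const_zero, mul_zero]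

/-- Module LE3. The energy of the test function.

PROOF. `energy_eq`, `diag_eq`; for the other pairs `B/(mA) ≠ B'/(m'A')` are reduced fractions with
denominators at most `K = T^{1/2-c}` (`Ix_mem`), so `|ξ| ≥ T^{-1+2c}` (`Gg.frac_gap`, applied with
`A := mA`, `A' := m'A'`), `m T^α |ξ| ≥ T^{2c}` (`α ≥ 1`, `m ≥ 1`), and by `off_intK` with
`k = ⌈5/c⌉₊`
the integral is at most `C m T^α T^{-10} ≤ T · T^{1/2} · T^{3/2} · T^{-10}` (`A₀ ≤ 1/2`, `α ≤ 3/2`);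
coefficients at most `1`, at most `T^3` pairs (`card_Ix`). Model: `Gg.energy_fV`. -/
theorem energy_fW {X κ c A₀ : ℝ} (hκ : 0 < κ) (hc : 0 < c) (hA : 0 ≤ A₀) {η ρ : ℝ → ℝ}
    (hη : Eta X η) (hρ : Rho κ ρ) : ∀ᶠ T : ℝ in atTop, ∀ α ∈ Icc (1 : ℝ) (3 / 2 - A₀ - 4 * c),
      ∀ b : ℕ → ℂ, (∀ m, ‖b m‖ ≤ 1) →
      ∫ v : ℝ, ‖fW η ρ A₀ c α T b v‖ ^ 2 ≤ (YK η ρ A₀ c α T b).re + 1 := by
  obtain ⟨C, hC, hoff⟩ := off_intK hκ hη hρ ⌈5 / c⌉₊
  filter_upwards [eventually_ge_atTop (max C 2)] with T hT α hα b hb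
  have hTC : C ≤ T := (le_max_left _ _).trans hT
  have hT2 : 2 ≤ T := (le_max_right _ _).trans hT
  have hT1 : 1 < T := by linarith
  have hT0 : 0 < T := by linarith
  obtain ⟨S, hS⟩ : ∃ S, S = Ix A₀ c α T := ⟨_, rfl⟩
  have h1 := energy_eq hη hρ A₀ c α T b
  have hdiag := diag_eq η ρ A₀ c α T b
  rw [← hS] at h1 hdiag
  have hsplit : ∑ x ∈ S, ∑ y ∈ S,
        b x.1 * (starRingEnd ℂ) (b y.1) * ((co x * co y : ℝ) : ℂ) * Jx η ρ α T x y =
      ∑ x ∈ S, ∑ y ∈ S.filter (fun y => x.1 * x.2.1 = y.1 * y.2.1 ∧ x.2.2 = y.2.2),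
        b x.1 * (starRingEnd ℂ) (b y.1) * ((co x * co y : ℝ) : ℂ) * Jx η ρ α T x y +
      ∑ x ∈ S, ∑ y ∈ S.filter (fun y => ¬ (x.1 * x.2.1 = y.1 * y.2.1 ∧ x.2.2 = y.2.2)),
        b x.1 * (starRingEnd ℂ) (b y.1) * ((co x * co y : ℝ) : ℂ) * Jx η ρ α T x y := by
    rw [← Finset.sum_add_distrib]
    refine Finset.sum_congr rfl fun x _ => ?_
    rw [Finset.sum_filter_add_sum_filter_not]
  have hmem : ∀ x ∈ S, 0 < x.1 ∧ 0 < x.2.1 ∧ 0 < x.2.2 ∧ (x.1 : ℝ) ≤ T ^ A₀ ∧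
      ((x.1 : ℝ) * x.2.1) ≤ T ^ (1 / 2 - c) ∧ x.2.2.Coprime (x.1 * x.2.1) := by
    intro x hx
    rw [hS] at hx
    exact Ix_mem hT1.le hx
  have hterm : ∀ x ∈ S,
      ∀ y ∈ S.filter (fun y => ¬ (x.1 * x.2.1 = y.1 * y.2.1 ∧ x.2.2 = y.2.2)),
      ‖b x.1 * (starRingEnd ℂ) (b y.1) * ((co x * co y : ℝ) : ℂ) * Jx η ρ α T x y‖ ≤
      T ^ (5 / 2 : ℝ) / T ^ (10 : ℝ) := by
    intro x hx y hy
    obtain ⟨hy, hne⟩ := Finset.mem_filter.1 hy
    obtain ⟨a1, a2, a3, a4, a5, a6⟩ := hmem x hx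
    obtain ⟨b1, b2, b3, b4, b5, b6⟩ := hmem y hy
    obtain ⟨ξ, hξd⟩ : ∃ ξ : ℝ, ξ = (x.2.2 : ℝ) / (x.1 * x.2.1) - (y.2.2 : ℝ) / (y.1 * y.2.1) :=
      ⟨_, rfl⟩
    have hgap := Gg.frac_gap (A := x.1 * x.2.1) (B := x.2.2) (A' := y.1 * y.2.1) (B' := y.2.2)
      (K := T ^ (1 / 2 - c)) (Nat.mul_pos a1 a2) (Nat.mul_pos b1 b2)
      (by rw [Nat.cast_mul]; exact a5) (by rw [Nat.cast_mul]; exact b5) a6 b6 hne
    rw [Nat.cast_mul, Nat.cast_mul, ← hξd] at hgap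
    have hK : 1 / (T ^ (1 / 2 - c)) ^ 2 = T ^ (-1 + 2 * c) := by
      rw [← Real.rpow_natCast, ← Real.rpow_mul hT0.le, one_div, ← Real.rpow_neg hT0.le]
      congr 1
      push_cast
      ring
    rw [hK] at hgap
    have hgap0 : 0 < T ^ (-1 + 2 * c) := Real.rpow_pos_of_pos hT0 _
    have hξ : ξ ≠ 0 := by
      intro h5
      rw [h5, abs_zero] at hgap
      linarith
    have h5 := hoff α T hT1 x.1 x.2.1 x.2.2 y.1 y.2.1 y.2.2 a1 a2 a3 b1 b2 b3 ξ hξ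
    have hx1 : (1 : ℝ) ≤ x.1 := by exact_mod_cast a1
    have hTα : 0 < T ^ α := Real.rpow_pos_of_pos hT0 _
    have h6 : T ^ (2 * c) ≤ x.1 * T ^ α * |ξ| := by
      have h7 : T ^ α * T ^ (-1 + 2 * c) ≤ x.1 * T ^ α * |ξ| := by
        refine mul_le_mul ?_ hgap hgap0.le (by positivity)
        nlinarith
      refine le_trans ?_ h7
      rw [← Real.rpow_add hT0]
      exact Real.rpow_le_rpow_of_exponent_le hT1.le (by linarith [hα.1])
    have h7 : T ^ (10 : ℝ) ≤ (x.1 * T ^ α * |ξ|) ^ ⌈5 / c⌉₊ := by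
      have h8 : (T ^ (2 * c)) ^ ⌈5 / c⌉₊ ≤ (x.1 * T ^ α * |ξ|) ^ ⌈5 / c⌉₊ :=
        pow_le_pow_left₀ (Real.rpow_nonneg hT0.le _) h6 _
      refine le_trans ?_ h8
      rw [← Real.rpow_natCast, ← Real.rpow_mul hT0.le]
      apply Real.rpow_le_rpow_of_exponent_le hT1.le
      have h9 : 5 / c ≤ (⌈5 / c⌉₊ : ℝ) := Nat.le_ceil _
      rw [div_le_iff₀ hc] at h9
      linarith
    have hJ : ‖Jx η ρ α T x y‖ ≤ C * (x.1 * T ^ α) / (x.1 * T ^ α * |ξ|) ^ ⌈5 / c⌉₊ := by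
      unfold Jx
      rw [← hξd]
      exact h5
    have h8 : ‖Jx η ρ α T x y‖ ≤ C * (x.1 * T ^ α) / T ^ (10 : ℝ) := by
      refine hJ.trans ?_
      exact div_le_div_of_nonneg_left (by positivity) (Real.rpow_pos_of_pos hT0 _) h7
    have h9 : C * (x.1 * T ^ α) ≤ T ^ (5 / 2 : ℝ) := by
      have h10 : x.1 * T ^ α ≤ T ^ (3 / 2 : ℝ) := by
        refine (mul_le_mul_of_nonneg_right a4 hTα.le).trans ?_
        rw [← Real.rpow_add hT0]
        exact Real.rpow_le_rpow_of_exponent_le hT1.le (by linarith [hα.2])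
      have h11 : T ^ (5 / 2 : ℝ) = T * T ^ (3 / 2 : ℝ) := by
        nth_rewrite 2 [← Real.rpow_one T]
        rw [← Real.rpow_add hT0]
        norm_num
      rw [h11]
      exact mul_le_mul hTC h10 (by positivity) hT0.le
    have hcx := co_le x
    have hcy := co_le y
    have hbx := hb x.1
    have hby := hb y.1
    rw [norm_mul, norm_mul, norm_mul, RCLike.norm_conj, Complex.norm_real, Real.norm_eq_abs,
      abs_mul]
    calc ‖b x.1‖ * ‖b y.1‖ * (|co x| * |co y|) * ‖Jx η ρ α T x y‖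
        ≤ 1 * 1 * (1 * 1) * ‖Jx η ρ α T x y‖ := by gcongr
      _ = ‖Jx η ρ α T x y‖ := by ring
      _ ≤ C * (x.1 * T ^ α) / T ^ (10 : ℝ) := h8
      _ ≤ T ^ (5 / 2 : ℝ) / T ^ (10 : ℝ) :=
          div_le_div_of_nonneg_right h9 (Real.rpow_nonneg hT0.le _)
  have hcard : (S.card : ℝ) ≤ T ^ (3 / 2 : ℝ) := by
    rw [hS]
    exact card_Ix hc.le hT1.le
  have hrest : ‖∑ x ∈ S,
      ∑ y ∈ S.filter (fun y => ¬ (x.1 * x.2.1 = y.1 * y.2.1 ∧ x.2.2 = y.2.2)),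
        b x.1 * (starRingEnd ℂ) (b y.1) * ((co x * co y : ℝ) : ℂ) * Jx η ρ α T x y‖ ≤ 1 := by
    have hnn : 0 ≤ T ^ (5 / 2 : ℝ) / T ^ (10 : ℝ) := by positivity
    have h2 : ‖∑ x ∈ S,
      ∑ y ∈ S.filter (fun y => ¬ (x.1 * x.2.1 = y.1 * y.2.1 ∧ x.2.2 = y.2.2)),
        b x.1 * (starRingEnd ℂ) (b y.1) * ((co x * co y : ℝ) : ℂ) * Jx η ρ α T x y‖ ≤
        ∑ x ∈ S, (S.card : ℝ) * (T ^ (5 / 2 : ℝ) / T ^ (10 : ℝ)) := by
      refine norm_sum_le_of_le _ fun x hx => ?_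
      refine (norm_sum_le_of_le _ (hterm x hx)).trans ?_
      rw [Finset.sum_const, nsmul_eq_mul]
      refine mul_le_mul_of_nonneg_right ?_ hnn
      exact_mod_cast Finset.card_filter_le _ _
    refine h2.trans ?_
    rw [Finset.sum_const, nsmul_eq_mul]
    have h3 : (S.card : ℝ) * ((S.card : ℝ) * (T ^ (5 / 2 : ℝ) / T ^ (10 : ℝ))) ≤
        T ^ (3 / 2 : ℝ) * (T ^ (3 / 2 : ℝ) * (T ^ (5 / 2 : ℝ) / T ^ (10 : ℝ))) := by
      gcongr
    refine h3.trans ?_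
    rw [div_eq_mul_inv (T ^ (5 / 2 : ℝ)), ← Real.rpow_neg hT0.le, ← Real.rpow_add hT0,
      ← Real.rpow_add hT0, ← Real.rpow_add hT0]
    exact Real.rpow_le_one_of_one_le_of_nonpos hT1.le (by norm_num)
  rw [hsplit, hdiag] at h1
  have h2 := congrArg Complex.re h1
  rw [Complex.add_re, Complex.ofReal_re] at h2
  have h3 := (Complex.re_le_norm (∑ x ∈ S,
      ∑ y ∈ S.filter (fun y => ¬ (x.1 * x.2.1 = y.1 * y.2.1 ∧ x.2.2 = y.2.2)),
        b x.1 * (starRingEnd ℂ) (b y.1) * ((co x * co y : ℝ) : ℂ) * Jx η ρ α T x y)).trans hrest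
  linarith

end Pool.Agent.MP_67227b_nt.Gk
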