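import Mathlib
import Pool.Agent.MP_67227b_nt.Gg.GgTl
import Pool.Agent.MP_67227b_nt.Gk.GkLa

set_option autoImplicit false

open Filter Topology Set MeasureTheory Complex
open scoped Real ContDiff ArithmeticFunction ArithmeticFunction.Moebius

namespace Pool.Agent.MP_67227b_nt.Gk

open Pool.Agent.MP_67227b_nt.Gg (Eta Rho wt ex PP)
open Pool.Agent.MP_67227b_nt.Mo (Bump gs)

/-- Module LF1. The transform of one fraction is that of the fraction `B/A` of GG, up to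
`m^{1/2} e^{-it log m}` (substitute `v = u + log m`). -/
theorem norm_FT_fr (η ρ : ℝ → ℝ) (α T : ℝ) {m A B : ℕ} (hm : 0 < m) (t : ℝ) :
    ‖FT (fr η ρ α T (m, A, B)) t‖ = (m : ℝ) ^ (1 / 2 : ℝ) *
      ‖∫ v : ℝ, ((Real.exp (v / 2) * η (v - α * Real.log T) * wt ρ T A B (Real.exp v) : ℝ) : ℂ) *
        ex (Real.exp v * B / A) * Complex.exp (-(I * t * v))‖ := by
  have hm0 : (0 : ℝ) < m := by exact_mod_cast hm
  have key : FT (fr η ρ α T (m, A, B)) t = (((m : ℝ) ^ (1 / 2 : ℝ) : ℝ) : ℂ) *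
      Complex.exp (((-(t * Real.log m) : ℝ) : ℂ) * I) *
      ∫ v : ℝ, ((Real.exp (v / 2) * η (v - α * Real.log T) * wt ρ T A B (Real.exp v) : ℝ) : ℂ) *
        ex (Real.exp v * B / A) * Complex.exp (-(I * t * v)) := by
    unfold FT
    rw [← integral_const_mul, ← integral_add_right_eq_self _ (Real.log m)]
    refine integral_congr_ae (Filter.Eventually.of_forall fun p => ?_)
    simp only
    unfold fr
    simp only
    have e1 : Real.exp (p + Real.log m) = m * Real.exp p := by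
      rw [Real.exp_add, Real.exp_log hm0, mul_comm]
    have e2 : Real.exp ((p + Real.log m) / 2) = (m : ℝ) ^ (1 / 2 : ℝ) * Real.exp (p / 2) := by
      rw [Real.rpow_def_of_pos hm0, ← Real.exp_add]
      congr 1
      ring
    have e3 : p + Real.log m - Real.log m - α * Real.log T = p - α * Real.log T := by ring
    have e4 : (m : ℝ) * Real.exp p / m = Real.exp p := by field_simp
    have e5 : (m : ℝ) * Real.exp p * ((B : ℝ) / (m * A)) = Real.exp p * B / A := by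
      rcases Nat.eq_zero_or_pos A with h | h
      · rw [h]
        simp
      · have : (0 : ℝ) < A := by exact_mod_cast h
        field_simp
    have e6 : Complex.exp (-(I * t * ((p + Real.log m : ℝ) : ℂ))) =
        Complex.exp (((-(t * Real.log m) : ℝ) : ℂ) * I) * Complex.exp (-(I * t * p)) := by
      rw [← Complex.exp_add]
      congr 1
      push_cast
      ring
    rw [e1, e2, e3, e4, e5, e6]
    push_cast
    ring
  rw [key, norm_mul, norm_mul, Complex.norm_exp_ofReal_mul_I, mul_one, Complex.norm_real,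
    Real.norm_of_nonneg (by positivity)]

private theorem LF_int {δ : ℝ} {f : ℝ → ℂ} (hf : Bump δ f) (t : ℝ) :
    Integrable fun v : ℝ => f v * Complex.exp (-(I * t * v)) := by
  have hc : HasCompactSupport f := by
    apply HasCompactSupport.intro (K := Icc (-δ) δ) isCompact_Icc
    intro v hv
    apply hf.supp
    by_contra h
    exact hv (abs_le.mp (not_lt.mp h))
  have hcont : Continuous fun v : ℝ => f v * Complex.exp (-(I * t * v)) :=
    hf.smooth.continuous.mul (by fun_prop)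
  exact hcont.integrable_of_hasCompactSupport
    (hc.mul_right (f' := fun v : ℝ => Complex.exp (-(I * t * v))))

/-- Module LF2. `W` outside the range.

PROOF. `FT (fW ..) t = ∑_x b_m co x FT (fr x) t` (`fW_eq`, `bump_fr`: every term is integrable),
`norm_FT_fr`, `Gg.tail_left`/`Gg.tail_right` with `k + 4`; `#Ix ≤ T^{3/2}`, `m^{1/2} ≤ T^{1/4}`
(`A₀ ≤ 1/2`), `T^{α/2} ≤ T^{3/4}`. Model: `Gg.tail_V`. -/
theorem tail_Wk {X κ c A₀ : ℝ} (hκ : 0 < κ) (hc : 0 < c) (hA : 0 ≤ A₀) {η ρ : ℝ → ℝ}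
    (hη : Eta X η) (hρ : Rho κ ρ) (k : ℕ) :
    ∀ᶠ T : ℝ in atTop, ∀ α ∈ Icc (1 : ℝ) (3 / 2 - A₀ - 4 * c), ∀ b : ℕ → ℂ,
      (∀ m, ‖b m‖ ≤ 1) → ∀ t : ℝ, (t ≤ κ * T ∨ (1 - κ / 2) * T ≤ t) →
      ‖Wk η ρ A₀ c α T b t‖ ≤ 1 / (T + |t|) ^ k := by
  obtain ⟨C1, hC1, h1⟩ := Gg.tail_left hκ hη hρ (k + 3)
  obtain ⟨C2, hC2, h2⟩ := Gg.tail_right hκ hη hρ (k + 3)
  have hlim : ∀ᶠ T : ℝ in atTop, C1 + C2 ≤ T ^ (3 / 4 : ℝ) :=
    (tendsto_rpow_atTop (by norm_num : (0 : ℝ) < 3 / 4)).eventually_ge_atTop _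
  filter_upwards [hlim, eventually_gt_atTop (1 : ℝ)] with T hTC hT1 α hα b hb t ht
  have hT0 : 0 < T := by linarith
  have hα0 : 0 ≤ α := by linarith [hα.1]
  have hTt : T ≤ T + |t| := by linarith [abs_nonneg t]
  have hTt0 : 0 < T + |t| := by linarith
  -- one fraction
  have hone : ∀ A B : ℕ, 0 < A → 0 < B →
      ‖∫ v : ℝ, ((Real.exp (v / 2) * η (v - α * Real.log T) * wt ρ T A B (Real.exp v) : ℝ) : ℂ) *
        ex (Real.exp v * B / A) * Complex.exp (-(I * t * v))‖ ≤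
        (C1 + C2) * T ^ (α / 2) / (T + |t|) ^ (k + 3) := by
    intro A B hA hB
    rcases ht with ht | ht
    · refine (h1 α T hT1 A B hA hB t ht).trans ?_
      gcongr
      linarith
    · refine (h2 α T hT1 A B hA hB t ht).trans ?_
      gcongr
      linarith
  obtain ⟨D, hD⟩ : ∃ D, D = (C1 + C2) * T ^ (3 / 4 : ℝ) / (T + |t|) ^ (k + 3) := ⟨_, rfl⟩
  have hD0 : 0 ≤ D := by
    rw [hD]
    positivity
  have hfr : ∀ x ∈ Ix A₀ c α T, ‖FT (fr η ρ α T x) t‖ ≤ D := by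
    rintro ⟨m, A, B⟩ hx
    obtain ⟨g1, g2, g3, g4, -, -⟩ := Ix_mem hT1.le hx
    simp only at g1 g2 g3 g4
    rw [norm_FT_fr η ρ α T g1 t]
    have hm0 : (0 : ℝ) < m := by exact_mod_cast g1
    have e1 : (m : ℝ) ^ (1 / 2 : ℝ) ≤ T ^ (A₀ / 2) := by
      have h := Real.rpow_le_rpow hm0.le g4 (by norm_num : (0 : ℝ) ≤ 1 / 2)
      rwa [← Real.rpow_mul hT0.le, mul_one_div] at h
    calc (m : ℝ) ^ (1 / 2 : ℝ) * _ ≤ T ^ (A₀ / 2) *
          ((C1 + C2) * T ^ (α / 2) / (T + |t|) ^ (k + 3)) :=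
          mul_le_mul e1 (hone A B g2 g3) (norm_nonneg _) (by positivity)
      _ = (C1 + C2) * (T ^ (A₀ / 2) * T ^ (α / 2)) / (T + |t|) ^ (k + 3) := by ring
      _ ≤ (C1 + C2) * T ^ (3 / 4 : ℝ) / (T + |t|) ^ (k + 3) := by
          rw [← Real.rpow_add hT0]
          have : T ^ (A₀ / 2 + α / 2) ≤ T ^ (3 / 4 : ℝ) :=
            Real.rpow_le_rpow_of_exponent_le hT1.le (by linarith [hα.2])
          gcongr
      _ = D := hD.symm
  have e1 : Wk η ρ A₀ c α T b t = ∑ x ∈ Ix A₀ c α T, b x.1 * ((co x : ℝ) : ℂ) *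
      FT (fr η ρ α T x) t := by
    rw [Wk_eq_FT]
    unfold FT
    have e2 : ∀ v : ℝ, fW η ρ A₀ c α T b v * Complex.exp (-(I * t * v)) =
        ∑ x ∈ Ix A₀ c α T, b x.1 * ((co x : ℝ) : ℂ) *
          (fr η ρ α T x v * Complex.exp (-(I * t * v))) := by
      intro v
      rw [fW_eq, Finset.sum_mul]
      exact Finset.sum_congr rfl fun x _ => by ring
    simp only [e2]
    rw [integral_finsetSum _ fun x hx => (LF_int (bump_fr hη hρ hT1.le hα0 hx) t).const_mul _]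
    exact Finset.sum_congr rfl fun x _ => by rw [integral_const_mul]
  have hterm : ∀ x ∈ Ix A₀ c α T, ‖b x.1 * ((co x : ℝ) : ℂ) * FT (fr η ρ α T x) t‖ ≤ D := by
    intro x hx
    rw [norm_mul, norm_mul, Complex.norm_real, Real.norm_eq_abs]
    calc ‖b x.1‖ * |co x| * ‖FT (fr η ρ α T x) t‖ ≤ 1 * 1 * D :=
          mul_le_mul (mul_le_mul (hb _) (co_le x) (abs_nonneg _) zero_le_one) (hfr x hx)
            (norm_nonneg _) (by norm_num)
      _ = D := by ring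
  have h9 : ‖Wk η ρ A₀ c α T b t‖ ≤ T ^ (3 / 2 : ℝ) * D := by
    rw [e1]
    calc _ ≤ ∑ x ∈ Ix A₀ c α T, D := norm_sum_le_of_le _ hterm
      _ = ((Ix A₀ c α T).card : ℝ) * D := by rw [Finset.sum_const, nsmul_eq_mul]
      _ ≤ T ^ (3 / 2 : ℝ) * D := mul_le_mul_of_nonneg_right (card_Ix hc.le hT1.le) hD0
  refine h9.trans ?_
  have h10 : T ^ (3 / 2 : ℝ) * ((C1 + C2) * T ^ (3 / 4 : ℝ)) ≤ (T + |t|) ^ 3 := by
    calc T ^ (3 / 2 : ℝ) * ((C1 + C2) * T ^ (3 / 4 : ℝ)) ≤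
          T ^ (3 / 2 : ℝ) * (T ^ (3 / 4 : ℝ) * T ^ (3 / 4 : ℝ)) := by gcongr
      _ = T ^ 3 := by
          rw [← Real.rpow_add hT0, ← Real.rpow_add hT0]
          norm_num
      _ ≤ (T + |t|) ^ 3 := pow_le_pow_left₀ hT0.le hTt 3
  rw [hD, pow_add]
  calc T ^ (3 / 2 : ℝ) * ((C1 + C2) * T ^ (3 / 4 : ℝ) / ((T + |t|) ^ k * (T + |t|) ^ 3)) =
      (T ^ (3 / 2 : ℝ) * ((C1 + C2) * T ^ (3 / 4 : ℝ))) / (T + |t|) ^ 3 *
        (1 / (T + |t|) ^ k) := by
        field_simp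
    _ ≤ 1 * (1 / (T + |t|) ^ k) := by
        apply mul_le_mul_of_nonneg_right _ (by positivity)
        rw [div_le_one (by positivity)]
        exact h10
    _ = _ := one_mul _

end Pool.Agent.MP_67227b_nt.Gk
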