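import Mathlib
import Pool.Agent.MP_67227b_nt.Gg.GgVf
import Pool.Agent.MP_67227b_nt.Gk.GkLc
import Pool.Agent.MP_67227b_nt.Gk.GkLe
import Pool.Agent.MP_67227b_nt.Gk.GkLf
import Pool.Agent.MP_67227b_nt.Mo.ExScale

set_option autoImplicit false

open Filter Topology Set MeasureTheory Complex
open scoped Real ContDiff ArithmeticFunction ArithmeticFunction.Moebius

namespace Pool.Agent.MP_67227b_nt.Gk

open Pool.Agent.MP_67227b_nt.Gg (Eta Rho wt ex PP)
open Pool.Agent.MP_67227b_nt.Mo (Bump gs)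

private theorem low_pt (a b : ℂ) : 2 * (a * (starRingEnd ℂ) b).re - ‖b‖ ^ 2 ≤ ‖a‖ ^ 2 := by
  have h : ‖a - b‖ ^ 2 = ‖a‖ ^ 2 - 2 * (a * (starRingEnd ℂ) b).re + ‖b‖ ^ 2 := by
    rw [← Complex.normSq_eq_norm_sq, ← Complex.normSq_eq_norm_sq, ← Complex.normSq_eq_norm_sq,
      Complex.normSq_sub]
    ring
  nlinarith [sq_nonneg ‖a - b‖]

/-- PLANCHEREL, INVERSION, OFF-DIAGONAL, TAIL, for arbitrary bounded `a`, `b`. -/
theorem lowK (X κ c A₀ : ℝ) (hκ : 0 < κ) (hκ1 : κ < 1) (hc : 0 < c) (hA : 0 ≤ A₀) {η ρ : ℝ → ℝ}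
    (hη : Eta X η) (hρ : Rho κ ρ) :
    ∃ δ : ℝ, 0 < δ ∧ ∀ᶠ T : ℝ in atTop, ∀ α ∈ Icc (1 : ℝ) (3 / 2 - A₀ - 4 * c),
      ∀ a b : ℕ → ℂ, (∀ m, ‖a m‖ ≤ 1) → (∀ m, ‖b m‖ ≤ 1) →
      2 * (2 * π * (XK η ρ A₀ c α T a b).re) - 2 * π * (YK η ρ A₀ c α T b).re - T ^ (1 - δ) ≤
        ∫ t in (κ * T)..(T - T ^ (3 / 4 : ℝ)), ‖Pw A₀ T a t‖ ^ 2 * ‖PP η α T t‖ ^ 2 := by
  have hX : 0 ≤ max X 0 := le_max_right _ _
  have hη' : Eta (max X 0) η := hη.mono (le_max_left _ _)
  have hpi := Real.pi_pos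
  refine ⟨1 / 2, by norm_num, ?_⟩
  have hsm : ∀ᶠ T : ℝ in atTop, T ^ (-(1 / 4) : ℝ) ≤ min (κ / 2) (1 - κ) :=
    (tendsto_rpow_neg_atTop (by norm_num)).eventually_le_const (lt_min (by linarith) (by linarith))
  have hbig : ∀ᶠ T : ℝ in atTop, 4 * π ≤ T ^ (1 / 2 : ℝ) :=
    (tendsto_rpow_atTop (by norm_num)).eventually_ge_atTop _
  filter_upwards [Gg.norm_PP_le hη', tail_Wk hκ hc hA hη' hρ 6, energy_fW hκ hc hA hη' hρ, hsm,
    hbig, eventually_gt_atTop 3] with T hP hV hE hq hb4 hT3 α hα a b ha hb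
  have hT0 : 0 < T := by linarith
  have hT1 : 1 ≤ T := by linarith
  have hα0 : 0 ≤ α := by linarith [hα.1]
  have hA1 : A₀ ≤ 1 := by linarith [hα.1, hα.2]
  have hδ : 0 ≤ max X 0 + (A₀ + α) * Real.log T :=
    add_nonneg hX (mul_nonneg (by linarith) (Real.log_nonneg hT1))
  have hbump := bump_fW hη' hρ (A₀ := A₀) c hT1 hα0 b
  have e34 : T ^ (3 / 4 : ℝ) = T * T ^ (-(1 / 4) : ℝ) := by
    rw [← Real.rpow_one_add' hT0.le (by norm_num)]; norm_num
  have hA1' : T ^ (3 / 4 : ℝ) ≤ κ / 2 * T := by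
    rw [e34]
    have := mul_le_mul_of_nonneg_left (hq.trans (min_le_left _ _)) hT0.le
    linarith
  have hab : κ * T ≤ T - T ^ (3 / 4 : ℝ) := by
    rw [e34]
    have := mul_le_mul_of_nonneg_left (hq.trans (min_le_right _ _)) hT0.le
    linarith
  set p : ℝ := κ * T with hp
  set q : ℝ := T - T ^ (3 / 4 : ℝ) with hqdef
  set W : ℝ → ℂ := Wk η ρ A₀ c α T b with hW
  have hWF : W = FT (fW η ρ A₀ c α T b) := Wk_eq_FT η ρ A₀ c α T b
  set Q : ℝ → ℂ := fun t => Pw A₀ T a t * PP η α T t with hQ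
  have hQc : Continuous Q := (continuous_Pw A₀ T a).mul (Gg.continuous_PP η α T)
  have hQb : ∀ t, ‖Q t‖ ≤ T ^ 4 := by
    intro t
    rw [hQ]
    simp only [norm_mul]
    have h1 := norm_Pw_le hT0 ha t (A₀ := A₀)
    have h2 : T ^ A₀ ≤ T := by
      calc T ^ A₀ ≤ T ^ (1 : ℝ) := Real.rpow_le_rpow_of_exponent_le hT1 hA1
        _ = T := Real.rpow_one T
    calc ‖Pw A₀ T a t‖ * ‖PP η α T t‖ ≤ T * T ^ 3 :=
          mul_le_mul (h1.trans h2) (hP α t) (norm_nonneg _) hT0.le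
      _ = T ^ 4 := by ring
  have hVc : Continuous W := by rw [hWF]; exact continuous_FT hδ hbump
  have hVi : Integrable W := by rw [hWF]; exact integrable_FT hδ hbump
  have hV2 : Integrable fun t => ‖W t‖ ^ 2 := by rw [hWF]; exact integrable_FT_sq hδ hbump
  set G : ℝ → ℂ := fun t => Q t * (starRingEnd ℂ) (W t) with hG
  have hconjV : Continuous fun t => (starRingEnd ℂ) (W t) := Complex.continuous_conj.comp hVc
  have hGc : Continuous G := hQc.mul hconjV
  have hGi : Integrable G := by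
    have h1 : Integrable fun t => (starRingEnd ℂ) (W t) := by
      refine hVi.norm.mono' hconjV.aestronglyMeasurable (Eventually.of_forall fun t => ?_)
      rw [RCLike.norm_conj]
    exact h1.bdd_mul (c := T ^ 4) hQc.aestronglyMeasurable (Eventually.of_forall fun t => hQb t)
  -- pointwise inequality, integrated
  have h0 : ∀ t, ‖Pw A₀ T a t‖ ^ 2 * ‖PP η α T t‖ ^ 2 = ‖Q t‖ ^ 2 := by
    intro t
    rw [hQ]
    simp only [norm_mul]
    ring
  simp only [h0]
  have h1 : (∫ t in p..q, (2 * (G t).re - ‖W t‖ ^ 2)) ≤ ∫ t in p..q, ‖Q t‖ ^ 2 := by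
    apply intervalIntegral.integral_mono_on hab
    · apply Continuous.intervalIntegrable
      have := Complex.continuous_re.comp hGc
      fun_prop
    · apply Continuous.intervalIntegrable
      fun_prop
    · intro t _
      exact low_pt _ _
  have h2 : (∫ t in p..q, (2 * (G t).re - ‖W t‖ ^ 2)) =
      2 * (∫ t in p..q, G t).re - ∫ t in p..q, ‖W t‖ ^ 2 := by
    rw [intervalIntegral.integral_sub, intervalIntegral.integral_const_mul]
    · congr 2
      exact Complex.reCLM.intervalIntegral_comp_comm (hGc.intervalIntegrable p q)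
    · apply Continuous.intervalIntegrable
      have : Continuous fun t => (G t).re := Complex.continuous_re.comp hGc
      fun_prop
    · apply Continuous.intervalIntegrable
      fun_prop
  have h3 : (∫ t in p..q, ‖W t‖ ^ 2) ≤ 2 * π * ((YK η ρ A₀ c α T b).re + 1) := by
    rw [intervalIntegral.integral_of_le hab]
    have h4 : (∫ t in Ioc p q, ‖W t‖ ^ 2) ≤ ∫ t, ‖W t‖ ^ 2 :=
      setIntegral_le_integral hV2 (ae_of_all _ fun t => by positivity)
    refine h4.trans ?_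
    rw [hWF, plancherel_FT hδ hbump]
    exact mul_le_mul_of_nonneg_left (hE α hα b hb) (by positivity)
  have h4 : (∫ t in p..q, G t) = 2 * π * XK η ρ A₀ c α T a b - ∫ t in (Ioc p q)ᶜ, G t := by
    rw [intervalIntegral.integral_of_le hab, ← inversion_Wk hη' hρ hA c hT1 hα0,
      ← integral_add_compl measurableSet_Ioc hGi]
    ring
  have h5 : ‖∫ t in (Ioc p q)ᶜ, G t‖ ≤ π := by
    have hi := Mo.integrable_inv_sq_abs 0
    have h6 : ‖∫ t in (Ioc p q)ᶜ, G t‖ ≤ ∫ t in (Ioc p q)ᶜ, 1 / (1 + |t - 0|) ^ 2 := by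
      refine norm_integral_le_of_norm_le hi.integrableOn ?_
      refine (ae_restrict_iff' measurableSet_Ioc.compl).2 (ae_of_all _ fun t ht => ?_)
      have h7 : t ≤ κ * T ∨ (1 - κ / 2) * T ≤ t := by
        by_contra hcon
        push Not at hcon
        apply ht
        refine ⟨hcon.1, ?_⟩
        rw [hqdef]
        linarith [hcon.2]
      have h8 := hV α hα b hb t h7
      have h9 : ‖G t‖ ≤ T ^ 4 * (1 / (T + |t|) ^ 6) := by
        have h9' : ‖G t‖ = ‖Q t‖ * ‖W t‖ := by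
          show ‖Q t * (starRingEnd ℂ) (W t)‖ = _
          rw [norm_mul, RCLike.norm_conj]
        rw [h9']
        exact mul_le_mul (hQb t) h8 (norm_nonneg _) (by positivity)
      refine h9.trans ?_
      have ht0 := abs_nonneg t
      rw [sub_zero, mul_one_div, div_le_div_iff₀ (by positivity) (by positivity), one_mul]
      have e1 : T ^ 4 ≤ (T + |t|) ^ 4 := pow_le_pow_left₀ hT0.le (by linarith) 4
      have e2 : (1 + |t|) ^ 2 ≤ (T + |t|) ^ 2 := pow_le_pow_left₀ (by linarith) (by linarith) 2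
      calc T ^ 4 * (1 + |t|) ^ 2 ≤ (T + |t|) ^ 4 * (T + |t|) ^ 2 :=
            mul_le_mul e1 e2 (by positivity) (by positivity)
        _ = (T + |t|) ^ 6 := by ring
    refine h6.trans ?_
    refine (setIntegral_le_integral hi (ae_of_all _ fun t => by positivity)).trans ?_
    exact Mo.integral_inv_sq_abs_le 0
  have h6 : 2 * π * (XK η ρ A₀ c α T a b).re - π ≤ (∫ t in p..q, G t).re := by
    rw [h4, Complex.sub_re]
    have h7 := (Complex.abs_re_le_norm (∫ t in (Ioc p q)ᶜ, G t)).trans h5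
    have h8 := (abs_le.1 h7).2
    have h9 : (2 * π * XK η ρ A₀ c α T a b : ℂ).re = 2 * π * (XK η ρ A₀ c α T a b).re := by
      have : (2 * π * XK η ρ A₀ c α T a b : ℂ) =
        ((2 * π : ℝ) : ℂ) * XK η ρ A₀ c α T a b := by push_cast; ring
      rw [this, Complex.re_ofReal_mul]
    rw [h9]
    linarith
  rw [h2] at h1
  have h10 : (1 : ℝ) - 1 / 2 = 1 / 2 := by norm_num
  rw [h10]
  nlinarith

end Pool.Agent.MP_67227b_nt.Gk
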