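import Mathlib
import Pool.Agent.MP_67227b_nt.Gk.GkED

set_option autoImplicit false

open Filter Topology Set MeasureTheory Complex
open scoped Real ContDiff ArithmeticFunction ArithmeticFunction.Moebius
open scoped Classical

namespace Pool.Agent.MP_67227b_nt.Gk

open Pool.Agent.MP_67227b_nt.Gg (Eta Rho wt ex PP)
open Pool.Agent.BV (tau)

/-! Project GK, the part MAIN: definitions. -/

/-- The inner sum of `X0K`. -/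
noncomputable def xi (η ρ : ℝ → ℝ) (A₀ c α T : ℝ) (m m' : ℕ) : ℂ :=
  ∑ A ∈ Ak A₀ c α T, mf A * ∑ B ∈ Bk T m' A, ∑ n ∈ Finset.Icc 1 ⌊T ^ (2 : ℝ)⌋₊,
    ((Λ n * wk η ρ α T n m m' A B : ℝ) : ℂ) * mf (Qk m m' A)

/-- The integral in `YK`. -/
noncomputable def yw (η ρ : ℝ → ℝ) (α T : ℝ) (m m' A B : ℕ) : ℝ :=
  ∫ v : ℝ, Real.exp v * η (v - Real.log m - α * Real.log T) *
    η (v - Real.log m' - α * Real.log T) * wt ρ T A B (Real.exp v / m) ^ 2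

/-- The inner sum of `YK`. -/
noncomputable def yi (η ρ : ℝ → ℝ) (A₀ c α T : ℝ) (m m' : ℕ) : ℂ :=
  ∑ A ∈ Ak A₀ c α T, ∑ A' ∈ Ak A₀ c α T with m * A = m' * A',
    (((μ A : ℝ) / (Nat.totient A : ℝ) * ((μ A' : ℝ) / (Nat.totient A' : ℝ)) : ℝ) : ℂ) *
      ∑ B ∈ Bk T m A, (yw η ρ α T m m' A B : ℂ)

/-- The diagonal of `X0K`. -/
noncomputable def X0m (η ρ : ℝ → ℝ) (A₀ c α T : ℝ) (m : ℕ) : ℝ :=
  ∑ A ∈ Ak A₀ c α T, ∑ B ∈ Bk T m A, (μ A : ℝ) ^ 2 / (Nat.totient A : ℝ) ^ 2 *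
    ∑ n ∈ Finset.Icc 1 ⌊T ^ (2 : ℝ)⌋₊, Λ n * η (Real.log n - α * Real.log T) ^ 2 * wt ρ T A B n

/-- The integrals of the diagonal. -/
noncomputable def JJm (k : ℕ) (η ρ : ℝ → ℝ) (A₀ c α T : ℝ) (m : ℕ) : ℝ :=
  ∑ A ∈ Ak A₀ c α T, ∑ B ∈ Bk T m A, (μ A : ℝ) ^ 2 / (Nat.totient A : ℝ) ^ 2 *
    ∫ v : ℝ, Real.exp v * η (v - α * Real.log T) ^ 2 * wt ρ T A B (Real.exp v) ^ k

theorem X0K_eq (η ρ : ℝ → ℝ) (A₀ c α T : ℝ) (a b : ℕ → ℂ) : X0K η ρ A₀ c α T a b =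
    ∑ m' ∈ Mk A₀ T, ∑ m ∈ Mk A₀ T, a m * (starRingEnd ℂ) (b m') * ((1 / (m' : ℝ) : ℝ) : ℂ) *
      xi η ρ A₀ c α T m m' := rfl

theorem YK_eq (η ρ : ℝ → ℝ) (A₀ c α T : ℝ) (b : ℕ → ℂ) : YK η ρ A₀ c α T b =
    ∑ m ∈ Mk A₀ T, ∑ m' ∈ Mk A₀ T, b m * (starRingEnd ℂ) (b m') *
      ((1 / ((m : ℝ) * m') : ℝ) : ℂ) * yi η ρ A₀ c α T m m' := rfl

end Pool.Agent.MP_67227b_nt.Gk
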