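import Mathlib
import Pool.Agent.MP_67227b_nt.Gk.GkMD
import Pool.Agent.MP_67227b_nt.Gg.GgCoef

set_option autoImplicit false

open Filter Topology Set MeasureTheory Complex
open scoped Real ContDiff ArithmeticFunction ArithmeticFunction.Moebius
open scoped Classical

namespace Pool.Agent.MP_67227b_nt.Gk

open Pool.Agent.MP_67227b_nt.Gg (Eta Rho wt ex PP)
open Pool.Agent.BV (tau)

private theorem MA_mu_sq (A : ℕ) : (μ A : ℝ) ^ 2 = if Squarefree A then 1 else 0 := by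
  by_cases h : Squarefree A
  · rw [if_pos h]
    have := ArithmeticFunction.moebius_sq_eq_one_of_squarefree h
    exact_mod_cast this
  · rw [if_neg h, ArithmeticFunction.moebius_eq_zero_of_not_squarefree h]
    simp

private theorem MA1_phi_sq : ∃ C : ℝ, 0 ≤ C ∧ ∀ X : ℕ,
    ∑ d ∈ Pool.Agent.MT.HWAux.Q 1 X, 1 / (d.totient : ℝ) ^ 2 ≤ C := by
  have hs : Summable (fun n : ℕ => 1 / ((n : ℝ)) ^ 2) :=
    Real.summable_one_div_nat_pow.2 (by norm_num)
  refine ⟨Real.exp (∑' n : ℕ, 1 / ((n : ℝ)) ^ 2), (Real.exp_pos _).le, fun X => ?_⟩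
  set S : Finset ℕ := (Finset.range X).filter Nat.Prime with hS
  have h1 : ∑ d ∈ Pool.Agent.MT.HWAux.Q 1 X, 1 / (d.totient : ℝ) ^ 2 ≤
      ∑ T ∈ S.powerset, ∏ p ∈ T, 1 / (((p : ℝ) - 1)) ^ 2 := by
    apply Pool.Agent.MT.HWAux.sum_le_inj _ _ _ _ (fun d => d.primeFactors)
    · intro d hd
      rw [Pool.Agent.MT.HWAux.mem_Q] at hd
      rw [Finset.mem_powerset]
      intro p hp
      rw [hS, Finset.mem_filter, Finset.mem_range]
      refine ⟨?_, Nat.prime_of_mem_primeFactors hp⟩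
      have := Nat.le_of_mem_primeFactors hp
      omega
    · intro a ha b hb hab
      rw [Pool.Agent.MT.HWAux.mem_Q] at ha hb
      have h1 := Nat.prod_primeFactors_of_squarefree ha.2.1
      have h2 := Nat.prod_primeFactors_of_squarefree hb.2.1
      rw [← h1, ← h2, hab]
    · intro d hd
      rw [Pool.Agent.MT.HWAux.mem_Q] at hd
      apply le_of_eq
      have h3 : d.totient = ∏ p ∈ d.primeFactors, (p - 1) := by
        conv_lhs => rw [← Nat.prod_primeFactors_of_squarefree hd.2.1]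
        exact Pool.Agent.MT.HWAux.totient_prod _ fun p hp => Nat.prime_of_mem_primeFactors hp
      rw [h3]
      push_cast
      rw [Finset.prod_div_distrib, Finset.prod_const_one, Finset.prod_pow]
      congr 2
      apply Finset.prod_congr rfl
      intro p hp
      rw [Nat.cast_sub (Nat.prime_of_mem_primeFactors hp).one_le, Nat.cast_one]
    · intro T _
      exact Finset.prod_nonneg fun p _ => by positivity
  refine h1.trans ?_
  rw [← Finset.prod_one_add]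
  have h2 : ∏ p ∈ S, (1 + 1 / (((p : ℝ) - 1)) ^ 2) ≤
      ∏ p ∈ S, Real.exp (1 / (((p : ℝ) - 1)) ^ 2) := by
    apply Finset.prod_le_prod
    · intro p _
      positivity
    · intro p _
      have := Real.add_one_le_exp (1 / (((p : ℝ) - 1)) ^ 2)
      linarith
  refine h2.trans ?_
  rw [← Real.exp_sum]
  apply Real.exp_le_exp.2
  have h3 : ∑ p ∈ S, 1 / (((p : ℝ) - 1)) ^ 2 =
      ∑ n ∈ S.image (fun p : ℕ => p - 1), 1 / ((n : ℝ)) ^ 2 := by
    rw [Finset.sum_image]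
    · apply Finset.sum_congr rfl
      intro p hp
      rw [hS, Finset.mem_filter] at hp
      rw [Nat.cast_sub hp.2.one_le, Nat.cast_one]
    · intro a ha b hb hab
      rw [Finset.mem_coe, hS, Finset.mem_filter] at ha hb
      have := ha.2.one_le
      have := hb.2.one_le
      simp only at hab
      omega
  rw [h3]
  exact hs.sum_le_tsum _ fun n _ => by positivity

/-- PROOF. `μ² A/φ(A)² = (1/A)(A/φ(A))²` and for squarefree `A`
`(A/φ(A))² = ∏_{p ∣ A} (1 + (2p-1)/(p-1)²) = ∑_{d ∣ A} f(d)`, `f` multiplicative on squarefree `d`,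
`f(p) = (2p-1)/(p-1)² ≤ 8/p`. So the sum is `≤ ∑_{d ≤ N} (f(d)/d) ∑_{k ≤ N} 1/k`, and
`∑_d f(d)/d ≤ ∏_p (1 + 8/p²)` is bounded (e.g. `f(d)/d ≤ 8^{ω(d)}/d² ≤ C d^{-3/2}`). (Or: Abel
summation from `G_upper` and `∑ over squarefree`; or another proof.) -/
theorem coef_sq : ∃ C : ℝ, 0 ≤ C ∧ ∀ N : ℕ, 1 ≤ N →
    ∑ A ∈ Finset.Icc 1 N, (μ A : ℝ) ^ 2 * ((A : ℝ) / (Nat.totient A : ℝ) ^ 2) ≤
      C * (1 + Real.log N) := by
  obtain ⟨C₁, hC₁, h1⟩ := MA1_phi_sq
  obtain ⟨C₂, h2⟩ := Pool.Agent.MT.HWAux.G_upper 1 one_pos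
  refine ⟨C₁ * (2 * Real.log 2 + 2 + |C₂|), by positivity, fun N hN => ?_⟩
  have e1 : ∑ A ∈ Finset.Icc 1 N, (μ A : ℝ) ^ 2 * ((A : ℝ) / (Nat.totient A : ℝ) ^ 2) =
      ∑ x ∈ (Pool.Agent.MT.HWAux.Q 1 (N + 1)).sigma fun A => Pool.Agent.MT.HWAux.SD A,
        1 / (x.1.totient : ℝ) * (1 / (x.2.totient : ℝ)) := by
    rw [Finset.sum_sigma]
    have e2 : ∑ A ∈ Finset.Icc 1 N, (μ A : ℝ) ^ 2 * ((A : ℝ) / (Nat.totient A : ℝ) ^ 2) =
        ∑ A ∈ Pool.Agent.MT.HWAux.Q 1 (N + 1), ((A : ℝ) / (Nat.totient A : ℝ) ^ 2) := by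
      have e3 : Pool.Agent.MT.HWAux.Q 1 (N + 1) = (Finset.Icc 1 N).filter Squarefree := by
        ext A
        rw [Pool.Agent.MT.HWAux.mem_Q, Finset.mem_filter, Finset.mem_Icc]
        constructor
        · rintro ⟨⟨h3, h4⟩, h5, _⟩
          exact ⟨⟨h3, by omega⟩, h5⟩
        · rintro ⟨⟨h3, h4⟩, h5⟩
          exact ⟨⟨h3, by omega⟩, h5, Nat.coprime_one_right _⟩
      rw [e3, Finset.sum_filter]
      apply Finset.sum_congr rfl
      intro A _
      rw [MA_mu_sq]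
      split_ifs
      · rw [one_mul]
      · rw [zero_mul]
    rw [e2]
    apply Finset.sum_congr rfl
    intro A hA
    rw [Pool.Agent.MT.HWAux.mem_Q] at hA
    have h3 := Pool.Agent.MT.HWAux.sum_SD A (by omega)
    simp only
    rw [← Finset.mul_sum, h3, one_div_mul_eq_div, div_div, sq]
  have e4 : ∑ x ∈ (Pool.Agent.MT.HWAux.Q 1 (N + 1)).sigma fun A => Pool.Agent.MT.HWAux.SD A,
        1 / (x.1.totient : ℝ) * (1 / (x.2.totient : ℝ)) ≤
      ∑ y ∈ (Pool.Agent.MT.HWAux.Q 1 (N + 1)) ×ˢ (Pool.Agent.MT.HWAux.Q 1 (N + 1)),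
        1 / (y.1.totient : ℝ) ^ 2 * (1 / (y.2.totient : ℝ)) := by
    have key : ∀ x ∈ (Pool.Agent.MT.HWAux.Q 1 (N + 1)).sigma fun A => Pool.Agent.MT.HWAux.SD A,
        x.2 * (x.1 / x.2) = x.1 ∧ x.2.Coprime (x.1 / x.2) ∧
        (x.2, x.1 / x.2) ∈ (Pool.Agent.MT.HWAux.Q 1 (N + 1)) ×ˢ
          (Pool.Agent.MT.HWAux.Q 1 (N + 1)) := by
      intro x hx
      rw [Finset.mem_sigma] at hx
      obtain ⟨hx1, hx2⟩ := hx
      rw [Pool.Agent.MT.HWAux.mem_Q] at hx1
      rw [Pool.Agent.MT.HWAux.mem_SD] at hx2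
      have hdvd := hx2.1.1
      have hmul := Nat.mul_div_cancel' hdvd
      have hsq : Squarefree (x.2 * (x.1 / x.2)) := by rw [hmul]; exact hx1.2.1
      have hcop := Nat.coprime_of_squarefree_mul hsq
      refine ⟨hmul, hcop, ?_⟩
      rw [Finset.mem_product]
      have hpos : 0 < x.1 := hx1.1.1
      have h1 : 0 < x.2 := Nat.pos_of_dvd_of_pos hdvd hpos
      have h2 : 0 < x.1 / x.2 := Nat.div_pos (Nat.le_of_dvd hpos hdvd) h1
      constructor
      · rw [Pool.Agent.MT.HWAux.mem_Q]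
        exact ⟨⟨h1, lt_of_le_of_lt (Nat.le_of_dvd hpos hdvd) hx1.1.2⟩,
          hsq.of_mul_left, Nat.coprime_one_right _⟩
      · rw [Pool.Agent.MT.HWAux.mem_Q]
        exact ⟨⟨h2, lt_of_le_of_lt (Nat.div_le_self _ _) hx1.1.2⟩,
          hsq.of_mul_right, Nat.coprime_one_right _⟩
    apply Pool.Agent.MT.HWAux.sum_le_inj _ _ _ _ (fun x => (x.2, x.1 / x.2))
    · intro x hx
      exact (key x hx).2.2
    · intro x hx y hy hxy
      have hx' := (key x hx).1
      have hy' := (key y hy).1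
      simp only [Prod.mk.injEq] at hxy
      have h1 : x.1 = y.1 := by rw [← hx', hxy.2, hxy.1, hy']
      exact Sigma.ext h1 (heq_of_eq hxy.1)
    · intro x hx
      obtain ⟨h3, h4, _⟩ := key x hx
      apply le_of_eq
      have e5 : x.1.totient = x.2.totient * (x.1 / x.2).totient := by
        rw [← Nat.totient_mul h4, h3]
      simp only
      conv_lhs => rw [e5]
      push_cast
      rw [one_div_mul_one_div, one_div_mul_one_div]
      congr 1
      ring
    · intro y _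
      positivity
  rw [e1]
  refine e4.trans ?_
  have e6 : ∑ y ∈ (Pool.Agent.MT.HWAux.Q 1 (N + 1)) ×ˢ (Pool.Agent.MT.HWAux.Q 1 (N + 1)),
        1 / (y.1.totient : ℝ) ^ 2 * (1 / (y.2.totient : ℝ)) =
      (∑ d ∈ Pool.Agent.MT.HWAux.Q 1 (N + 1), 1 / (d.totient : ℝ) ^ 2) *
        Pool.Agent.MT.HWAux.G 1 (N + 1) := by
    rw [Pool.Agent.MT.HWAux.G, Finset.sum_mul_sum, Finset.sum_product]
  rw [e6]
  have h3 := h1 (N + 1)
  have h4 := h2 (N + 1) (by omega)
  have h5 := Pool.Agent.MT.HWAux.G_nonneg 1 (N + 1)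
  have h6 : Real.log ((N + 1 : ℕ) : ℝ) ≤ Real.log 2 + Real.log N := by
    rw [← Real.log_mul (by norm_num) (by positivity)]
    apply Real.log_le_log (by positivity)
    push_cast
    have : (1 : ℝ) ≤ N := by exact_mod_cast hN
    linarith
  have h7 : 0 ≤ Real.log N := Real.log_natCast_nonneg N
  have h8 : 0 ≤ Real.log 2 := Real.log_nonneg (by norm_num)
  have h9 := le_abs_self C₂
  have h10 := abs_nonneg C₂
  have h11 : Pool.Agent.MT.HWAux.G 1 (N + 1) ≤ (2 * Real.log 2 + 2 + |C₂|) * (1 + Real.log N) := by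
    have h12 : Pool.Agent.MT.HWAux.G 1 (N + 1) ≤ 2 * (Real.log 2 + Real.log N) + C₂ := by linarith
    have h13 : 0 ≤ Real.log 2 * Real.log N := mul_nonneg h8 h7
    have h14 : 0 ≤ |C₂| * Real.log N := mul_nonneg h10 h7
    nlinarith
  calc _ ≤ C₁ * ((2 * Real.log 2 + 2 + |C₂|) * (1 + Real.log N)) :=
        mul_le_mul h3 h11 h5 hC₁
    _ = _ := by ring

/-- PROOF. Verbatim `Gg.coef_main` (`GgCoef.lean`) with `N = ⌊T^{1/2-A₀-c}⌋`. -/
theorem coef_mainK {ε : ℝ} (hε : 0 < ε) : ∃ C : ℝ, ∀ (A₀ c α T : ℝ), 0 ≤ A₀ → 0 < c → 3 ≤ T →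
    1 ≤ α → α ≤ 3 / 2 - A₀ - 4 * c → (3 / 2 - α - A₀ - 2 * c - ε) * Real.log T - C ≤
      ∑ A ∈ Ak A₀ c α T, (μ A : ℝ) ^ 2 / (A.totient : ℝ) := by
  obtain ⟨C, hC⟩ := Pool.Agent.MT.HWAux.G_upper ε hε
  refine ⟨(1 + ε) * Real.log 2 + |C|, fun A₀ c α T hA₀ hc hT h1 h2 => ?_⟩
  have hT0 : 0 < T := by linarith
  have hT1 : 1 ≤ T := by linarith
  have hL0 : 0 < Real.log T := Real.log_pos (by linarith)
  set M : ℕ := ⌊T ^ (α - 1 + c)⌋₊ with hM
  set N : ℕ := ⌊T ^ (1 / 2 - A₀ - c)⌋₊ with hN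
  have hMN : M ≤ N := Nat.floor_le_floor
    (Real.rpow_le_rpow_of_exponent_le hT1 (by linarith))
  have e1 : ∑ A ∈ Ak A₀ c α T, (μ A : ℝ) ^ 2 / (A.totient : ℝ) =
      Pool.Agent.MT.HWAux.G 1 (N + 1) - Pool.Agent.MT.HWAux.G 1 (M + 1) := by
    have e2 : Pool.Agent.MT.HWAux.G 1 (N + 1) =
        ∑ A ∈ Finset.Ico 1 (N + 1), (μ A : ℝ) ^ 2 / (A.totient : ℝ) := by
      rw [Pool.Agent.MT.HWAux.G, Pool.Agent.MT.HWAux.Q, Finset.sum_filter]
      apply Finset.sum_congr rfl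
      intro A _
      rw [MA_mu_sq]
      by_cases h : Squarefree A
      · rw [if_pos ⟨h, Nat.coprime_one_right _⟩, if_pos h]
      · rw [if_neg (fun h' => h h'.1), if_neg h, zero_div]
    have e3 : Pool.Agent.MT.HWAux.G 1 (M + 1) =
        ∑ A ∈ Finset.Ico 1 (M + 1), (μ A : ℝ) ^ 2 / (A.totient : ℝ) := by
      rw [Pool.Agent.MT.HWAux.G, Pool.Agent.MT.HWAux.Q, Finset.sum_filter]
      apply Finset.sum_congr rfl
      intro A _
      rw [MA_mu_sq]
      by_cases h : Squarefree A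
      · rw [if_pos ⟨h, Nat.coprime_one_right _⟩, if_pos h]
      · rw [if_neg (fun h' => h h'.1), if_neg h, zero_div]
    have e4 : Ak A₀ c α T = Finset.Ico (M + 1) (N + 1) := by
      ext A
      rw [Ak, Finset.mem_Ioc, Finset.mem_Ico]
      omega
    rw [e2, e3, e4, eq_sub_iff_add_eq, add_comm,
      Finset.sum_Ico_consecutive _ (by omega) (by omega)]
  rw [e1]
  have h3 : (1 / 2 - A₀ - c) * Real.log T ≤ Pool.Agent.MT.HWAux.G 1 (N + 1) := by
    have h4 := (Pool.Agent.MT.HWAux.log_le_harm (N + 1) (by omega)).trans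
      (Pool.Agent.MT.HWAux.harm_le_G (N + 1))
    refine le_trans ?_ h4
    rw [← Real.log_rpow hT0]
    apply Real.log_le_log (by positivity)
    push_cast
    exact (Nat.lt_floor_add_one _).le
  have h5 : Pool.Agent.MT.HWAux.G 1 (M + 1) ≤
      (1 + ε) * ((α - 1 + c) * Real.log T + Real.log 2) + C := by
    refine (hC (M + 1) (by omega)).trans ?_
    have h6 : Real.log ((M + 1 : ℕ) : ℝ) ≤ (α - 1 + c) * Real.log T + Real.log 2 := by
      have h7 : 1 ≤ T ^ (α - 1 + c) := Real.one_le_rpow hT1 (by linarith)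
      have h8 : ((M + 1 : ℕ) : ℝ) ≤ T ^ (α - 1 + c) * 2 := by
        push_cast
        have := Nat.floor_le (by positivity : 0 ≤ T ^ (α - 1 + c))
        rw [← hM] at this
        linarith
      rw [← Real.log_rpow hT0, ← Real.log_mul (by positivity) (by norm_num)]
      exact Real.log_le_log (by positivity) h8
    have := mul_le_mul_of_nonneg_left h6 (by linarith : 0 ≤ 1 + ε)
    linarith
  have h9 : ε * ((α - 1 + c) * Real.log T) ≤ ε * (1 * Real.log T) := by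
    apply mul_le_mul_of_nonneg_left _ hε.le
    apply mul_le_mul_of_nonneg_right _ hL0.le
    linarith
  have h10 := le_abs_self C
  have h11 : (1 + ε) * ((α - 1 + c) * Real.log T + Real.log 2) =
      (α - 1 + c) * Real.log T + ε * ((α - 1 + c) * Real.log T) + (1 + ε) * Real.log 2 := by ring
  have h12 : (3 / 2 - α - A₀ - 2 * c - ε) * Real.log T = (1 / 2 - A₀ - c) * Real.log T -
      (α - 1 + c) * Real.log T - ε * (1 * Real.log T) := by ring
  linarith

end Pool.Agent.MP_67227b_nt.Gk
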