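import Mathlib
import Mathlib.NumberTheory.EulerProduct.Basic
import Mathlib.NumberTheory.Chebyshev
import Pool.Agent.BV.TauB
import Pool.Agent.MP_67227b_nt.Gk.GkDefs
import Pool.Agent.MP_67227b_nt.Gk.GkMert

set_option autoImplicit false

open Filter Topology Set MeasureTheory Complex
open scoped Real ContDiff ArithmeticFunction ArithmeticFunction.Moebius
open scoped Classical

namespace Pool.Agent.MP_67227b_nt.Gk

open Pool.Agent.MP_67227b_nt.Gg (Eta Rho wt ex PP)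
open Pool.Agent.BV (tau)

/-- membership in `Sk` -/
private theorem MB1_mem {A₀ κ₀ T : ℝ} (hT : 1 < T) {m : ℕ} (hm : m ∈ Sk A₀ κ₀ T) :
    1 ≤ m ∧ (m : ℝ) ≤ T ^ A₀ ∧ ∀ p : ℕ, p.Prime → p ∣ m → T ^ κ₀ < p := by
  rw [Sk, Finset.mem_filter, Mk, Finset.mem_Icc] at hm
  refine ⟨hm.1.1, ?_, hm.2⟩
  have h0 : 0 ≤ T ^ A₀ := Real.rpow_nonneg (by linarith) _
  calc (m : ℝ) ≤ (⌊T ^ A₀⌋₊ : ℝ) := by exact_mod_cast hm.1.2
    _ ≤ T ^ A₀ := Nat.floor_le h0

/-- the number of prime factors with multiplicity -/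
private theorem MB1_omega {A₀ κ₀ T : ℝ} (hκ₀ : 0 < κ₀) (hT : 1 < T) {m : ℕ} (hm1 : 1 ≤ m)
    (hm : (m : ℝ) ≤ T ^ A₀) (hp : ∀ p : ℕ, p.Prime → p ∣ m → T ^ κ₀ < p) :
    (m.primeFactorsList.length : ℝ) ≤ A₀ / κ₀ := by
  have hT0 : 0 < T := by linarith
  have h1 : ∀ l : List ℕ, (∀ p ∈ l, T ^ κ₀ < p) → (T ^ κ₀) ^ l.length ≤ ((l.prod : ℕ) : ℝ) := by
    intro l
    induction l with
    | nil => intro _; simp
    | cons a l ih =>
      intro h
      have h2 := ih fun p hp => h p (List.mem_cons_of_mem _ hp)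
      have h3 := h a List.mem_cons_self
      rw [List.length_cons, List.prod_cons, pow_succ', Nat.cast_mul]
      exact mul_le_mul h3.le h2 (by positivity) (Nat.cast_nonneg _)
  have h2 := h1 m.primeFactorsList fun p hp' => hp p (Nat.prime_of_mem_primeFactorsList hp')
    (Nat.dvd_of_mem_primeFactorsList hp')
  rw [Nat.prod_primeFactorsList (by omega)] at h2
  have h3 : T ^ (κ₀ * (m.primeFactorsList.length : ℝ)) ≤ T ^ A₀ := by
    rw [Real.rpow_mul hT0.le, Real.rpow_natCast]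
    exact h2.trans hm
  rw [Real.rpow_le_rpow_left_iff hT] at h3
  rw [le_div_iff₀ hκ₀]
  linarith

/-- the divisor function is at most two to the number of prime factors -/
private theorem MB1_tau {m : ℕ} (hm : 1 ≤ m) :
    tau m ≤ (2 : ℝ) ^ (m.primeFactorsList.length) := by
  induction m using Nat.recOnMul with
  | zero => omega
  | one => simp [tau]
  | prime p hp =>
    rw [tau, Nat.primeFactorsList_prime hp, hp.divisors, Finset.card_pair hp.one_lt.ne]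
    simp
  | mul a b ha hb =>
    have ha0 : a ≠ 0 := by rintro rfl; simp at hm
    have hb0 : b ≠ 0 := by rintro rfl; simp at hm
    have h1 := ha (by omega)
    have h2 := hb (by omega)
    have h3 := (Nat.perm_primeFactorsList_mul ha0 hb0).length_eq
    rw [List.length_append] at h3
    rw [h3, pow_add]
    exact (Pool.Agent.BV.tau_mul_le a b ha0 hb0).trans
      (mul_le_mul h1 h2 (by rw [tau]; positivity) (by positivity))

/-- PROOF. `m ≤ T^{A₀}` has at most `A₀/κ₀` prime factors (with multiplicity), so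
`tau m ≤ 2^{Ω(m)} ≤ 2^{A₀/κ₀}`. -/
theorem sift_tau (A₀ : ℝ) {κ₀ : ℝ} (hκ₀ : 0 < κ₀) : ∃ C : ℝ, 1 ≤ C ∧ ∀ᶠ T : ℝ in atTop,
    ∀ m ∈ Sk A₀ κ₀ T, tau m ≤ C := by
  refine ⟨max 1 (2 ^ (A₀ / κ₀)), le_max_left _ _, ?_⟩
  filter_upwards [eventually_gt_atTop (1 : ℝ)] with T hT m hm
  obtain ⟨h1, h2, h3⟩ := MB1_mem hT hm
  refine (MB1_tau h1).trans (le_trans ?_ (le_max_right _ _))
  rw [← Real.rpow_natCast]
  exact Real.rpow_le_rpow_of_exponent_le (by norm_num) (MB1_omega hκ₀ hT h1 h2 h3)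

/-- the lower bound for a product -/
private theorem MB1_prod (s : Finset ℕ) (δ : ℝ) (hs : ∀ p ∈ s, 1 ≤ p)
    (h : ∀ p ∈ s, (1 : ℝ) / p ≤ δ) :
    1 - s.card * δ ≤ ∏ p ∈ s, (1 - (1 : ℝ) / p) := by
  induction s using Finset.induction_on with
  | empty => simp
  | insert a s ha ih =>
    have h1 := ih (fun p hp => hs p (Finset.mem_insert_of_mem hp))
      (fun p hp => h p (Finset.mem_insert_of_mem hp))
    have h2 := h a (Finset.mem_insert_self _ _)
    have h3 : (1 : ℝ) ≤ a := by exact_mod_cast hs a (Finset.mem_insert_self _ _)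
    have h4 : (0 : ℝ) ≤ 1 - 1 / a := by
      rw [sub_nonneg, div_le_one (by linarith)]
      exact h3
    have h5 : (0 : ℝ) ≤ 1 / a := by positivity
    have h6 : ∏ p ∈ s, (1 - (1 : ℝ) / p) ≤ 1 := by
      refine Finset.prod_le_one (fun p hp => ?_) (fun p hp => ?_)
      · have h7 : (1 : ℝ) ≤ p := by exact_mod_cast hs p (Finset.mem_insert_of_mem hp)
        rw [sub_nonneg, div_le_one (by linarith)]
        exact h7
      · have : (0 : ℝ) ≤ 1 / p := by positivity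
        linarith
    rw [Finset.prod_insert ha, Finset.card_insert_of_notMem ha]
    push_cast
    nlinarith

/-- PROOF. `φ(m)/m = ∏_{p ∣ m} (1 - 1/p) ≥ 1 - ∑_{p ∣ m} 1/p ≥ 1 - (A₀/κ₀) T^{-κ₀}`; the divisors of
`m` are again in `Sk`. -/
theorem sift_phi (A₀ : ℝ) {κ₀ : ℝ} (hκ₀ : 0 < κ₀) : ∀ᶠ T : ℝ in atTop, ∀ m ∈ Sk A₀ κ₀ T,
    ∀ d ∈ m.divisors, (1 - 1 / Real.log T) * (d : ℝ) ≤ (Nat.totient d : ℝ) ∧
      (d : ℝ) ≤ 2 * (Nat.totient d : ℝ) := by
  have hlim : Tendsto (fun T : ℝ => Real.log T / T ^ κ₀) atTop (𝓝 0) :=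
    (isLittleO_log_rpow_atTop hκ₀).tendsto_div_nhds_zero
  have hev : ∀ᶠ T : ℝ in atTop, Real.log T / T ^ κ₀ < 1 / (|A₀ / κ₀| + 1) :=
    hlim.eventually_lt_const (by positivity)
  filter_upwards [eventually_gt_atTop (1 : ℝ), hev,
    Real.tendsto_log_atTop.eventually_ge_atTop (2 : ℝ)] with T hT hE hL m hm d hd
  obtain ⟨h1, h2, h3⟩ := MB1_mem hT hm
  have hT0 : 0 < T := by linarith
  have hTk : 0 < T ^ κ₀ := Real.rpow_pos_of_pos hT0 _
  have hL0 : 0 < Real.log T := by linarith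
  rw [Nat.mem_divisors] at hd
  have hd1 : 1 ≤ d := Nat.pos_of_dvd_of_pos hd.1 h1
  have hdm : (d : ℝ) ≤ m := by exact_mod_cast Nat.le_of_dvd h1 hd.1
  have hΩ := MB1_omega hκ₀ hT hd1 (hdm.trans h2) fun p hp hpd => h3 p hp (hpd.trans hd.1)
  have hcard : (d.primeFactors.card : ℝ) ≤ A₀ / κ₀ := by
    refine le_trans ?_ hΩ
    exact_mod_cast List.toFinset_card_le _
  have hprod := MB1_prod d.primeFactors (1 / T ^ κ₀)
    (fun p hp => (Nat.prime_of_mem_primeFactors hp).one_lt.le) (fun p hp => by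
      have h4 := h3 p (Nat.prime_of_mem_primeFactors hp)
        ((Nat.dvd_of_mem_primeFactors hp).trans hd.1)
      exact one_div_le_one_div_of_le hTk h4.le)
  have hφ : (Nat.totient d : ℝ) = d * ∏ p ∈ d.primeFactors, (1 - (1 : ℝ) / p) := by
    have h5 := congrArg (fun q : ℚ => (q : ℝ)) (Nat.totient_eq_mul_prod_factors d)
    push_cast at h5
    rw [h5]
    simp only [one_div]
  have hkey : (d.primeFactors.card : ℝ) * (1 / T ^ κ₀) ≤ 1 / Real.log T := by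
    rw [div_lt_div_iff₀ hTk (by positivity), one_mul] at hE
    have h6 : (d.primeFactors.card : ℝ) ≤ |A₀ / κ₀| := hcard.trans (le_abs_self _)
    rw [mul_one_div, div_le_div_iff₀ hTk hL0, one_mul]
    calc (d.primeFactors.card : ℝ) * Real.log T ≤ (|A₀ / κ₀| + 1) * Real.log T :=
          mul_le_mul_of_nonneg_right (by linarith) hL0.le
      _ ≤ T ^ κ₀ := by linarith
  have hd0 : (0 : ℝ) < d := by exact_mod_cast hd1
  have hmain : (1 - 1 / Real.log T) * (d : ℝ) ≤ (Nat.totient d : ℝ) := by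
    rw [hφ, mul_comm]
    exact mul_le_mul_of_nonneg_left (by linarith) hd0.le
  refine ⟨hmain, ?_⟩
  have h7 : 1 / Real.log T ≤ 1 / 2 := one_div_le_one_div_of_le (by norm_num) hL
  nlinarith

/-- the reciprocals as a monoid homomorphism -/
private noncomputable def MB3_f : ℕ →* ℝ where
  toFun n := ((n : ℝ))⁻¹
  map_one' := by simp
  map_mul' a b := by push_cast; rw [mul_inv]

private theorem MB3_f_apply (n : ℕ) : MB3_f n = ((n : ℝ))⁻¹ := rfl

/-- the sum of the reciprocals over numbers composed of the primes of `s` -/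
private theorem MB3_euler (s Φ : Finset ℕ)
    (h : ∀ m ∈ Φ, m ≠ 0 ∧ ∀ p : ℕ, p.Prime → p ∣ m → p ∈ s) :
    ∑ m ∈ Φ, ((m : ℝ))⁻¹ ≤ Real.exp (2 * ∑ p ∈ s.filter Nat.Prime, (1 : ℝ) / p) := by
  have hlt : ∀ {p : ℕ}, p.Prime → ‖MB3_f p‖ < 1 := by
    intro p hp
    rw [MB3_f_apply, norm_inv, Real.norm_natCast]
    exact inv_lt_one_of_one_lt₀ (by exact_mod_cast hp.one_lt)
  obtain ⟨hs1, hs2⟩ :=
    EulerProduct.summable_and_hasSum_factoredNumbers_prod_filter_prime_geometric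
      (f := MB3_f) hlt s
  have h1 : ∑ m ∈ Φ, ((m : ℝ))⁻¹ ≤ ∏ p ∈ s with p.Prime, (1 - MB3_f p)⁻¹ := by
    have hmem : ∀ m ∈ Φ, m ∈ Nat.factoredNumbers s := by
      intro m hm
      obtain ⟨h2, h3⟩ := h m hm
      rw [Nat.mem_factoredNumbers']
      exact fun p hp hpm => h3 p hp hpm
    have h4 : ∑ m ∈ Φ, ((m : ℝ))⁻¹ = ∑ m ∈ Φ.attach.image
        (fun m => (⟨m.1, hmem m.1 m.2⟩ : Nat.factoredNumbers s)), MB3_f m := by
      rw [Finset.sum_image, ← Finset.sum_attach]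
      · rfl
      · intro a _ b _ hab
        have := congrArg Subtype.val hab
        exact Subtype.ext this
    rw [h4]
    exact sum_le_hasSum _ (fun m _ => by rw [MB3_f_apply]; positivity) hs2
  refine h1.trans ?_
  rw [Finset.mul_sum, Real.exp_sum]
  refine Finset.prod_le_prod (fun p hp => ?_) (fun p hp => ?_)
  · rw [Finset.mem_filter] at hp
    have h5 := hlt hp.2
    rw [inv_nonneg, sub_nonneg]
    exact (le_abs_self _).trans h5.le
  · rw [Finset.mem_filter] at hp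
    have h5 : (2 : ℝ) ≤ p := by exact_mod_cast hp.2.two_le
    have h6 : (0 : ℝ) < 1 - 1 / p := by
      rw [sub_pos, div_lt_one (by linarith)]
      linarith
    have h12 : MB3_f p = 1 / (p : ℝ) := by rw [MB3_f_apply, one_div]
    rw [h12]
    have h7 : (1 - 1 / (p : ℝ))⁻¹ ≤ 1 + 2 * (1 / p) := by
      rw [inv_le_iff_one_le_mul₀ h6]
      have h8 : (1 : ℝ) / p ≤ 1 / 2 := one_div_le_one_div_of_le (by norm_num) h5
      have h9 : (0 : ℝ) ≤ 1 / p := by positivity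
      nlinarith
    refine h7.trans ?_
    have := Real.add_one_le_exp (2 * (1 / (p : ℝ)))
    linarith

/-- Chebyshev's method for a set of numbers closed under divisors -/
private theorem MB3_log (Φ : Finset ℕ) (y : ℝ) (hy : 0 ≤ y)
    (h0 : ∀ n ∈ Φ, n ≠ 0) (hle : ∀ n ∈ Φ, (n : ℝ) ≤ y) (hd : ∀ n ∈ Φ, ∀ m : ℕ, m ∣ n → m ∈ Φ) :
    ∑ n ∈ Φ, Real.log n ≤ (Real.log 4 + 4) * y * ∑ m ∈ Φ, ((m : ℝ))⁻¹ := by
  have h1 : ∑ n ∈ Φ, Real.log n = ∑ n ∈ Φ, ∑ p ∈ n.divisorsAntidiagonal, Λ p.2 := by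
    refine Finset.sum_congr rfl fun n _ => ?_
    rw [← ArithmeticFunction.vonMangoldt_sum, Nat.sum_divisorsAntidiagonal' (fun i j => Λ j)]
  have h2 : ∑ n ∈ Φ, ∑ p ∈ n.divisorsAntidiagonal, Λ p.2 ≤
      ∑ m ∈ Φ, Chebyshev.psi (y / m) := by
    rw [Finset.sum_sigma']
    have h3 : ∑ m ∈ Φ, Chebyshev.psi (y / m) =
        ∑ q ∈ Φ.sigma (fun m => Finset.Ioc 0 ⌊y / m⌋₊), Λ q.2 := by
      rw [Finset.sum_sigma]
      rfl
    rw [h3]
    have h4 : ∑ x ∈ Φ.sigma (fun n => n.divisorsAntidiagonal), Λ x.2.2 =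
        ∑ q ∈ (Φ.sigma (fun n => n.divisorsAntidiagonal)).image
          (fun x => (⟨x.2.1, x.2.2⟩ : (_ : ℕ) × ℕ)), Λ q.2 := by
      rw [Finset.sum_image]
      rintro ⟨a, a1, a2⟩ ha ⟨b, b1, b2⟩ hb hab
      have ha' := (Finset.mem_sigma.1 (Finset.mem_coe.1 ha)).2
      have hb' := (Finset.mem_sigma.1 (Finset.mem_coe.1 hb)).2
      rw [Nat.mem_divisorsAntidiagonal] at ha' hb'
      simp only [Sigma.mk.injEq, heq_eq_eq] at hab
      obtain ⟨e1, e2⟩ := hab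
      have e3 : a = b := by
        have e4 := ha'.1
        have e5 := hb'.1
        simp only at e4 e5
        rw [← e4, ← e5, e1, e2]
      subst e1 e2 e3
      rfl
    rw [h4]
    refine Finset.sum_le_sum_of_subset_of_nonneg ?_ (fun _ _ _ => ArithmeticFunction.vonMangoldt_nonneg)
    intro q hq
    rw [Finset.mem_image] at hq
    obtain ⟨⟨n, a1, a2⟩, hx, rfl⟩ := hq
    rw [Finset.mem_sigma, Nat.mem_divisorsAntidiagonal] at hx
    obtain ⟨hn, h5, h6⟩ := hx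
    simp only at hn h5 h6
    have h7 : a1 ≠ 0 := by rintro rfl; simp at h5; exact h6 h5.symm
    have h8 : a2 ≠ 0 := by rintro rfl; simp at h5; exact h6 h5.symm
    rw [Finset.mem_sigma, Finset.mem_Ioc]
    refine ⟨hd n hn a1 (by rw [← h5]; exact Nat.dvd_mul_right _ _), Nat.pos_of_ne_zero h8, ?_⟩
    have h9 : (0 : ℝ) < a1 := by exact_mod_cast Nat.pos_of_ne_zero h7
    refine Nat.le_floor ?_
    rw [le_div_iff₀ h9]
    have h10 := hle n hn
    rw [← h5] at h10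
    push_cast at h10
    linarith
  rw [h1]
  refine h2.trans ?_
  rw [Finset.mul_sum]
  refine Finset.sum_le_sum fun m hm => ?_
  have h11 : (0 : ℝ) < m := by exact_mod_cast Nat.pos_of_ne_zero (h0 m hm)
  refine (Chebyshev.psi_le_const_mul_self (by positivity)).trans ?_
  rw [div_eq_mul_inv, mul_assoc]

/-- The number of sifted numbers up to `y`. PROOF. Let `Φ` be the set. (i) `∑_{m ∈ Φ} 1/m ≤
∏_{z < p ≤ T²} (1 - 1/p)⁻¹ ≤ exp(2 ∑_{z < p ≤ T²} 1/p) ≤ C`, `z = T^{κ₀}`: in each dyadic interval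
`∑_{u < p ≤ 2u} 1/p ≤ π(2u)/u ≤ C/log u ≤ C/(κ₀ L)` (Chebyshev) and there are `≤ 4L` of them.
(ii) `∑_{n ∈ Φ} log n = ∑_{n ∈ Φ} ∑_{d ∣ n} Λ(d) ≤ ∑_{m ∈ Φ} ψ(y/m) ≤ C y ∑_{m ∈ Φ} 1/m ≤ C y`.
(iii) so `#Φ ≤ √y + (2/log y) C y ≤ C y/L`. (Or by a sieve upper bound of the library.) -/
theorem sift_count {κ₀ : ℝ} (hκ₀ : 0 < κ₀) : ∃ C : ℝ, 0 ≤ C ∧ ∀ᶠ T : ℝ in atTop, ∀ y : ℝ,
    T ^ (κ₀ / 2) ≤ y → y ≤ T ^ (2 : ℝ) →
      (((Finset.Icc 1 ⌊y⌋₊).filter fun n => ∀ p : ℕ, p.Prime → p ∣ n → T ^ κ₀ < p).card : ℝ) ≤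
        C * (y / Real.log T) := by
  obtain ⟨C₁, hC₁, hM⟩ := mert
  set K : ℝ := max κ₀ 2 with hK
  have hKκ : κ₀ ≤ K := le_max_left _ _
  have hK2 : 2 ≤ K := le_max_right _ _
  have hK0 : 0 < K := by linarith
  set S : ℝ := Real.exp (2 * (Real.log (K / κ₀) + C₁)) with hS
  have hS0 : 0 < S := Real.exp_pos _
  have hc4 : 0 < Real.log 4 := Real.log_pos (by norm_num)
  have hev1 : ∀ᶠ T : ℝ in atTop, (2 : ℝ) ≤ T ^ κ₀ :=
    (tendsto_rpow_atTop hκ₀).eventually_ge_atTop 2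
  have hev2 : ∀ᶠ T : ℝ in atTop, Real.log T / T ^ (κ₀ / 4) < 1 :=
    (isLittleO_log_rpow_atTop (by positivity : 0 < κ₀ / 4)).tendsto_div_nhds_zero.eventually_lt_const
      one_pos
  refine ⟨1 + 4 / κ₀ * ((Real.log 4 + 4) * S), by positivity, ?_⟩
  filter_upwards [eventually_gt_atTop (1 : ℝ), hev1, hev2,
    Real.tendsto_log_atTop.eventually_ge_atTop (max 1 (1 / κ₀))] with T hT hT2 hT4 hL y hy1 hy2
  have hT0 : 0 < T := by linarith
  have hL1 : 1 ≤ Real.log T := (le_max_left _ _).trans hL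
  have hLκ : 1 / κ₀ ≤ Real.log T := (le_max_right _ _).trans hL
  have hL0 : 0 < Real.log T := by linarith
  have hy0 : 0 < y := (Real.rpow_pos_of_pos hT0 _).trans_le hy1
  set Φ : Finset ℕ := (Finset.Icc 1 ⌊y⌋₊).filter fun n => ∀ p : ℕ, p.Prime → p ∣ n → T ^ κ₀ < p
    with hΦ
  have hmem : ∀ n ∈ Φ, n ≠ 0 ∧ (n : ℝ) ≤ y ∧ ∀ p : ℕ, p.Prime → p ∣ n → T ^ κ₀ < p := by
    intro n hn
    rw [hΦ, Finset.mem_filter, Finset.mem_Icc] at hn
    exact ⟨by omega, (Nat.le_floor_iff hy0.le).1 hn.1.2, hn.2⟩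
  have hdvd : ∀ n ∈ Φ, ∀ m : ℕ, m ∣ n → m ∈ Φ := by
    intro n hn m hmn
    have h1 := hmem n hn
    rw [hΦ, Finset.mem_filter, Finset.mem_Icc] at hn ⊢
    have h2 : 0 < m := Nat.pos_of_dvd_of_pos hmn (by omega)
    exact ⟨⟨h2, (Nat.le_of_dvd (by omega) hmn).trans hn.1.2⟩,
      fun p hp hpm => hn.2 p hp (hpm.trans hmn)⟩
  -- (i)
  have hS1 : ∑ m ∈ Φ, ((m : ℝ))⁻¹ ≤ S := by
    refine (MB3_euler (Finset.Ioc ⌊T ^ κ₀⌋₊ ⌊T ^ K⌋₊) Φ ?_).trans ?_
    · intro m hm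
      obtain ⟨h1, h2, h3⟩ := hmem m hm
      refine ⟨h1, fun p hp hpm => ?_⟩
      rw [Finset.mem_Ioc]
      refine ⟨(Nat.floor_lt (by positivity)).2 (h3 p hp hpm), ?_⟩
      refine Nat.le_floor ?_
      have h4 : (p : ℝ) ≤ m := by exact_mod_cast Nat.le_of_dvd (Nat.pos_of_ne_zero h1) hpm
      exact (h4.trans h2).trans (hy2.trans (Real.rpow_le_rpow_of_exponent_le hT.le hK2))
    · rw [hS, Real.exp_le_exp]
      refine mul_le_mul_of_nonneg_left ?_ (by norm_num)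
      have h5 := hM (T ^ κ₀) (T ^ K) hT2 (Real.rpow_le_rpow_of_exponent_le hT.le hKκ)
      have h6 := (abs_le.1 h5).2
      rw [Real.log_rpow hT0, Real.log_rpow hT0, Real.log_mul hK0.ne' hL0.ne',
        Real.log_mul hκ₀.ne' hL0.ne'] at h6
      have h7 : C₁ / (κ₀ * Real.log T) ≤ C₁ := by
        have h8 : 1 ≤ κ₀ * Real.log T := by
          rw [div_le_iff₀ hκ₀] at hLκ
          linarith
        exact div_le_self hC₁.le h8
      rw [Real.log_div hK0.ne' hκ₀.ne']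
      linarith
  -- (ii)
  have hlog := MB3_log Φ y hy0.le (fun n hn => (hmem n hn).1) (fun n hn => (hmem n hn).2.1) hdvd
  have hlog2 : ∑ n ∈ Φ, Real.log n ≤ (Real.log 4 + 4) * y * S :=
    hlog.trans (mul_le_mul_of_nonneg_left hS1 (by positivity))
  -- (iii)
  have hlogy : κ₀ / 2 * Real.log T ≤ Real.log y := by
    rw [← Real.log_rpow hT0]
    exact Real.log_le_log (Real.rpow_pos_of_pos hT0 _) hy1
  have hlogy0 : 0 < Real.log y := lt_of_lt_of_le (by positivity) hlogy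
  have hsplit := Finset.card_filter_add_card_filter_not (s := Φ) (fun n : ℕ => (n : ℝ) ≤ Real.sqrt y)
  have hA : (((Φ.filter fun n : ℕ => (n : ℝ) ≤ Real.sqrt y).card : ℕ) : ℝ) ≤ Real.sqrt y := by
    have h1 : (Φ.filter fun n : ℕ => (n : ℝ) ≤ Real.sqrt y) ⊆ Finset.Icc 1 ⌊Real.sqrt y⌋₊ := by
      intro n hn
      rw [Finset.mem_filter] at hn
      rw [Finset.mem_Icc]
      exact ⟨Nat.pos_of_ne_zero (hmem n hn.1).1, Nat.le_floor hn.2⟩
    have h2 := Finset.card_le_card h1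
    rw [Nat.card_Icc, Nat.add_sub_cancel] at h2
    calc (((Φ.filter fun n : ℕ => (n : ℝ) ≤ Real.sqrt y).card : ℕ) : ℝ) ≤ (⌊Real.sqrt y⌋₊ : ℝ) := by
          exact_mod_cast h2
      _ ≤ Real.sqrt y := Nat.floor_le (Real.sqrt_nonneg _)
  have hB : (((Φ.filter fun n : ℕ => ¬ (n : ℝ) ≤ Real.sqrt y).card : ℕ) : ℝ) * (Real.log y / 2) ≤
      (Real.log 4 + 4) * y * S := by
    refine le_trans ?_ hlog2
    have h1 : ∑ n ∈ Φ.filter (fun n : ℕ => ¬ (n : ℝ) ≤ Real.sqrt y), Real.log n ≤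
        ∑ n ∈ Φ, Real.log n := by
      refine Finset.sum_le_sum_of_subset_of_nonneg (Finset.filter_subset _ _) ?_
      intro n hn _
      exact Real.log_nonneg (by exact_mod_cast Nat.pos_of_ne_zero (hmem n hn).1)
    refine le_trans ?_ h1
    rw [← nsmul_eq_mul]
    refine Finset.card_nsmul_le_sum _ _ _ fun n hn => ?_
    rw [Finset.mem_filter, not_le] at hn
    have h2 : Real.log y / 2 = Real.log (Real.sqrt y) := by
      rw [Real.log_sqrt hy0.le]
    rw [h2]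
    exact Real.log_le_log (Real.sqrt_pos.2 hy0) hn.2.le
  have hB2 : (((Φ.filter fun n : ℕ => ¬ (n : ℝ) ≤ Real.sqrt y).card : ℕ) : ℝ) ≤
      4 / κ₀ * ((Real.log 4 + 4) * S) * (y / Real.log T) := by
    have h1 : (((Φ.filter fun n : ℕ => ¬ (n : ℝ) ≤ Real.sqrt y).card : ℕ) : ℝ) *
        (κ₀ / 4 * Real.log T) ≤ (Real.log 4 + 4) * y * S := by
      refine le_trans (mul_le_mul_of_nonneg_left ?_ (Nat.cast_nonneg _)) hB
      linarith
    have h2 : 4 / κ₀ * ((Real.log 4 + 4) * S) * (y / Real.log T) =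
        ((Real.log 4 + 4) * y * S) / (κ₀ / 4 * Real.log T) := by
      field_simp
    rw [h2, le_div_iff₀ (by positivity)]
    exact h1
  have hsq : Real.sqrt y ≤ y / Real.log T := by
    rw [le_div_iff₀ hL0]
    have h1 : Real.log T ≤ Real.sqrt y := by
      have h2 : Real.log T ≤ T ^ (κ₀ / 4) := by
        rw [div_lt_one (Real.rpow_pos_of_pos hT0 _)] at hT4
        exact hT4.le
      refine h2.trans (Real.le_sqrt_of_sq_le ?_)
      rw [← Real.rpow_natCast, ← Real.rpow_mul hT0.le]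
      refine le_trans (le_of_eq ?_) hy1
      congr 1
      push_cast
      ring
    calc Real.sqrt y * Real.log T ≤ Real.sqrt y * Real.sqrt y :=
          mul_le_mul_of_nonneg_left h1 (Real.sqrt_nonneg _)
      _ = y := Real.mul_self_sqrt hy0.le
  have hcard : ((Φ.card : ℕ) : ℝ) =
      (((Φ.filter fun n : ℕ => (n : ℝ) ≤ Real.sqrt y).card : ℕ) : ℝ) +
      (((Φ.filter fun n : ℕ => ¬ (n : ℝ) ≤ Real.sqrt y).card : ℕ) : ℝ) := by
    exact_mod_cast hsplit.symm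
  rw [hcard, add_mul, one_mul]
  exact add_le_add (hA.trans hsq) hB2

end Pool.Agent.MP_67227b_nt.Gk
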