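import Mathlib
import Pool.Agent.MP_67227b_nt.Gk.GkMB

set_option autoImplicit false

open Filter Topology Set MeasureTheory Complex
open scoped Real ContDiff ArithmeticFunction ArithmeticFunction.Moebius
open scoped Classical

namespace Pool.Agent.MP_67227b_nt.Gk

open Pool.Agent.MP_67227b_nt.Gg (Eta Rho wt ex PP)
open Pool.Agent.BV (tau)

/-- membership in `Sk` -/
private theorem MC_mem {A₀ κ₀ T : ℝ} (hT : 1 < T) {m : ℕ} (hm : m ∈ Sk A₀ κ₀ T) :
    1 ≤ m ∧ (m : ℝ) ≤ T ^ A₀ ∧ ∀ p : ℕ, p.Prime → p ∣ m → T ^ κ₀ < p := by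
  rw [Sk, Finset.mem_filter, Mk, Finset.mem_Icc] at hm
  refine ⟨hm.1.1, ?_, hm.2⟩
  have h0 : 0 ≤ T ^ A₀ := Real.rpow_nonneg (by linarith) _
  calc (m : ℝ) ≤ (⌊T ^ A₀⌋₊ : ℝ) := by exact_mod_cast hm.1.2
    _ ≤ T ^ A₀ := Nat.floor_le h0

/-- from the logarithms to the numbers -/
private theorem MC_near {X : ℝ} {m m' : ℕ} (hm : 1 ≤ m) (hm' : 1 ≤ m')
    (h : |Real.log m - Real.log m'| ≤ 2 * X) :
    (m : ℝ) ≤ m' * Real.exp (2 * |X|) ∧ (m' : ℝ) ≤ m * Real.exp (2 * |X|) := by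
  have hX : X ≤ |X| := le_abs_self X
  have h0 : (0 : ℝ) < m := by exact_mod_cast hm
  have h0' : (0 : ℝ) < m' := by exact_mod_cast hm'
  rw [abs_le] at h
  constructor
  · rw [← Real.exp_log h0', ← Real.exp_add]
    nth_rw 1 [← Real.exp_log h0]
    rw [Real.exp_le_exp]
    linarith
  · rw [← Real.exp_log h0, ← Real.exp_add]
    nth_rw 1 [← Real.exp_log h0']
    rw [Real.exp_le_exp]
    linarith

/-- PROOF. Let `g = (m, m')`, `m = g d`, `m' = g d'`: `g` runs over the divisors of `m` (at most `C`,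
`sift_tau`), and `d' ≠ d`. If `d = 1` then `d' ≤ e^{2X}` and `d' ≠ 1` is sifted, so
`d' > T^{κ₀} > e^{2X}`: impossible. If `d ≠ 1` then `d > T^{κ₀}`, `d e^{-2X} ≤ d' ≤ y := d e^{2X}`,
`T^{κ₀/2} ≤ y ≤ T²`, and `∑ 1/d' ≤ (e^{2X}/d) #{d' ≤ y sifted} ≤ (e^{2X}/d) C y/L` (`sift_count`).
(`gcd(m,m')/m' = 1/d'`.) -/
theorem pair_one (A₀ X : ℝ) {κ₀ : ℝ} (hA : 0 ≤ A₀) (hA1 : A₀ ≤ 1) (hκ₀ : 0 < κ₀) :
    ∃ C : ℝ, 0 ≤ C ∧ ∀ᶠ T : ℝ in atTop, ∀ m ∈ Sk A₀ κ₀ T,
    ∑ m' ∈ Sk A₀ κ₀ T with (m' ≠ m ∧ |Real.log m - Real.log m'| ≤ 2 * X),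
      (Nat.gcd m m' : ℝ) / m' ≤ C / Real.log T := by
  obtain ⟨C₁, hC₁, hev1⟩ := sift_tau A₀ hκ₀
  obtain ⟨C₂, hC₂, hev2⟩ := sift_count hκ₀
  set E : ℝ := Real.exp (2 * |X|) with hE
  have hE0 : 0 < E := Real.exp_pos _
  have hE1 : 1 ≤ E := by
    rw [hE]
    exact Real.one_le_exp (by positivity)
  refine ⟨C₁ * (C₂ * E * E), by positivity, ?_⟩
  filter_upwards [hev1, hev2, eventually_gt_atTop (1 : ℝ), eventually_ge_atTop E,
    (tendsto_rpow_atTop hκ₀).eventually_gt_atTop E] with T hτ hcnt hT hTE hTκ m hm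
  obtain ⟨hm1, hm2, hm3⟩ := MC_mem hT hm
  have hT0 : 0 < T := by linarith
  have hL0 : 0 < Real.log T := Real.log_pos hT
  have hm0 : (0 : ℝ) < m := by exact_mod_cast hm1
  set F : Finset ℕ := (Sk A₀ κ₀ T).filter
    (fun m' => m' ≠ m ∧ |Real.log m - Real.log m'| ≤ 2 * X) with hF
  have hFm : ∀ m' ∈ F, m' ≠ m ∧ 1 ≤ m' ∧ (∀ p : ℕ, p.Prime → p ∣ m' → T ^ κ₀ < p) ∧
      (m : ℝ) ≤ m' * E ∧ (m' : ℝ) ≤ m * E := by
    intro m' hm'
    rw [hF, Finset.mem_filter] at hm'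
    obtain ⟨h1, h2, h3⟩ := MC_mem hT hm'.1
    obtain ⟨h4, h5⟩ := MC_near hm1 h1 hm'.2.2
    exact ⟨hm'.2.1, h1, h3, h4, h5⟩
  have hmaps : ∀ m' ∈ F, Nat.gcd m m' ∈ m.divisors := by
    intro m' _
    rw [Nat.mem_divisors]
    exact ⟨Nat.gcd_dvd_left _ _, by omega⟩
  rw [← Finset.sum_fiberwise_of_maps_to hmaps]
  have hfib : ∀ g ∈ m.divisors, ∑ m' ∈ F with Nat.gcd m m' = g, (Nat.gcd m m' : ℝ) / m' ≤
      C₂ * E * E / Real.log T := by
    intro g hg
    rw [Nat.mem_divisors] at hg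
    obtain ⟨⟨d, hd⟩, -⟩ := hg
    have hg1 : 1 ≤ g := by
      rcases Nat.eq_zero_or_pos g with h | h
      · rw [h, zero_mul] at hd
        omega
      · exact h
    have hd1 : 1 ≤ d := by
      rcases Nat.eq_zero_or_pos d with h | h
      · rw [h, mul_zero] at hd
        omega
      · exact h
    have hg0 : (0 : ℝ) < g := by exact_mod_cast hg1
    have hd0 : (0 : ℝ) < d := by exact_mod_cast hd1
    have hmr : (m : ℝ) = g * d := by rw [hd]; push_cast; ring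
    rcases Nat.eq_or_lt_of_le hd1 with hd2 | hd2
    · -- the fibre is empty
      have hempty : F.filter (fun m' => Nat.gcd m m' = g) = ∅ := by
        rw [Finset.filter_eq_empty_iff]
        intro m' hm' hgc
        obtain ⟨h1, h2, h3, h4, h5⟩ := hFm m' hm'
        have h6 : m = g := by rw [hd, ← hd2, mul_one]
        have h7 : m ∣ m' := by
          rw [← h6] at hgc
          rw [← hgc]
          exact Nat.gcd_dvd_right _ _
        obtain ⟨e, he⟩ := h7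
        have he1 : e ≠ 1 := by
          rintro rfl
          exact h1 (by rw [he, mul_one])
        obtain ⟨p, hp, hpe⟩ := Nat.exists_prime_and_dvd he1
        have h8 := h3 p hp (by rw [he]; exact hpe.mul_left m)
        have he0 : e ≠ 0 := by
          rintro rfl
          rw [mul_zero] at he
          omega
        have h9 : (p : ℝ) ≤ e := by exact_mod_cast Nat.le_of_dvd (Nat.pos_of_ne_zero he0) hpe
        have h10 : (e : ℝ) ≤ E := by
          rw [he] at h5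
          push_cast at h5
          exact le_of_mul_le_mul_left h5 hm0
        linarith
      rw [hempty, Finset.sum_empty]
      positivity
    · -- the main case
      obtain ⟨p, hp, hpd⟩ := Nat.exists_prime_and_dvd (by omega : d ≠ 1)
      have h1 := hm3 p hp (by rw [hd]; exact hpd.mul_left g)
      have h2 : (p : ℝ) ≤ d := by exact_mod_cast Nat.le_of_dvd hd1 hpd
      have hdT : T ^ κ₀ < d := by linarith
      have hy1 : T ^ (κ₀ / 2) ≤ d * E := by
        have h3 : T ^ (κ₀ / 2) ≤ T ^ κ₀ :=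
          Real.rpow_le_rpow_of_exponent_le hT.le (by linarith)
        have h4 : (d : ℝ) ≤ d * E := le_mul_of_one_le_right hd0.le hE1
        linarith
      have hy2 : (d : ℝ) * E ≤ T ^ (2 : ℝ) := by
        have h3 : (d : ℝ) ≤ m := by
          rw [hmr]
          exact le_mul_of_one_le_left hd0.le (by exact_mod_cast hg1)
        have h4 : T ^ A₀ ≤ T := by
          calc T ^ A₀ ≤ T ^ (1 : ℝ) := Real.rpow_le_rpow_of_exponent_le hT.le hA1
            _ = T := Real.rpow_one T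
        have h5 : (d : ℝ) ≤ T := h3.trans (hm2.trans h4)
        calc (d : ℝ) * E ≤ T * T := mul_le_mul h5 hTE hE0.le hT0.le
          _ = T ^ (2 : ℝ) := by rw [Real.rpow_two]; ring
      have h3 := hcnt (d * E) hy1 hy2
      have hcard : ((F.filter (fun m' => Nat.gcd m m' = g)).card : ℝ) ≤
          C₂ * (d * E / Real.log T) := by
        refine le_trans ?_ h3
        have h4 : ((F.filter (fun m' => Nat.gcd m m' = g)).image (fun m' => m' / g)) ⊆
            ((Finset.Icc 1 ⌊(d : ℝ) * E⌋₊).filter fun n => ∀ p : ℕ, p.Prime → p ∣ n →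
              T ^ κ₀ < p) := by
          intro n hn
          rw [Finset.mem_image] at hn
          obtain ⟨m', hm', rfl⟩ := hn
          rw [Finset.mem_filter] at hm'
          obtain ⟨h5, h6, h7, h8, h9⟩ := hFm m' hm'.1
          have h10 : g ∣ m' := by
            rw [← hm'.2]
            exact Nat.gcd_dvd_right _ _
          obtain ⟨e, he⟩ := h10
          have he0 : 1 ≤ e := by
            rcases Nat.eq_zero_or_pos e with h | h
            · rw [h, mul_zero] at he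
              omega
            · exact h
          rw [he, Nat.mul_div_cancel_left _ hg1, Finset.mem_filter, Finset.mem_Icc]
          refine ⟨⟨he0, Nat.le_floor ?_⟩, fun q hq hqe => h7 q hq (by
            rw [he]; exact hqe.mul_left g)⟩
          rw [he, hmr] at h9
          push_cast at h9
          rw [mul_assoc] at h9
          exact le_of_mul_le_mul_left h9 hg0
        have h5 := Finset.card_le_card h4
        rw [Finset.card_image_of_injOn] at h5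
        · exact_mod_cast h5
        · intro a ha b hb hab
          rw [Finset.mem_coe, Finset.mem_filter] at ha hb
          have h6 : g ∣ a := by
            rw [← ha.2]
            exact Nat.gcd_dvd_right _ _
          have h7 : g ∣ b := by
            rw [← hb.2]
            exact Nat.gcd_dvd_right _ _
          simp only at hab
          rw [← Nat.mul_div_cancel' h6, ← Nat.mul_div_cancel' h7, hab]
      have hterm : ∀ m' ∈ F.filter (fun m' => Nat.gcd m m' = g),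
          (Nat.gcd m m' : ℝ) / m' ≤ E / d := by
        intro m' hm'
        rw [Finset.mem_filter] at hm'
        obtain ⟨h5, h6, h7, h8, h9⟩ := hFm m' hm'.1
        have h10 : (0 : ℝ) < m' := by exact_mod_cast h6
        rw [hm'.2, div_le_div_iff₀ h10 hd0, ← hmr]
        linarith
      have hsum := Finset.sum_le_card_nsmul _ _ _ hterm
      rw [nsmul_eq_mul] at hsum
      refine hsum.trans ?_
      calc ((F.filter (fun m' => Nat.gcd m m' = g)).card : ℝ) * (E / d) ≤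
            C₂ * (d * E / Real.log T) * (E / d) :=
            mul_le_mul_of_nonneg_right hcard (by positivity)
        _ = C₂ * E * E / Real.log T := by field_simp
  have hsum := Finset.sum_le_card_nsmul _ _ _ hfib
  rw [nsmul_eq_mul] at hsum
  refine hsum.trans ?_
  have h1 := hτ m hm
  rw [tau] at h1
  rw [mul_div_assoc C₁]
  exact mul_le_mul_of_nonneg_right h1 (by positivity)

/-- PROOF. `‖a m‖ ‖a m'‖ ≤ (‖a m‖² + ‖a m'‖²)/2`, symmetry in `(m, m')`, `pair_one`. -/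
theorem pair_two (A₀ X : ℝ) {κ₀ : ℝ} (hA : 0 ≤ A₀) (hA1 : A₀ ≤ 1) (hκ₀ : 0 < κ₀) :
    ∃ C : ℝ, 0 ≤ C ∧ ∀ᶠ T : ℝ in atTop, ∀ a : ℕ → ℂ,
    ∑ m ∈ Sk A₀ κ₀ T, ∑ m' ∈ Sk A₀ κ₀ T with (m' ≠ m ∧ |Real.log m - Real.log m'| ≤ 2 * X),
      ‖a m‖ * ‖a m'‖ * ((Nat.gcd m m' : ℝ) / ((m : ℝ) * m')) ≤
        C / Real.log T * ∑ m ∈ Sk A₀ κ₀ T, ‖a m‖ ^ 2 / m := by
  obtain ⟨C, hC, hev⟩ := pair_one A₀ X hA hA1 hκ₀
  refine ⟨C, hC, ?_⟩
  filter_upwards [hev, eventually_gt_atTop (1 : ℝ)] with T h1 hT a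
  set S := Sk A₀ κ₀ T with hS
  have hswap : ∑ m ∈ S, ∑ m' ∈ S with (m' ≠ m ∧ |Real.log m - Real.log m'| ≤ 2 * X),
      ‖a m'‖ ^ 2 * ((Nat.gcd m m' : ℝ) / ((m : ℝ) * m')) =
      ∑ m ∈ S, ∑ m' ∈ S with (m' ≠ m ∧ |Real.log m - Real.log m'| ≤ 2 * X),
      ‖a m‖ ^ 2 * ((Nat.gcd m m' : ℝ) / ((m : ℝ) * m')) := by
    simp only [Finset.sum_filter]
    rw [Finset.sum_comm]
    refine Finset.sum_congr rfl fun m _ => Finset.sum_congr rfl fun m' _ => ?_
    rw [Nat.gcd_comm m' m, mul_comm (m' : ℝ) (m : ℝ)]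
    refine if_congr ?_ rfl rfl
    rw [abs_sub_comm, ne_comm]
  have hA' : ∑ m ∈ S, ∑ m' ∈ S with (m' ≠ m ∧ |Real.log m - Real.log m'| ≤ 2 * X),
      ‖a m‖ ^ 2 * ((Nat.gcd m m' : ℝ) / ((m : ℝ) * m')) ≤
      C / Real.log T * ∑ m ∈ S, ‖a m‖ ^ 2 / m := by
    rw [Finset.mul_sum]
    refine Finset.sum_le_sum fun m hm => ?_
    have h2 := h1 m hm
    have h3 : ∑ m' ∈ S with (m' ≠ m ∧ |Real.log m - Real.log m'| ≤ 2 * X),
        ‖a m‖ ^ 2 * ((Nat.gcd m m' : ℝ) / ((m : ℝ) * m')) =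
        ‖a m‖ ^ 2 / m * ∑ m' ∈ S with (m' ≠ m ∧ |Real.log m - Real.log m'| ≤ 2 * X),
        (Nat.gcd m m' : ℝ) / m' := by
      rw [Finset.mul_sum]
      refine Finset.sum_congr rfl fun m' _ => ?_
      rw [div_mul_div_comm, mul_div_assoc]
    rw [h3, mul_comm (C / Real.log T)]
    exact mul_le_mul_of_nonneg_left h2 (by positivity)
  calc ∑ m ∈ S, ∑ m' ∈ S with (m' ≠ m ∧ |Real.log m - Real.log m'| ≤ 2 * X),
      ‖a m‖ * ‖a m'‖ * ((Nat.gcd m m' : ℝ) / ((m : ℝ) * m')) ≤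
      ∑ m ∈ S, ∑ m' ∈ S with (m' ≠ m ∧ |Real.log m - Real.log m'| ≤ 2 * X),
      (1 / 2 * (‖a m‖ ^ 2 * ((Nat.gcd m m' : ℝ) / ((m : ℝ) * m'))) +
        1 / 2 * (‖a m'‖ ^ 2 * ((Nat.gcd m m' : ℝ) / ((m : ℝ) * m')))) := by
        refine Finset.sum_le_sum fun m _ => Finset.sum_le_sum fun m' _ => ?_
        have h4 : 0 ≤ (Nat.gcd m m' : ℝ) / ((m : ℝ) * m') := by positivity
        have h5 : ‖a m‖ * ‖a m'‖ ≤ 1 / 2 * ‖a m‖ ^ 2 + 1 / 2 * ‖a m'‖ ^ 2 := by
          nlinarith [sq_nonneg (‖a m‖ - ‖a m'‖)]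
        calc ‖a m‖ * ‖a m'‖ * ((Nat.gcd m m' : ℝ) / ((m : ℝ) * m')) ≤
              (1 / 2 * ‖a m‖ ^ 2 + 1 / 2 * ‖a m'‖ ^ 2) *
                ((Nat.gcd m m' : ℝ) / ((m : ℝ) * m')) := mul_le_mul_of_nonneg_right h5 h4
          _ = _ := by ring
    _ = 1 / 2 * (∑ m ∈ S, ∑ m' ∈ S with (m' ≠ m ∧ |Real.log m - Real.log m'| ≤ 2 * X),
      ‖a m‖ ^ 2 * ((Nat.gcd m m' : ℝ) / ((m : ℝ) * m'))) +
      1 / 2 * (∑ m ∈ S, ∑ m' ∈ S with (m' ≠ m ∧ |Real.log m - Real.log m'| ≤ 2 * X),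
      ‖a m'‖ ^ 2 * ((Nat.gcd m m' : ℝ) / ((m : ℝ) * m'))) := by
        simp only [Finset.sum_add_distrib, Finset.mul_sum]
    _ = ∑ m ∈ S, ∑ m' ∈ S with (m' ≠ m ∧ |Real.log m - Real.log m'| ≤ 2 * X),
      ‖a m‖ ^ 2 * ((Nat.gcd m m' : ℝ) / ((m : ℝ) * m')) := by
        rw [hswap]
        ring
    _ ≤ _ := hA'

end Pool.Agent.MP_67227b_nt.Gk
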