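import Mathlib
import Pool.Agent.MP_67227b_nt.Gk.GkMA
import Pool.Agent.MP_67227b_nt.Gk.GkMB

set_option autoImplicit false

open Filter Topology Set MeasureTheory Complex
open scoped Real ContDiff ArithmeticFunction ArithmeticFunction.Moebius
open scoped Classical

namespace Pool.Agent.MP_67227b_nt.Gk

open Pool.Agent.MP_67227b_nt.Gg (Eta Rho wt ex PP)
open Pool.Agent.BV (tau)

/-- The terms of `coef_sq`. -/
private noncomputable def MDs_h (k : ℕ) : ℝ := (μ k : ℝ) ^ 2 * ((k : ℝ) / (Nat.totient k : ℝ) ^ 2)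

private theorem MDs_h0 (k : ℕ) : 0 ≤ MDs_h k := by
  unfold MDs_h
  positivity

private theorem MDs_H : ∃ C : ℝ, 0 ≤ C ∧ ∀ T : ℝ, 3 ≤ T →
    ∑ k ∈ Finset.Icc 1 ⌊T⌋₊, MDs_h k ≤ C * Real.log T := by
  obtain ⟨C, hC, h⟩ := coef_sq
  refine ⟨2 * C, by positivity, fun T hT => ?_⟩
  have hN : 1 ≤ ⌊T⌋₊ := Nat.le_floor (by push_cast; linarith)
  have h1 := h ⌊T⌋₊ hN
  have h2 : Real.log (⌊T⌋₊ : ℝ) ≤ Real.log T :=
    Real.log_le_log (by exact_mod_cast hN) (Nat.floor_le (by linarith))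
  have h3 : (1 : ℝ) ≤ Real.log T := by
    rw [Real.le_log_iff_exp_le (by linarith)]
    linarith [Real.exp_one_lt_d9]
  calc ∑ k ∈ Finset.Icc 1 ⌊T⌋₊, MDs_h k ≤ C * (1 + Real.log (⌊T⌋₊ : ℝ)) := h1
    _ ≤ 2 * C * Real.log T := by nlinarith

private theorem MDs_pos {A₀ κ₀ T : ℝ} {m : ℕ} (hm : m ∈ Sk A₀ κ₀ T) : 1 ≤ m := by
  unfold Sk Mk at hm
  exact (Finset.mem_Icc.1 (Finset.mem_filter.1 hm).1).1

/-- The elementary inequality. -/
private theorem MDs_ineq {a f d A₂ φf φd φA φQ : ℝ} (hA : a = f * A₂) (hf : f ≤ 2 * φf)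
    (hd : d ≤ 2 * φd) (hf0 : 0 ≤ f) (hd0 : 0 < d) (hA₂ : 0 ≤ A₂) (hφA : 0 < φA) (hφf : 0 < φf)
    (hφd : 0 < φd) (hφQ : φd * φA ≤ φQ) :
    a / ((φf * φA) * φQ) ≤ 4 / d * (A₂ / φA ^ 2) := by
  have hQ : 0 < φQ := lt_of_lt_of_le (by positivity) hφQ
  rw [div_le_iff₀ (by positivity)]
  have h1 : 4 / d * (A₂ / φA ^ 2) * (φf * φA * (φd * φA)) = 4 * A₂ * φf * φd / d := by
    field_simp
  have h2 : 4 / d * (A₂ / φA ^ 2) * (φf * φA * (φd * φA)) ≤
      4 / d * (A₂ / φA ^ 2) * (φf * φA * φQ) := by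
    apply mul_le_mul_of_nonneg_left _ (by positivity)
    apply mul_le_mul_of_nonneg_left hφQ (by positivity)
  refine le_trans ?_ h2
  rw [h1, hA, le_div_iff₀ hd0]
  have h3 : f * d ≤ (2 * φf) * (2 * φd) := mul_le_mul hf hd hd0.le (by positivity)
  nlinarith

/-- PROOF. `g = (m,m')`, `m = g d`, `m' = g d'`, `(d,d') = 1`: `gcd(m, m'A) = g gcd(d, A)`, so
`Q = d' (A/gcd(d,A))`, `φ(Q) ≥ φ(d') φ(A/gcd(d,A)) ≥ (d'/2) φ(A/gcd(d,A))` (`sift_phi`,
`Nat.totient_super_multiplicative`). For squarefree `A`, sorted by `f = gcd(d,A)`, `A = f A₂`,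
`(f, A₂) = 1`: `A/(φ(A) φ(A/f)) = (f/φ(f)) A₂/φ(A₂)² ≤ 2 A₂/φ(A₂)²`. The number of `f ∣ d` is `≤ C`
(`sift_tau`), and `coef_sq`. (`1/d' = g/m'`.) -/
theorem sumQ (A₀ : ℝ) {κ₀ : ℝ} (hκ₀ : 0 < κ₀) : ∃ C : ℝ, 0 ≤ C ∧ ∀ᶠ T : ℝ in atTop,
    ∀ m ∈ Sk A₀ κ₀ T, ∀ m' ∈ Sk A₀ κ₀ T,
    ∑ A ∈ Finset.Icc 1 ⌊T⌋₊, (μ A : ℝ) ^ 2 *
      ((A : ℝ) / ((Nat.totient A : ℝ) * (Nat.totient (Qk m m' A) : ℝ))) ≤
        C * Real.log T * ((Nat.gcd m m' : ℝ) / m') := by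
  obtain ⟨C₁, hC₁, h₁⟩ := sift_tau A₀ hκ₀
  obtain ⟨C₀, hC₀, h₀⟩ := MDs_H
  refine ⟨4 * C₁ * C₀, by positivity, ?_⟩
  filter_upwards [h₁, sift_phi A₀ hκ₀, eventually_ge_atTop (3 : ℝ)] with T ht hphi hT m hm m' hm'
  have hm0 := MDs_pos hm
  have hm'0 := MDs_pos hm'
  obtain ⟨d, d', hcop, hd, hd'⟩ := Nat.exists_coprime m m'
  have hg : 0 < Nat.gcd m m' := Nat.gcd_pos_of_pos_left _ hm0
  generalize Nat.gcd m m' = g at hd hd' hg ⊢
  have hd0 : 0 < d := Nat.pos_of_ne_zero fun h => by rw [h, zero_mul] at hd; omega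
  have hd'0 : 0 < d' := Nat.pos_of_ne_zero fun h => by rw [h, zero_mul] at hd'; omega
  have hdm : d ∣ m := ⟨g, hd⟩
  have hdm' : d' ∣ m' := ⟨g, hd'⟩
  have hd'R : (0 : ℝ) < d' := by exact_mod_cast hd'0
  have hgR : (0 : ℝ) < g := by exact_mod_cast hg
  have hphid' : (d' : ℝ) ≤ 2 * (Nat.totient d' : ℝ) :=
    (hphi m' hm' d' (Nat.mem_divisors.2 ⟨hdm', by omega⟩)).2
  have htaud : (d.divisors.card : ℝ) ≤ C₁ := by
    refine le_trans ?_ (ht m hm)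
    unfold tau
    exact_mod_cast Finset.card_le_card (Nat.divisors_subset_of_dvd (by omega) hdm)
  -- the terms
  have hterm : ∀ A ∈ Finset.Icc 1 ⌊T⌋₊, (μ A : ℝ) ^ 2 *
      ((A : ℝ) / ((Nat.totient A : ℝ) * (Nat.totient (Qk m m' A) : ℝ))) ≤
        4 / d' * MDs_h (A / Nat.gcd d A) := by
    intro A hA
    have hA1 := (Finset.mem_Icc.1 hA).1
    by_cases hsq : Squarefree A
    · obtain ⟨A₂, hA₂⟩ := Nat.gcd_dvd_right d A
      obtain ⟨f, hf⟩ : ∃ f, f = Nat.gcd d A := ⟨_, rfl⟩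
      rw [← hf] at hA₂
      have hfd : f ∣ d := hf ▸ Nat.gcd_dvd_left d A
      have hf0 : 0 < f := Nat.pos_of_dvd_of_pos hfd hd0
      have hdiv : A / Nat.gcd d A = A₂ := by
        rw [← hf, hA₂]
        exact Nat.mul_div_cancel_left _ hf0
      have hA₂0 : 0 < A₂ := Nat.pos_of_ne_zero fun h => by rw [h, mul_zero] at hA₂; omega
      have hsq' : Squarefree (f * A₂) := hA₂ ▸ hsq
      obtain ⟨hc1, -, hsq2⟩ := Nat.squarefree_mul_iff.1 hsq'
      have hQ : Qk m m' A = d' * A₂ := by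
        have e1 : m = g * d := by rw [hd]; ring
        have e2 : m' * A = g * (d' * A) := by rw [hd']; ring
        have e3 : Nat.gcd m (m' * A) = g * f := by
          rw [e1, e2, Nat.gcd_mul_left, hf]
          congr 1
          exact Nat.Coprime.gcd_mul_left_cancel_right A hcop.symm
        unfold Qk
        rw [e3, e2, Nat.mul_div_mul_left _ _ hg, hA₂, ← mul_assoc, mul_comm d' f, mul_assoc,
          Nat.mul_div_cancel_left _ hf0]
      have hφ : Nat.totient A = Nat.totient f * Nat.totient A₂ := by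
        rw [hA₂, Nat.totient_mul hc1]
      rw [hdiv, hQ, hφ]
      unfold MDs_h
      have hμA : (μ A : ℝ) ^ 2 = 1 := by
        exact_mod_cast ArithmeticFunction.moebius_sq_eq_one_of_squarefree hsq
      have hμA₂ : (μ A₂ : ℝ) ^ 2 = 1 := by
        exact_mod_cast ArithmeticFunction.moebius_sq_eq_one_of_squarefree hsq2
      rw [hμA, hμA₂, one_mul, one_mul, Nat.cast_mul]
      refine MDs_ineq (f := (f : ℝ)) (φd := (Nat.totient d' : ℝ)) ?_ ?_ hphid' (Nat.cast_nonneg _)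
        hd'R (Nat.cast_nonneg _) ?_ ?_ ?_ ?_
      · rw [hA₂]
        push_cast
        rfl
      · exact (hphi m hm f (Nat.mem_divisors.2 ⟨hfd.trans hdm, by omega⟩)).2
      · exact_mod_cast Nat.totient_pos.2 hA₂0
      · exact_mod_cast Nat.totient_pos.2 hf0
      · exact_mod_cast Nat.totient_pos.2 hd'0
      · exact_mod_cast Nat.totient_super_multiplicative d' A₂
    · rw [ArithmeticFunction.moebius_eq_zero_of_not_squarefree hsq, Int.cast_zero]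
      have := MDs_h0 (A / Nat.gcd d A)
      have h4 : (0 : ℝ) ≤ 4 / d' := by positivity
      simpa using mul_nonneg h4 this
  -- the sum of the right sides
  have hinj : ∑ A ∈ Finset.Icc 1 ⌊T⌋₊, MDs_h (A / Nat.gcd d A) ≤
      ∑ q ∈ d.divisors ×ˢ Finset.Icc 1 ⌊T⌋₊, MDs_h q.2 := by
    have hI : Set.InjOn (fun A : ℕ => (Nat.gcd d A, A / Nat.gcd d A))
        (Finset.Icc 1 ⌊T⌋₊ : Finset ℕ) := by
      intro A _ B _ hAB
      obtain ⟨h1, h2⟩ := Prod.mk.inj hAB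
      rw [← Nat.mul_div_cancel' (Nat.gcd_dvd_right d A), ← Nat.mul_div_cancel'
        (Nat.gcd_dvd_right d B), h2, h1]
    rw [show ∑ A ∈ Finset.Icc 1 ⌊T⌋₊, MDs_h (A / Nat.gcd d A) =
      ∑ q ∈ (Finset.Icc 1 ⌊T⌋₊).image (fun A : ℕ => (Nat.gcd d A, A / Nat.gcd d A)),
        MDs_h q.2 from (Finset.sum_image (f := fun q : ℕ × ℕ => MDs_h q.2) hI).symm]
    refine Finset.sum_le_sum_of_subset_of_nonneg ?_ fun q _ _ => MDs_h0 _
    intro q hq
    obtain ⟨A, hA, rfl⟩ := Finset.mem_image.1 hq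
    obtain ⟨hA1, hA2⟩ := Finset.mem_Icc.1 hA
    refine Finset.mem_product.2 ⟨Nat.mem_divisors.2 ⟨Nat.gcd_dvd_left d A, by omega⟩,
      Finset.mem_Icc.2 ⟨?_, (Nat.div_le_self _ _).trans hA2⟩⟩
    exact Nat.div_pos (Nat.le_of_dvd hA1 (Nat.gcd_dvd_right d A))
      (Nat.gcd_pos_of_pos_left _ hd0)
  have hprod : ∑ q ∈ d.divisors ×ˢ Finset.Icc 1 ⌊T⌋₊, MDs_h q.2 =
      (d.divisors.card : ℝ) * ∑ k ∈ Finset.Icc 1 ⌊T⌋₊, MDs_h k := by
    rw [Finset.sum_product]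
    simp only
    rw [Finset.sum_const, nsmul_eq_mul]
  have hS := h₀ T hT
  have hS0 : 0 ≤ ∑ k ∈ Finset.Icc 1 ⌊T⌋₊, MDs_h k := Finset.sum_nonneg fun k _ => MDs_h0 k
  have hgm : (g : ℝ) / m' = 1 / d' := by
    rw [hd']
    push_cast
    field_simp
  rw [hgm]
  calc _ ≤ ∑ A ∈ Finset.Icc 1 ⌊T⌋₊, 4 / d' * MDs_h (A / Nat.gcd d A) := Finset.sum_le_sum hterm
    _ = 4 / d' * ∑ A ∈ Finset.Icc 1 ⌊T⌋₊, MDs_h (A / Nat.gcd d A) := by rw [Finset.mul_sum]
    _ ≤ 4 / d' * ((d.divisors.card : ℝ) * ∑ k ∈ Finset.Icc 1 ⌊T⌋₊, MDs_h k) := by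
        apply mul_le_mul_of_nonneg_left _ (by positivity)
        rw [← hprod]
        exact hinj
    _ ≤ 4 / d' * (C₁ * (C₀ * Real.log T)) := by
        apply mul_le_mul_of_nonneg_left _ (by positivity)
        exact mul_le_mul htaud hS hS0 (by linarith)
    _ = 4 * C₁ * C₀ * Real.log T * (1 / d') := by ring

/-- PROOF. With `m = g d`, `m' = g d'`: `m A = m' A'` iff `A = d' k`, `A' = d k`. If `A`, `A'` are
squarefree then `φ(A) = φ(d') φ(k)`, `φ(A') = φ(d) φ(k)`, and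
`A/(φ(A) φ(A')) = (d'/φ(d')) (1/φ(d)) k/φ(k)² ≤ 2 (2/d) k/φ(k)²` (`sift_phi`), `k ≤ T` squarefree:
`coef_sq`. (`1/d = g/m`.) -/
theorem sumAA (A₀ : ℝ) {κ₀ : ℝ} (hκ₀ : 0 < κ₀) : ∃ C : ℝ, 0 ≤ C ∧ ∀ᶠ T : ℝ in atTop,
    ∀ m ∈ Sk A₀ κ₀ T, ∀ m' ∈ Sk A₀ κ₀ T,
    ∑ A ∈ Finset.Icc 1 ⌊T⌋₊, ∑ A' ∈ Finset.Icc 1 ⌊T⌋₊ with m * A = m' * A',
      |(μ A : ℝ)| * |(μ A' : ℝ)| * ((A : ℝ) / ((Nat.totient A : ℝ) * (Nat.totient A' : ℝ))) ≤
        C * Real.log T * ((Nat.gcd m m' : ℝ) / m) := by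
  obtain ⟨C₀, hC₀, h₀⟩ := MDs_H
  refine ⟨4 * C₀, by positivity, ?_⟩
  filter_upwards [sift_phi A₀ hκ₀, eventually_ge_atTop (3 : ℝ)] with T hphi hT m hm m' hm'
  have hm0 := MDs_pos hm
  have hm'0 := MDs_pos hm'
  obtain ⟨d, d', hcop, hd, hd'⟩ := Nat.exists_coprime m m'
  have hg : 0 < Nat.gcd m m' := Nat.gcd_pos_of_pos_left _ hm0
  generalize Nat.gcd m m' = g at hd hd' hg ⊢
  have hd0 : 0 < d := Nat.pos_of_ne_zero fun h => by rw [h, zero_mul] at hd; omega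
  have hd'0 : 0 < d' := Nat.pos_of_ne_zero fun h => by rw [h, zero_mul] at hd'; omega
  have hdm : d ∣ m := ⟨g, hd⟩
  have hdm' : d' ∣ m' := ⟨g, hd'⟩
  have hdR : (0 : ℝ) < d := by exact_mod_cast hd0
  have hgR : (0 : ℝ) < g := by exact_mod_cast hg
  have hphid : (d : ℝ) ≤ 2 * (Nat.totient d : ℝ) :=
    (hphi m hm d (Nat.mem_divisors.2 ⟨hdm, by omega⟩)).2
  have hphid' : (d' : ℝ) ≤ 2 * (Nat.totient d' : ℝ) :=
    (hphi m' hm' d' (Nat.mem_divisors.2 ⟨hdm', by omega⟩)).2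
  have hiff : ∀ A A' : ℕ, m * A = m' * A' ↔ d * A = d' * A' := by
    intro A A'
    have e1 : m * A = g * (d * A) := by rw [hd]; ring
    have e2 : m' * A' = g * (d' * A') := by rw [hd']; ring
    rw [e1, e2]
    exact ⟨fun h => Nat.eq_of_mul_eq_mul_left hg h, fun h => by rw [h]⟩
  -- the inner sums
  have hterm : ∀ A ∈ Finset.Icc 1 ⌊T⌋₊,
      ∑ A' ∈ Finset.Icc 1 ⌊T⌋₊ with m * A = m' * A', |(μ A : ℝ)| * |(μ A' : ℝ)| *
        ((A : ℝ) / ((Nat.totient A : ℝ) * (Nat.totient A' : ℝ))) ≤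
      if d' ∣ A then 4 / d * MDs_h (A / d') else 0 := by
    intro A hA
    have hA1 := (Finset.mem_Icc.1 hA).1
    split_ifs with hdA
    · obtain ⟨k, hk⟩ := hdA
      have hk0 : 0 < k := Nat.pos_of_ne_zero fun h => by rw [h, mul_zero] at hk; omega
      have hdiv : A / d' = k := by rw [hk]; exact Nat.mul_div_cancel_left _ hd'0
      have hsub : (Finset.Icc 1 ⌊T⌋₊).filter (fun A' => m * A = m' * A') ⊆ {d * k} := by
        intro A' hA'
        rw [Finset.mem_singleton]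
        have h1 := (hiff A A').1 (Finset.mem_filter.1 hA').2
        rw [hk] at h1
        have h2 : d' * A' = d' * (d * k) := by rw [← h1]; ring
        exact Nat.eq_of_mul_eq_mul_left hd'0 h2
      refine (Finset.sum_le_sum_of_subset_of_nonneg hsub fun A' _ _ => by positivity).trans ?_
      rw [Finset.sum_singleton, hdiv]
      by_cases hsq : Squarefree A ∧ Squarefree (d * k)
      · obtain ⟨hsq1, hsq2⟩ := hsq
        rw [hk] at hsq1
        obtain ⟨hc1, -, hsqk⟩ := Nat.squarefree_mul_iff.1 hsq1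
        obtain ⟨hc2, -, -⟩ := Nat.squarefree_mul_iff.1 hsq2
        have hφ : Nat.totient A = Nat.totient d' * Nat.totient k := by
          rw [hk, Nat.totient_mul hc1]
        have hφ' : Nat.totient (d * k) = Nat.totient d * Nat.totient k := Nat.totient_mul hc2
        have hμk : (μ k : ℝ) ^ 2 = 1 := by
          exact_mod_cast ArithmeticFunction.moebius_sq_eq_one_of_squarefree hsqk
        have hμA : |(μ A : ℝ)| = 1 := by
          rw [hk]
          exact_mod_cast ArithmeticFunction.abs_moebius_eq_one_of_squarefree hsq1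
        have hμA' : |(μ (d * k) : ℝ)| = 1 := by
          exact_mod_cast ArithmeticFunction.abs_moebius_eq_one_of_squarefree hsq2
        unfold MDs_h
        rw [hμA, hμA', hμk, one_mul, one_mul, one_mul, hφ, hφ', Nat.cast_mul, Nat.cast_mul]
        refine MDs_ineq (f := (d' : ℝ)) (φd := (Nat.totient d : ℝ)) ?_ hphid' hphid
          (Nat.cast_nonneg _) hdR (Nat.cast_nonneg _) ?_ ?_ ?_ le_rfl
        · rw [hk]
          push_cast
          rfl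
        · exact_mod_cast Nat.totient_pos.2 hk0
        · exact_mod_cast Nat.totient_pos.2 hd'0
        · exact_mod_cast Nat.totient_pos.2 hd0
      · have h0 : |(μ A : ℝ)| * |(μ (d * k) : ℝ)| = 0 := by
          rw [not_and_or] at hsq
          rcases hsq with h | h
          · rw [ArithmeticFunction.moebius_eq_zero_of_not_squarefree h]
            simp
          · rw [ArithmeticFunction.moebius_eq_zero_of_not_squarefree h]
            simp
        rw [h0, zero_mul]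
        exact mul_nonneg (by positivity) (MDs_h0 k)
    · refine le_of_eq (Finset.sum_eq_zero fun A' hA' => ?_)
      exfalso
      apply hdA
      have h1 := (hiff A A').1 (Finset.mem_filter.1 hA').2
      exact hcop.symm.dvd_of_dvd_mul_left ⟨A', h1⟩
  have hinj : ∑ A ∈ Finset.Icc 1 ⌊T⌋₊ with d' ∣ A, MDs_h (A / d') ≤
      ∑ k ∈ Finset.Icc 1 ⌊T⌋₊, MDs_h k := by
    have hI : Set.InjOn (fun A : ℕ => A / d')
        ((Finset.Icc 1 ⌊T⌋₊).filter fun A => d' ∣ A : Finset ℕ) := by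
      intro A hA B hB hAB
      have h1 := (Finset.mem_filter.1 (Finset.mem_coe.1 hA)).2
      have h2 := (Finset.mem_filter.1 (Finset.mem_coe.1 hB)).2
      have h3 : A / d' = B / d' := hAB
      rw [← Nat.mul_div_cancel' h1, ← Nat.mul_div_cancel' h2, h3]
    rw [show ∑ A ∈ Finset.Icc 1 ⌊T⌋₊ with d' ∣ A, MDs_h (A / d') =
      ∑ k ∈ ((Finset.Icc 1 ⌊T⌋₊).filter fun A => d' ∣ A).image (fun A : ℕ => A / d'),
        MDs_h k from (Finset.sum_image (f := MDs_h) hI).symm]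
    refine Finset.sum_le_sum_of_subset_of_nonneg ?_ fun q _ _ => MDs_h0 _
    intro q hq
    obtain ⟨A, hA, rfl⟩ := Finset.mem_image.1 hq
    obtain ⟨hA1, hA2⟩ := Finset.mem_filter.1 hA
    obtain ⟨hA3, hA4⟩ := Finset.mem_Icc.1 hA1
    exact Finset.mem_Icc.2 ⟨Nat.div_pos (Nat.le_of_dvd hA3 hA2) hd'0,
      (Nat.div_le_self _ _).trans hA4⟩
  have hS := h₀ T hT
  have hgm : (g : ℝ) / m = 1 / d := by
    rw [hd]
    push_cast
    field_simp
  rw [hgm]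
  calc _ ≤ ∑ A ∈ Finset.Icc 1 ⌊T⌋₊, (if d' ∣ A then 4 / (d : ℝ) * MDs_h (A / d') else 0) :=
        Finset.sum_le_sum hterm
    _ = 4 / d * ∑ A ∈ Finset.Icc 1 ⌊T⌋₊ with d' ∣ A, MDs_h (A / d') := by
        rw [← Finset.sum_filter, Finset.mul_sum]
    _ ≤ 4 / d * (C₀ * Real.log T) := by
        apply mul_le_mul_of_nonneg_left (hinj.trans hS) (by positivity)
    _ = 4 * C₀ * Real.log T * (1 / d) := by ring

end Pool.Agent.MP_67227b_nt.Gk
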