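import Mathlib
import Pool.Agent.MP_67227b_nt.Gk.GkMD
import Pool.Agent.MP_67227b_nt.Gk.GkZero

set_option autoImplicit false

open Filter Topology Set MeasureTheory Complex
open scoped Real ContDiff ArithmeticFunction ArithmeticFunction.Moebius
open scoped Classical

namespace Pool.Agent.MP_67227b_nt.Gk

open Pool.Agent.MP_67227b_nt.Gg (Eta Rho wt ex PP)
open Pool.Agent.BV (tau)

private theorem MF1_log {n m m' : ℕ} (hn : 1 ≤ n) (hm : 1 ≤ m) (hm' : 1 ≤ m') :
    Real.log (n * m / m') = Real.log n + Real.log m - Real.log m' := by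
  have h1 : (n : ℝ) ≠ 0 := by positivity
  have h2 : (m : ℝ) ≠ 0 := by positivity
  have h3 : (m' : ℝ) ≠ 0 := by positivity
  rw [Real.log_div (mul_ne_zero h1 h2) h3, Real.log_mul h1 h2]

/-- PROOF. `wk_supp`: `|log m - log m'| ≤ 2X` if some `wk ≠ 0`. -/
theorem wk_far {X κ : ℝ} {η ρ : ℝ → ℝ} (hη : Eta X η) {α T : ℝ} {n m m' A B : ℕ} (hn : 1 ≤ n)
    (hm : 1 ≤ m) (hm' : 1 ≤ m') (h : 2 * X < |Real.log m - Real.log m'|) :
    wk η ρ α T n m m' A B = 0 := by
  unfold wk
  by_cases h1 : X < |Real.log n - α * Real.log T|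
  · rw [hη.supp _ h1, zero_mul, zero_mul]
  · by_cases h2 : X < |Real.log (n * m / m') - α * Real.log T|
    · rw [hη.supp _ h2, mul_zero, zero_mul]
    · exfalso
      rw [MF1_log hn hm hm'] at h2
      rw [not_lt] at h1 h2
      have h3 : Real.log m - Real.log m' = (Real.log n + Real.log m - Real.log m' -
        α * Real.log T) - (Real.log n - α * Real.log T) := by ring
      have h4 := abs_sub (Real.log n + Real.log m - Real.log m' -
        α * Real.log T) (Real.log n - α * Real.log T)
      rw [h3] at h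
      linarith

private theorem MF1_card {Z : ℝ} (hZ : 0 ≤ Z) (S : Finset ℕ) (hS : ∀ B ∈ S, 1 ≤ B)
    (p : ℕ → Prop) [DecidablePred p] (hp : ∀ B ∈ S, p B → (B : ℝ) ≤ Z) :
    ((S.filter p).card : ℝ) ≤ Z := by
  have h1 : S.filter p ⊆ Finset.Icc 1 ⌊Z⌋₊ := by
    intro B hB
    rw [Finset.mem_filter] at hB
    rw [Finset.mem_Icc]
    exact ⟨hS B hB.1, Nat.le_floor (hp B hB.1 hB.2)⟩
  have h2 := Finset.card_le_card h1
  rw [Nat.card_Icc] at h2
  have h3 : ((S.filter p).card : ℝ) ≤ ⌊Z⌋₊ := by
    have : (S.filter p).card ≤ ⌊Z⌋₊ := by omega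
    exact_mod_cast this
  exact h3.trans (Nat.floor_le hZ)

/-- PROOF. `wk ≠ 0` implies `n ≤ T^α e^X` and `B ≤ A T^{1-α} e^X` (`wk_supp`: `2π(nm/m')B ≤ AT`,
`nm/m' ≥ T^α e^{-X}`), `|wk| ≤ 1` (`wk_le`); `∑_{n ≤ y} Λ(n) ≤ C y` (Chebyshev). -/
theorem inner_n {X κ : ℝ} {η ρ : ℝ → ℝ} (hκ : 0 < κ) (hη : Eta X η) (hρ : Rho κ ρ) :
    ∃ C : ℝ, 0 ≤ C ∧ ∀ᶠ T : ℝ in atTop, ∀ α ∈ Icc (1 : ℝ) (3 / 2), ∀ m m' A : ℕ, 1 ≤ m →
      1 ≤ m' → 1 ≤ A → ∑ B ∈ Bk T m' A, ∑ n ∈ Finset.Icc 1 ⌊T ^ (2 : ℝ)⌋₊,
        Λ n * |wk η ρ α T n m m' A B| ≤ C * T * A := by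
  have hlog4 : 0 ≤ Real.log 4 + 4 := by
    have := Real.log_nonneg (by norm_num : (1 : ℝ) ≤ 4)
    linarith
  refine ⟨(Real.log 4 + 4) * Real.exp X * Real.exp X, by positivity, ?_⟩
  filter_upwards [eventually_gt_atTop (1 : ℝ)] with T hT α _ m m' A hm hm' hA
  have hT0 : 0 < T := by linarith
  have hTα : 0 < T ^ α := Real.rpow_pos_of_pos hT0 α
  have hA0 : (0 : ℝ) < A := by exact_mod_cast hA
  set Z : ℝ := A * T / (T ^ α * Real.exp (-X)) with hZ
  have hZ0 : 0 ≤ Z := by positivity
  have hpsi : ∑ n ∈ (Finset.Icc 1 ⌊T ^ (2 : ℝ)⌋₊).filter (fun n : ℕ => (n : ℝ) ≤ T ^ α * Real.exp X),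
      Λ n ≤ (Real.log 4 + 4) * (T ^ α * Real.exp X) := by
    refine le_trans ?_ (Chebyshev.psi_le_const_mul_self (by positivity))
    unfold Chebyshev.psi
    apply Finset.sum_le_sum_of_subset_of_nonneg
    · intro n hn
      rw [Finset.mem_filter, Finset.mem_Icc] at hn
      rw [Finset.mem_Ioc]
      exact ⟨by omega, Nat.le_floor hn.2⟩
    · intro n _ _
      exact ArithmeticFunction.vonMangoldt_nonneg
  have hin : ∀ B ∈ Bk T m' A, ∑ n ∈ Finset.Icc 1 ⌊T ^ (2 : ℝ)⌋₊,
      Λ n * |wk η ρ α T n m m' A B| ≤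
      if (B : ℝ) ≤ Z then (Real.log 4 + 4) * (T ^ α * Real.exp X) else 0 := by
    intro B hB
    split_ifs with hBZ
    · refine le_trans ?_ hpsi
      rw [Finset.sum_filter]
      apply Finset.sum_le_sum
      intro n hn
      rw [Finset.mem_Icc] at hn
      have h0 : 0 ≤ Λ n := ArithmeticFunction.vonMangoldt_nonneg
      split_ifs with h1
      · have h2 := wk_le hη hρ α T n m m' A B
        exact mul_le_of_le_one_right h0 h2
      · apply le_of_eq
        have h2 : wk η ρ α T n m m' A B = 0 := by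
          by_contra h3
          exact h1 (wk_supp hκ hη hρ hT hn.1 hm hm' hA h3).2.1
        rw [h2, abs_zero, mul_zero]
    · apply le_of_eq
      apply Finset.sum_eq_zero
      intro n hn
      rw [Finset.mem_Icc] at hn
      have h2 : wk η ρ α T n m m' A B = 0 := by
        by_contra h3
        obtain ⟨_, _, _, h4, h5⟩ := wk_supp hκ hη hρ hT hn.1 hm hm' hA h3
        apply hBZ
        rw [hZ, le_div_iff₀ (by positivity)]
        have h6 : (0 : ℝ) ≤ B := Nat.cast_nonneg B
        have h7 : (B : ℝ) * (T ^ α * Real.exp (-X)) ≤ B * (n * m / m') :=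
          mul_le_mul_of_nonneg_left h4 h6
        have h8 : (B : ℝ) * (n * m / m') ≤ 2 * π * (n * m / m') * B := by
          have h9 : (0 : ℝ) ≤ n * m / m' * B := by positivity
          have h10 : (1 : ℝ) ≤ 2 * π := by
            have := Real.pi_gt_three
            linarith
          calc (B : ℝ) * (n * m / m') = 1 * (n * m / m' * B) := by ring
            _ ≤ 2 * π * (n * m / m' * B) := mul_le_mul_of_nonneg_right h10 h9
            _ = _ := by ring
        linarith
      rw [h2, abs_zero, mul_zero]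
  calc ∑ B ∈ Bk T m' A, ∑ n ∈ Finset.Icc 1 ⌊T ^ (2 : ℝ)⌋₊, Λ n * |wk η ρ α T n m m' A B|
      ≤ ∑ B ∈ Bk T m' A, if (B : ℝ) ≤ Z then (Real.log 4 + 4) * (T ^ α * Real.exp X) else 0 :=
        Finset.sum_le_sum hin
    _ = (((Bk T m' A).filter fun B : ℕ => (B : ℝ) ≤ Z).card : ℝ) *
        ((Real.log 4 + 4) * (T ^ α * Real.exp X)) := by
        rw [← Finset.sum_filter, Finset.sum_const, nsmul_eq_mul]
    _ ≤ Z * ((Real.log 4 + 4) * (T ^ α * Real.exp X)) := by
        apply mul_le_mul_of_nonneg_right _ (by positivity)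
        apply MF1_card hZ0
        · intro B hB
          rw [Bk, Finset.mem_filter, Finset.mem_Icc] at hB
          exact hB.1.1
        · intro B _ h
          exact h
    _ = (Real.log 4 + 4) * Real.exp X * Real.exp X * T * A := by
        rw [hZ, Real.exp_neg]
        have := Real.exp_pos X
        field_simp

/-- PROOF. The two `η` vanish simultaneously at every `v`. -/
theorem yw_far {X κ : ℝ} {η ρ : ℝ → ℝ} (hη : Eta X η) {α T : ℝ} {m m' A B : ℕ} (hm : 1 ≤ m)
    (hm' : 1 ≤ m') (h : 2 * X < |Real.log m - Real.log m'|) : yw η ρ α T m m' A B = 0 := by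
  unfold yw
  have h0 : (fun v : ℝ => Real.exp v * η (v - Real.log m - α * Real.log T) *
    η (v - Real.log m' - α * Real.log T) * wt ρ T A B (Real.exp v / m) ^ 2) = fun _ => 0 := by
    funext v
    by_cases h1 : X < |v - Real.log m - α * Real.log T|
    · rw [hη.supp _ h1, mul_zero, zero_mul, zero_mul]
    · by_cases h2 : X < |v - Real.log m' - α * Real.log T|
      · rw [hη.supp _ h2, mul_zero, zero_mul]
      · exfalso
        rw [not_lt] at h1 h2
        have h3 : Real.log m - Real.log m' = (v - Real.log m' - α * Real.log T) -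
          (v - Real.log m - α * Real.log T) := by ring
        have h4 := abs_sub (v - Real.log m' - α * Real.log T) (v - Real.log m - α * Real.log T)
        rw [h3] at h
        linarith
  rw [h0, integral_zero]

private theorem MF2_eta_le {X : ℝ} {η : ℝ → ℝ} (hη : Eta X η) (v : ℝ) : |η v| ≤ 1 := by
  have h1 := hη.sq_le v
  have h2 : Real.exp (-(2 * |v|)) ≤ 1 := Real.exp_le_one_iff.2 (by
    have := abs_nonneg v
    linarith)
  have h3 : η v ^ 2 ≤ 1 ^ 2 := by linarith
  exact abs_le_of_sq_le_sq h3 zero_le_one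

/-- PROOF. In the integral `|v - log m - αL| ≤ X`, so `e^v ≤ m T^α e^X`, and for each such `v` the
number of `B ≥ 1` with `wt ρ T A B (e^v/m) ≠ 0` is at most `A T^{1-α} e^X`
(`2π (e^v/m) B ≤ AT`, `e^v/m ≥ T^α e^{-X}`); the integral is over an interval of length `2X`. -/
theorem inner_v {X κ : ℝ} {η ρ : ℝ → ℝ} (hκ : 0 < κ) (hη : Eta X η) (hρ : Rho κ ρ) :
    ∃ C : ℝ, 0 ≤ C ∧ ∀ᶠ T : ℝ in atTop, ∀ α ∈ Icc (1 : ℝ) (3 / 2), ∀ m m' A : ℕ, 1 ≤ m →
      1 ≤ m' → 1 ≤ A → ∑ B ∈ Bk T m A, |yw η ρ α T m m' A B| ≤ C * T * A * m := by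
  refine ⟨2 * |X|, by positivity, ?_⟩
  filter_upwards [eventually_gt_atTop (1 : ℝ)] with T hT α _ m m' A hm hm' hA
  have hT0 : 0 < T := by linarith
  have hA0 : (0 : ℝ) < A := by exact_mod_cast hA
  have hm0 : (0 : ℝ) < m := by exact_mod_cast hm
  set c₀ : ℝ := Real.log m + α * Real.log T with hc₀
  set g : ℕ → ℝ → ℝ := fun B v => Real.exp v * η (v - Real.log m - α * Real.log T) *
    η (v - Real.log m' - α * Real.log T) * wt ρ T A B (Real.exp v / m) ^ 2 with hg
  have hgc : ∀ B, Continuous (g B) := by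
    intro B
    have h1 := hη.smooth.continuous
    have h2 := hρ.smooth.continuous
    simp only [hg, wt]
    fun_prop
  have hgs : ∀ B v, v ∉ Icc (c₀ - |X|) (c₀ + |X|) → g B v = 0 := by
    intro B v hv
    have h1 : X < |v - Real.log m - α * Real.log T| := by
      by_contra h1
      rw [not_lt] at h1
      apply hv
      have h2 := abs_le.1 (h1.trans (le_abs_self X))
      rw [hc₀]
      constructor
      · linarith [h2.1]
      · linarith [h2.2]
    simp only [hg]
    rw [hη.supp _ h1, mul_zero, zero_mul, zero_mul]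
  have hgi : ∀ B, Integrable (fun v => |g B v|) := by
    intro B
    apply Continuous.integrable_of_hasCompactSupport
    · exact (hgc B).abs
    · apply HasCompactSupport.intro isCompact_Icc (K := Icc (c₀ - |X|) (c₀ + |X|))
      intro v hv
      rw [hgs B v hv, abs_zero]
  have hsum : ∀ v, ∑ B ∈ Bk T m A, |g B v| ≤
      (Icc (c₀ - |X|) (c₀ + |X|)).indicator (fun _ => T * A * m) v := by
    intro v
    by_cases hv : v ∈ Icc (c₀ - |X|) (c₀ + |X|)
    · rw [indicator_of_mem hv]
      set Z : ℝ := T * A * m / Real.exp v with hZ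
      have hZ0 : 0 ≤ Z := by positivity
      have hB : ∀ B ∈ Bk T m A, |g B v| ≤ if (B : ℝ) ≤ Z then Real.exp v else 0 := by
        intro B _
        split_ifs with hBZ
        · simp only [hg]
          rw [abs_mul, abs_mul, abs_mul, abs_of_pos (Real.exp_pos v)]
          have h1 := MF2_eta_le hη (v - Real.log m - α * Real.log T)
          have h2 := MF2_eta_le hη (v - Real.log m' - α * Real.log T)
          have h3 : |wt ρ T A B (Real.exp v / m) ^ 2| ≤ 1 := by
            rw [abs_of_nonneg (sq_nonneg _)]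
            exact pow_le_one₀ (hρ.nonneg _) (hρ.le_one _)
          calc Real.exp v * |η (v - Real.log m - α * Real.log T)| *
                |η (v - Real.log m' - α * Real.log T)| * |wt ρ T A B (Real.exp v / m) ^ 2|
              ≤ Real.exp v * 1 * 1 * 1 := by gcongr
            _ = Real.exp v := by ring
        · apply le_of_eq
          have h1 : wt ρ T A B (Real.exp v / m) = 0 := by
            unfold wt
            apply hρ.right
            rw [not_le] at hBZ
            rw [le_div_iff₀ (by positivity)]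
            have h2 : T * A * m < B * Real.exp v := by
              rw [hZ, div_lt_iff₀ (Real.exp_pos v)] at hBZ
              exact hBZ
            have h3 : T * A < B * Real.exp v / m := by
              rw [lt_div_iff₀ hm0]
              exact h2
            have h4 : (1 : ℝ) ≤ 2 * π := by
              have := Real.pi_gt_three
              linarith
            have h5 : (0 : ℝ) ≤ B * Real.exp v / m := by positivity
            have h6 : (B : ℝ) * Real.exp v / m ≤ 2 * π * (Real.exp v / m) * B := by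
              calc (B : ℝ) * Real.exp v / m = 1 * (B * Real.exp v / m) := by ring
                _ ≤ 2 * π * (B * Real.exp v / m) := mul_le_mul_of_nonneg_right h4 h5
                _ = _ := by ring
            have h7 : (1 - κ) * (A * T) ≤ 1 * (A * T) :=
              mul_le_mul_of_nonneg_right (by linarith) (by positivity)
            nlinarith
          simp only [hg]
          rw [h1]
          norm_num
      calc ∑ B ∈ Bk T m A, |g B v| ≤ ∑ B ∈ Bk T m A, if (B : ℝ) ≤ Z then Real.exp v else 0 :=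
            Finset.sum_le_sum hB
        _ = (((Bk T m A).filter fun B : ℕ => (B : ℝ) ≤ Z).card : ℝ) * Real.exp v := by
            rw [← Finset.sum_filter, Finset.sum_const, nsmul_eq_mul]
        _ ≤ Z * Real.exp v := by
            apply mul_le_mul_of_nonneg_right _ (Real.exp_pos v).le
            apply MF1_card hZ0
            · intro B hB
              rw [Bk, Finset.mem_filter, Finset.mem_Icc] at hB
              exact hB.1.1
            · intro B _ h
              exact h
        _ = T * A * m := by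
            rw [hZ]
            have := Real.exp_pos v
            field_simp
    · rw [indicator_of_notMem hv]
      apply le_of_eq
      apply Finset.sum_eq_zero
      intro B _
      rw [hgs B v hv, abs_zero]
  calc ∑ B ∈ Bk T m A, |yw η ρ α T m m' A B| ≤ ∑ B ∈ Bk T m A, ∫ v, |g B v| := by
        apply Finset.sum_le_sum
        intro B _
        exact abs_integral_le_integral_abs
    _ = ∫ v, ∑ B ∈ Bk T m A, |g B v| := by
        rw [integral_finsetSum]
        intro B _
        exact hgi B
    _ ≤ ∫ v, (Icc (c₀ - |X|) (c₀ + |X|)).indicator (fun _ => T * A * m) v := by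
        apply integral_mono
        · exact integrable_finsetSum _ fun B _ => hgi B
        · exact (integrable_indicator_iff measurableSet_Icc).2
            (integrableOn_const (by rw [Real.volume_Icc]; exact ENNReal.ofReal_ne_top))
        · exact hsum
    _ = 2 * |X| * T * A * m := by
        rw [integral_indicator measurableSet_Icc, setIntegral_const, Measure.real,
          Real.volume_Icc, ENNReal.toReal_ofReal, smul_eq_mul]
        · ring
        · have := abs_nonneg X
          linarith

end Pool.Agent.MP_67227b_nt.Gk
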