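import Mathlib
import Pool.Agent.MP_67227b_nt.Gk.GkMC
import Pool.Agent.MP_67227b_nt.Gk.GkMDs
import Pool.Agent.MP_67227b_nt.Gk.GkMF

set_option autoImplicit false

open Filter Topology Set MeasureTheory Complex
open scoped Real ContDiff ArithmeticFunction ArithmeticFunction.Moebius
open scoped Classical

namespace Pool.Agent.MP_67227b_nt.Gk

open Pool.Agent.MP_67227b_nt.Gg (Eta Rho wt ex PP)
open Pool.Agent.BV (tau)

private theorem MG1_pos {A₀ κ₀ T : ℝ} {m : ℕ} (hm : m ∈ Sk A₀ κ₀ T) : 1 ≤ m := by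
  unfold Sk Mk at hm
  exact (Finset.mem_Icc.1 (Finset.mem_filter.1 hm).1).1

private theorem MG1_sub {A₀ c α T : ℝ} (hA : 0 ≤ A₀) (hc : 0 < c) (hT : 3 ≤ T) :
    Ak A₀ c α T ⊆ Finset.Icc 1 ⌊T⌋₊ := by
  intro A hA'
  obtain ⟨h1, h2⟩ := Finset.mem_Ioc.1 hA'
  refine Finset.mem_Icc.2 ⟨by omega, h2.trans (Nat.floor_mono ?_)⟩
  calc T ^ (1 / 2 - A₀ - c) ≤ T ^ (1 : ℝ) :=
        Real.rpow_le_rpow_of_exponent_le (by linarith) (by linarith)
    _ = T := Real.rpow_one T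

private theorem MG1_log {T : ℝ} (hT : 3 ≤ T) : 0 < Real.log T := Real.log_pos (by linarith)

private theorem MG1_mu (A : ℕ) : |(μ A : ℝ)| = (μ A : ℝ) ^ 2 := by
  by_cases h : Squarefree A
  · have h1 : |(μ A : ℝ)| = 1 := by
      exact_mod_cast ArithmeticFunction.abs_moebius_eq_one_of_squarefree h
    have h2 : (μ A : ℝ) ^ 2 = 1 := by
      exact_mod_cast ArithmeticFunction.moebius_sq_eq_one_of_squarefree h
    rw [h1, h2]
  · rw [ArithmeticFunction.moebius_eq_zero_of_not_squarefree h]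
    simp

private theorem MG1_mf (A : ℕ) : ‖mf A‖ = |(μ A : ℝ)| / (Nat.totient A : ℝ) := by
  unfold mf
  rw [Complex.norm_real, Real.norm_eq_abs, abs_div, Nat.abs_cast]

private theorem MG1_mf' (A : ℕ) : ‖mf A‖ ≤ 1 / (Nat.totient A : ℝ) := by
  rw [MG1_mf]
  refine div_le_div_of_nonneg_right ?_ (Nat.cast_nonneg _)
  exact_mod_cast ArithmeticFunction.abs_moebius_le_one (n := A)

/-- PROOF. `‖mf A‖ = |μ A|/φ(A)`, `‖mf Q‖ ≤ 1/φ(Q)`, `inner_n`, `wk_far`, `sumQ`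
(`Ak ⊆ Icc 1 ⌊T⌋`): `‖xi m m'‖ ≤ ∑_A (|μ A|/φ(A)) (1/φ(Q)) C T A ≤ C T L g/m'`, and `0` if
`|log m - log m'| > 2X`. -/
theorem xi_off {X κ A₀ κ₀ : ℝ} {η ρ : ℝ → ℝ} (hκ : 0 < κ) (hη : Eta X η) (hρ : Rho κ ρ) (c : ℝ)
    (hc : 0 < c) (hA : 0 ≤ A₀) (hκ₀ : 0 < κ₀) : ∃ C : ℝ, 0 ≤ C ∧ ∀ᶠ T : ℝ in atTop,
      ∀ α ∈ Icc (1 : ℝ) (3 / 2 - A₀ - 4 * c), ∀ m ∈ Sk A₀ κ₀ T, ∀ m' ∈ Sk A₀ κ₀ T,
      ‖xi η ρ A₀ c α T m m'‖ ≤ C * T * Real.log T * ((Nat.gcd m m' : ℝ) / m') ∧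
        (2 * X < |Real.log m - Real.log m'| → xi η ρ A₀ c α T m m' = 0) := by
  obtain ⟨C₁, hC₁, h₁⟩ := inner_n hκ hη hρ
  obtain ⟨C₂, hC₂, h₂⟩ := sumQ A₀ hκ₀
  refine ⟨C₁ * C₂, by positivity, ?_⟩
  filter_upwards [h₁, h₂, eventually_ge_atTop (3 : ℝ)] with T hn hQ hT α hα m hm m' hm'
  have hm0 := MG1_pos hm
  have hm'0 := MG1_pos hm'
  have hα' : α ∈ Icc (1 : ℝ) (3 / 2) := ⟨hα.1, hα.2.trans (by linarith)⟩
  refine ⟨?_, fun hfar => ?_⟩
  · have h3 : ‖xi η ρ A₀ c α T m m'‖ ≤ ∑ A ∈ Ak A₀ c α T, C₁ * T * ((μ A : ℝ) ^ 2 *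
        ((A : ℝ) / ((Nat.totient A : ℝ) * (Nat.totient (Qk m m' A) : ℝ)))) := by
      unfold xi
      refine (norm_sum_le _ _).trans (Finset.sum_le_sum fun A hA' => ?_)
      have hA1 := (Finset.mem_Icc.1 (MG1_sub hA hc hT hA')).1
      have h4 : ‖∑ B ∈ Bk T m' A, ∑ n ∈ Finset.Icc 1 ⌊T ^ (2 : ℝ)⌋₊,
          ((Λ n * wk η ρ α T n m m' A B : ℝ) : ℂ) * mf (Qk m m' A)‖ ≤
          (C₁ * T * A) * (1 / (Nat.totient (Qk m m' A) : ℝ)) := by
        calc _ ≤ ∑ B ∈ Bk T m' A, ∑ n ∈ Finset.Icc 1 ⌊T ^ (2 : ℝ)⌋₊,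
              (Λ n * |wk η ρ α T n m m' A B|) * (1 / (Nat.totient (Qk m m' A) : ℝ)) := by
              refine (norm_sum_le _ _).trans (Finset.sum_le_sum fun B _ => ?_)
              refine (norm_sum_le _ _).trans (Finset.sum_le_sum fun n _ => ?_)
              rw [norm_mul, Complex.norm_real, Real.norm_eq_abs, abs_mul,
                abs_of_nonneg ArithmeticFunction.vonMangoldt_nonneg]
              refine mul_le_mul_of_nonneg_left (MG1_mf' _) ?_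
              exact mul_nonneg ArithmeticFunction.vonMangoldt_nonneg (abs_nonneg _)
          _ = (∑ B ∈ Bk T m' A, ∑ n ∈ Finset.Icc 1 ⌊T ^ (2 : ℝ)⌋₊,
              Λ n * |wk η ρ α T n m m' A B|) * (1 / (Nat.totient (Qk m m' A) : ℝ)) := by
              rw [Finset.sum_mul]
              refine Finset.sum_congr rfl fun B _ => ?_
              rw [Finset.sum_mul]
          _ ≤ _ := mul_le_mul_of_nonneg_right (hn α hα' m m' A hm0 hm'0 hA1) (by positivity)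
      rw [norm_mul, MG1_mf, MG1_mu]
      calc _ ≤ (μ A : ℝ) ^ 2 / (Nat.totient A : ℝ) *
            ((C₁ * T * A) * (1 / (Nat.totient (Qk m m' A) : ℝ))) :=
            mul_le_mul_of_nonneg_left h4 (by positivity)
        _ = _ := by
            rw [div_mul_eq_mul_div, mul_one_div]
            field_simp
    rw [← Finset.mul_sum] at h3
    refine h3.trans ?_
    have h5 : ∑ A ∈ Ak A₀ c α T, (μ A : ℝ) ^ 2 *
        ((A : ℝ) / ((Nat.totient A : ℝ) * (Nat.totient (Qk m m' A) : ℝ))) ≤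
        C₂ * Real.log T * ((Nat.gcd m m' : ℝ) / m') :=
      (Finset.sum_le_sum_of_subset_of_nonneg (MG1_sub hA hc hT)
        fun A _ _ => by positivity).trans (hQ m hm m' hm')
    calc _ ≤ C₁ * T * (C₂ * Real.log T * ((Nat.gcd m m' : ℝ) / m')) :=
          mul_le_mul_of_nonneg_left h5 (by positivity)
      _ = _ := by ring
  · unfold xi
    refine Finset.sum_eq_zero fun A _ => ?_
    rw [Finset.sum_eq_zero fun B _ => Finset.sum_eq_zero fun n hn' => ?_, mul_zero]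
    rw [wk_far (κ := κ) hη (Finset.mem_Icc.1 hn').1 hm0 hm'0 hfar]
    simp

/-- PROOF. The same with `inner_v`, `yw_far`, `sumAA`: `‖yi m m'‖ ≤ C T m · L g/m`. -/
theorem yi_off {X κ A₀ κ₀ : ℝ} {η ρ : ℝ → ℝ} (hκ : 0 < κ) (hη : Eta X η) (hρ : Rho κ ρ) (c : ℝ)
    (hc : 0 < c) (hA : 0 ≤ A₀) (hκ₀ : 0 < κ₀) : ∃ C : ℝ, 0 ≤ C ∧ ∀ᶠ T : ℝ in atTop,
      ∀ α ∈ Icc (1 : ℝ) (3 / 2 - A₀ - 4 * c), ∀ m ∈ Sk A₀ κ₀ T, ∀ m' ∈ Sk A₀ κ₀ T,
      ‖yi η ρ A₀ c α T m m'‖ ≤ C * T * Real.log T * (Nat.gcd m m' : ℝ) ∧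
        (2 * X < |Real.log m - Real.log m'| → yi η ρ A₀ c α T m m' = 0) := by
  obtain ⟨C₁, hC₁, h₁⟩ := inner_v hκ hη hρ
  obtain ⟨C₂, hC₂, h₂⟩ := sumAA A₀ hκ₀
  refine ⟨C₁ * C₂, by positivity, ?_⟩
  filter_upwards [h₁, h₂, eventually_ge_atTop (3 : ℝ)] with T hv hQ hT α hα m hm m' hm'
  have hm0 := MG1_pos hm
  have hm'0 := MG1_pos hm'
  have hmR : (0 : ℝ) < m := by exact_mod_cast hm0
  have hα' : α ∈ Icc (1 : ℝ) (3 / 2) := ⟨hα.1, hα.2.trans (by linarith)⟩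
  refine ⟨?_, fun hfar => ?_⟩
  · have h3 : ‖yi η ρ A₀ c α T m m'‖ ≤ ∑ A ∈ Ak A₀ c α T,
        ∑ A' ∈ Ak A₀ c α T with m * A = m' * A', C₁ * T * m * (|(μ A : ℝ)| * |(μ A' : ℝ)| *
        ((A : ℝ) / ((Nat.totient A : ℝ) * (Nat.totient A' : ℝ)))) := by
      unfold yi
      refine (norm_sum_le _ _).trans (Finset.sum_le_sum fun A hA' => ?_)
      refine (norm_sum_le _ _).trans (Finset.sum_le_sum fun A' _ => ?_)
      have hA1 := (Finset.mem_Icc.1 (MG1_sub hA hc hT hA')).1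
      have h4 : ‖∑ B ∈ Bk T m A, (yw η ρ α T m m' A B : ℂ)‖ ≤ C₁ * T * A * m := by
        refine (norm_sum_le _ _).trans (le_trans (Finset.sum_le_sum fun B _ => ?_)
          (hv α hα' m m' A hm0 hm'0 hA1))
        rw [Complex.norm_real, Real.norm_eq_abs]
      rw [norm_mul, Complex.norm_real, Real.norm_eq_abs, abs_mul, abs_div, abs_div,
        Nat.abs_cast, Nat.abs_cast]
      calc _ ≤ |(μ A : ℝ)| / (Nat.totient A : ℝ) * (|(μ A' : ℝ)| / (Nat.totient A' : ℝ)) *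
            (C₁ * T * A * m) := mul_le_mul_of_nonneg_left h4 (by positivity)
        _ = _ := by
            field_simp
    refine h3.trans ?_
    have h5 : ∑ A ∈ Ak A₀ c α T, ∑ A' ∈ Ak A₀ c α T with m * A = m' * A',
        |(μ A : ℝ)| * |(μ A' : ℝ)| *
        ((A : ℝ) / ((Nat.totient A : ℝ) * (Nat.totient A' : ℝ))) ≤
        C₂ * Real.log T * ((Nat.gcd m m' : ℝ) / m) := by
      refine le_trans ?_ (hQ m hm m' hm')
      refine (Finset.sum_le_sum fun A _ => ?_).trans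
        (Finset.sum_le_sum_of_subset_of_nonneg (MG1_sub hA hc hT) fun A _ _ =>
          Finset.sum_nonneg fun A' _ => by positivity)
      exact Finset.sum_le_sum_of_subset_of_nonneg
        (Finset.filter_subset_filter _ (MG1_sub hA hc hT)) fun A' _ _ => by positivity
    calc _ = C₁ * T * m * ∑ A ∈ Ak A₀ c α T, ∑ A' ∈ Ak A₀ c α T with m * A = m' * A',
        |(μ A : ℝ)| * |(μ A' : ℝ)| *
        ((A : ℝ) / ((Nat.totient A : ℝ) * (Nat.totient A' : ℝ))) := by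
          rw [Finset.mul_sum]
          refine Finset.sum_congr rfl fun A _ => ?_
          rw [Finset.mul_sum]
      _ ≤ C₁ * T * m * (C₂ * Real.log T * ((Nat.gcd m m' : ℝ) / m)) :=
          mul_le_mul_of_nonneg_left h5 (by positivity)
      _ = _ := by field_simp
  · unfold yi
    refine Finset.sum_eq_zero fun A _ => Finset.sum_eq_zero fun A' _ => ?_
    rw [Finset.sum_eq_zero fun B _ => ?_, mul_zero]
    rw [yw_far (κ := κ) hη hm0 hm'0 hfar, Complex.ofReal_zero]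

/-- The pairs `m ≠ m'` in `X0K`. PROOF. `xi_off` and `pair_two` (if the range of `α` is not empty
then `A₀ ≤ 1/2`; otherwise nothing to prove). -/
theorem offX {X κ A₀ κ₀ : ℝ} {η ρ : ℝ → ℝ} (hκ : 0 < κ) (hη : Eta X η) (hρ : Rho κ ρ) (c : ℝ)
    (hc : 0 < c) (hA : 0 ≤ A₀) (hκ₀ : 0 < κ₀) : ∃ C : ℝ, 0 ≤ C ∧ ∀ᶠ T : ℝ in atTop,
      ∀ α ∈ Icc (1 : ℝ) (3 / 2 - A₀ - 4 * c), ∀ a : ℕ → ℂ,
      ‖∑ m' ∈ Sk A₀ κ₀ T, ∑ m ∈ Sk A₀ κ₀ T with m ≠ m',
        a m * (starRingEnd ℂ) (a m') * ((1 / (m' : ℝ) : ℝ) : ℂ) * xi η ρ A₀ c α T m m'‖ ≤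
        C * T * ∑ m ∈ Sk A₀ κ₀ T, ‖a m‖ ^ 2 / m := by
  by_cases hA1 : A₀ ≤ 1
  swap
  · refine ⟨0, le_rfl, Eventually.of_forall fun T α hα => ?_⟩
    exfalso
    have := hα.1.trans hα.2
    linarith
  obtain ⟨C₁, hC₁, h₁⟩ := xi_off hκ hη hρ c hc hA hκ₀
  obtain ⟨C₂, hC₂, h₂⟩ := pair_two A₀ X hA hA1 hκ₀
  refine ⟨C₁ * Real.exp (2 * X) * C₂, by positivity, ?_⟩
  filter_upwards [h₁, h₂, eventually_ge_atTop (3 : ℝ)] with T hx hp hT α hα a
  have hL := MG1_log hT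
  calc _ ≤ ∑ m' ∈ Sk A₀ κ₀ T, ∑ m ∈ Sk A₀ κ₀ T with m ≠ m',
        ‖a m * (starRingEnd ℂ) (a m') * ((1 / (m' : ℝ) : ℝ) : ℂ) * xi η ρ A₀ c α T m m'‖ := by
        refine (norm_sum_le _ _).trans (Finset.sum_le_sum fun m' _ => ?_)
        exact norm_sum_le _ _
    _ ≤ ∑ m' ∈ Sk A₀ κ₀ T, ∑ m ∈ Sk A₀ κ₀ T with
        (m ≠ m' ∧ |Real.log m' - Real.log m| ≤ 2 * X), (C₁ * Real.exp (2 * X) * T *
          Real.log T) * (‖a m'‖ * ‖a m‖ * ((Nat.gcd m' m : ℝ) / ((m' : ℝ) * m))) := by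
        refine Finset.sum_le_sum fun m' hm' => ?_
        rw [← Finset.filter_filter, Finset.sum_filter _
          (fun m => (C₁ * Real.exp (2 * X) * T * Real.log T) *
            (‖a m'‖ * ‖a m‖ * ((Nat.gcd m' m : ℝ) / ((m' : ℝ) * m))))]
        refine Finset.sum_le_sum fun m hm => ?_
        have hm1 := (Finset.mem_filter.1 hm).1
        obtain ⟨hb, hz⟩ := hx α hα m hm1 m' hm'
        have hmR : (0 : ℝ) < m := by exact_mod_cast MG1_pos hm1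
        have hm'R : (0 : ℝ) < m' := by exact_mod_cast MG1_pos hm'
        split_ifs with hnear
        · rw [norm_mul, norm_mul, norm_mul, RCLike.norm_conj, Complex.norm_real,
            Real.norm_eq_abs, abs_of_nonneg (by positivity : (0 : ℝ) ≤ 1 / m')]
          have h6 : 1 / (m' : ℝ) ≤ Real.exp (2 * X) / m := by
            rw [div_le_div_iff₀ hm'R hmR, one_mul]
            have h7 : Real.log m ≤ 2 * X + Real.log m' := by
              have := neg_abs_le (Real.log m' - Real.log m)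
              linarith
            calc (m : ℝ) = Real.exp (Real.log m) := (Real.exp_log hmR).symm
              _ ≤ Real.exp (2 * X + Real.log m') := Real.exp_le_exp.2 h7
              _ = Real.exp (2 * X) * m' := by rw [Real.exp_add, Real.exp_log hm'R]
          calc ‖a m‖ * ‖a m'‖ * (1 / (m' : ℝ)) * ‖xi η ρ A₀ c α T m m'‖
              ≤ ‖a m‖ * ‖a m'‖ * (Real.exp (2 * X) / m) *
                (C₁ * T * Real.log T * ((Nat.gcd m m' : ℝ) / m')) := by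
                apply mul_le_mul _ hb (norm_nonneg _) (by positivity)
                exact mul_le_mul_of_nonneg_left h6 (by positivity)
            _ = _ := by
                rw [Nat.gcd_comm m' m]
                field_simp
        · rw [abs_sub_comm, not_le] at hnear
          rw [hz hnear, mul_zero, norm_zero]
    _ = (C₁ * Real.exp (2 * X) * T * Real.log T) * ∑ m' ∈ Sk A₀ κ₀ T,
        ∑ m ∈ Sk A₀ κ₀ T with (m ≠ m' ∧ |Real.log m' - Real.log m| ≤ 2 * X),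
          ‖a m'‖ * ‖a m‖ * ((Nat.gcd m' m : ℝ) / ((m' : ℝ) * m)) := by
        rw [Finset.mul_sum]
        refine Finset.sum_congr rfl fun m' _ => ?_
        rw [Finset.mul_sum]
    _ ≤ (C₁ * Real.exp (2 * X) * T * Real.log T) *
        (C₂ / Real.log T * ∑ m ∈ Sk A₀ κ₀ T, ‖a m‖ ^ 2 / m) :=
        mul_le_mul_of_nonneg_left (hp a) (by positivity)
    _ = _ := by
        field_simp

/-- The pairs `m ≠ m'` in `YK`. PROOF. `yi_off` and `pair_two`. -/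
theorem offY {X κ A₀ κ₀ : ℝ} {η ρ : ℝ → ℝ} (hκ : 0 < κ) (hη : Eta X η) (hρ : Rho κ ρ) (c : ℝ)
    (hc : 0 < c) (hA : 0 ≤ A₀) (hκ₀ : 0 < κ₀) : ∃ C : ℝ, 0 ≤ C ∧ ∀ᶠ T : ℝ in atTop,
      ∀ α ∈ Icc (1 : ℝ) (3 / 2 - A₀ - 4 * c), ∀ a : ℕ → ℂ,
      ‖∑ m ∈ Sk A₀ κ₀ T, ∑ m' ∈ Sk A₀ κ₀ T with m' ≠ m,
        a m * (starRingEnd ℂ) (a m') * ((1 / ((m : ℝ) * m') : ℝ) : ℂ) *
          yi η ρ A₀ c α T m m'‖ ≤
        C * T * ∑ m ∈ Sk A₀ κ₀ T, ‖a m‖ ^ 2 / m := by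
  by_cases hA1 : A₀ ≤ 1
  swap
  · refine ⟨0, le_rfl, Eventually.of_forall fun T α hα => ?_⟩
    exfalso
    have := hα.1.trans hα.2
    linarith
  obtain ⟨C₁, hC₁, h₁⟩ := yi_off hκ hη hρ c hc hA hκ₀
  obtain ⟨C₂, hC₂, h₂⟩ := pair_two A₀ X hA hA1 hκ₀
  refine ⟨C₁ * C₂, by positivity, ?_⟩
  filter_upwards [h₁, h₂, eventually_ge_atTop (3 : ℝ)] with T hx hp hT α hα a
  have hL := MG1_log hT
  calc _ ≤ ∑ m ∈ Sk A₀ κ₀ T, ∑ m' ∈ Sk A₀ κ₀ T with m' ≠ m,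
        ‖a m * (starRingEnd ℂ) (a m') * ((1 / ((m : ℝ) * m') : ℝ) : ℂ) *
          yi η ρ A₀ c α T m m'‖ := by
        refine (norm_sum_le _ _).trans (Finset.sum_le_sum fun m _ => ?_)
        exact norm_sum_le _ _
    _ ≤ ∑ m ∈ Sk A₀ κ₀ T, ∑ m' ∈ Sk A₀ κ₀ T with
        (m' ≠ m ∧ |Real.log m - Real.log m'| ≤ 2 * X), (C₁ * T *
          Real.log T) * (‖a m‖ * ‖a m'‖ * ((Nat.gcd m m' : ℝ) / ((m : ℝ) * m'))) := by
        refine Finset.sum_le_sum fun m hm => ?_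
        rw [← Finset.filter_filter, Finset.sum_filter _
          (fun m' => (C₁ * T * Real.log T) *
            (‖a m‖ * ‖a m'‖ * ((Nat.gcd m m' : ℝ) / ((m : ℝ) * m'))))]
        refine Finset.sum_le_sum fun m' hm' => ?_
        have hm'1 := (Finset.mem_filter.1 hm').1
        obtain ⟨hb, hz⟩ := hx α hα m hm m' hm'1
        have hmR : (0 : ℝ) < m := by exact_mod_cast MG1_pos hm
        have hm'R : (0 : ℝ) < m' := by exact_mod_cast MG1_pos hm'1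
        split_ifs with hnear
        · rw [norm_mul, norm_mul, norm_mul, RCLike.norm_conj, Complex.norm_real,
            Real.norm_eq_abs, abs_of_nonneg (by positivity : (0 : ℝ) ≤ 1 / ((m : ℝ) * m'))]
          calc ‖a m‖ * ‖a m'‖ * (1 / ((m : ℝ) * m')) * ‖yi η ρ A₀ c α T m m'‖
              ≤ ‖a m‖ * ‖a m'‖ * (1 / ((m : ℝ) * m')) *
                (C₁ * T * Real.log T * (Nat.gcd m m' : ℝ)) :=
                mul_le_mul_of_nonneg_left hb (by positivity)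
            _ = _ := by
                field_simp
        · rw [not_le] at hnear
          rw [hz hnear, mul_zero, norm_zero]
    _ = (C₁ * T * Real.log T) * ∑ m ∈ Sk A₀ κ₀ T,
        ∑ m' ∈ Sk A₀ κ₀ T with (m' ≠ m ∧ |Real.log m - Real.log m'| ≤ 2 * X),
          ‖a m‖ * ‖a m'‖ * ((Nat.gcd m m' : ℝ) / ((m : ℝ) * m')) := by
        rw [Finset.mul_sum]
        refine Finset.sum_congr rfl fun m' _ => ?_
        rw [Finset.mul_sum]
    _ ≤ (C₁ * T * Real.log T) *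
        (C₂ / Real.log T * ∑ m ∈ Sk A₀ κ₀ T, ‖a m‖ ^ 2 / m) :=
        mul_le_mul_of_nonneg_left (hp a) (by positivity)
    _ = _ := by
        field_simp

end Pool.Agent.MP_67227b_nt.Gk
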