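import Mathlib
import Pool.Agent.MP_67227b_nt.Gk.GkEps
import Pool.Agent.MP_67227b_nt.Gk.GkMF

set_option autoImplicit false

open Filter Topology Set MeasureTheory Complex
open scoped Real ContDiff ArithmeticFunction ArithmeticFunction.Moebius
open scoped Classical

namespace Pool.Agent.MP_67227b_nt.Gk

open Pool.Agent.MP_67227b_nt.Gg (Eta Rho wt ex PP)
open Pool.Agent.BV (tau)

/-- PROOF. `∑_{k ≤ N} gcd(m,k)/k ≤ ∑_{d ∣ m} ∑_{k ≤ N, d ∣ k} d/k ≤ tau m (1 + log N)`. -/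
theorem gcd_sum {m N : ℕ} (hm : 1 ≤ m) (hN : 1 ≤ N) :
    ∑ k ∈ Finset.Icc 1 N, (Nat.gcd m k : ℝ) / k ≤ tau m * (1 + Real.log N) := by
  have hharm : ∑ j ∈ Finset.Icc 1 N, (1 : ℝ) / j ≤ 1 + Real.log N := by
    have h1 := harmonic_le_one_add_log N
    rw [harmonic_eq_sum_Icc] at h1
    push_cast at h1
    simpa only [one_div] using h1
  have h1 : ∑ k ∈ Finset.Icc 1 N, (Nat.gcd m k : ℝ) / k ≤
      ∑ k ∈ Finset.Icc 1 N, ∑ d ∈ m.divisors, (if d ∣ k then (d : ℝ) / k else 0) := by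
    refine Finset.sum_le_sum fun k _ => ?_
    have h2 : Nat.gcd m k ∈ m.divisors := by
      rw [Nat.mem_divisors]
      exact ⟨Nat.gcd_dvd_left _ _, by omega⟩
    have h3 := Finset.single_le_sum (f := fun d : ℕ => if d ∣ k then (d : ℝ) / k else 0)
      (fun d _ => by
        by_cases h : d ∣ k
        · simp only [if_pos h]; positivity
        · simp only [if_neg h]; exact le_refl _) h2
    rw [if_pos (Nat.gcd_dvd_right m k)] at h3
    exact h3
  refine h1.trans ?_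
  rw [Finset.sum_comm]
  have h2 : ∀ d ∈ m.divisors, ∑ k ∈ Finset.Icc 1 N, (if d ∣ k then (d : ℝ) / k else 0) ≤
      1 + Real.log N := by
    intro d hd
    have hd1 : 1 ≤ d := Nat.pos_of_mem_divisors hd
    have hd0 : (0 : ℝ) < d := by exact_mod_cast hd1
    refine le_trans ?_ hharm
    rw [← Finset.sum_filter]
    have h3 : ∑ k ∈ (Finset.Icc 1 N).filter (fun k => d ∣ k), (d : ℝ) / k =
        ∑ j ∈ ((Finset.Icc 1 N).filter (fun k => d ∣ k)).image (fun k => k / d), (1 : ℝ) / j := by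
      rw [Finset.sum_image]
      · refine Finset.sum_congr rfl fun k hk => ?_
        rw [Finset.mem_filter, Finset.mem_Icc] at hk
        rw [Nat.cast_div hk.2 hd0.ne', one_div_div]
      · intro a ha b hb hab
        rw [Finset.mem_coe, Finset.mem_filter] at ha hb
        simp only at hab
        rw [← Nat.mul_div_cancel' ha.2, ← Nat.mul_div_cancel' hb.2, hab]
    rw [h3]
    refine Finset.sum_le_sum_of_subset_of_nonneg ?_ (fun j _ _ => by positivity)
    intro j hj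
    rw [Finset.mem_image] at hj
    obtain ⟨k, hk, rfl⟩ := hj
    rw [Finset.mem_filter, Finset.mem_Icc] at hk
    rw [Finset.mem_Icc]
    exact ⟨Nat.div_pos (Nat.le_of_dvd hk.1.1 hk.2) hd1, (Nat.div_le_self _ _).trans hk.1.2⟩
  refine (Finset.sum_le_card_nsmul _ _ _ h2).trans ?_
  rw [nsmul_eq_mul, tau]

/-- The trivial bound. PROOF. `D = T^{ε/100}` (`eps_k`), `n/φ(n) ≤ tau n ≤ D` (`BV.div_totient_le`).
By `inner_n`, `wk_far`: `‖xi m m'‖ ≤ ∑_A (1/φ(A)) (1/φ(Q)) C T A ≤ C T D² ∑_A 1/Q`, with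
`1/Q = gcd(m, m'A)/(m'A) ≤ gcd(m,m') gcd(m,A)/(m'A)` (`Nat.gcd_mul_right_le`-type), so
`≤ C T D³ (1+L) gcd(m,m')/m'` (`gcd_sum`), and `0` unless `m' ≥ m e^{-2X}`. Then
`∑_{m'} (1/m') gcd(m,m')/m' ≤ (e^{2X}/m) ∑_{m'} gcd(m,m')/m' ≤ (e^{2X}/m) D (1+L)`. -/
theorem xi_triv {X κ A₀ : ℝ} {η ρ : ℝ → ℝ} (hκ : 0 < κ) (hη : Eta X η) (hρ : Rho κ ρ) (c : ℝ)
    (hc : 0 < c) (hA : 0 ≤ A₀) {ε : ℝ} (hε : 0 < ε) : ∀ᶠ T : ℝ in atTop,
      ∀ α ∈ Icc (1 : ℝ) (3 / 2 - A₀ - 4 * c), ∀ m ∈ Mk A₀ T,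
      ∑ m' ∈ Mk A₀ T, (1 / (m' : ℝ)) * ‖xi η ρ A₀ c α T m m'‖ ≤ T ^ (1 + ε) / m := by
  obtain ⟨C, hC, hev⟩ := inner_n hκ hη hρ
  have hε7 : 0 < ε / 7 := by positivity
  filter_upwards [hev, eps_k hε7, eventually_gt_atTop (1 : ℝ),
    (tendsto_rpow_atTop hε7).eventually_ge_atTop (C * Real.exp (2 * X))] with T hin hek hT hTC
    α hα m hm
  obtain ⟨hD, hL6, hL2⟩ := hek
  set D : ℝ := T ^ (ε / 7) with hDdef
  have hT0 : 0 < T := by linarith
  have hD0 : 0 < D := Real.rpow_pos_of_pos hT0 _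
  have hD1 : 1 ≤ D := Real.one_le_rpow hT.le hε7.le
  have hL0 : 0 < Real.log T := by linarith
  have hL1 : 1 + Real.log T ≤ D := by
    refine le_trans ?_ hL6
    have h1 : (1 : ℝ) ≤ Real.log T ^ 4 := one_le_pow₀ (by linarith)
    have h2 : Real.log T ^ 2 ≤ Real.log T ^ 6 := by
      calc Real.log T ^ 2 = 1 * Real.log T ^ 2 := by ring
        _ ≤ Real.log T ^ 4 * Real.log T ^ 2 := mul_le_mul_of_nonneg_right h1 (by positivity)
        _ = Real.log T ^ 6 := by ring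
    refine le_trans ?_ h2
    nlinarith
  have hA2 : A₀ ≤ 1 / 2 := by
    have := hα.1.trans hα.2
    linarith
  have hα2 : α ∈ Icc (1 : ℝ) (3 / 2) := ⟨hα.1, hα.2.trans (by linarith)⟩
  -- the members
  have hMk : ∀ k ∈ Mk A₀ T, 1 ≤ k ∧ (k : ℝ) ≤ T ^ A₀ := by
    intro k hk
    rw [Mk, Finset.mem_Icc] at hk
    exact ⟨hk.1, (Nat.le_floor_iff (by positivity)).1 hk.2⟩
  have hAk : ∀ A ∈ Ak A₀ c α T, 1 ≤ A ∧ (A : ℝ) ≤ T ^ (1 / 2 - A₀ - c) := by
    intro A hA'
    rw [Ak, Finset.mem_Ioc] at hA'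
    exact ⟨by omega, (Nat.le_floor_iff (by positivity)).1 hA'.2⟩
  have hA₀5 : T ^ A₀ ≤ T ^ (5 : ℝ) := Real.rpow_le_rpow_of_exponent_le hT.le (by linarith)
  obtain ⟨hm1, hm2⟩ := hMk m hm
  have hm0 : (0 : ℝ) < m := by exact_mod_cast hm1
  have hτm : tau m ≤ D := hD m hm1 (hm2.trans hA₀5)
  have hinv : ∀ n : ℕ, 1 ≤ n → (n : ℝ) ≤ T ^ (5 : ℝ) → 1 / (Nat.totient n : ℝ) ≤ D / n := by
    intro n hn hn5
    have h1 := (Pool.Agent.BV.div_totient_le n (by omega)).trans (hD n hn hn5)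
    have h2 : (0 : ℝ) < Nat.totient n := by exact_mod_cast Nat.totient_pos.2 hn
    have h3 : (0 : ℝ) < n := by exact_mod_cast hn
    rw [div_le_iff₀ h2] at h1
    rw [div_le_div_iff₀ h2 h3, one_mul]
    exact h1
  have hmf : ∀ n : ℕ, ‖mf n‖ ≤ 1 / (Nat.totient n : ℝ) := by
    intro n
    rw [mf, Complex.norm_real, Real.norm_eq_abs, abs_div, Nat.abs_cast]
    refine div_le_div_of_nonneg_right ?_ (Nat.cast_nonneg _)
    rw [← Int.cast_abs]
    exact_mod_cast ArithmeticFunction.abs_moebius_le_one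
  -- the sum over `A`
  set N : ℕ := ⌊T ^ (1 / 2 - A₀ - c)⌋₊ with hN
  have hxi : ∀ m' ∈ Mk A₀ T, ‖xi η ρ A₀ c α T m m'‖ ≤
      C * T * D ^ 4 * ((Nat.gcd m m' : ℝ) / m') := by
    intro m' hm'
    obtain ⟨hm'1, hm'2⟩ := hMk m' hm'
    have hm'0 : (0 : ℝ) < m' := by exact_mod_cast hm'1
    have hg0 : (0 : ℝ) ≤ (Nat.gcd m m' : ℝ) / m' := by positivity
    have hterm : ∀ A ∈ Ak A₀ c α T, ‖mf A * ∑ B ∈ Bk T m' A, ∑ n ∈ Finset.Icc 1 ⌊T ^ (2 : ℝ)⌋₊,
        ((Λ n * wk η ρ α T n m m' A B : ℝ) : ℂ) * mf (Qk m m' A)‖ ≤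
        C * T * D ^ 2 * ((Nat.gcd m m' : ℝ) / m') * ((Nat.gcd m A : ℝ) / A) := by
      intro A hA'
      obtain ⟨hA1, hA3⟩ := hAk A hA'
      have hAr : (0 : ℝ) < A := by exact_mod_cast hA1
      have hA5 : (A : ℝ) ≤ T ^ (5 : ℝ) :=
        hA3.trans (Real.rpow_le_rpow_of_exponent_le hT.le (by linarith))
      have hmA : (((m' * A : ℕ)) : ℝ) ≤ T ^ (5 : ℝ) := by
        push_cast
        calc (m' : ℝ) * A ≤ T ^ A₀ * T ^ (1 / 2 - A₀ - c) :=
              mul_le_mul hm'2 hA3 hAr.le (by positivity)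
          _ = T ^ (1 / 2 - c) := by
              rw [← Real.rpow_add hT0]
              congr 1
              ring
          _ ≤ T ^ (5 : ℝ) := Real.rpow_le_rpow_of_exponent_le hT.le (by linarith)
      have hmA1 : 1 ≤ m' * A := Nat.mul_pos hm'1 hA1
      set G := Nat.gcd m (m' * A) with hG
      have hG1 : 1 ≤ G := Nat.gcd_pos_of_pos_left _ hm1
      have hGr : (0 : ℝ) < G := by exact_mod_cast hG1
      have hGd : G ∣ m' * A := Nat.gcd_dvd_right _ _
      have hQ : Qk m m' A * G = m' * A := Nat.div_mul_cancel hGd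
      have hQ1 : 1 ≤ Qk m m' A := by
        rcases Nat.eq_zero_or_pos (Qk m m' A) with h | h
        · rw [h, zero_mul] at hQ
          omega
        · exact h
      have hQr : (0 : ℝ) < Qk m m' A := by exact_mod_cast hQ1
      have hQ5 : (Qk m m' A : ℝ) ≤ T ^ (5 : ℝ) := by
        refine le_trans ?_ hmA
        exact_mod_cast Nat.div_le_self _ _
      have hQe : (Qk m m' A : ℝ) * G = m' * A := by exact_mod_cast hQ
      have hGle : (G : ℝ) ≤ Nat.gcd m m' * Nat.gcd m A := by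
        have h1 : G ∣ Nat.gcd m m' * Nat.gcd m A := Nat.gcd_mul_right_dvd_mul_gcd m m' A
        have h2 : 0 < Nat.gcd m m' * Nat.gcd m A :=
          Nat.mul_pos (Nat.gcd_pos_of_pos_left _ hm1) (Nat.gcd_pos_of_pos_left _ hm1)
        exact_mod_cast Nat.le_of_dvd h2 h1
      have hsum : ‖∑ B ∈ Bk T m' A, ∑ n ∈ Finset.Icc 1 ⌊T ^ (2 : ℝ)⌋₊,
          ((Λ n * wk η ρ α T n m m' A B : ℝ) : ℂ) * mf (Qk m m' A)‖ ≤
          C * T * A * (1 / (Nat.totient (Qk m m' A) : ℝ)) := by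
        have h1 : ∑ B ∈ Bk T m' A, ∑ n ∈ Finset.Icc 1 ⌊T ^ (2 : ℝ)⌋₊,
          ((Λ n * wk η ρ α T n m m' A B : ℝ) : ℂ) * mf (Qk m m' A) =
          (∑ B ∈ Bk T m' A, ∑ n ∈ Finset.Icc 1 ⌊T ^ (2 : ℝ)⌋₊,
          ((Λ n * wk η ρ α T n m m' A B : ℝ) : ℂ)) * mf (Qk m m' A) := by
          simp only [Finset.sum_mul]
        rw [h1, norm_mul]
        refine mul_le_mul ?_ (hmf _) (norm_nonneg _) (by positivity)
        refine le_trans ?_ (hin α hα2 m m' A hm1 hm'1 hA1)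
        refine (norm_sum_le _ _).trans (Finset.sum_le_sum fun B _ => ?_)
        refine (norm_sum_le _ _).trans (Finset.sum_le_sum fun n _ => ?_)
        rw [Complex.norm_real, Real.norm_eq_abs, abs_mul,
          abs_of_nonneg ArithmeticFunction.vonMangoldt_nonneg]
      rw [norm_mul]
      calc ‖mf A‖ * ‖∑ B ∈ Bk T m' A, ∑ n ∈ Finset.Icc 1 ⌊T ^ (2 : ℝ)⌋₊,
          ((Λ n * wk η ρ α T n m m' A B : ℝ) : ℂ) * mf (Qk m m' A)‖
          ≤ (D / A) * (C * T * A * (D / Qk m m' A)) := by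
            refine mul_le_mul ((hmf A).trans (hinv A hA1 hA5)) (hsum.trans ?_)
              (norm_nonneg _) (by positivity)
            exact mul_le_mul_of_nonneg_left (hinv _ hQ1 hQ5) (by positivity)
        _ = C * T * D ^ 2 * (1 / Qk m m' A) := by field_simp
        _ = C * T * D ^ 2 * (G / (m' * A)) := by
            rw [← hQe]
            field_simp
        _ ≤ C * T * D ^ 2 * ((Nat.gcd m m' * Nat.gcd m A) / (m' * A)) := by
            refine mul_le_mul_of_nonneg_left ?_ (by positivity)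
            exact div_le_div_of_nonneg_right hGle (by positivity)
        _ = C * T * D ^ 2 * ((Nat.gcd m m' : ℝ) / m') * ((Nat.gcd m A : ℝ) / A) := by
            field_simp
    have h1 : ‖xi η ρ A₀ c α T m m'‖ ≤ ∑ A ∈ Ak A₀ c α T,
        C * T * D ^ 2 * ((Nat.gcd m m' : ℝ) / m') * ((Nat.gcd m A : ℝ) / A) := by
      rw [xi]
      exact (norm_sum_le _ _).trans (Finset.sum_le_sum hterm)
    rw [← Finset.mul_sum] at h1
    have h2 : ∑ A ∈ Ak A₀ c α T, ((Nat.gcd m A : ℝ) / A) ≤ D ^ 2 := by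
      rcases Nat.eq_zero_or_pos N with hN0 | hN1
      · have h3 : Ak A₀ c α T = ∅ := by
          rw [Ak, ← hN, hN0]
          simp
        rw [h3, Finset.sum_empty]
        positivity
      · have h3 : Ak A₀ c α T ⊆ Finset.Icc 1 N := by
          intro A hA'
          rw [Ak, Finset.mem_Ioc] at hA'
          rw [Finset.mem_Icc]
          exact ⟨by omega, hA'.2⟩
        refine (Finset.sum_le_sum_of_subset_of_nonneg h3 (fun _ _ _ => by positivity)).trans ?_
        refine (gcd_sum hm1 hN1).trans ?_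
        rw [pow_two]
        refine mul_le_mul hτm (le_trans ?_ hL1) ?_ hD0.le
        · have h4 : Real.log N ≤ Real.log T := by
            refine Real.log_le_log (by exact_mod_cast hN1) ?_
            have h5 : (N : ℝ) ≤ T ^ (1 / 2 - A₀ - c) := Nat.floor_le (by positivity)
            refine h5.trans ?_
            calc T ^ (1 / 2 - A₀ - c) ≤ T ^ (1 : ℝ) :=
                  Real.rpow_le_rpow_of_exponent_le hT.le (by linarith)
              _ = T := Real.rpow_one T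
          linarith
        · have h4 : (1 : ℝ) ≤ N := by exact_mod_cast hN1
          have := Real.log_nonneg h4
          linarith
    refine h1.trans ?_
    calc C * T * D ^ 2 * ((Nat.gcd m m' : ℝ) / m') * ∑ A ∈ Ak A₀ c α T, ((Nat.gcd m A : ℝ) / A) ≤
          C * T * D ^ 2 * ((Nat.gcd m m' : ℝ) / m') * D ^ 2 :=
          mul_le_mul_of_nonneg_left h2 (by positivity)
      _ = C * T * D ^ 4 * ((Nat.gcd m m' : ℝ) / m') := by ring
  -- the sum over `m'`
  have hstep : ∀ m' ∈ Mk A₀ T, (1 / (m' : ℝ)) * ‖xi η ρ A₀ c α T m m'‖ ≤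
      (Real.exp (2 * X) / m) * (C * T * D ^ 4) * ((Nat.gcd m m' : ℝ) / m') := by
    intro m' hm'
    obtain ⟨hm'1, hm'2⟩ := hMk m' hm'
    have hm'0 : (0 : ℝ) < m' := by exact_mod_cast hm'1
    by_cases hfar : 2 * X < |Real.log m - Real.log m'|
    · have h0 : xi η ρ A₀ c α T m m' = 0 := by
        rw [xi]
        refine Finset.sum_eq_zero fun A _ => ?_
        rw [Finset.sum_eq_zero, mul_zero]
        intro B _
        refine Finset.sum_eq_zero fun n hn => ?_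
        rw [Finset.mem_Icc] at hn
        rw [wk_far (κ := κ) hη hn.1 hm1 hm'1 hfar, mul_zero, Complex.ofReal_zero, zero_mul]
      rw [h0, norm_zero, mul_zero]
      positivity
    · rw [not_lt, abs_le] at hfar
      have h1 : (m : ℝ) ≤ m' * Real.exp (2 * X) := by
        rw [← Real.exp_log hm'0, ← Real.exp_add]
        nth_rw 1 [← Real.exp_log hm0]
        rw [Real.exp_le_exp]
        linarith
      have h2 : 1 / (m' : ℝ) ≤ Real.exp (2 * X) / m := by
        rw [div_le_div_iff₀ hm'0 hm0]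
        linarith
      calc (1 / (m' : ℝ)) * ‖xi η ρ A₀ c α T m m'‖ ≤
            (Real.exp (2 * X) / m) * (C * T * D ^ 4 * ((Nat.gcd m m' : ℝ) / m')) :=
            mul_le_mul h2 (hxi m' hm') (norm_nonneg _) (by positivity)
        _ = _ := by ring
  refine (Finset.sum_le_sum hstep).trans ?_
  rw [← Finset.mul_sum]
  have hN' : 1 ≤ ⌊T ^ A₀⌋₊ := Nat.le_floor (by
    rw [Nat.cast_one]
    exact Real.one_le_rpow hT.le hA)
  have h1 : ∑ m' ∈ Mk A₀ T, ((Nat.gcd m m' : ℝ) / m') ≤ D ^ 2 := by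
    rw [Mk]
    refine (gcd_sum hm1 hN').trans ?_
    rw [pow_two]
    refine mul_le_mul hτm (le_trans ?_ hL1) ?_ hD0.le
    · have h4 : Real.log (⌊T ^ A₀⌋₊ : ℝ) ≤ Real.log T := by
        refine Real.log_le_log (by exact_mod_cast hN') ?_
        have h5 : (⌊T ^ A₀⌋₊ : ℝ) ≤ T ^ A₀ := Nat.floor_le (by positivity)
        refine h5.trans ?_
        calc T ^ A₀ ≤ T ^ (1 : ℝ) := Real.rpow_le_rpow_of_exponent_le hT.le (by linarith)
          _ = T := Real.rpow_one T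
      linarith
    · have h4 : (1 : ℝ) ≤ (⌊T ^ A₀⌋₊ : ℝ) := by exact_mod_cast hN'
      have := Real.log_nonneg h4
      linarith
  have hDpow : D ^ 7 = T ^ ε := by
    rw [hDdef, ← Real.rpow_natCast, ← Real.rpow_mul hT0.le]
    congr 1
    push_cast
    ring
  calc (Real.exp (2 * X) / m) * (C * T * D ^ 4) * ∑ m' ∈ Mk A₀ T, ((Nat.gcd m m' : ℝ) / m') ≤
        (Real.exp (2 * X) / m) * (C * T * D ^ 4) * D ^ 2 :=
        mul_le_mul_of_nonneg_left h1 (by positivity)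
    _ = (C * Real.exp (2 * X)) * (T * D ^ 6 / m) := by ring
    _ ≤ D * (T * D ^ 6 / m) := mul_le_mul_of_nonneg_right hTC (by positivity)
    _ = T * D ^ 7 / m := by ring
    _ = T ^ (1 + ε) / m := by rw [hDpow, Real.rpow_add hT0, Real.rpow_one]

end Pool.Agent.MP_67227b_nt.Gk
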