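import Mathlib
import Pool.Agent.MP_67227b_nt.Gk.GkMD

set_option autoImplicit false

open Filter Topology Set MeasureTheory Complex
open scoped Real ContDiff ArithmeticFunction ArithmeticFunction.Moebius
open scoped Classical

namespace Pool.Agent.MP_67227b_nt.Gk

open Pool.Agent.MP_67227b_nt.Gg (Eta Rho wt ex PP)
open Pool.Agent.BV (tau)

/-- PROOF. `Qk m m A = mA/gcd(m, mA) = A`, `nm/m = n`. -/
theorem xi_diag (η ρ : ℝ → ℝ) (A₀ c α T : ℝ) {m : ℕ} (hm : 1 ≤ m) :
    xi η ρ A₀ c α T m m = (X0m η ρ A₀ c α T m : ℂ) := by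
  have hm0 : (m : ℝ) ≠ 0 := by
    have : 0 < m := hm
    exact_mod_cast this.ne'
  have hQ : ∀ A : ℕ, Qk m m A = A := by
    intro A
    unfold Qk
    rw [Nat.gcd_eq_left (Dvd.intro A rfl), Nat.mul_div_cancel_left A hm]
  unfold xi X0m
  rw [Complex.ofReal_sum]
  refine Finset.sum_congr rfl fun A _ => ?_
  rw [Complex.ofReal_sum, Finset.mul_sum]
  refine Finset.sum_congr rfl fun B _ => ?_
  rw [hQ, Complex.ofReal_mul, Complex.ofReal_sum, Finset.mul_sum, Finset.mul_sum]
  refine Finset.sum_congr rfl fun n _ => ?_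
  have h1 : (n : ℝ) * m / m = n := mul_div_cancel_right₀ _ hm0
  unfold wk mf
  rw [h1, ← Complex.ofReal_mul, ← Complex.ofReal_mul, ← Complex.ofReal_mul]
  congr 1
  ring

/-- PROOF. `mA = mA'` iff `A = A'`; substitute `v ↦ v + log m` in `yw`
(`integral_add_right_eq_self`): `e^{v + log m} = m e^v`. -/
theorem yi_diag (η ρ : ℝ → ℝ) (A₀ c α T : ℝ) {m : ℕ} (hm : 1 ≤ m) :
    yi η ρ A₀ c α T m m = ((m * JJm 2 η ρ A₀ c α T m : ℝ) : ℂ) := by
  have hmp : (0 : ℝ) < m := by
    have : 0 < m := hm
    exact_mod_cast this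
  have hyw : ∀ A B : ℕ, yw η ρ α T m m A B =
      m * ∫ v : ℝ, Real.exp v * η (v - α * Real.log T) ^ 2 * wt ρ T A B (Real.exp v) ^ 2 := by
    intro A B
    unfold yw
    rw [← integral_add_right_eq_self _ (Real.log m), ← integral_const_mul]
    congr 1
    funext v
    have h1 : v + Real.log m - Real.log m = v := by ring
    have h2 : Real.exp (v + Real.log m) = Real.exp v * m := by
      rw [Real.exp_add, Real.exp_log hmp]
    have h3 : Real.exp v * m / m = Real.exp v := mul_div_cancel_right₀ _ hmp.ne'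
    rw [h1, h2, h3]
    ring
  unfold yi JJm
  rw [Finset.mul_sum, Complex.ofReal_sum]
  refine Finset.sum_congr rfl fun A hA => ?_
  have hfil : (Ak A₀ c α T).filter (fun A' => m * A = m * A') = {A} := by
    ext A'
    rw [Finset.mem_filter, Finset.mem_singleton]
    constructor
    · rintro ⟨-, h⟩
      exact (Nat.eq_of_mul_eq_mul_left hm h).symm
    · rintro rfl
      exact ⟨hA, rfl⟩
  rw [hfil, Finset.sum_singleton, Finset.mul_sum, Finset.mul_sum, Complex.ofReal_sum]
  refine Finset.sum_congr rfl fun B _ => ?_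
  rw [hyw, ← Complex.ofReal_mul]
  congr 1
  ring

/-- PROOF. `0 ≤ wt ≤ 1`, so `wt² ≤ wt`; the integrands are continuous with compact support
(see `Gg.JJ_le` in `GgFin.lean`). -/
theorem JJm_le {X κ : ℝ} {η ρ : ℝ → ℝ} (hη : Eta X η) (hρ : Rho κ ρ) (A₀ c α T : ℝ) (m : ℕ) :
    JJm 2 η ρ A₀ c α T m ≤ JJm 1 η ρ A₀ c α T m := by
  rw [JJm, JJm]
  apply Finset.sum_le_sum
  intro A _
  apply Finset.sum_le_sum
  intro B _
  apply mul_le_mul_of_nonneg_left _ (by positivity)
  have hηc : Continuous η := hη.smooth.continuous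
  have hρc : Continuous ρ := hρ.smooth.continuous
  set L := Real.log T with hL
  have hcs1 : HasCompactSupport fun v => η (v - α * L) ^ 2 := by
    apply HasCompactSupport.intro (K := Icc (α * L - X) (α * L + X)) isCompact_Icc
    intro v hv
    have h1 : X < |v - α * L| := by
      rw [mem_Icc, not_and_or, not_le, not_le] at hv
      rcases hv with h | h
      · have := neg_abs_le (v - α * L)
        linarith
      · have := le_abs_self (v - α * L)
        linarith
    rw [hη.supp _ h1]
    ring
  have hw : Continuous fun v => wt ρ T A B (Real.exp v) := by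
    simp only [wt]
    exact hρc.comp (by fun_prop)
  have hw0 : ∀ v, 0 ≤ wt ρ T A B (Real.exp v) := fun v => hρ.nonneg _
  have hw1 : ∀ v, wt ρ T A B (Real.exp v) ≤ 1 := fun v => hρ.le_one _
  apply integral_mono_of_nonneg
  · exact Eventually.of_forall fun v => by
      have := hw0 v
      positivity
  · exact (by fun_prop : Continuous fun v => Real.exp v * η (v - α * L) ^ 2 *
      wt ρ T A B (Real.exp v) ^ 1).integrable_of_hasCompactSupport
      ((hcs1.mul_left (f := fun v => Real.exp v)).mul_right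
        (f' := fun v => wt ρ T A B (Real.exp v) ^ 1))
  · exact Eventually.of_forall fun v => by
      have h0 := hw0 v
      have h1 := hw1 v
      simp only
      apply mul_le_mul_of_nonneg_left _ (by positivity)
      rw [pow_one, sq]
      exact mul_le_of_le_one_left h0 h1

end Pool.Agent.MP_67227b_nt.Gk
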