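import Mathlib
import Pool.Agent.MP_67227b_nt.Gg.GgPnt
import Pool.Agent.MP_67227b_nt.Gg.GgRho
import Pool.Agent.MP_67227b_nt.Gk.GkMA
import Pool.Agent.MP_67227b_nt.Gk.GkMB
import Pool.Agent.MP_67227b_nt.Gk.GkMD

set_option autoImplicit false

open Filter Topology Set MeasureTheory Complex
open scoped Real ContDiff ArithmeticFunction ArithmeticFunction.Moebius
open scoped Classical

namespace Pool.Agent.MP_67227b_nt.Gk

open Pool.Agent.MP_67227b_nt.Gg (Eta Rho wt ex PP)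
open Pool.Agent.BV (tau)

private theorem MK1_Ak (A₀ c α T : ℝ) : Ak A₀ c α T = Gg.As (c + A₀) (α - A₀) T := by
  rw [Ak, Gg.As, show α - A₀ - 1 + (c + A₀) = α - 1 + c by ring,
    show 1 / 2 - (c + A₀) = 1 / 2 - A₀ - c by ring]

/-- PROOF. Verbatim `Gg.pnt_main` (`GgPnt.lean`): `Gg.pnt_one` for each `(A,B)`, at most
`A T^{1-α} e^{|X|}` numerators `B`; `Ak A₀ c α T = Gg.As (c + A₀) (α - A₀) T` for `Gg.coef_A`. -/
theorem pntK (X κ c A₀ : ℝ) (hκ : 0 < κ) (hc : 0 < c) (hA : 0 ≤ A₀) {η ρ : ℝ → ℝ}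
    (hη : Eta X η) (hρ : Rho κ ρ) :
    ∃ C : ℝ, 0 ≤ C ∧ ∀ᶠ T : ℝ in atTop, ∀ α ∈ Icc (1 : ℝ) (3 / 2 - A₀ - 4 * c), ∀ m : ℕ,
      |X0m η ρ A₀ c α T m - JJm 1 η ρ A₀ c α T m| ≤ C * T := by
  obtain ⟨C, hC0, hC⟩ := Gg.pnt_one hη hρ
  obtain ⟨K, hK0, hK⟩ := Gg.coef_A
  refine ⟨Real.exp |X| * C * K, by positivity, ?_⟩
  filter_upwards [hC, eventually_ge_atTop (3 : ℝ)] with T hCT hT α hα m
  have hT0 : 0 < T := by linarith
  have hL0 : 0 < Real.log T := Real.log_pos (by linarith)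
  set D : ℝ := C * (T ^ α / Real.log T ^ 2) with hD
  have hD0 : 0 ≤ D := by positivity
  -- one fraction
  have hone : ∀ A ∈ Ak A₀ c α T, ∀ B ∈ Bk T m A,
      |∑ n ∈ Finset.Icc 1 ⌊T ^ (2 : ℝ)⌋₊, Λ n * η (Real.log n - α * Real.log T) ^ 2 *
        wt ρ T A B n - ∫ v : ℝ, Real.exp v * η (v - α * Real.log T) ^ 2 *
          wt ρ T A B (Real.exp v) ^ 1| ≤
      if (B : ℝ) ≤ (A : ℝ) * T ^ (1 - α) * Real.exp |X| then D else 0 := by
    intro A hA B _
    have hA0 : 0 < A := by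
      rw [Ak, Finset.mem_Ioc] at hA
      omega
    split_ifs with h
    · exact hCT α ⟨hα.1, by linarith [hα.2]⟩ A B
    · have hz := Gg.wt_eq_zero hη hρ hκ hT0 hA0 (not_le.1 h)
      have e1 : ∑ n ∈ Finset.Icc 1 ⌊T ^ (2 : ℝ)⌋₊, Λ n * η (Real.log n - α * Real.log T) ^ 2 *
          wt ρ T A B n = 0 := by
        apply Finset.sum_eq_zero
        intro n hn
        have hn0 : (0 : ℝ) < n := by
          have := (Finset.mem_Icc.1 hn).1
          exact_mod_cast this
        have := hz (Real.log n)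
        rw [Real.exp_log hn0] at this
        rw [mul_assoc, this, mul_zero]
      have e2 : ∫ v : ℝ, Real.exp v * η (v - α * Real.log T) ^ 2 *
          wt ρ T A B (Real.exp v) ^ 1 = 0 := by
        have : (fun v : ℝ => Real.exp v * η (v - α * Real.log T) ^ 2 *
            wt ρ T A B (Real.exp v) ^ 1) = fun _ => 0 := by
          ext v
          rw [pow_one, mul_assoc, hz v, mul_zero]
        rw [this]
        simp
      rw [e1, e2]
      simp
  -- the numerators
  have hsumB : ∀ A ∈ Ak A₀ c α T, ∑ B ∈ Bk T m A,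
      (if (B : ℝ) ≤ (A : ℝ) * T ^ (1 - α) * Real.exp |X| then D else 0) ≤
      (A : ℝ) * T ^ (1 - α) * Real.exp |X| * D := by
    intro A _
    rw [← Finset.sum_filter, Finset.sum_const, nsmul_eq_mul]
    apply mul_le_mul_of_nonneg_right _ hD0
    set Z : ℝ := (A : ℝ) * T ^ (1 - α) * Real.exp |X| with hZ
    have hZ0 : 0 ≤ Z := by positivity
    have h1 : (Bk T m A).filter (fun B : ℕ => (B : ℝ) ≤ Z) ⊆ Finset.Icc 1 ⌊Z⌋₊ := by
      intro B hB
      rw [Finset.mem_filter, Bk, Finset.mem_filter, Finset.mem_Icc] at hB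
      rw [Finset.mem_Icc]
      exact ⟨hB.1.1.1, Nat.le_floor hB.2⟩
    have h2 := Finset.card_le_card h1
    rw [Nat.card_Icc, Nat.add_sub_cancel] at h2
    calc (((Bk T m A).filter (fun B : ℕ => (B : ℝ) ≤ Z)).card : ℝ) ≤ (⌊Z⌋₊ : ℝ) := by
          exact_mod_cast h2
      _ ≤ Z := Nat.floor_le hZ0
  have e3 : X0m η ρ A₀ c α T m - JJm 1 η ρ A₀ c α T m = ∑ A ∈ Ak A₀ c α T, ∑ B ∈ Bk T m A,
      (μ A : ℝ) ^ 2 / (Nat.totient A : ℝ) ^ 2 *
      (∑ n ∈ Finset.Icc 1 ⌊T ^ (2 : ℝ)⌋₊, Λ n * η (Real.log n - α * Real.log T) ^ 2 *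
        wt ρ T A B n - ∫ v : ℝ, Real.exp v * η (v - α * Real.log T) ^ 2 *
          wt ρ T A B (Real.exp v) ^ 1) := by
    rw [X0m, JJm, ← Finset.sum_sub_distrib]
    apply Finset.sum_congr rfl
    intro A _
    rw [← Finset.sum_sub_distrib]
    apply Finset.sum_congr rfl
    intro B _
    ring
  rw [e3]
  calc |∑ A ∈ Ak A₀ c α T, ∑ B ∈ Bk T m A, (μ A : ℝ) ^ 2 / (Nat.totient A : ℝ) ^ 2 *
        (∑ n ∈ Finset.Icc 1 ⌊T ^ (2 : ℝ)⌋₊, Λ n * η (Real.log n - α * Real.log T) ^ 2 *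
        wt ρ T A B n - ∫ v : ℝ, Real.exp v * η (v - α * Real.log T) ^ 2 *
          wt ρ T A B (Real.exp v) ^ 1)|
      ≤ ∑ A ∈ Ak A₀ c α T, ∑ B ∈ Bk T m A, (μ A : ℝ) ^ 2 / (Nat.totient A : ℝ) ^ 2 *
        (if (B : ℝ) ≤ (A : ℝ) * T ^ (1 - α) * Real.exp |X| then D else 0) := by
        refine (Finset.abs_sum_le_sum_abs _ _).trans (Finset.sum_le_sum fun A hA => ?_)
        refine (Finset.abs_sum_le_sum_abs _ _).trans (Finset.sum_le_sum fun B hB => ?_)
        rw [abs_mul, abs_of_nonneg (by positivity :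
          (0 : ℝ) ≤ (μ A : ℝ) ^ 2 / (Nat.totient A : ℝ) ^ 2)]
        exact mul_le_mul_of_nonneg_left (hone A hA B hB) (by positivity)
    _ ≤ ∑ A ∈ Ak A₀ c α T, (μ A : ℝ) ^ 2 / (Nat.totient A : ℝ) ^ 2 *
        ((A : ℝ) * T ^ (1 - α) * Real.exp |X| * D) := by
        apply Finset.sum_le_sum
        intro A hA
        rw [← Finset.mul_sum]
        exact mul_le_mul_of_nonneg_left (hsumB A hA) (by positivity)
    _ = (T ^ (1 - α) * Real.exp |X| * D) *
        ∑ A ∈ Ak A₀ c α T, (μ A : ℝ) ^ 2 / (Nat.totient A : ℝ) ^ 2 * A := by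
        rw [Finset.mul_sum]
        apply Finset.sum_congr rfl
        intro A _
        ring
    _ ≤ (T ^ (1 - α) * Real.exp |X| * D) * (K * Real.log T ^ 2) :=
        mul_le_mul_of_nonneg_left (by
          have := hK (c + A₀) (α - A₀) T (by linarith) hT
          rwa [← MK1_Ak] at this) (by positivity)
    _ = Real.exp |X| * C * K * T := by
        have e2 : T ^ (1 - α) * T ^ α = T := by
          rw [← Real.rpow_add hT0]
          simp
        rw [hD]
        have hne : Real.log T ^ 2 ≠ 0 := by positivity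
        calc T ^ (1 - α) * Real.exp |X| * (C * (T ^ α / Real.log T ^ 2)) *
              (K * Real.log T ^ 2) = (T ^ (1 - α) * T ^ α) * (Real.exp |X| * C * K) *
              (Real.log T ^ 2 / Real.log T ^ 2) := by ring
          _ = _ := by rw [e2, div_self hne]; ring

private theorem MK2_cs {X : ℝ} {η : ℝ → ℝ} (hη : Eta X η) : HasCompactSupport η := by
  apply HasCompactSupport.intro (K := Icc (-X) X) isCompact_Icc
  intro v hv
  have : X < |v| := by
    rw [mem_Icc, ← abs_le, not_le] at hv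
    exact hv
  exact hη.supp v this

/-- The sum over the numerators, from below. -/
private theorem MK2_inner {X : ℝ} {η ρ : ℝ → ℝ} (hη : Eta X η) {V : ℝ}
    (hV : ∀ (A N : ℕ) (Y : ℝ), 0 < A → 0 < Y → Y ≤ N + 1 →
      |∑ B ∈ (Finset.Icc 1 N).filter (fun B => B.Coprime A), ρ (B / Y) -
        (A.totient : ℝ) / A * Y * ∫ s, ρ s| ≤ V * (A.divisors.card : ℝ)) {α T : ℝ} (hT : 0 < T)
    {A m : ℕ} (hA : 0 < A) (hm : 0 < m) (hAT : (A : ℝ) * T ^ (1 - α) * Real.exp |X| ≤ T) (v : ℝ) :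
    (((m * A).totient : ℝ) / m) * (T / (2 * π)) * (∫ s, ρ s) * η (v - α * Real.log T) ^ 2 -
      V * ((m * A).divisors.card : ℝ) * (Real.exp v * η (v - α * Real.log T) ^ 2) ≤
    ∑ B ∈ Bk T m A, Real.exp v * η (v - α * Real.log T) ^ 2 * wt ρ T A B (Real.exp v) ^ 1 := by
  by_cases hv : X < |v - α * Real.log T|
  · rw [hη.supp _ hv]
    simp
  · have hv2 : -|X| ≤ v - α * Real.log T := by
      have h1 := neg_abs_le (v - α * Real.log T)
      have h2 := le_abs_self X
      linarith [not_lt.1 hv]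
    have hA0 : (0 : ℝ) < A := by exact_mod_cast hA
    have hm0 : (0 : ℝ) < m := by exact_mod_cast hm
    set Y : ℝ := A * T / (2 * π * Real.exp v) with hY
    have hY0 : 0 < Y := by positivity
    have hYT : Y ≤ T := by
      have h3 : Real.exp (-|X|) * T ^ α ≤ Real.exp v := by
        rw [Real.rpow_def_of_pos hT, ← Real.exp_add]
        apply Real.exp_le_exp.2
        linarith [mul_comm (Real.log T) α]
      rw [hY, div_le_iff₀ (by positivity)]
      have h7 : (1 : ℝ) ≤ 2 * π := by linarith [Real.pi_gt_three]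
      have e2 : T ^ α * T ^ (1 - α) = T := by
        rw [← Real.rpow_add hT]
        simp
      have e1 : Real.exp (-|X|) * Real.exp |X| = 1 := by
        rw [← Real.exp_add]
        simp
      calc (A : ℝ) * T = (A : ℝ) * T ^ (1 - α) * Real.exp |X| * (Real.exp (-|X|) * T ^ α) := by
            calc (A : ℝ) * T = A * (T ^ α * T ^ (1 - α)) * (Real.exp (-|X|) * Real.exp |X|) := by
                  rw [e1, e2, mul_one]
              _ = _ := by ring
        _ ≤ T * Real.exp v := by gcongr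
        _ ≤ T * (2 * π * Real.exp v) := by
            apply mul_le_mul_of_nonneg_left _ hT.le
            exact le_mul_of_one_le_left (Real.exp_pos v).le h7
    have hYN : Y ≤ (⌊T⌋₊ : ℝ) + 1 := hYT.trans (Nat.lt_floor_add_one T).le
    have h4 := (abs_le.1 (hV (m * A) ⌊T⌋₊ Y (Nat.mul_pos hm hA) hY0 hYN)).1
    have e3 : ∑ B ∈ Bk T m A, Real.exp v * η (v - α * Real.log T) ^ 2 *
        wt ρ T A B (Real.exp v) ^ 1 = Real.exp v * η (v - α * Real.log T) ^ 2 *
        ∑ B ∈ (Finset.Icc 1 ⌊T⌋₊).filter (fun B => B.Coprime (m * A)), ρ (B / Y) := by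
      rw [Finset.mul_sum, Bk]
      apply Finset.sum_congr rfl
      intro B _
      rw [pow_one, wt, hY]
      congr 2
      field_simp
    rw [e3]
    set g : ℝ := Real.exp v * η (v - α * Real.log T) ^ 2 with hg
    have hg0 : 0 ≤ g := by positivity
    have e4 : (((m * A).totient : ℝ) / m) * (T / (2 * π)) * (∫ s, ρ s) *
        η (v - α * Real.log T) ^ 2 =
        g * (((m * A).totient : ℝ) / ((m * A : ℕ) : ℝ) * Y * ∫ s, ρ s) := by
      rw [hg, hY]
      push_cast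
      field_simp
    rw [e4]
    have h5 := mul_le_mul_of_nonneg_left h4 hg0
    linarith

/-- PROOF. As `Gg.main_lower` (`GgMainT.lean`), with `Gg.cop_sum` for the modulus `mA`: the main term
is `φ(mA)/(mA) ≥ (φ(m)/m)(φ(A)/A) ≥ (1 - 1/L) φ(A)/A` (`sift_phi`,
`Nat.totient_super_multiplicative`), the error is `V tau(mA) ≤ V C tau(A)` (`sift_tau`). `coef_mainK`
for the sum over `A`, `Gg.coef_tau` with `Ak A₀ c α T = Gg.As (c + A₀) (α - A₀) T` for the error. -/
theorem lowerK (X κ c A₀ κ₀ ε : ℝ) (hκ : 0 < κ) (hc : 0 < c) (hA : 0 ≤ A₀) (hκ₀ : 0 < κ₀)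
    (hε : 0 < ε) {η ρ : ℝ → ℝ} (hη : Eta X η) (hρ : Rho κ ρ) :
    ∃ C : ℝ, 0 ≤ C ∧ ∀ᶠ T : ℝ in atTop, ∀ α ∈ Icc (1 : ℝ) (3 / 2 - A₀ - 4 * c),
      ∀ m ∈ Sk A₀ κ₀ T,
      (3 / 2 - α - A₀ - 2 * c - ε) * T * Real.log T * (∫ s, ρ s) * (∫ v, η v ^ 2) - C * T ≤
        2 * π * JJm 1 η ρ A₀ c α T m := by
  obtain ⟨V, hV0, hV⟩ := Gg.cop_sum hκ hρ
  obtain ⟨K, hK0, hK⟩ := Gg.coef_tau
  obtain ⟨C, hC⟩ := coef_mainK hε
  obtain ⟨τ₀, hτ1, hτ⟩ := sift_tau A₀ hκ₀
  have hφs := sift_phi A₀ hκ₀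
  have hηc : Continuous η := hη.smooth.continuous
  have hρc : Continuous ρ := hρ.smooth.continuous
  have hcs := MK2_cs hη
  set IR : ℝ := ∫ s, ρ s with hIR
  set IE : ℝ := ∫ v, η v ^ 2 with hIE
  set E0 : ℝ := ∫ v, Real.exp v * η v ^ 2 with hE0
  have hIR0 : 0 ≤ IR := integral_nonneg hρ.nonneg
  have hIE0 : 0 ≤ IE := integral_nonneg fun v => sq_nonneg _
  have hE00 : 0 ≤ E0 := integral_nonneg fun v => by positivity
  have hτ0 : 0 ≤ τ₀ := by linarith
  refine ⟨IR * IE * (|C| + 1 / 2) + 2 * π * (V * τ₀ * E0 * K), by positivity, ?_⟩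
  have hlog : ∀ᶠ T : ℝ in atTop, Real.log T ^ 4 * T ^ (-c) ≤ 1 := by
    have h1 := (isLittleO_log_rpow_rpow_atTop 4 hc).bound (c := 1) one_pos
    filter_upwards [h1, eventually_ge_atTop (1 : ℝ)] with T hT hT1
    have hT0 : 0 < T := by linarith
    have h0 : 0 ≤ Real.log T ^ (4 : ℝ) := Real.rpow_nonneg (Real.log_nonneg hT1) _
    have h0' : 0 ≤ T ^ c := Real.rpow_nonneg hT0.le _
    rw [one_mul, Real.norm_of_nonneg h0, Real.norm_of_nonneg h0'] at hT
    have h2 : Real.log T ^ (4 : ℝ) = Real.log T ^ (4 : ℕ) := by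
      rw [← Real.rpow_natCast]
      norm_num
    rw [h2] at hT
    rw [Real.rpow_neg hT0.le, ← div_eq_mul_inv, div_le_one (by positivity)]
    exact hT
  have hX : ∀ᶠ T : ℝ in atTop, Real.exp |X| ≤ T ^ (1 / 2 : ℝ) :=
    (tendsto_rpow_atTop (by norm_num : (0 : ℝ) < 1 / 2)).eventually_ge_atTop _
  filter_upwards [hlog, hX, eventually_ge_atTop (3 : ℝ), hτ, hφs] with T hTl hTX hT3 hτT hφT α hα m hm
  have hT0 : 0 < T := by linarith
  have hT1 : 1 ≤ T := by linarith
  set L : ℝ := Real.log T with hL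
  have hL1 : 1 ≤ L := by
    rw [hL, Real.le_log_iff_exp_le hT0]
    linarith [Real.exp_one_lt_three]
  have hm0 : 0 < m := by
    rw [Sk, Finset.mem_filter, Mk, Finset.mem_Icc] at hm
    omega
  have hm0' : (0 : ℝ) < m := by exact_mod_cast hm0
  have hφm : (1 - 1 / L) * (m : ℝ) ≤ (m.totient : ℝ) :=
    (hφT m hm m (Nat.mem_divisors_self m hm0.ne')).1
  have hτm : tau m ≤ τ₀ := hτT m hm
  have hL2 : 0 ≤ 1 - 1 / L := by
    rw [sub_nonneg, div_le_one (by linarith)]
    exact hL1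
  -- one denominator
  have hone' : ∀ A ∈ Ak A₀ c α T, (((m * A).totient : ℝ) / m) * (T / (2 * π)) * IR * IE -
      V * ((m * A).divisors.card : ℝ) * (T ^ α * E0) ≤
      ∑ B ∈ Bk T m A, ∫ v : ℝ, Real.exp v * η (v - α * L) ^ 2 * wt ρ T A B (Real.exp v) ^ 1 := by
    intro A hA
    rw [Ak, Finset.mem_Ioc] at hA
    have hA0 : 0 < A := by omega
    have hAT : (A : ℝ) * T ^ (1 - α) * Real.exp |X| ≤ T := by
      have h1 : (A : ℝ) ≤ T ^ (1 / 2 - A₀ - c) := by
        have h2 : (A : ℝ) ≤ (⌊T ^ (1 / 2 - A₀ - c)⌋₊ : ℝ) := by exact_mod_cast hA.2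
        exact h2.trans (Nat.floor_le (by positivity))
      calc (A : ℝ) * T ^ (1 - α) * Real.exp |X| ≤ T ^ (1 / 2 - A₀ - c) * T ^ (1 - α) *
            T ^ (1 / 2 : ℝ) := by gcongr
        _ = T ^ ((1 / 2 - A₀ - c) + (1 - α) + 1 / 2) := by
            rw [Real.rpow_add hT0, Real.rpow_add hT0]
        _ ≤ T ^ (1 : ℝ) := Real.rpow_le_rpow_of_exponent_le hT1 (by linarith [hα.1])
        _ = T := Real.rpow_one T
    have hcont : Continuous fun v => η (v - α * L) ^ 2 := by fun_prop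
    have hcs1 : HasCompactSupport fun v => η (v - α * L) ^ 2 := by
      apply HasCompactSupport.intro (K := Icc (α * L - X) (α * L + X)) isCompact_Icc
      intro v hv
      have h1 : X < |v - α * L| := by
        rw [mem_Icc, not_and_or, not_le, not_le] at hv
        rcases hv with h | h
        · have := neg_abs_le (v - α * L)
          linarith
        · have := le_abs_self (v - α * L)
          linarith
      rw [hη.supp _ h1]
      ring
    have hi1 : Integrable fun v => η (v - α * L) ^ 2 :=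
      hcont.integrable_of_hasCompactSupport hcs1
    have hi2 : Integrable fun v => Real.exp v * η (v - α * L) ^ 2 :=
      (by fun_prop : Continuous fun v =>
        Real.exp v * η (v - α * L) ^ 2).integrable_of_hasCompactSupport
        (hcs1.mul_left (f := fun v => Real.exp v))
    have hi3 : ∀ B : ℕ, Integrable fun v => Real.exp v * η (v - α * L) ^ 2 *
        wt ρ T A B (Real.exp v) ^ 1 := by
      intro B
      have hw : Continuous fun v => wt ρ T A B (Real.exp v) ^ 1 := by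
        simp only [pow_one, wt]
        exact hρc.comp (by fun_prop)
      exact (by fun_prop : Continuous fun v => Real.exp v * η (v - α * L) ^ 2 *
        wt ρ T A B (Real.exp v) ^ 1).integrable_of_hasCompactSupport
        ((hcs1.mul_left (f := fun v => Real.exp v)).mul_right
          (f' := fun v => wt ρ T A B (Real.exp v) ^ 1))
    rw [← integral_finsetSum _ fun B _ => hi3 B]
    have e1 : ∫ v, η (v - α * L) ^ 2 = IE := by
      rw [hIE, ← integral_sub_right_eq_self (fun v => η v ^ 2) (α * L)]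
    have e2 : ∫ v, Real.exp v * η (v - α * L) ^ 2 = T ^ α * E0 := by
      rw [hE0, ← integral_const_mul,
        ← integral_sub_right_eq_self (fun v => T ^ α * (Real.exp v * η v ^ 2)) (α * L)]
      congr 1
      ext v
      rw [Real.rpow_def_of_pos hT0, ← hL, ← mul_assoc, ← Real.exp_add]
      congr 2
      ring
    calc (((m * A).totient : ℝ) / m) * (T / (2 * π)) * IR * IE -
          V * ((m * A).divisors.card : ℝ) * (T ^ α * E0) =
        ∫ v, ((((m * A).totient : ℝ) / m) * (T / (2 * π)) * IR * η (v - α * L) ^ 2 -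
          V * ((m * A).divisors.card : ℝ) * (Real.exp v * η (v - α * L) ^ 2)) := by
          rw [integral_sub (hi1.const_mul _) (hi2.const_mul _), integral_const_mul,
            integral_const_mul, e1, e2]
      _ ≤ _ := by
          apply integral_mono ((hi1.const_mul _).sub (hi2.const_mul _))
            (integrable_finsetSum _ fun B _ => hi3 B)
          intro v
          exact MK2_inner hη hV hT0 hA0 hm0 hAT v
  have hone : ∀ A ∈ Ak A₀ c α T, (1 - 1 / L) * ((A.totient : ℝ) * (T / (2 * π)) * IR * IE) -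
      V * τ₀ * (A.divisors.card : ℝ) * (T ^ α * E0) ≤
      ∑ B ∈ Bk T m A, ∫ v : ℝ, Real.exp v * η (v - α * L) ^ 2 * wt ρ T A B (Real.exp v) ^ 1 := by
    intro A hA
    refine le_trans ?_ (hone' A hA)
    have hA0 : 0 < A := by
      rw [Ak, Finset.mem_Ioc] at hA
      omega
    have f1 : (1 - 1 / L) * (A.totient : ℝ) ≤ ((m * A).totient : ℝ) / m := by
      rw [le_div_iff₀ hm0']
      have h1 : ((m.totient * A.totient : ℕ) : ℝ) ≤ ((m * A).totient : ℝ) := by
        exact_mod_cast Nat.totient_super_multiplicative m A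
      push_cast at h1
      have h2 := mul_le_mul_of_nonneg_right hφm (Nat.cast_nonneg (α := ℝ) A.totient)
      linarith
    have f2 : ((m * A).divisors.card : ℝ) ≤ τ₀ * (A.divisors.card : ℝ) := by
      have h1 : tau (m * A) ≤ tau m * tau A := Pool.Agent.BV.tau_mul_le m A hm0.ne' hA0.ne'
      have h2 : tau m * tau A ≤ τ₀ * tau A :=
        mul_le_mul_of_nonneg_right hτm (Nat.cast_nonneg (α := ℝ) _)
      exact h1.trans h2
    have f3 := mul_le_mul_of_nonneg_right f1 (by positivity : 0 ≤ (T / (2 * π)) * IR * IE)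
    have f4 := mul_le_mul_of_nonneg_right f2 (by positivity : 0 ≤ V * (T ^ α * E0))
    linarith
  have e5 : JJm 1 η ρ A₀ c α T m = ∑ A ∈ Ak A₀ c α T, (μ A : ℝ) ^ 2 / (A.totient : ℝ) ^ 2 *
      ∑ B ∈ Bk T m A, ∫ v : ℝ, Real.exp v * η (v - α * L) ^ 2 * wt ρ T A B (Real.exp v) ^ 1 := by
    rw [JJm]
    apply Finset.sum_congr rfl
    intro A _
    rw [Finset.mul_sum]
  have h6 : (1 - 1 / L) * ((T / (2 * π)) * IR * IE) *
        (∑ A ∈ Ak A₀ c α T, (μ A : ℝ) ^ 2 / (A.totient : ℝ)) -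
      V * τ₀ * (T ^ α * E0) * (∑ A ∈ Ak A₀ c α T, (μ A : ℝ) ^ 2 / (A.totient : ℝ) ^ 2 *
        (A.divisors.card : ℝ)) ≤ JJm 1 η ρ A₀ c α T m := by
    rw [e5, Finset.mul_sum, Finset.mul_sum, ← Finset.sum_sub_distrib]
    apply Finset.sum_le_sum
    intro A hA
    have h7 := mul_le_mul_of_nonneg_left (hone A hA)
      (by positivity : (0 : ℝ) ≤ (μ A : ℝ) ^ 2 / (A.totient : ℝ) ^ 2)
    refine le_trans (le_of_eq ?_) h7
    have hA0 : 0 < A := by
      rw [Ak, Finset.mem_Ioc] at hA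
      omega
    have hφ : (A.totient : ℝ) ≠ 0 := by
      have := Nat.totient_pos.2 hA0
      exact_mod_cast this.ne'
    field_simp
  have h8 := hC A₀ c α T hA hc hT3 hα.1 hα.2
  have h9 := hK (c + A₀) (α - A₀) T (by linarith) hT3
  rw [← MK1_Ak, show α - A₀ - 1 + (c + A₀) = α - 1 + c by ring] at h9
  have hTIE : 0 ≤ (T / (2 * π)) * IR * IE := by positivity
  have hVE : 0 ≤ V * τ₀ * (T ^ α * E0) := by positivity
  have h8' : (3 / 2 - α - A₀ - 2 * c - ε) * L - (|C| + 1 / 2) ≤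
      (1 - 1 / L) * ∑ A ∈ Ak A₀ c α T, (μ A : ℝ) ^ 2 / (A.totient : ℝ) := by
    have g1 := mul_le_mul_of_nonneg_left h8 hL2
    refine le_trans ?_ g1
    have hL0 : 0 < L := by linarith
    have g2 : (1 - 1 / L) * ((3 / 2 - α - A₀ - 2 * c - ε) * L - C) =
        (3 / 2 - α - A₀ - 2 * c - ε) * L - (3 / 2 - α - A₀ - 2 * c - ε) - (1 - 1 / L) * C := by
      field_simp
    have g3 : (1 - 1 / L) * C ≤ |C| := by
      have g4 : (1 - 1 / L) * C ≤ (1 - 1 / L) * |C| := mul_le_mul_of_nonneg_left (le_abs_self C) hL2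
      have g5 : (1 - 1 / L) * |C| ≤ 1 * |C| := by
        apply mul_le_mul_of_nonneg_right _ (abs_nonneg C)
        have : 0 ≤ 1 / L := by positivity
        linarith
      linarith
    rw [g2]
    have := hα.1
    linarith
  have h10 := mul_le_mul_of_nonneg_left h8' hTIE
  have h11 := mul_le_mul_of_nonneg_left h9 hVE
  have h12 : V * τ₀ * (T ^ α * E0) * (K * L ^ 4 * T ^ (-(α - 1 + c))) ≤ V * τ₀ * E0 * K * T := by
    have e6 : T ^ α * T ^ (-(α - 1 + c)) = T * T ^ (-c) := by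
      rw [← Real.rpow_add hT0]
      nth_rewrite 2 [← Real.rpow_one T]
      rw [← Real.rpow_add hT0]
      congr 1
      ring
    calc V * τ₀ * (T ^ α * E0) * (K * L ^ 4 * T ^ (-(α - 1 + c))) =
        V * τ₀ * E0 * K * (T ^ α * T ^ (-(α - 1 + c))) * L ^ 4 := by ring
      _ = V * τ₀ * E0 * K * T * (L ^ 4 * T ^ (-c)) := by rw [e6]; ring
      _ ≤ V * τ₀ * E0 * K * T * 1 := mul_le_mul_of_nonneg_left hTl (by positivity)
      _ = _ := mul_one _
  have h13 : (T / (2 * π)) * IR * IE * ((3 / 2 - α - A₀ - 2 * c - ε) * L - (|C| + 1 / 2)) -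
      V * τ₀ * E0 * K * T ≤ JJm 1 η ρ A₀ c α T m := by linarith
  have h14 := mul_le_mul_of_nonneg_left h13 (by positivity : (0 : ℝ) ≤ 2 * π)
  refine le_trans (le_of_eq ?_) h14
  field_simp
  ring

end Pool.Agent.MP_67227b_nt.Gk
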