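import Mathlib
import Pool.Agent.MP_67227b_nt.Gk.GkMG
import Pool.Agent.MP_67227b_nt.Gk.GkMI
import Pool.Agent.MP_67227b_nt.Gk.GkMJ
import Pool.Agent.MP_67227b_nt.Gk.GkMK

set_option autoImplicit false

open Filter Topology Set MeasureTheory Complex
open scoped Real ContDiff ArithmeticFunction ArithmeticFunction.Moebius
open scoped Classical

namespace Pool.Agent.MP_67227b_nt.Gk

open Pool.Agent.MP_67227b_nt.Gg (Eta Rho wt ex PP)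
open Pool.Agent.BV (tau)

/-- Splitting off the diagonal and the numbers which are not sifted. -/
private theorem mm_split {M S : Finset ℕ} (hS : S ⊆ M) (t : ℕ → ℂ) {m' : ℕ} (hm : m' ∈ S) :
    ∑ m ∈ M, t m = t m' + ∑ m ∈ S with m ≠ m', t m + ∑ m ∈ M \ S, t m := by
  rw [← Finset.sum_sdiff hS, add_comm]
  congr 1
  rw [← Finset.add_sum_erase S t hm]
  congr 1
  refine Finset.sum_congr ?_ fun _ _ => rfl
  ext m
  rw [Finset.mem_erase, Finset.mem_filter, and_comm]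

private theorem mm_sub (A₀ κ₀ T : ℝ) : Sk A₀ κ₀ T ⊆ Mk A₀ T := by
  intro m hm
  unfold Sk at hm
  exact (Finset.mem_filter.1 hm).1

private theorem mm_pos {A₀ T : ℝ} {m : ℕ} (hm : m ∈ Mk A₀ T) : 1 ≤ m := by
  unfold Mk at hm
  exact (Finset.mem_Icc.1 hm).1

private theorem mm_re (z : ℂ) : z * (starRingEnd ℂ) z = ((‖z‖ ^ 2 : ℝ) : ℂ) := by
  rw [Complex.mul_conj, Complex.normSq_eq_norm_sq]

/-- `X0K` for the sifted test function. -/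
private theorem mm_X (η ρ : ℝ → ℝ) (A₀ κ₀ c α T : ℝ) (a : ℕ → ℂ) :
    X0K η ρ A₀ c α T a (bS A₀ κ₀ T a) =
      ((∑ m ∈ Sk A₀ κ₀ T, ‖a m‖ ^ 2 / m * X0m η ρ A₀ c α T m : ℝ) : ℂ) +
      (∑ m' ∈ Sk A₀ κ₀ T, ∑ m ∈ Sk A₀ κ₀ T with m ≠ m',
        a m * (starRingEnd ℂ) (a m') * ((1 / (m' : ℝ) : ℝ) : ℂ) * xi η ρ A₀ c α T m m') +
      ∑ m' ∈ Sk A₀ κ₀ T, ∑ m ∈ Mk A₀ T \ Sk A₀ κ₀ T,
        a m * (starRingEnd ℂ) (a m') * ((1 / (m' : ℝ) : ℝ) : ℂ) * xi η ρ A₀ c α T m m' := by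
  have hS := mm_sub A₀ κ₀ T
  rw [X0K_eq, ← Finset.sum_subset hS]
  · rw [ofReal_sum, ← Finset.sum_add_distrib, ← Finset.sum_add_distrib]
    refine Finset.sum_congr rfl fun m' hm' => ?_
    have hb : bS A₀ κ₀ T a m' = a m' := by
      unfold bS
      rw [if_pos hm']
    rw [hb, mm_split hS _ hm', xi_diag η ρ A₀ c α T (mm_pos (hS hm')), mm_re]
    congr 2
    push_cast
    ring
  · intro m' _ hm'
    have hb : bS A₀ κ₀ T a m' = 0 := by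
      unfold bS
      rw [if_neg hm']
    refine Finset.sum_eq_zero fun m _ => ?_
    rw [hb, map_zero]
    ring

/-- `YK` for the sifted test function. -/
private theorem mm_Y (η ρ : ℝ → ℝ) (A₀ κ₀ c α T : ℝ) (a : ℕ → ℂ) :
    YK η ρ A₀ c α T (bS A₀ κ₀ T a) =
      ((∑ m ∈ Sk A₀ κ₀ T, ‖a m‖ ^ 2 / m * JJm 2 η ρ A₀ c α T m : ℝ) : ℂ) +
      ∑ m ∈ Sk A₀ κ₀ T, ∑ m' ∈ Sk A₀ κ₀ T with m' ≠ m,
        a m * (starRingEnd ℂ) (a m') * ((1 / ((m : ℝ) * m') : ℝ) : ℂ) *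
          yi η ρ A₀ c α T m m' := by
  have hS := mm_sub A₀ κ₀ T
  have hz : ∀ m, m ∉ Sk A₀ κ₀ T → bS A₀ κ₀ T a m = 0 := by
    intro m hm
    unfold bS
    rw [if_neg hm]
  have hp : ∀ m, m ∈ Sk A₀ κ₀ T → bS A₀ κ₀ T a m = a m := by
    intro m hm
    unfold bS
    rw [if_pos hm]
  rw [YK_eq, ← Finset.sum_subset hS]
  · rw [ofReal_sum, ← Finset.sum_add_distrib]
    refine Finset.sum_congr rfl fun m hm => ?_
    rw [hp m hm, ← Finset.sum_subset hS]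
    · have e1 : ∑ m' ∈ Sk A₀ κ₀ T, a m * (starRingEnd ℂ) (bS A₀ κ₀ T a m') *
          ((1 / ((m : ℝ) * m') : ℝ) : ℂ) * yi η ρ A₀ c α T m m' =
          ∑ m' ∈ Sk A₀ κ₀ T, a m * (starRingEnd ℂ) (a m') *
          ((1 / ((m : ℝ) * m') : ℝ) : ℂ) * yi η ρ A₀ c α T m m' :=
        Finset.sum_congr rfl fun m' hm' => by rw [hp m' hm']
      rw [e1, mm_split (Finset.Subset.refl _) _ hm, Finset.sdiff_self, Finset.sum_empty, add_zero,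
        yi_diag η ρ A₀ c α T (mm_pos (hS hm)), mm_re]
      congr 1
      have hm0 : (m : ℂ) ≠ 0 := by
        have := mm_pos (hS hm)
        exact_mod_cast (by omega : m ≠ 0)
      push_cast
      field_simp
    · intro m' _ hm'
      rw [hz m' hm', map_zero]
      ring
  · intro m _ hm
    refine Finset.sum_eq_zero fun m' _ => ?_
    rw [hz m hm]
    ring

/-- MAIN TERM. PROOF. `b = bS a` vanishes off `S = Sk`. `X0K` = (`m = m' ∈ S`: `xi_diag`) +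
(`m ≠ m'` in `S`: `offX`) + (`m ∉ S`, `m' ∈ S`: `‖a m‖ ‖a m'‖ ≤ ‖a m‖`, `xi_triv` with `ε/2`,
`4π T^{ε/2} ≤ T^ε`); `YK` = (`yi_diag`) + (`offY`). For each `m ∈ S`:
`4π X0m - 2π JJm 2 ≥ 4π JJm 1 - 4π C T - 2π JJm 1 = 2π JJm 1 - 4π C T` (`pntK`, `JJm_le`), then
`lowerK`. -/
theorem mainK (X κ c A₀ κ₀ ε : ℝ) (hκ : 0 < κ) (hc : 0 < c) (hA : 0 ≤ A₀) (hκ₀ : 0 < κ₀)
    (hε : 0 < ε) {η ρ : ℝ → ℝ} (hη : Eta X η) (hρ : Rho κ ρ) :
    ∃ C : ℝ, ∀ᶠ T : ℝ in atTop, ∀ α ∈ Icc (1 : ℝ) (3 / 2 - A₀ - 4 * c),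
      ∀ a : ℕ → ℂ, (∀ m, ‖a m‖ ≤ 1) →
      (∑ m ∈ Sk A₀ κ₀ T, ‖a m‖ ^ 2 / m) *
        ((3 / 2 - α - A₀ - 2 * c - ε) * T * Real.log T * (∫ s, ρ s) * (∫ v, η v ^ 2) - C * T) -
      (∑ m ∈ Mk A₀ T \ Sk A₀ κ₀ T, ‖a m‖ / m) * T ^ (1 + ε) ≤
      2 * (2 * π * (X0K η ρ A₀ c α T a (bS A₀ κ₀ T a)).re) -
        2 * π * (YK η ρ A₀ c α T (bS A₀ κ₀ T a)).re := by
  obtain ⟨C1, hC1, h1⟩ := pntK X κ c A₀ hκ hc hA hη hρ
  obtain ⟨C2, hC2, h2⟩ := lowerK X κ c A₀ κ₀ ε hκ hc hA hκ₀ hε hη hρ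
  obtain ⟨C3, hC3, h3⟩ := offX hκ hη hρ c hc hA hκ₀
  obtain ⟨C4, hC4, h4⟩ := offY hκ hη hρ c hc hA hκ₀
  have h5 := xi_triv hκ hη hρ c hc hA (show 0 < ε / 2 by linarith)
  refine ⟨C2 + 4 * π * C1 + 4 * π * C3 + 2 * π * C4, ?_⟩
  have hT4 : ∀ᶠ T : ℝ in atTop, 4 * π ≤ T ^ (ε / 2) :=
    (tendsto_rpow_atTop (by positivity)).eventually_ge_atTop _
  filter_upwards [h1, h2, h3, h4, h5, hT4, eventually_gt_atTop (1 : ℝ)] with T k1 k2 k3 k4 k5 k6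
    hT1 α hα a ha
  have hT0 : 0 < T := by linarith
  have hpi := Real.pi_pos
  have hS := mm_sub A₀ κ₀ T
  set S := Sk A₀ κ₀ T with hSdef
  set D : ℝ := ∑ m ∈ S, ‖a m‖ ^ 2 / m with hD
  set E : ℝ := ∑ m ∈ Mk A₀ T \ S, ‖a m‖ / m with hE
  set W : ℝ := (3 / 2 - α - A₀ - 2 * c - ε) * T * Real.log T * (∫ s, ρ s) * (∫ v, η v ^ 2) with hW
  have hD0 : 0 ≤ D := Finset.sum_nonneg fun m _ => by positivity
  have hE0 : 0 ≤ E := Finset.sum_nonneg fun m _ => by positivity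
  -- the numbers which are not sifted
  have hN : ‖∑ m' ∈ S, ∑ m ∈ Mk A₀ T \ S,
      a m * (starRingEnd ℂ) (a m') * ((1 / (m' : ℝ) : ℝ) : ℂ) * xi η ρ A₀ c α T m m'‖ ≤
      E * T ^ (1 + ε / 2) := by
    rw [Finset.sum_comm]
    refine (norm_sum_le _ _).trans ?_
    rw [hE, Finset.sum_mul]
    refine Finset.sum_le_sum fun m hm => ?_
    have hmM : m ∈ Mk A₀ T := (Finset.mem_sdiff.1 hm).1
    refine (norm_sum_le _ _).trans ?_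
    calc ∑ m' ∈ S, ‖a m * (starRingEnd ℂ) (a m') * ((1 / (m' : ℝ) : ℝ) : ℂ) *
          xi η ρ A₀ c α T m m'‖
        ≤ ∑ m' ∈ S, ‖a m‖ * ((1 / (m' : ℝ)) * ‖xi η ρ A₀ c α T m m'‖) := by
          refine Finset.sum_le_sum fun m' _ => ?_
          rw [norm_mul, norm_mul, norm_mul, RCLike.norm_conj, Complex.norm_real,
            Real.norm_of_nonneg (by positivity : (0 : ℝ) ≤ 1 / (m' : ℝ))]
          have h6 := ha m'
          calc ‖a m‖ * ‖a m'‖ * (1 / (m' : ℝ)) * ‖xi η ρ A₀ c α T m m'‖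
              ≤ ‖a m‖ * 1 * (1 / (m' : ℝ)) * ‖xi η ρ A₀ c α T m m'‖ := by gcongr
            _ = _ := by ring
      _ ≤ ∑ m' ∈ Mk A₀ T, ‖a m‖ * ((1 / (m' : ℝ)) * ‖xi η ρ A₀ c α T m m'‖) :=
          Finset.sum_le_sum_of_subset_of_nonneg hS fun m' _ _ => by positivity
      _ = ‖a m‖ * ∑ m' ∈ Mk A₀ T, (1 / (m' : ℝ)) * ‖xi η ρ A₀ c α T m m'‖ := by
          rw [Finset.mul_sum]
      _ ≤ ‖a m‖ * (T ^ (1 + ε / 2) / m) :=
          mul_le_mul_of_nonneg_left (k5 α hα m hmM) (norm_nonneg _)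
      _ = ‖a m‖ / m * T ^ (1 + ε / 2) := by ring
  have hX := k3 α hα a
  have hY := k4 α hα a
  rw [mm_X, mm_Y]
  set X1 : ℂ := ∑ m' ∈ S, ∑ m ∈ S with m ≠ m',
        a m * (starRingEnd ℂ) (a m') * ((1 / (m' : ℝ) : ℝ) : ℂ) * xi η ρ A₀ c α T m m' with hX1
  set X2 : ℂ := ∑ m' ∈ S, ∑ m ∈ Mk A₀ T \ S,
        a m * (starRingEnd ℂ) (a m') * ((1 / (m' : ℝ) : ℝ) : ℂ) * xi η ρ A₀ c α T m m' with hX2
  set Y1 : ℂ := ∑ m ∈ S, ∑ m' ∈ S with m' ≠ m,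
        a m * (starRingEnd ℂ) (a m') * ((1 / ((m : ℝ) * m') : ℝ) : ℂ) *
          yi η ρ A₀ c α T m m' with hY1
  rw [Complex.add_re, Complex.add_re, Complex.add_re, Complex.ofReal_re, Complex.ofReal_re]
  have r1 := (abs_le.1 ((Complex.abs_re_le_norm X1).trans hX)).1
  have r2 := (abs_le.1 ((Complex.abs_re_le_norm X2).trans hN)).1
  have r3 := (abs_le.1 ((Complex.abs_re_le_norm Y1).trans hY)).2
  -- the diagonal
  have hdiag : D * (W - (C2 + 4 * π * C1) * T) ≤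
      4 * π * ∑ m ∈ S, ‖a m‖ ^ 2 / m * X0m η ρ A₀ c α T m -
        2 * π * ∑ m ∈ S, ‖a m‖ ^ 2 / m * JJm 2 η ρ A₀ c α T m := by
    rw [hD, Finset.sum_mul, Finset.mul_sum, Finset.mul_sum, ← Finset.sum_sub_distrib]
    refine Finset.sum_le_sum fun m hm => ?_
    have e1 := (abs_le.1 (k1 α hα m)).1
    have e2 := JJm_le hη hρ A₀ c α T m
    have e3 := k2 α hα m hm
    have e4 : W - (C2 + 4 * π * C1) * T ≤
        4 * π * X0m η ρ A₀ c α T m - 2 * π * JJm 2 η ρ A₀ c α T m := by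
      have e5 : 4 * π * (JJm 1 η ρ A₀ c α T m - C1 * T) ≤ 4 * π * X0m η ρ A₀ c α T m :=
        mul_le_mul_of_nonneg_left (by linarith) (by positivity)
      have e6 : 2 * π * JJm 2 η ρ A₀ c α T m ≤ 2 * π * JJm 1 η ρ A₀ c α T m :=
        mul_le_mul_of_nonneg_left e2 (by positivity)
      have e7 : 4 * π * (JJm 1 η ρ A₀ c α T m - C1 * T) =
        2 * (2 * π * JJm 1 η ρ A₀ c α T m) - 4 * π * C1 * T := by ring
      have e8 : (C2 + 4 * π * C1) * T = C2 * T + 4 * π * C1 * T := by ring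
      linarith
    have e9 : (0 : ℝ) ≤ ‖a m‖ ^ 2 / m := by positivity
    calc ‖a m‖ ^ 2 / m * (W - (C2 + 4 * π * C1) * T)
        ≤ ‖a m‖ ^ 2 / m * (4 * π * X0m η ρ A₀ c α T m - 2 * π * JJm 2 η ρ A₀ c α T m) :=
          mul_le_mul_of_nonneg_left e4 e9
      _ = _ := by ring
  have hTe : 4 * π * (E * T ^ (1 + ε / 2)) ≤ E * T ^ (1 + ε) := by
    have e1 : T ^ (1 + ε) = T ^ (1 + ε / 2) * T ^ (ε / 2) := by
      rw [← Real.rpow_add hT0]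
      congr 1
      ring
    rw [e1]
    calc 4 * π * (E * T ^ (1 + ε / 2)) = E * (T ^ (1 + ε / 2) * (4 * π)) := by ring
      _ ≤ E * (T ^ (1 + ε / 2) * T ^ (ε / 2)) := by gcongr
  have g1 : 4 * π * (-(C3 * T * D)) ≤ 4 * π * X1.re :=
    mul_le_mul_of_nonneg_left r1 (by positivity)
  have g2 : 4 * π * (-(E * T ^ (1 + ε / 2))) ≤ 4 * π * X2.re :=
    mul_le_mul_of_nonneg_left r2 (by positivity)
  have g3 : 2 * π * Y1.re ≤ 2 * π * (C4 * T * D) :=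
    mul_le_mul_of_nonneg_left r3 (by positivity)
  have e10 : D * (W - (C2 + 4 * π * C1 + 4 * π * C3 + 2 * π * C4) * T) =
      D * (W - (C2 + 4 * π * C1) * T) - 4 * π * (C3 * T * D) - 2 * π * (C4 * T * D) := by ring
  rw [e10]
  linarith

end Pool.Agent.MP_67227b_nt.Gk
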