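import Mathlib
import Pool.Agent.MP_67227b_nt.Gk.GkErr
import Pool.Agent.MP_67227b_nt.Gk.GkLl
import Pool.Agent.MP_67227b_nt.Gk.GkMM

set_option autoImplicit false

open Filter Topology Set MeasureTheory Complex
open scoped Real ContDiff ArithmeticFunction ArithmeticFunction.Moebius

namespace Pool.Agent.MP_67227b_nt.Gk

open Pool.Agent.MP_67227b_nt.Gg (Eta Rho wt ex PP)

/-- The weighted lower bound, for an arbitrary Dirichlet polynomial as weight. -/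
theorem polyK (X κ c A₀ κ₀ ε : ℝ) (hκ : 0 < κ) (hκ1 : κ < 1) (hc : 0 < c) (hA : 0 ≤ A₀)
    (hκ₀ : 0 < κ₀) (hε : 0 < ε) {η ρ : ℝ → ℝ} (hη : Eta X η) (hρ : Rho κ ρ) :
    ∃ C δ : ℝ, 0 < δ ∧ ∀ᶠ T : ℝ in atTop, ∀ α ∈ Icc (1 : ℝ) (3 / 2 - A₀ - 4 * c),
      ∀ a : ℕ → ℂ, (∀ m, ‖a m‖ ≤ 1) →
      (∑ m ∈ Sk A₀ κ₀ T, ‖a m‖ ^ 2 / m) *
        ((3 / 2 - α - A₀ - 2 * c - ε) * T * Real.log T * (∫ s, ρ s) * (∫ v, η v ^ 2) - C * T) -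
      (∑ m ∈ Mk A₀ T \ Sk A₀ κ₀ T, ‖a m‖ / m) * T ^ (1 + ε) - T ^ (1 - δ) ≤
        ∫ t in (κ * T)..(T - T ^ (3 / 4 : ℝ)), ‖Pw A₀ T a t‖ ^ 2 * ‖PP η α T t‖ ^ 2 := by
  obtain ⟨δ₁, hδ₁, h1⟩ := lowK X κ c A₀ hκ hκ1 hc hA hη hρ
  obtain ⟨δ₂, hδ₂, h2⟩ := errK X κ c A₀ hκ hc hA hη hρ
  obtain ⟨C, h3⟩ := mainK X κ c A₀ κ₀ ε hκ hc hA hκ₀ hε hη hρ
  have hpi := Real.pi_pos
  refine ⟨C, min δ₁ δ₂ / 2, by positivity, ?_⟩
  have hbig : ∀ᶠ T : ℝ in atTop, 1 + 4 * π ≤ T ^ (min δ₁ δ₂ / 2) :=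
    (tendsto_rpow_atTop (by positivity)).eventually_ge_atTop _
  filter_upwards [h1, h2, h3, hbig, eventually_gt_atTop 1] with T g1 g2 g3 hb hT1 α hα a ha
  have hT0 : 0 < T := by linarith
  have hbS : ∀ m, ‖bS A₀ κ₀ T a m‖ ≤ 1 := by
    intro m
    unfold bS
    split_ifs
    · exact ha m
    · simp
  have k1 := g1 α hα a (bS A₀ κ₀ T a) ha hbS
  have k2 := g2 α hα a (bS A₀ κ₀ T a) ha hbS
  have k3 := g3 α hα a ha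
  have k4 : (X0K η ρ A₀ c α T a (bS A₀ κ₀ T a)).re - T ^ (1 - δ₂) ≤
      (XK η ρ A₀ c α T a (bS A₀ κ₀ T a)).re := by
    have e1 := (Complex.abs_re_le_norm
      (XK η ρ A₀ c α T a (bS A₀ κ₀ T a) - X0K η ρ A₀ c α T a (bS A₀ κ₀ T a))).trans k2
    rw [Complex.sub_re] at e1
    linarith [(abs_le.1 e1).1]
  set m := min δ₁ δ₂ with hm
  have e1 : T ^ (1 - δ₁) ≤ T ^ (1 - m) :=
    Real.rpow_le_rpow_of_exponent_le hT1.le (by linarith [min_le_left δ₁ δ₂])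
  have e2 : T ^ (1 - δ₂) ≤ T ^ (1 - m) :=
    Real.rpow_le_rpow_of_exponent_le hT1.le (by linarith [min_le_right δ₁ δ₂])
  have e3 : (1 + 4 * π) * T ^ (1 - m) ≤ T ^ (1 - m / 2) := by
    have e4 : T ^ (1 - m / 2) = T ^ (m / 2) * T ^ (1 - m) := by
      rw [← Real.rpow_add hT0]
      congr 1
      ring
    rw [e4]
    exact mul_le_mul_of_nonneg_right hb (by positivity)
  have e5 : 2 * (2 * π * (X0K η ρ A₀ c α T a (bS A₀ κ₀ T a)).re) - 4 * π * T ^ (1 - m) ≤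
      2 * (2 * π * (XK η ρ A₀ c α T a (bS A₀ κ₀ T a)).re) := by
    have e6 := mul_le_mul_of_nonneg_left k4 (by positivity : (0 : ℝ) ≤ 4 * π)
    have e7 := mul_le_mul_of_nonneg_left e2 (by positivity : (0 : ℝ) ≤ 4 * π)
    linarith
  linarith

end Pool.Agent.MP_67227b_nt.Gk
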