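import Mathlib

set_option autoImplicit false

open Filter Topology Set MeasureTheory Complex
open scoped Real ContDiff ArithmeticFunction ArithmeticFunction.Moebius

namespace Pool.Agent.MP_67227b_nt.Gk


/-- Module ZQ1 (a). The Dirichlet polynomial of a convolution. -/
theorem conv_dirichlet {f g : ArithmeticFunction ℝ} {M N K : ℕ} (hf : ∀ m, M < m → f m = 0)
    (hg : ∀ m, N < m → g m = 0) (hK : M * N ≤ K) (s : ℂ) :
    ∑ k ∈ Finset.Icc 1 K, ((f * g) k : ℂ) * (k : ℂ) ^ s =
      (∑ m ∈ Finset.Icc 1 M, (f m : ℂ) * (m : ℂ) ^ s) *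
        ∑ m ∈ Finset.Icc 1 N, (g m : ℂ) * (m : ℂ) ^ s := by
  classical
  rw [Finset.sum_mul_sum, ← Finset.sum_product']
  have hmap : ∀ p ∈ Finset.Icc 1 M ×ˢ Finset.Icc 1 N, p.1 * p.2 ∈ Finset.Icc 1 K := by
    intro p hp
    rw [Finset.mem_product, Finset.mem_Icc, Finset.mem_Icc] at hp
    rw [Finset.mem_Icc]
    exact ⟨Nat.mul_pos hp.1.1 hp.2.1, (Nat.mul_le_mul hp.1.2 hp.2.2).trans hK⟩
  rw [← Finset.sum_fiberwise_of_maps_to hmap]
  refine Finset.sum_congr rfl fun k hk => ?_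
  rw [Finset.mem_Icc] at hk
  rw [ArithmeticFunction.mul_apply, Complex.ofReal_sum, Finset.sum_mul]
  symm
  have hsub : (Finset.Icc 1 M ×ˢ Finset.Icc 1 N).filter (fun p : ℕ × ℕ => p.1 * p.2 = k) ⊆
      Nat.divisorsAntidiagonal k := by
    intro p hp
    rw [Finset.mem_filter] at hp
    rw [Nat.mem_divisorsAntidiagonal]
    exact ⟨hp.2, by omega⟩
  rw [← Finset.sum_subset hsub]
  · refine Finset.sum_congr rfl fun p hp => ?_
    rw [Finset.mem_filter] at hp
    rw [← hp.2, Nat.cast_mul, Complex.natCast_mul_natCast_cpow]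
    push_cast
    ring
  · intro p hp hp'
    rw [Nat.mem_divisorsAntidiagonal] at hp
    have h1 : 1 ≤ p.1 := Nat.one_le_iff_ne_zero.2 (by
      intro h
      rw [h, zero_mul] at hp
      exact hp.2 hp.1.symm)
    have h2 : 1 ≤ p.2 := Nat.one_le_iff_ne_zero.2 (by
      intro h
      rw [h, mul_zero] at hp
      exact hp.2 hp.1.symm)
    by_cases h3 : M < p.1
    · rw [hf _ h3, zero_mul, Complex.ofReal_zero, zero_mul]
    · by_cases h4 : N < p.2
      · rw [hg _ h4, mul_zero, Complex.ofReal_zero, zero_mul]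
      · exfalso
        apply hp'
        rw [Finset.mem_filter, Finset.mem_product, Finset.mem_Icc, Finset.mem_Icc]
        exact ⟨⟨⟨h1, not_lt.1 h3⟩, h2, not_lt.1 h4⟩, hp.1⟩

/-- Module ZQ1 (b). The support of a product (induction over `s`): if each `f j` vanishes beyond
`y j`, the product vanishes beyond `∏ y j`. -/
theorem prod_support {ι : Type*} (s : Finset ι) {f : ι → ArithmeticFunction ℝ} {y : ι → ℝ}
    (hy : ∀ j ∈ s, 0 ≤ y j) (hf : ∀ j ∈ s, ∀ m : ℕ, y j < m → f j m = 0) (m : ℕ)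
    (hm : ∏ j ∈ s, y j < m) : (∏ j ∈ s, f j) m = 0 := by
  classical
  induction s using Finset.induction_on generalizing m with
  | empty =>
    rw [Finset.prod_empty] at hm ⊢
    apply ArithmeticFunction.one_apply_ne
    rintro rfl
    rw [Nat.cast_one] at hm
    exact lt_irrefl _ hm
  | insert i s hi ih =>
    rw [Finset.prod_insert hi] at hm ⊢
    rw [ArithmeticFunction.mul_apply]
    apply Finset.sum_eq_zero
    intro p hp
    rw [Nat.mem_divisorsAntidiagonal] at hp
    have hP : 0 ≤ ∏ j ∈ s, y j :=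
      Finset.prod_nonneg fun j hj => hy j (Finset.mem_insert_of_mem hj)
    by_cases h1 : y i < p.1
    · rw [hf i (Finset.mem_insert_self _ _) _ h1, zero_mul]
    · by_cases h2 : ∏ j ∈ s, y j < p.2
      · rw [ih (fun j hj => hy j (Finset.mem_insert_of_mem hj))
          (fun j hj => hf j (Finset.mem_insert_of_mem hj)) _ h2, mul_zero]
      · exfalso
        rw [not_lt] at h1 h2
        have h3 : (p.1 : ℝ) * p.2 ≤ y i * ∏ j ∈ s, y j :=
          mul_le_mul h1 h2 (Nat.cast_nonneg _) (hy i (Finset.mem_insert_self _ _))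
        have h4 : (p.1 : ℝ) * p.2 = m := by rw [← hp.1]; push_cast; rfl
        linarith

private theorem ZQ1_ext {f : ℕ → ℂ} {M N : ℕ} (hMN : M ≤ N) (hf : ∀ m, M < m → f m = 0) :
    ∑ m ∈ Finset.Icc 1 M, f m = ∑ m ∈ Finset.Icc 1 N, f m := by
  apply Finset.sum_subset (Finset.Icc_subset_Icc_right hMN)
  intro m hm hm'
  apply hf
  rw [Finset.mem_Icc] at hm hm'
  omega

/-- Module ZQ1 (c). Products of Dirichlet polynomials: all `K ≥ ∏ y j` and all `N ≥ y j`. -/
theorem prod_dirichlet {ι : Type*} (s : Finset ι) {f : ι → ArithmeticFunction ℝ} {y : ι → ℝ}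
    (hy : ∀ j ∈ s, 0 ≤ y j) (hf : ∀ j ∈ s, ∀ m : ℕ, y j < m → f j m = 0) {N K : ℕ}
    (hN : ∀ j ∈ s, y j ≤ N) (hK : ∏ j ∈ s, y j ≤ K) (hK1 : 1 ≤ K) (z : ℂ) :
    ∑ k ∈ Finset.Icc 1 K, ((∏ j ∈ s, f j) k : ℂ) * (k : ℂ) ^ z =
      ∏ j ∈ s, ∑ m ∈ Finset.Icc 1 N, (f j m : ℂ) * (m : ℂ) ^ z := by
  classical
  induction s using Finset.induction_on generalizing K with
  | empty =>
    rw [Finset.prod_empty, Finset.prod_empty]
    rw [Finset.sum_eq_single 1]
    · rw [ArithmeticFunction.one_one, Nat.cast_one, Complex.one_cpow, Complex.ofReal_one, one_mul]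
    · intro k _ hk
      rw [ArithmeticFunction.one_apply_ne hk, Complex.ofReal_zero, zero_mul]
    · intro h
      exfalso
      apply h
      rw [Finset.mem_Icc]
      exact ⟨le_rfl, hK1⟩
  | insert i s hi ih =>
    have hyi := hy i (Finset.mem_insert_self _ _)
    have hys : ∀ j ∈ s, 0 ≤ y j := fun j hj => hy j (Finset.mem_insert_of_mem hj)
    have hfi := hf i (Finset.mem_insert_self _ _)
    have hfs : ∀ j ∈ s, ∀ m : ℕ, y j < m → f j m = 0 := fun j hj =>
      hf j (Finset.mem_insert_of_mem hj)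
    have hP : 0 ≤ ∏ j ∈ s, y j := Finset.prod_nonneg hys
    rw [Finset.prod_insert hi] at hK ⊢
    rw [Finset.prod_insert hi]
    have h1 : ∀ m, ⌊y i⌋₊ < m → f i m = 0 := fun m hm => hfi m ((Nat.floor_lt hyi).1 hm)
    have h2 : ∀ m, ⌊∏ j ∈ s, y j⌋₊ < m → (∏ j ∈ s, f j) m = 0 := fun m hm =>
      prod_support s hys hfs m ((Nat.floor_lt hP).1 hm)
    have h3 : ⌊y i⌋₊ * ⌊∏ j ∈ s, y j⌋₊ ≤ K := by
      have h4 : ((⌊y i⌋₊ * ⌊∏ j ∈ s, y j⌋₊ : ℕ) : ℝ) ≤ K := by
        push_cast
        exact (mul_le_mul (Nat.floor_le hyi) (Nat.floor_le hP) (Nat.cast_nonneg _) hyi).trans hK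
      exact_mod_cast h4
    rw [conv_dirichlet h1 h2 h3 z]
    have h5 : ⌊y i⌋₊ ≤ N := Nat.floor_le_of_le (hN i (Finset.mem_insert_self _ _))
    rw [ZQ1_ext h5 (f := fun m => (f i m : ℂ) * (m : ℂ) ^ z) (fun m hm => by
        rw [h1 m hm, Complex.ofReal_zero, zero_mul]),
      ZQ1_ext (Nat.le_succ ⌊∏ j ∈ s, y j⌋₊) (f := fun m => ((∏ j ∈ s, f j) m : ℂ) * (m : ℂ) ^ z)
        (fun m hm => by
          rw [h2 m hm, Complex.ofReal_zero, zero_mul])]
    rw [ih hys hfs (fun j hj => hN j (Finset.mem_insert_of_mem hj)) (K := ⌊∏ j ∈ s, y j⌋₊.succ)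
      (by
        rw [Nat.cast_succ]
        exact (Nat.lt_floor_add_one _).le) (Nat.succ_pos _)]

/-- Module ZQ1 (d). `|∏ f_j|(m) ≤ (log m)^{#s}` if `|f_j| ≤ Λ` (induction; `∑_{d ∣ m} Λ(d) = log m`). -/
theorem prod_le_log {ι : Type*} (s : Finset ι) {f : ι → ArithmeticFunction ℝ}
    (hf : ∀ j ∈ s, ∀ m : ℕ, |f j m| ≤ Λ m) (m : ℕ) (hm : 1 ≤ m) :
    |(∏ j ∈ s, f j) m| ≤ Real.log m ^ s.card := by
  classical
  induction s using Finset.induction_on generalizing m with
  | empty =>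
    rw [Finset.prod_empty, Finset.card_empty, pow_zero]
    by_cases h : m = 1
    · rw [h, ArithmeticFunction.one_one, abs_one]
    · rw [ArithmeticFunction.one_apply_ne h, abs_zero]
      exact zero_le_one
  | insert i s hi ih =>
    rw [Finset.prod_insert hi, Finset.card_insert_of_notMem hi, ArithmeticFunction.mul_apply]
    have hlog : 0 ≤ Real.log m := Real.log_natCast_nonneg m
    calc |∑ x ∈ m.divisorsAntidiagonal, f i x.1 * (∏ j ∈ s, f j) x.2| ≤
          ∑ x ∈ m.divisorsAntidiagonal, |f i x.1 * (∏ j ∈ s, f j) x.2| :=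
          Finset.abs_sum_le_sum_abs _ _
      _ ≤ ∑ x ∈ m.divisorsAntidiagonal, Λ x.1 * Real.log m ^ s.card := by
          refine Finset.sum_le_sum fun x hx => ?_
          rw [Nat.mem_divisorsAntidiagonal] at hx
          have hx2 : 1 ≤ x.2 := Nat.one_le_iff_ne_zero.2 (by
            intro h
            rw [h, mul_zero] at hx
            exact hx.2 hx.1.symm)
          have hx1 : 1 ≤ x.1 := Nat.one_le_iff_ne_zero.2 (by
            intro h
            rw [h, zero_mul] at hx
            exact hx.2 hx.1.symm)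
          have hx3 : x.2 ≤ m := by
            rw [← hx.1]
            exact Nat.le_mul_of_pos_left _ hx1
          rw [abs_mul]
          have h1 := hf i (Finset.mem_insert_self _ _) x.1
          have h2 := ih (fun j hj => hf j (Finset.mem_insert_of_mem hj)) x.2 hx2
          have h3 : Real.log x.2 ^ s.card ≤ Real.log m ^ s.card := by
            apply pow_le_pow_left₀ (Real.log_natCast_nonneg _)
            apply Real.log_le_log
            · exact_mod_cast hx2
            · exact_mod_cast hx3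
          exact mul_le_mul h1 (h2.trans h3) (abs_nonneg _) ArithmeticFunction.vonMangoldt_nonneg
      _ = Real.log m ^ (s.card + 1) := by
          rw [← Finset.sum_mul, Nat.sum_divisorsAntidiagonal (fun x _ => Λ x),
            ArithmeticFunction.vonMangoldt_sum, pow_succ, mul_comm]

end Pool.Agent.MP_67227b_nt.Gk
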