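import Mathlib
import Pool.Agent.MP_67227b_nt.Gk.GkDefs
import Pool.Agent.MP_67227b_nt.Zeta

set_option autoImplicit false

/-! Project GK, block ZEROS: definitions. -/

open Filter Topology Set MeasureTheory Complex
open scoped Real ContDiff ArithmeticFunction ArithmeticFunction.Moebius

namespace Pool.Agent.MP_67227b_nt.Gk

open Pool.Agent.MP_67227b_nt
open Pool.Agent.MP_67227b_nt.Gg (Eta Rho PP)

/-- The linear statistic of the zeros near `t` with the frequency `a` and the profile `g`:
`S_g(a, T, t) = ∑_{0 < γ ≤ T} ∫ g(v) e^{i(a log T + v)(γ - t)} dv`, the sum over the zeros of the zeta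
function with ordinates in `(0, T]`, with multiplicity. -/
noncomputable def linStat (g : ℝ → ℝ) (a T t : ℝ) : ℂ :=
  ∑ i ∈ PT goodFamily_zeta T, ∫ v : ℝ, (g v : ℂ) *
    Complex.exp (I * (((a * Real.log T + v) * (zetaOrdinate i - t) : ℝ) : ℂ))

/-- The coefficients of the prime sum, `n ↦ Λ(n) η(log n - a log T)`. -/
noncomputable def phi (η : ℝ → ℝ) (a T : ℝ) : ArithmeticFunction ℝ :=
  ⟨fun n => Λ n * η (Real.log n - a * Real.log T), by simp⟩

/-- The same, restricted to the primes. -/
noncomputable def phiP (η : ℝ → ℝ) (a T : ℝ) : ArithmeticFunction ℝ :=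
  ⟨fun n => if n.Prime then Λ n * η (Real.log n - a * Real.log T) else 0, by simp⟩

/-- The coefficients of the product of the prime sums: their Dirichlet convolution. -/
noncomputable def Aco {n : ℕ} (η : Fin n → ℝ → ℝ) (a : Fin n → ℝ) (T : ℝ) :
    ArithmeticFunction ℝ := ∏ j, phi (η j) (a j) T

end Pool.Agent.MP_67227b_nt.Gk
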