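import Mathlib
import Pool.Agent.MP_67227b_nt.Gg.GgJb

set_option autoImplicit false

open Filter Topology Set MeasureTheory Complex
open scoped Real ContDiff ArithmeticFunction ArithmeticFunction.Moebius

namespace Pool.Agent.MP_67227b_nt.Gk

open Pool.Agent.MP_67227b_nt
open Pool.Agent.MP_67227b_nt.Gg (Eta Rho PP hB hT)
open Pool.Agent.MP_67227b_nt.Mo

/-- Module ZE (a). The archimedean part for small frequencies. Model: `Gg.arch_hT` (with
`α ∈ [δ, 3/2]`): for `T` large `αL - X ≥ δL - X ≥ 1`, the sum is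
`≤ C T^(α/2)/(κ²T²) + 8πX e^{5X/2} e^{-(5/2)αL} ≤ T^(-δ)`. -/
theorem arch_low {X κ δ : ℝ} (hX : 0 ≤ X) (hκ : 0 < κ) (hδ : 0 < δ) (hδ1 : δ ≤ 1) {η : ℝ → ℝ}
    (hη : Eta X η) :
    ∀ᶠ T : ℝ in atTop, ∀ α ∈ Icc δ (3 / 2), ∀ t : ℝ, κ * T ≤ t → ∀ σ : ℝ,
      (σ = 1 ∨ σ = -1) →
      ‖∫ u : ℝ, archF (pt32 (σ * u)) * gs (hT η α T t) ((u : ℂ) + ((-σ : ℝ) : ℂ) * I)‖ ≤
        T ^ (-δ) := by
  obtain ⟨C, hC, hCb⟩ := Gg.Ja_half hX hη
  have hlog : ∀ᶠ T : ℝ in atTop, (X + 1) / δ ≤ Real.log T :=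
    Real.tendsto_log_atTop.eventually_ge_atTop _
  have hp1 : ∀ᶠ T : ℝ in atTop, 2 * (C / κ ^ 2) ≤ T ^ (1 / 4 : ℝ) :=
    (tendsto_rpow_atTop (by norm_num)).eventually_ge_atTop _
  have hp2 : ∀ᶠ T : ℝ in atTop, 16 * π * X * Real.exp (5 / 2 * X) ≤ T ^ (3 / 2 * δ) :=
    (tendsto_rpow_atTop (by positivity)).eventually_ge_atTop _
  filter_upwards [hlog, hp1, hp2, eventually_gt_atTop (1 : ℝ)] with T hl h1 h2 hT1
  intro α hα t ht σ hσ
  have hT0 : 0 < T := by linarith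
  have hlog0 : 0 < Real.log T := Real.log_pos hT1
  have hl' : X + 1 ≤ δ * Real.log T := by
    rw [div_le_iff₀ hδ] at hl
    linarith
  have hαL : δ * Real.log T ≤ α * Real.log T := mul_le_mul_of_nonneg_right hα.1 hlog0.le
  have hα0 : 0 ≤ α := hδ.le.trans hα.1
  have hXL : X < α * Real.log T := by linarith
  have hb : Bump ((X + α * Real.log T) / (2 * π) * (2 * π) / (2 * π)) (hT η α T t) :=
    bump_hsc (by positivity) (Gg.bump_hB hη hT1.le hα0) t
  have hδ0 : 0 ≤ X + α * Real.log T := by linarith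
  have hδ' : 0 ≤ (X + α * Real.log T) / (2 * π) * (2 * π) / (2 * π) := by positivity
  have h0 : hT η α T t 0 = 0 := Gg.hT_neg hη hXL le_rfl
  set D : ℝ := α * Real.log T - X with hD
  have hD1 : 1 ≤ D := by linarith
  set M : ℝ := 4 * π * X * Real.exp (-(5 / 2 * D)) with hM
  have hM0 : 0 ≤ M := by positivity
  have hJ : ∀ j : ℕ, ‖Gg.Ja (hT η α T t) σ (3 / 2 + 2 * ((j : ℝ) + 1))‖ ≤ M * (1 / 2) ^ j := by
    intro j
    rcases hσ with rfl | rfl
    · refine (Gg.Ja_far hX hη t hXL (by linarith [(Nat.cast_nonneg j : (0 : ℝ) ≤ j)])).trans ?_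
      rw [← hD]
      have e1 : Real.exp (-((3 / 2 + 2 * ((j : ℝ) + 1) - 1) * D)) =
          Real.exp (-(5 / 2 * D)) * Real.exp (-(2 * D)) ^ j := by
        rw [← Real.exp_nat_mul, ← Real.exp_add]
        congr 1
        ring
      have e2 : Real.exp (-(2 * D)) ≤ 1 / 2 := by
        have e3 : Real.exp (-(2 * D)) ≤ Real.exp (-1) := Real.exp_le_exp.2 (by linarith)
        have e4 : Real.exp (-1) ≤ 1 / 2 := by
          rw [Real.exp_neg, inv_le_comm₀ (Real.exp_pos _) (by norm_num)]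
          have := Real.add_one_le_exp (1 : ℝ)
          linarith
        linarith
      rw [e1, hM]
      calc 4 * π * X * (Real.exp (-(5 / 2 * D)) * Real.exp (-(2 * D)) ^ j)
          = 4 * π * X * Real.exp (-(5 / 2 * D)) * Real.exp (-(2 * D)) ^ j := by ring
        _ ≤ _ := mul_le_mul_of_nonneg_left
            (pow_le_pow_left₀ (Real.exp_pos _).le e2 j) (by positivity)
    · rw [Gg.Ja_neg hη t hXL, norm_zero]
      positivity
  have hmain := Gg.arch_le hδ' hb h0 hσ hM0 (by norm_num) (by norm_num) hJ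
  refine hmain.trans ?_
  have hinv : 1 / T ≤ T ^ (-δ) := by
    rw [one_div, ← Real.rpow_neg_one]
    exact Real.rpow_le_rpow_of_exponent_le hT1.le (by linarith)
  have hA : ‖Gg.Ja (hT η α T t) σ (1 / 2)‖ ≤ T ^ (-δ) / 2 := by
    refine le_trans (b := 1 / (2 * T)) ?_ ?_
    · rcases hσ with rfl | rfl
      · refine (hCb α T t hT1 hXL).trans ?_
        have e1 : T ^ (α / 2) ≤ T ^ (3 / 4 : ℝ) :=
          Real.rpow_le_rpow_of_exponent_le hT1.le (by linarith [hα.2])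
        have e2 : κ ^ 2 * T ^ 2 ≤ 1 + t ^ 2 := by
          have : (κ * T) ^ 2 ≤ t ^ 2 := pow_le_pow_left₀ (by positivity) ht 2
          nlinarith
        have e3 : T ^ (3 / 4 : ℝ) * T ^ (1 / 4 : ℝ) = T := by
          rw [← Real.rpow_add hT0]
          norm_num
        have e4 : C * T ^ (α / 2) / (1 + t ^ 2) ≤ C * T ^ (3 / 4 : ℝ) / (κ ^ 2 * T ^ 2) :=
          div_le_div₀ (by positivity) (mul_le_mul_of_nonneg_left e1 hC.le) (by positivity) e2
        refine e4.trans ?_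
        rw [div_le_div_iff₀ (by positivity) (by positivity)]
        have e5 : 2 * C ≤ κ ^ 2 * T ^ (1 / 4 : ℝ) := by
          have := mul_le_mul_of_nonneg_left h1 (by positivity : (0 : ℝ) ≤ κ ^ 2)
          calc 2 * C = κ ^ 2 * (2 * (C / κ ^ 2)) := by field_simp
            _ ≤ _ := this
        calc C * T ^ (3 / 4 : ℝ) * (2 * T) = (2 * C) * (T ^ (3 / 4 : ℝ) * T) := by ring
          _ ≤ (κ ^ 2 * T ^ (1 / 4 : ℝ)) * (T ^ (3 / 4 : ℝ) * T) :=
              mul_le_mul_of_nonneg_right e5 (by positivity)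
          _ = κ ^ 2 * (T ^ (3 / 4 : ℝ) * T ^ (1 / 4 : ℝ)) * T := by ring
          _ = 1 * (κ ^ 2 * T ^ 2) := by rw [e3]; ring
      · rw [Gg.Ja_neg hη t hXL, norm_zero]
        positivity
    · have e1 : 1 / (2 * T) = 1 / T / 2 := by
        field_simp
      rw [e1]
      exact div_le_div_of_nonneg_right hinv (by norm_num)
  have hB' : 2 * M ≤ T ^ (-δ) / 2 := by
    have e1 : Real.exp (-(5 / 2 * D)) ≤ Real.exp (5 / 2 * X) * T ^ (-(5 / 2 * δ)) := by
      rw [Real.rpow_def_of_pos hT0, ← Real.exp_add]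
      apply Real.exp_le_exp.2
      rw [hD]
      linarith
    have e2 : T ^ (3 / 2 * δ) * T ^ (-(5 / 2 * δ)) = T ^ (-δ) := by
      rw [← Real.rpow_add hT0]
      congr 1
      ring
    calc 2 * M ≤ 2 * (4 * π * X * (Real.exp (5 / 2 * X) * T ^ (-(5 / 2 * δ)))) := by
          rw [hM]
          exact mul_le_mul_of_nonneg_left (mul_le_mul_of_nonneg_left e1 (by positivity))
            (by norm_num)
      _ = (16 * π * X * Real.exp (5 / 2 * X)) * T ^ (-(5 / 2 * δ)) / 2 := by ring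
      _ ≤ T ^ (3 / 2 * δ) * T ^ (-(5 / 2 * δ)) / 2 := by
          apply div_le_div_of_nonneg_right _ (by norm_num)
          exact mul_le_mul_of_nonneg_right h2 (by positivity)
      _ = T ^ (-δ) / 2 := by rw [e2]
  calc ‖Gg.Ja (hT η α T t) σ (1 / 2)‖ + 2 * M ≤ T ^ (-δ) / 2 + T ^ (-δ) / 2 := add_le_add hA hB'
    _ = T ^ (-δ) := by ring

/-- Module ZE (b). Model: `Gg.prime_hT` (with `α ∈ [δ, 3/2]`; one needs `X < δL`). -/
theorem prime_low {X δ : ℝ} (hX : 0 ≤ X) (hδ : 0 < δ) {η : ℝ → ℝ} (hη : Eta X η) :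
    ∀ᶠ T : ℝ in atTop, ∀ α ∈ Icc δ (3 / 2), ∀ t : ℝ,
      (∑' n : ℕ, ((Λ n / Real.sqrt n : ℝ) : ℂ) * hT η α T t (1 * (Real.log n / (2 * π)))) +
        (∑' n : ℕ, ((Λ n / Real.sqrt n : ℝ) : ℂ) * hT η α T t (-1 * (Real.log n / (2 * π)))) =
        2 * π * PP η α T t := by
  filter_upwards [Real.tendsto_log_atTop.eventually_gt_atTop (2 * X),
    Real.tendsto_log_atTop.eventually_gt_atTop (X / δ),
    eventually_gt_atTop 1] with T hLX hLδ hT1 α hα t
  have hpi := Real.pi_pos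
  have hT0 : 0 < T := by linarith
  have hL0 : 0 < Real.log T := Real.log_pos hT1
  have hXL : X < α * Real.log T := by
    rw [div_lt_iff₀ hδ] at hLδ
    have h1 : δ * Real.log T ≤ α * Real.log T := mul_le_mul_of_nonneg_right hα.1 hL0.le
    linarith
  have h2 : ∀ n : ℕ, hT η α T t (-1 * (Real.log n / (2 * π))) = 0 := by
    intro n
    apply Gg.hT_neg hη hXL
    have h3 : 0 ≤ Real.log n := Real.log_natCast_nonneg n
    have h4 : 0 ≤ Real.log n / (2 * π) := by positivity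
    linarith
  simp only [h2, mul_zero, tsum_zero, add_zero]
  rw [tsum_eq_sum (s := Finset.Icc 1 ⌊T ^ (2 : ℝ)⌋₊)]
  · unfold PP
    rw [Finset.mul_sum]
    refine Finset.sum_congr rfl fun n hn => ?_
    have hn1 : 1 ≤ n := (Finset.mem_Icc.1 hn).1
    have hn0 : (0 : ℝ) < n := by exact_mod_cast hn1
    have hnC : (n : ℂ) ≠ 0 := by exact_mod_cast hn0.ne'
    rw [one_mul, Gg.hT_eq, hB]
    have e1 : 2 * π * (Real.log n / (2 * π)) = Real.log n := by field_simp
    rw [e1]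
    have e2 : (n : ℂ) ^ (-(1 / 2 + (t : ℂ) * I)) = ((1 / Real.sqrt n : ℝ) : ℂ) *
        Complex.exp (-(2 * π * I * ((Real.log n / (2 * π) : ℝ) : ℂ) * t)) := by
      rw [cpow_def_of_ne_zero hnC, ← natCast_log]
      have e3 : ((Real.log n : ℝ) : ℂ) * (-(1 / 2 + (t : ℂ) * I)) =
          ((-(Real.log n / 2) : ℝ) : ℂ) +
            (-(2 * π * I * ((Real.log n / (2 * π) : ℝ) : ℂ) * t)) := by
        have hpc : (π : ℂ) ≠ 0 := by exact_mod_cast Real.pi_ne_zero
        push_cast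
        field_simp
        ring
      rw [e3, Complex.exp_add, ← ofReal_exp]
      congr 2
      rw [Real.exp_neg, one_div]
      congr 1
      rw [Real.sqrt_eq_rpow, Real.rpow_def_of_pos hn0]
      congr 1
      ring
    rw [e2]
    push_cast
    ring
  · intro n hn
    by_cases hn0 : n = 0
    · subst hn0
      simp
    · have hn1 : 1 ≤ n := Nat.one_le_iff_ne_zero.2 hn0
      have hbig : ⌊T ^ (2 : ℝ)⌋₊ < n := by
        by_contra h
        exact hn (Finset.mem_Icc.2 ⟨hn1, not_lt.1 h⟩)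
      have h3 : T ^ (2 : ℝ) < n := (Nat.floor_lt (by positivity)).1 hbig
      have h4 : 2 * Real.log T < Real.log n := by
        rw [← Real.log_rpow hT0]
        exact Real.log_lt_log (by positivity) h3
      have h5 : η (Real.log n - α * Real.log T) = 0 := by
        apply hη.supp
        have h6 : X < Real.log n - α * Real.log T := by
          have := mul_le_mul_of_nonneg_right hα.2 hL0.le
          linarith
        exact h6.trans_le (le_abs_self _)
      rw [one_mul, Gg.hT_eq, hB]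
      have e1 : 2 * π * (Real.log n / (2 * π)) = Real.log n := by field_simp
      rw [e1, h5]
      simp

/-- Module ZE (c). Model: `Gg.SZ_add_PP`. -/
theorem SZ_add_PP_low (hRH : RiemannHypothesis) {X κ δ : ℝ} (hX : 0 ≤ X) (hκ : 0 < κ)
    (hδ : 0 < δ) (hδ1 : δ ≤ 1) {η : ℝ → ℝ} (hη : Eta X η) :
    ∀ᶠ T : ℝ in atTop, ∀ α ∈ Icc δ (3 / 2), ∀ t : ℝ, κ * T ≤ t →
      ‖SZ (2 * π) (hB η α T) t + PP η α T t‖ ≤ T ^ (-δ) := by
  filter_upwards [prime_low hX hδ hη, arch_low hX hκ hδ hδ1 hη, eventually_gt_atTop 1]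
    with T hP hA hT1 α hα t ht
  have hpi := Real.pi_gt_three
  have hpc : (π : ℂ) ≠ 0 := by exact_mod_cast Real.pi_ne_zero
  have hT0 : 0 < T := by linarith
  have hL0 : 0 < Real.log T := Real.log_pos hT1
  have hα0 : 0 ≤ α := hδ.le.trans hα.1
  have hXL : 0 ≤ X + α * Real.log T := add_nonneg hX (mul_nonneg hα0 hL0.le)
  have h2pi : (0 : ℝ) < 2 * π := by positivity
  have hb := bump_hsc h2pi (Gg.bump_hB hη hT1.le hα0) t
  have hd : 0 ≤ (X + α * Real.log T) / (2 * π) * (2 * π) / (2 * π) := by positivity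
  have h1 := explicit_split hRH hd hb
  have h2 : ∑' u : Zer, (mu u : ℂ) * gs (hsc (2 * π) (hB η α T) t) (ord u) =
      SZ (2 * π) (hB η α T) t := by
    unfold SZ
    refine tsum_congr fun u => ?_
    rw [gs_hsc h2pi]
    congr 2
    push_cast
    ring
  have h3 := hP α hα t
  have h4 := hA α hα t ht 1 (Or.inl rfl)
  have h5 := hA α hα t ht (-1) (Or.inr rfl)
  rw [h2] at h1
  unfold hT at h3 h4 h5
  rw [h3] at h1
  set A₁ := ∫ u : ℝ, archF (pt32 (1 * u)) *
    gs (hsc (2 * π) (hB η α T) t) ((u : ℂ) + ((-1 : ℝ) : ℂ) * I)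
  set A₂ := ∫ u : ℝ, archF (pt32 (-1 * u)) *
    gs (hsc (2 * π) (hB η α T) t) ((u : ℂ) + ((- -1 : ℝ) : ℂ) * I)
  have h6 : SZ (2 * π) (hB η α T) t + PP η α T t = (1 / (2 * π) : ℂ) * (A₁ + A₂) := by
    have h7 : A₁ + A₂ = 2 * π * (SZ (2 * π) (hB η α T) t + PP η α T t) := by
      rw [mul_add, h1]
      ring
    rw [h7]
    field_simp
  rw [h6, norm_mul]
  have h8 : ‖(1 / (2 * π) : ℂ)‖ ≤ 1 / 2 := by
    rw [norm_div, norm_one, norm_mul, norm_ofNat, norm_real, Real.norm_of_nonneg Real.pi_pos.le]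
    apply one_div_le_one_div_of_le (by norm_num)
    linarith
  have h9 : ‖A₁ + A₂‖ ≤ T ^ (-δ) + T ^ (-δ) := (norm_add_le _ _).trans (add_le_add h4 h5)
  calc ‖(1 / (2 * π) : ℂ)‖ * ‖A₁ + A₂‖ ≤ 1 / 2 * (T ^ (-δ) + T ^ (-δ)) :=
        mul_le_mul h8 h9 (norm_nonneg _) (by norm_num)
    _ = T ^ (-δ) := by ring

end Pool.Agent.MP_67227b_nt.Gk
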