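import Mathlib
import Pool.Agent.MP_67227b_nt.Gg.GgPnt
import Pool.Agent.MP_67227b_nt.Gk.GkZd

set_option autoImplicit false

open Filter Topology Set MeasureTheory Complex
open scoped Real ContDiff ArithmeticFunction ArithmeticFunction.Moebius

namespace Pool.Agent.MP_67227b_nt.Gk

open Pool.Agent.MP_67227b_nt
open Pool.Agent.MP_67227b_nt.Gg (Eta Rho PP)

private theorem ZR2_abs {X : ℝ} {η : ℝ → ℝ} (hη : Eta X η) (v : ℝ) : |η v| ≤ 1 :=
  (sq_le_one_iff_abs_le_one _).1 (hη.sq_le_one v)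

private theorem ZR2_phi {X : ℝ} {η : ℝ → ℝ} (hη : Eta X η) (a T : ℝ) (n : ℕ) :
    |phi η a T n| ≤ Λ n := by
  change |Λ n * η (Real.log n - a * Real.log T)| ≤ _
  rw [abs_mul, abs_of_nonneg ArithmeticFunction.vonMangoldt_nonneg]
  exact mul_le_of_le_one_right ArithmeticFunction.vonMangoldt_nonneg (ZR2_abs hη _)

private theorem ZR2_step {x : ℝ} (hx : 0 < x) :
    √x * (1 / x - 1 / (x + 1)) ≤ 2 * (1 / √x - 1 / √(x + 1)) := by
  have hs : 0 < √x := Real.sqrt_pos.2 hx
  have ht : 0 < √(x + 1) := Real.sqrt_pos.2 (by linarith)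
  have hs2 : √x ^ 2 = x := Real.sq_sqrt hx.le
  have ht2 : √(x + 1) ^ 2 = x + 1 := Real.sq_sqrt (by linarith)
  have hst : √x ≤ √(x + 1) := Real.sqrt_le_sqrt (by linarith)
  set s := √x
  set t := √(x + 1)
  have e1 : s * (1 / x - 1 / (x + 1)) = 1 / (s * t ^ 2) := by
    rw [← ht2, ← hs2]
    have : t ^ 2 = s ^ 2 + 1 := by rw [ht2, hs2]
    field_simp
    linarith
  have e2 : 2 * (1 / s - 1 / t) = 2 / (s * t * (t + s)) := by
    have : t ^ 2 = s ^ 2 + 1 := by rw [ht2, hs2]
    field_simp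
    nlinarith
  rw [e1, e2, div_le_div_iff₀ (by positivity) (by positivity)]
  have : s * t * (t + s) ≤ s * t * (2 * t) := mul_le_mul_of_nonneg_left (by linarith) (by positivity)
  nlinarith

private theorem ZR2_abel : ∃ C : ℝ, 0 ≤ C ∧ ∀ N0 M : ℕ, 1 ≤ N0 →
    ∑ n ∈ (Finset.Icc N0 M).filter (fun n => ¬ n.Prime), Λ n / n ≤ C / √N0 := by
  obtain ⟨C0, hC0⟩ := Chebyshev.psi_sub_theta_le_mul_sqrt
  have hC : (0 : ℝ) ≤ |C0| := abs_nonneg _
  set C := |C0| with hCdef
  have hCle : C0 ≤ C := le_abs_self _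
  let pp : ℕ → ℝ := fun n => if ¬ n.Prime then Λ n else 0
  let A : ℕ → ℝ := fun M => ∑ n ∈ Finset.Icc 1 M, pp n
  have hpp : ∀ n, 0 ≤ pp n := fun n => by
    simp only [pp]
    split_ifs
    · exact le_rfl
    · exact ArithmeticFunction.vonMangoldt_nonneg
  have hA : ∀ M : ℕ, A M ≤ C * √M := by
    intro M
    have h := Chebyshev.psi_sub_theta_eq_sum_not_prime (M : ℝ)
    rw [Nat.floor_natCast, Finset.sum_filter] at h
    have e : Finset.Icc 1 M = Finset.Ioc 0 M := rfl
    have h2 := hC0 (M : ℝ)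
    rw [h] at h2
    exact (le_of_eq (by simp only [A, pp, e])).trans (h2.trans (mul_le_mul_of_nonneg_right hCle (Real.sqrt_nonneg _)))
  have hA0 : ∀ M : ℕ, 0 ≤ A M := fun M => Finset.sum_nonneg fun n _ => hpp n
  have hAs : ∀ M : ℕ, A (M + 1) = A M + pp (M + 1) := fun M =>
    Finset.sum_Icc_succ_top (Nat.succ_le_succ (Nat.zero_le _)) _
  refine ⟨2 * C, by positivity, fun N0 M hN0 => ?_⟩
  obtain ⟨K, rfl⟩ : ∃ K, N0 = K + 1 := ⟨N0 - 1, by omega⟩
  have hsum : ∀ M : ℕ, ∑ n ∈ (Finset.Icc (K + 1) M).filter (fun n => ¬ n.Prime), Λ n / n =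
      ∑ n ∈ Finset.Icc (K + 1) M, pp n / n := by
    intro M
    rw [Finset.sum_filter]
    refine Finset.sum_congr rfl fun n _ => ?_
    simp only [pp]
    split_ifs <;> simp
  rcases lt_or_ge M (K + 1) with hM | hM
  · rw [Finset.Icc_eq_empty (by omega)]
    simp only [Finset.filter_empty, Finset.sum_empty]
    positivity
  rw [hsum]
  have key : ∀ M : ℕ, K ≤ M → ∑ n ∈ Finset.Icc (K + 1) M, pp n / n ≤
      A M / ((M : ℝ) + 1) + 2 * C * (1 / √((K : ℝ) + 1) - 1 / √((M : ℝ) + 1)) := by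
    intro M hM
    induction M, hM using Nat.le_induction with
    | base =>
      rw [Finset.Icc_eq_empty (by omega), Finset.sum_empty, sub_self, mul_zero, add_zero]
      exact div_nonneg (hA0 _) (by positivity)
    | succ M hM ih =>
      rw [Finset.sum_Icc_succ_top (by omega)]
      have h1 := hAs M
      have h2 := hA (M + 1)
      have hx : (0 : ℝ) < (M : ℝ) + 1 := by positivity
      have h3 := ZR2_step hx
      push_cast at h2 ⊢
      have h4 : A (M + 1) * (1 / ((M : ℝ) + 1) - 1 / ((M : ℝ) + 1 + 1)) ≤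
          2 * C * (1 / √((M : ℝ) + 1) - 1 / √((M : ℝ) + 1 + 1)) := by
        have h5 : 0 ≤ 1 / ((M : ℝ) + 1) - 1 / ((M : ℝ) + 1 + 1) := by
          rw [sub_nonneg]
          exact one_div_le_one_div_of_le hx (by linarith)
        calc _ ≤ C * √((M : ℝ) + 1) * (1 / ((M : ℝ) + 1) - 1 / ((M : ℝ) + 1 + 1)) :=
              mul_le_mul_of_nonneg_right h2 h5
          _ = C * (√((M : ℝ) + 1) * (1 / ((M : ℝ) + 1) - 1 / ((M : ℝ) + 1 + 1))) := by ring
          _ ≤ C * (2 * (1 / √((M : ℝ) + 1) - 1 / √((M : ℝ) + 1 + 1))) :=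
              mul_le_mul_of_nonneg_left h3 hC
          _ = _ := by ring
      have e1 : pp (M + 1) / ((M : ℝ) + 1) = A (M + 1) / ((M : ℝ) + 1) - A M / ((M : ℝ) + 1) := by
        rw [h1]
        ring
      rw [e1]
      have e2 : A (M + 1) * (1 / ((M : ℝ) + 1) - 1 / ((M : ℝ) + 1 + 1)) =
          A (M + 1) / ((M : ℝ) + 1) - A (M + 1) / ((M : ℝ) + 1 + 1) := by ring
      rw [e2] at h4
      nlinarith
  refine (key M (by omega)).trans ?_
  have h1 : A M / ((M : ℝ) + 1) ≤ C / √((M : ℝ) + 1) := by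
    have hM1 : (0 : ℝ) < (M : ℝ) + 1 := by positivity
    have hs : 0 < √((M : ℝ) + 1) := Real.sqrt_pos.2 hM1
    rw [div_le_div_iff₀ hM1 hs]
    have h2 : √(M : ℝ) ≤ √((M : ℝ) + 1) := Real.sqrt_le_sqrt (by linarith)
    have h3 : √((M : ℝ) + 1) * √((M : ℝ) + 1) = (M : ℝ) + 1 := Real.mul_self_sqrt hM1.le
    calc A M * √((M : ℝ) + 1) ≤ C * √(M : ℝ) * √((M : ℝ) + 1) :=
          mul_le_mul_of_nonneg_right (hA M) hs.le
      _ ≤ C * √((M : ℝ) + 1) * √((M : ℝ) + 1) := by gcongr
      _ = C * ((M : ℝ) + 1) := by rw [mul_assoc, h3]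
  have h2 : 0 ≤ C / √((M : ℝ) + 1) := by positivity
  have e : 2 * C / √((K + 1 : ℕ) : ℝ) = 2 * C * (1 / √((K : ℝ) + 1)) := by
    push_cast
    ring
  rw [e]
  have e3 : 2 * C * (1 / √((K : ℝ) + 1) - 1 / √((M : ℝ) + 1)) =
      2 * C * (1 / √((K : ℝ) + 1)) - 2 * (C / √((M : ℝ) + 1)) := by ring
  rw [e3]
  linarith

private theorem ZR2_low {X : ℝ} {η : ℝ → ℝ} (hη : Eta X η) {a δ T : ℝ} (hT : 1 ≤ T)
    (ha : δ ≤ a) {n : ℕ} (hn : 1 ≤ n) (h0 : phi η a T n ≠ 0) :
    Real.exp (-|X|) * T ^ δ ≤ n := by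
  have hT0 : 0 < T := by linarith
  have hL : 0 ≤ Real.log T := Real.log_nonneg hT
  change Λ n * η (Real.log n - a * Real.log T) ≠ 0 at h0
  have h1 : |Real.log n - a * Real.log T| ≤ |X| := by
    by_contra h
    push Not at h
    exact h0 (by rw [hη.supp _ ((le_abs_self X).trans_lt h), mul_zero])
  have h2 := (abs_le.1 h1).1
  have h3 : δ * Real.log T ≤ a * Real.log T := mul_le_mul_of_nonneg_right ha hL
  have hn0 : (0 : ℝ) < n := by exact_mod_cast hn
  rw [← Real.exp_log hn0, Real.rpow_def_of_pos hT0, ← Real.exp_add]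
  exact Real.exp_le_exp.2 (by nlinarith)

/-- Module ZR2 (a). Trivially: `Λ(n) ≤ log n ≤ 2L`, `∑_{n ≤ T²} 1/n ≤ 2L + 1`. -/
theorem sum_one {X : ℝ} {η : ℝ → ℝ} (hη : Eta X η) :
    ∀ᶠ T : ℝ in atTop, ∀ a : ℝ,
      ∑ n ∈ Finset.Icc 1 ⌊T ^ (2 : ℝ)⌋₊, |phi η a T n| / n ≤ 9 * Real.log T ^ 2 := by
  filter_upwards [eventually_ge_atTop (Real.exp 1)] with T hT a
  have hT0 : 0 < T := (Real.exp_pos 1).trans_le hT
  have hL : 1 ≤ Real.log T := (Real.le_log_iff_exp_le hT0).2 hT
  have hT1 : 1 ≤ T := by linarith [Real.add_one_le_exp 1]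
  have h2 : (1 : ℝ) ≤ T ^ (2 : ℝ) := Real.one_le_rpow hT1 (by norm_num)
  have hN1 : 1 ≤ ⌊T ^ (2 : ℝ)⌋₊ := Nat.le_floor (by exact_mod_cast h2)
  have hlogN : Real.log (⌊T ^ (2 : ℝ)⌋₊ : ℝ) ≤ 2 * Real.log T := by
    rw [← Real.log_rpow hT0]
    exact Real.log_le_log (by exact_mod_cast hN1) (Nat.floor_le (by positivity))
  set N := ⌊T ^ (2 : ℝ)⌋₊
  calc ∑ n ∈ Finset.Icc 1 N, |phi η a T n| / n
      ≤ ∑ n ∈ Finset.Icc 1 N, (2 * Real.log T) * ((n : ℝ))⁻¹ := by
        refine Finset.sum_le_sum fun n hn => ?_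
        rw [Finset.mem_Icc] at hn
        rw [div_eq_mul_inv]
        refine mul_le_mul_of_nonneg_right ?_ (inv_nonneg.2 (Nat.cast_nonneg _))
        exact (ZR2_phi hη a T n).trans (ArithmeticFunction.vonMangoldt_le_log.trans
          ((Real.log_le_log (by exact_mod_cast hn.1) (by exact_mod_cast hn.2)).trans hlogN))
    _ = 2 * Real.log T * (harmonic N : ℝ) := by
        rw [← Finset.mul_sum, harmonic_eq_sum_Icc]
        push_cast
        rfl
    _ ≤ 2 * Real.log T * (1 + Real.log N) := by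
        gcongr
        exact harmonic_le_one_add_log N
    _ ≤ 2 * Real.log T * (1 + 2 * Real.log T) := by gcongr
    _ ≤ 9 * Real.log T ^ 2 := by nlinarith

/-- Module ZR2 (b). The proper prime powers. PROOF. `phi n ≠ 0` and `n` not prime imply `n = p^k`,
`k ≥ 2`, `n ≥ y = e^{-X} T^δ`, `Λ(n) ≤ 2L`; `∑_{k ≥ 2} ∑_{p^k ≥ y, p^k ≤ T²} p^{-k}
≤ ∑_{2 ≤ k ≤ 3L} ∑_{m ≥ y^{1/k}} m^{-k} ≤ C L y^{-1/2}`. -/
theorem sum_pp {X : ℝ} {η : ℝ → ℝ} (hη : Eta X η) {δ : ℝ} (hδ : 0 < δ) :
    ∀ᶠ T : ℝ in atTop, ∀ a ∈ Icc δ (3 / 2),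
      ∑ n ∈ (Finset.Icc 1 ⌊T ^ (2 : ℝ)⌋₊).filter (fun n => ¬ n.Prime), |phi η a T n| / n ≤
        T ^ (-δ / 3) := by
  obtain ⟨C, hC, hCb⟩ := ZR2_abel
  have hev := (tendsto_rpow_atTop (y := δ / 6) (by positivity)).eventually_ge_atTop
    (C * Real.exp (|X| / 2))
  filter_upwards [eventually_ge_atTop (1 : ℝ), hev] with T hT hTk a ha
  have hT0 : 0 < T := by linarith
  set N := ⌊T ^ (2 : ℝ)⌋₊
  set y := Real.exp (-|X|) * T ^ δ with hy
  have hy0 : 0 < y := by positivity
  set N0 := max 1 ⌈y⌉₊ with hN0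
  have h1N0 : 1 ≤ N0 := le_max_left _ _
  have hyN0 : y ≤ N0 := (Nat.le_ceil y).trans (by exact_mod_cast le_max_right _ _)
  calc ∑ n ∈ (Finset.Icc 1 N).filter (fun n => ¬ n.Prime), |phi η a T n| / n
      = ∑ n ∈ ((Finset.Icc 1 N).filter (fun n => ¬ n.Prime)).filter
          (fun n => |phi η a T n| / n ≠ 0), |phi η a T n| / n :=
        (Finset.sum_filter_ne_zero _).symm
    _ ≤ ∑ n ∈ (Finset.Icc N0 N).filter (fun n => ¬ n.Prime), |phi η a T n| / n := by
        refine Finset.sum_le_sum_of_subset_of_nonneg ?_ fun n _ _ => by positivity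
        intro n hn
        rw [Finset.mem_filter, Finset.mem_filter, Finset.mem_Icc] at hn
        rw [Finset.mem_filter, Finset.mem_Icc]
        refine ⟨⟨max_le hn.1.1.1 (Nat.ceil_le.2 (ZR2_low hη hT ha.1 hn.1.1.1 ?_)), hn.1.1.2⟩,
          hn.1.2⟩
        intro h0
        exact hn.2 (by rw [h0, abs_zero, zero_div])
    _ ≤ ∑ n ∈ (Finset.Icc N0 N).filter (fun n => ¬ n.Prime), Λ n / n := by
        refine Finset.sum_le_sum fun n _ => ?_
        exact div_le_div_of_nonneg_right (ZR2_phi hη a T n) (Nat.cast_nonneg _)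
    _ ≤ C / √N0 := hCb N0 N h1N0
    _ ≤ C / √y := by
        refine div_le_div_of_nonneg_left hC (Real.sqrt_pos.2 hy0) (Real.sqrt_le_sqrt hyN0)
    _ ≤ T ^ (-δ / 3) := by
        have e1 : √y = Real.exp (-(|X| / 2)) * T ^ (δ / 2) := by
          rw [hy, Real.sqrt_eq_rpow, Real.mul_rpow (Real.exp_pos _).le (by positivity),
            ← Real.exp_mul, ← Real.rpow_mul hT0.le]
          congr 2 <;> ring
        rw [div_le_iff₀ (Real.sqrt_pos.2 hy0), e1]
        have e2 : T ^ (-δ / 3) * (Real.exp (-(|X| / 2)) * T ^ (δ / 2)) =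
            T ^ (δ / 6) * Real.exp (-(|X| / 2)) := by
          rw [mul_left_comm, ← Real.rpow_add hT0, mul_comm]
          congr 2
          ring
        rw [e2]
        have e3 : C = C * Real.exp (|X| / 2) * Real.exp (-(|X| / 2)) := by
          rw [mul_assoc, ← Real.exp_add, add_neg_cancel, Real.exp_zero, mul_one]
        rw [e3]
        exact mul_le_mul_of_nonneg_right hTk (Real.exp_pos _).le


/-- Module ZR1. The diagonal of one prime sum.

PROOF. `Gg.prime_sum 1` with `h(v) = v η(v - aL)² e^{-v}` gives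
`∑ Λ(n) log n η(log n - aL)²/n = ∫ v η(v - aL)² dv + O(1) = aL ∫ η² + O(1)`; replace `log n` by `Λ(n)`
and drop the prime powers (`sum_pp`, the other module of this file, or directly:
`∑_{p^k ≤ T², k ≥ 2} Λ(p^k) log(p^k)/p^k ≤ C`). -/
theorem sum_prime_sq {X : ℝ} {η : ℝ → ℝ} (hη : Eta X η) {δ ε : ℝ} (hδ : 0 < δ) (hε : 0 < ε) :
    ∀ᶠ T : ℝ in atTop, ∀ a ∈ Icc δ (3 / 2), (a * (∫ v, η v ^ 2) - ε) * Real.log T ≤
      ∑ p ∈ (Finset.Icc 1 ⌊T ^ (2 : ℝ)⌋₊).filter Nat.Prime, phi η a T p ^ 2 / p := by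
  obtain ⟨C, hC, hCb⟩ := Pool.Agent.MP_67227b_nt.Gg.prime_sum 1
  have hη1 : ContDiff ℝ 1 η := hη.smooth.of_le (by exact_mod_cast le_top)
  have hdη : Continuous (deriv η) := hη1.continuous_deriv le_rfl
  obtain ⟨D, hD⟩ := hdη.bounded_above_of_compact_support hη.hasCompactSupport.deriv
  have hD0 : 0 ≤ D := (norm_nonneg _).trans (hD 0)
  set Y : ℝ := |X| + 1 with hY
  have hY1 : 1 ≤ Y := by rw [hY]; linarith [abs_nonneg X]
  have hXY : X < Y := by rw [hY]; linarith [le_abs_self X]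
  -- the constants
  set C1 : ℝ := C * (2 * Y) * Real.exp (2 * Y) * (1 + 3 * (2 * D + 1)) with hC1
  set C2 : ℝ := |∫ v, v * η v ^ 2| with hC2
  have hev1 : ∀ᶠ T : ℝ in atTop, C1 + C2 + 1 ≤ ε * Real.log T :=
    (Real.tendsto_log_atTop.const_mul_atTop hε).eventually_ge_atTop _
  have hev2 : ∀ᶠ T : ℝ in atTop, 2 * Y + 1 ≤ δ * Real.log T :=
    (Real.tendsto_log_atTop.const_mul_atTop hδ).eventually_ge_atTop _
  have hev3 : ∀ᶠ T : ℝ in atTop, Real.exp Y * T ^ (3 / 2 : ℝ) ≤ T ^ (2 : ℝ) - 1 := by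
    have h1 := (tendsto_rpow_atTop (y := (1 / 2 : ℝ)) (by norm_num)).eventually_ge_atTop
      (Real.exp Y + 1)
    filter_upwards [h1, eventually_ge_atTop (1 : ℝ)] with T h1 hT
    have hT0 : 0 < T := by linarith
    have e : T ^ (2 : ℝ) = T ^ (1 / 2 : ℝ) * T ^ (3 / 2 : ℝ) := by
      rw [← Real.rpow_add hT0]
      norm_num
    have h2 : 1 ≤ T ^ (3 / 2 : ℝ) := Real.one_le_rpow hT (by norm_num)
    rw [e]
    nlinarith
  have hev4 : ∀ᶠ T : ℝ in atTop, 2 * Real.log T * T ^ (-δ / 3) ≤ 1 := by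
    have h1 := (isLittleO_log_rpow_atTop (r := δ / 3) (by positivity)).bound
      (c := 1 / 2) (by norm_num)
    filter_upwards [h1, eventually_ge_atTop (1 : ℝ)] with T h1 hT
    have hT0 : 0 < T := by linarith
    rw [Real.norm_eq_abs, Real.norm_eq_abs, abs_of_nonneg (Real.log_nonneg hT),
      abs_of_nonneg (Real.rpow_nonneg hT0.le _)] at h1
    rw [neg_div, Real.rpow_neg hT0.le, ← div_eq_mul_inv, div_le_one (by positivity)]
    linarith
  filter_upwards [hev1, hev2, hev3, hev4, eventually_ge_atTop (1 : ℝ), sum_pp hη hδ] with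
    T hT1 hT2 hT3 hT4 hT hTpp a ha
  have hT0 : 0 < T := by linarith
  have hL : 0 ≤ Real.log T := Real.log_nonneg hT
  set N := ⌊T ^ (2 : ℝ)⌋₊ with hN
  set z := a * Real.log T with hz
  have hz1 : 2 * Y + 1 ≤ z := hT2.trans (mul_le_mul_of_nonneg_right ha.1 hL)
  have hηz : ∀ v, Y ≤ |v - z| → η (v - z) = 0 := fun v hv => hη.supp _ (hXY.trans_le hv)
  -- the function
  set h : ℝ → ℝ := fun v => v * η (v - z) ^ 2 * Real.exp (-v) with hh
  set h' : ℝ → ℝ := fun v => (1 * η (v - z) ^ 2 + v * (2 * η (v - z) * deriv η (v - z))) *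
    Real.exp (-v) + v * η (v - z) ^ 2 * (Real.exp (-v) * (-1)) with hh'
  have hderiv : ∀ v, HasDerivAt h (h' v) v := by
    intro v
    have d1 : HasDerivAt (fun v => η (v - z)) (deriv η (v - z)) v := by
      have h1 : HasDerivAt η (deriv η (v - z)) (v - z) :=
        (hη1.differentiable (by norm_num)).differentiableAt.hasDerivAt
      have h2 : HasDerivAt (fun v : ℝ => v - z) 1 v := (hasDerivAt_id v).sub_const z
      have h3 := h1.comp v h2
      rw [mul_one] at h3
      exact h3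
    have d2 : HasDerivAt (fun v : ℝ => Real.exp (-v)) (Real.exp (-v) * (-1)) v :=
      (Real.hasDerivAt_exp (-v)).comp v (hasDerivAt_neg v)
    have d3 := ((hasDerivAt_id v).mul (d1.fun_pow 2)).mul d2
    refine HasDerivAt.congr_deriv d3 ?_
    simp only [hh', Nat.cast_ofNat, Nat.add_one_sub_one, pow_one, id, Pi.mul_apply]
  have hcont : Continuous h' := by
    have c1 : Continuous fun v => η (v - z) := hη1.continuous.comp (by fun_prop)
    have c2 : Continuous fun v => deriv η (v - z) := hdη.comp (by fun_prop)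
    simp only [hh']
    fun_prop
  have hl : ∀ v, v ≤ z - Y → h v = 0 := by
    intro v hv
    simp only [hh]
    rw [hηz v (by rw [abs_sub_comm, le_abs]; left; linarith)]
    ring
  have hr : ∀ v, z + Y ≤ v → h v = 0 := by
    intro v hv
    simp only [hh]
    rw [hηz v (by rw [le_abs]; left; linarith)]
    ring
  set H : ℝ := Real.exp (-(z - Y)) * (1 + (z + Y) * (2 * D + 1)) with hH
  have hHb : ∀ v, |h' v| ≤ H := by
    intro v
    have hzY : 0 ≤ z + Y := by linarith
    by_cases hv : Y ≤ |v - z|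
    · have : h' v = 0 := by
        simp only [hh']
        rw [hηz v hv]
        ring
      rw [this, abs_zero]
      positivity
    · push Not at hv
      have hv1 := abs_lt.1 hv
      have hv0 : 0 ≤ v := by linarith
      have hvb : v ≤ z + Y := by linarith
      have he : Real.exp (-v) ≤ Real.exp (-(z - Y)) := Real.exp_le_exp.2 (by linarith)
      have h1 := ZR2_abs hη (v - z)
      have h2 : |deriv η (v - z)| ≤ D := hD (v - z)
      have h3 : |(1 * η (v - z) ^ 2 + v * (2 * η (v - z) * deriv η (v - z))) +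
          v * η (v - z) ^ 2 * (-1)| ≤ 1 + (z + Y) * (2 * D + 1) := by
        have h4 : |1 * η (v - z) ^ 2| ≤ 1 := by
          rw [one_mul, abs_pow]
          exact pow_le_one₀ (abs_nonneg _) h1
        have h5 : |v * (2 * η (v - z) * deriv η (v - z))| ≤ (z + Y) * (2 * D) := by
          rw [abs_mul, abs_mul, abs_mul, abs_of_nonneg hv0, abs_two]
          refine mul_le_mul hvb ?_ (by positivity) hzY
          have := mul_le_mul h1 h2 (abs_nonneg _) zero_le_one
          linarith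
        have h6 : |v * η (v - z) ^ 2 * (-1)| ≤ (z + Y) * 1 := by
          rw [abs_mul, abs_mul, abs_neg, abs_one, mul_one, abs_of_nonneg hv0]
          refine mul_le_mul hvb ?_ (abs_nonneg _) hzY
          rw [abs_pow]
          exact pow_le_one₀ (abs_nonneg _) h1
        have h7 := abs_add_le (1 * η (v - z) ^ 2 + v * (2 * η (v - z) * deriv η (v - z)))
          (v * η (v - z) ^ 2 * (-1))
        have h8 := abs_add_le (1 * η (v - z) ^ 2) (v * (2 * η (v - z) * deriv η (v - z)))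
        linarith
      have e : h' v = Real.exp (-v) * ((1 * η (v - z) ^ 2 +
          v * (2 * η (v - z) * deriv η (v - z))) + v * η (v - z) ^ 2 * (-1)) := by
        simp only [hh']
        ring
      rw [e, abs_mul, abs_of_pos (Real.exp_pos _), hH]
      exact mul_le_mul he h3 (abs_nonneg _) (Real.exp_pos _).le
  have hexpb : Real.exp (z + Y) ≤ N := by
    have h1 : Real.exp (z + Y) ≤ Real.exp Y * T ^ (3 / 2 : ℝ) := by
      rw [Real.rpow_def_of_pos hT0, ← Real.exp_add]
      refine Real.exp_le_exp.2 ?_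
      have := mul_le_mul_of_nonneg_right ha.2 hL
      linarith
    have h2 : T ^ (2 : ℝ) - 1 ≤ N := by
      have := Nat.lt_floor_add_one (T ^ (2 : ℝ))
      rw [← hN] at this
      linarith
    linarith
  have hmain := hCb h h' (z - Y) (z + Y) H N (by linarith) (by linarith) hderiv hcont hHb hl hr hexpb
  -- the error
  have herr : C * H * (z + Y - (z - Y)) * (Real.exp (z + Y) / (z - Y) ^ 1) ≤ C1 := by
    have hzY : 0 < z - Y := by linarith
    have e1 : C * H * (z + Y - (z - Y)) * (Real.exp (z + Y) / (z - Y) ^ 1) =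
        C * (2 * Y) * Real.exp (2 * Y) * ((1 + (z + Y) * (2 * D + 1)) / (z - Y)) := by
      have : Real.exp (2 * Y) = Real.exp (-(z - Y)) * Real.exp (z + Y) := by
        rw [← Real.exp_add]
        congr 1
        ring
      rw [this, hH, pow_one]
      ring
    rw [e1, hC1]
    refine mul_le_mul_of_nonneg_left ?_ (by positivity)
    rw [div_le_iff₀ hzY]
    have h1 : z + Y ≤ 3 * (z - Y) := by linarith
    have h2 : 0 ≤ 2 * D + 1 := by linarith
    have h3 : (z + Y) * (2 * D + 1) ≤ 3 * (z - Y) * (2 * D + 1) :=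
      mul_le_mul_of_nonneg_right h1 h2
    linarith
  -- the integral
  have hint : ∫ v, Real.exp v * h v = z * (∫ v, η v ^ 2) + ∫ v, v * η v ^ 2 := by
    have e1 : (fun v => Real.exp v * h v) = fun v => (fun u => (u + z) * η u ^ 2) (v - z) := by
      funext v
      simp only [hh]
      have : Real.exp v * Real.exp (-v) = 1 := by rw [← Real.exp_add, add_neg_cancel, Real.exp_zero]
      rw [sub_add_cancel]
      linear_combination (v * η (v - z) ^ 2) * this
    rw [e1, integral_sub_right_eq_self (fun u => (u + z) * η u ^ 2) z]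
    have i1 : Integrable fun u => η u ^ 2 := by
      refine Continuous.integrable_of_hasCompactSupport (hη1.continuous.pow 2) ?_
      refine hη.hasCompactSupport.comp_left (g := fun x : ℝ => x ^ 2) ?_
      norm_num
    have i2 : Integrable fun u => u * η u ^ 2 := by
      refine Continuous.integrable_of_hasCompactSupport (continuous_id.mul (hη1.continuous.pow 2)) ?_
      refine HasCompactSupport.mul_left ?_
      refine hη.hasCompactSupport.comp_left (g := fun x : ℝ => x ^ 2) ?_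
      norm_num
    have e2 : (fun u => (u + z) * η u ^ 2) = fun u => z * η u ^ 2 + u * η u ^ 2 := by
      funext u
      ring
    rw [e2, integral_add (i1.const_mul z) i2, integral_const_mul]
  -- the sum
  have hsplit : ∑ n ∈ Finset.Icc 1 N, Λ n * h (Real.log n) =
      ∑ p ∈ (Finset.Icc 1 N).filter Nat.Prime, phi η a T p ^ 2 / p +
      ∑ n ∈ (Finset.Icc 1 N).filter (fun n => ¬ n.Prime), Λ n * h (Real.log n) := by
    rw [← Finset.sum_filter_add_sum_filter_not (Finset.Icc 1 N) Nat.Prime]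
    congr 1
    refine Finset.sum_congr rfl fun p hp => ?_
    rw [Finset.mem_filter] at hp
    have hp0 : (0 : ℝ) < p := by exact_mod_cast hp.2.pos
    change _ = (Λ p * η (Real.log p - a * Real.log T)) ^ 2 / p
    simp only [hh]
    rw [Real.exp_neg, Real.exp_log hp0, ArithmeticFunction.vonMangoldt_apply_prime hp.2, ← hz]
    ring
  have hlogN : ∀ n ∈ Finset.Icc 1 N, Real.log n ≤ 2 * Real.log T := by
    intro n hn
    rw [Finset.mem_Icc] at hn
    rw [← Real.log_rpow hT0]
    refine Real.log_le_log (by exact_mod_cast hn.1) ?_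
    exact (Nat.cast_le.2 hn.2).trans (Nat.floor_le (by positivity))
  have hnp : ∑ n ∈ (Finset.Icc 1 N).filter (fun n => ¬ n.Prime), Λ n * h (Real.log n) ≤
      2 * Real.log T * T ^ (-δ / 3) := by
    calc ∑ n ∈ (Finset.Icc 1 N).filter (fun n => ¬ n.Prime), Λ n * h (Real.log n)
        ≤ ∑ n ∈ (Finset.Icc 1 N).filter (fun n => ¬ n.Prime), 2 * Real.log T *
          (|phi η a T n| / n) := by
          refine Finset.sum_le_sum fun n hn => ?_
          rw [Finset.mem_filter] at hn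
          have hn1 := (Finset.mem_Icc.1 hn.1).1
          have hn0 : (0 : ℝ) < n := by exact_mod_cast hn1
          have e1 : |phi η a T n| = Λ n * |η (Real.log n - z)| := by
            change |Λ n * η (Real.log n - a * Real.log T)| = _
            rw [abs_mul, abs_of_nonneg ArithmeticFunction.vonMangoldt_nonneg]
          rw [e1]
          simp only [hh]
          rw [Real.exp_neg, Real.exp_log hn0, ← sq_abs (η (Real.log n - z))]
          have h1 := ZR2_abs hη (Real.log n - z)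
          have h0 := abs_nonneg (η (Real.log n - z))
          have h2 := hlogN n hn.1
          have h3 : 0 ≤ Real.log n := Real.log_natCast_nonneg n
          have h4 : (0 : ℝ) ≤ Λ n := ArithmeticFunction.vonMangoldt_nonneg
          have h5 : Real.log n * |η (Real.log n - z)| ^ 2 ≤ 2 * Real.log T * |η (Real.log n - z)| := by
            refine mul_le_mul h2 ?_ (sq_nonneg _) (by positivity)
            rw [pow_two]
            exact mul_le_of_le_one_left h0 h1
          have h6 := mul_le_mul_of_nonneg_left (mul_le_mul_of_nonneg_right h5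
            (inv_nonneg.2 hn0.le)) h4
          rw [div_eq_mul_inv]
          linarith
      _ = 2 * Real.log T * ∑ n ∈ (Finset.Icc 1 N).filter (fun n => ¬ n.Prime),
          |phi η a T n| / n := by rw [Finset.mul_sum]
      _ ≤ 2 * Real.log T * T ^ (-δ / 3) :=
          mul_le_mul_of_nonneg_left (hTpp a ha) (by positivity)
  have h1 := (abs_le.1 (hmain.trans herr)).1
  rw [hint, hsplit] at h1
  have h2 : -C2 ≤ ∫ v, v * η v ^ 2 := (abs_le.1 le_rfl).1
  have e3 : (a * (∫ v, η v ^ 2) - ε) * Real.log T = z * (∫ v, η v ^ 2) - ε * Real.log T := by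
    rw [hz]
    ring
  rw [e3]
  linarith

end Pool.Agent.MP_67227b_nt.Gk
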