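import Mathlib
import Pool.Agent.MP_67227b_nt.Gk.GkDefs
import Pool.Agent.MP_67227b_nt.Gk.GkZc
import Pool.Agent.MP_67227b_nt.Gk.GkZr

set_option autoImplicit false

open Filter Topology Set MeasureTheory Complex
open scoped Real ContDiff ArithmeticFunction ArithmeticFunction.Moebius

namespace Pool.Agent.MP_67227b_nt.Gk

open Pool.Agent.MP_67227b_nt
open Pool.Agent.MP_67227b_nt.Gg (Eta Rho PP)

private theorem ZQ2_vanish {X : ℝ} {η : ℝ → ℝ} (hη : Eta X η) {a T : ℝ} (hT : 1 ≤ T) (m : ℕ)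
    (hm : Real.exp |X| * T ^ a < m) : phi η a T m = 0 := by
  have hT0 : 0 < T := by linarith
  change Λ m * η (Real.log m - a * Real.log T) = 0
  have h0 : 0 < Real.exp |X| * T ^ a := by positivity
  have h1 : Real.log (Real.exp |X| * T ^ a) < Real.log m := Real.log_lt_log h0 hm
  rw [Real.log_mul (Real.exp_pos _).ne' (by positivity), Real.log_exp, Real.log_rpow hT0] at h1
  rw [hη.supp, mul_zero]
  rw [lt_abs]
  left
  linarith [le_abs_self X]

private theorem ZQ2_setup (X : ℝ) {c : ℝ} (hc : 0 < c) (n : ℕ) :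
    ∀ᶠ T : ℝ in atTop, ∀ a : Fin n → ℝ, (∀ j, a j ∈ Icc (0 : ℝ) (3 / 2)) → ∀ A₀ : ℝ,
      ∑ j, a j + c ≤ A₀ → (∀ j, Real.exp |X| * T ^ a j ≤ (⌊T ^ (2 : ℝ)⌋₊ : ℝ)) ∧
        ∏ j, (Real.exp |X| * T ^ a j) ≤ (⌊T ^ A₀⌋₊ : ℝ) ∧ 1 ≤ ⌊T ^ A₀⌋₊ := by
  have h1 := (tendsto_rpow_atTop (y := (1 / 2 : ℝ)) (by norm_num)).eventually_ge_atTop
    (Real.exp |X| + 1)
  have h2 := (tendsto_rpow_atTop hc).eventually_ge_atTop (2 * Real.exp |X| ^ n)
  filter_upwards [h1, h2, eventually_ge_atTop (1 : ℝ)] with T h1 h2 hT a ha A₀ hA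
  have hT0 : 0 < T := by linarith
  have hs : 0 ≤ ∑ j, a j := Finset.sum_nonneg fun j _ => (ha j).1
  have hTA : 1 ≤ T ^ A₀ := Real.one_le_rpow hT (by linarith)
  have hfl : 1 ≤ ⌊T ^ A₀⌋₊ := Nat.le_floor (by exact_mod_cast hTA)
  refine ⟨fun j => ?_, ?_, hfl⟩
  · have e : T ^ (2 : ℝ) = T ^ (1 / 2 : ℝ) * T ^ (3 / 2 : ℝ) := by
      rw [← Real.rpow_add hT0]
      norm_num
    have h3 : 1 ≤ T ^ (3 / 2 : ℝ) := Real.one_le_rpow hT (by norm_num)
    have h4 : T ^ a j ≤ T ^ (3 / 2 : ℝ) := Real.rpow_le_rpow_of_exponent_le hT (ha j).2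
    have h5 : Real.exp |X| * T ^ a j ≤ Real.exp |X| * T ^ (3 / 2 : ℝ) :=
      mul_le_mul_of_nonneg_left h4 (Real.exp_pos _).le
    have h6 := Nat.lt_floor_add_one (T ^ (2 : ℝ))
    rw [e] at h6 ⊢
    nlinarith
  · have e1 : ∏ j, (Real.exp |X| * T ^ a j) = Real.exp |X| ^ n * T ^ (∑ j, a j) := by
      rw [Finset.prod_mul_distrib, Finset.prod_const, Finset.card_univ, Fintype.card_fin,
        Real.rpow_sum_of_pos hT0]
    rw [e1]
    have e2 : T ^ (∑ j, a j + c) = T ^ (∑ j, a j) * T ^ c := Real.rpow_add hT0 _ _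
    have h3 : T ^ (∑ j, a j + c) ≤ T ^ A₀ := Real.rpow_le_rpow_of_exponent_le hT hA
    have h4 := Nat.lt_floor_add_one (T ^ A₀)
    have h5 : (1 : ℝ) ≤ (⌊T ^ A₀⌋₊ : ℝ) := by exact_mod_cast hfl
    have h6 : 0 < T ^ (∑ j, a j) := by positivity
    have h7 : T ^ (∑ j, a j) * (2 * Real.exp |X| ^ n) ≤ T ^ (∑ j, a j) * T ^ c :=
      mul_le_mul_of_nonneg_left h2 h6.le
    nlinarith

/-- Module ZQ2. The product of the prime sums. PROOF. `phi (η j) (a j) T` vanishes beyond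
`y j = e^X T^{a j} ≤ T²`, and `∏ y j = e^{nX} T^{∑ a j} ≤ T^{A₀}` for `T` large (`X` may be replaced by
`max X 0`); `prod_dirichlet` with `K = ⌊T^{A₀}⌋₊`, `N = ⌊T²⌋₊` (a real `≤ T^{A₀}` is not `≤ ⌊T^{A₀}⌋₊`:
use `prod_dirichlet` with a larger `K` and drop the zero terms, or `y j` replaced by naturals). -/
theorem prod_PP_eq {X c : ℝ} (hc : 0 < c) {n : ℕ} {η : Fin n → ℝ → ℝ}
    (hη : ∀ j, Eta X (η j)) :
    ∀ᶠ T : ℝ in atTop, ∀ a : Fin n → ℝ, (∀ j, a j ∈ Icc (0 : ℝ) (3 / 2)) → ∀ A₀ : ℝ,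
      ∑ j, a j + c ≤ A₀ → ∀ t : ℝ,
      ∏ j, PP (η j) (a j) T t =
        ∑ m ∈ Mk A₀ T, ((Aco η a T m : ℝ) : ℂ) * (m : ℂ) ^ (-(1 / 2 + (t : ℂ) * I)) := by
  filter_upwards [ZQ2_setup X hc n, eventually_ge_atTop (1 : ℝ)] with T hset hT a ha A₀ hA t
  obtain ⟨h1, h2, h3⟩ := hset a ha A₀ hA
  have hT0 : 0 < T := by linarith
  have key := prod_dirichlet Finset.univ (f := fun j => phi (η j) (a j) T)
    (y := fun j => Real.exp |X| * T ^ a j) (fun j _ => by positivity)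
    (fun j _ m hm => ZQ2_vanish (hη j) hT m hm) (N := ⌊T ^ (2 : ℝ)⌋₊) (K := ⌊T ^ A₀⌋₊)
    (fun j _ => h1 j) h2 h3 (-(1 / 2 + (t : ℂ) * I))
  exact key.symm

private theorem ZQ3_real {ι : Type*} (s : Finset ι) {f : ι → ArithmeticFunction ℝ} {y : ι → ℝ}
    (hy : ∀ j ∈ s, 0 ≤ y j) (hf : ∀ j ∈ s, ∀ m : ℕ, y j < m → f j m = 0) {N K : ℕ}
    (hN : ∀ j ∈ s, y j ≤ N) (hK : ∏ j ∈ s, y j ≤ K) (hK1 : 1 ≤ K) :
    ∑ k ∈ Finset.Icc 1 K, (∏ j ∈ s, f j) k / k =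
      ∏ j ∈ s, ∑ m ∈ Finset.Icc 1 N, f j m / m := by
  have h := prod_dirichlet s hy hf hN hK hK1 (-1)
  simp only [Complex.cpow_neg_one] at h
  apply Complex.ofReal_injective
  push_cast
  simp only [div_eq_mul_inv]
  exact h

private theorem ZQ3_sq {ι : Type*} (s : Finset ι) {f F : ι → ArithmeticFunction ℝ}
    (hf : ∀ j ∈ s, ∀ m, 0 ≤ f j m) (hF : ∀ j ∈ s, ∀ m, 0 ≤ F j m)
    (hFf : ∀ j ∈ s, ∀ m, F j m ≤ f j m ^ 2) (m : ℕ) :
    0 ≤ (∏ j ∈ s, f j) m ∧ 0 ≤ (∏ j ∈ s, F j) m ∧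
      (∏ j ∈ s, F j) m ≤ (∏ j ∈ s, f j) m ^ 2 := by
  classical
  induction s using Finset.induction_on generalizing m with
  | empty =>
    rw [Finset.prod_empty, Finset.prod_empty]
    by_cases h : m = 1
    · rw [h, ArithmeticFunction.one_one]
      norm_num
    · rw [ArithmeticFunction.one_apply_ne h]
      norm_num
  | insert i s hi ih =>
    have ih' := fun m => ih (fun j hj => hf j (Finset.mem_insert_of_mem hj))
      (fun j hj => hF j (Finset.mem_insert_of_mem hj))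
      (fun j hj => hFf j (Finset.mem_insert_of_mem hj)) m
    have h1 := hf i (Finset.mem_insert_self _ _)
    have h2 := hF i (Finset.mem_insert_self _ _)
    have h3 := hFf i (Finset.mem_insert_self _ _)
    rw [Finset.prod_insert hi, Finset.prod_insert hi, ArithmeticFunction.mul_apply,
      ArithmeticFunction.mul_apply]
    have hnn : ∀ p ∈ m.divisorsAntidiagonal, 0 ≤ f i p.1 * (∏ j ∈ s, f j) p.2 := fun p _ =>
      mul_nonneg (h1 _) (ih' _).1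
    refine ⟨Finset.sum_nonneg hnn, Finset.sum_nonneg fun p _ => mul_nonneg (h2 _) (ih' _).2.1, ?_⟩
    calc ∑ p ∈ m.divisorsAntidiagonal, F i p.1 * (∏ j ∈ s, F j) p.2
        ≤ ∑ p ∈ m.divisorsAntidiagonal, (f i p.1 * (∏ j ∈ s, f j) p.2) ^ 2 := by
          refine Finset.sum_le_sum fun p _ => ?_
          rw [mul_pow]
          exact mul_le_mul (h3 _) (ih' _).2.2 (ih' _).2.1 (sq_nonneg _)
      _ ≤ ∑ p ∈ m.divisorsAntidiagonal, (f i p.1 * (∏ j ∈ s, f j) p.2) *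
          ∑ q ∈ m.divisorsAntidiagonal, (f i q.1 * (∏ j ∈ s, f j) q.2) := by
          refine Finset.sum_le_sum fun p hp => ?_
          rw [sq]
          exact mul_le_mul_of_nonneg_left (Finset.single_le_sum hnn hp) (hnn p hp)
      _ = _ := by rw [← Finset.sum_mul, sq]

private theorem ZQ3_dvd {ι : Type*} (s : Finset ι) {F : ι → ArithmeticFunction ℝ}
    (hF : ∀ j ∈ s, ∀ m, F j m ≠ 0 → m.Prime) (m : ℕ) (hm : (∏ j ∈ s, F j) m ≠ 0) (q : ℕ)
    (hq : q.Prime) (hqm : q ∣ m) : ∃ j ∈ s, F j q ≠ 0 := by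
  classical
  induction s using Finset.induction_on generalizing m with
  | empty =>
    exfalso
    rw [Finset.prod_empty] at hm
    by_cases h : m = 1
    · rw [h] at hqm
      exact hq.one_lt.ne' (Nat.dvd_one.1 hqm)
    · exact hm (ArithmeticFunction.one_apply_ne h)
  | insert i s hi ih =>
    rw [Finset.prod_insert hi, ArithmeticFunction.mul_apply] at hm
    obtain ⟨p, hp, hp0⟩ := Finset.exists_ne_zero_of_sum_ne_zero hm
    have h1 : F i p.1 ≠ 0 := left_ne_zero_of_mul hp0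
    have h2 : (∏ j ∈ s, F j) p.2 ≠ 0 := right_ne_zero_of_mul hp0
    rw [Nat.mem_divisorsAntidiagonal] at hp
    rw [← hp.1] at hqm
    rcases (Nat.Prime.dvd_mul hq).1 hqm with h | h
    · have h3 := hF i (Finset.mem_insert_self _ _) _ h1
      refine ⟨i, Finset.mem_insert_self _ _, ?_⟩
      rw [(Nat.prime_dvd_prime_iff_eq hq h3).1 h]
      exact h1
    · obtain ⟨j, hj, hj0⟩ := ih (fun j hj => hF j (Finset.mem_insert_of_mem hj)) p.2 h2 h
      exact ⟨j, Finset.mem_insert_of_mem hj, hj0⟩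

private theorem ZQ3_low {X : ℝ} {η : ℝ → ℝ} (hη : Eta X η) {a δ T : ℝ} (hT : 1 ≤ T)
    (ha : δ ≤ a) {n : ℕ} (hn : 1 ≤ n) (h0 : phi η a T n ≠ 0) :
    Real.exp (-|X|) * T ^ δ ≤ n := by
  have hT0 : 0 < T := by linarith
  have hL : 0 ≤ Real.log T := Real.log_nonneg hT
  change Λ n * η (Real.log n - a * Real.log T) ≠ 0 at h0
  have h1 : |Real.log n - a * Real.log T| ≤ |X| := by
    by_contra h
    push Not at h
    exact h0 (by rw [hη.supp _ ((le_abs_self X).trans_lt h), mul_zero])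
  have h2 := (abs_le.1 h1).1
  have h3 : δ * Real.log T ≤ a * Real.log T := mul_le_mul_of_nonneg_right ha hL
  have hn0 : (0 : ℝ) < n := by exact_mod_cast hn
  rw [← Real.exp_log hn0, Real.rpow_def_of_pos hT0, ← Real.exp_add]
  exact Real.exp_le_exp.2 (by nlinarith)

private theorem ZQ3_gt (X : ℝ) {κ₀ δ : ℝ} (hκδ : κ₀ < δ) :
    ∀ᶠ T : ℝ in atTop, T ^ κ₀ < Real.exp (-|X|) * T ^ δ := by
  have h1 := (tendsto_rpow_atTop (sub_pos.2 hκδ)).eventually_gt_atTop (Real.exp |X|)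
  filter_upwards [h1, eventually_ge_atTop (1 : ℝ)] with T h1 hT
  have hT0 : 0 < T := by linarith
  have e : T ^ δ = T ^ κ₀ * T ^ (δ - κ₀) := by
    rw [← Real.rpow_add hT0]
    congr 1
    ring
  have h2 : Real.exp (-|X|) * Real.exp |X| = 1 := by
    rw [← Real.exp_add, neg_add_cancel, Real.exp_zero]
  have h3 : 0 < T ^ κ₀ * Real.exp (-|X|) := by positivity
  rw [e]
  calc T ^ κ₀ = T ^ κ₀ * Real.exp (-|X|) * Real.exp |X| := by rw [mul_assoc, h2, mul_one]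
    _ < T ^ κ₀ * Real.exp (-|X|) * T ^ (δ - κ₀) := mul_lt_mul_of_pos_left h1 h3
    _ = _ := by ring

/-- A pointwise modification of `phiP`. -/
private noncomputable def ZQ3_F (η : ℝ → ℝ) (a T : ℝ) (k : ℕ) : ArithmeticFunction ℝ :=
  ⟨fun n => if n.Prime then |phi η a T n| ^ k else 0, by simp [Nat.not_prime_zero]⟩

private theorem ZQ3_F_apply (η : ℝ → ℝ) (a T : ℝ) (k n : ℕ) :
    ZQ3_F η a T k n = if n.Prime then |phi η a T n| ^ k else 0 := rfl

/-- Module ZQ3. The diagonal of the product.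

PROOF. `F_j = phiP_j²` (pointwise square, supported on primes). (i) For `f, g ≥ 0`:
`(f * g)(m)² ≥ (f² * g²)(m)`, so by induction `Aco(m)² ≥ (∏ F_j)(m)`. (ii) `(∏ F_j)(m) ≠ 0` implies
that all prime factors of `m` are primes with `F_j(p) ≠ 0`, so `p ≥ e^{-X} T^δ > T^{κ₀}`, and
`m ≤ T^{A₀}`: `m ∈ Sk`. (iii) `∑_{m ≤ T^{A₀}} (∏ F_j)(m)/m = ∏_j ∑_p F_j(p)/p` (`prod_dirichlet`
with `z = -1`). -/
theorem Aco_main {X δ κ₀ c : ℝ} (hκ₀ : 0 < κ₀) (hκδ : κ₀ < δ) (hc : 0 < c) {n : ℕ}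
    {η : Fin n → ℝ → ℝ} (hη : ∀ j, Eta X (η j)) (hη0 : ∀ j v, 0 ≤ η j v) :
    ∀ᶠ T : ℝ in atTop, ∀ a : Fin n → ℝ, (∀ j, a j ∈ Icc δ (3 / 2)) → ∀ A₀ : ℝ,
      ∑ j, a j + c ≤ A₀ →
      ∏ j, (∑ p ∈ (Finset.Icc 1 ⌊T ^ (2 : ℝ)⌋₊).filter Nat.Prime,
        phi (η j) (a j) T p ^ 2 / p) ≤ ∑ m ∈ Sk A₀ κ₀ T, Aco η a T m ^ 2 / m := by
  classical
  filter_upwards [ZQ2_setup X hc n, ZQ3_gt X hκδ, eventually_ge_atTop (1 : ℝ)] with
    T hset hgt hT a ha A₀ hA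
  obtain ⟨h1, h2, h3⟩ := hset a (fun j => ⟨(hκ₀.trans hκδ).le.trans (ha j).1, (ha j).2⟩) A₀ hA
  have hT0 : 0 < T := by linarith
  have hvan : ∀ j ∈ (Finset.univ : Finset (Fin n)), ∀ m : ℕ, Real.exp |X| * T ^ a j < m →
      ZQ3_F (η j) (a j) T 2 m = 0 := by
    intro j _ m hm
    rw [ZQ3_F_apply, ZQ2_vanish (hη j) hT m hm, abs_zero]
    split_ifs <;> norm_num
  have key := ZQ3_real Finset.univ (f := fun j => ZQ3_F (η j) (a j) T 2)
    (y := fun j => Real.exp |X| * T ^ a j) (fun j _ => by positivity)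
    hvan (N := ⌊T ^ (2 : ℝ)⌋₊) (K := ⌊T ^ A₀⌋₊) (fun j _ => h1 j) h2 h3
  have hsq := ZQ3_sq (Finset.univ : Finset (Fin n)) (f := fun j => phi (η j) (a j) T)
    (F := fun j => ZQ3_F (η j) (a j) T 2)
    (fun j _ m => mul_nonneg ArithmeticFunction.vonMangoldt_nonneg (hη0 j _))
    (fun j _ m => by
      rw [ZQ3_F_apply]
      split_ifs <;> positivity)
    (fun j _ m => by
      rw [ZQ3_F_apply]
      split_ifs
      · rw [sq_abs]
      · positivity)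
  have e1 : ∏ j, (∑ p ∈ (Finset.Icc 1 ⌊T ^ (2 : ℝ)⌋₊).filter Nat.Prime,
        phi (η j) (a j) T p ^ 2 / p) =
      ∏ j, ∑ m ∈ Finset.Icc 1 ⌊T ^ (2 : ℝ)⌋₊, ZQ3_F (η j) (a j) T 2 m / m := by
    refine Finset.prod_congr rfl fun j _ => ?_
    rw [Finset.sum_filter]
    refine Finset.sum_congr rfl fun m _ => ?_
    rw [ZQ3_F_apply, sq_abs]
    split_ifs
    · rfl
    · rw [zero_div]
  rw [e1, ← key]
  have e2 : ∑ k ∈ Finset.Icc 1 ⌊T ^ A₀⌋₊, (∏ j, ZQ3_F (η j) (a j) T 2) k / k =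
      ∑ k ∈ Sk A₀ κ₀ T, (∏ j, ZQ3_F (η j) (a j) T 2) k / k := by
    symm
    refine Finset.sum_subset (Finset.filter_subset _ _) ?_
    intro m hm hm'
    have hm0 : (∏ j, ZQ3_F (η j) (a j) T 2) m = 0 := by
      by_contra h
      apply hm'
      rw [Sk, Finset.mem_filter]
      refine ⟨hm, fun q hq hqm => ?_⟩
      obtain ⟨j, _, hj⟩ := ZQ3_dvd Finset.univ (F := fun j => ZQ3_F (η j) (a j) T 2)
        (fun j _ m h => by
          by_contra h'
          exact h (by rw [ZQ3_F_apply, if_neg h'])) m h q hq hqm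
      refine hgt.trans_le (ZQ3_low (hη j) hT (ha j).1 hq.one_lt.le ?_)
      intro h0
      apply hj
      rw [ZQ3_F_apply, h0, abs_zero]
      split_ifs <;> norm_num
    rw [hm0, zero_div]
  rw [e2]
  refine Finset.sum_le_sum fun m _ => ?_
  exact div_le_div_of_nonneg_right (hsq m).2.2 (Nat.cast_nonneg _)

/-- The absolute value of `phi`. -/
private noncomputable def ZQ4_f (η : ℝ → ℝ) (a T : ℝ) : ArithmeticFunction ℝ :=
  ⟨fun n => |phi η a T n|, by simp⟩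

private theorem ZQ4_f_apply (η : ℝ → ℝ) (a T : ℝ) (n : ℕ) :
    ZQ4_f η a T n = |phi η a T n| := rfl

private theorem ZQ4_abs {ι : Type*} (s : Finset ι) {f F p : ι → ArithmeticFunction ℝ}
    (hF : ∀ j ∈ s, ∀ m, |f j m| ≤ F j m) (hp : ∀ j ∈ s, ∀ m, 0 ≤ p j m)
    (hpF : ∀ j ∈ s, ∀ m, p j m ≤ F j m) (m : ℕ) :
    |(∏ j ∈ s, f j) m| ≤ (∏ j ∈ s, F j) m ∧ 0 ≤ (∏ j ∈ s, p j) m ∧
      (∏ j ∈ s, p j) m ≤ (∏ j ∈ s, F j) m := by
  classical
  induction s using Finset.induction_on generalizing m with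
  | empty =>
    rw [Finset.prod_empty, Finset.prod_empty, Finset.prod_empty]
    by_cases h : m = 1
    · rw [h, ArithmeticFunction.one_one]
      norm_num
    · rw [ArithmeticFunction.one_apply_ne h]
      norm_num
  | insert i s hi ih =>
    have ih' := fun m => ih (fun j hj => hF j (Finset.mem_insert_of_mem hj))
      (fun j hj => hp j (Finset.mem_insert_of_mem hj))
      (fun j hj => hpF j (Finset.mem_insert_of_mem hj)) m
    have h1 := hF i (Finset.mem_insert_self _ _)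
    have h2 := hp i (Finset.mem_insert_self _ _)
    have h3 := hpF i (Finset.mem_insert_self _ _)
    rw [Finset.prod_insert hi, Finset.prod_insert hi, Finset.prod_insert hi,
      ArithmeticFunction.mul_apply, ArithmeticFunction.mul_apply, ArithmeticFunction.mul_apply]
    refine ⟨(Finset.abs_sum_le_sum_abs _ _).trans (Finset.sum_le_sum fun q _ => ?_),
      Finset.sum_nonneg fun q _ => mul_nonneg (h2 _) (ih' _).2.1, Finset.sum_le_sum fun q _ => ?_⟩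
    · rw [abs_mul]
      exact mul_le_mul (h1 _) (ih' _).1 (abs_nonneg _) ((abs_nonneg _).trans (h1 _))
    · exact mul_le_mul (h3 _) (ih' _).2.2 (ih' _).2.1 ((abs_nonneg _).trans (h1 _))

private theorem ZQ4_prod {ι : Type*} (s : Finset ι) {x y : ι → ℝ} {B e : ℝ} (hB : 1 ≤ B)
    (he : 0 ≤ e) (hx : ∀ j ∈ s, x j ≤ B) (hy : ∀ j ∈ s, 0 ≤ y j) (hyx : ∀ j ∈ s, y j ≤ x j)
    (hye : ∀ j ∈ s, y j ≤ e) :
    ∏ j ∈ s, x j - ∏ j ∈ s, (x j - y j) ≤ s.card * B ^ s.card * e ∧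
      0 ≤ ∏ j ∈ s, (x j - y j) ∧ ∏ j ∈ s, (x j - y j) ≤ B ^ s.card ∧
      ∏ j ∈ s, (x j - y j) ≤ ∏ j ∈ s, x j := by
  classical
  induction s using Finset.induction_on with
  | empty => simp
  | insert i s hi ih =>
    obtain ⟨i1, i2, i3, i4⟩ := ih (fun j hj => hx j (Finset.mem_insert_of_mem hj))
      (fun j hj => hy j (Finset.mem_insert_of_mem hj))
      (fun j hj => hyx j (Finset.mem_insert_of_mem hj))
      (fun j hj => hye j (Finset.mem_insert_of_mem hj))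
    have h1 := hx i (Finset.mem_insert_self _ _)
    have h2 := hy i (Finset.mem_insert_self _ _)
    have h3 := hyx i (Finset.mem_insert_self _ _)
    have h4 := hye i (Finset.mem_insert_self _ _)
    rw [Finset.prod_insert hi, Finset.prod_insert hi, Finset.card_insert_of_notMem hi]
    set P := ∏ j ∈ s, x j
    set Q := ∏ j ∈ s, (x j - y j)
    set k := s.card
    have hB0 : 0 < B := by linarith
    have hx0 : 0 ≤ x i := h2.trans h3
    refine ⟨?_, mul_nonneg (sub_nonneg.2 h3) i2, ?_, ?_⟩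
    · have e1 : x i * P - (x i - y i) * Q = x i * (P - Q) + y i * Q := by ring
      rw [e1]
      have h5 : x i * (P - Q) ≤ B * (k * B ^ k * e) :=
        mul_le_mul h1 i1 (sub_nonneg.2 i4) hB0.le
      have h6 : y i * Q ≤ e * B ^ k := mul_le_mul h4 i3 i2 he
      have h7 : B ^ k ≤ B ^ (k + 1) := pow_le_pow_right₀ hB (Nat.le_succ _)
      have h8 : e * B ^ k ≤ e * B ^ (k + 1) := mul_le_mul_of_nonneg_left h7 he
      have e2 : ((k + 1 : ℕ) : ℝ) * B ^ (k + 1) * e = B * (k * B ^ k * e) + e * B ^ (k + 1) := by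
        push_cast
        ring
      rw [e2]
      linarith
    · rw [pow_succ']
      exact mul_le_mul (by linarith) i3 i2 hB0.le
    · exact mul_le_mul (by linarith) i4 i2 hx0

/-- Module ZQ4. The part of the product which is not sifted.

PROOF. Let `f_j = |phi_j|`, `p_j = |phiP_j|`. `|Aco| ≤ ∏ f_j`. For `m ∈ Mk \ Sk`, `(∏ p_j)(m) = 0` (as in
`Aco_main` (ii)), so `|Aco m| ≤ (∏ f_j)(m) - (∏ p_j)(m)`, and the right side is `≥ 0` for all `m`; so
the sum is `≤ ∏ x_j - ∏ (x_j - y_j)` with `x_j = ∑ f_j(m)/m ≤ 9L²` (`sum_one`) and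
`y_j = ∑_{m not prime} f_j(m)/m ≤ T^(-δ/3)` (`sum_pp`), which is `≤ n (9L²)^(n-1) T^(-δ/3)`. -/
theorem Aco_non {X δ κ₀ c : ℝ} (hκ₀ : 0 < κ₀) (hκδ : κ₀ < δ) (hc : 0 < c) {n : ℕ}
    {η : Fin n → ℝ → ℝ} (hη : ∀ j, Eta X (η j)) :
    ∀ᶠ T : ℝ in atTop, ∀ a : Fin n → ℝ, (∀ j, a j ∈ Icc δ (3 / 2)) → ∀ A₀ : ℝ,
      ∑ j, a j + c ≤ A₀ →
      ∑ m ∈ Mk A₀ T \ Sk A₀ κ₀ T, |Aco η a T m| / m ≤ T ^ (-δ / 4) := by
  classical
  have hδ : 0 < δ := hκ₀.trans hκδ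
  have hone : ∀ᶠ T : ℝ in atTop, ∀ j, ∀ b : ℝ,
      ∑ m ∈ Finset.Icc 1 ⌊T ^ (2 : ℝ)⌋₊, |phi (η j) b T m| / m ≤ 9 * Real.log T ^ 2 :=
    eventually_all.2 fun j => sum_one (hη j)
  have hpp : ∀ᶠ T : ℝ in atTop, ∀ j, ∀ b ∈ Icc δ (3 / 2),
      ∑ m ∈ (Finset.Icc 1 ⌊T ^ (2 : ℝ)⌋₊).filter (fun m => ¬ m.Prime),
        |phi (η j) b T m| / m ≤ T ^ (-δ / 3) :=
    eventually_all.2 fun j => sum_pp (hη j) hδ
  have hlog : ∀ᶠ T : ℝ in atTop, (n : ℝ) * (9 * Real.log T ^ 2) ^ n ≤ T ^ (δ / 12) := by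
    have h1 := (isLittleO_log_rpow_rpow_atTop ((2 * n : ℕ) : ℝ) (s := δ / 12)
      (by positivity)).bound (c := 1 / ((n : ℝ) * 9 ^ n + 1)) (by positivity)
    filter_upwards [h1, eventually_ge_atTop (1 : ℝ)] with T h1 hT
    have hT0 : 0 < T := by linarith
    have hL : 0 ≤ Real.log T := Real.log_nonneg hT
    rw [Real.rpow_natCast, Real.norm_eq_abs, Real.norm_eq_abs, abs_of_nonneg (by positivity),
      abs_of_nonneg (by positivity), one_div, ← div_eq_inv_mul, le_div_iff₀ (by positivity)] at h1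
    have e : (n : ℝ) * (9 * Real.log T ^ 2) ^ n = Real.log T ^ (2 * n) * ((n : ℝ) * 9 ^ n) := by
      rw [mul_pow, ← pow_mul]
      ring
    rw [e]
    have h2 : 0 ≤ Real.log T ^ (2 * n) := by positivity
    nlinarith
  filter_upwards [ZQ2_setup X hc n, ZQ3_gt X hκδ, eventually_ge_atTop (Real.exp 1), hone, hpp,
    hlog] with T hset hgt hTe hT1 hT2 hT3 a ha A₀ hA
  obtain ⟨h1, h2, h3⟩ := hset a (fun j => ⟨hδ.le.trans (ha j).1, (ha j).2⟩) A₀ hA
  have hT0 : 0 < T := (Real.exp_pos 1).trans_le hTe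
  have hL : 1 ≤ Real.log T := (Real.le_log_iff_exp_le hT0).2 hTe
  have hT : 1 ≤ T := by linarith [Real.add_one_le_exp 1]
  set N := ⌊T ^ (2 : ℝ)⌋₊ with hN
  have key1 := ZQ3_real Finset.univ (f := fun j => ZQ4_f (η j) (a j) T)
    (y := fun j => Real.exp |X| * T ^ a j) (fun j _ => by positivity)
    (fun j _ m hm => by rw [ZQ4_f_apply, ZQ2_vanish (hη j) hT m hm, abs_zero]) (N := N)
    (K := ⌊T ^ A₀⌋₊) (fun j _ => h1 j) h2 h3
  have key2 := ZQ3_real Finset.univ (f := fun j => ZQ3_F (η j) (a j) T 1)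
    (y := fun j => Real.exp |X| * T ^ a j) (fun j _ => by positivity)
    (fun j _ m hm => by
      rw [ZQ3_F_apply, ZQ2_vanish (hη j) hT m hm, abs_zero]
      split_ifs <;> norm_num) (N := N)
    (K := ⌊T ^ A₀⌋₊) (fun j _ => h1 j) h2 h3
  have habs := ZQ4_abs (Finset.univ : Finset (Fin n)) (f := fun j => phi (η j) (a j) T)
    (F := fun j => ZQ4_f (η j) (a j) T) (p := fun j => ZQ3_F (η j) (a j) T 1)
    (fun j _ m => le_rfl)
    (fun j _ m => by
      rw [ZQ3_F_apply]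
      split_ifs <;> positivity)
    (fun j _ m => by
      rw [ZQ3_F_apply, ZQ4_f_apply, pow_one]
      split_ifs
      · exact le_rfl
      · exact abs_nonneg _)
  have hzero : ∀ m ∈ Mk A₀ T \ Sk A₀ κ₀ T, (∏ j, ZQ3_F (η j) (a j) T 1) m = 0 := by
    intro m hm
    rw [Finset.mem_sdiff] at hm
    by_contra h
    apply hm.2
    rw [Sk, Finset.mem_filter]
    refine ⟨hm.1, fun q hq hqm => ?_⟩
    obtain ⟨j, _, hj⟩ := ZQ3_dvd Finset.univ (F := fun j => ZQ3_F (η j) (a j) T 1)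
      (fun j _ m h => by
        by_contra h'
        exact h (by rw [ZQ3_F_apply, if_neg h'])) m h q hq hqm
    refine hgt.trans_le (ZQ3_low (hη j) hT (ha j).1 hq.one_lt.le ?_)
    intro h0
    apply hj
    rw [ZQ3_F_apply, h0, abs_zero]
    split_ifs <;> norm_num
  have hy : ∀ j, ∑ m ∈ Finset.Icc 1 N, ZQ3_F (η j) (a j) T 1 m / m =
      ∑ m ∈ Finset.Icc 1 N, ZQ4_f (η j) (a j) T m / m -
        ∑ m ∈ (Finset.Icc 1 N).filter (fun m => ¬ m.Prime), |phi (η j) (a j) T m| / m := by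
    intro j
    rw [eq_sub_iff_add_eq, Finset.sum_filter, ← Finset.sum_add_distrib]
    refine Finset.sum_congr rfl fun m _ => ?_
    rw [ZQ3_F_apply, ZQ4_f_apply, pow_one]
    by_cases hm : m.Prime
    · rw [if_pos hm, if_neg (not_not.2 hm), add_zero]
    · rw [if_neg hm, if_pos hm, zero_div, zero_add]
  have hprod := ZQ4_prod (Finset.univ : Finset (Fin n))
    (x := fun j => ∑ m ∈ Finset.Icc 1 N, ZQ4_f (η j) (a j) T m / m)
    (y := fun j => ∑ m ∈ (Finset.Icc 1 N).filter (fun m => ¬ m.Prime), |phi (η j) (a j) T m| / m)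
    (B := 9 * Real.log T ^ 2) (e := T ^ (-δ / 3)) (by nlinarith) (by positivity)
    (fun j _ => hT1 j (a j))
    (fun j _ => Finset.sum_nonneg fun m _ => by positivity)
    (fun j _ => Finset.sum_le_sum_of_subset_of_nonneg (Finset.filter_subset _ _)
      fun m _ _ => by positivity)
    (fun j _ => hT2 j (a j) (ha j))
  calc ∑ m ∈ Mk A₀ T \ Sk A₀ κ₀ T, |Aco η a T m| / m
      ≤ ∑ m ∈ Mk A₀ T \ Sk A₀ κ₀ T, ((∏ j, ZQ4_f (η j) (a j) T) m / m -
          (∏ j, ZQ3_F (η j) (a j) T 1) m / m) := by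
        refine Finset.sum_le_sum fun m hm => ?_
        rw [hzero m hm, zero_div, sub_zero]
        exact div_le_div_of_nonneg_right (habs m).1 (Nat.cast_nonneg _)
    _ ≤ ∑ m ∈ Mk A₀ T, ((∏ j, ZQ4_f (η j) (a j) T) m / m -
          (∏ j, ZQ3_F (η j) (a j) T 1) m / m) := by
        refine Finset.sum_le_sum_of_subset_of_nonneg Finset.sdiff_subset fun m _ _ => ?_
        rw [sub_nonneg]
        exact div_le_div_of_nonneg_right (habs m).2.2 (Nat.cast_nonneg _)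
    _ = ∏ j, (∑ m ∈ Finset.Icc 1 N, ZQ4_f (η j) (a j) T m / m) -
        ∏ j, (∑ m ∈ Finset.Icc 1 N, ZQ3_F (η j) (a j) T 1 m / m) := by
        rw [Finset.sum_sub_distrib, ← key1, ← key2]
        rfl
    _ = ∏ j, (∑ m ∈ Finset.Icc 1 N, ZQ4_f (η j) (a j) T m / m) -
        ∏ j, ((∑ m ∈ Finset.Icc 1 N, ZQ4_f (η j) (a j) T m / m) -
        ∑ m ∈ (Finset.Icc 1 N).filter (fun m => ¬ m.Prime), |phi (η j) (a j) T m| / m) := by
        rw [Finset.prod_congr rfl fun j _ => hy j]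
    _ ≤ (n : ℝ) * (9 * Real.log T ^ 2) ^ n * T ^ (-δ / 3) := by
        have := hprod.1
        rw [Finset.card_univ, Fintype.card_fin] at this
        exact this
    _ ≤ T ^ (δ / 12) * T ^ (-δ / 3) := mul_le_mul_of_nonneg_right hT3 (by positivity)
    _ = T ^ (-δ / 4) := by
        rw [← Real.rpow_add hT0]
        congr 1
        ring

end Pool.Agent.MP_67227b_nt.Gk
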