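import Mathlib
import Pool.Agent.MP_67227b_nt.Gg.GgMw
import Pool.Agent.MP_67227b_nt.Gg.GgProf
import Pool.Agent.MP_67227b_nt.Gk.GkZa
import Pool.Agent.MP_67227b_nt.Gk.GkZq

set_option autoImplicit false

open Filter Topology Set MeasureTheory Complex
open scoped Real ContDiff ArithmeticFunction ArithmeticFunction.Moebius

namespace Pool.Agent.MP_67227b_nt.Gk

open Pool.Agent.MP_67227b_nt
open Pool.Agent.MP_67227b_nt.Gg (Eta Rho PP)
open Pool.Agent.MP_67227b_nt.Mo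

theorem eta_int_nonneg (η : ℝ → ℝ) : 0 ≤ ∫ v, η v ^ 2 := integral_nonneg fun v => sq_nonneg _

theorem eta_int_le_one {X : ℝ} {η : ℝ → ℝ} (hη : Eta X η) : ∫ v, η v ^ 2 ≤ 1 := by
  have h1 : ∫ ξ : ℝ, Real.exp (-(2 * |ξ|)) = 1 := by
    have h := Gg.weight_eq 0
    simp only [mul_zero, Real.cos_zero, mul_one] at h
    rw [h]
    norm_num
  rw [← h1]
  apply integral_mono_of_nonneg (Eventually.of_forall fun v => sq_nonneg _) Gg.integrable_weight
  exact Eventually.of_forall fun v => hη.sq_le v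

/-- A product of lower bounds. -/
theorem prod_lower {ι : Type*} (s : Finset ι) {x y : ι → ℝ} {e : ℝ} (he : 0 ≤ e)
    (hx0 : ∀ j, 0 ≤ x j) (hx1 : ∀ j, x j ≤ 1) (hy0 : ∀ j, 0 ≤ y j) (hxy : ∀ j, x j - e ≤ y j) :
    (∏ j ∈ s, x j) - s.card * e ≤ ∏ j ∈ s, y j := by
  classical
  induction s using Finset.induction_on with
  | empty => simp
  | insert i s hi ih =>
    rw [Finset.prod_insert hi, Finset.prod_insert hi, Finset.card_insert_of_notMem hi]
    push_cast
    set P := ∏ j ∈ s, x j with hP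
    set Q := ∏ j ∈ s, y j with hQ
    have hP0 : 0 ≤ P := Finset.prod_nonneg fun j _ => hx0 j
    have hP1 : P ≤ 1 := Finset.prod_le_one (fun j _ => hx0 j) (fun j _ => hx1 j)
    have hQ0 : 0 ≤ Q := Finset.prod_nonneg fun j _ => hy0 j
    have hk : (0 : ℝ) ≤ (s.card : ℝ) * e := by positivity
    set z := min (y i) (x i) with hz
    have hz0 : 0 ≤ z := le_min (hy0 i) (hx0 i)
    have hz1 : z ≤ 1 := (min_le_right _ _).trans (hx1 i)
    have hzx : x i - e ≤ z := le_min (hxy i) (by linarith)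
    have h1 : z * Q ≤ y i * Q := mul_le_mul_of_nonneg_right (min_le_left _ _) hQ0
    have h2 : z * (P - s.card * e) ≤ z * Q := mul_le_mul_of_nonneg_left ih hz0
    have h3 : (x i - e) * P ≤ z * P := mul_le_mul_of_nonneg_right hzx hP0
    have h4 : z * (s.card * e) ≤ 1 * (s.card * e) := mul_le_mul_of_nonneg_right hz1 hk
    have h5 : e * P ≤ e * 1 := mul_le_mul_of_nonneg_left hP1 he
    nlinarith

/-- Algebra for the main factor. -/
private theorem alg_G {e s I Rr q T L CT : ℝ} (he : 0 < e) (he1 : e ≤ 1 / 16) (hs : 16 * e ≤ s)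
    (hs1 : s ≤ 1 / 2) (hI0 : 0 ≤ I) (hI1 : I ≤ 1) (hR : 1 - e ≤ Rr) (hq : s - 5 * e / 8 ≤ q)
    (hTL : 0 ≤ T * L) (hC : CT ≤ e * (T * L)) :
    (s * I - 3 * e) * (T * L) ≤ q * T * L * Rr * I - CT := by
  have h2 : 0 ≤ s - 5 * e / 8 := by linarith
  have h3 : (s - 5 * e / 8) * (1 - e) ≤ q * Rr := by
    calc (s - 5 * e / 8) * (1 - e) ≤ (s - 5 * e / 8) * Rr := mul_le_mul_of_nonneg_left hR h2
      _ ≤ _ := mul_le_mul_of_nonneg_right hq ((by linarith : (0 : ℝ) ≤ 1 - e).trans hR)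
  have h4 := mul_le_mul_of_nonneg_right h3 hI0
  have h5 : s * I - 2 * e ≤ (s - 5 * e / 8) * (1 - e) * I := by
    have e1 : (s - 5 * e / 8) * (1 - e) * I = s * I - e * (s * I) - 5 / 8 * e * I +
        5 / 8 * e * e * I := by ring
    rw [e1]
    have h6 : e * (s * I) ≤ e * 1 := by
      apply mul_le_mul_of_nonneg_left _ he.le
      calc s * I ≤ 1 * 1 := mul_le_mul (by linarith) hI1 hI0 zero_le_one
        _ = 1 := one_mul 1
    have h7 : 5 / 8 * e * I ≤ 5 / 8 * e * 1 := mul_le_mul_of_nonneg_left hI1 (by positivity)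
    have h8 : 0 ≤ 5 / 8 * e * e * I := by positivity
    linarith
  have h6 := mul_le_mul_of_nonneg_right (h5.trans h4) hTL
  have e2 : q * T * L * Rr * I - CT = q * Rr * I * (T * L) - CT := by ring
  rw [e2]
  linarith

/-- Algebra for the product. -/
private theorem alg_prod {e s I B S2 G T L : ℝ} {n : ℕ} (he : 0 < e) (hs0 : 0 ≤ s)
    (hs1 : s ≤ 1 / 2) (hI0 : 0 ≤ I) (hI1 : I ≤ 1) (hB0 : 0 ≤ B) (hB1 : B ≤ 1)
    (hcase : 4 * e < s * I) (hT : 0 < T) (hL : 0 < L) (hS2 : 0 ≤ S2)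
    (hS2low : (B - e) * L ^ n ≤ S2) (hGlow : (s * I - 3 * e) * (T * L) ≤ G) :
    (s * B * I - 4 * e) * (T * L ^ (n + 1)) ≤ S2 * G := by
  have hTL : 0 < T * L ^ (n + 1) := by positivity
  have hGpos : 0 ≤ G := le_trans (mul_nonneg (by linarith) (by positivity)) hGlow
  have h2 : s * I ≤ 1 := by
    calc s * I ≤ 1 * 1 := mul_le_mul (by linarith) hI1 hI0 zero_le_one
      _ = 1 := one_mul 1
  by_cases hBe : B ≤ e
  · refine le_trans ?_ (mul_nonneg hS2 hGpos)
    apply mul_nonpos_of_nonpos_of_nonneg _ hTL.le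
    have h3 : s * B * I ≤ B := by
      calc s * B * I = B * (s * I) := by ring
        _ ≤ B * 1 := mul_le_mul_of_nonneg_left h2 hB0
        _ = B := mul_one B
    linarith
  · push Not at hBe
    have h1 : (B - e) * L ^ n * ((s * I - 3 * e) * (T * L)) ≤ S2 * G :=
      mul_le_mul hS2low hGlow (mul_nonneg (by linarith) (by positivity)) hS2
    refine le_trans ?_ h1
    have e1 : (B - e) * L ^ n * ((s * I - 3 * e) * (T * L)) =
        (B - e) * (s * I - 3 * e) * (T * L ^ (n + 1)) := by ring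
    rw [e1]
    apply mul_le_mul_of_nonneg_right _ hTL.le
    have e2 : (B - e) * (s * I - 3 * e) = s * B * I - 3 * (e * B) - e * (s * I) + 3 * (e * e) := by
      ring
    rw [e2]
    have h3 : e * B ≤ e * 1 := mul_le_mul_of_nonneg_left hB1 he.le
    have h4 : e * (s * I) ≤ e * 1 := mul_le_mul_of_nonneg_left h2 he.le
    have h5 : 0 ≤ e * e := by positivity
    linarith

/-- Algebra for the errors. -/
private theorem alg_U {D S2 G U R q1 q2 E T : ℝ} (hD0 : 0 < D)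
    (hmain : (1 / D) ^ 2 * S2 * G - R * q1 - q2 ≤ (1 / D) ^ 2 * U)
    (hR : R ≤ (1 / D) * E) (hq1 : 0 ≤ q1) {e : ℝ} (h3 : D * (E * q1) ≤ e * T)
    (h4 : D ^ 2 * q2 ≤ e * T) : S2 * G - 2 * e * T ≤ U := by
  have h1 : (1 / D) ^ 2 * S2 * G - (1 / D) * E * q1 - q2 ≤ (1 / D) ^ 2 * U := by
    have h2 := mul_le_mul_of_nonneg_right hR hq1
    linarith
  have h2 := mul_le_mul_of_nonneg_left h1 (by positivity : (0 : ℝ) ≤ D ^ 2)
  have e1 : D ^ 2 * ((1 / D) ^ 2 * U) = U := by field_simp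
  have e2 : D ^ 2 * ((1 / D) ^ 2 * S2 * G - (1 / D) * E * q1 - q2) =
      S2 * G - D * (E * q1) - D ^ 2 * q2 := by
    field_simp
  rw [e1, e2] at h2
  linarith

/-- The core of the assembly: from the weighted bound for Dirichlet polynomials to the product of
prime sums. -/
theorem prime_core {X : ℝ} {n : ℕ} {η : Fin n → ℝ → ℝ} {g : ℝ → ℝ}
    (hη : ∀ j, Eta X (η j)) (hη0 : ∀ j v, 0 ≤ η j v) (hg : Eta X g) {e : ℝ} (he : 0 < e)
    (he1 : e ≤ 1 / 16) :
    ∃ κ : ℝ, 0 < κ ∧ κ < 1 ∧ ∀ᶠ T : ℝ in atTop, ∀ a : Fin n → ℝ, (∀ j, e ≤ a j) → ∀ α : ℝ, 1 ≤ α →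
      16 * e ≤ 3 / 2 - α - ∑ j, a j →
      ((3 / 2 - α - ∑ j, a j) * (∏ j, (a j * ∫ v, η j v ^ 2)) * (∫ v, g v ^ 2) - 8 * e) *
        (T * Real.log T ^ (n + 1)) ≤
      ∫ t in (κ * T)..(T - T ^ (3 / 4 : ℝ)), (∏ j, ‖PP (η j) (a j) T t‖ ^ 2) *
        ‖PP g α T t‖ ^ 2 := by
  obtain ⟨κ, ρ, hκ, hκ1, hρ, hρI⟩ := Gg.exists_rho he
  refine ⟨κ, hκ, hκ1, ?_⟩
  set c : ℝ := e / 8 with hc
  have hc0 : 0 < c := by positivity
  set N : ℕ := ⌈1 / c⌉₊ with hN
  have hpoly := fun k : ℕ => polyK X κ c (k * c) (e / 2) c hκ hκ1 hc0 (by positivity)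
    (by positivity) hc0 hg hρ
  choose C δ hδ hP using hpoly
  have hPall : ∀ᶠ T : ℝ in atTop, ∀ k ∈ Finset.range (N + 1), _ :=
    (Filter.eventually_all_finset (Finset.range (N + 1))).2 fun k _ => hP k
  -- the smallness of the constants
  have hsmall : ∀ᶠ T : ℝ in atTop, ∀ k ∈ Finset.range (N + 1),
      C k ≤ e * Real.log T ∧ Real.log T ^ (2 * n) * T ^ (-δ k) ≤ e := by
    refine (Filter.eventually_all_finset (Finset.range (N + 1))).2 fun k _ => ?_
    have h1 : ∀ᶠ T : ℝ in atTop, C k / e ≤ Real.log T :=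
      Real.tendsto_log_atTop.eventually_ge_atTop _
    have h2 : Tendsto (fun T : ℝ => Real.log T ^ (2 * n) * T ^ (-δ k)) atTop (𝓝 0) := by
      have h3 := (isLittleO_log_rpow_rpow_atTop ((2 * n : ℕ) : ℝ) (hδ k)).tendsto_div_nhds_zero
      refine h3.congr' ?_
      filter_upwards [eventually_gt_atTop (1 : ℝ)] with T hT
      rw [Real.rpow_natCast, Real.rpow_neg (by linarith), div_eq_mul_inv]
    filter_upwards [h1, h2.eventually_le_const he] with T h3 h4
    refine ⟨?_, h4⟩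
    rw [div_le_iff₀ he] at h3
    linarith
  have hsmall2 : ∀ᶠ T : ℝ in atTop, Real.log T ^ n * T ^ (-(e / 8)) ≤ e := by
    have h2 : Tendsto (fun T : ℝ => Real.log T ^ n * T ^ (-(e / 8))) atTop (𝓝 0) := by
      have h3 := (isLittleO_log_rpow_rpow_atTop (n : ℝ)
        (show 0 < e / 8 by positivity)).tendsto_div_nhds_zero
      refine h3.congr' ?_
      filter_upwards [eventually_gt_atTop (1 : ℝ)] with T hT
      rw [Real.rpow_natCast, Real.rpow_neg (by linarith), div_eq_mul_inv]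
    exact h2.eventually_le_const he
  have hz : ∀ᶠ T : ℝ in atTop, ∀ j, ∀ b ∈ Icc e (3 / 2),
      (b * (∫ v, η j v ^ 2) - e / (n + 1)) * Real.log T ≤
        ∑ p ∈ (Finset.Icc 1 ⌊T ^ (2 : ℝ)⌋₊).filter Nat.Prime, phi (η j) b T p ^ 2 / p :=
    Filter.eventually_all.2 fun j => sum_prime_sq (hη j) he (by positivity)
  have he2 : e / 2 < e := by linarith
  have hrange : ∀ᶠ T : ℝ in atTop, κ * T ≤ T - T ^ (3 / 4 : ℝ) := by
    have hsm : ∀ᶠ T : ℝ in atTop, T ^ (-(1 / 4) : ℝ) ≤ 1 - κ :=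
      (tendsto_rpow_neg_atTop (by norm_num)).eventually_le_const (by linarith)
    filter_upwards [hsm, eventually_gt_atTop 0] with T hT hT0
    have e34 : T ^ (3 / 4 : ℝ) = T * T ^ (-(1 / 4) : ℝ) := by
      rw [← Real.rpow_one_add' hT0.le (by norm_num)]; norm_num
    rw [e34]
    have := mul_le_mul_of_nonneg_left hT hT0.le
    linarith
  filter_upwards [hPall, hsmall, hsmall2, hz, prod_PP_eq hc0 hη,
    Aco_main (show 0 < e / 2 by positivity) he2 hc0 hη hη0,
    Aco_non (show 0 < e / 2 by positivity) he2 hc0 hη, hrange, eventually_gt_atTop 3]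
    with T gP gS gS2 gz gE gM gN hR hT3 a ha α hα hs
  have hT0 : 0 < T := by linarith
  have hT1 : 1 < T := by linarith
  set L : ℝ := Real.log T with hL
  have hL1 : 1 ≤ L := by
    rw [hL, Real.le_log_iff_exp_le hT0]
    exact Real.exp_one_lt_d9.le.trans (by linarith)
  have hL0 : 0 < L := by linarith
  set S : ℝ := ∑ j, a j with hS
  set s : ℝ := 3 / 2 - α - S with hsdef
  have ha0 : ∀ j, 0 ≤ a j := fun j => he.le.trans (ha j)
  have hS0 : 0 ≤ S := Finset.sum_nonneg fun j _ => ha0 j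
  have hS1 : S ≤ 1 / 2 := by linarith
  have haS : ∀ j, a j ≤ S := fun j =>
    Finset.single_le_sum (f := a) (fun i _ => ha0 i) (Finset.mem_univ j)
  have ha32 : ∀ j, a j ∈ Icc e (3 / 2) := fun j => ⟨ha j, by linarith [haS j]⟩
  have ha032 : ∀ j, a j ∈ Icc (0 : ℝ) (3 / 2) := fun j => ⟨ha0 j, by linarith [haS j]⟩
  -- the grid
  set k : ℕ := ⌈(S + c) / c⌉₊ with hk
  have hk1 : S + c ≤ k * c := by
    have := Nat.le_ceil ((S + c) / c)
    rwa [div_le_iff₀ hc0] at this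
  have hk2 : (k : ℝ) * c ≤ S + 2 * c := by
    have h1 : (k : ℝ) < (S + c) / c + 1 := Nat.ceil_lt_add_one (by positivity)
    have h2 := mul_lt_mul_of_pos_right h1 hc0
    rw [add_mul, div_mul_cancel₀ _ hc0.ne', one_mul] at h2
    linarith
  have hkN : k ∈ Finset.range (N + 1) := by
    rw [Finset.mem_range, Nat.lt_succ_iff]
    apply Nat.ceil_le_ceil
    apply div_le_div_of_nonneg_right _ hc0.le
    linarith
  have hA1 : (k : ℝ) * c ≤ 1 := by linarith
  set A₀ : ℝ := (k : ℝ) * c with hA₀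
  -- the coefficients
  set D : ℝ := L ^ n with hD
  have hD0 : 0 < D := by positivity
  set am : ℕ → ℂ := fun m => if m ∈ Mk A₀ T then ((Aco η a T m / D : ℝ) : ℂ) else 0 with ham
  have hphi : ∀ j, ∀ m : ℕ, |phi (η j) (a j) T m| ≤ Λ m := by
    intro j m
    show |Λ m * η j (Real.log m - a j * Real.log T)| ≤ Λ m
    rw [abs_mul, abs_of_nonneg ArithmeticFunction.vonMangoldt_nonneg]
    exact mul_le_of_le_one_right ArithmeticFunction.vonMangoldt_nonneg ((hη j).abs_le_one _)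
  have hAco : ∀ m ∈ Mk A₀ T, |Aco η a T m| ≤ D := by
    intro m hm
    rw [Mk, Finset.mem_Icc] at hm
    have hm1 : (1 : ℝ) ≤ m := by exact_mod_cast hm.1
    have h1 := prod_le_log (Finset.univ : Finset (Fin n)) (f := fun j => phi (η j) (a j) T)
      (fun j _ => hphi j) m hm.1
    rw [Finset.card_univ, Fintype.card_fin] at h1
    refine h1.trans ?_
    have h2 : Real.log m ≤ L := by
      have h3 : (m : ℝ) ≤ T ^ A₀ := (Nat.le_floor_iff (by positivity)).1 hm.2
      have h4 : T ^ A₀ ≤ T := by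
        calc T ^ A₀ ≤ T ^ (1 : ℝ) := Real.rpow_le_rpow_of_exponent_le hT1.le hA1
          _ = T := Real.rpow_one T
      exact Real.log_le_log (by linarith) (h3.trans h4)
    exact pow_le_pow_left₀ (Real.log_nonneg hm1) h2 n
  have hamn : ∀ m ∈ Mk A₀ T, ‖am m‖ = |Aco η a T m| / D := by
    intro m hm
    rw [ham]
    simp only [hm, if_true]
    rw [Complex.norm_real, Real.norm_eq_abs, abs_div, abs_of_pos hD0]
  have ham1 : ∀ m, ‖am m‖ ≤ 1 := by
    intro m
    by_cases hm : m ∈ Mk A₀ T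
    · rw [hamn m hm, div_le_one hD0]
      exact hAco m hm
    · rw [ham]
      simp only [hm, if_false, norm_zero]
      exact zero_le_one
  have hPw : ∀ t : ℝ, Pw A₀ T am t = ((1 / D : ℝ) : ℂ) * ∏ j, PP (η j) (a j) T t := by
    intro t
    rw [gE a ha032 A₀ hk1 t, Pw, Finset.mul_sum]
    refine Finset.sum_congr rfl fun m hm => ?_
    rw [ham]
    simp only [hm, if_true]
    push_cast
    ring
  have hint : (∫ t in (κ * T)..(T - T ^ (3 / 4 : ℝ)), ‖Pw A₀ T am t‖ ^ 2 * ‖PP g α T t‖ ^ 2) =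
      (1 / D) ^ 2 * ∫ t in (κ * T)..(T - T ^ (3 / 4 : ℝ)), (∏ j, ‖PP (η j) (a j) T t‖ ^ 2) *
        ‖PP g α T t‖ ^ 2 := by
    rw [← intervalIntegral.integral_const_mul]
    refine intervalIntegral.integral_congr fun t _ => ?_
    show ‖Pw A₀ T am t‖ ^ 2 * ‖PP g α T t‖ ^ 2 =
      (1 / D) ^ 2 * ((∏ j, ‖PP (η j) (a j) T t‖ ^ 2) * ‖PP g α T t‖ ^ 2)
    rw [hPw t, norm_mul, Complex.norm_real, Real.norm_of_nonneg (by positivity), norm_prod,
      mul_pow, Finset.prod_pow]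
    ring
  set U : ℝ := ∫ t in (κ * T)..(T - T ^ (3 / 4 : ℝ)), (∏ j, ‖PP (η j) (a j) T t‖ ^ 2) *
        ‖PP g α T t‖ ^ 2 with hU
  have hU0 : 0 ≤ U := intervalIntegral.integral_nonneg hR fun t _ => by positivity
  set S2 : ℝ := ∑ m ∈ Sk A₀ (e / 2) T, Aco η a T m ^ 2 / m with hS2
  have hS20 : 0 ≤ S2 := Finset.sum_nonneg fun m _ => by positivity
  have hSkMk : ∀ m ∈ Sk A₀ (e / 2) T, m ∈ Mk A₀ T := fun m hm => by
    classical
    exact (Finset.mem_filter.1 hm).1
  have hsum1 : (∑ m ∈ Sk A₀ (e / 2) T, ‖am m‖ ^ 2 / m) = (1 / D) ^ 2 * S2 := by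
    rw [hS2, Finset.mul_sum]
    refine Finset.sum_congr rfl fun m hm => ?_
    rw [hamn m (hSkMk m hm), div_pow, sq_abs]
    ring
  have hsum2 : (∑ m ∈ Mk A₀ T \ Sk A₀ (e / 2) T, ‖am m‖ / m) ≤ (1 / D) * T ^ (-e / 4) := by
    have h1 := gN a ha32 A₀ hk1
    calc (∑ m ∈ Mk A₀ T \ Sk A₀ (e / 2) T, ‖am m‖ / m)
        = (1 / D) * ∑ m ∈ Mk A₀ T \ Sk A₀ (e / 2) T, |Aco η a T m| / m := by
          rw [Finset.mul_sum]
          refine Finset.sum_congr rfl fun m hm => ?_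
          rw [hamn m (Finset.mem_sdiff.1 hm).1]
          ring
      _ ≤ _ := mul_le_mul_of_nonneg_left h1 (by positivity)
  have hmain := gP k hkN α ⟨hα, by linarith⟩ am ham1
  rw [hint, hsum1] at hmain
  obtain ⟨gS3, gS4⟩ := gS k hkN
  set I : ℝ := ∫ v, g v ^ 2 with hI
  set Rr : ℝ := ∫ s, ρ s with hRr
  set G : ℝ := (3 / 2 - α - A₀ - 2 * c - c) * T * L * Rr * I - C k * T with hG
  have hI0 : 0 ≤ I := eta_int_nonneg g
  have hI1 : I ≤ 1 := eta_int_le_one hg
  have hTL : 0 < T * L ^ (n + 1) := by positivity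
  have hTT : T ≤ T * L ^ (n + 1) := le_mul_of_one_le_right hT0.le (one_le_pow₀ hL1)
  -- `U ≥ S2 G - 2 e T`
  have hU1 : S2 * G - 2 * e * T ≤ U := by
    have e3 : T ^ (-e / 4) * T ^ (1 + c) = T ^ (-(e / 8)) * T := by
      rw [← Real.rpow_add hT0, ← Real.rpow_add_one hT0.ne']
      congr 1
      rw [hc]
      ring
    have e4 : T ^ (1 - δ k) = T ^ (-δ k) * T := by
      rw [← Real.rpow_add_one hT0.ne']
      congr 1
      ring
    have e5 : D ^ 2 = L ^ (2 * n) := by rw [hD, ← pow_mul, mul_comm]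
    have h3 : D * (T ^ (-e / 4) * T ^ (1 + c)) ≤ e * T := by
      rw [e3, ← mul_assoc]
      exact mul_le_mul_of_nonneg_right gS2 hT0.le
    have h4 : D ^ 2 * T ^ (1 - δ k) ≤ e * T := by
      rw [e4, e5, ← mul_assoc]
      exact mul_le_mul_of_nonneg_right gS4 hT0.le
    exact alg_U hD0 hmain hsum2 (Real.rpow_nonneg hT0.le (1 + c)) h3 h4
  -- the product
  set B : ℝ := ∏ j, (a j * ∫ v, η j v ^ 2) with hB
  have hx0 : ∀ j, 0 ≤ a j * ∫ v, η j v ^ 2 := fun j => mul_nonneg (ha0 j) (eta_int_nonneg _)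
  have hx1 : ∀ j, a j * ∫ v, η j v ^ 2 ≤ 1 := fun j => by
    have h1 : a j * ∫ v, η j v ^ 2 ≤ 1 * 1 :=
      mul_le_mul (by linarith [haS j]) (eta_int_le_one (hη j)) (eta_int_nonneg _) zero_le_one
    linarith
  have hB0 : 0 ≤ B := Finset.prod_nonneg fun j _ => hx0 j
  have hB1 : B ≤ 1 := Finset.prod_le_one (fun j _ => hx0 j) (fun j _ => hx1 j)
  by_cases hcase : s * I ≤ 4 * e
  · refine le_trans ?_ hU0
    apply mul_nonpos_of_nonpos_of_nonneg _ hTL.le
    have h1 : s * B * I ≤ s * I := by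
      have h2 : 0 ≤ s * I := mul_nonneg (by linarith) hI0
      calc s * B * I = B * (s * I) := by ring
        _ ≤ 1 * (s * I) := mul_le_mul_of_nonneg_right hB1 h2
        _ = s * I := one_mul _
    linarith
  · push Not at hcase
    have hq : s - 5 * e / 8 ≤ 3 / 2 - α - A₀ - 2 * c - c := by
      rw [hsdef]
      have : c = e / 8 := hc
      linarith
    have h7 : C k * T ≤ e * (T * L) := by
      calc C k * T ≤ e * L * T := mul_le_mul_of_nonneg_right gS3 hT0.le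
        _ = e * (T * L) := by ring
    have hGlow : (s * I - 3 * e) * (T * L) ≤ G :=
      alg_G he he1 hs (by linarith) hI0 hI1 hρI hq (by positivity) h7
    have hS2low : (B - e) * L ^ n ≤ S2 := by
      refine le_trans ?_ (gM a ha32 A₀ hk1)
      set z : Fin n → ℝ := fun j => ∑ p ∈ (Finset.Icc 1 ⌊T ^ (2 : ℝ)⌋₊).filter Nat.Prime,
        phi (η j) (a j) T p ^ 2 / p with hz'
      have hz0 : ∀ j, 0 ≤ z j := fun j => Finset.sum_nonneg fun p _ => by positivity
      have h1 := prod_lower (Finset.univ : Finset (Fin n)) (x := fun j => a j * ∫ v, η j v ^ 2)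
        (y := fun j => z j / L) (e := e / (n + 1)) (by positivity) hx0 hx1
        (fun j => div_nonneg (hz0 j) hL0.le) (fun j => by
          rw [le_div_iff₀ hL0]
          exact gz j (a j) (ha32 j))
      rw [Finset.prod_div_distrib, Finset.prod_const, Finset.card_univ, Fintype.card_fin] at h1
      have h2 : (n : ℝ) * (e / (n + 1)) ≤ e := by
        rw [mul_div_assoc', div_le_iff₀ (by positivity)]
        linarith
      have h3 : B - e ≤ (∏ j, z j) / L ^ n := by linarith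
      rwa [le_div_iff₀ (by positivity)] at h3
    have hprod : (s * B * I - 4 * e) * (T * L ^ (n + 1)) ≤ S2 * G :=
      alg_prod he (by linarith) (by linarith) hI0 hI1 hB0 hB1 hcase hT0 hL0 hS20 hS2low hGlow
    have h9 : 2 * e * T ≤ 2 * e * (T * L ^ (n + 1)) :=
      mul_le_mul_of_nonneg_left hTT (by positivity)
    have h10 : 0 ≤ e * (T * L ^ (n + 1)) := by positivity
    have e11 : (s * B * I - 8 * e) * (T * L ^ (n + 1)) =
        (s * B * I - 4 * e) * (T * L ^ (n + 1)) - 4 * (e * (T * L ^ (n + 1))) := by ring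
    rw [e11]
    linarith

end Pool.Agent.MP_67227b_nt.Gk
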