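import Mathlib
import Pool.Agent.MP_67227b_nt.Gg.GgVf
import Pool.Agent.MP_67227b_nt.Gk.GkZd
import Pool.Agent.MP_67227b_nt.Gk.GkZe

set_option autoImplicit false

open Filter Topology Set MeasureTheory Complex
open scoped Real ContDiff ArithmeticFunction ArithmeticFunction.Moebius

namespace Pool.Agent.MP_67227b_nt.Gk

open Pool.Agent.MP_67227b_nt
open Pool.Agent.MP_67227b_nt.Gg (Eta Rho PP hB hT)
open Pool.Agent.MP_67227b_nt.Mo

private theorem ZS_x (g t : ℝ) : (g - t) * (2 * π) / (2 * π) = g - t := by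
  have hpi := Real.pi_pos
  field_simp

private theorem ZS_gs {X : ℝ} {η : ℝ → ℝ} (hη : Eta X η) (α T : ℝ) (g : ℝ) :
    Continuous fun t : ℝ => gs (hB η α T) (((g - t : ℝ)) : ℂ) := by
  have hc : Continuous (gs (Fb.cf η)) :=
    continuous_gs (le_max_right X 0) (Gg.bump_cf (hη.mono (le_max_left X 0)))
  have h1 : (fun t : ℝ => gs (hB η α T) ((g - t : ℝ) : ℂ)) = fun t : ℝ =>
      Complex.exp (I * ((α * Real.log T * (g - t) : ℝ) : ℂ)) *
        gs (Fb.cf η) (((g - t) / (2 * π) : ℝ) : ℂ) := funext fun t => Gg.gs_hB η α T (g - t)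
  rw [h1]
  have h2 : Continuous fun t : ℝ => gs (Fb.cf η) (((g - t) / (2 * π) : ℝ) : ℂ) := by
    apply hc.comp
    fun_prop
  have h3 : Continuous fun t : ℝ => Complex.exp (I * ((α * Real.log T * (g - t) : ℝ) : ℂ)) := by
    fun_prop
  exact h3.mul h2

private theorem ZS_log {T : ℝ} (hT : 3 ≤ T) : Real.log (T + 3) ≤ 2 * Real.log T := by
  have hT0 : 0 < T := by linarith
  rw [← Real.log_rpow hT0]
  apply Real.log_le_log (by linarith)
  have : T ^ (2 : ℝ) = T ^ 2 := by exact_mod_cast Real.rpow_natCast T 2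
  rw [this]
  nlinarith

/-- Module ZS (a). `Gg.gs_hB`: `gs (hB ..) x = e^{iαLx} gs (cf η) (x/2π)`, which is
`∫ η(v) e^{i(αL + v)x} dv`. -/
theorem linStat_eq (η : ℝ → ℝ) (α T t : ℝ) :
    linStat η α T t = ED92.SZT (2 * π) T (hB η α T) t := by
  have hpc : (π : ℂ) ≠ 0 := by exact_mod_cast Real.pi_ne_zero
  unfold linStat ED92.SZT
  refine Finset.sum_congr rfl fun j _ => ?_
  rw [ZS_x, Gg.gs_hB]
  unfold gs
  rw [← integral_const_mul]
  refine integral_congr_ae (Eventually.of_forall fun v => ?_)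
  show (η v : ℂ) * Complex.exp (I * (((α * Real.log T + v) * (zetaOrdinate j - t) : ℝ) : ℂ)) =
    Complex.exp (I * ((α * Real.log T * (zetaOrdinate j - t) : ℝ) : ℂ)) *
      ((η v : ℂ) * Complex.exp (2 * π * I * v * (((zetaOrdinate j - t) / (2 * π) : ℝ) : ℂ)))
  have h1 : Complex.exp (I * (((α * Real.log T + v) * (zetaOrdinate j - t) : ℝ) : ℂ)) =
      Complex.exp (I * ((α * Real.log T * (zetaOrdinate j - t) : ℝ) : ℂ)) *
        Complex.exp (2 * π * I * v * (((zetaOrdinate j - t) / (2 * π) : ℝ) : ℂ)) := by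
    rw [← Complex.exp_add]
    congr 1
    push_cast
    field_simp
  rw [h1]
  ring

/-- Module ZS (b). -/
theorem continuous_linStat {X : ℝ} {η : ℝ → ℝ} (hη : Eta X η) (α T : ℝ) :
    Continuous (linStat η α T) := by
  have h1 : linStat η α T = fun t => ∑ j ∈ PT goodFamily_zeta T,
      gs (hB η α T) ((zetaOrdinate j - t : ℝ) : ℂ) := by
    funext t
    rw [linStat_eq]
    unfold ED92.SZT
    refine Finset.sum_congr rfl fun j _ => ?_
    rw [ZS_x]
  rw [h1]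
  exact continuous_finsetSum _ fun j _ => ZS_gs hη α T _

/-- Module ZS (c). `ED92.norm_SZT_le`, `Gg.DB_hB` (with `max X 0`), `ED92.exists_wT`. -/
theorem norm_linStat_le (hRH : RiemannHypothesis) {X : ℝ} {η : ℝ → ℝ} (hη : Eta X η) :
    ∃ C : ℝ, 0 < C ∧ ∀ᶠ T : ℝ in atTop, ∀ α t : ℝ, ‖linStat η α T t‖ ≤ C * Real.log T := by
  obtain ⟨C, hC, hDB⟩ := Gg.DB_hB (le_max_right X 0) (hη.mono (le_max_left X 0))
  obtain ⟨D, hD, hW⟩ := ED92.exists_wT hRH
  refine ⟨C * (D * 2), by positivity, ?_⟩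
  filter_upwards [eventually_ge_atTop 3] with T hT α t
  rw [linStat_eq]
  refine (ED92.norm_SZT_le hC (hDB α T).1 (le_refl _) T t).trans ?_
  have h1 : ED92.wT T t ≤ D * (2 * Real.log T) :=
    (hW T t (by linarith)).trans (mul_le_mul_of_nonneg_left (ZS_log hT) hD.le)
  calc C * ED92.wT T t ≤ C * (D * (2 * Real.log T)) := mul_le_mul_of_nonneg_left h1 hC.le
    _ = C * (D * 2) * Real.log T := by ring

/-- Module ZS (d). `SZ_add_PP_low`, and `‖SZ - SZT‖ ≤ C/A² wZ t` with `A = T^(3/4)`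
(`ED92.norm_SZ_sub_SZT`, `ED92.exists_wZ`; `A ≤ κT` for `T` large). -/
theorem linStat_add_PP (hRH : RiemannHypothesis) {X κ δ : ℝ} (hκ : 0 < κ)
    (hδ : 0 < δ) (hδ1 : δ ≤ 1) {η : ℝ → ℝ} (hη : Eta X η) :
    ∀ᶠ T : ℝ in atTop, ∀ α ∈ Icc δ (3 / 2), ∀ t ∈ Icc (κ * T) (T - T ^ (3 / 4 : ℝ)),
      ‖linStat η α T t + PP η α T t‖ ≤ T ^ (-δ / 2) := by
  have hX' : (0 : ℝ) ≤ max X 0 := le_max_right X 0
  have hη' := hη.mono (le_max_left X 0)
  obtain ⟨C, hC, hDB⟩ := Gg.DB_hB hX' hη'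
  obtain ⟨D, hD, hZ⟩ := ED92.exists_wZ hRH
  have hsm : ∀ᶠ T : ℝ in atTop, T ^ (-(1 / 4) : ℝ) ≤ κ :=
    (tendsto_rpow_neg_atTop (by norm_num)).eventually_le_const hκ
  have hlog : ∀ᶠ T : ℝ in atTop, 4 * C * D * Real.log T ≤ T := by
    have h := (Real.isLittleO_log_id_atTop).bound (show (0 : ℝ) < 1 / (4 * C * D) by positivity)
    filter_upwards [h, eventually_ge_atTop (1 : ℝ)] with T hT hT1
    rw [Real.norm_of_nonneg (Real.log_nonneg hT1), id, Real.norm_of_nonneg (by linarith)] at hT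
    calc 4 * C * D * Real.log T ≤ 4 * C * D * (1 / (4 * C * D) * T) :=
          mul_le_mul_of_nonneg_left hT (by positivity)
      _ = T := by field_simp
  have hδ2 : ∀ᶠ T : ℝ in atTop, 2 ≤ T ^ (δ / 2) :=
    (tendsto_rpow_atTop (by positivity)).eventually_ge_atTop _
  filter_upwards [SZ_add_PP_low hRH hX' hκ hδ hδ1 hη', hsm, hlog, hδ2, eventually_ge_atTop 3]
    with T hSP hq hl h2 hT3 α hα t ht
  have hT0 : 0 < T := by linarith
  have hT1 : 1 < T := by linarith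
  have hL0 : 0 < Real.log T := Real.log_pos hT1
  have hA : 0 < T ^ (3 / 4 : ℝ) := Real.rpow_pos_of_pos hT0 _
  have e34 : T ^ (3 / 4 : ℝ) = T * T ^ (-(1 / 4) : ℝ) := by
    rw [← Real.rpow_one_add' hT0.le (by norm_num)]; norm_num
  have hAk : T ^ (3 / 4 : ℝ) ≤ κ * T := by
    rw [e34]
    have := mul_le_mul_of_nonneg_left hq hT0.le
    linarith
  have hAt : T ^ (3 / 4 : ℝ) ≤ t := hAk.trans ht.1
  have h3 := ED92.norm_SZ_sub_SZT hRH hC (hDB α T).1 (le_refl (2 * π)) hA hAt ht.2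
  have h4 : ED92.wZ t ≤ D * (2 * Real.log T) :=
    (hZ T t (hA.le.trans hAt) (by linarith [ht.2])).trans
      (mul_le_mul_of_nonneg_left (ZS_log hT3) hD.le)
  have hA2e : (T ^ (3 / 4 : ℝ)) ^ 2 = T * T ^ (1 / 2 : ℝ) := by
    rw [← Real.rpow_natCast (T ^ (3 / 4 : ℝ)) 2, ← Real.rpow_mul hT0.le,
      ← Real.rpow_one_add' hT0.le (by norm_num)]
    norm_num
  have hhalf : T ^ (-(1 / 2) : ℝ) ≤ T ^ (-δ / 2) :=
    Real.rpow_le_rpow_of_exponent_le hT1.le (by linarith)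
  have h5 : C / (T ^ (3 / 4 : ℝ)) ^ 2 * ED92.wZ t ≤ T ^ (-δ / 2) / 2 := by
    have hp : 0 < T ^ (1 / 2 : ℝ) := Real.rpow_pos_of_pos hT0 _
    calc C / (T ^ (3 / 4 : ℝ)) ^ 2 * ED92.wZ t ≤
          C / (T ^ (3 / 4 : ℝ)) ^ 2 * (D * (2 * Real.log T)) :=
          mul_le_mul_of_nonneg_left h4 (by positivity)
      _ = 4 * C * D * Real.log T / (2 * (T * T ^ (1 / 2 : ℝ))) := by
          rw [hA2e]
          field_simp
          ring
      _ ≤ T / (2 * (T * T ^ (1 / 2 : ℝ))) := div_le_div_of_nonneg_right hl (by positivity)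
      _ = T ^ (-(1 / 2) : ℝ) / 2 := by
          rw [Real.rpow_neg hT0.le]
          field_simp
      _ ≤ T ^ (-δ / 2) / 2 := div_le_div_of_nonneg_right hhalf (by norm_num)
  have h6 : T ^ (-δ) ≤ T ^ (-δ / 2) / 2 := by
    have h7 : T ^ (-δ / 2) = T ^ (-δ) * T ^ (δ / 2) := by
      rw [← Real.rpow_add hT0]
      congr 1
      ring
    rw [h7, le_div_iff₀ (by norm_num)]
    exact mul_le_mul_of_nonneg_left h2 (Real.rpow_nonneg hT0.le _)
  have h7 := hSP α hα t ht.1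
  have h8 : linStat η α T t + PP η α T t =
      (SZ (2 * π) (hB η α T) t + PP η α T t) -
        (SZ (2 * π) (hB η α T) t - ED92.SZT (2 * π) T (hB η α T) t) := by
    rw [linStat_eq]
    ring
  rw [h8]
  refine (norm_sub_le _ _).trans ?_
  linarith [h3.trans h5]

end Pool.Agent.MP_67227b_nt.Gk
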