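import Mathlib
import Pool.Agent.MP_67227b_nt.Gk.GkZs

set_option autoImplicit false

open Filter Topology Set MeasureTheory Complex
open scoped Real ContDiff ArithmeticFunction ArithmeticFunction.Moebius

namespace Pool.Agent.MP_67227b_nt.Gk

open Pool.Agent.MP_67227b_nt
open Pool.Agent.MP_67227b_nt.Gg (Eta Rho PP hB hT)
open Pool.Agent.MP_67227b_nt.Mo

private theorem ZP_step {X Y x y B d : ℝ} {c : ℕ} (hB : 1 ≤ B) (hd : 0 ≤ d) (hX0 : 0 ≤ X)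
    (hXB : X ≤ B ^ c) (hy0 : 0 ≤ y) (hyB : y ≤ B) (h : y ≤ x + d)
    (hY : Y ≤ X + c * B ^ c * d) : y * Y ≤ x * X + ((c + 1 : ℕ) : ℝ) * B ^ (c + 1) * d := by
  have hB0 : 0 ≤ B := by linarith
  have hc0 : (0 : ℝ) ≤ c := Nat.cast_nonneg c
  have hp : 0 ≤ B ^ c := pow_nonneg hB0 c
  have h1 : y * Y ≤ y * (X + c * B ^ c * d) := mul_le_mul_of_nonneg_left hY hy0
  have h2 : y * X ≤ (x + d) * X := mul_le_mul_of_nonneg_right h hX0
  have h3 : d * X ≤ d * B ^ c := mul_le_mul_of_nonneg_left hXB hd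
  have h4 : d * B ^ c ≤ d * B ^ (c + 1) :=
    mul_le_mul_of_nonneg_left (pow_le_pow_right₀ hB (Nat.le_succ c)) hd
  have h5 : y * (c * B ^ c * d) ≤ B * (c * B ^ c * d) :=
    mul_le_mul_of_nonneg_right hyB (by positivity)
  have h6 : B * (c * B ^ c * d) = c * B ^ (c + 1) * d := by
    rw [pow_succ]
    ring
  push_cast
  calc y * Y ≤ y * X + y * (c * B ^ c * d) := by rw [← mul_add]; exact h1
    _ ≤ (x + d) * X + c * B ^ (c + 1) * d := by linarith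
    _ ≤ x * X + (c + 1) * B ^ (c + 1) * d := by linarith

private theorem ZP_prod {ι : Type*} (s : Finset ι) (x y : ι → ℝ) {B d : ℝ} (hB : 1 ≤ B)
    (hd : 0 ≤ d) (hx0 : ∀ i, 0 ≤ x i) (hxB : ∀ i, x i ≤ B) (hy0 : ∀ i, 0 ≤ y i)
    (hyB : ∀ i, y i ≤ B) (h : ∀ i, y i ≤ x i + d) :
    (0 ≤ ∏ i ∈ s, x i ∧ ∏ i ∈ s, x i ≤ B ^ s.card) ∧
    ∏ i ∈ s, y i ≤ ∏ i ∈ s, x i + s.card * B ^ s.card * d := by
  classical
  have hB0 : 0 ≤ B := by linarith
  have h0 : ∀ s : Finset ι, 0 ≤ ∏ i ∈ s, x i ∧ ∏ i ∈ s, x i ≤ B ^ s.card := by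
    intro s
    refine ⟨Finset.prod_nonneg fun i _ => hx0 i, ?_⟩
    rw [← Finset.prod_const]
    exact Finset.prod_le_prod (fun i _ => hx0 i) fun i _ => hxB i
  refine ⟨h0 s, ?_⟩
  induction s using Finset.induction_on with
  | empty => simp
  | insert a s ha ih =>
    rw [Finset.prod_insert ha, Finset.prod_insert ha, Finset.card_insert_of_notMem ha]
    exact ZP_step hB hd (h0 s).1 (h0 s).2 (hy0 a) (hyB a) (h a) ih

/-- One factor. -/
private theorem ZP_fac {s p : ℂ} {M ε : ℝ} (hs : ‖s‖ ≤ M) (hsp : ‖s + p‖ ≤ ε)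
    (hε0 : 0 ≤ ε) (hε : ε ≤ 1) : ‖s‖ ^ 2 ≤ (M + 1) ^ 2 ∧ ‖p‖ ^ 2 ≤ (M + 1) ^ 2 ∧
      ‖p‖ ^ 2 ≤ ‖s‖ ^ 2 + 2 * ε * (M + 1) := by
  have h0 := norm_nonneg s
  have h0' := norm_nonneg p
  have h1 : ‖p‖ ≤ ‖s‖ + ε := by
    have h2 : p = (s + p) - s := by ring
    rw [h2]
    refine (norm_sub_le _ _).trans ?_
    linarith
  have hM : 0 ≤ M := h0.trans hs
  refine ⟨pow_le_pow_left₀ h0 (by linarith) 2, pow_le_pow_left₀ h0' (by linarith) 2, ?_⟩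
  have h2 : ‖p‖ ^ 2 ≤ (‖s‖ + ε) ^ 2 := pow_le_pow_left₀ h0' h1 2
  have h3 : (‖s‖ + ε) ^ 2 = ‖s‖ ^ 2 + ε * (2 * ‖s‖ + ε) := by ring
  have h4 : ε * (2 * ‖s‖ + ε) ≤ ε * (2 * (M + 1)) :=
    mul_le_mul_of_nonneg_left (by linarith) hε0
  linarith

private theorem ZP_lim (C δ : ℝ) (hC : 0 < C) (hδ : 0 < δ) (n : ℕ) :
    ∀ᶠ T : ℝ in atTop, 2 * ((n + 1 : ℕ) : ℝ) * (C * Real.log T + 1) ^ (2 * n + 3) ≤
      T ^ (δ / 4) := by
  have h1 := isLittleO_log_rpow_rpow_atTop ((2 * n + 3 : ℕ) : ℝ) (show 0 < δ / 4 by positivity)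
  have hK : 0 < 2 * ((n + 1 : ℕ) : ℝ) * (C + 1) ^ (2 * n + 3) := by positivity
  have h2 := h1.bound (show (0 : ℝ) < 1 / (2 * ((n + 1 : ℕ) : ℝ) * (C + 1) ^ (2 * n + 3)) by
    positivity)
  filter_upwards [h2, Real.tendsto_log_atTop.eventually_ge_atTop 1, eventually_gt_atTop 1]
    with T hT hL hT1
  have hT0 : 0 < T := by linarith
  rw [Real.rpow_natCast, Real.norm_of_nonneg (by positivity), Real.norm_of_nonneg (by positivity),
    one_div, le_inv_mul_iff₀ hK] at hT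
  refine le_trans ?_ hT
  have h3 : (C * Real.log T + 1) ^ (2 * n + 3) ≤ ((C + 1) * Real.log T) ^ (2 * n + 3) :=
    pow_le_pow_left₀ (by positivity) (by linarith) _
  rw [mul_pow] at h3
  calc 2 * ((n + 1 : ℕ) : ℝ) * (C * Real.log T + 1) ^ (2 * n + 3) ≤
        2 * ((n + 1 : ℕ) : ℝ) * ((C + 1) ^ (2 * n + 3) * Real.log T ^ (2 * n + 3)) :=
        mul_le_mul_of_nonneg_left h3 (by positivity)
    _ = _ := by ring

/-- Module ZP. PROOF. On `I = [κT, T - T^(3/4)] ⊆ [0, T]` every factor satisfies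
`‖S‖ ≤ CL`, `‖P‖ ≤ CL + 1` and `‖S + P‖ ≤ T^(-δ/2)` (`linStat_add_PP`, `norm_linStat_le`), so
`|‖S‖² - ‖P‖²| ≤ 2(CL + 1) T^(-δ/2)` and the products differ by
`≤ (n+1) (CL+1)^(2n+2) · 2 T^(-δ/2)`; integrate. Outside `I` the integrand is `≥ 0`. -/
theorem prod_compare (hRH : RiemannHypothesis) {X κ δ : ℝ} (hκ : 0 < κ) (hκ1 : κ < 1)
    (hδ : 0 < δ) (hδ1 : δ ≤ 1) {n : ℕ} {η : Fin n → ℝ → ℝ} {g : ℝ → ℝ} (hη : ∀ j, Eta X (η j))
    (hg : Eta X g) :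
    ∀ᶠ T : ℝ in atTop, ∀ a : Fin n → ℝ, (∀ j, a j ∈ Icc δ (3 / 2)) → ∀ α ∈ Icc (1 : ℝ) (3 / 2),
      (∫ t in (κ * T)..(T - T ^ (3 / 4 : ℝ)), (∏ j, ‖PP (η j) (a j) T t‖ ^ 2) *
        ‖PP g α T t‖ ^ 2) - T ^ (1 - δ / 4) ≤
      ∫ t in (0 : ℝ)..T, (∏ j, ‖linStat (η j) (a j) T t‖ ^ 2) * ‖linStat g α T t‖ ^ 2 := by
  choose C hC hCb using fun j => norm_linStat_le hRH (hη j)
  obtain ⟨C₁, hC₁, hCb₁⟩ := norm_linStat_le hRH hg
  set C₀ : ℝ := C₁ + ∑ j, C j with hC₀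
  have hsum0 : 0 ≤ ∑ j, C j := Finset.sum_nonneg fun j _ => (hC j).le
  have hC0 : 0 < C₀ := by linarith
  have hCj : ∀ j, C j ≤ C₀ := by
    intro j
    have := Finset.single_le_sum (fun j _ => (hC j).le) (Finset.mem_univ j)
    linarith
  have hC1 : C₁ ≤ C₀ := by linarith
  have hsm : ∀ᶠ T : ℝ in atTop, T ^ (-(1 / 4) : ℝ) ≤ 1 - κ :=
    (tendsto_rpow_neg_atTop (by norm_num)).eventually_le_const (by linarith)
  have hS := eventually_all.2 fun j => linStat_add_PP hRH hκ hδ hδ1 (hη j)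
  have hCall := eventually_all.2 hCb
  filter_upwards [hS, linStat_add_PP hRH hκ hδ hδ1 hg, hCall, hCb₁, hsm,
    ZP_lim C₀ δ hC0 hδ n, eventually_gt_atTop 3] with T hS hSg hCall hCg hq hlim hT3 a ha α hα
  have hT0 : 0 < T := by linarith
  have hT1 : 1 < T := by linarith
  have hL0 : 0 < Real.log T := Real.log_pos hT1
  have e34 : T ^ (3 / 4 : ℝ) = T * T ^ (-(1 / 4) : ℝ) := by
    rw [← Real.rpow_one_add' hT0.le (by norm_num)]; norm_num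
  have hA : 0 < T ^ (3 / 4 : ℝ) := Real.rpow_pos_of_pos hT0 _
  have hab : κ * T ≤ T - T ^ (3 / 4 : ℝ) := by
    rw [e34]
    have := mul_le_mul_of_nonneg_left hq hT0.le
    linarith
  have hα' : α ∈ Icc δ (3 / 2) := ⟨hδ1.trans hα.1, hα.2⟩
  set ε : ℝ := T ^ (-δ / 2) with hε
  have hε0 : 0 ≤ ε := Real.rpow_nonneg hT0.le _
  have hε1 : ε ≤ 1 := Real.rpow_le_one_of_one_le_of_nonpos hT1.le (by linarith)
  set M : ℝ := C₀ * Real.log T with hM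
  have hM0 : 0 ≤ M := by positivity
  set B : ℝ := (M + 1) ^ 2 with hB
  have hB1 : 1 ≤ B := one_le_pow₀ (by linarith)
  set d : ℝ := 2 * ε * (M + 1) with hd
  have hd0 : 0 ≤ d := by positivity
  -- the pointwise bound
  have hpt : ∀ t ∈ Icc (κ * T) (T - T ^ (3 / 4 : ℝ)),
      (∏ j, ‖PP (η j) (a j) T t‖ ^ 2) * ‖PP g α T t‖ ^ 2 ≤
      (∏ j, ‖linStat (η j) (a j) T t‖ ^ 2) * ‖linStat g α T t‖ ^ 2 +
        ((n + 1 : ℕ) : ℝ) * B ^ (n + 1) * d := by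
    intro t ht
    have hj : ∀ j, ‖linStat (η j) (a j) T t‖ ≤ M := fun j => (hCall j (a j) t).trans
      (mul_le_mul_of_nonneg_right (hCj j) hL0.le)
    have hgM : ‖linStat g α T t‖ ≤ M := (hCg α t).trans (mul_le_mul_of_nonneg_right hC1 hL0.le)
    have hfj := fun j => ZP_fac (hj j) (hS j (a j) (ha j) t ht) hε0 hε1
    have hfg := ZP_fac hgM (hSg α hα' t ht) hε0 hε1
    obtain ⟨⟨p1, p2⟩, p3⟩ := ZP_prod Finset.univ (fun j => ‖linStat (η j) (a j) T t‖ ^ 2)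
      (fun j => ‖PP (η j) (a j) T t‖ ^ 2) hB1 hd0 (fun j => by positivity) (fun j => (hfj j).1)
      (fun j => by positivity) (fun j => (hfj j).2.1) (fun j => (hfj j).2.2)
    rw [Finset.card_univ, Fintype.card_fin] at p2 p3
    have h1 := ZP_step hB1 hd0 p1 p2 (sq_nonneg ‖PP g α T t‖) hfg.2.1 hfg.2.2 p3
    rw [mul_comm (∏ j, ‖PP (η j) (a j) T t‖ ^ 2), mul_comm (∏ j, ‖linStat (η j) (a j) T t‖ ^ 2)]
    exact h1
  -- continuity
  have hPc : Continuous fun t => (∏ j, ‖PP (η j) (a j) T t‖ ^ 2) * ‖PP g α T t‖ ^ 2 := by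
    refine Continuous.mul ?_ ((Gg.continuous_PP g α T).norm.pow 2)
    exact continuous_finsetProd _ fun j _ => (Gg.continuous_PP (η j) (a j) T).norm.pow 2
  have hSc : Continuous fun t => (∏ j, ‖linStat (η j) (a j) T t‖ ^ 2) *
      ‖linStat g α T t‖ ^ 2 := by
    refine Continuous.mul ?_ ((continuous_linStat hg α T).norm.pow 2)
    exact continuous_finsetProd _ fun j _ => (continuous_linStat (hη j) (a j) T).norm.pow 2
  set E : ℝ := ((n + 1 : ℕ) : ℝ) * B ^ (n + 1) * d with hE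
  have hE0 : 0 ≤ E := by positivity
  have h1 : (∫ t in (κ * T)..(T - T ^ (3 / 4 : ℝ)), (∏ j, ‖PP (η j) (a j) T t‖ ^ 2) *
      ‖PP g α T t‖ ^ 2) ≤ ∫ t in (κ * T)..(T - T ^ (3 / 4 : ℝ)),
        ((∏ j, ‖linStat (η j) (a j) T t‖ ^ 2) * ‖linStat g α T t‖ ^ 2 + E) :=
    intervalIntegral.integral_mono_on hab (hPc.intervalIntegrable _ _)
      ((hSc.add continuous_const).intervalIntegrable _ _) hpt
  rw [intervalIntegral.integral_add (hSc.intervalIntegrable _ _)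
    (continuous_const.intervalIntegrable _ _), intervalIntegral.integral_const, smul_eq_mul] at h1
  have h2 : (∫ t in (κ * T)..(T - T ^ (3 / 4 : ℝ)), (∏ j, ‖linStat (η j) (a j) T t‖ ^ 2) *
      ‖linStat g α T t‖ ^ 2) ≤
      ∫ t in (0 : ℝ)..T, (∏ j, ‖linStat (η j) (a j) T t‖ ^ 2) * ‖linStat g α T t‖ ^ 2 := by
    refine intervalIntegral.integral_mono_interval (by positivity) hab (by linarith)
      (ae_of_all _ fun t => ?_) (hSc.intervalIntegrable _ _)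
    exact mul_nonneg (Finset.prod_nonneg fun j _ => by positivity) (by positivity)
  have h3 : (T - T ^ (3 / 4 : ℝ) - κ * T) * E ≤ T ^ (1 - δ / 4) := by
    have h4 : (T - T ^ (3 / 4 : ℝ) - κ * T) * E ≤ T * E :=
      mul_le_mul_of_nonneg_right (by
        have := mul_pos hκ hT0
        linarith) hE0
    refine h4.trans ?_
    have h5 : E = 2 * ((n + 1 : ℕ) : ℝ) * (M + 1) ^ (2 * n + 3) * ε := by
      rw [hE, hB, hd, ← pow_mul]
      have : (M + 1) ^ (2 * n + 3) = (M + 1) ^ (2 * (n + 1)) * (M + 1) := by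
        rw [← pow_succ]
        congr 1
      rw [this]
      ring
    have h6 : T ^ (1 - δ / 4) = T * (T ^ (δ / 4) * ε) := by
      rw [hε, ← Real.rpow_add hT0, ← Real.rpow_one_add' hT0.le (by linarith)]
      congr 1
      ring
    rw [h5, h6]
    exact mul_le_mul_of_nonneg_left (mul_le_mul_of_nonneg_right hlim hε0) hT0.le
  linarith

end Pool.Agent.MP_67227b_nt.Gk
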