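import Mathlib
import Pool.Agent.MP_67227b_nt.Gk.GkZf
import Pool.Agent.MP_67227b_nt.Gk.GkZp

set_option autoImplicit false

open Filter Topology Set MeasureTheory Complex
open scoped Real ContDiff ArithmeticFunction ArithmeticFunction.Moebius

namespace Pool.Agent.MP_67227b_nt.Gk

open Pool.Agent.MP_67227b_nt
open Pool.Agent.MP_67227b_nt.Gg (Eta Rho PP hB hT)
open Pool.Agent.MP_67227b_nt.Mo

/-- The lower bound for the sums over the zeros, for nonnegative frequencies and profiles of the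
class `Eta`. -/
theorem zeros_core (hRH : RiemannHypothesis) {X : ℝ} {n : ℕ} {η : Fin n → ℝ → ℝ} {g : ℝ → ℝ}
    (hη : ∀ j, Eta X (η j)) (hη0 : ∀ j v, 0 ≤ η j v) (hg : Eta X g) {ε : ℝ} (hε : 0 < ε) :
    ∀ᶠ T : ℝ in atTop, ∀ a : Fin n → ℝ, (∀ j, 0 ≤ a j) → ∀ α : ℝ, 1 ≤ α →
      ((3 / 2 - α - ∑ j, a j) * (∏ j, (a j * ∫ v, η j v ^ 2)) * (∫ v, g v ^ 2) - ε) *
        (T * Real.log T ^ (n + 1)) ≤
      ∫ t in (0 : ℝ)..T, (∏ j, ‖linStat (η j) (a j) T t‖ ^ 2) * ‖linStat g α T t‖ ^ 2 := by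
  obtain ⟨e, he, he1, heε⟩ : ∃ e : ℝ, 0 < e ∧ e ≤ 1 / 16 ∧ 16 * e ≤ ε := by
    refine ⟨min ε 1 / 16, by positivity, ?_, ?_⟩
    · have := min_le_right ε 1
      linarith
    · have := min_le_left ε 1
      linarith
  obtain ⟨κ, hκ, hκ1, hcore⟩ := prime_core hη hη0 hg he he1
  have hcmp := prod_compare hRH hκ hκ1 he (by linarith : e ≤ 1) hη hg
  have hsm : ∀ᶠ T : ℝ in atTop, T ^ (-(e / 4)) ≤ e :=
    (tendsto_rpow_neg_atTop (by positivity)).eventually_le_const he
  filter_upwards [hcore, hcmp, hsm, eventually_gt_atTop 3] with T g1 g2 g3 hT3 a ha α hα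
  have hT0 : 0 < T := by linarith
  have hL1 : 1 ≤ Real.log T := by
    rw [Real.le_log_iff_exp_le hT0]
    exact Real.exp_one_lt_d9.le.trans (by linarith)
  have hTL : 0 < T * Real.log T ^ (n + 1) := by positivity
  have hTT : T ≤ T * Real.log T ^ (n + 1) := le_mul_of_one_le_right hT0.le (one_le_pow₀ hL1)
  have hR0 : 0 ≤ ∫ t in (0 : ℝ)..T, (∏ j, ‖linStat (η j) (a j) T t‖ ^ 2) *
      ‖linStat g α T t‖ ^ 2 :=
    intervalIntegral.integral_nonneg hT0.le fun t _ => by positivity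
  set I : ℝ := ∫ v, g v ^ 2 with hI
  have hI0 : 0 ≤ I := eta_int_nonneg g
  have hI1 : I ≤ 1 := eta_int_le_one hg
  set B : ℝ := ∏ j, (a j * ∫ v, η j v ^ 2) with hB
  have hx0 : ∀ j, 0 ≤ a j * ∫ v, η j v ^ 2 := fun j => mul_nonneg (ha j) (eta_int_nonneg _)
  have hB0 : 0 ≤ B := Finset.prod_nonneg fun j _ => hx0 j
  have haS : ∀ j, a j ≤ ∑ i, a i := fun j =>
    Finset.single_le_sum (f := a) (fun i _ => ha i) (Finset.mem_univ j)
  set s : ℝ := 3 / 2 - α - ∑ j, a j with hs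
  -- the trivial range
  by_cases h0 : s < 16 * e
  · refine le_trans ?_ hR0
    apply mul_nonpos_of_nonpos_of_nonneg _ hTL.le
    by_cases hs0 : s ≤ 0
    · have h1 : s * B * I ≤ 0 :=
        mul_nonpos_of_nonpos_of_nonneg (mul_nonpos_of_nonpos_of_nonneg hs0 hB0) hI0
      linarith
    · push Not at hs0
      have hx1 : ∀ j, a j * ∫ v, η j v ^ 2 ≤ 1 := fun j => by
        have h1 : a j * ∫ v, η j v ^ 2 ≤ 1 * 1 :=
          mul_le_mul (by linarith [haS j]) (eta_int_le_one (hη j)) (eta_int_nonneg _) zero_le_one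
        linarith
      have hB1 : B ≤ 1 := Finset.prod_le_one (fun j _ => hx0 j) (fun j _ => hx1 j)
      have h1 : s * B * I ≤ s * 1 * 1 := by gcongr
      linarith
  push Not at h0
  by_cases hj : ∀ j, e ≤ a j
  · have k1 := g1 a hj α hα h0
    have k2 := g2 a (fun j => ⟨hj j, by linarith [haS j]⟩) α
      ⟨hα, by linarith [Finset.sum_nonneg fun j (_ : j ∈ Finset.univ) => ha j]⟩
    have e1 : T ^ (1 - e / 4) ≤ e * (T * Real.log T ^ (n + 1)) := by
      have e2 : T ^ (1 - e / 4) = T ^ (-(e / 4)) * T := by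
        rw [← Real.rpow_add_one hT0.ne']
        congr 1
        ring
      rw [e2]
      exact mul_le_mul g3 hTT hT0.le he.le
    have h10 : 0 ≤ e * (T * Real.log T ^ (n + 1)) := by positivity
    have e11 : (s * B * I - ε) * (T * Real.log T ^ (n + 1)) ≤
        (s * B * I - 8 * e) * (T * Real.log T ^ (n + 1)) - e * (T * Real.log T ^ (n + 1)) := by
      rw [← sub_mul]
      apply mul_le_mul_of_nonneg_right _ hTL.le
      linarith
    exact e11.trans ((sub_le_sub k1 e1).trans k2)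
  · -- a small frequency
    push Not at hj
    obtain ⟨i, hi⟩ := hj
    refine le_trans ?_ hR0
    apply mul_nonpos_of_nonpos_of_nonneg _ hTL.le
    have hs12 : s ≤ 1 / 2 := by
      have := Finset.sum_nonneg fun j (_ : j ∈ Finset.univ) => ha j
      linarith
    have hx1 : ∀ j, a j * ∫ v, η j v ^ 2 ≤ 1 := fun j => by
      have h1 : a j * ∫ v, η j v ^ 2 ≤ 1 * 1 :=
        mul_le_mul (by linarith [haS j]) (eta_int_le_one (hη j)) (eta_int_nonneg _) zero_le_one
      linarith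
    have hBe : B ≤ e := by
      rw [hB, ← Finset.mul_prod_erase Finset.univ _ (Finset.mem_univ i)]
      have h1 : ∏ j ∈ Finset.univ.erase i, (a j * ∫ v, η j v ^ 2) ≤ 1 :=
        Finset.prod_le_one (fun j _ => hx0 j) (fun j _ => hx1 j)
      have h2 : a i * ∫ v, η i v ^ 2 ≤ e * 1 :=
        mul_le_mul hi.le (eta_int_le_one (hη i)) (eta_int_nonneg _) he.le
      have h3 : 0 ≤ ∏ j ∈ Finset.univ.erase i, (a j * ∫ v, η j v ^ 2) :=
        Finset.prod_nonneg fun j _ => hx0 j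
      calc _ ≤ e * 1 * 1 := mul_le_mul h2 h1 h3 (by linarith)
        _ = e := by ring
    have h1 : s * B * I ≤ 1 * e * 1 := by
      have : s ≤ 1 := by linarith
      have : 0 ≤ s := by linarith
      gcongr
    linarith

end Pool.Agent.MP_67227b_nt.Gk
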