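import Mathlib
import Pool.Agent.MP_67227b_nt.Gk.GkZh

set_option autoImplicit false

open Filter Topology Set MeasureTheory Complex
open scoped Real ContDiff ArithmeticFunction ArithmeticFunction.Moebius

namespace Pool.Agent.MP_67227b_nt.Gk

open Pool.Agent.MP_67227b_nt
open Pool.Agent.MP_67227b_nt.Gg (Eta Rho PP hB hT)
open Pool.Agent.MP_67227b_nt.Mo

/-- The profile or its reflection. -/
noncomputable def rf (b : Bool) (f : ℝ → ℝ) : ℝ → ℝ := if b then f else fun v => f (-v)

theorem linStat_neg (f : ℝ → ℝ) (a T t : ℝ) :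
    linStat f (-a) T t = (starRingEnd ℂ) (linStat (fun v => f (-v)) a T t) := by
  unfold linStat
  rw [map_sum]
  refine Finset.sum_congr rfl fun i _ => ?_
  rw [← integral_conj, ← integral_neg_eq_self]
  refine integral_congr_ae (Eventually.of_forall fun v => ?_)
  simp only [map_mul, Complex.conj_ofReal]
  congr 1
  rw [← Complex.exp_conj]
  congr 1
  simp only [map_mul, Complex.conj_ofReal, Complex.conj_I]
  push_cast
  ring

theorem norm_linStat_rf (f : ℝ → ℝ) (a T t : ℝ) :
    ‖linStat (rf (decide (0 ≤ a)) f) |a| T t‖ = ‖linStat f a T t‖ := by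
  by_cases h : 0 ≤ a
  · simp only [rf, h, decide_true, if_true, abs_of_nonneg h]
  · have h1 : a < 0 := not_le.1 h
    have h2 : linStat f a T t = (starRingEnd ℂ) (linStat (fun v => f (-v)) (-a) T t) := by
      rw [← linStat_neg, neg_neg]
    rw [h2, RCLike.norm_conj, abs_of_neg h1]
    simp [rf, h]

theorem int_rf (b : Bool) (f : ℝ → ℝ) : ∫ v, rf b f v ^ 2 = ∫ v, f v ^ 2 := by
  cases b
  · simp only [rf, Bool.false_eq_true, if_false]
    exact integral_neg_eq_self (fun v => f v ^ 2) volume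
  · simp [rf]

theorem linStat_div (f : ℝ → ℝ) (lam a T t : ℝ) :
    linStat (fun v => f v / lam) a T t = (1 / lam : ℂ) * linStat f a T t := by
  unfold linStat
  rw [Finset.mul_sum]
  refine Finset.sum_congr rfl fun i _ => ?_
  rw [← integral_const_mul]
  refine integral_congr_ae (Eventually.of_forall fun v => ?_)
  simp only
  push_cast
  ring

theorem norm_linStat_div (f : ℝ → ℝ) {lam : ℝ} (hl : 0 < lam) (a T t : ℝ) :
    ‖linStat (fun v => f v / lam) a T t‖ ^ 2 = (1 / lam) ^ 2 * ‖linStat f a T t‖ ^ 2 := by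
  rw [linStat_div, norm_mul, mul_pow]
  congr 1
  rw [norm_div, norm_one, Complex.norm_real, Real.norm_of_nonneg hl.le]

/-- Scaling: a smooth function of compact support, divided by a large number, is in the class. -/
theorem exists_Eta {f : ℝ → ℝ} (hf : ContDiff ℝ ∞ f) (hc : HasCompactSupport f) :
    ∃ R M : ℝ, 0 < M ∧ ∀ lam : ℝ, M ≤ lam → ∀ X : ℝ, R ≤ X → ∀ b : Bool,
      Eta X (rf b fun v => f v / lam) := by
  obtain ⟨R, hR⟩ := hc.isCompact.isBounded.exists_norm_le
  obtain ⟨M, hM⟩ := hc.exists_bound_of_continuous hf.continuous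
  have hM0 : 0 ≤ M := (norm_nonneg _).trans (hM 0)
  have hsupp : ∀ v, R < |v| → f v = 0 := by
    intro v hv
    by_contra hne
    have h1 : v ∈ tsupport f := subset_tsupport f hne
    have h2 := hR v h1
    rw [Real.norm_eq_abs] at h2
    linarith
  refine ⟨R, M * Real.exp |R| + 1, by positivity, ?_⟩
  intro lam hlam X hX b
  have hlam0 : 0 < lam := lt_of_lt_of_le (by positivity) hlam
  have key : Eta X fun v => f v / lam := by
    refine ⟨hf.div_const lam, fun v hv => ?_, fun v => ?_⟩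
    · rw [hsupp v (hX.trans_lt hv), zero_div]
    · by_cases hv : R < |v|
      · rw [hsupp v hv]
        simp only [zero_div, ne_eq, OfNat.ofNat_ne_zero, not_false_eq_true, zero_pow]
        exact (Real.exp_pos _).le
      · push Not at hv
        have h1 : |f v / lam| ≤ Real.exp (-|v|) := by
          rw [abs_div, abs_of_pos hlam0, div_le_iff₀ hlam0]
          have h2 : |f v| ≤ M := by
            have := hM v
            rwa [Real.norm_eq_abs] at this
          have h3 : Real.exp (-|v|) * (M * Real.exp |R|) ≤ Real.exp (-|v|) * lam :=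
            mul_le_mul_of_nonneg_left (by linarith) (Real.exp_pos _).le
          refine h2.trans (le_trans ?_ h3)
          have h4 : 1 ≤ Real.exp (-|v|) * Real.exp |R| := by
            rw [← Real.exp_add]
            apply Real.one_le_exp
            linarith [le_abs_self R]
          calc M = M * 1 := (mul_one M).symm
            _ ≤ M * (Real.exp (-|v|) * Real.exp |R|) := mul_le_mul_of_nonneg_left h4 hM0
            _ = _ := by ring
        have h2 : (f v / lam) ^ 2 ≤ Real.exp (-|v|) ^ 2 := by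
          rw [← sq_abs]
          exact pow_le_pow_left₀ (abs_nonneg _) h1 2
        refine h2.trans (le_of_eq ?_)
        rw [← Real.exp_nat_mul]
        congr 1
        push_cast
        ring
  cases b
  · simp only [rf, Bool.false_eq_true, if_false]
    refine ⟨key.smooth.comp contDiff_neg, fun v hv => key.supp (-v) (by rwa [abs_neg]),
      fun v => ?_⟩
    have := key.sq_le (-v)
    rwa [abs_neg] at this
  · simp only [rf, if_true]
    exact key

/-- The lower bound for all frequencies and all smooth profiles of compact support. -/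
theorem kform (hRH : RiemannHypothesis) {n : ℕ} {η : Fin n → ℝ → ℝ} {g : ℝ → ℝ}
    (hη : ∀ j, ContDiff ℝ ∞ (η j)) (hηc : ∀ j, HasCompactSupport (η j))
    (hη0 : ∀ j v, 0 ≤ η j v) (hg : ContDiff ℝ ∞ g) (hgc : HasCompactSupport g) {ε : ℝ}
    (hε : 0 < ε) :
    ∀ᶠ T : ℝ in atTop, ∀ a : Fin n → ℝ, ∀ α : ℝ, 1 ≤ |α| →
      ((3 / 2 - |α| - ∑ j, |a j|) * (∏ j, (|a j| * ∫ v, η j v ^ 2)) * (∫ v, g v ^ 2) - ε) *
        (T * Real.log T ^ (n + 1)) ≤
      ∫ t in (0 : ℝ)..T, (∏ j, ‖linStat (η j) (a j) T t‖ ^ 2) * ‖linStat g α T t‖ ^ 2 := by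
  choose R M hM hE using fun j => exists_Eta (hη j) (hηc j)
  obtain ⟨R', M', hM', hE'⟩ := exists_Eta hg hgc
  obtain ⟨X, hX⟩ : ∃ X, ∀ x ∈ insert R' (Finset.univ.image R), x ≤ X :=
    ⟨(insert R' (Finset.univ.image R)).max' (Finset.insert_nonempty _ _),
      fun x hx => Finset.le_max' _ x hx⟩
  obtain ⟨lam, hlam⟩ : ∃ lam, ∀ x ∈ insert M' (Finset.univ.image M), x ≤ lam :=
    ⟨(insert M' (Finset.univ.image M)).max' (Finset.insert_nonempty _ _),
      fun x hx => Finset.le_max' _ x hx⟩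
  have hX1 : R' ≤ X := hX _ (Finset.mem_insert_self _ _)
  have hX2 : ∀ j, R j ≤ X := fun j =>
    hX _ (Finset.mem_insert_of_mem (Finset.mem_image_of_mem _ (Finset.mem_univ j)))
  have hl1 : M' ≤ lam := hlam _ (Finset.mem_insert_self _ _)
  have hl2 : ∀ j, M j ≤ lam := fun j =>
    hlam _ (Finset.mem_insert_of_mem (Finset.mem_image_of_mem _ (Finset.mem_univ j)))
  have hl0 : 0 < lam := hM'.trans_le hl1
  set c : ℝ := (1 / lam) ^ 2 with hc
  have hc0 : 0 < c := by positivity
  have hcn : 0 < c ^ (n + 1) := by positivity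
  have hall : ∀ᶠ T : ℝ in atTop, ∀ b : (Fin n → Bool) × Bool, ∀ a : Fin n → ℝ,
      (∀ j, 0 ≤ a j) → ∀ α : ℝ, 1 ≤ α →
      ((3 / 2 - α - ∑ j, a j) * (∏ j, (a j * ∫ v, rf (b.1 j) (fun v => η j v / lam) v ^ 2)) *
        (∫ v, rf b.2 (fun v => g v / lam) v ^ 2) - ε * c ^ (n + 1)) *
        (T * Real.log T ^ (n + 1)) ≤
      ∫ t in (0 : ℝ)..T, (∏ j, ‖linStat (rf (b.1 j) (fun v => η j v / lam)) (a j) T t‖ ^ 2) *
        ‖linStat (rf b.2 (fun v => g v / lam)) α T t‖ ^ 2 := by
    refine Filter.eventually_all.2 fun b => ?_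
    refine zeros_core hRH (fun j => hE j lam (hl2 j) X (hX2 j) (b.1 j)) (fun j v => ?_)
      (hE' lam hl1 X hX1 b.2) (by positivity)
    unfold rf
    split_ifs
    · exact div_nonneg (hη0 j _) hl0.le
    · exact div_nonneg (hη0 j _) hl0.le
  filter_upwards [hall] with T hT a α hα
  have h := hT (fun j => decide (0 ≤ a j), decide (0 ≤ α)) (fun j => |a j|)
    (fun j => abs_nonneg _) |α| hα
  simp only [int_rf, norm_linStat_rf, norm_linStat_div _ hl0, ← hc] at h
  have e1 : ∀ f : ℝ → ℝ, ∫ v, (f v / lam) ^ 2 = c * ∫ v, f v ^ 2 := by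
    intro f
    rw [← integral_const_mul]
    refine integral_congr_ae (Eventually.of_forall fun v => ?_)
    simp only [hc]
    ring
  have e2 : ∏ j, (|a j| * ∫ v, (η j v / lam) ^ 2) = c ^ n * ∏ j, (|a j| * ∫ v, η j v ^ 2) := by
    have : ∀ j, |a j| * ∫ v, (η j v / lam) ^ 2 = c * (|a j| * ∫ v, η j v ^ 2) := by
      intro j
      rw [e1]
      ring
    simp only [this]
    rw [Finset.prod_mul_distrib, Finset.prod_const, Finset.card_univ, Fintype.card_fin]
  have e3 : (∫ t in (0 : ℝ)..T, (∏ j, c * ‖linStat (η j) (a j) T t‖ ^ 2) *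
      (c * ‖linStat g α T t‖ ^ 2)) = c ^ (n + 1) * ∫ t in (0 : ℝ)..T,
        (∏ j, ‖linStat (η j) (a j) T t‖ ^ 2) * ‖linStat g α T t‖ ^ 2 := by
    rw [← intervalIntegral.integral_const_mul]
    refine intervalIntegral.integral_congr fun t _ => ?_
    show (∏ j, c * ‖linStat (η j) (a j) T t‖ ^ 2) * (c * ‖linStat g α T t‖ ^ 2) =
      c ^ (n + 1) * ((∏ j, ‖linStat (η j) (a j) T t‖ ^ 2) * ‖linStat g α T t‖ ^ 2)
    rw [Finset.prod_mul_distrib, Finset.prod_const, Finset.card_univ, Fintype.card_fin]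
    ring
  rw [e1, e2, e3] at h
  have e4 : ((3 / 2 - |α| - ∑ j, |a j|) * (c ^ n * ∏ j, (|a j| * ∫ v, η j v ^ 2)) *
      (c * ∫ v, g v ^ 2) - ε * c ^ (n + 1)) * (T * Real.log T ^ (n + 1)) =
      c ^ (n + 1) * (((3 / 2 - |α| - ∑ j, |a j|) * (∏ j, (|a j| * ∫ v, η j v ^ 2)) *
        (∫ v, g v ^ 2) - ε) * (T * Real.log T ^ (n + 1))) := by
    ring
  rw [e4] at h
  exact le_of_mul_le_mul_left h hcn

end Pool.Agent.MP_67227b_nt.Gk
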